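import Pool.Agent.H470.DPol

/-!
# The local principle for the differential multiplicities: finite places
-/

set_option autoImplicit false
set_option linter.all false

open Polynomial

namespace Pool.Agent.H470

section
variable {F : Type} [Field F] [Fintype F] [DecidableEq F]

/-- the number of solutions of `x ^ e + (1 - x) ^ e = v` -/
def cnt (e : ℕ) (v : F) : ℕ := (Finset.univ.filter fun x : F => x ^ e + (1 - x) ^ e = v).card

/-- the quadratic character sum over the critical points with value `v` -/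
def tw (e : ℕ) (v : F) : ℤ :=
  ∑ y ∈ Finset.univ.filter fun y : F => y ^ e + (1 - y) ^ e = v ∧ y ^ (e - 1) = (1 - y) ^ (e - 1),
    quadraticChar F (y * (1 - y))

theorem qc_mul_sq (a b : F) (hb : b ≠ 0) : quadraticChar F (a * b ^ 2) = quadraticChar F a := by
  rw [map_mul, map_pow, quadraticChar_sq_one hb, mul_one]

theorem A_props {e : ℕ} (he : Odd e) (h1 : 1 < e) (hee : (e : F) ≠ 0) :
    (C (e : F)⁻¹ * dP F e).Monic ∧ (C (e : F)⁻¹ * dP F e).natDegree = e - 1 := by
  have hle : (C (e : F)⁻¹ * dP F e).natDegree ≤ e - 1 :=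
    (natDegree_C_mul_le _ _).trans (dP_natDegree_le he)
  have hc : (C (e : F)⁻¹ * dP F e).coeff (e - 1) = 1 := by
    rw [coeff_C_mul, dP_coeff_top he h1, inv_mul_cancel₀ hee]
  refine ⟨monic_of_natDegree_le_of_coeff_eq_one _ hle hc, ?_⟩
  exact natDegree_eq_of_le_of_coeff_ne_zero hle (by rw [hc]; exact one_ne_zero)

/-- **Finite places.** -/
theorem finite_places (e : ℕ) (he : Odd e) (h1 : 1 < e) : ∃ C0 : ℕ, ∀ (F : Type) [Field F] [Fintype F]
    [DecidableEq F], C0 < Fintype.card F → ringChar F ≠ 2 → (e : F) ≠ 0 → ((e - 1 : ℕ) : F) ≠ 0 →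
    ∀ (v0 v c : F), c ≠ 0 → ∃ t, t ≠ v0 ∧
      (cnt e t : ℤ) = cnt e v + quadraticChar F c * quadraticChar F (2 * e * (e - 1 : ℕ)) * tw e v := by
  classical
  obtain ⟨C0, hC0⟩ := local_principle (e - 1) 2 1 (by omega) (by omega)
  refine ⟨C0, ?_⟩
  intro F _ _ _ hC hchar hee hee1 v0 v c hc
  have h2F : (2 : F) ≠ 0 := Ring.two_ne_zero hchar
  let k := AlgebraicClosure F
  have hinj := (algebraMap F k).injective
  have h2k : (2 : k) ≠ 0 := by
    have := (map_ne_zero_iff (algebraMap F k) hinj).2 h2F
    rwa [map_ofNat] at this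
  have heek : (e : k) ≠ 0 := by
    have := (map_ne_zero_iff (algebraMap F k) hinj).2 hee
    rwa [map_natCast] at this
  have heek1 : ((e - 1 : ℕ) : k) ≠ 0 := by
    have := (map_ne_zero_iff (algebraMap F k) hinj).2 hee1
    rwa [map_natCast] at this
  obtain ⟨hAm, hAn⟩ := A_props (F := F) he h1 hee
  set A := C (e : F)⁻¹ * dP F e with hA
  set B : F[X] := C (e : F)⁻¹ with hB
  have hinv : (e : F)⁻¹ ≠ 0 := inv_ne_zero hee
  have hBd : B.degree < A.degree := by
    rw [hB, degree_C hinv, degree_eq_natDegree hAm.ne_zero, hAn]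
    exact_mod_cast (by omega : 0 < e - 1)
  set P := A - C v * B with hP
  have hPform : P = C (e : F)⁻¹ * (dP F e - C v) := by rw [hP, hA, hB]; ring
  have hPd : (C v * B).degree < A.degree := lt_of_le_of_lt (degree_C_mul_le' _ _) hBd
  have hPm : P.Monic := hAm.sub_of_left hPd
  have hP0 : P ≠ 0 := hPm.ne_zero
  -- second derivatives
  have hdd : ∀ (K : Type) [Field K] (f : F →+* K), ∀ y : K, (e : K) ≠ 0 → ((e - 1 : ℕ) : K) ≠ 0 →
      (P.map f).derivative.eval y = 0 → (P.map f).derivative.derivative.eval y ≠ 0 := by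
    intro K _ f y hK1 hK2 h
    have hform : P.map f = C (f (e : F)⁻¹) * (dP K e - C (f v)) := by
      rw [hPform, Polynomial.map_mul, Polynomial.map_sub, map_C, map_C, dP_map]
    have hf : f (e : F)⁻¹ ≠ 0 := (map_ne_zero_iff f f.injective).2 hinv
    rw [hform] at h ⊢
    simp only [derivative_mul, derivative_C, derivative_sub, zero_mul, zero_add, sub_zero, eval_mul,
      eval_C, mul_eq_zero] at h ⊢
    exact mul_ne_zero hf (dP_double (by omega) hK1 hK2 y (h.resolve_left hf))
  have hmultk : ∀ y : k, (P.map (algebraMap F k)).IsRoot y →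
      (P.map (algebraMap F k)).rootMultiplicity y = 1 ∨ (P.map (algebraMap F k)).rootMultiplicity y = 2 := by
    intro y hy
    rcases mult_le_two h2k (P.map (algebraMap F k)) (hPm.map _).ne_zero y hy
      (hdd k (algebraMap F k) y heek heek1) with h | h
    · exact Or.inl h.2
    · exact Or.inr h.2
  have hdd' : ∀ y : F, P.derivative.eval y = 0 → P.derivative.derivative.eval y ≠ 0 := by
    intro y h
    have := hdd F (RingHom.id F) y hee hee1
    rw [Polynomial.map_id] at this
    exact this h
  obtain ⟨t, ht, hcount⟩ := hC0 F k (by rw [Nat.card_eq_fintype_card]; exact hC) A B hAm hAn hBd v c hc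
    (by
      intro y _
      rw [hB, map_C, eval_C]
      exact (map_ne_zero_iff (algebraMap F k) hinj).2 hinv)
    (by
      intro y hy
      rcases hmultk y hy with h | h
      · rw [h]; simp
      · rw [h]; exact_mod_cast h2k)
    (by
      intro y hy
      rcases hmultk y hy with h | h
      · rw [h]; exact one_dvd _
      · rw [h])
    {v0} (by simp)
  refine ⟨t, by simpa using ht, ?_⟩
  have hcnt : ∀ t : F, {z : F | (A - C t * B).eval z = 0}.ncard = cnt e t := by
    intro t
    unfold cnt
    rw [← Set.ncard_coe_finset]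
    congr 1
    ext z
    rw [hA, hB]
    simp only [Set.mem_setOf_eq, Finset.coe_filter, Finset.mem_univ, true_and, eval_sub, eval_mul, eval_C,
      dP_eval]
    constructor
    · intro h
      have h3 : (e : F)⁻¹ * (z ^ e + (1 - z) ^ e - t) = 0 := by rw [← h]; ring
      exact sub_eq_zero.1 ((mul_eq_zero.1 h3).resolve_left hinv)
    · intro h
      rw [h]
      ring
  rw [hcnt] at hcount
  rw [hcount, FixN_eq hchar P B hP0 c hc
    (by
      intro y _
      rw [hB, eval_C]
      exact hinv)
    (by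
      intro y hy
      rcases mult_le_two h2F P hP0 y hy (hdd' y) with h | h
      · exact Or.inl h.2
      · exact Or.inr h.2)]
  have hroot : ∀ y : F, P.eval y = 0 ↔ y ^ e + (1 - y) ^ e = v := by
    intro y
    rw [hPform]
    simp only [eval_mul, eval_sub, eval_C, dP_eval, mul_eq_zero]
    constructor
    · intro h
      exact sub_eq_zero.1 (h.resolve_left hinv)
    · intro h
      exact Or.inr (sub_eq_zero.2 h)
  have hcard : (Finset.univ.filter fun y : F => P.eval y = 0).card = cnt e v := by
    unfold cnt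
    congr 1
    ext y
    simp only [Finset.mem_filter, Finset.mem_univ, true_and]
    exact hroot y
  rw [hcard]
  congr 1
  rw [mul_assoc]
  congr 1
  unfold tw
  rw [Finset.mul_sum]
  have hder : ∀ y : F, P.derivative.eval y = 0 ↔ y ^ (e - 1) = (1 - y) ^ (e - 1) := by
    intro y
    rw [hPform]
    simp only [derivative_mul, derivative_C, derivative_sub, zero_mul, zero_add, sub_zero, eval_mul, eval_C,
      dP_derivative, eval_sub, eval_pow, eval_X, eval_one]
    constructor
    · intro h
      have h3 := (mul_eq_zero.1 h).resolve_left hinv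
      exact sub_eq_zero.1 ((mul_eq_zero.1 h3).resolve_left hee)
    · intro h
      rw [h]
      ring
  have hset : (Finset.univ.filter fun y : F => P.eval y = 0 ∧ P.rootMultiplicity y = 2) =
      Finset.univ.filter fun y : F => y ^ e + (1 - y) ^ e = v ∧ y ^ (e - 1) = (1 - y) ^ (e - 1) := by
    ext y
    simp only [Finset.mem_filter, Finset.mem_univ, true_and]
    constructor
    · rintro ⟨h3, h4⟩
      refine ⟨(hroot y).1 h3, ?_⟩
      rcases mult_le_two h2F P hP0 y h3 (hdd' y) with h | h
      · omega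
      · exact (hder y).1 h.1
    · rintro ⟨h3, h4⟩
      have h3' := (hroot y).2 h3
      refine ⟨h3', ?_⟩
      rcases mult_le_two h2F P hP0 y h3' (hdd' y) with h | h
      · exact absurd ((hder y).2 h4) h.1
      · exact h.2
  rw [hset]
  refine Finset.sum_congr rfl fun y hy => ?_
  have hy2 : y ∈ Finset.univ.filter fun y : F => P.eval y = 0 ∧ P.rootMultiplicity y = 2 := by
    rw [hset]; exact hy
  simp only [Finset.mem_filter, Finset.mem_univ, true_and] at hy hy2
  have hcr := hy.2
  have hcd := cof_double P y hy2.2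
  have hder2 : P.derivative.derivative.eval y =
      (e : F)⁻¹ * ((e : F) * ((e - 1 : ℕ) : F) * (y ^ (e - 2) + (1 - y) ^ (e - 2))) := by
    rw [hPform]
    simp only [derivative_mul, derivative_C, derivative_sub, zero_mul, zero_add, sub_zero, eval_mul, eval_C,
      dP_derivative2, eval_sub, eval_pow, eval_X, eval_one, eval_add]
  have hid := crit_identity (by omega : 2 ≤ e) y hcr
  have hy0 := crit_ne_zero (by omega : 2 ≤ e) y hcr
  have hy1 := crit_ne_one (by omega : 2 ≤ e) y hcr
  -- the square class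
  obtain ⟨m, hm⟩ : ∃ m, e - 1 = 2 * m := by
    obtain ⟨m, hm⟩ := he
    exact ⟨m, by omega⟩
  have hcof : B.eval y * cof P y * (2 * e * y * (1 - y)) ^ 2 =
      (2 * e * (e - 1 : ℕ)) * (y * (1 - y)) * (y ^ m) ^ 2 := by
    have h3 : 2 * cof P y = (e : F)⁻¹ * ((e : F) * ((e - 1 : ℕ) : F) * (y ^ (e - 2) + (1 - y) ^ (e - 2))) := by
      rw [← hcd, hder2]
    have h4 : (y ^ m) ^ 2 = y * (1 - y) * (y ^ (e - 2) + (1 - y) ^ (e - 2)) := by
      rw [hid, hm, ← pow_mul, mul_comm]
    rw [h4]
    have h5 : B.eval y * cof P y * (2 * e * y * (1 - y)) ^ 2 =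
        B.eval y * (2 * cof P y) * 2 * (e * y * (1 - y)) ^ 2 := by ring
    rw [h5, h3, hB, eval_C]
    field_simp
  have hne : (2 * (e : F) * y * (1 - y)) ≠ 0 :=
    mul_ne_zero (mul_ne_zero (mul_ne_zero h2F hee) hy0) hy1
  have e1 := qc_mul_sq (B.eval y * cof P y) _ hne
  have e2 := qc_mul_sq ((2 * (e : F) * ((e - 1 : ℕ) : F)) * (y * (1 - y))) (y ^ m) (pow_ne_zero _ hy0)
  rw [hcof, e2] at e1
  rw [← e1, map_mul]

end

end Pool.Agent.H470
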