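import Pool.Agent.H470.App1

/-!
# The local principle for the differential multiplicities: the infinite place
-/

set_option autoImplicit false
set_option linter.all false

open Polynomial

namespace Pool.Agent.H470

theorem rootMult_X_pow {K : Type*} [Field K] (n : ℕ) : (X ^ n : K[X]).rootMultiplicity 0 = n := by
  have := rootMultiplicity_X_sub_C_pow (0 : K) n
  rwa [C_0, sub_zero] at this

theorem cof_X_pow {K : Type*} [Field K] (n : ℕ) : cof (X ^ n : K[X]) 0 = 1 := by
  unfold cof
  rw [rootMult_X_pow, C_0, sub_zero]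
  have h : (X ^ n * 1 : K[X]) /ₘ X ^ n = 1 := mul_divByMonic_cancel_left 1 (monic_X_pow n)
  rw [mul_one] at h
  rw [h, eval_one]

/-- **The infinite place.** -/
theorem inf_place (e : ℕ) (he : Odd e) (h1 : 1 < e) : ∃ C0 : ℕ, ∀ (F : Type) [Field F] [Fintype F]
    [DecidableEq F], C0 < Fintype.card F → (e : F) ≠ 0 → ((e - 1 : ℕ) : F) ≠ 0 →
    ∀ (v0 : F), ∃ t, t ≠ v0 ∧
      cnt e t = (Finset.univ.filter fun z : F => z ^ (e - 1) = 1).card := by
  classical
  obtain ⟨C0, hC0⟩ := local_principle (e - 1) (e - 1) 2 (by omega) (by omega)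
  refine ⟨C0, ?_⟩
  intro F _ _ _ hC hee hee1 v0
  have h3 : 3 ≤ e := by
    obtain ⟨m, hm⟩ := he
    omega
  let k := AlgebraicClosure F
  have hinj := (algebraMap F k).injective
  have heek : (e : k) ≠ 0 := by
    have := (map_ne_zero_iff (algebraMap F k) hinj).2 hee
    rwa [map_natCast] at this
  have heek1 : ((e - 1 : ℕ) : k) ≠ 0 := by
    have := (map_ne_zero_iff (algebraMap F k) hinj).2 hee1
    rwa [map_natCast] at this
  set n := e - 1 with hn
  set f : F[X] := dP F e - 1 with hf
  have hfn : f.natDegree ≤ n := by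
    rw [hf]
    refine (natDegree_sub_le _ _).trans (max_le (dP_natDegree_le he) ?_)
    rw [natDegree_one]
    omega
  have hf0 : f.coeff 0 = 0 := by
    rw [coeff_zero_eq_eval_zero, hf, eval_sub, dP_eval, eval_one, zero_pow (by omega)]
    simp
  have hfn' : f.coeff n = e := by
    rw [hf, coeff_sub, hn, dP_coeff_top he h1, coeff_one, if_neg (by omega), sub_zero]
  set B := reflect n f with hB
  have hB0 : B.eval 0 = e := by
    rw [← coeff_zero_eq_eval_zero, hB, coeff_reflect, revAt_le (by omega), Nat.sub_zero, hfn']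
  have hBd : B.degree < (X ^ n : F[X]).degree := by
    rw [degree_X_pow, degree_lt_iff_coeff_zero]
    intro m hm
    rw [hB, coeff_reflect]
    rcases hm.lt_or_eq with h | h
    · rw [revAt_eq_self_of_lt h]
      exact coeff_eq_zero_of_natDegree_lt (lt_of_le_of_lt hfn h)
    · rw [← h, revAt_le le_rfl, Nat.sub_self, hf0]
  have hPk : (X ^ n - C 0 * B : F[X]).map (algebraMap F k) = X ^ n := by
    rw [C_0, zero_mul, sub_zero, Polynomial.map_pow, map_X]
  have hroot0 : ∀ y : k, ((X ^ n - C 0 * B : F[X]).map (algebraMap F k)).IsRoot y → y = 0 := by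
    intro y hy
    rw [hPk] at hy
    have : y ^ n = 0 := by simpa using hy
    exact (pow_eq_zero_iff (by omega)).1 this
  obtain ⟨t, ht, hcount⟩ := hC0 F k (by rw [Nat.card_eq_fintype_card]; exact hC) (X ^ n) B
    (monic_X_pow n) (natDegree_X_pow n) hBd 0 ((e : F)⁻¹) (inv_ne_zero hee)
    (by
      intro y hy
      rw [hroot0 y hy]
      have h4 : (B.map (algebraMap F k)).eval 0 = algebraMap F k (B.eval 0) := by
        rw [← eval_map_apply, map_zero]
      rw [h4, hB0]
      exact (map_ne_zero_iff (algebraMap F k) hinj).2 hee)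
    (by
      intro y hy
      rw [hroot0 y hy, hPk, rootMult_X_pow]
      exact heek1)
    (by
      intro y hy
      rw [hroot0 y hy, hPk, rootMult_X_pow])
    {0, (v0 - 1)⁻¹} (Finset.card_le_two)
  rw [Finset.mem_insert, Finset.mem_singleton, not_or] at ht
  obtain ⟨ht0, ht1⟩ := ht
  refine ⟨1 + t⁻¹, ?_, ?_⟩
  · intro h
    apply ht1
    rw [← h]
    simp
  -- the count
  have hkey : ∀ y : F, y ≠ 0 → B.eval y⁻¹ * y ^ n = y ^ e + (1 - y) ^ e - 1 := by
    intro y hy
    letI : Invertible y := invertibleOfNonzero hy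
    have h4 := eval₂_reflect_mul_pow (RingHom.id F) y n f hfn
    rw [invOf_eq_inv] at h4
    rw [hB]
    have h5 : eval₂ (RingHom.id F) y⁻¹ (reflect n f) = (reflect n f).eval y⁻¹ := rfl
    have h6 : eval₂ (RingHom.id F) y f = f.eval y := rfl
    rw [h5, h6] at h4
    rw [h4, hf, eval_sub, dP_eval, eval_one]
  have hL : {z : F | (X ^ n - C t * B).eval z = 0}.ncard = cnt e (1 + t⁻¹) := by
    unfold cnt
    rw [← Set.ncard_coe_finset]
    refine Set.ncard_congr (fun z _ => z⁻¹) ?_ ?_ ?_
    · intro z hz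
      simp only [Set.mem_setOf_eq, eval_sub, eval_pow, eval_X, eval_mul, eval_C] at hz
      have hz0 : z ≠ 0 := by
        rintro rfl
        rw [zero_pow (by omega), hB0, zero_sub, neg_eq_zero, mul_eq_zero] at hz
        exact hz.elim ht0 hee
      have h4 := hkey z⁻¹ (inv_ne_zero hz0)
      rw [inv_inv] at h4
      rw [Finset.mem_coe, Finset.mem_filter]
      refine ⟨Finset.mem_univ _, ?_⟩
      have h5 : B.eval z = z ^ n * t⁻¹ := by
        rw [sub_eq_zero.1 hz]
        field_simp
      rw [h5] at h4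
      have h6 : z ^ n * t⁻¹ * z⁻¹ ^ n = t⁻¹ := by
        rw [inv_pow]
        field_simp
      rw [h6] at h4
      rw [h4]
      ring
    · intro a b _ _ h
      exact inv_injective h
    · intro y hy
      rw [Finset.mem_coe, Finset.mem_filter] at hy
      have hy0 : y ≠ 0 := by
        rintro rfl
        have := hy.2
        rw [zero_pow (by omega), sub_zero, one_pow, zero_add] at this
        have h7 : t⁻¹ = 0 := by
          have := sub_eq_zero.2 this
          ring_nf at this
          simpa using this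
        exact ht0 (inv_eq_zero.1 h7)
      refine ⟨y⁻¹, ?_, inv_inv y⟩
      simp only [Set.mem_setOf_eq, eval_sub, eval_pow, eval_X, eval_mul, eval_C]
      have h4 := hkey y hy0
      rw [hy.2] at h4
      have h5 : B.eval y⁻¹ = t⁻¹ * y⁻¹ ^ n := by
        have h6 : B.eval y⁻¹ * y ^ n = t⁻¹ := by rw [h4]; ring
        rw [← h6, inv_pow]
        field_simp
      rw [h5]
      field_simp
      ring
  rw [hL] at hcount
  rw [hcount]
  unfold FixN
  rw [C_0, zero_mul, sub_zero, ← Set.ncard_coe_finset]
  refine Set.ncard_congr (fun z _ => z.2) ?_ ?_ ?_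
  · rintro ⟨y, w⟩ ⟨h4, h5⟩
    have hy0 : y = 0 := by
      have : y ^ n = 0 := by simpa using h4
      exact (pow_eq_zero_iff (by omega)).1 this
    subst hy0
    simp only at h5
    rw [rootMult_X_pow, cof_X_pow, hB0, inv_mul_cancel₀ hee, mul_one] at h5
    simpa using h5
  · rintro ⟨y, w⟩ ⟨y', w'⟩ ⟨h4, -⟩ ⟨h4', -⟩ h
    have hy0 : y = 0 := by
      have : y ^ n = 0 := by simpa using h4
      exact (pow_eq_zero_iff (by omega)).1 this
    have hy0' : y' = 0 := by
      have : y' ^ n = 0 := by simpa using h4'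
      exact (pow_eq_zero_iff (by omega)).1 this
    exact Prod.ext (hy0.trans hy0'.symm) h
  · intro w hw
    rw [Finset.mem_coe, Finset.mem_filter] at hw
    refine ⟨(0, w), ⟨?_, ?_⟩, rfl⟩
    · simp only [IsRoot.def, eval_pow, eval_X]
      exact zero_pow (by omega)
    · simp only
      rw [rootMult_X_pow, cof_X_pow, hB0, inv_mul_cancel₀ hee, mul_one]
      exact hw.2

end Pool.Agent.H470
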