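import Pool.Agent.H470.Sym

/-!
# Points and lines: an elementary second moment bound
-/

set_option autoImplicit false
set_option linter.all false

namespace Pool.Agent.H470

section
variable {L : Type} [Field L] [Fintype L] [DecidableEq L]

/-- number of points of `A × B` on the line with slope `b` and intercept `c` -/
def inc (A B : Finset L) (b c : L) : ℤ := ∑ a ∈ A, if b * a + c ∈ B then 1 else 0

theorem shift_count (B : Finset L) (d : L) :
    ∑ c : L, (if d + c ∈ B then (1 : ℤ) else 0) = B.card := by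
  have h1 : ∑ c : L, (if d + c ∈ B then (1 : ℤ) else 0) = ∑ c : L, (if c ∈ B then (1 : ℤ) else 0) :=
    Fintype.sum_equiv (Equiv.addLeft d) _ _ (fun c => rfl)
  rw [h1, Finset.sum_ite_mem, Finset.univ_inter]
  simp

theorem inc_sum (A B : Finset L) :
    ∑ b : L, ∑ c : L, inc A B b c = Fintype.card L * A.card * B.card := by
  unfold inc
  have h1 : ∀ b : L, ∑ c : L, ∑ a ∈ A, (if b * a + c ∈ B then (1 : ℤ) else 0) = A.card * B.card := by
    intro b
    rw [Finset.sum_comm]
    rw [Finset.sum_congr rfl (fun a _ => shift_count B (b * a))]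
    simp
  rw [Finset.sum_congr rfl (fun b _ => h1 b)]
  simp
  ring

theorem two_count (B : Finset L) (a a' : L) (h : a ≠ a') :
    ∑ b : L, ∑ c : L, ((if b * a + c ∈ B then (1 : ℤ) else 0) * (if b * a' + c ∈ B then (1 : ℤ) else 0)) =
      B.card * B.card := by
  have h0 : a - a' ≠ 0 := sub_ne_zero.2 h
  rw [← Fintype.sum_prod_type' (f := fun b c : L =>
    ((if b * a + c ∈ B then (1 : ℤ) else 0) * (if b * a' + c ∈ B then (1 : ℤ) else 0)))]
  let e : L × L ≃ L × L :=
    { toFun := fun p => (p.1 * a + p.2, p.1 * a' + p.2)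
      invFun := fun p => ((p.1 - p.2) / (a - a'), p.1 - (p.1 - p.2) / (a - a') * a)
      left_inv := by
        rintro ⟨b, c⟩
        have e1 : (b * a + c - (b * a' + c)) / (a - a') = b := by
          rw [div_eq_iff h0]
          ring
        refine Prod.ext e1 ?_
        show b * a + c - (b * a + c - (b * a' + c)) / (a - a') * a = c
        rw [e1]
        ring
      right_inv := by
        rintro ⟨u, w⟩
        have e1 : (u - w) / (a - a') * (a - a') = u - w := div_mul_cancel₀ _ h0
        refine Prod.ext ?_ ?_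
        · show (u - w) / (a - a') * a + (u - (u - w) / (a - a') * a) = u
          ring
        · show (u - w) / (a - a') * a' + (u - (u - w) / (a - a') * a) = w
          linear_combination -e1 }
  have h1 := Fintype.sum_equiv e (fun p : L × L =>
    ((if p.1 * a + p.2 ∈ B then (1 : ℤ) else 0) * (if p.1 * a' + p.2 ∈ B then (1 : ℤ) else 0)))
    (fun p : L × L => (if p.1 ∈ B then (1 : ℤ) else 0) * (if p.2 ∈ B then (1 : ℤ) else 0))
    (fun p => rfl)
  rw [h1, Fintype.sum_prod_type]
  have h2 : ∀ x : L, ∑ y : L, ((if x ∈ B then (1 : ℤ) else 0) * (if y ∈ B then (1 : ℤ) else 0)) =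
      (if x ∈ B then (1 : ℤ) else 0) * B.card := by
    intro x
    rw [← Finset.mul_sum]
    congr 1
    simp
  rw [Finset.sum_congr rfl (fun x _ => h2 x), ← Finset.sum_mul]
  simp

theorem inc_sq (A B : Finset L) :
    ∑ b : L, ∑ c : L, (inc A B b c) ^ 2 =
      Fintype.card L * A.card * B.card + (A.card * A.card - A.card) * (B.card * B.card) := by
  have h1 : ∀ b c : L, (inc A B b c) ^ 2 = ∑ a ∈ A, ∑ a' ∈ A,
      ((if b * a + c ∈ B then (1 : ℤ) else 0) * (if b * a' + c ∈ B then (1 : ℤ) else 0)) := by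
    intro b c
    unfold inc
    rw [sq, Finset.sum_mul_sum]
  have h2 : ∑ b : L, ∑ c : L, (inc A B b c) ^ 2 = ∑ a ∈ A, ∑ a' ∈ A, ∑ b : L, ∑ c : L,
      ((if b * a + c ∈ B then (1 : ℤ) else 0) * (if b * a' + c ∈ B then (1 : ℤ) else 0)) := by
    simp only [h1]
    have e1 : ∀ b : L, ∑ c : L, ∑ a ∈ A, ∑ a' ∈ A,
        ((if b * a + c ∈ B then (1 : ℤ) else 0) * (if b * a' + c ∈ B then (1 : ℤ) else 0)) =
        ∑ a ∈ A, ∑ a' ∈ A, ∑ c : L,
        ((if b * a + c ∈ B then (1 : ℤ) else 0) * (if b * a' + c ∈ B then (1 : ℤ) else 0)) := by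
      intro b
      rw [Finset.sum_comm]
      apply Finset.sum_congr rfl
      intro a _
      rw [Finset.sum_comm]
    rw [Finset.sum_congr rfl (fun b _ => e1 b), Finset.sum_comm]
    apply Finset.sum_congr rfl
    intro a _
    rw [Finset.sum_comm]
  rw [h2]
  have h3 : ∀ a ∈ A, ∑ a' ∈ A, ∑ b : L, ∑ c : L,
      ((if b * a + c ∈ B then (1 : ℤ) else 0) * (if b * a' + c ∈ B then (1 : ℤ) else 0)) =
      Fintype.card L * B.card + (A.card - 1) * (B.card * B.card) := by
    intro a ha
    rw [← Finset.add_sum_erase A _ ha]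
    congr 1
    · have e1 : ∀ b : L, ∑ c : L,
        ((if b * a + c ∈ B then (1 : ℤ) else 0) * (if b * a + c ∈ B then (1 : ℤ) else 0)) = B.card := by
        intro b
        rw [← shift_count B (b * a)]
        apply Finset.sum_congr rfl
        intro c _
        split_ifs <;> simp
      rw [Finset.sum_congr rfl (fun b _ => e1 b)]
      simp
    · rw [Finset.sum_congr rfl (fun a' ha' => two_count B a a' (Ne.symm (Finset.ne_of_mem_erase ha')))]
      rw [Finset.sum_const, Finset.card_erase_of_mem ha, nsmul_eq_mul]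
      congr 1
      have : 0 < A.card := Finset.card_pos.2 ⟨a, ha⟩
      push_cast [Nat.cast_sub (show 1 ≤ A.card from this)]
      ring
  rw [Finset.sum_congr rfl h3, Finset.sum_const, nsmul_eq_mul]
  ring

/-- the variance bound -/
theorem inc_var (A B : Finset L) :
    ∑ b : L, ∑ c : L, ((Fintype.card L : ℤ) * inc A B b c - A.card * B.card) ^ 2 ≤
      (Fintype.card L : ℤ) ^ 3 * (A.card * B.card) := by
  have h1 : ∑ b : L, ∑ c : L, ((Fintype.card L : ℤ) * inc A B b c - A.card * B.card) ^ 2 =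
      (Fintype.card L : ℤ) ^ 2 * ∑ b : L, ∑ c : L, (inc A B b c) ^ 2
      - 2 * (Fintype.card L : ℤ) * (A.card * B.card) * ∑ b : L, ∑ c : L, inc A B b c
      + ∑ b : L, ∑ c : L, ((A.card : ℤ) * B.card) ^ 2 := by
    rw [Finset.mul_sum, Finset.mul_sum, ← Finset.sum_sub_distrib, ← Finset.sum_add_distrib]
    apply Finset.sum_congr rfl
    intro b _
    rw [Finset.mul_sum, Finset.mul_sum, ← Finset.sum_sub_distrib, ← Finset.sum_add_distrib]
    apply Finset.sum_congr rfl
    intro c _
    ring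
  rw [h1, inc_sq, inc_sum]
  simp only [Finset.sum_const, Finset.card_univ, nsmul_eq_mul]
  have h2 : (0 : ℤ) ≤ (Fintype.card L : ℤ) ^ 2 * (A.card * (B.card * B.card)) := by positivity
  nlinarith [h2]

/-- cyclotomic numbers: for a multiplicative subgroup `x ^ m = 1` and a coset `x ^ m = c` -/
theorem cyc_bound (m : ℕ) (hm : 0 < m) (c : L) (γ : ℕ)
    (hΓ : (Finset.univ.filter fun x : L => x ^ m = 1).card = γ)
    (hC : (Finset.univ.filter fun x : L => x ^ m = c).card = γ) (hγ : 0 < γ) :
    ((Fintype.card L : ℤ) * ((Finset.univ.filter fun z : L => z ^ m = 1 ∧ (1 + z) ^ m = c).card : ℤ)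
      - γ * γ) ^ 2 ≤ (Fintype.card L : ℤ) ^ 3 := by
  set A := Finset.univ.filter fun x : L => x ^ m = 1 with hA
  set B := Finset.univ.filter fun x : L => x ^ m = c with hB
  set N := (Finset.univ.filter fun z : L => z ^ m = 1 ∧ (1 + z) ^ m = c).card with hN
  have hA0 : ∀ x ∈ A, x ≠ 0 := by
    intro x hx
    rw [hA, Finset.mem_filter] at hx
    rintro rfl
    rw [zero_pow hm.ne'] at hx
    exact zero_ne_one hx.2
  have h1 : ∀ b ∈ A, ∀ d ∈ A, inc A B b d = N := by
    intro b hb d hd
    have hb0 := hA0 b hb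
    have hd0 := hA0 d hd
    rw [hA, Finset.mem_filter] at hb hd
    unfold inc
    rw [← Finset.sum_filter, Finset.sum_const, nsmul_eq_mul, mul_one, hN]
    congr 1
    refine Finset.card_bij' (fun a _ => b * a / d) (fun z _ => z * d / b) ?_ ?_ ?_ ?_
    · intro a ha
      rw [Finset.mem_filter, hA, Finset.mem_filter, hB, Finset.mem_filter] at ha
      obtain ⟨⟨-, ha1⟩, -, ha2⟩ := ha
      rw [Finset.mem_filter]
      refine ⟨Finset.mem_univ _, ?_, ?_⟩
      · rw [div_pow, mul_pow, hb.2, ha1, hd.2]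
        norm_num
      · have e1 : 1 + b * a / d = (b * a + d) / d := by
          rw [add_div, div_self hd0, add_comm]
        rw [e1, div_pow, ha2, hd.2, div_one]
    · intro z hz
      rw [Finset.mem_filter] at hz
      obtain ⟨-, hz1, hz2⟩ := hz
      rw [Finset.mem_filter, hA, Finset.mem_filter, hB, Finset.mem_filter]
      refine ⟨⟨Finset.mem_univ _, ?_⟩, Finset.mem_univ _, ?_⟩
      · rw [div_pow, mul_pow, hz1, hd.2, hb.2]
        norm_num
      · have e1 : b * (z * d / b) + d = (1 + z) * d := by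
          rw [mul_div_cancel₀ _ hb0]
          ring
        rw [e1, mul_pow, hz2, hd.2, mul_one]
    · intro a _
      field_simp
    · intro z _
      field_simp
  have h2 := inc_var A B
  have h3 : ∑ b ∈ A, ∑ d ∈ A, ((Fintype.card L : ℤ) * inc A B b d - A.card * B.card) ^ 2 ≤
      ∑ b : L, ∑ d : L, ((Fintype.card L : ℤ) * inc A B b d - A.card * B.card) ^ 2 := by
    refine (Finset.sum_le_sum (fun b _ => ?_)).trans
      (Finset.sum_le_sum_of_subset_of_nonneg (Finset.subset_univ A) (fun b _ _ => ?_))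
    · exact Finset.sum_le_sum_of_subset_of_nonneg (Finset.subset_univ A) (fun d _ _ => sq_nonneg _)
    · exact Finset.sum_nonneg (fun d _ => sq_nonneg _)
  have h4 : ∑ b ∈ A, ∑ d ∈ A, ((Fintype.card L : ℤ) * inc A B b d - A.card * B.card) ^ 2 =
      (γ : ℤ) * γ * ((Fintype.card L : ℤ) * N - γ * γ) ^ 2 := by
    rw [Finset.sum_congr rfl (fun b hb => Finset.sum_congr rfl (fun d hd => by rw [h1 b hb d hd, hΓ, hC]))]
    rw [Finset.sum_const, Finset.sum_const, nsmul_eq_mul, nsmul_eq_mul, hΓ]
    ring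
  rw [h4] at h3
  have h5 := h3.trans h2
  rw [hΓ, hC] at h5
  have h6 : (0 : ℤ) < (γ : ℤ) * γ := by positivity
  have h7 : (γ : ℤ) * γ * ((Fintype.card L : ℤ) * N - γ * γ) ^ 2 ≤ (γ : ℤ) * γ * (Fintype.card L : ℤ) ^ 3 := by
    linarith
  exact le_of_mul_le_mul_left h7 h6

end
end Pool.Agent.H470
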