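import Pool.Agent.H470.Aut1

/-!
# Exponents close to an automorphism
-/

set_option autoImplicit false
set_option linter.all false

namespace Pool.Agent.H470

section
variable {L : Type} [Field L] [Fintype L] [DecidableEq L]

/-- the set of values of `x ^ m` on nonzero `x` -/
def MM (L : Type) [Field L] [Fintype L] [DecidableEq L] (m : ℕ) : Finset L :=
  (Finset.univ.filter fun x : L => x ≠ 0).image (fun x => x ^ m)

/-- the derivative -/
def Dm (m : ℕ) (x : L) : L := x ^ (m + 1) + (1 - x) ^ (m + 1)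

theorem mem_MM (m : ℕ) (ω : L) : ω ∈ MM L m ↔ ∃ x : L, x ≠ 0 ∧ x ^ m = ω := by
  unfold MM
  rw [Finset.mem_image]
  constructor
  · rintro ⟨x, hx, h⟩
    rw [Finset.mem_filter] at hx
    exact ⟨x, hx.2, h⟩
  · rintro ⟨x, hx, h⟩
    exact ⟨x, by rw [Finset.mem_filter]; exact ⟨Finset.mem_univ _, hx⟩, h⟩

theorem pow_mem_MM (m : ℕ) {x : L} (hx : x ≠ 0) : x ^ m ∈ MM L m := (mem_MM m _).2 ⟨x, hx, rfl⟩

theorem one_mem_MM (m : ℕ) : (1 : L) ∈ MM L m := (mem_MM m _).2 ⟨1, one_ne_zero, one_pow _⟩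

theorem inv_mem_MM (m : ℕ) {ω : L} (h : ω ∈ MM L m) : ω⁻¹ ∈ MM L m := by
  obtain ⟨x, hx, rfl⟩ := (mem_MM m ω).1 h
  exact (mem_MM m _).2 ⟨x⁻¹, inv_ne_zero hx, inv_pow _ _⟩

theorem card_cls (m : ℕ) (hm : 0 < m) {ω : L} (h : ω ∈ MM L m) :
    (Finset.univ.filter fun x : L => x ^ m = ω).card =
      (Finset.univ.filter fun x : L => x ^ m = 1).card := by
  obtain ⟨x0, hx0, rfl⟩ := (mem_MM m ω).1 h
  refine Finset.card_bij' (fun x _ => x / x0) (fun x _ => x * x0) ?_ ?_ ?_ ?_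
  · intro x hx
    rw [Finset.mem_filter] at hx
    rw [Finset.mem_filter]
    refine ⟨Finset.mem_univ _, ?_⟩
    rw [div_pow, hx.2, div_self (pow_ne_zero _ hx0)]
  · intro x hx
    rw [Finset.mem_filter] at hx
    rw [Finset.mem_filter]
    refine ⟨Finset.mem_univ _, ?_⟩
    rw [mul_pow, hx.2, one_mul]
  · intro x _
    exact div_mul_cancel₀ _ hx0
  · intro x _
    exact mul_div_cancel_right₀ _ hx0

theorem MM_mul (m : ℕ) (hm : 0 < m) : Fintype.card L =
    (MM L m).card * (Finset.univ.filter fun x : L => x ^ m = 1).card + 1 := by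
  have h1 : (Finset.univ.filter fun x : L => x ≠ 0).card + 1 = Fintype.card L := by
    rw [Finset.filter_ne', Finset.card_erase_of_mem (Finset.mem_univ _), Finset.card_univ]
    have := Fintype.card_pos (α := L)
    omega
  rw [← h1]
  congr 1
  rw [Finset.card_eq_sum_card_image (fun x : L => x ^ m)]
  have h2 : ∀ ω ∈ (Finset.univ.filter fun x : L => x ≠ 0).image (fun x : L => x ^ m),
      ((Finset.univ.filter fun x : L => x ≠ 0).filter fun x => x ^ m = ω).card =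
      (Finset.univ.filter fun x : L => x ^ m = 1).card := by
    intro ω hω
    rw [← card_cls m hm (show ω ∈ MM L m from hω)]
    congr 1
    ext x
    rw [Finset.mem_filter, Finset.mem_filter, Finset.mem_filter]
    simp only [Finset.mem_univ, true_and]
    constructor
    · exact fun h => h.2
    · intro h
      refine ⟨?_, h⟩
      rintro rfl
      obtain ⟨y, hy, hy'⟩ := (mem_MM m ω).1 hω
      rw [zero_pow hm.ne'] at h
      rw [← h] at hy'
      exact pow_ne_zero _ hy hy'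
  rw [Finset.sum_congr rfl h2, Finset.sum_const, smul_eq_mul]
  rfl

theorem Dm_eq (m : ℕ) (x : L) : Dm m x = x * x ^ m + (1 - x) * (1 - x) ^ m := by
  unfold Dm
  rw [pow_succ, pow_succ]
  ring

theorem Dm_same (m : ℕ) (x ω : L) (h1 : x ^ m = ω) (h2 : (1 - x) ^ m = ω) : Dm m x = ω := by
  rw [Dm_eq, h1, h2]
  ring

/-- few solutions above the values outside `MM` -/
theorem fc_out (m : ℕ) (hm : 0 < m) (v : L) (hv : v ∉ MM L m) :
    fc (Dm m) v ≤ (MM L m).card * ((MM L m).card - 1) := by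
  have h0 : (MM L m).offDiag.card = (MM L m).card * ((MM L m).card - 1) := by
    rw [Finset.offDiag_card, Nat.mul_sub, mul_one]
  rw [← h0]
  unfold fc
  have hx0 : ∀ x : L, Dm m x = v → x ≠ 0 ∧ 1 - x ≠ 0 ∧ x ^ m ≠ (1 - x) ^ m := by
    intro x hx
    refine ⟨?_, ?_, ?_⟩
    · rintro rfl
      apply hv
      rw [← hx]
      unfold Dm
      rw [zero_pow (by omega), sub_zero, one_pow, zero_add]
      exact one_mem_MM m
    · intro h
      apply hv
      rw [← hx]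
      have : x = 1 := by linear_combination -h
      rw [this]
      unfold Dm
      rw [sub_self, zero_pow (by omega), one_pow, add_zero]
      exact one_mem_MM m
    · intro h
      apply hv
      rw [← hx, Dm_same m x (x ^ m) rfl h.symm]
      apply pow_mem_MM
      rintro rfl
      apply hv
      rw [← hx]
      unfold Dm
      rw [zero_pow (by omega), sub_zero, one_pow, zero_add]
      exact one_mem_MM m
  apply Finset.card_le_card_of_injOn (fun x => (x ^ m, (1 - x) ^ m))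
  · intro x hx
    rw [Finset.mem_coe, Finset.mem_filter] at hx
    obtain ⟨h1, h2, h3⟩ := hx0 x hx.2
    rw [Finset.mem_coe, Finset.mem_offDiag]
    exact ⟨pow_mem_MM m h1, pow_mem_MM m h2, h3⟩
  · intro x hx y hy hxy
    rw [Finset.mem_coe, Finset.mem_filter] at hx hy
    obtain ⟨h1, h2, h3⟩ := hx0 x hx.2
    simp only [Prod.mk.injEq] at hxy
    have e1 := hx.2
    have e2 := hy.2
    rw [Dm_eq] at e1 e2
    rw [← hxy.1, ← hxy.2] at e2
    have e3 : x ^ m - (1 - x) ^ m ≠ 0 := sub_ne_zero.2 h3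
    apply mul_right_cancel₀ e3
    linear_combination e1 - e2

/-- `x ↦ x / (1 - x)` -/
theorem diag_le (m : ℕ) (hm : 0 < m) :
    (Finset.univ.filter fun x : L => x ≠ 0 ∧ 1 - x ≠ 0 ∧ x ^ m = (1 - x) ^ m).card ≤
      (Finset.univ.filter fun x : L => x ^ m = 1).card := by
  apply Finset.card_le_card_of_injOn (fun x => x / (1 - x))
  · intro x hx
    rw [Finset.mem_coe, Finset.mem_filter] at hx
    obtain ⟨-, h1, h2, h3⟩ := hx
    rw [Finset.mem_coe, Finset.mem_filter]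
    refine ⟨Finset.mem_univ _, ?_⟩
    rw [div_pow, h3, div_self (pow_ne_zero _ h2)]
  · intro x hx y hy hxy
    rw [Finset.mem_coe, Finset.mem_filter] at hx hy
    simp only at hxy
    rw [div_eq_div_iff hx.2.2.1 hy.2.2.1] at hxy
    linear_combination hxy

theorem diag_ge (m : ℕ) (hm : 0 < m) :
    (Finset.univ.filter fun x : L => x ^ m = 1).card ≤
    (Finset.univ.filter fun x : L => x ≠ 0 ∧ 1 - x ≠ 0 ∧ x ^ m = (1 - x) ^ m).card + 1 := by
  have h1 : (Finset.univ.filter fun x : L => x ^ m = 1).card ≤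
      ((Finset.univ.filter fun x : L => x ^ m = 1).erase (-1)).card + 1 := by
    have := Finset.pred_card_le_card_erase (s := Finset.univ.filter fun x : L => x ^ m = 1) (a := (-1 : L))
    omega
  refine h1.trans ?_
  apply Nat.add_le_add_right
  apply Finset.card_le_card_of_injOn (fun z => z / (1 + z))
  · intro z hz
    rw [Finset.mem_coe, Finset.mem_erase, Finset.mem_filter] at hz
    obtain ⟨h2, -, h3⟩ := hz
    have hz0 : z ≠ 0 := by
      rintro rfl
      rw [zero_pow hm.ne'] at h3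
      exact zero_ne_one h3
    have hz1 : 1 + z ≠ 0 := by
      intro h
      apply h2
      linear_combination h
    have e1 : 1 - z / (1 + z) = 1 / (1 + z) := by
      field_simp
      ring
    rw [Finset.mem_coe, Finset.mem_filter]
    refine ⟨Finset.mem_univ _, div_ne_zero hz0 hz1, ?_, ?_⟩
    · rw [e1]
      exact div_ne_zero one_ne_zero hz1
    · rw [e1, div_pow, div_pow, h3, one_pow]
  · intro z hz w hw hzw
    rw [Finset.mem_coe, Finset.mem_erase, Finset.mem_filter] at hz hw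
    have hz1 : 1 + z ≠ 0 := by
      intro h
      apply hz.1
      linear_combination h
    have hw1 : 1 + w ≠ 0 := by
      intro h
      apply hw.1
      linear_combination h
    simp only at hzw
    rw [div_eq_div_iff hz1 hw1] at hzw
    linear_combination hzw

/-- some value lies outside `MM` -/
theorem exists_out (m : ℕ) (hm : 0 < m) (h2 : 2 ≤ (MM L m).card)
    (h4 : ((MM L m).card + 1) ^ 4 ≤ Fintype.card L) :
    ∃ x : L, Dm m x ∉ MM L m := by
  by_contra hcon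
  push Not at hcon
  set h := (MM L m).card with hh
  set γ := (Finset.univ.filter fun x : L => x ^ m = 1).card with hγ
  have hq : Fintype.card L = h * γ + 1 := MM_mul m hm
  -- three parts
  have e1 : (Finset.univ : Finset L).card ≤
      ({0, 1} : Finset L).card + (Finset.univ.filter fun x : L => x ≠ 0 ∧ 1 - x ≠ 0 ∧ x ^ m = (1 - x) ^ m).card +
      (Finset.univ.filter fun x : L => x ≠ 0 ∧ 1 - x ≠ 0 ∧ x ^ m ≠ (1 - x) ^ m).card := by
    refine le_trans (Finset.card_le_card (t := ({0, 1} : Finset L) ∪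
      (Finset.univ.filter fun x : L => x ≠ 0 ∧ 1 - x ≠ 0 ∧ x ^ m = (1 - x) ^ m) ∪
      (Finset.univ.filter fun x : L => x ≠ 0 ∧ 1 - x ≠ 0 ∧ x ^ m ≠ (1 - x) ^ m)) ?_) ?_
    · intro x _
      rw [Finset.mem_union, Finset.mem_union, Finset.mem_filter, Finset.mem_filter, Finset.mem_insert,
        Finset.mem_singleton]
      by_cases h0 : x = 0
      · exact Or.inl (Or.inl (Or.inl h0))
      · by_cases h1 : x = 1
        · exact Or.inl (Or.inl (Or.inr h1))
        · have h3 : 1 - x ≠ 0 := fun h => h1 (by linear_combination -h)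
          by_cases h5 : x ^ m = (1 - x) ^ m
          · exact Or.inl (Or.inr ⟨Finset.mem_univ _, h0, h3, h5⟩)
          · exact Or.inr ⟨Finset.mem_univ _, h0, h3, h5⟩
    · exact (Finset.card_union_le _ _).trans (Nat.add_le_add_right (Finset.card_union_le _ _) _)
  have e2 : (Finset.univ.filter fun x : L => x ≠ 0 ∧ 1 - x ≠ 0 ∧ x ^ m ≠ (1 - x) ^ m).card ≤
      ((MM L m).offDiag ×ˢ (MM L m)).card := by
    apply Finset.card_le_card_of_injOn (fun x => ((x ^ m, (1 - x) ^ m), Dm m x))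
    · intro x hx
      rw [Finset.mem_coe, Finset.mem_filter] at hx
      rw [Finset.mem_coe, Finset.mem_product, Finset.mem_offDiag]
      exact ⟨⟨pow_mem_MM m hx.2.1, pow_mem_MM m hx.2.2.1, hx.2.2.2⟩, hcon x⟩
    · intro x hx y hy hxy
      rw [Finset.mem_coe, Finset.mem_filter] at hx hy
      simp only [Prod.mk.injEq] at hxy
      obtain ⟨⟨h5, h6⟩, h7⟩ := hxy
      rw [Dm_eq, Dm_eq, ← h5, ← h6] at h7
      have e3 : x ^ m - (1 - x) ^ m ≠ 0 := sub_ne_zero.2 hx.2.2.2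
      apply mul_right_cancel₀ e3
      linear_combination h7
  rw [Finset.card_product, Finset.offDiag_card, ← hh] at e2
  have e3 := diag_le (L := L) m hm
  rw [← hγ] at e3
  have e4 : ({0, 1} : Finset L).card ≤ 2 := Finset.card_le_two
  rw [Finset.card_univ, hq] at e1
  rw [hq] at h4
  obtain ⟨k, hk⟩ : ∃ k, h = k + 2 := ⟨h - 2, by omega⟩
  rw [hk] at e1 e2 h4
  have e5 : (k + 2) * (k + 2) - (k + 2) = (k + 2) * (k + 1) := by
    have : (k + 2) * (k + 2) = (k + 2) * (k + 1) + (k + 2) := by ring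
    omega
  rw [e5] at e2
  have e6 : (k + 2) * γ + 1 ≤ 2 + γ + (k + 2) * (k + 1) * (k + 2) := by omega
  have e7 : (k + 1) * γ ≤ 1 + (k + 2) * (k + 1) * (k + 2) := by nlinarith
  have e8 : (k + 3) ^ 4 ≤ (k + 2) * γ + 1 := by
    have : k + 2 + 1 = k + 3 := by ring
    rw [this] at h4
    exact h4
  have e9 : (k + 1) * (k + 3) ^ 4 ≤ (k + 2) * ((k + 1) * γ) + (k + 1) := by nlinarith
  have e10 : (k + 2) * ((k + 1) * γ) ≤ (k + 2) * (1 + (k + 2) * (k + 1) * (k + 2)) :=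
    Nat.mul_le_mul_left _ e7
  have e11 : (k + 2) * (1 + (k + 2) * (k + 1) * (k + 2)) + (k + 1) < (k + 1) * (k + 3) ^ 4 := by
    nlinarith [sq_nonneg k, Nat.zero_le k, pow_nonneg (Nat.zero_le k) 2, pow_nonneg (Nat.zero_le k) 3,
      pow_nonneg (Nat.zero_le k) 4, pow_nonneg (Nat.zero_le k) 5]
  omega

/-- the numerical contradiction -/
theorem num_contra (q γ h A N : ℕ) (hq : q = h * γ + 1) (h2 : 2 ≤ h) (h4 : (h + 1) ^ 4 ≤ q)
    (hA : γ ≤ A + h * (h - 1) * (h - 1) + 1) (hAN : A ≤ N)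
    (hb : ((q : ℤ) * N - γ * γ) ^ 2 ≤ (q : ℤ) ^ 3) : False := by
  obtain ⟨k, rfl⟩ : ∃ k, h = k + 2 := ⟨h - 2, by omega⟩
  have e0 : k + 2 - 1 = k + 1 := by omega
  rw [e0] at hA
  obtain ⟨y, hy⟩ : ∃ y : ℝ, y = Real.sqrt q := ⟨_, rfl⟩
  have hy0 : 0 ≤ y := by rw [hy]; exact Real.sqrt_nonneg _
  have hy2 : y ^ 2 = q := by rw [hy]; exact Real.sq_sqrt (Nat.cast_nonneg _)
  have hb' : ((q : ℝ) * N - γ * γ) ^ 2 ≤ (q : ℝ) ^ 3 := by exact_mod_cast hb
  have e1 : (q : ℝ) * N - γ * γ ≤ y ^ 3 := by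
    have e2 : ((q : ℝ) * N - γ * γ) ^ 2 ≤ (y ^ 3) ^ 2 := by
      have : (y ^ 3) ^ 2 = (q : ℝ) ^ 3 := by rw [← hy2]; ring
      rw [this]
      exact hb'
    exact le_of_sq_le_sq e2 (by positivity)
  have hA' : (γ : ℝ) ≤ N + (k + 2) * (k + 1) * (k + 1) + 1 := by
    have : γ ≤ N + (k + 2) * (k + 1) * (k + 1) + 1 := by omega
    exact_mod_cast this
  have hq' : y ^ 2 = (k + 2) * γ + 1 := by
    rw [hy2, hq]
    push_cast
    ring
  have h4' : ((k : ℝ) + 3) ^ 4 ≤ y ^ 2 := by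
    rw [hy2]
    have : ((k + 2 + 1 : ℕ) : ℝ) ^ 4 ≤ (q : ℝ) := by exact_mod_cast h4
    have e3 : ((k + 2 + 1 : ℕ) : ℝ) = (k : ℝ) + 3 := by push_cast; ring
    rw [e3] at this
    exact this
  have hk0 : (0 : ℝ) ≤ k := Nat.cast_nonneg _
  have hy1 : ((k : ℝ) + 3) ^ 2 ≤ y := by
    have : (((k : ℝ) + 3) ^ 2) ^ 2 ≤ y ^ 2 := by
      have e4 : (((k : ℝ) + 3) ^ 2) ^ 2 = ((k : ℝ) + 3) ^ 4 := by ring
      rw [e4]
      exact h4'
    exact le_of_sq_le_sq this hy0
  obtain ⟨t, ht0, ht⟩ : ∃ t : ℝ, 0 ≤ t ∧ y = ((k : ℝ) + 3) ^ 2 + t := ⟨y - ((k : ℝ) + 3) ^ 2, by linarith, by ring⟩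
  -- `G ≥ 1`
  have hG : 1 ≤ ((k : ℝ) + 1) * y ^ 2 - (k + 2) ^ 2 * y -
      ((k + 2) ^ 3 * (k + 1) ^ 2 + (k + 2) ^ 2 + (k + 2) - 2) := by
    rw [ht]
    have e5 : ((k : ℝ) + 1) * (((k : ℝ) + 3) ^ 2 + t) ^ 2 - (k + 2) ^ 2 * (((k : ℝ) + 3) ^ 2 + t) -
      ((k + 2) ^ 3 * (k + 1) ^ 2 + (k + 2) ^ 2 + (k + 2) - 2) =
      (4 * k ^ 4 + 31 * k ^ 3 + 86 * k ^ 2 + 96 * k + 33) +
      t * ((k + 1) * (2 * (k + 3) ^ 2 + t) - (k + 2) ^ 2) := by ring
    rw [e5]
    have e6 : 0 ≤ t * (((k : ℝ) + 1) * (2 * (k + 3) ^ 2 + t) - (k + 2) ^ 2) := by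
      apply mul_nonneg ht0
      nlinarith [mul_nonneg hk0 ht0, mul_nonneg hk0 hk0, mul_nonneg (mul_nonneg hk0 hk0) hk0]
    have e7 : 0 ≤ (k : ℝ) ^ 4 := by positivity
    have e8 : 0 ≤ (k : ℝ) ^ 3 := by positivity
    have e9 : 0 ≤ (k : ℝ) ^ 2 := by positivity
    linarith
  -- conclusion
  have e10 : y ^ 2 * ((γ : ℝ) - 1 - (k + 2) * (k + 1) * (k + 1)) ≤ y ^ 2 * N := by
    apply mul_le_mul_of_nonneg_left _ (by positivity)
    linarith
  rw [← hy2] at e1
  have e11 : y ^ 2 * ((γ : ℝ) - 1 - (k + 2) * (k + 1) * (k + 1)) ≤ γ * γ + y ^ 3 := by linarith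
  have e12 : ((k : ℝ) + 2) ^ 2 * (y ^ 2 * ((γ : ℝ) - 1 - (k + 2) * (k + 1) * (k + 1))) ≤
      (k + 2) ^ 2 * (γ * γ + y ^ 3) := mul_le_mul_of_nonneg_left e11 (by positivity)
  have e13 : ((k : ℝ) + 2) * γ = y ^ 2 - 1 := by linarith
  have e14 : ((k : ℝ) + 2) ^ 2 * (y ^ 2 * ((γ : ℝ) - 1 - (k + 2) * (k + 1) * (k + 1))) =
      y ^ 2 * ((k + 2) * (y ^ 2 - 1) - (k + 2) ^ 2 - (k + 2) ^ 3 * (k + 1) ^ 2) := by
    rw [← e13]
    ring
  have e15 : ((k : ℝ) + 2) ^ 2 * (γ * γ + y ^ 3) = (y ^ 2 - 1) ^ 2 + (k + 2) ^ 2 * y ^ 3 := by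
    rw [← e13]
    ring
  rw [e14, e15] at e12
  have e16 : y ^ 2 * (((k : ℝ) + 1) * y ^ 2 - (k + 2) ^ 2 * y -
      ((k + 2) ^ 3 * (k + 1) ^ 2 + (k + 2) ^ 2 + (k + 2) - 2)) ≤ 1 := by
    nlinarith [e12]
  have e17 : 9 ≤ y := by nlinarith [hy1, hk0, mul_nonneg hk0 hk0]
  have e18 : y ^ 2 * 1 ≤ y ^ 2 * (((k : ℝ) + 1) * y ^ 2 - (k + 2) ^ 2 * y -
      ((k + 2) ^ 3 * (k + 1) ^ 2 + (k + 2) ^ 2 + (k + 2) - 2)) :=
    mul_le_mul_of_nonneg_left hG (by positivity)
  nlinarith [e16, e17, e18]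

end
end Pool.Agent.H470
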