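import Pool.Agent.H470.Niho1

/-!
# Niho exponents: the multiplicities above the elements of norm one
-/

set_option autoImplicit false
set_option linter.all false

open Polynomial

namespace Pool.Agent.H470

section
variable {L : Type} [Field L] [Fintype L] [DecidableEq L]

theorem exists_prim (d : ℕ) (hd : d ∣ Fintype.card L - 1) : ∃ ζ : L, IsPrimitiveRoot ζ d := by
  obtain ⟨g, hg⟩ := IsCyclic.exists_generator (α := Lˣ)
  have h1 : orderOf g = Fintype.card L - 1 := by
    rw [orderOf_eq_card_of_forall_mem_zpowers hg, Nat.card_eq_fintype_card, Fintype.card_units]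
  have h2 : IsPrimitiveRoot g (Fintype.card L - 1) := h1 ▸ IsPrimitiveRoot.orderOf g
  obtain ⟨e, he⟩ := hd
  have hpos : 0 < Fintype.card L - 1 := by
    have := Fintype.one_lt_card (α := L)
    omega
  have h3 := h2.pow hpos (show Fintype.card L - 1 = e * d by rw [he, mul_comm])
  exact ⟨_, IsPrimitiveRoot.coe_units_iff.2 h3⟩

theorem rc (d : ℕ) (hd : d ∣ Fintype.card L - 1) :
    (Finset.univ.filter fun x : L => x ^ d = 1).card = d := by
  obtain ⟨ζ, hζ⟩ := exists_prim d hd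
  have hd0 : 0 < d := by
    rcases Nat.eq_zero_or_pos d with h | h
    · rw [h, zero_dvd_iff] at hd
      have := Fintype.one_lt_card (α := L)
      omega
    · exact h
  have h1 := hζ.card_nthRootsFinset
  have h2 : (Finset.univ.filter fun x : L => x ^ d = 1) = nthRootsFinset d (1 : L) := by
    ext x
    rw [Finset.mem_filter, mem_nthRootsFinset hd0]
    simp only [Finset.mem_univ, true_and]
  rw [h2, h1]

end

namespace NC
variable {L : Type} [Field L] [Fintype L] [DecidableEq L] {Q r : ℕ}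

theorem fact (h : NC L Q r) : Fintype.card L - 1 = (Q - 1) * (Q + 1) := by
  rw [h.card]
  obtain ⟨t, ht⟩ : ∃ t, Q = t + 1 := ⟨Q - 1, by have := h.three; omega⟩
  rw [ht]
  simp only [Nat.add_sub_cancel]
  have : (t + 1) * (t + 1) = t * (t + 1 + 1) + 1 := by ring
  omega

theorem cardK (h : NC L Q r) : (Finset.univ.filter fun x : L => x ^ Q = x).card = Q := by
  have h3 := h.three
  have h1 : (Finset.univ.filter fun x : L => x ^ Q = x) =
      insert 0 (Finset.univ.filter fun x : L => x ^ (Q - 1) = 1) := by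
    ext x
    rw [Finset.mem_insert, Finset.mem_filter, Finset.mem_filter]
    simp only [Finset.mem_univ, true_and]
    constructor
    · intro hx
      by_cases h0 : x = 0
      · exact Or.inl h0
      · exact Or.inr (h.c1 hx h0)
    · rintro (hx | hx)
      · rw [hx, zero_pow (by omega)]
      · rw [← h.psucc, hx, one_mul]
  rw [h1, Finset.card_insert_of_notMem, rc]
  · omega
  · rw [h.fact]
    exact dvd_mul_right _ _
  · rw [Finset.mem_filter]
    rintro ⟨-, h0⟩
    rw [zero_pow (by omega)] at h0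
    exact zero_ne_one h0

theorem normone (u : L) : u * u ^ Q = 1 ↔ u ^ (Q + 1) = 1 := by rw [pow_succ']

theorem card_mu (h : NC L Q r) (m : ℕ) :
    (Finset.univ.filter fun u : L => u * u ^ Q = 1 ∧ u ^ m = 1).card = Nat.gcd m (Q + 1) := by
  have h1 : (Finset.univ.filter fun u : L => u * u ^ Q = 1 ∧ u ^ m = 1) =
      Finset.univ.filter fun u : L => u ^ Nat.gcd m (Q + 1) = 1 := by
    ext u
    rw [Finset.mem_filter, Finset.mem_filter]
    simp only [Finset.mem_univ, true_and]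
    rw [normone, pow_gcd_eq_one]
    exact and_comm
  rw [h1, rc]
  rw [h.fact]
  exact (Nat.gcd_dvd_right _ _).mul_left _

theorem card_Th_one (h : NC L Q r) (m : ℕ) : (Th L Q m 1).card = Nat.gcd m (Q + 1) - 1 := by
  have h1 : Th L Q m 1 = (Finset.univ.filter fun u : L => u * u ^ Q = 1 ∧ u ^ m = 1).erase 1 := by
    ext u
    rw [Finset.mem_erase, Finset.mem_filter]
    unfold Th
    rw [Finset.mem_filter]
    simp only [Finset.mem_univ, true_and]
    tauto
  rw [h1, Finset.card_erase_of_mem, h.card_mu]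
  rw [Finset.mem_filter]
  refine ⟨Finset.mem_univ _, ?_, one_pow _⟩
  rw [one_pow, mul_one]

theorem card_Th_pow (h : NC L Q r) (m : ℕ) (ζ : L) (hζ : ζ * ζ ^ Q = 1) (hm : ζ ^ m ≠ 1) :
    (Th L Q m (ζ ^ m)).card = Nat.gcd m (Q + 1) := by
  rw [← h.card_mu m]
  have hζ0 : ζ ≠ 0 := by
    rintro rfl
    rw [zero_mul] at hζ
    exact zero_ne_one hζ
  refine Finset.card_bij' (fun u _ => u / ζ) (fun u _ => u * ζ) ?_ ?_ ?_ ?_
  · intro u hu
    obtain ⟨h1, h2, h3⟩ := (mem_Th _ _).1 hu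
    rw [Finset.mem_filter]
    refine ⟨Finset.mem_univ _, ?_, ?_⟩
    · rw [div_pow, div_mul_div_comm, h1, hζ, div_one]
    · rw [div_pow, h3, div_self (pow_ne_zero _ hζ0)]
  · intro u hu
    rw [Finset.mem_filter] at hu
    obtain ⟨-, h1, h2⟩ := hu
    refine (mem_Th _ _).2 ⟨?_, ?_, ?_⟩
    · rw [mul_pow]
      linear_combination (ζ * ζ ^ Q) * h1 + hζ
    · intro h3
      apply hm
      have h4 : (u * ζ) ^ m = 1 ^ m := by rw [h3]
      rw [mul_pow, h2, one_mul, one_pow] at h4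
      exact h4
    · rw [mul_pow, h2, one_mul]
  · intro u _
    exact div_mul_cancel₀ _ hζ0
  · intro u _
    exact mul_div_cancel_right₀ _ hζ0

theorem offDiag_mul (S : Finset L) : S.offDiag.card = S.card * (S.card - 1) := by
  rw [Finset.offDiag_card, Nat.mul_sub, mul_one]

/-- **the values forced by the elements of norm one** -/
theorem data (h : NC L Q r) (a : ℕ)
    (ha : ∀ v : L, v ≠ 1 → fc (DD Q r) v = 0 ∨ fc (DD Q r) v = a) :
    ∃ H : ℕ, 2 ≤ H ∧ a = H * (H - 1) ∧ fc (DD Q r) (1 : L) = Q + (H - 1) * (H - 2) := by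
  have hr2 := h.r2
  have hQ3 := h.three
  obtain ⟨ζ, hζ⟩ := exists_prim (L := L) (Q + 1) (by rw [h.fact]; exact dvd_mul_left _ _)
  have hζn : ζ * ζ ^ Q = 1 := (normone ζ).2 hζ.pow_eq_one
  have hζ0 : ζ ≠ 0 := hζ.ne_zero (by omega)
  have hQev : Even (Q + 1) := h.odd.add_one
  set H := Nat.gcd r (Q + 1) with hH
  set H' := Nat.gcd (r - 1) (Q + 1) with hH'
  have hHev : 2 ∣ H := Nat.dvd_gcd (even_iff_two_dvd.1 h.rev) (even_iff_two_dvd.1 hQev)
  have hHpos : 0 < H := Nat.gcd_pos_of_pos_right _ (by omega)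
  have hH'pos : 0 < H' := Nat.gcd_pos_of_pos_right _ (by omega)
  have hH'odd : ¬ 2 ∣ H' := by
    intro h1
    have h2 : 2 ∣ r - 1 := h1.trans (Nat.gcd_dvd_left _ _)
    obtain ⟨t, ht⟩ := h.rev
    omega
  have hH2 : 2 ≤ H := Nat.le_of_dvd hHpos hHev
  have hne1 : ζ ^ r ≠ 1 := fun h0 => h.h1 ((hζ.pow_eq_one_iff_dvd r).1 h0)
  have hne2 : ζ ^ (r - 1) ≠ 1 := fun h0 => h.h2 ((hζ.pow_eq_one_iff_dvd _).1 h0)
  have hnorm : ∀ m : ℕ, ζ ^ m * (ζ ^ m) ^ Q = 1 := by
    intro m
    rw [pow_right_comm, ← mul_pow, hζn, one_pow]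
  -- powers of `ζ`
  have hpw : ∀ u : L, u * u ^ Q = 1 → ∃ i : ℕ, ζ ^ i = u := by
    intro u hu
    rw [normone] at hu
    obtain ⟨i, -, hi⟩ := hζ.eq_pow_of_pow_eq_one hu
    exact ⟨i, hi⟩
  have hmod : ∀ i j : ℕ, ζ ^ i = ζ ^ j → (i : ℤ) ≡ j [ZMOD ((Q + 1 : ℕ) : ℤ)] := by
    intro i j hij
    have h1 : ζ ^ ((j : ℤ) - i) = 1 := by
      rw [zpow_sub₀ hζ0, zpow_natCast, zpow_natCast, hij, div_self (pow_ne_zero _ hζ0)]
    exact (Int.modEq_iff_dvd).2 ((hζ.zpow_eq_one_iff_dvd _).1 h1)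
  -- the value at `ζ ^ r`
  have hfa : fc (DD Q r) (ζ ^ r) = H * (H - 1) := by
    rw [h.fc_ne _ (hnorm r) hne1, offDiag_mul, offDiag_mul, h.card_Th_pow r ζ hζn hne1, ← hH]
    have h1 : (Th L Q (r - 1) (ζ ^ r)).card ≤ 1 := by
      rw [Finset.card_le_one]
      intro u hu w hw
      obtain ⟨hu1, hu2, hu3⟩ := (mem_Th _ _).1 hu
      obtain ⟨hw1, hw2, hw3⟩ := (mem_Th _ _).1 hw
      obtain ⟨i, hi⟩ := hpw u hu1
      have h2 : ζ ^ (i * (r - 1)) = ζ ^ r := by rw [pow_mul, hi, hu3]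
      have h3 := hmod _ _ h2
      -- `r - 1` is coprime to `Q + 1`
      have hcop : Nat.Coprime (r - 1) (Q + 1) := by
        have h4 : ((Q + 1 : ℕ) : ℤ) ∣ (r : ℤ) - (i * (r - 1) : ℕ) := h3.dvd
        rw [Nat.Coprime, ← hH']
        have h5 : (H' : ℤ) ∣ ((Q + 1 : ℕ) : ℤ) := Int.natCast_dvd_natCast.2 (Nat.gcd_dvd_right _ _)
        have h6 : (H' : ℤ) ∣ ((r - 1 : ℕ) : ℤ) := Int.natCast_dvd_natCast.2 (Nat.gcd_dvd_left _ _)
        have h7 := h5.trans h4
        have h8 : (r : ℤ) - (i * (r - 1) : ℕ) = ((r - 1 : ℕ) : ℤ) * (1 - i) + 1 := by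
          push_cast [Nat.cast_sub (show 1 ≤ r by omega)]
          ring
        rw [h8] at h7
        have h9 : (H' : ℤ) ∣ 1 := (Int.dvd_add_right (h6.mul_right _)).1 h7
        exact Nat.dvd_one.1 (Int.natCast_dvd_natCast.1 (by exact_mod_cast h9))
      have hq : (u / w) ^ (r - 1) = 1 := by
        have hw0 : w ≠ 0 := by
          rintro rfl
          rw [zero_mul] at hw1
          exact zero_ne_one hw1
        rw [div_pow, hu3, hw3, div_self (pow_ne_zero _ hζ0)]
      have hq2 : (u / w) ^ (Q + 1) = 1 := by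
        rw [← normone, div_pow, div_mul_div_comm, hu1, hw1, div_one]
      have hq3 : (u / w) ^ Nat.gcd (r - 1) (Q + 1) = 1 := pow_gcd_eq_one.2 ⟨hq, hq2⟩
      rw [hcop, pow_one] at hq3
      have hw0 : w ≠ 0 := by
        rintro rfl
        rw [zero_mul] at hw1
        exact zero_ne_one hw1
      exact (div_eq_one_iff_eq hw0).1 hq3
    have h2 : (Th L Q (r - 1) (ζ ^ r)).card * ((Th L Q (r - 1) (ζ ^ r)).card - 1) = 0 := by
      rcases Nat.le_one_iff_eq_zero_or_eq_one.1 h1 with h3 | h3 <;> rw [h3]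
    rw [h2, add_zero]
  have hHH : 0 < H * (H - 1) := Nat.mul_pos hHpos (by omega)
  have haH : a = H * (H - 1) := by
    rcases ha _ hne1 with h1 | h1
    · rw [hfa] at h1
      omega
    · rw [← h1, hfa]
  -- the value at `ζ ^ (r - 1)`
  have hfb : fc (DD Q r) (ζ ^ (r - 1)) = H' * (H' - 1) := by
    rw [h.fc_ne _ (hnorm _) hne2, offDiag_mul, offDiag_mul, h.card_Th_pow (r - 1) ζ hζn hne2, ← hH']
    have h1 : Th L Q r (ζ ^ (r - 1)) = ∅ := by
      rw [Finset.eq_empty_iff_forall_notMem]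
      intro u hu
      obtain ⟨hu1, hu2, hu3⟩ := (mem_Th _ _).1 hu
      obtain ⟨i, hi⟩ := hpw u hu1
      have h2 : ζ ^ (i * r) = ζ ^ (r - 1) := by rw [pow_mul, hi, hu3]
      have h3 := (hmod _ _ h2).dvd
      have h4 : (2 : ℤ) ∣ ((Q + 1 : ℕ) : ℤ) := by exact_mod_cast even_iff_two_dvd.1 hQev
      have h5 := h4.trans h3
      obtain ⟨t, ht⟩ := h.rev
      have h6 : ((r - 1 : ℕ) : ℤ) - ((i * r : ℕ) : ℤ) = 2 * (t - i * t) - 1 := by
        push_cast [Nat.cast_sub (show 1 ≤ r by omega)]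
        rw [ht]
        push_cast
        ring
      rw [h6] at h5
      omega
    rw [h1]
    simp
  have hH'1 : H' = 1 := by
    by_contra hcon
    have h1 : 2 ≤ H' := by omega
    have h2 : 0 < H' * (H' - 1) := Nat.mul_pos hH'pos (by omega)
    rcases ha _ hne2 with h3 | h3
    · rw [hfb] at h3
      omega
    · rw [hfb, haH] at h3
      have h4 : H' = H := by
        rcases lt_trichotomy H' H with h5 | h5 | h5
        · have : H' * (H' - 1) < H * (H - 1) := by
            apply Nat.mul_lt_mul_of_lt_of_le h5 (by omega) (by omega)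
          omega
        · exact h5
        · have : H * (H - 1) < H' * (H' - 1) := by
            apply Nat.mul_lt_mul_of_lt_of_le h5 (by omega) (by omega)
          omega
      rw [h4] at hH'odd
      exact hH'odd hHev
  refine ⟨H, hH2, haH, ?_⟩
  rw [h.fc_one, h.cardK, offDiag_mul, offDiag_mul, h.card_Th_one, h.card_Th_one, ← hH, ← hH', hH'1]
  have : H - 1 - 1 = H - 2 := by omega
  rw [this]
  simp

end NC
end Pool.Agent.H470
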