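import Mathlib

/-!
# From pairs to single variables, and twists by powers of the characteristic
-/

set_option autoImplicit false
set_option linter.all false

namespace Pool.Agent.H470

section
variable {L : Type} [Field L] [Fintype L] [DecidableEq L]

theorem pairs_eq (s : ℕ) (v : L) :
    (Finset.univ.filter (fun p : L × L => p.1 + p.2 = 1 ∧ p.1 ^ s + p.2 ^ s = v)).card =
      (Finset.univ.filter fun x : L => x ^ s + (1 - x) ^ s = v).card := by
  refine Finset.card_bij' (fun p _ => p.1) (fun x _ => (x, 1 - x)) ?_ ?_ ?_ ?_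
  · rintro ⟨x, y⟩ h
    simp only [Finset.mem_filter, Finset.mem_univ, true_and] at h ⊢
    have : y = 1 - x := by rw [← h.1]; ring
    rw [← this]
    exact h.2
  · intro x h
    simp only [Finset.mem_filter, Finset.mem_univ, true_and] at h ⊢
    exact ⟨by ring, h⟩
  · rintro ⟨x, y⟩ h
    simp only [Finset.mem_filter, Finset.mem_univ, true_and] at h
    have : y = 1 - x := by rw [← h.1]; ring
    rw [← this]
  · intro x _
    rfl

theorem pow_congr (s e j : ℕ) (hs : 0 < s) (he : 0 < e)
    (h : s ≡ e * (ringChar L) ^ j [MOD Fintype.card L - 1]) (x : L) :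
    x ^ s = (x ^ e) ^ (ringChar L) ^ j := by
  by_cases hx : x = 0
  · have hp : ringChar L ≠ 0 := by
      have := CharP.char_ne_zero_of_finite L (ringChar L)
      exact this
    rw [hx, zero_pow hs.ne', zero_pow he.ne', zero_pow (pow_ne_zero _ hp)]
  · rw [← pow_mul]
    have h1 : orderOf (Units.mk0 x hx) ∣ Fintype.card L - 1 := by
      rw [← Fintype.card_units]
      exact orderOf_dvd_card
    have h2 := (h.of_dvd h1)
    have h3 := pow_eq_pow_iff_modEq.2 h2
    have h4 := congrArg Units.val h3
    simpa using h4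

theorem frob_add (j : ℕ) (x y : L) : (x + y) ^ (ringChar L) ^ j = x ^ (ringChar L) ^ j + y ^ (ringChar L) ^ j := by
  haveI : Fact (ringChar L).Prime := ⟨CharP.char_is_prime L (ringChar L)⟩
  exact add_pow_char_pow x y _ _

theorem frob_bij (j : ℕ) : Function.Bijective fun x : L => x ^ (ringChar L) ^ j := by
  haveI : Fact (ringChar L).Prime := ⟨CharP.char_is_prime L (ringChar L)⟩
  rw [← Finite.injective_iff_bijective]
  intro x y h
  exact iterateFrobenius_inj L (ringChar L) j h

/-- the counts for `s` are those for `e` -/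
theorem twist (s e j : ℕ) (hs : 0 < s) (he : 0 < e)
    (h : s ≡ e * (ringChar L) ^ j [MOD Fintype.card L - 1]) (v : L) :
    (Finset.univ.filter (fun p : L × L => p.1 + p.2 = 1 ∧ p.1 ^ s + p.2 ^ s = v ^ (ringChar L) ^ j)).card =
      (Finset.univ.filter fun x : L => x ^ e + (1 - x) ^ e = v).card := by
  rw [pairs_eq]
  congr 1
  ext x
  simp only [Finset.mem_filter, Finset.mem_univ, true_and]
  rw [pow_congr s e j hs he h, pow_congr s e j hs he h, ← frob_add]
  exact ⟨fun h => (frob_bij j).1 h, fun h => by rw [h]⟩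

end

end Pool.Agent.H470
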