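import Pool.Agent.H470.Aut2
import Pool.Agent.H470.Reduce
import Pool.Agent.H470.Niho2

/-!
# Exponents close to an automorphism are not nice
-/

set_option autoImplicit false
set_option linter.all false

namespace Pool.Agent.H470

section
variable {L : Type} [Field L] [Fintype L] [DecidableEq L]

theorem Dm_sym (m : ℕ) (x : L) : Dm m (1 - x) = Dm m x := by
  unfold Dm
  rw [show 1 - (1 - x) = x by ring, add_comm]

theorem Dm_half (h2 : (2 : L) ≠ 0) (m : ℕ) : Dm m (2⁻¹ : L) = (2⁻¹ : L) ^ m := by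
  apply Dm_same m _ _ rfl
  congr 1
  field_simp
  norm_num

theorem not_nice (h2 : (2 : L) ≠ 0) (m : ℕ) (hm : 0 < m) (hM : 2 ≤ (MM L m).card)
    (h4 : ((MM L m).card + 1) ^ 4 ≤ Fintype.card L) :
    4 ≤ (Finset.univ.image (fc (Dm (L := L) m))).card := by
  by_contra hcon
  have hnice : (Finset.univ.image (fc (Dm (L := L) m))).card ≤ 3 := by omega
  obtain ⟨v0, hv0⟩ : ∃ v0 : L, v0 = Dm m (2⁻¹ : L) := ⟨_, rfl⟩
  have hv0M : v0 ∈ MM L m := by
    rw [hv0, Dm_half h2]
    exact pow_mem_MM m (inv_ne_zero h2)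
  obtain ⟨x1, hx1⟩ := exists_out (L := L) m hm hM h4
  have hx1v : Dm m x1 ≠ v0 := by
    intro h
    rw [h] at hx1
    exact hx1 hv0M
  have hbig : fc (Dm m) (Dm m (2⁻¹ : L)) < Fintype.card L := by
    rw [← hv0]
    unfold fc
    rw [← Finset.card_univ]
    apply Finset.card_lt_card
    rw [Finset.ssubset_iff_of_subset (Finset.filter_subset _ _)]
    refine ⟨x1, Finset.mem_univ _, ?_⟩
    rw [Finset.mem_filter]
    rintro ⟨-, h8⟩
    exact hx1v h8
  obtain ⟨a, ha0, hae, hav, v, hv⟩ := nice_fc h2 (Dm m) (Dm_sym m) hnice hbig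
  rw [← hv0] at hav
  obtain ⟨h, hh⟩ : ∃ h, h = (MM L m).card := ⟨_, rfl⟩
  obtain ⟨γ, hγ⟩ : ∃ γ, γ = (Finset.univ.filter fun x : L => x ^ m = 1).card := ⟨_, rfl⟩
  rw [← hh] at hM h4
  have ha : a ≤ h * (h - 1) := by
    have h5 : fc (Dm m) (Dm m x1) ≤ h * (h - 1) := by
      rw [hh]
      exact fc_out m hm _ hx1
    have h6 : 0 < fc (Dm m) (Dm m x1) := by
      unfold fc
      rw [Finset.card_pos]
      exact ⟨x1, by rw [Finset.mem_filter]; exact ⟨Finset.mem_univ _, rfl⟩⟩
    rcases hav (Dm m x1) hx1v with h7 | h7 <;> omega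
  -- the diagonal classes
  obtain ⟨A, hA⟩ : ∃ A, A = (Finset.univ.filter fun x : L =>
    x ≠ 0 ∧ 1 - x ≠ 0 ∧ x ^ m = v0 ∧ (1 - x) ^ m = v0).card := ⟨_, rfl⟩
  have hdiag : (Finset.univ.filter fun x : L => x ≠ 0 ∧ 1 - x ≠ 0 ∧ x ^ m = (1 - x) ^ m).card ≤
      A + h * (h - 1) * (h - 1) := by
    have hmaps : Set.MapsTo (fun x : L => x ^ m)
        ((Finset.univ.filter fun x : L => x ≠ 0 ∧ 1 - x ≠ 0 ∧ x ^ m = (1 - x) ^ m : Finset L) : Set L)
        ((MM L m : Finset L) : Set L) := by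
      intro x hx
      rw [Finset.mem_coe, Finset.mem_filter] at hx
      exact pow_mem_MM m hx.2.1
    rw [Finset.card_eq_sum_card_fiberwise hmaps, ← Finset.add_sum_erase (MM L m) _ hv0M]
    apply Nat.add_le_add
    · rw [hA]
      apply Finset.card_le_card
      intro x hx
      rw [Finset.mem_filter, Finset.mem_filter] at hx
      rw [Finset.mem_filter]
      obtain ⟨⟨-, h5, h6, h7⟩, h8⟩ := hx
      exact ⟨Finset.mem_univ _, h5, h6, h8, by rw [← h7]; exact h8⟩
    · refine (Finset.sum_le_card_nsmul _ _ (h * (h - 1)) ?_).trans ?_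
      · intro ω hω
        rw [Finset.mem_erase] at hω
        have h5 : ((Finset.univ.filter fun x : L => x ≠ 0 ∧ 1 - x ≠ 0 ∧ x ^ m = (1 - x) ^ m).filter
            fun x => x ^ m = ω).card ≤ fc (Dm m) ω := by
          unfold fc
          apply Finset.card_le_card
          intro x hx
          rw [Finset.mem_filter, Finset.mem_filter] at hx
          rw [Finset.mem_filter]
          obtain ⟨⟨-, h5, h6, h7⟩, h8⟩ := hx
          exact ⟨Finset.mem_univ _, Dm_same m x ω h8 (by rw [← h7]; exact h8)⟩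
        refine h5.trans ?_
        rcases hav ω hω.1 with h7 | h7
        · rw [h7]
          exact Nat.zero_le _
        · rw [h7]
          exact ha
      · rw [Finset.card_erase_of_mem hv0M, ← hh, smul_eq_mul, mul_comm]
  have hge := diag_ge (L := L) m hm
  rw [← hγ] at hge
  -- the comparison with a cyclotomic number
  have hAN : A ≤ (Finset.univ.filter fun z : L => z ^ m = 1 ∧ (1 + z) ^ m = v0⁻¹).card := by
    rw [hA]
    apply Finset.card_le_card_of_injOn (fun x => x / (1 - x))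
    · intro x hx
      rw [Finset.mem_coe, Finset.mem_filter] at hx
      obtain ⟨-, h5, h6, h7, h8⟩ := hx
      rw [Finset.mem_coe, Finset.mem_filter]
      refine ⟨Finset.mem_univ _, ?_, ?_⟩
      · rw [div_pow, h7, h8, div_self]
        rw [← h7]
        exact pow_ne_zero _ h5
      · have e1 : 1 + x / (1 - x) = (1 - x)⁻¹ := by
          field_simp
          ring
        rw [e1, inv_pow, h8]
    · intro x hx y hy hxy
      rw [Finset.mem_coe, Finset.mem_filter] at hx hy
      simp only at hxy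
      rw [div_eq_div_iff hx.2.2.1 hy.2.2.1] at hxy
      linear_combination hxy
  have hq : Fintype.card L = h * γ + 1 := by
    rw [hh, hγ]
    exact MM_mul m hm
  have hγ0 : 0 < γ := by
    rcases Nat.eq_zero_or_pos γ with h5 | h5
    · rw [h5, mul_zero, zero_add] at hq
      have := Fintype.one_lt_card (α := L)
      omega
    · exact h5
  have hcyc := cyc_bound m hm v0⁻¹ γ hγ.symm
    (by rw [card_cls m hm (inv_mem_MM m hv0M), ← hγ]) hγ0
  exact num_contra (Fintype.card L) γ h A _ hq hM h4 (by omega) hAN hcyc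

/-- **exponents close to an automorphism** -/
theorem aut_final (hchar : ringChar L ≠ 2) (h : ℕ) (h0 : 0 < h) (hh : (h + 1) ^ 4 ≤ Fintype.card L)
    (s : ℕ) (hk : ∃ k : ℕ, h * s ≡ h * ringChar L ^ k [MOD Fintype.card L - 1])
    (hs : ¬ ∃ k : ℕ, s ≡ ringChar L ^ k [MOD Fintype.card L - 1]) :
    4 ≤ (Finset.univ.image (fun v : L => (Finset.univ.filter (fun p : L × L =>
            p.1 + p.2 = 1 ∧ p.1 ^ s + p.2 ^ s = v)).card)).card := by
  obtain ⟨k, hk⟩ := hk
  have hpr : (ringChar L).Prime := CharP.char_is_prime L (ringChar L)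
  obtain ⟨n, hn, hcard⟩ := FiniteField.card L (ringChar L)
  have hn0 : 0 < (n : ℕ) := n.pos
  obtain ⟨n', hn'⟩ : ∃ n' : ℕ, (n : ℕ) = n' + 1 := ⟨n - 1, by omega⟩
  rw [hn'] at hcard
  obtain ⟨p, hp⟩ : ∃ p, p = ringChar L := ⟨_, rfl⟩
  have hchar' := hchar
  rw [← hp] at hk hs hpr hchar' hcard
  have hcard1 : 1 < Fintype.card L := Fintype.one_lt_card
  have hc1 : Fintype.card L ≡ 1 [MOD Fintype.card L - 1] := by
    rw [Nat.ModEq.comm]
    exact (Nat.modEq_iff_dvd' (by omega)).2 dvd_rfl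
  have hcop : Nat.Coprime (Fintype.card L - 1) p := by
    rw [Nat.coprime_comm]
    apply (Nat.Prime.coprime_iff_not_dvd hpr).2
    intro hd
    have h1 : p ∣ Fintype.card L := by rw [hcard]; exact dvd_pow_self p (by omega)
    have h2 : p ∣ 1 := by
      have := (Nat.dvd_sub h1 hd)
      rwa [show Fintype.card L - (Fintype.card L - 1) = 1 by omega] at this
    exact hpr.one_lt.ne' (Nat.dvd_one.1 h2)
  have hhq : h < Fintype.card L - 1 := by
    have h1 : h + 1 < (h + 1) ^ 4 := by
      calc h + 1 < (h + 1) * 2 := by omega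
        _ ≤ (h + 1) * (h + 1) := Nat.mul_le_mul_left _ (by omega)
        _ ≤ (h + 1) ^ 4 := by
          have : (h + 1) ^ 4 = (h + 1) * (h + 1) * ((h + 1) * (h + 1)) := by ring
          rw [this]
          exact Nat.le_mul_of_pos_right _ (by positivity)
    omega
  have hs0 : 0 < s := by
    rcases Nat.eq_zero_or_pos s with h1 | h1
    · exfalso
      rw [h1, mul_zero] at hk
      have h2 : (Fintype.card L - 1) ∣ h * p ^ k := (Nat.modEq_zero_iff_dvd).1 hk.symm
      have h3 : (Fintype.card L - 1) ∣ h := (Nat.Coprime.pow_right k hcop).dvd_of_dvd_mul_right h2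
      have := Nat.le_of_dvd h0 h3
      omega
    · exact h1
  -- normal form
  obtain ⟨i, hi⟩ : ∃ i, i = n' * k := ⟨_, rfl⟩
  have hnorm : h * (s * p ^ i) ≡ h [MOD Fintype.card L - 1] := by
    have h1 := hk.mul_right (p ^ i)
    have h2 : h * p ^ k * p ^ i = h * (Fintype.card L) ^ k := by
      rw [hcard, ← pow_mul, mul_assoc, ← pow_add, hi]
      congr 2
      ring
    rw [h2] at h1
    have h3 := (hc1.pow k).mul_left h
    rw [one_pow, mul_one] at h3
    have h4 : h * (s * p ^ i) = h * s * p ^ i := by ring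
    rw [h4]
    exact h1.trans h3
  have hpi : 0 < p ^ i := pow_pos hpr.pos _
  have hsp : 1 ≤ s * p ^ i := Nat.mul_pos hs0 hpi
  obtain ⟨m, hm⟩ : ∃ m, s * p ^ i = m + 1 := ⟨s * p ^ i - 1, by omega⟩
  have hmod : s ≡ (m + 1) * p ^ (n' * i) [MOD Fintype.card L - 1] := by
    rw [← hm, mul_assoc, ← pow_add]
    have h1 : i + n' * i = (n' + 1) * i := by ring
    rw [h1, pow_mul, ← hcard]
    have h2 := (hc1.pow i).mul_left s
    rw [one_pow, mul_one] at h2
    exact h2.symm
  have hnot1 : ¬ (Fintype.card L - 1) ∣ m := by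
    rintro ⟨c, hc⟩
    apply hs
    refine ⟨n' * i, hmod.trans ?_⟩
    have h1 : m + 1 ≡ 1 [MOD Fintype.card L - 1] := by
      rw [Nat.ModEq.comm]
      refine (Nat.modEq_iff_dvd' (by omega)).2 ⟨c, ?_⟩
      rw [← hc]
      omega
    have h2 := h1.mul_right (p ^ (n' * i))
    rw [one_mul] at h2
    exact h2
  have hm0 : 0 < m := by
    rcases Nat.eq_zero_or_pos m with h1 | h1
    · exfalso
      rw [h1] at hnot1
      exact hnot1 (dvd_zero _)
    · exact h1
  have hhm : (Fintype.card L - 1) ∣ m * h := by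
    rw [hm] at hnorm
    have h1 : h * (m + 1) = h + m * h := by ring
    rw [h1] at hnorm
    have h2 := (Nat.modEq_iff_dvd' (by omega)).1 hnorm.symm
    rwa [show h + m * h - h = m * h by omega] at h2
  -- the group of values
  have hle : (MM L m).card ≤ h := by
    have h1 : MM L m ⊆ (Polynomial.nthRoots h (1 : L)).toFinset := by
      intro ω hω
      obtain ⟨x, hx, rfl⟩ := (mem_MM m ω).1 hω
      rw [Multiset.mem_toFinset, Polynomial.mem_nthRoots h0, ← pow_mul]
      obtain ⟨c, hc⟩ := hhm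
      rw [hc, pow_mul, FiniteField.pow_card_sub_one_eq_one x hx, one_pow]
    refine (Finset.card_le_card h1).trans ?_
    exact (Multiset.toFinset_card_le _).trans (Polynomial.card_nthRoots h (1 : L))
  have hge : 2 ≤ (MM L m).card := by
    by_contra hcon
    have h1 : (MM L m).card ≤ 1 := by omega
    obtain ⟨g, hg⟩ := exists_prim (L := L) (Fintype.card L - 1) dvd_rfl
    have hg0 : g ≠ 0 := hg.ne_zero (by omega)
    have h2 : g ^ m = 1 := Finset.card_le_one.1 h1 _ (pow_mem_MM m hg0) _ (one_mem_MM m)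
    exact hnot1 ((hg.pow_eq_one_iff_dvd m).1 h2)
  have h4 : ((MM L m).card + 1) ^ 4 ≤ Fintype.card L :=
    (Nat.pow_le_pow_left (by omega) 4).trans hh
  have h2 : (2 : L) ≠ 0 := by
    intro h1
    apply hchar
    have h3 : ((2 : ℕ) : L) = 0 := by exact_mod_cast h1
    exact (Nat.prime_dvd_prime_iff_eq (CharP.char_is_prime L (ringChar L)) Nat.prime_two).1
      ((ringChar.spec L 2).1 h3)
  have hfin := not_nice h2 m hm0 hge h4
  rw [hp] at hmod
  have key : ∀ v : L, (Finset.univ.filter (fun p : L × L =>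
      p.1 + p.2 = 1 ∧ p.1 ^ s + p.2 ^ s = v ^ (ringChar L) ^ (n' * i))).card = fc (Dm m) v :=
    fun v => twist s (m + 1) (n' * i) hs0 (by omega) hmod v
  refine hfin.trans (Finset.card_le_card ?_)
  intro j hj
  rw [Finset.mem_image] at hj ⊢
  obtain ⟨v, -, hv⟩ := hj
  exact ⟨v ^ (ringChar L) ^ (n' * i), Finset.mem_univ _, (key v).trans hv⟩

end
end Pool.Agent.H470
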