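import Mathlib

/-!
# Three tools

Extension of homomorphisms to an algebraically closed field along integral extensions; a bound for the
degrees of the coefficients of a minimal polynomial over `k[X]`; a bound for the degree of a resultant.
-/

set_option autoImplicit false
set_option linter.all false

open Polynomial

namespace Pool.Agent.H470

theorem ext_inj {A B k : Type*} [CommRing A] [IsDomain A] [CommRing B] [IsDomain B] [Field k] [IsAlgClosed k] [Algebra A B]
    [Algebra.IsIntegral A B] (ev0 : A →+* k) (h0 : Function.Injective ev0)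
    (h1 : Function.Injective (algebraMap A B)) :
    ∃ ev : B →+* k, ∀ a, ev (algebraMap A B a) = ev0 a := by
  letI : Algebra A k := ev0.toAlgebra
  haveI : FaithfulSMul A k := (faithfulSMul_iff_algebraMap_injective _ _).2 h0
  haveI : FaithfulSMul A B := (faithfulSMul_iff_algebraMap_injective _ _).2 h1
  haveI : Module.IsTorsionFree A k := inferInstance
  haveI : Module.IsTorsionFree A B := inferInstance
  let g : B →ₐ[A] k := IsAlgClosed.lift
  exact ⟨g, fun a => g.commutes a⟩

theorem ext2 {A B k : Type*} [CommRing A] [CommRing B] [Field k] [IsAlgClosed k] [Algebra A B]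
    [Algebra.IsIntegral A B] (p : Ideal A) [p.IsPrime] (Q : Ideal B) [Q.IsPrime] [Q.LiesOver p] (ev0 : (A ⧸ p) →+* k)
    (h0 : Function.Injective ev0) :
    ∃ ev : B →+* k, ∀ a, ev (algebraMap A B a) = ev0 (Ideal.Quotient.mk p a) := by
  obtain ⟨g, hg⟩ := ext_inj (A := A ⧸ p) (B := B ⧸ Q) ev0 h0
    (FaithfulSMul.algebraMap_injective _ _)
  refine ⟨g.comp (Ideal.Quotient.mk Q), fun a => ?_⟩
  have := hg (Ideal.Quotient.mk _ a)
  rw [← this]
  rfl

theorem exists_ext {A B k : Type*} [CommRing A] [CommRing B] [Field k] [IsAlgClosed k] [Algebra A B]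
    [Algebra.IsIntegral A B] (ev0 : A →+* k)
    (hker : RingHom.ker (algebraMap A B) ≤ RingHom.ker ev0) :
    ∃ ev : B →+* k, ∀ a, ev (algebraMap A B a) = ev0 a := by
  classical
  haveI hp : (RingHom.ker ev0).IsPrime := RingHom.ker_isPrime ev0
  have hk' : Ideal.comap (algebraMap A B) ⊥ ≤ RingHom.ker ev0 := hker
  obtain ⟨Q, -, hQ, hcomap⟩ := Ideal.exists_ideal_over_prime_of_isIntegral (S := B) (RingHom.ker ev0) ⊥ hk'
  haveI := hQ
  haveI hlo : Q.LiesOver (RingHom.ker ev0) := ⟨by rw [Ideal.under_def, hcomap]⟩
  obtain ⟨g, hg⟩ := ext2 (RingHom.ker ev0) Q (RingHom.kerLift ev0) (RingHom.kerLift_injective ev0)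
  refine ⟨g, fun a => ?_⟩
  rw [hg]
  rfl

theorem exists_ext' {A B k : Type*} [CommRing A] [CommRing B] [Field k] [IsAlgClosed k]
    (i : A →+* B) (hi : i.IsIntegral) (ev0 : A →+* k) (hker : RingHom.ker i ≤ RingHom.ker ev0) :
    ∃ ev : B →+* k, ∀ a, ev (i a) = ev0 a := by
  letI : Algebra A B := i.toAlgebra
  haveI : Algebra.IsIntegral A B := ⟨hi⟩
  exact exists_ext ev0 hker

/-- the degree of a determinant -/
theorem natDegree_det_le' {R : Type*} [CommRing R] {n : ℕ} (A : Matrix (Fin n) (Fin n) R[X]) (d : ℕ)
    (hA : ∀ i j, (A i j).natDegree ≤ d) : A.det.natDegree ≤ n * d := by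
  classical
  rw [Matrix.det_apply]
  refine natDegree_sum_le_of_forall_le _ _ fun σ _ => ?_
  have h1 : (∏ i, A (σ i) i).natDegree ≤ n * d := by
    refine (natDegree_prod_le _ _).trans ?_
    calc ∑ i, (A (σ i) i).natDegree ≤ ∑ _i : Fin n, d := Finset.sum_le_sum fun i _ => hA _ _
      _ = n * d := by simp
  rcases Int.units_eq_one_or (Equiv.Perm.sign σ) with h | h
  · rw [h, one_smul]; exact h1
  · rw [h, Units.neg_smul, one_smul, natDegree_neg]; exact h1

/-- A nonzero element of small degree in the ideal generated by a separable polynomial and its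
derivative. -/
theorem exists_bezout {F : Type*} [Field F] {K : Type*} [Field K] (i : F[X] →+* K)
    (hinj : Function.Injective i) (f : F[X][X]) (hf : f.Monic) (hn : 0 < f.natDegree) (d : ℕ)
    (hd : ∀ i, (f.coeff i).natDegree ≤ d) (hsep : (f.map i).Separable) :
    ∃ (A B : F[X][X]) (D : F[X]), A * f + B * derivative f = C D ∧ D ≠ 0 ∧
      D.natDegree ≤ 2 * f.natDegree * d := by
  obtain ⟨p, q, -, -, h⟩ := exists_mul_add_mul_eq_C_resultant f (derivative f) le_rfl
    (le_refl (derivative f).natDegree) (Or.inl hn.ne')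
  refine ⟨p, q, f.resultant (derivative f), ?_, ?_, ?_⟩
  · rw [← h]; ring
  · intro h0
    have h1 : (f.map i).resultant (derivative (f.map i))
        f.natDegree (derivative f).natDegree = 0 := by
      rw [derivative_map, resultant_map_map, h0, map_zero]
    have h2 : (f.map i).natDegree = f.natDegree := hf.natDegree_map _
    have h3 : (derivative (f.map i)).natDegree = (derivative f).natDegree := by
      rw [derivative_map, natDegree_map_eq_of_injective hinj]
    rw [← h2, ← h3, resultant_eq_zero_iff] at h1
    exact h1.2 hsep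
  · have h4 : (derivative f).natDegree ≤ f.natDegree := (natDegree_derivative_le f).trans (by omega)
    unfold resultant
    refine (natDegree_det_le' _ d ?_).trans ?_
    · intro i j
      unfold sylvester
      rw [Matrix.of_apply]
      refine Fin.addCases (fun j₁ => ?_) (fun j₁ => ?_) j
      · rw [Fin.addCases_left]
        split_ifs
        · rw [coeff_derivative]
          refine natDegree_mul_le.trans ?_
          have h5 : ((((i : ℕ) - (j₁ : ℕ) : ℕ) : F[X]) + 1).natDegree = 0 := by
            rw [← Nat.cast_succ, natDegree_natCast]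
          rw [h5, add_zero]
          exact hd _
        · simp
      · rw [Fin.addCases_right]
        split_ifs
        · exact hd _
        · simp
    · exact Nat.mul_le_mul_right _ (by omega)

end Pool.Agent.H470
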