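import Mathlib

/-!
# Degrees of the coefficients of a minimal polynomial over `k[X]`
-/

set_option autoImplicit false
set_option linter.all false

open Polynomial

namespace Pool.Agent.H470

section
variable {k : Type*} [Field k]

/-- the valuation ring at infinity -/
noncomputable def Oinf (k : Type*) [Field k] : ValuationSubring (RatFunc k) :=
  by classical exact (RatFunc.inftyValuation k).valuationSubring

theorem mem_Oinf_poly {p : k[X]} {m : ℕ} :
    algebraMap k[X] (RatFunc k) p * (RatFunc.X ^ m)⁻¹ ∈ Oinf k ↔ p.natDegree ≤ m := by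
  classical
  unfold Oinf
  rw [Valuation.mem_valuationSubring_iff, map_mul, map_inv₀, map_pow, RatFunc.inftyValuation.X]
  by_cases hp : p = 0
  · simp [hp]
  · rw [RatFunc.inftyValuation_apply, RatFunc.inftyValuation.polynomial _ hp]
    rw [← WithZero.exp_nsmul, ← WithZero.exp_neg, ← WithZero.exp_add, ← WithZero.exp_zero,
      WithZero.exp_le_exp]
    simp

theorem C_mem_Oinf (c : k) : algebraMap k[X] (RatFunc k) (C c) ∈ Oinf k := by
  have := (mem_Oinf_poly (k := k) (p := C c) (m := 0)).2 (by simp)
  simpa using this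

/-- elements of an extension integral over the valuation ring at infinity -/
def IntInf {k : Type*} [Field k] {E : Type*} [Field E] [Algebra (RatFunc k) E] (x : E) : Prop :=
  ((algebraMap (RatFunc k) E).comp (Oinf k).subtype).IsIntegralElem x

variable {E : Type*} [Field E] [Algebra (RatFunc k) E]

theorem IntInf.add {x y : E} (hx : IntInf (k := k) x) (hy : IntInf (k := k) y) :
    IntInf (k := k) (x + y) := RingHom.IsIntegralElem.add _ hx hy

theorem IntInf.mul {x y : E} (hx : IntInf (k := k) x) (hy : IntInf (k := k) y) :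
    IntInf (k := k) (x * y) := RingHom.IsIntegralElem.mul _ hx hy

theorem intInf_of_mem {x : RatFunc k} (hx : x ∈ Oinf k) :
    IntInf (k := k) (algebraMap (RatFunc k) E x) :=
  RingHom.isIntegralElem_map ((algebraMap (RatFunc k) E).comp (Oinf k).subtype) (x := ⟨x, hx⟩)

theorem intInf_zero : IntInf (k := k) (0 : E) := by
  have := intInf_of_mem (E := E) (Oinf k).zero_mem
  rwa [map_zero] at this

theorem intInf_sum {ι : Type*} (s : Finset ι) (f : ι → E) (h : ∀ i ∈ s, IntInf (k := k) (f i)) :
    IntInf (k := k) (∑ i ∈ s, f i) := by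
  classical
  induction s using Finset.induction_on with
  | empty => simpa using intInf_zero
  | insert a s ha ih =>
    rw [Finset.sum_insert ha]
    exact (h a (Finset.mem_insert_self _ _)).add
      (ih fun i hi => h i (Finset.mem_insert_of_mem hi))

/-- a root of a monic polynomial with coefficients of degree at most `d`, divided by `X ^ d` -/
theorem intInf_root (g : k[X][X]) (hg : g.Monic) (d : ℕ) (hd : ∀ i, (g.coeff i).natDegree ≤ d)
    (y : E) (hy : aeval y (g.map (algebraMap k[X] (RatFunc k))) = 0) :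
    IntInf (k := k) (algebraMap (RatFunc k) E (RatFunc.X ^ d)⁻¹ * y) := by
  set gK := g.map (algebraMap k[X] (RatFunc k)) with hgK
  have hgKm : gK.Monic := hg.map _
  have hgKn : gK.natDegree = g.natDegree := hg.natDegree_map _
  set h := gK.scaleRoots (RatFunc.X ^ d)⁻¹ with hh
  have h0 : aeval (algebraMap (RatFunc k) E (RatFunc.X ^ d)⁻¹ * y) h = 0 :=
    scaleRoots_aeval_eq_zero hy
  have hm : h.Monic := (monic_scaleRoots_iff _).2 hgKm
  have hlift : h ∈ lifts (Oinf k).subtype := by
    rw [lifts_iff_coeff_lifts]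
    intro i
    rw [Set.mem_range]
    refine ⟨⟨h.coeff i, ?_⟩, rfl⟩
    rw [hh, coeff_scaleRoots, hgK, coeff_map, inv_pow, ← pow_mul, hgKn]
    rcases lt_or_ge i g.natDegree with hi | hi
    · apply mem_Oinf_poly.2
      refine (hd i).trans ?_
      exact Nat.le_mul_of_pos_right _ (by omega)
    · rcases hi.lt_or_eq with hi | hi
      · rw [coeff_eq_zero_of_natDegree_lt hi]
        simp
      · rw [← hi, hg.coeff_natDegree]
        simp
  obtain ⟨q, hq, -, hqm⟩ := lifts_and_natDegree_eq_and_monic hlift hm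
  refine ⟨q, hqm, ?_⟩
  rw [← eval₂_map, hq]
  exact h0

theorem minpoly_coeff_natDegree_le [Algebra k[X] E] [IsScalarTower k[X] (RatFunc k) E] (θ : E)
    (hθ : IsIntegral k[X] θ) (D : ℕ)
    (hinf : IntInf (k := k) (algebraMap (RatFunc k) E (RatFunc.X ^ D)⁻¹ * θ)) (i : ℕ) :
    ((minpoly k[X] θ).coeff i).natDegree ≤ D * (minpoly k[X] θ).natDegree := by
  letI : Algebra (Oinf k) E := ((algebraMap (RatFunc k) E).comp (Oinf k).subtype).toAlgebra
  haveI : IsScalarTower (Oinf k) (RatFunc k) E := IsScalarTower.of_algebraMap_eq fun _ => rfl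
  set c : RatFunc k := RatFunc.X ^ D with hc
  have hc0 : c ≠ 0 := pow_ne_zero _ RatFunc.X_ne_zero
  set w := algebraMap (RatFunc k) E c⁻¹ * θ with hw
  have hwi : IsIntegral (Oinf k) w := hinf
  have hwK : IsIntegral (RatFunc k) w := hwi.tower_top
  have hθK : IsIntegral (RatFunc k) θ := hθ.tower_top
  have h1 := minpoly.isIntegrallyClosed_eq_field_fractions' (RatFunc k) hwi
  have h2 := minpoly.isIntegrallyClosed_eq_field_fractions' (RatFunc k) hθ
  have hθw : θ = algebraMap (RatFunc k) E c * w := by
    rw [hw, ← mul_assoc, ← map_mul, mul_inv_cancel₀ hc0, map_one, one_mul]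
  set h := minpoly (RatFunc k) w with hh
  have h3 : minpoly (RatFunc k) θ = h.scaleRoots c := by
    symm
    apply eq_of_monic_of_dvd_of_natDegree_le (minpoly.monic hθK)
      ((monic_scaleRoots_iff _).2 (minpoly.monic hwK))
    · apply minpoly.dvd
      rw [hθw]
      exact scaleRoots_aeval_eq_zero (minpoly.aeval _ _)
    · rw [natDegree_scaleRoots]
      have h4 : aeval w ((minpoly (RatFunc k) θ).scaleRoots c⁻¹) = 0 := by
        rw [hw]
        exact scaleRoots_aeval_eq_zero (minpoly.aeval _ _)
      have h5 := natDegree_le_of_dvd (minpoly.dvd _ _ h4)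
        ((monic_scaleRoots_iff _).2 (minpoly.monic hθK)).ne_zero
      rwa [natDegree_scaleRoots] at h5
  have h6 : algebraMap k[X] (RatFunc k) ((minpoly k[X] θ).coeff i) =
      h.coeff i * c ^ (h.natDegree - i) := by
    rw [← coeff_map, ← h2, h3, coeff_scaleRoots]
  have h7 : h.natDegree = (minpoly k[X] θ).natDegree := by
    rw [← natDegree_scaleRoots h c, ← h3, h2, (minpoly.monic hθ).natDegree_map]
  have h8 : h.coeff i ∈ Oinf k := by
    rw [h1, coeff_map]
    exact SetLike.coe_mem _
  have h9 : algebraMap k[X] (RatFunc k) ((minpoly k[X] θ).coeff i) *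
      (RatFunc.X ^ (D * (h.natDegree - i)))⁻¹ = h.coeff i := by
    rw [h6, hc, ← pow_mul, mul_assoc, mul_inv_cancel₀ (pow_ne_zero _ RatFunc.X_ne_zero), mul_one]
  have h10 := mem_Oinf_poly.1 (h9 ▸ h8)
  refine h10.trans (Nat.mul_le_mul_left _ ?_)
  rw [h7]
  exact Nat.sub_le _ _

end

end Pool.Agent.H470
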