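import Pool.Agent.H470.Lam2
import Pool.Agent.H470.Ext
import Pool.Agent.H470.Inf

set_option autoImplicit false
set_option linter.all false

open Polynomial

namespace Pool.Agent.H470

section
variable (F k : Type*) [Field F] [Finite F] [Field k] [Algebra F k]

/-- the Frobenius map `c ↦ c ^ q` of an extension of the field with `q` elements -/
noncomputable def fr : k →+* k where
  toFun c := c ^ Nat.card F
  map_one' := one_pow _
  map_mul' a b := mul_pow a b _
  map_zero' := zero_pow Nat.card_pos.ne'
  map_add' a b := by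
    obtain ⟨p, hp⟩ := CharP.exists F
    haveI := Fintype.ofFinite F
    obtain ⟨⟨e, he⟩, hpp, hq⟩ := FiniteField.card F p
    haveI : Fact p.Prime := ⟨hpp⟩
    haveI : CharP k p := charP_of_injective_algebraMap (algebraMap F k).injective p
    have hq' : Nat.card F = p ^ e := by rw [Nat.card_eq_fintype_card, hq]; rfl
    rw [hq', add_pow_char_pow]

theorem fr_apply (c : k) : fr F k c = c ^ Nat.card F := rfl

theorem fr_algebraMap (a : F) : fr F k (algebraMap F k a) = algebraMap F k a := by
  haveI := Fintype.ofFinite F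
  rw [fr_apply, ← map_pow, Nat.card_eq_fintype_card, FiniteField.pow_card]

theorem fr_comp : (fr F k).comp (algebraMap F k) = algebraMap F k :=
  RingHom.ext fun a => fr_algebraMap F k a

variable [IsAlgClosed k]

theorem fr_fixed (c : k) (hc : fr F k c = c) : ∃ a : F, algebraMap F k a = c := by
  classical
  haveI := Fintype.ofFinite F
  have h1 := card_fix (F := F) (k := k) 1 one_pos
  rw [pow_one] at h1
  have hq : 2 ≤ Nat.card F := Finite.one_lt_card
  have hfin : {c : k | c ^ Nat.card F = c}.Finite := finite_fix _ hq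
  have h2 : Set.range (algebraMap F k) ⊆ {c : k | c ^ Nat.card F = c} := by
    rintro _ ⟨a, rfl⟩
    exact fr_algebraMap F k a
  have h3 : (Set.range (algebraMap F k)).ncard = Nat.card F := by
    rw [← Set.image_univ, Set.ncard_image_of_injective _ (algebraMap F k).injective,
      Set.ncard_univ]
  have h4 : Set.range (algebraMap F k) = {c : k | c ^ Nat.card F = c} := by
    apply Set.eq_of_subset_of_ncard_le h2 _ hfin
    rw [h3]
    exact h1.le
  have h5 : c ∈ {c : k | c ^ Nat.card F = c} := hc
  rw [← h4] at h5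
  exact h5

theorem descent1 (p : k[X]) (hp : p.map (fr F k) = p) : ∃ p0 : F[X], p0.map (algebraMap F k) = p := by
  have h : p ∈ lifts (algebraMap F k) := by
    rw [lifts_iff_coeff_lifts]
    intro n
    obtain ⟨a, ha⟩ := fr_fixed F k (p.coeff n) (by rw [← coeff_map, hp])
    exact ⟨a, ha⟩
  exact h

theorem descent2 (P : k[X][X]) (hP : P.map (mapRingHom (fr F k)) = P) :
    ∃ P0 : F[X][X], P0.map (mapRingHom (algebraMap F k)) = P := by
  have h : P ∈ lifts (mapRingHom (algebraMap F k)) := by
    rw [lifts_iff_coeff_lifts]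
    intro n
    obtain ⟨a, ha⟩ := descent1 F k (P.coeff n) (by
      conv_rhs => rw [← hP]
      rw [coeff_map]
      rfl)
    exact ⟨a, ha⟩
  exact h

end

section
variable {F k M : Type*} [Field F] [Finite F] [Field k] [Algebra F k] [Field M] [Algebra k[X] M]

/-- semilinear maps -/
structure Semi (F : Type*) {k M : Type*} [Field F] [Finite F] [Field k] [Algebra F k] [Field M]
    [Algebra k[X] M] (Ψ : M →+* M) : Prop where
  C : ∀ c : k, Ψ (algebraMap k[X] M (C c)) = algebraMap k[X] M (Polynomial.C (fr F k c))
  X : Ψ (algebraMap k[X] M X) = algebraMap k[X] M X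

theorem Semi.poly {Ψ : M →+* M} (h : Semi F (k := k) Ψ) (p : k[X]) :
    Ψ (algebraMap k[X] M p) = algebraMap k[X] M (p.map (fr F k)) := by
  have : Ψ.comp (algebraMap k[X] M) = (algebraMap k[X] M).comp (mapRingHom (fr F k)) := by
    apply Polynomial.ringHom_ext
    · intro c
      rw [RingHom.comp_apply, h.C, RingHom.comp_apply, coe_mapRingHom, map_C]
    · rw [RingHom.comp_apply, h.X, RingHom.comp_apply, coe_mapRingHom, map_X]
  exact RingHom.congr_fun this p

theorem Semi.aeval {Ψ : M →+* M} (h : Semi F (k := k) Ψ) (θ : M) (P : k[X][X]) :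
    Ψ (Polynomial.aeval θ P) = Polynomial.aeval (Ψ θ) (P.map (mapRingHom (fr F k))) := by
  rw [aeval_def, aeval_def, hom_eval₂, eval₂_map]
  congr 1
  exact RingHom.ext fun p => by
    rw [RingHom.comp_apply, h.poly, RingHom.comp_apply, coe_mapRingHom]

/-- the minimal polynomial of a fixed element is defined over `F` -/
theorem minpoly_descent [IsAlgClosed k] [FaithfulSMul k[X] M] {Ψ : M →+* M}
    (h : Semi F (k := k) Ψ) (θ : M) (hθ : IsIntegral k[X] θ) (hΨ : Ψ θ = θ) :
    (minpoly k[X] θ).map (mapRingHom (fr F k)) = minpoly k[X] θ := by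
  have h1 := h.aeval θ (minpoly k[X] θ)
  rw [minpoly.aeval, map_zero, hΨ] at h1
  have h2 := minpoly.isIntegrallyClosed_dvd hθ h1.symm
  have hm := minpoly.monic hθ
  exact eq_of_monic_of_dvd_of_natDegree_le hm (hm.map _) h2 (by rw [hm.natDegree_map])

end

end Pool.Agent.H470
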