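import Pool.Agent.H470.Core1

set_option autoImplicit false
set_option linter.all false

open Polynomial

namespace Pool.Agent.H470

theorem eq_prod_roots {M : Type*} [Field M] {n : ℕ} (P : M[X]) (hP : P.Monic) (hn : P.natDegree = n)
    (y : Fin n → M) (hy : Function.Injective y) (hroot : ∀ j, P.eval (y j) = 0) :
    P = ∏ j, (X - C (y j)) := by
  symm
  have hm : (∏ j, (X - C (y j))).Monic := monic_prod_of_monic _ _ fun j _ => monic_X_sub_C _
  have hd : (∏ j, (X - C (y j))) ∣ P := by
    apply Finset.prod_dvd_of_coprime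
    · intro i _ j _ hij
      exact pairwise_coprime_X_sub_C hy hij
    · intro j _
      exact dvd_iff_isRoot.2 (hroot j)
  refine (eq_of_monic_of_dvd_of_natDegree_le hm hP hd ?_).symm
  rw [natDegree_prod_of_monic _ _ fun j _ => monic_X_sub_C _]
  simp [hn]

theorem exists_perm {M : Type*} [Field M] {n : ℕ} (P : M[X]) (hP : P.Monic) (hn : P.natDegree = n)
    (y : Fin n → M) (hy : Function.Injective y) (hroot : ∀ j, P.eval (y j) = 0) (Ψ : M →+* M)
    (hΨ : P.map Ψ = P) : ∃ σ : Equiv.Perm (Fin n), ∀ j, Ψ (y j) = y (σ j) := by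
  classical
  have hprod := eq_prod_roots P hP hn y hy hroot
  have h1 : ∀ j, ∃ i, Ψ (y j) = y i := by
    intro j
    have h2 : P.eval (Ψ (y j)) = 0 := by
      rw [← hΨ, eval_map_apply, hroot, map_zero]
    rw [hprod, eval_prod, Finset.prod_eq_zero_iff] at h2
    obtain ⟨i, -, hi⟩ := h2
    rw [eval_sub, eval_X, eval_C, sub_eq_zero] at hi
    exact ⟨i, hi⟩
  choose s hs using h1
  have hinj : Function.Injective s := by
    intro a b hab
    apply hy
    apply Ψ.injective
    rw [hs, hs, hab]
  refine ⟨Equiv.ofBijective s (Finite.injective_iff_bijective.1 hinj), fun j => ?_⟩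
  rw [hs]
  rfl

section
variable {F k : Type*} [Field F] [Finite F] [Field k] [IsAlgClosed k] [Algebra F k]
variable {K N : Type*} [Field K] [Algebra k K] [Field N] [Algebra K N] [FiniteDimensional K N]
  [Algebra.IsSeparable K N]

theorem algHom_ext_adjoin {A : Type*} [Field A] [Algebra K A] {n : ℕ} (y : Fin n → N)
    (hgen : IntermediateField.adjoin K (Set.range y) = ⊤) (ρ₁ ρ₂ : N →ₐ[K] A)
    (h : ∀ j, ρ₁ (y j) = ρ₂ (y j)) : ρ₁ = ρ₂ := by
  apply AlgHom.ext
  intro x
  have hx : x ∈ IntermediateField.adjoin K (Set.range y) := by rw [hgen]; trivial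
  induction hx using IntermediateField.adjoin_induction with
  | mem x hx =>
    obtain ⟨j, rfl⟩ := hx
    exact h j
  | algebraMap x => rw [AlgHom.commutes, AlgHom.commutes]
  | add x y _ _ hx hy => rw [map_add, map_add, hx, hy]
  | inv x _ hx => rw [map_inv₀, map_inv₀, hx]
  | mul x y _ _ hx hy => rw [map_mul, map_mul, hx, hy]

/-- **A primitive element** with equivariant coefficients. -/
theorem exists_theta {n : ℕ} (G : K[X]) (hG : G ≠ 0) (hGn : G.natDegree ≤ n) (y : Fin n → N)
    (hroot : ∀ j, aeval (y j) G = 0) (hgen : IntermediateField.adjoin K (Set.range y) = ⊤)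
    (σ : Equiv.Perm (Fin n)) (hq : (n ^ n) ^ 2 < Nat.card F) :
    (∃ l : Fin n → k, (∀ j, l (σ j) = l j ^ Nat.card F) ∧
      IntermediateField.adjoin K {∑ j, algebraMap K N (algebraMap k K (l j)) * y j} = ⊤) ∧
      Module.finrank K N ≤ n ^ n := by
  classical
  let A := AlgebraicClosure K
  have hcard := AlgHom.card K N A
  have hle : Fintype.card (N →ₐ[K] A) ≤ n ^ n := by
    have hfin : Fintype.card (G.rootSet A) ≤ n := by
      rw [← Nat.card_eq_fintype_card]
      exact (ncard_rootSet_le G A).trans hGn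
    let f : (N →ₐ[K] A) → (Fin n → G.rootSet A) := fun ρ j => ⟨ρ (y j), by
      rw [mem_rootSet]
      refine ⟨hG, ?_⟩
      rw [aeval_algHom_apply, hroot, map_zero]⟩
    have hf : Function.Injective f := by
      intro ρ₁ ρ₂ h
      apply algHom_ext_adjoin y hgen
      intro j
      have := congrFun h j
      exact congrArg Subtype.val this
    refine (Fintype.card_le_of_injective f hf).trans ?_
    rw [Fintype.card_fun, Fintype.card_fin]
    exact Nat.pow_le_pow_left hfin n
  refine ⟨?_, hcard ▸ hle⟩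
  obtain ⟨l, hl, hne⟩ := exists_equiv (F := F) (k := k) (E := A) σ
    ((Finset.univ : Finset (N →ₐ[K] A)).offDiag) (fun ρ j => ρ.1 (y j) - ρ.2 (y j))
    (by
      rintro ⟨ρ₁, ρ₂⟩ hρ h
      rw [Finset.mem_offDiag] at hρ
      apply hρ.2.2
      apply algHom_ext_adjoin y hgen
      intro j
      exact sub_eq_zero.1 (congrFun h j))
    (by
      refine lt_of_le_of_lt ?_ hq
      rw [Finset.offDiag_card, Finset.card_univ, sq]
      exact (Nat.sub_le _ _).trans (Nat.mul_le_mul hle hle))
  refine ⟨l, hl, ?_⟩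
  rw [Field.primitive_element_iff_algHom_eq_of_eval' K A (fun x => IsAlgClosed.splits _)]
  intro ρ₁ ρ₂ h
  by_contra hcon
  apply hne (ρ₁, ρ₂) (Finset.mem_offDiag.2 ⟨Finset.mem_univ _, Finset.mem_univ _, hcon⟩)
  simp only at h
  rw [map_sum, map_sum] at h
  simp only [map_mul, AlgHom.commutes] at h
  rw [← sub_eq_zero, ← Finset.sum_sub_distrib] at h
  rw [← h]
  refine Finset.sum_congr rfl fun j _ => ?_
  rw [← mul_sub, IsScalarTower.algebraMap_apply k K A]

end

end Pool.Agent.H470
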