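import Pool.Agent.H470.Core2

set_option autoImplicit false
set_option linter.all false

open Polynomial Pointwise

namespace Pool.Agent.H470

/-- Integral elements times the derivative of the minimal polynomial of a generator. -/
theorem deriv_mul_mem {A K N : Type*} [CommRing A] [IsDomain A] [IsIntegrallyClosed A] [Field K]
    [Algebra A K] [IsFractionRing A K] [Field N] [Algebra K N] [Algebra A N] [IsScalarTower A K N]
    [FiniteDimensional K N] [Algebra.IsSeparable K N] (θ : N) (hθ : IsIntegral A θ)
    (hgen : IntermediateField.adjoin K {θ} = ⊤) (z : N) (hz : IsIntegral A z) :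
    ∃ G : A[X], aeval θ (derivative (minpoly A θ)) * z = aeval θ G := by
  have hθK : IsIntegral K θ := hθ.tower_top
  have htop : Algebra.adjoin K {θ} = ⊤ := by
    rw [← IntermediateField.adjoin_simple_toSubalgebra_of_isAlgebraic hθK.isAlgebraic, hgen,
      IntermediateField.top_toSubalgebra]
  have h1 := traceForm_dualSubmodule_adjoin A K htop hθ
  have h2 : z ∈ (Algebra.traceForm K N).dualSubmodule
      (Subalgebra.toSubmodule (Algebra.adjoin A {θ})) := by
    rw [LinearMap.BilinForm.mem_dualSubmodule]
    intro m hm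
    rw [Algebra.traceForm_apply]
    have hmi : IsIntegral A m := by
      have h3 : Algebra.adjoin A {θ} ≤ integralClosure A N := by
        rw [Algebra.adjoin_le_iff]
        rintro _ rfl
        exact hθ
      exact h3 hm
    have h4 : IsIntegral A (Algebra.trace K N (z * m)) := Algebra.isIntegral_trace (hz.mul hmi)
    obtain ⟨a, ha⟩ := IsIntegrallyClosed.isIntegral_iff.1 h4
    rw [← ha, Submodule.one_eq_range]
    exact ⟨a, rfl⟩
  rw [h1] at h2
  have hne : aeval θ (derivative (minpoly K θ)) ≠ 0 :=
    (Algebra.IsSeparable.isSeparable K θ).aeval_derivative_ne_zero (minpoly.aeval _ _)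
  rw [Submodule.mem_smul_pointwise_iff_exists] at h2
  obtain ⟨w, hw, hwz⟩ := h2
  have h5 : aeval θ (derivative (minpoly A θ)) = aeval θ (derivative (minpoly K θ)) := by
    rw [minpoly.isIntegrallyClosed_eq_field_fractions' K hθ, derivative_map, aeval_map_algebraMap]
  have h6 : aeval θ (derivative (minpoly A θ)) * z = w := by
    rw [h5, ← hwz, smul_eq_mul, ← mul_assoc, mul_inv_cancel₀ hne, one_mul]
  rw [h6]
  have h7 : w ∈ Algebra.adjoin A {θ} := hw
  rw [Algebra.adjoin_singleton_eq_range_aeval] at h7
  obtain ⟨G, hG⟩ := h7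
  exact ⟨G, hG.symm⟩

end Pool.Agent.H470
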