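import Pool.Agent.H470.Core3

set_option autoImplicit false
set_option linter.all false

open Polynomial

namespace Pool.Agent.H470

section
variable {F k : Type*} [Field F] [Finite F] [Field k] [IsAlgClosed k] [Algebra F k]

/-- evaluation at a point of the plane -/
noncomputable def ev2 {R : Type*} [CommRing R] (a b : R) : R[X][X] →+* R :=
  (evalRingHom a).comp (evalRingHom (C b))

theorem ev2_apply {R : Type*} [CommRing R] (a b : R) (p : R[X][X]) : ev2 a b p = evalEval a b p := rfl

theorem ev2_C {R : Type*} [CommRing R] (a b : R) (p : R[X]) : ev2 a b (C p) = p.eval a := by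
  simp [ev2]

theorem ev2_X {R : Type*} [CommRing R] (a b : R) : ev2 a b X = b := by
  simp [ev2]

theorem ev2_map (a b : F) (p : F[X][X]) :
    ev2 (algebraMap F k a) (algebraMap F k b) (p.map (mapRingHom (algebraMap F k))) =
      algebraMap F k (ev2 a b p) := by
  have : (ev2 (algebraMap F k a) (algebraMap F k b)).comp (mapRingHom (mapRingHom (algebraMap F k))) =
      (algebraMap F k).comp (ev2 a b) := by
    apply Polynomial.ringHom_ext'
    · apply Polynomial.ringHom_ext
      · intro c; simp [ev2]
      · simp [ev2]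
    · simp [ev2]
  exact RingHom.congr_fun this p

theorem ev2_fr (a b : F) (p : k[X][X]) :
    ev2 (algebraMap F k a) (algebraMap F k b) (p.map (mapRingHom (fr F k))) =
      fr F k (ev2 (algebraMap F k a) (algebraMap F k b) p) := by
  have : (ev2 (algebraMap F k a) (algebraMap F k b)).comp (mapRingHom (mapRingHom (fr F k))) =
      (fr F k).comp (ev2 (algebraMap F k a) (algebraMap F k b)) := by
    apply Polynomial.ringHom_ext'
    · apply Polynomial.ringHom_ext
      · intro c; simp [ev2]
      · simp [ev2, fr_algebraMap]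
    · simp [ev2, fr_algebraMap]
  exact RingHom.congr_fun this p

/-- the roots of a specialisation -/
theorem count_fixed {n : ℕ} (P : F[X]) (η : Fin n → k) (hP : P.map (algebraMap F k) = ∏ j, (X - C (η j)))
    (hsep : P.Separable) (σ : Equiv.Perm (Fin n)) (hσ : ∀ j, η (σ j) = fr F k (η j)) :
    {z : F | P.eval z = 0}.ncard = {j | σ j = j}.ncard := by
  have hinj : Function.Injective η := by
    have h1 : (∏ j, (X - C (η j))).Separable := by rw [← hP]; exact hsep.map
    exact separable_prod_X_sub_C_iff.1 h1
  rw [← Set.ncard_image_of_injective {z : F | P.eval z = 0} (algebraMap F k).injective,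
    ← Set.ncard_image_of_injective {j | σ j = j} hinj]
  congr 1
  ext x
  constructor
  · rintro ⟨z, hz, rfl⟩
    have h2 : (P.map (algebraMap F k)).eval (algebraMap F k z) = 0 := by
      rw [eval_map_apply, hz, map_zero]
    rw [hP, eval_prod, Finset.prod_eq_zero_iff] at h2
    obtain ⟨j, -, hj⟩ := h2
    rw [eval_sub, eval_X, eval_C, sub_eq_zero] at hj
    refine ⟨j, ?_, hj.symm⟩
    apply hinj
    rw [hσ, ← hj, fr_algebraMap]
  · rintro ⟨j, hj, rfl⟩
    obtain ⟨z, hz⟩ := fr_fixed F k (η j) (by rw [← hσ, hj])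
    refine ⟨z, ?_, hz⟩
    apply (algebraMap F k).injective
    rw [← eval_map_apply, hz, map_zero, hP, eval_prod]
    exact Finset.prod_eq_zero (Finset.mem_univ j) (by simp)

theorem separable_of_bezout (A B g : F[X][X]) (D : F[X]) (h : A * g + B * derivative g = C D) (t : F)
    (ht : D.eval t ≠ 0) : (g.map (evalRingHom t)).Separable := by
  have h1 := congrArg (Polynomial.map (evalRingHom t)) h
  rw [Polynomial.map_add, Polynomial.map_mul, Polynomial.map_mul, Polynomial.map_C,
    ← derivative_map, coe_evalRingHom] at h1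
  refine ⟨C (D.eval t)⁻¹ * A.map (evalRingHom t), C (D.eval t)⁻¹ * B.map (evalRingHom t), ?_⟩
  rw [mul_assoc, mul_assoc, ← mul_add, h1, ← C_mul, inv_mul_cancel₀ ht, C_1]

/-- **Specialisation.** -/
theorem spec {K N M : Type*} [Field K] [Algebra k[X] K] [IsFractionRing k[X] K] [Field N]
    [Algebra K N] [Algebra k[X] N] [IsScalarTower k[X] K N] [FiniteDimensional K N]
    [Algebra.IsSeparable K N] [Field M] [Algebra k[X] M] (emb : N →ₐ[k[X]] M) {Ψ : M →+* M}
    (hΨ : Semi F (k := k) Ψ) {n : ℕ} (g : F[X][X]) (hg : g.Monic) (hgn : g.natDegree = n)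
    (y : Fin n → N) (hy : Function.Injective y)
    (hroot : ∀ j, aeval (y j) (g.map (mapRingHom (algebraMap F k))) = 0)
    (σ : Equiv.Perm (Fin n)) (hσ : ∀ j, Ψ (emb (y j)) = emb (y (σ j)))
    (Ag Bg : F[X][X]) (Dg : F[X]) (hDg : Ag * g + Bg * derivative g = C Dg)
    (θ : N) (hθ : IsIntegral k[X] θ) (hgen : IntermediateField.adjoin K {θ} = ⊤)
    (hΨθ : Ψ (emb θ) = emb θ)
    (f0 : F[X][X]) (hf0 : f0.map (mapRingHom (algebraMap F k)) = minpoly k[X] θ)
    (A B : F[X][X]) (D : F[X]) (hD : A * f0 + B * derivative f0 = C D)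
    (t0 θ0 : F) (hpt : evalEval t0 θ0 f0 = 0) (hDt : D.eval t0 ≠ 0) (hDgt : Dg.eval t0 ≠ 0) :
    {z : F | (g.map (evalRingHom t0)).eval z = 0}.ncard = {j | σ j = j}.ncard := by
  classical
  have hfaith : FaithfulSMul k[X] K :=
    (faithfulSMul_iff_algebraMap_injective _ _).2 (IsFractionRing.injective k[X] K)
  have hinjN : Function.Injective (algebraMap k[X] N) := by
    rw [IsScalarTower.algebraMap_eq k[X] K N]
    exact (algebraMap K N).injective.comp (IsFractionRing.injective k[X] K)
  have hfaithN : FaithfulSMul k[X] N := (faithfulSMul_iff_algebraMap_injective _ _).2 hinjN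
  set f := minpoly k[X] θ with hf
  set gk := g.map (mapRingHom (algebraMap F k)) with hgk
  have hgkm : gk.Monic := hg.map _
  have hyi : ∀ j, IsIntegral k[X] (y j) := fun j => ⟨gk, hgkm, hroot j⟩
  let B' := integralClosure k[X] N
  let yB : Fin n → B' := fun j => ⟨y j, hyi j⟩
  let θB : B' := ⟨θ, hθ⟩
  let i : k[X][X] →+* B' := (aeval θB : k[X][X] →ₐ[k[X]] B').toRingHom
  have hiC : ∀ p : k[X], i (C p) = algebraMap k[X] B' p := fun p => by
    show aeval θB (C p) = _
    rw [aeval_C]
  have hiX : i X = θB := aeval_X _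
  have hi : i.IsIntegral := by
    have h1 : (i.comp C).IsIntegral := by
      have : i.comp C = algebraMap k[X] B' := RingHom.ext hiC
      rw [this]
      exact Algebra.IsIntegral.isIntegral
    exact RingHom.IsIntegral.tower_top _ _ h1
  have hcoe : ∀ p : k[X][X], ((i p : B') : N) = aeval θ p := by
    intro p
    show ((aeval θB p : B') : N) = aeval θ p
    have := aeval_algebraMap_apply N θB p
    exact this.symm
  set t0k := algebraMap F k t0
  set θ0k := algebraMap F k θ0
  have hev_f : ev2 t0k θ0k f = 0 := by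
    rw [← hf0, ev2_map, ev2_apply, hpt, map_zero]
  obtain ⟨ev, hev⟩ := exists_ext' i hi (ev2 t0k θ0k) (by
    intro p hp
    rw [RingHom.mem_ker] at hp ⊢
    have h1 : aeval θ p = 0 := by rw [← hcoe, hp]; rfl
    obtain ⟨r, hr⟩ := minpoly.isIntegrallyClosed_dvd hθ h1
    rw [hr, map_mul, hev_f, zero_mul])
  have hevC : ∀ p : k[X], ev (algebraMap k[X] B' p) = p.eval t0k := by
    intro p
    rw [← hiC, hev, ev2_C]
  -- the roots of the specialisation
  have hprodM : gk.map (algebraMap k[X] N) = ∏ j, (X - C (y j)) := by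
    apply eq_prod_roots _ (hgkm.map _) _ y hy
    · intro j
      rw [eval_map]
      exact hroot j
    · rw [hgkm.natDegree_map, hgk, hg.natDegree_map, hgn]
  have hprodB : gk.map (algebraMap k[X] B') = ∏ j, (X - C (yB j)) := by
    apply Polynomial.map_injective (algebraMap B' N) Subtype.val_injective
    rw [Polynomial.map_map, ← IsScalarTower.algebraMap_eq, hprodM, Polynomial.map_prod]
    refine Finset.prod_congr rfl fun j _ => ?_
    rw [Polynomial.map_sub, map_X, map_C]
    rfl
  have hprod : (g.map (evalRingHom t0)).map (algebraMap F k) = ∏ j, (X - C (ev (yB j))) := by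
    have h1 := congrArg (Polynomial.map ev) hprodB
    rw [Polynomial.map_map, Polynomial.map_prod] at h1
    have h2 : ev.comp (algebraMap k[X] B') = evalRingHom t0k := RingHom.ext hevC
    rw [h2, hgk, Polynomial.map_map] at h1
    rw [Polynomial.map_map]
    have h3 : (evalRingHom t0k).comp (mapRingHom (algebraMap F k)) =
        (algebraMap F k).comp (evalRingHom t0) := by
      apply Polynomial.ringHom_ext
      · intro c; simp
      · simp [t0k]
    rw [← h3, h1]
    refine Finset.prod_congr rfl fun j _ => ?_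
    rw [Polynomial.map_sub, map_X, map_C]
  refine count_fixed _ (fun j => ev (yB j)) hprod (separable_of_bezout _ _ _ _ hDg _ hDgt) σ ?_
  intro j
  obtain ⟨G, hG⟩ := deriv_mul_mem (A := k[X]) (K := K) θ hθ hgen (y j) (hyi j)
  have hfr : f.map (mapRingHom (fr F k)) = f := by
    rw [← hf0, Polynomial.map_map]
    congr 1
    apply Polynomial.ringHom_ext
    · intro c
      simp [fr_algebraMap]
    · simp
  have hd' : (derivative f).map (mapRingHom (fr F k)) = derivative f := by
    rw [← derivative_map, hfr]
  have h1 : i (derivative f) * yB j = i G := by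
    apply Subtype.ext
    rw [MulMemClass.coe_mul, hcoe, hcoe]
    exact hG
  have h2 : i (derivative f) * yB (σ j) = i (G.map (mapRingHom (fr F k))) := by
    apply Subtype.ext
    rw [MulMemClass.coe_mul, hcoe, hcoe]
    apply emb.toRingHom.injective
    show emb _ = emb _
    have e1 : ∀ P : k[X][X], emb (aeval θ P) = aeval (emb θ) P := fun P =>
      (aeval_algHom_apply emb θ P).symm
    have h3 := congrArg (fun z => Ψ (emb z)) hG
    simp only [map_mul] at h3
    rw [e1, e1, hΨ.aeval, hΨ.aeval, hΨθ, hd', hσ] at h3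
    rw [map_mul, e1, e1]
    exact h3
  have h4 := congrArg ev h1
  have h5 := congrArg ev h2
  rw [map_mul, hev, hev] at h4 h5
  rw [ev2_fr] at h5
  have h6 : fr F k (ev2 t0k θ0k (derivative f)) = ev2 t0k θ0k (derivative f) := by
    rw [← ev2_fr, hd']
  have h7 : ev2 t0k θ0k (derivative f) ≠ 0 := by
    have h8 : derivative f = (derivative f0).map (mapRingHom (algebraMap F k)) := by
      rw [← hf0, derivative_map]
    rw [h8, ev2_map]
    intro h9
    rw [map_eq_zero_iff _ (algebraMap F k).injective] at h9
    have h10 := congrArg (ev2 t0 θ0) hD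
    rw [map_add, map_mul, map_mul, h9, ev2_apply t0 θ0 f0, hpt, mul_zero, mul_zero, add_zero,
      ev2_C] at h10
    exact hDt h10.symm
  apply mul_left_cancel₀ h7
  show _ * ev (yB (σ j)) = _ * fr F k (ev (yB j))
  rw [h5, ← h4, map_mul, h6]

end

end Pool.Agent.H470
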