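import Pool.Agent.H470.Core4

set_option autoImplicit false
set_option linter.all false

open Polynomial

namespace Pool.Agent.H470

section
variable {F k : Type*} [Field F] [Finite F] [Field k] [IsAlgClosed k] [Algebra F k]

/-- The curve attached to a semilinear map. -/
theorem curve {M : Type*} [Field M] [Algebra (RatFunc k) M] [Algebra k[X] M]
    [IsScalarTower k[X] (RatFunc k) M] {Ψ : M →+* M}
    (hΨ : Semi F (k := k) Ψ) {n : ℕ} (hn : 0 < n) (g : F[X][X]) (hg : g.Monic) (hgn : g.natDegree = n)
    (d0 : ℕ) (hd0 : ∀ i, (g.coeff i).natDegree ≤ d0)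
    (y : Fin n → M) (hy : Function.Injective y)
    (hroot : ∀ j, aeval (y j) (g.map (mapRingHom (algebraMap F k))) = 0)
    (hq : (n ^ n) ^ 2 < Nat.card F) :
    ∃ (f0 A B Ag Bg : F[X][X]) (D Dg : F[X]), f0.Monic ∧ 0 < f0.natDegree ∧ f0.natDegree ≤ n ^ n ∧
      (∀ i, (f0.coeff i).natDegree ≤ d0 * n ^ n) ∧ A * f0 + B * derivative f0 = C D ∧ D ≠ 0 ∧
      D.natDegree ≤ 2 * n ^ n * (d0 * n ^ n) ∧ Dg ≠ 0 ∧ Dg.natDegree ≤ 2 * n * d0 ∧
      Irreducible (f0.map (mapRingHom (algebraMap F k))) ∧
      ∀ t0 θ0 : F, evalEval t0 θ0 f0 = 0 → D.eval t0 ≠ 0 → Dg.eval t0 ≠ 0 →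
        {z : F | (g.map (evalRingHom t0)).eval z = 0}.ncard = {j | Ψ (y j) = y j}.ncard := by
  classical
  have hinjM : Function.Injective (algebraMap k[X] M) := by
    rw [IsScalarTower.algebraMap_eq k[X] (RatFunc k) M]
    exact (algebraMap (RatFunc k) M).injective.comp (IsFractionRing.injective k[X] (RatFunc k))
  have hfaithM : FaithfulSMul k[X] M := (faithfulSMul_iff_algebraMap_injective _ _).2 hinjM
  set gk := g.map (mapRingHom (algebraMap F k)) with hgk
  have hgkm : gk.Monic := hg.map _
  have hgkn : gk.natDegree = n := by rw [hgk, hg.natDegree_map, hgn]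
  set gM := gk.map (algebraMap k[X] M) with hgM
  have hgMm : gM.Monic := hgkm.map _
  have hgMn : gM.natDegree = n := by rw [hgM, hgkm.natDegree_map, hgkn]
  have hrootM : ∀ j, gM.eval (y j) = 0 := by
    intro j
    rw [hgM, eval_map]
    exact hroot j
  have hprodM := eq_prod_roots gM hgMm hgMn y hy hrootM
  have hΨg : gM.map Ψ = gM := by
    rw [hgM, hgk, Polynomial.map_map, Polynomial.map_map, Polynomial.map_map]
    congr 1
    apply Polynomial.ringHom_ext
    · intro c
      simp only [RingHom.comp_apply, coe_mapRingHom, map_C]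
      rw [hΨ.C, fr_algebraMap]
    · simp only [RingHom.comp_apply, coe_mapRingHom, map_X]
      exact hΨ.X
  obtain ⟨σ, hσ⟩ := exists_perm gM hgMm hgMn y hy hrootM Ψ hΨg
  set gK := gk.map (algebraMap k[X] (RatFunc k)) with hgK
  have hgKm : gK.Monic := hgkm.map _
  have hgKn : gK.natDegree = n := by rw [hgK, hgkm.natDegree_map, hgkn]
  have hgKM : gK.map (algebraMap (RatFunc k) M) = gM := by
    rw [hgK, hgM, Polynomial.map_map, ← IsScalarTower.algebraMap_eq]
  have hgKsep : gK.Separable := by
    rw [← separable_map (algebraMap (RatFunc k) M), hgKM, hprodM]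
    exact separable_prod_X_sub_C_iff.2 hy
  have hyi : ∀ j, IsIntegral k[X] (y j) := fun j => ⟨gk, hgkm, hroot j⟩
  have hyK : ∀ j, IsIntegral (RatFunc k) (y j) := fun j => (hyi j).tower_top
  have hrootK : ∀ j, aeval (y j) gK = 0 := by
    intro j
    rw [hgK, aeval_map_algebraMap]
    exact hroot j
  set N := IntermediateField.adjoin (RatFunc k) (Set.range y) with hN
  haveI : FiniteDimensional (RatFunc k) N := by
    apply IntermediateField.finiteDimensional_adjoin
    rintro _ ⟨j, rfl⟩
    exact hyK j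
  haveI : Algebra.IsSeparable (RatFunc k) N := by
    rw [hN, IntermediateField.isSeparable_adjoin_iff_isSeparable]
    rintro _ ⟨j, rfl⟩
    exact hgKsep.of_dvd (minpoly.dvd _ _ (hrootK j))
  let yN : Fin n → N := fun j => ⟨y j, IntermediateField.subset_adjoin _ _ ⟨j, rfl⟩⟩
  have hyN : Function.Injective yN := fun a b h => hy (congrArg Subtype.val h)
  have hgenN : IntermediateField.adjoin (RatFunc k) (Set.range yN) = ⊤ := by
    rw [eq_top_iff]
    rintro ⟨x, hx⟩ -
    refine IntermediateField.adjoin_induction (RatFunc k)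
      (p := fun x hx => (⟨x, hx⟩ : N) ∈ IntermediateField.adjoin (RatFunc k) (Set.range yN))
      ?_ ?_ ?_ ?_ ?_ hx
    · rintro _ ⟨j, rfl⟩
      exact IntermediateField.subset_adjoin _ _ ⟨j, rfl⟩
    · intro x
      exact IntermediateField.algebraMap_mem _ x
    · intro x y hx hy h1 h2
      exact add_mem h1 h2
    · intro x hx h1
      exact inv_mem h1
    · intro x y hx hy h1 h2
      exact mul_mem h1 h2
  have hrootN : ∀ j, aeval (yN j) gK = 0 := by
    intro j
    apply (algebraMap N M).injective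
    rw [map_zero, ← aeval_algebraMap_apply]
    exact hrootK j
  obtain ⟨⟨l, hl, hgen⟩, hfr⟩ := exists_theta (F := F) (k := k) gK hgKm.ne_zero hgKn.le yN hrootN hgenN σ hq
  set θ : N := ∑ j, algebraMap (RatFunc k) N (algebraMap k (RatFunc k) (l j)) * yN j with hθ
  have hcst : ∀ c : k, algebraMap (RatFunc k) N (algebraMap k (RatFunc k) c) =
      algebraMap k[X] N (C c) := by
    intro c
    rw [IsScalarTower.algebraMap_apply k[X] (RatFunc k) N, IsScalarTower.algebraMap_apply k k[X] (RatFunc k)]
    rfl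
  let emb : N →ₐ[k[X]] M := (N.val).restrictScalars k[X]
  have hemb : ∀ x : N, emb x = (x : M) := fun x => rfl
  have hinjN : Function.Injective (algebraMap k[X] N) := by
    rw [IsScalarTower.algebraMap_eq k[X] (RatFunc k) N]
    exact (algebraMap (RatFunc k) N).injective.comp (IsFractionRing.injective k[X] (RatFunc k))
  have hfaithN : FaithfulSMul k[X] N := (faithfulSMul_iff_algebraMap_injective _ _).2 hinjN
  have hyiN : ∀ j, IsIntegral k[X] (yN j) := by
    intro j
    refine ⟨gk, hgkm, ?_⟩
    apply (algebraMap N M).injective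
    rw [map_zero]
    have := hroot j
    rw [← this, aeval_def, hom_eval₂]
    rfl
  have hθi : IsIntegral k[X] θ := by
    rw [hθ]
    refine IsIntegral.sum _ fun j _ => ?_
    rw [hcst]
    exact isIntegral_algebraMap.mul (hyiN j)
  have hθM : (θ : M) = ∑ j, algebraMap k[X] M (C (l j)) * y j := by
    rw [hθ, ← hemb, map_sum]
    refine Finset.sum_congr rfl fun j _ => ?_
    rw [map_mul, hcst, emb.commutes]
    rfl
  have hΨθ : Ψ (θ : M) = θ := by
    rw [hθM, map_sum]
    rw [← Equiv.sum_comp σ (fun j => algebraMap k[X] M (C (l j)) * y j)]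
    refine Finset.sum_congr rfl fun j _ => ?_
    rw [map_mul, hΨ.C, hσ, hl, fr_apply]
  have hmin : minpoly k[X] (θ : M) = minpoly k[X] θ := by
    have := minpoly.algHom_eq emb (fun a b h => Subtype.ext h) θ
    exact this
  have hθiM : IsIntegral k[X] (θ : M) := hθi.map emb
  have hdesc := minpoly_descent hΨ (θ : M) hθiM hΨθ
  rw [hmin] at hdesc
  set f := minpoly k[X] θ with hf
  have hfm : f.Monic := minpoly.monic hθi
  obtain ⟨f0, hf0⟩ := descent2 F k f hdesc
  have hinjF : Function.Injective (mapRingHom (algebraMap F k)) :=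
    Polynomial.map_injective _ (algebraMap F k).injective
  have hf0m : f0.Monic := monic_of_injective hinjF (by rw [hf0]; exact hfm)
  have hf0n : f0.natDegree = f.natDegree := by rw [← hf0, hf0m.natDegree_map]
  have hfK : f.map (algebraMap k[X] (RatFunc k)) = minpoly (RatFunc k) θ :=
    (minpoly.isIntegrallyClosed_eq_field_fractions' (RatFunc k) hθi).symm
  have hfn : f.natDegree ≤ n ^ n := by
    have h1 := (Field.primitive_element_iff_minpoly_natDegree_eq (RatFunc k) θ).1 hgen
    rw [← hfK, hfm.natDegree_map] at h1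
    rw [h1]
    exact hfr
  have hfpos : 0 < f.natDegree := minpoly.natDegree_pos hθi
  have hinf : IntInf (k := k) (algebraMap (RatFunc k) N (RatFunc.X ^ d0)⁻¹ * θ) := by
    rw [hθ, Finset.mul_sum]
    refine intInf_sum _ _ fun j _ => ?_
    have h1 : algebraMap (RatFunc k) N (RatFunc.X ^ d0)⁻¹ *
        (algebraMap (RatFunc k) N (algebraMap k (RatFunc k) (l j)) * yN j) =
        algebraMap (RatFunc k) N (algebraMap k (RatFunc k) (l j)) *
          (algebraMap (RatFunc k) N (RatFunc.X ^ d0)⁻¹ * yN j) := by ring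
    rw [h1]
    refine IntInf.mul ?_ ?_
    · apply intInf_of_mem
      have h2 : algebraMap k (RatFunc k) (l j) = algebraMap k[X] (RatFunc k) (C (l j)) := by
        rw [IsScalarTower.algebraMap_apply k k[X] (RatFunc k)]
        rfl
      rw [h2]
      exact C_mem_Oinf _
    · apply intInf_root gk hgkm d0
      · intro i
        rw [hgk, coeff_map, coe_mapRingHom]
        exact natDegree_map_le.trans (hd0 i)
      · exact hrootN j
  have hfc := minpoly_coeff_natDegree_le θ hθi d0 hinf
  have hf0c : ∀ i, (f0.coeff i).natDegree ≤ d0 * n ^ n := by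
    intro i
    have h1 : (f0.coeff i).natDegree = (f.coeff i).natDegree := by
      rw [← hf0, coeff_map, coe_mapRingHom, natDegree_map_eq_of_injective (algebraMap F k).injective]
    rw [h1]
    exact (hfc i).trans (Nat.mul_le_mul_left _ hfn)
  set ι : F[X] →+* RatFunc k := (algebraMap k[X] (RatFunc k)).comp (mapRingHom (algebraMap F k)) with hι
  have hιi : Function.Injective ι :=
    (IsFractionRing.injective k[X] (RatFunc k)).comp hinjF
  have hf0sep : (f0.map ι).Separable := by
    rw [hι, ← Polynomial.map_map, hf0, hfK]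
    exact Algebra.IsSeparable.isSeparable _ _
  obtain ⟨A, B, D, hD, hD0, hDd⟩ := exists_bezout ι hιi f0 hf0m (by rw [hf0n]; exact hfpos) _ hf0c hf0sep
  have hgsep : (g.map ι).Separable := by
    rw [hι, ← Polynomial.map_map]
    exact hgKsep
  obtain ⟨Ag, Bg, Dg, hDg, hDg0, hDgd⟩ := exists_bezout ι hιi g hg (by rw [hgn]; exact hn) _ hd0 hgsep
  refine ⟨f0, A, B, Ag, Bg, D, Dg, hf0m, by rw [hf0n]; exact hfpos, by rw [hf0n]; exact hfn, hf0c, hD, hD0,
    ?_, hDg0, ?_, ?_, ?_⟩
  · refine hDd.trans ?_
    rw [hf0n]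
    exact Nat.mul_le_mul_right _ (Nat.mul_le_mul_left _ hfn)
  · rw [hgn] at hDgd
    exact hDgd
  · rw [hf0]
    exact minpoly.irreducible hθi
  · intro t0 θ0 hpt hDt hDgt
    have h1 := spec (K := RatFunc k) emb hΨ g hg hgn yN hyN
      (by
        intro j
        apply (algebraMap N M).injective
        rw [map_zero, ← hroot j, aeval_def, hom_eval₂]
        rfl)
      σ (fun j => hσ j) Ag Bg Dg hDg θ hθi hgen hΨθ f0 hf0 A B D hD t0 θ0 hpt hDt hDgt
    rw [h1]
    congr 1
    ext j
    simp only [Set.mem_setOf_eq]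
    rw [hσ]
    exact ⟨fun h => by rw [h], fun h => hy h⟩

end

end Pool.Agent.H470
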