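import Pool.Agent.H470.Core5
import Pool.Agent.R410.PW.Weil

set_option autoImplicit false
set_option linter.all false

open Polynomial

namespace Pool.Agent.H470

theorem WC_mono {n n' d δ : ℕ} (h : n ≤ n') : R410.PW.WC n d δ ≤ R410.PW.WC n' d δ := by
  unfold R410.PW.WC
  gcongr

/-- the number of points over a set of first coordinates -/
theorem card_points_le {F : Type*} [Field F] [Finite F] (f : F[X][X]) (hf : f.Monic) (Bad : Finset F) :
    {z : F × F | evalEval z.1 z.2 f = 0 ∧ z.1 ∈ Bad}.ncard ≤ Bad.card * f.natDegree := by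
  classical
  have hsub : {z : F × F | evalEval z.1 z.2 f = 0 ∧ z.1 ∈ Bad} ⊆
      ((Bad.biUnion fun t => ((f.map (evalRingHom t)).roots.toFinset.image fun θ => (t, θ)) : Finset (F × F)) :
        Set (F × F)) := by
    rintro ⟨t, θ⟩ ⟨h1, h2⟩
    simp only [Finset.coe_biUnion, Set.mem_iUnion, Finset.mem_coe]
    refine ⟨t, h2, ?_⟩
    rw [Finset.mem_image]
    refine ⟨θ, ?_, rfl⟩
    rw [Multiset.mem_toFinset, mem_roots (hf.map _).ne_zero, IsRoot.def, map_evalRingHom_eval]
    exact h1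
  refine (Set.ncard_le_ncard hsub (Finset.finite_toSet _)).trans ?_
  rw [Set.ncard_coe_finset]
  refine Finset.card_biUnion_le_card_mul _ _ _ fun t _ => ?_
  refine Finset.card_image_le.trans ((Multiset.toFinset_card_le _).trans ?_)
  refine (card_roots' _).trans ?_
  rw [hf.natDegree_map]

/-- **The local-global principle** (a form of Chebotarev's theorem over the rational function field). -/
theorem lg (n d0 β : ℕ) (hn : 0 < n) : ∃ C0 : ℕ, ∀ (F : Type) [Field F] [Finite F] (k : Type) [Field k]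
    [IsAlgClosed k] [Algebra F k] [Algebra.IsAlgebraic F k] (M : Type) [Field M]
    [Algebra (RatFunc k) M] [Algebra k[X] M] [IsScalarTower k[X] (RatFunc k) M] (Ψ : M →+* M),
    Semi F (k := k) Ψ → ∀ (g : F[X][X]), g.Monic → g.natDegree = n →
    (∀ i, (g.coeff i).natDegree ≤ d0) → ∀ (y : Fin n → M), Function.Injective y →
    (∀ j, aeval (y j) (g.map (mapRingHom (algebraMap F k))) = 0) → ∀ (B : Finset F), B.card ≤ β →
    C0 < Nat.card F → ∃ t0 ∉ B,
      {z : F | (g.map (evalRingHom t0)).eval z = 0}.ncard = {j | Ψ (y j) = y j}.ncard := by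
  classical
  set d := d0 * n ^ n with hd
  set δ := 2 * n ^ n * (d0 * n ^ n) with hδ
  set W := R410.PW.WC (n ^ n) d δ with hW
  set E := (δ + 2 * n * d0 + β) * n ^ n with hE
  refine ⟨max ((n ^ n) ^ 2) ((W + E + 1) ^ 2), ?_⟩
  intro F _ _ k _ _ _ _ M _ _ _ _ Ψ hΨ g hg hgn hgd y hy hroot Bs hBs hC
  have hq1 : (n ^ n) ^ 2 < Nat.card F := lt_of_le_of_lt (le_max_left _ _) hC
  have hq2 : (W + E + 1) ^ 2 < Nat.card F := lt_of_le_of_lt (le_max_right _ _) hC
  obtain ⟨f0, A, B, Ag, Bg, D, Dg, hf0m, hf0pos, hf0n, hf0c, hD, hD0, hDd, hDg0, hDgd, hirr, hspec⟩ :=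
    curve hΨ hn g hg hgn d0 hgd y hy hroot hq1
  have hweil := R410.PW.weil (F := F) k hf0m hf0pos hD hD0 hDd hf0c hirr
  set Bad : Finset F := D.roots.toFinset ∪ Dg.roots.toFinset ∪ Bs with hBad
  have hBadc : Bad.card ≤ δ + 2 * n * d0 + β := by
    refine (Finset.card_union_le _ _).trans (add_le_add ((Finset.card_union_le _ _).trans ?_) hBs)
    refine add_le_add ((Multiset.toFinset_card_le _).trans ((card_roots' _).trans hDd))
      ((Multiset.toFinset_card_le _).trans ((card_roots' _).trans hDgd))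
  by_contra hcon
  push Not at hcon
  have hall : {z : F × F | evalEval z.1 z.2 f0 = 0} ⊆
      {z : F × F | evalEval z.1 z.2 f0 = 0 ∧ z.1 ∈ Bad} := by
    rintro ⟨t, θ⟩ hz
    refine ⟨hz, ?_⟩
    by_contra hnb
    simp only [hBad, Finset.mem_union, Multiset.mem_toFinset, not_or] at hnb
    obtain ⟨⟨h1, h2⟩, h3⟩ := hnb
    rw [mem_roots hD0, IsRoot.def] at h1
    rw [mem_roots hDg0, IsRoot.def] at h2
    exact hcon t h3 (hspec t θ hz h1 h2)
  have hle : {z : F × F | evalEval z.1 z.2 f0 = 0}.ncard ≤ E := by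
    refine (Set.ncard_le_ncard hall (Set.toFinite _)).trans ((card_points_le f0 hf0m Bad).trans ?_)
    exact Nat.mul_le_mul hBadc hf0n
  have hWle : R410.PW.WC f0.natDegree d δ ≤ W := WC_mono hf0n
  have h1 := (abs_le.1 hweil).1
  set q : ℝ := (Nat.card F : ℝ) with hq
  have h2 : ((W : ℝ) + E + 1) ^ 2 < q := by
    rw [hq]
    exact_mod_cast hq2
  have h3 : (W : ℝ) + E + 1 < √q := by
    apply Real.lt_sqrt_of_sq_lt h2
  have h4 : √q * √q = q := Real.mul_self_sqrt (by positivity)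
  have h5 : ((R410.PW.WC f0.natDegree d δ : ℕ) : ℝ) ≤ (W : ℝ) := by exact_mod_cast hWle
  have h6 : (({z : F × F | evalEval z.1 z.2 f0 = 0}.ncard : ℕ) : ℝ) ≤ (E : ℝ) := by exact_mod_cast hle
  have h7 : 0 ≤ √q := Real.sqrt_nonneg q
  have h8 : (0 : ℝ) ≤ (W : ℝ) := by positivity
  have h9 : (0 : ℝ) ≤ (E : ℝ) := by positivity
  nlinarith [mul_le_mul_of_nonneg_right h5 h7, mul_lt_mul_of_pos_right h3 (show (0:ℝ) < √q by linarith)]

end Pool.Agent.H470
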