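import Pool.Agent.H470.FixForm

/-!
# The polynomial `X ^ e + (1 - X) ^ e`
-/

set_option autoImplicit false
set_option linter.all false

open Polynomial

namespace Pool.Agent.H470

/-- the polynomial `X ^ e + (1 - X) ^ e` -/
noncomputable def dP (K : Type*) [Field K] (e : ℕ) : K[X] := X ^ e + (1 - X) ^ e

section
variable {K : Type*} [Field K]

theorem dP_eval (e : ℕ) (y : K) : (dP K e).eval y = y ^ e + (1 - y) ^ e := by
  simp [dP]

theorem dP_map {K' : Type*} [Field K'] (f : K →+* K') (e : ℕ) : (dP K e).map f = dP K' e := by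
  simp [dP]

theorem dP_odd {e : ℕ} (he : Odd e) : dP K e = X ^ e - (X + C (-1)) ^ e := by
  have h : (1 - X : K[X]) = -(X + C (-1)) := by rw [C_neg, C_1]; ring
  rw [dP, h, he.neg_pow, sub_eq_add_neg]

theorem dP_coeff {e : ℕ} (he : Odd e) (i : ℕ) :
    (dP K e).coeff i = (if i = e then 1 else 0) - (-1) ^ (e - i) * (e.choose i : K) := by
  rw [dP_odd he, coeff_sub, coeff_X_pow, coeff_X_add_C_pow]

theorem dP_coeff_ge {e : ℕ} (he : Odd e) (i : ℕ) (hi : e ≤ i) : (dP K e).coeff i = 0 := by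
  rw [dP_coeff he]
  rcases hi.lt_or_eq with h | h
  · rw [if_neg (by omega), Nat.choose_eq_zero_of_lt h]
    simp
  · subst h
    simp

theorem dP_coeff_top {e : ℕ} (he : Odd e) (h1 : 1 < e) : (dP K e).coeff (e - 1) = e := by
  rw [dP_coeff he, if_neg (by omega), show e - (e - 1) = 1 by omega, ← Nat.choose_symm (by omega),
    show e - (e - 1) = 1 by omega, Nat.choose_one_right]
  ring

theorem dP_natDegree_le {e : ℕ} (he : Odd e) : (dP K e).natDegree ≤ e - 1 := by
  rw [natDegree_le_iff_coeff_eq_zero]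
  intro i hi
  exact dP_coeff_ge he i (by omega)

theorem dP_derivative (e : ℕ) : (dP K e).derivative = C (e : K) * (X ^ (e - 1) - (1 - X) ^ (e - 1)) := by
  simp [dP, derivative_pow]
  ring

theorem dP_derivative2 (e : ℕ) : (dP K e).derivative.derivative =
    C ((e : K) * ((e - 1 : ℕ) : K)) * (X ^ (e - 2) + (1 - X) ^ (e - 2)) := by
  rw [dP_derivative]
  simp [derivative_pow]
  rw [show e - 1 - 1 = e - 2 by omega]
  ring

theorem crit_identity {e : ℕ} (he : 2 ≤ e) (y : K) (h : y ^ (e - 1) = (1 - y) ^ (e - 1)) :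
    y * (1 - y) * (y ^ (e - 2) + (1 - y) ^ (e - 2)) = y ^ (e - 1) := by
  obtain ⟨m, rfl⟩ : ∃ m, e = m + 2 := ⟨e - 2, by omega⟩
  simp only [show m + 2 - 1 = m + 1 by omega, show m + 2 - 2 = m by omega] at h ⊢
  have h1 : y * (1 - y) * (y ^ m + (1 - y) ^ m) = (1 - y) * y ^ (m + 1) + y * (1 - y) ^ (m + 1) := by
    ring
  rw [h1, ← h]
  ring

theorem crit_ne_zero {e : ℕ} (he : 2 ≤ e) (y : K) (h : y ^ (e - 1) = (1 - y) ^ (e - 1)) : y ≠ 0 := by
  rintro rfl
  rw [zero_pow (by omega), sub_zero, one_pow] at h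
  exact zero_ne_one h

theorem crit_ne_one {e : ℕ} (he : 2 ≤ e) (y : K) (h : y ^ (e - 1) = (1 - y) ^ (e - 1)) : 1 - y ≠ 0 := by
  intro h1
  rw [h1, zero_pow (by omega)] at h
  have h2 : y = 0 := by
    have := pow_eq_zero_iff (M₀ := K) (a := y) (n := e - 1) (by omega)
    exact this.1 h
  rw [h2] at h1
  simp at h1

theorem dP_double {e : ℕ} (he : 2 ≤ e) (h1 : (e : K) ≠ 0) (h2 : ((e - 1 : ℕ) : K) ≠ 0) (y : K)
    (h : (dP K e).derivative.eval y = 0) : (dP K e).derivative.derivative.eval y ≠ 0 := by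
  have h3 : y ^ (e - 1) = (1 - y) ^ (e - 1) := by
    rw [dP_derivative, eval_mul, eval_C] at h
    have := (mul_eq_zero.1 h).resolve_left h1
    simp at this
    exact sub_eq_zero.1 this
  rw [dP_derivative2, eval_mul, eval_C]
  refine mul_ne_zero (mul_ne_zero h1 h2) ?_
  have h4 := crit_identity he y h3
  have h5 := crit_ne_zero he y h3
  intro h6
  simp at h6
  rw [h6, mul_zero] at h4
  exact pow_ne_zero _ h5 h4.symm

end

end Pool.Agent.H470
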