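import Pool.Agent.H470.Loc

/-!
# The number of rational solutions near a fibre with simple and double points
-/

set_option autoImplicit false
set_option linter.all false

open Polynomial

namespace Pool.Agent.H470

section
variable {F : Type} [Field F] [Fintype F] [DecidableEq F]

theorem card_sq_mul (hF : ringChar F ≠ 2) (h b c : F) (hh : h ≠ 0) (hb : b ≠ 0) (hc : c ≠ 0) :
    (((Finset.univ.filter fun w : F => w ^ 2 * h = c * b).card : ℕ) : ℤ) =
      1 + quadraticChar F c * quadraticChar F (b * h) := by
  have h1 := quadraticChar_card_sqrts hF (c * b / h)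
  have h2 : ({x : F | x ^ 2 = c * b / h} : Set F).toFinset =
      Finset.univ.filter fun w : F => w ^ 2 * h = c * b := by
    ext w
    simp [eq_div_iff hh]
  rw [h2] at h1
  rw [h1]
  have h3 : c * b / h = c * (b * h) * (h⁻¹) ^ 2 := by
    field_simp
  have h4 : quadraticChar F (h⁻¹) ^ 2 = 1 := quadraticChar_sq_one (inv_ne_zero hh)
  rw [h3, map_mul, map_mul, map_pow, h4]
  ring

theorem FixN_eq (hF : ringChar F ≠ 2) (P B : F[X]) (hP : P ≠ 0) (c : F) (hc : c ≠ 0)
    (hB : ∀ y, P.IsRoot y → B.eval y ≠ 0)
    (hμ : ∀ y, P.IsRoot y → P.rootMultiplicity y = 1 ∨ P.rootMultiplicity y = 2) :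
    (FixN P B c : ℤ) = ((Finset.univ.filter fun y : F => P.eval y = 0).card : ℤ) +
      quadraticChar F c * ∑ y ∈ Finset.univ.filter fun y : F => P.eval y = 0 ∧ P.rootMultiplicity y = 2,
        quadraticChar F (B.eval y * cof P y) := by
  classical
  have h1 : FixN P B c = ∑ y ∈ Finset.univ.filter fun y : F => P.eval y = 0,
      (Finset.univ.filter fun w : F => w ^ P.rootMultiplicity y * cof P y = c * B.eval y).card := by
    unfold FixN
    rw [← Finset.card_sigma]
    rw [← Set.ncard_coe_finset]
    refine Set.ncard_congr (fun z _ => ⟨z.1, z.2⟩) ?_ ?_ ?_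
    · intro z hz
      rw [Finset.mem_coe, Finset.mem_sigma, Finset.mem_filter, Finset.mem_filter]
      exact ⟨⟨Finset.mem_univ _, hz.1⟩, Finset.mem_univ _, hz.2⟩
    · intro z z' _ _ h
      have := Sigma.mk.inj h
      exact Prod.ext this.1 (eq_of_heq this.2)
    · rintro ⟨y, w⟩ hi
      rw [Finset.mem_coe, Finset.mem_sigma, Finset.mem_filter, Finset.mem_filter] at hi
      exact ⟨(y, w), ⟨hi.1.2, hi.2.2⟩, rfl⟩
  rw [h1]
  push_cast
  have h2 : ∀ y ∈ Finset.univ.filter fun y : F => P.eval y = 0,
      (((Finset.univ.filter fun w : F => w ^ P.rootMultiplicity y * cof P y = c * B.eval y).card : ℕ) : ℤ) =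
      1 + if P.rootMultiplicity y = 2 then quadraticChar F c * quadraticChar F (B.eval y * cof P y) else 0 := by
    intro y hy
    rw [Finset.mem_filter] at hy
    have hy' : P.IsRoot y := hy.2
    have hcof : cof P y ≠ 0 := eval_divByMonic_pow_rootMultiplicity_ne_zero y hP
    rcases hμ y hy' with h | h
    · rw [if_neg (by omega), add_zero, h]
      have h3 : (Finset.univ.filter fun w : F => w ^ 1 * cof P y = c * B.eval y) =
          {c * B.eval y / cof P y} := by
        ext w
        simp [eq_div_iff hcof]
      rw [h3, Finset.card_singleton]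
      rfl
    · rw [if_pos h, h]
      exact card_sq_mul hF _ _ _ hcof (hB y hy') hc
  rw [Finset.sum_congr rfl h2, Finset.sum_add_distrib, Finset.sum_const, nsmul_eq_mul, mul_one,
    ← Finset.sum_filter, Finset.filter_filter, Finset.mul_sum]

/-- the multiplicity of a root with nonzero second derivative -/
theorem mult_le_two {K : Type*} [Field K] (h2 : (2 : K) ≠ 0) (P : K[X]) (hP : P ≠ 0) (y : K)
    (hy : P.IsRoot y) (h : P.derivative.eval y = 0 → P.derivative.derivative.eval y ≠ 0) :
    (P.derivative.eval y ≠ 0 ∧ P.rootMultiplicity y = 1) ∨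
      (P.derivative.eval y = 0 ∧ P.rootMultiplicity y = 2) := by
  have h0 : 0 < P.rootMultiplicity y := (rootMultiplicity_pos hP).2 hy
  by_cases hd : P.derivative.eval y = 0
  · right
    refine ⟨hd, ?_⟩
    have h1 : 1 < P.rootMultiplicity y := (one_lt_rootMultiplicity_iff_isRoot hP).2 ⟨hy, hd⟩
    have h3 : ¬ 2 < P.rootMultiplicity y := by
      intro h4
      have h5 : ((2).factorial : K) ∈ nonZeroDivisors K := by
        rw [mem_nonZeroDivisors_iff_ne_zero]
        simpa using h2
      have h6 := (lt_rootMultiplicity_iff_isRoot_iterate_derivative_of_mem_nonZeroDivisors hP h5).1 h4 2 le_rfl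
      exact h hd h6
    omega
  · left
    refine ⟨hd, ?_⟩
    have h1 : ¬ 1 < P.rootMultiplicity y := by
      intro h3
      exact hd ((one_lt_rootMultiplicity_iff_isRoot hP).1 h3).2
    omega

theorem cof_double {K : Type*} [Field K] (P : K[X]) (y : K) (hm : P.rootMultiplicity y = 2) :
    P.derivative.derivative.eval y = 2 * cof P y := by
  set Q := P /ₘ (X - C y) ^ P.rootMultiplicity y with hQ
  have h1 : P = (X - C y) ^ 2 * Q := by
    have := pow_mul_divByMonic_rootMultiplicity_eq P y
    rw [← hQ, hm] at this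
    exact this.symm
  have h2 : cof P y = Q.eval y := rfl
  rw [h2]
  conv_lhs => rw [h1]
  simp [derivative_mul, derivative_pow]

end

end Pool.Agent.H470
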