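import Mathlib

/-!
# Hensel's lemma for power series, without the assumption that the polynomial is monic
-/

set_option autoImplicit false
set_option linter.all false

open Polynomial

namespace Pool.Agent.H470

section
variable {k : Type*} [Field k]

theorem ps_eval_sub_dvd (f : (PowerSeries k)[X]) (a b : PowerSeries k) :
    a - b ∣ f.eval a - f.eval b := Polynomial.sub_dvd_eval_sub a b f

theorem ps_eval_add (f : (PowerSeries k)[X]) (a h : PowerSeries k) :
    ∃ r, f.eval (a + h) = f.eval a + f.derivative.eval a * h + r * h ^ 2 := by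
  obtain ⟨r, hr⟩ := Polynomial.binomExpansion f a h
  exact ⟨r, by rw [hr]⟩

theorem hensel_step (f : (PowerSeries k)[X]) (w0 : k)
    (h1 : PowerSeries.constantCoeff (f.derivative.eval (PowerSeries.C w0)) ≠ 0) (m : ℕ)
    (w : PowerSeries k) (hw0 : PowerSeries.constantCoeff w = w0)
    (hw : (PowerSeries.X : PowerSeries k) ^ (m + 1) ∣ f.eval w) :
    ∃ w' : PowerSeries k, PowerSeries.constantCoeff w' = w0 ∧
      (PowerSeries.X : PowerSeries k) ^ (m + 2) ∣ f.eval w' ∧
      (PowerSeries.X : PowerSeries k) ^ (m + 1) ∣ w' - w := by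
  obtain ⟨g, hg⟩ := hw
  have hd : PowerSeries.constantCoeff (f.derivative.eval w) ≠ 0 := by
    have h2 : w - PowerSeries.C w0 ∣ f.derivative.eval w - f.derivative.eval (PowerSeries.C w0) :=
      ps_eval_sub_dvd _ _ _
    obtain ⟨r, hr⟩ := h2
    have h3 := congrArg PowerSeries.constantCoeff hr
    rw [map_sub, map_mul, map_sub, hw0, PowerSeries.constantCoeff_C, sub_self, zero_mul,
      sub_eq_zero] at h3
    rw [h3]
    exact h1
  set a : k := -(PowerSeries.constantCoeff g) / PowerSeries.constantCoeff (f.derivative.eval w) with ha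
  refine ⟨w + PowerSeries.X ^ (m + 1) * PowerSeries.C a, ?_, ?_, ?_⟩
  · simp [hw0]
  · obtain ⟨r, hr⟩ := ps_eval_add f w (PowerSeries.X ^ (m + 1) * PowerSeries.C a)
    rw [hr, hg]
    have h4 : (PowerSeries.X : PowerSeries k) ∣ g + f.derivative.eval w * PowerSeries.C a := by
      rw [PowerSeries.X_dvd_iff, map_add, map_mul, PowerSeries.constantCoeff_C, ha]
      field_simp
      ring
    obtain ⟨u, hu⟩ := h4
    refine ⟨u + r * PowerSeries.X ^ m * PowerSeries.C a ^ 2, ?_⟩
    have h5 : (PowerSeries.X : PowerSeries k) ^ (m + 1) * g +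
        f.derivative.eval w * (PowerSeries.X ^ (m + 1) * PowerSeries.C a) =
        PowerSeries.X ^ (m + 2) * u := by
      rw [pow_succ PowerSeries.X (m + 1), mul_assoc, ← hu]
      ring
    rw [h5]
    ring
  · exact ⟨PowerSeries.C a, by ring⟩

theorem hensel (f : (PowerSeries k)[X]) (w0 : k)
    (h0 : PowerSeries.constantCoeff (f.eval (PowerSeries.C w0)) = 0)
    (h1 : PowerSeries.constantCoeff (f.derivative.eval (PowerSeries.C w0)) ≠ 0) :
    ∃ w : PowerSeries k, f.eval w = 0 ∧ PowerSeries.constantCoeff w = w0 := by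
  classical
  let P : ℕ → Type _ := fun m => {w : PowerSeries k // PowerSeries.constantCoeff w = w0 ∧
    (PowerSeries.X : PowerSeries k) ^ (m + 1) ∣ f.eval w}
  let nxt : (m : ℕ) → P m → P (m + 1) := fun m w =>
    ⟨(hensel_step f w0 h1 m w.1 w.2.1 w.2.2).choose,
      (hensel_step f w0 h1 m w.1 w.2.1 w.2.2).choose_spec.1,
      (hensel_step f w0 h1 m w.1 w.2.1 w.2.2).choose_spec.2.1⟩
  have hnxt : ∀ m (w : P m), (PowerSeries.X : PowerSeries k) ^ (m + 1) ∣ (nxt m w).1 - w.1 :=
    fun m w => (hensel_step f w0 h1 m w.1 w.2.1 w.2.2).choose_spec.2.2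
  let init : P 0 := ⟨PowerSeries.C w0, PowerSeries.constantCoeff_C _, by
    rw [zero_add, pow_one, PowerSeries.X_dvd_iff]
    exact h0⟩
  let seq : (m : ℕ) → P m := fun m => Nat.rec init nxt m
  have hseq : ∀ m, seq (m + 1) = nxt m (seq m) := fun m => rfl
  have hdiff : ∀ m i, (PowerSeries.X : PowerSeries k) ^ (m + 1) ∣ (seq (m + i)).1 - (seq m).1 := by
    intro m i
    induction i with
    | zero => simp
    | succ i ih =>
      have h2 := hnxt (m + i) (seq (m + i))
      rw [← hseq] at h2
      have h3 : (PowerSeries.X : PowerSeries k) ^ (m + 1) ∣ (seq (m + i + 1)).1 - (seq (m + i)).1 :=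
        (pow_dvd_pow _ (by omega)).trans h2
      have h4 := dvd_add h3 ih
      rwa [sub_add_sub_cancel] at h4
  let W : PowerSeries k := PowerSeries.mk fun i => PowerSeries.coeff i (seq i).1
  have hW : ∀ m, (PowerSeries.X : PowerSeries k) ^ (m + 1) ∣ W - (seq m).1 := by
    intro m
    rw [PowerSeries.X_pow_dvd_iff]
    intro i hi
    rw [map_sub, PowerSeries.coeff_mk, sub_eq_zero]
    have h2 := hdiff i (m - i)
    rw [PowerSeries.X_pow_dvd_iff] at h2
    have h3 := h2 i (by omega)
    rw [show i + (m - i) = m by omega, map_sub, sub_eq_zero] at h3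
    exact h3.symm
  refine ⟨W, ?_, ?_⟩
  · ext i
    rw [map_zero]
    have h2 : (PowerSeries.X : PowerSeries k) ^ (i + 1) ∣ f.eval W := by
      have h3 := (hW i).trans (ps_eval_sub_dvd f W (seq i).1)
      have h4 := dvd_add h3 (seq i).2.2
      rwa [sub_add_cancel] at h4
    rw [PowerSeries.X_pow_dvd_iff] at h2
    exact h2 i (by omega)
  · have h2 : (PowerSeries.X : PowerSeries k) ∣ W - (seq 0).1 :=
      (dvd_pow_self PowerSeries.X (by omega)).trans (hW 0)
    rw [PowerSeries.X_dvd_iff, map_sub, sub_eq_zero] at h2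
    rw [h2]
    exact (seq 0).2.1

end

end Pool.Agent.H470
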