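import Pool.Agent.H470.Psf

/-!
# The tame solutions, all of them
-/

set_option autoImplicit false
set_option linter.all false

open Polynomial

namespace Pool.Agent.H470

/-- the cofactor at a point -/
noncomputable def cof {k : Type*} [Field k] (P : k[X]) (y : k) : k :=
  (P /ₘ (X - C y) ^ P.rootMultiplicity y).eval y

section
variable {k : Type} [Field k] [IsAlgClosed k]

open Classical in
/-- the possible second coordinates -/
noncomputable def Wset (P B : k[X]) (c y : k) : Finset k :=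
  (X ^ P.rootMultiplicity y - C (c * B.eval y / cof P y)).roots.toFinset

open Classical in
/-- the index set of the solutions near `t = v` -/
noncomputable def Idx (P B : k[X]) (c : k) : Finset (Σ _ : k, k) :=
  P.roots.toFinset.sigma fun y => Wset P B c y

theorem cof_ne_zero {P : k[X]} (hP : P ≠ 0) (y : k) : cof P y ≠ 0 :=
  eval_divByMonic_pow_rootMultiplicity_ne_zero y hP

theorem mem_Wset {P B : k[X]} (hP : P ≠ 0) {c y w : k} (hμ : (P.rootMultiplicity y : k) ≠ 0) :
    w ∈ Wset P B c y ↔ w ^ P.rootMultiplicity y * cof P y = c * B.eval y := by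
  classical
  have hμ0 : P.rootMultiplicity y ≠ 0 := by
    rintro h
    rw [h, Nat.cast_zero] at hμ
    exact hμ rfl
  unfold Wset
  rw [Multiset.mem_toFinset, mem_roots (X_pow_sub_C_ne_zero (Nat.pos_of_ne_zero hμ0) _), IsRoot.def,
    eval_sub, eval_pow, eval_X, eval_C, sub_eq_zero, eq_div_iff (cof_ne_zero hP y)]

theorem card_Wset {P B : k[X]} (hP : P ≠ 0) {c y : k} (hc : c ≠ 0) (hB : B.eval y ≠ 0)
    (hμ : (P.rootMultiplicity y : k) ≠ 0) : (Wset P B c y).card = P.rootMultiplicity y := by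
  classical
  unfold Wset
  have hsep : (X ^ P.rootMultiplicity y - C (c * B.eval y / cof P y)).Separable :=
    separable_X_pow_sub_C _ hμ (div_ne_zero (mul_ne_zero hc hB) (cof_ne_zero hP y))
  rw [Multiset.toFinset_card_of_nodup (nodup_roots hsep), IsAlgClosed.card_roots_eq_natDegree,
    natDegree_X_pow_sub_C]

theorem card_Idx {P B : k[X]} (hP : P ≠ 0) {c : k} (hc : c ≠ 0) (hB : ∀ y, P.IsRoot y → B.eval y ≠ 0)
    (hμ : ∀ y, P.IsRoot y → (P.rootMultiplicity y : k) ≠ 0) : (Idx P B c).card = P.natDegree := by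
  classical
  unfold Idx
  rw [Finset.card_sigma, ← IsAlgClosed.card_roots_eq_natDegree, ← Multiset.toFinset_sum_count_eq]
  refine Finset.sum_congr rfl fun y hy => ?_
  have hy' : P.IsRoot y := by
    rw [Multiset.mem_toFinset, mem_roots hP] at hy
    exact hy
  rw [card_Wset hP hc (hB y hy') (hμ y hy'), count_roots]

theorem mem_Idx {P B : k[X]} (hP : P ≠ 0) {c : k} (hμ : ∀ y, P.IsRoot y → (P.rootMultiplicity y : k) ≠ 0)
    {i : Σ _ : k, k} : i ∈ Idx P B c ↔ P.IsRoot i.1 ∧
      i.2 ^ P.rootMultiplicity i.1 * cof P i.1 = c * B.eval i.1 := by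
  classical
  unfold Idx
  rw [Finset.mem_sigma, Multiset.mem_toFinset, mem_roots hP]
  constructor
  · rintro ⟨h1, h2⟩
    exact ⟨h1, (mem_Wset hP (hμ _ h1)).1 h2⟩
  · rintro ⟨h1, h2⟩
    exact ⟨h1, (mem_Wset hP (hμ _ h1)).2 h2⟩

/-- the solution attached to an index -/
theorem exists_sol {A B : k[X]} {v c : k} (hP : A - C v * B ≠ 0) (hc : c ≠ 0)
    (hB : ∀ y, (A - C v * B).IsRoot y → B.eval y ≠ 0)
    (hμ : ∀ y, (A - C v * B).IsRoot y → ((A - C v * B).rootMultiplicity y : k) ≠ 0) (N : ℕ) (hN : 0 < N)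
    (hdvd : ∀ y, (A - C v * B).IsRoot y → (A - C v * B).rootMultiplicity y ∣ N)
    (i : Σ _ : k, k) (hi : i ∈ Idx (A - C v * B) B c) :
    ∃ w : PowerSeries k, PowerSeries.constantCoeff w = i.2 ∧
      eval₂ (PowerSeries.C : k →+* PowerSeries k)
        (PowerSeries.C i.1 + PowerSeries.X ^ (N / (A - C v * B).rootMultiplicity i.1) * w) A =
      ((C v + C c * X ^ N : k[X]) : PowerSeries k) *
        eval₂ (PowerSeries.C : k →+* PowerSeries k)
          (PowerSeries.C i.1 + PowerSeries.X ^ (N / (A - C v * B).rootMultiplicity i.1) * w) B := by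
  classical
  obtain ⟨h1, h2⟩ := (mem_Idx hP hμ).1 hi
  set P := A - C v * B with hPdef
  set μ := P.rootMultiplicity i.1 with hμdef
  have hμ0 : μ ≠ 0 := by
    intro h
    apply hμ _ h1
    rw [← hμdef, h, Nat.cast_zero]
  have hw0 : i.2 ≠ 0 := by
    intro h
    rw [h, zero_pow hμ0, zero_mul] at h2
    exact mul_ne_zero hc (hB _ h1) h2.symm
  have hNd : μ * (N / μ) = N := Nat.mul_div_cancel' (hdvd _ h1)
  have hN' : 0 < N / μ := Nat.div_pos (Nat.le_of_dvd hN (hdvd _ h1)) (Nat.pos_of_ne_zero hμ0)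
  obtain ⟨w, hw1, hw2⟩ := tame_lift P (P /ₘ (X - C i.1) ^ μ) B i.1 i.2 c μ (N / μ) (hμ _ h1) hN'
    (pow_mul_divByMonic_rootMultiplicity_eq P i.1).symm (cof_ne_zero hP i.1) h2 hw0
  refine ⟨w, hw1, ?_⟩
  rw [hNd] at hw2
  have h3 : A = P + C v * B := by rw [hPdef]; ring
  conv_lhs => rw [h3]
  rw [eval₂_add, eval₂_mul, eval₂_C, hw2]
  push_cast
  ring

end

end Pool.Agent.H470
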