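import Pool.Agent.H470.FixForm

/-!
# The local principle in the form used for nice exponents
-/

set_option autoImplicit false
set_option linter.all false

open Polynomial

namespace Pool.Agent.H470

/-- the assumptions of the local principle at a place `t = v` -/
structure TamePlace (F : Type) [Field F] (n N : ℕ) (A B : F[X]) (v : F) : Prop where
  monic : A.Monic
  deg : A.natDegree = n
  lt : B.degree < A.degree
  cop : ∀ y : AlgebraicClosure F, ((A - C v * B).map (algebraMap F (AlgebraicClosure F))).IsRoot y →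
    (B.map (algebraMap F (AlgebraicClosure F))).eval y ≠ 0
  tame : ∀ y : AlgebraicClosure F, ((A - C v * B).map (algebraMap F (AlgebraicClosure F))).IsRoot y →
    (((A - C v * B).map (algebraMap F (AlgebraicClosure F))).rootMultiplicity y : AlgebraicClosure F) ≠ 0
  dvd : ∀ y : AlgebraicClosure F, ((A - C v * B).map (algebraMap F (AlgebraicClosure F))).IsRoot y →
    ((A - C v * B).map (algebraMap F (AlgebraicClosure F))).rootMultiplicity y ∣ N

/-- the number of roots of a specialisation -/
noncomputable def nrt {F : Type} [Field F] [Fintype F] [DecidableEq F] (A B : F[X]) (t : F) : ℕ :=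
  (Finset.univ.filter fun z : F => (A - C t * B).eval z = 0).card

theorem LPv (n N β : ℕ) (hn : 0 < n) (hN : 0 < N) : ∃ C0 : ℕ, ∀ (F : Type) [Field F] [Fintype F]
    [DecidableEq F], C0 < Fintype.card F → ∀ (A B : F[X]) (v c : F), TamePlace F n N A B v → c ≠ 0 →
    ∀ (Bad : Finset F), Bad.card ≤ β → ∀ a : ℕ, (∀ t ∉ Bad, nrt A B t = 0 ∨ nrt A B t = a) →
    FixN (A - C v * B) B c = 0 ∨ FixN (A - C v * B) B c = a := by
  obtain ⟨C0, hC0⟩ := local_principle n N β hn hN
  refine ⟨C0, ?_⟩
  intro F _ _ _ hC A B v c hT hc Bad hBad a ha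
  obtain ⟨t0, ht0, h⟩ := hC0 F (AlgebraicClosure F) (by rw [Nat.card_eq_fintype_card]; exact hC) A B
    hT.monic hT.deg hT.lt v c hc hT.cop hT.tame hT.dvd Bad hBad
  have h2 : {z : F | (A - C t0 * B).eval z = 0}.ncard = nrt A B t0 := by
    unfold nrt
    rw [← Set.ncard_coe_finset]
    congr 1
    ext z
    simp
  rw [← h, h2]
  exact ha t0 ht0

end Pool.Agent.H470
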