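import Mathlib

/-!
# Equivariant coefficients

Let `k` be an algebraically closed field of characteristic `p`, `q` a power of `p`, and `σ` a
permutation of a finite set. The vectors `lam` with `lam (σ j) = lam j ^ q` form a finite vector space over the
field with `q` elements, and a bounded number of nonzero linear conditions can be avoided in it.
-/

set_option autoImplicit false
set_option linter.all false

open Polynomial

namespace Pool.Agent.H470

/-- A finite vector space over a field with `q` elements is not a union of fewer than `q` proper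
subspaces. -/
theorem exists_notMem_submodules {F V ι : Type*} [Field F] [Finite F] [AddCommGroup V] [Module F V]
    [Finite V] (I : Finset ι) (K : ι → Submodule F V) (hK : ∀ i ∈ I, K i ≠ ⊤)
    (hI : I.card < Nat.card F) : ∃ v : V, ∀ i ∈ I, v ∉ K i := by
  classical
  by_contra hcon
  push Not at hcon
  haveI := Fintype.ofFinite V
  have h1 : (Finset.univ : Finset V) ⊆ I.biUnion fun i => Finset.univ.filter (· ∈ K i) := by
    intro v _
    obtain ⟨i, hi, hv⟩ := hcon v
    exact Finset.mem_biUnion.2 ⟨i, hi, by simpa using hv⟩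
  have h2 : Nat.card V ≤ ∑ i ∈ I, Nat.card (K i) := by
    have := (Finset.card_le_card h1).trans Finset.card_biUnion_le
    rw [Finset.card_univ, ← Nat.card_eq_fintype_card] at this
    refine this.trans (Finset.sum_le_sum fun i _ => ?_)
    rw [Nat.card_eq_fintype_card, Fintype.card_subtype]
  have h3 : ∀ i ∈ I, Nat.card F * Nat.card (K i) ≤ Nat.card V := by
    intro i hi
    obtain ⟨x, hx⟩ : ∃ x, x ∉ K i := by
      by_contra h
      push Not at h
      exact hK i hi (eq_top_iff.2 fun y _ => h y)
    have h4 : Nat.card F ≤ Nat.card (V ⧸ K i) := by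
      refine Nat.card_le_card_of_injective (fun a : F => a • (Submodule.Quotient.mk x : V ⧸ K i)) ?_
      intro a b hab
      by_contra hne
      apply hx
      have h5 : (a - b) • (Submodule.Quotient.mk x : V ⧸ K i) = 0 := by
        rw [sub_smul]
        exact sub_eq_zero.2 hab
      rw [← Submodule.Quotient.mk_smul, Submodule.Quotient.mk_eq_zero] at h5
      have h6 := (K i).smul_mem (a - b)⁻¹ h5
      rwa [smul_smul, inv_mul_cancel₀ (sub_ne_zero.2 hne), one_smul] at h6
    have h7 := Submodule.card_eq_card_quotient_mul_card (K i)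
    rw [h7]
    exact Nat.mul_le_mul_right _ h4 |>.trans (le_of_eq (by ring))
  have h8 : Nat.card F * Nat.card V ≤ I.card * Nat.card V := by
    calc Nat.card F * Nat.card V ≤ Nat.card F * ∑ i ∈ I, Nat.card (K i) := Nat.mul_le_mul_left _ h2
      _ = ∑ i ∈ I, Nat.card F * Nat.card (K i) := Finset.mul_sum _ _ _
      _ ≤ ∑ _i ∈ I, Nat.card V := Finset.sum_le_sum h3
      _ = I.card * Nat.card V := by rw [Finset.sum_const, smul_eq_mul]
  have h9 : 0 < Nat.card V := Nat.card_pos
  exact absurd (Nat.le_of_mul_le_mul_right h8 h9) (not_le.2 hI)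

section
variable {F k : Type*} [Field F] [Finite F] [Field k] [Algebra F k]

/-- The `F`-space of equivariant vectors. -/
def equiv (F : Type*) {k : Type*} [Field F] [Finite F] [Field k] [Algebra F k] {ι : Type*}
    (σ : Equiv.Perm ι) : Submodule F (ι → k) where
  carrier := {l | ∀ j, l (σ j) = l j ^ Nat.card F}
  add_mem' := by
    intro a b ha hb j
    obtain ⟨p, hp⟩ := CharP.exists F
    haveI := Fintype.ofFinite F
    obtain ⟨⟨e, he⟩, hpp, hq⟩ := FiniteField.card F p
    haveI : Fact p.Prime := ⟨hpp⟩
    haveI : CharP k p := charP_of_injective_algebraMap (algebraMap F k).injective p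
    have hq' : Nat.card F = p ^ e := by rw [Nat.card_eq_fintype_card, hq]; rfl
    simp only [Set.mem_setOf_eq] at ha hb
    rw [Pi.add_apply, Pi.add_apply, ha, hb, hq', add_pow_char_pow]
  zero_mem' := by
    intro j
    simp [Nat.card_pos.ne']
  smul_mem' := by
    intro c a ha j
    haveI := Fintype.ofFinite F
    simp only [Set.mem_setOf_eq] at ha
    rw [Pi.smul_apply, Pi.smul_apply, ha, Algebra.smul_def, Algebra.smul_def, mul_pow, ← map_pow,
      Nat.card_eq_fintype_card, FiniteField.pow_card]

theorem mem_equiv {ι : Type*} {σ : Equiv.Perm ι} {l : ι → k} :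
    l ∈ equiv F σ ↔ ∀ j, l (σ j) = l j ^ Nat.card F := Iff.rfl

theorem iter_equiv {ι : Type*} {σ : Equiv.Perm ι} {l : ι → k} (hl : l ∈ equiv F σ) (r : ℕ) (j : ι) :
    l ((σ ^ r) j) = l j ^ (Nat.card F) ^ r := by
  induction r with
  | zero => simp
  | succ r ih =>
    rw [pow_succ', Equiv.Perm.mul_apply, mem_equiv.1 hl, ih, ← pow_mul, pow_succ]

theorem finite_fix (q : ℕ) (hq : 2 ≤ q) : {c : k | c ^ q = c}.Finite := by
  have h : (X ^ q - X : k[X]) ≠ 0 := by
    have := FiniteField.X_pow_card_sub_X_ne_zero k (p := q) hq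
    exact this
  refine (Polynomial.finite_setOf_isRoot h).subset ?_
  intro c hc
  simp only [Set.mem_setOf_eq] at hc ⊢
  simp [IsRoot, hc]

instance finite_equiv {ι : Type*} [Finite ι] (σ : Equiv.Perm ι) : Finite (equiv F (k := k) σ) := by
  classical
  haveI := Fintype.ofFinite ι
  set r := orderOf σ with hr
  have hr0 : 0 < r := orderOf_pos σ
  have hq : 2 ≤ Nat.card F ^ r := by
    have h1 : 2 ≤ Nat.card F := Finite.one_lt_card
    calc 2 ≤ Nat.card F := h1
      _ = Nat.card F ^ 1 := (pow_one _).symm
      _ ≤ _ := Nat.pow_le_pow_right (by omega) hr0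
  have hfin : (Set.pi Set.univ fun _ : ι => {c : k | c ^ (Nat.card F ^ r) = c}).Finite :=
    Set.Finite.pi fun _ => finite_fix _ hq
  refine Set.Finite.to_subtype (hfin.subset ?_)
  intro l hl j _
  have := iter_equiv (F := F) hl r j
  rw [hr, pow_orderOf_eq_one, Equiv.Perm.one_apply] at this
  exact this.symm

end

end Pool.Agent.H470
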