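import Pool.Agent.H470.Lam

set_option autoImplicit false
set_option linter.all false

open Polynomial

namespace Pool.Agent.H470

section
variable {F k : Type*} [Field F] [Finite F] [Field k] [IsAlgClosed k] [Algebra F k]

theorem card_fix (r : ℕ) (hr : 0 < r) :
    Nat.card {c : k | c ^ (Nat.card F ^ r) = c} = Nat.card F ^ r := by
  classical
  obtain ⟨p, hp⟩ := CharP.exists F
  haveI := Fintype.ofFinite F
  obtain ⟨⟨e, he⟩, hpp, hq⟩ := FiniteField.card F p
  haveI : Fact p.Prime := ⟨hpp⟩
  haveI : CharP k p := charP_of_injective_algebraMap (algebraMap F k).injective p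
  have hq' : Nat.card F = p ^ e := by rw [Nat.card_eq_fintype_card, hq]; rfl
  set Q := Nat.card F ^ r with hQ
  have hQ1 : 1 < Q := Nat.one_lt_pow hr.ne' Finite.one_lt_card
  have hdvd : p ∣ Q := by
    rw [hQ, hq']
    exact dvd_pow (dvd_pow_self p he.ne') hr.ne'
  have hsep : (X ^ Q - X : k[X]).Separable := galois_poly_separable p Q hdvd
  have h0 : (X ^ Q - X : k[X]) ≠ 0 := FiniteField.X_pow_card_sub_X_ne_zero k hQ1
  have h1 := card_rootSet_eq_natDegree (K := k) hsep (IsAlgClosed.splits _)
  rw [FiniteField.X_pow_card_sub_X_natDegree_eq k hQ1] at h1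
  have h2 : Nat.card {c : k | c ^ Q = c} = Nat.card ((X ^ Q - X : k[X]).rootSet k) := by
    apply Nat.card_congr
    apply Equiv.setCongr
    ext c
    rw [mem_rootSet]
    simp only [Set.mem_setOf_eq, map_sub, map_pow, aeval_X, sub_eq_zero]
    exact ⟨fun h => ⟨h0, h⟩, fun h => h.2⟩
  rw [h2, Nat.card_eq_fintype_card, h1]

variable {E : Type*} [Field E] [Algebra k E]

/-- the vector attached to `c` and the orbit of `j0` -/
noncomputable def orb {ι : Type*} [DecidableEq ι] (F : Type*) [Field F] [Finite F] {k : Type*}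
    [Field k] (σ : Equiv.Perm ι) (j0 : ι) (r : ℕ) (c : k) : ι → k :=
  fun j => ∑ i ∈ Finset.range r, if (σ ^ i) j0 = j then c ^ Nat.card F ^ i else 0

theorem orb_mem {ι : Type*} [DecidableEq ι] (σ : Equiv.Perm ι) (j0 : ι) (r : ℕ)
    (hr : σ ^ r = 1) (c : k) (hc : c ^ Nat.card F ^ r = c) :
    orb F σ j0 r c ∈ equiv F (k := k) σ := by
  intro j
  obtain ⟨p, hp⟩ := CharP.exists F
  haveI := Fintype.ofFinite F
  obtain ⟨⟨e, he⟩, hpp, hq⟩ := FiniteField.card F p
  haveI : Fact p.Prime := ⟨hpp⟩
  haveI : CharP k p := charP_of_injective_algebraMap (algebraMap F k).injective p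
  have hq' : Nat.card F = p ^ e := by rw [Nat.card_eq_fintype_card, hq]; rfl
  unfold orb
  set g : ℕ → k := fun i => if (σ ^ i) j0 = σ j then c ^ Nat.card F ^ i else 0 with hg
  have h1 : (∑ i ∈ Finset.range r, if (σ ^ i) j0 = j then c ^ Nat.card F ^ i else 0) ^ Nat.card F =
      ∑ i ∈ Finset.range r, g (i + 1) := by
    have hs : ∀ s : Finset ℕ, ∀ f : ℕ → k, (∑ i ∈ s, f i) ^ Nat.card F = ∑ i ∈ s, f i ^ Nat.card F := by
      intro s f
      rw [hq']
      exact sum_pow_char_pow _ _ s f
    rw [hs]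
    refine Finset.sum_congr rfl fun i _ => ?_
    rw [hg]
    simp only
    have h2 : (σ ^ (i + 1)) j0 = σ j ↔ (σ ^ i) j0 = j := by
      rw [pow_succ', Equiv.Perm.mul_apply, EmbeddingLike.apply_eq_iff_eq]
    by_cases h : (σ ^ i) j0 = j
    · rw [if_pos h, if_pos (h2.2 h), ← pow_mul, pow_succ]
    · rw [if_neg h, if_neg (fun h3 => h (h2.1 h3)), zero_pow Nat.card_pos.ne']
  rw [h1]
  show ∑ i ∈ Finset.range r, g i = _
  have h3 := Finset.sum_range_succ g r
  have h4 := Finset.sum_range_succ' g r
  have h5 : g r = g 0 := by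
    rw [hg]
    simp only [hr, pow_zero, Nat.pow_zero, pow_one, hc]
  rw [h3, h5] at h4
  exact (add_right_cancel h4)

theorem exists_functional_ne_zero {ι : Type*} [Fintype ι] [DecidableEq ι] (σ : Equiv.Perm ι)
    (u : ι → E) (hu : u ≠ 0) :
    ∃ l ∈ equiv F (k := k) σ, ∑ j, algebraMap k E (l j) * u j ≠ 0 := by
  classical
  obtain ⟨j0, hj0⟩ : ∃ j, u j ≠ 0 := by
    by_contra h
    push Not at h
    exact hu (funext h)
  set r := orderOf σ with hr
  have hr0 : 0 < r := orderOf_pos σ
  have hr1 : σ ^ r = 1 := pow_orderOf_eq_one σ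
  by_contra hcon
  push Not at hcon
  set P : E[X] := ∑ i ∈ Finset.range r, C (u ((σ ^ i) j0)) * X ^ (Nat.card F ^ i) with hP
  have hq1 : 1 < Nat.card F := Finite.one_lt_card
  have hP1 : P.coeff 1 = u j0 := by
    rw [hP, finset_sum_coeff]
    rw [Finset.sum_eq_single_of_mem 0 (Finset.mem_range.2 hr0)]
    · simp
    · intro i _ hi
      rw [coeff_C_mul, coeff_X_pow, if_neg, mul_zero]
      intro h
      exact absurd (Nat.one_lt_pow hi hq1) (by omega)
  have hP0 : P ≠ 0 := by
    intro h
    rw [h, coeff_zero] at hP1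
    exact hj0 hP1.symm
  have hdeg : P.natDegree ≤ Nat.card F ^ (r - 1) := by
    rw [hP]
    refine natDegree_sum_le_of_forall_le _ _ fun i hi => ?_
    refine (natDegree_C_mul_X_pow_le _ _).trans ?_
    exact Nat.pow_le_pow_right (by omega) (by have := Finset.mem_range.1 hi; omega)
  have hroot : ∀ c : k, c ^ (Nat.card F ^ r) = c → P.eval (algebraMap k E c) = 0 := by
    intro c hc
    have h1 := hcon _ (orb_mem (F := F) σ j0 r hr1 c hc)
    rw [← h1, hP, eval_finset_sum]
    unfold orb
    simp only [map_sum, Finset.sum_mul]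
    rw [Finset.sum_comm]
    refine Finset.sum_congr rfl fun i _ => ?_
    rw [Finset.sum_eq_single_of_mem ((σ ^ i) j0) (Finset.mem_univ _)]
    · rw [if_pos rfl, eval_mul, eval_C, eval_pow, eval_X, map_pow, mul_comm]
    · intro j _ hj
      rw [if_neg (Ne.symm hj), map_zero, zero_mul]
  have hcard := card_fix (F := F) (k := k) r hr0
  have hfin : {c : k | c ^ (Nat.card F ^ r) = c}.Finite :=
    finite_fix _ (Nat.one_lt_pow hr0.ne' hq1)
  have h6 : Nat.card F ^ r ≤ P.natDegree := by
    rw [← hcard]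
    have h7 : (hfin.toFinset.map ⟨algebraMap k E, (algebraMap k E).injective⟩).card ≤ P.natDegree := by
      apply Polynomial.card_le_degree_of_subset_roots
      intro x hx
      rw [Finset.mem_val, Finset.mem_map] at hx
      obtain ⟨c, hc, rfl⟩ := hx
      rw [mem_roots hP0]
      exact hroot c (by simpa using hc)
    rw [Finset.card_map] at h7
    rwa [← Set.ncard_coe_finset, Set.Finite.coe_toFinset] at h7
  have h8 := h6.trans hdeg
  have h9 : Nat.card F ^ (r - 1) < Nat.card F ^ r := Nat.pow_lt_pow_right hq1 (by omega)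
  omega

/-- **Equivariant coefficients.** Fewer than `q` nonzero linear conditions can be avoided. -/
theorem exists_equiv {ι I : Type*} [Fintype ι] [DecidableEq ι] (σ : Equiv.Perm ι)
    (S : Finset I) (u : I → ι → E) (hu : ∀ i ∈ S, u i ≠ 0) (hS : S.card < Nat.card F) :
    ∃ l : ι → k, (∀ j, l (σ j) = l j ^ Nat.card F) ∧
      ∀ i ∈ S, ∑ j, algebraMap k E (l j) * u i j ≠ 0 := by
  classical
  letI : Algebra F E := ((algebraMap k E).comp (algebraMap F k)).toAlgebra
  haveI : IsScalarTower F k E := IsScalarTower.of_algebraMap_eq fun _ => rfl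
  let V := equiv F (k := k) σ
  let fn : (i : I) → V →ₗ[F] E := fun i =>
    { toFun := fun l => ∑ j, algebraMap k E ((l : ι → k) j) * u i j
      map_add' := by
        intro a b
        simp only [Submodule.coe_add, Pi.add_apply, map_add, add_mul, Finset.sum_add_distrib]
      map_smul' := by
        intro c a
        simp only [Submodule.coe_smul, Pi.smul_apply, RingHom.id_apply, Algebra.smul_def, map_mul,
          Finset.mul_sum, mul_assoc]
        rfl }
  obtain ⟨v, hv⟩ := exists_notMem_submodules (F := F) (V := V) S (fun i => LinearMap.ker (fn i))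
    (by
      intro i hi htop
      obtain ⟨l, hl, hne⟩ := exists_functional_ne_zero (F := F) (k := k) σ (u i) (hu i hi)
      apply hne
      have h1 : (⟨l, hl⟩ : V) ∈ LinearMap.ker (fn i) := by
        rw [htop]
        trivial
      exact h1) hS
  refine ⟨v, v.2, fun i hi h => hv i hi ?_⟩
  exact h

end

end Pool.Agent.H470
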