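import Pool.Agent.H470.Mom6

/-!
# Moments: the dichotomy
-/

set_option autoImplicit false
set_option linter.all false

open Polynomial

namespace Pool.Agent.H470
namespace Dat

section
variable {F k : Type} [Field F] [Fintype F] [DecidableEq F] [Field k] [IsAlgClosed k] [Algebra F k]
    [Algebra.IsAlgebraic F k] {M : Type}
    [Field M] [Algebra (RatFunc k) M] [Algebra k[X] M] [IsScalarTower k[X] (RatFunc k) M] {n : ℕ}
    (D : Dat F k M n 1)
include D

theorem ncard_le (t : F) (hn : 0 < n) : {z : F | (D.g.map (evalRingHom t)).eval z = 0}.ncard ≤ n := by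
  have h1 : {z : F | (D.g.map (evalRingHom t)).eval z = 0} ⊆
      (((D.g.map (evalRingHom t)).roots.toFinset : Finset F) : Set F) := by
    intro x hx
    simp only [Finset.mem_coe, Multiset.mem_toFinset]
    rw [mem_roots (D.monic.map _).ne_zero]
    exact hx
  refine (Set.ncard_le_ncard h1 (Finset.finite_toSet _)).trans ?_
  rw [Set.ncard_coe_finset]
  refine (Multiset.toFinset_card_le _).trans ((card_roots' _).trans ?_)
  rw [D.monic.natDegree_map, D.deg]

theorem dich_aux (hn : 0 < n) (Bad0 : Finset F) (hB : Bad0.card ≤ 3 * n) (a : ℕ) (ha : a ≤ n)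
    (h : ∀ t ∉ Bad0, {z : F | (D.g.map (evalRingHom t)).eval z = 0}.ncard = 0 ∨
      {z : F | (D.g.map (evalRingHom t)).eval z = 0}.ncard = a)
    (hq : 10000 * n ^ 24 < Fintype.card F) (ρ : D.Ga) : D.phi ρ = 0 ∨ D.phi ρ = a := by
  classical
  have hn1 : 1 ≤ n := hn
  have hpw : ∀ i : ℕ, i ≤ 24 → n ^ i < Fintype.card F := by
    intro i hi
    have h1 : n ^ i ≤ n ^ 24 := Nat.pow_le_pow_right hn1 hi
    omega
  obtain ⟨c1, E1, hE1, hd1, hb1, hm1⟩ := D.moment (r := 1) (by norm_num) hn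
    (by rw [← pow_mul]; exact hpw _ (by norm_num))
  obtain ⟨c2, E2, hE2, hd2, hb2, hm2⟩ := D.moment (r := 2) (by norm_num) hn
    (by rw [← pow_mul]; exact hpw _ (by norm_num))
  obtain ⟨c3, E3, hE3, hd3, hb3, hm3⟩ := D.moment (r := 3) (by norm_num) hn
    (by rw [← pow_mul]; exact hpw _ (by norm_num))
  set Bad : Finset F := Bad0 ∪ (E1.roots.toFinset ∪ (E2.roots.toFinset ∪ E3.roots.toFinset)) with hBad
  have hr : ∀ E : F[X], E.roots.toFinset.card ≤ E.natDegree := fun E =>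
    (Multiset.toFinset_card_le _).trans (card_roots' _)
  have hBc : Bad.card ≤ 9 * n ^ 6 := by
    have h1 := Finset.card_union_le Bad0 (E1.roots.toFinset ∪ (E2.roots.toFinset ∪ E3.roots.toFinset))
    have h2 := Finset.card_union_le E1.roots.toFinset (E2.roots.toFinset ∪ E3.roots.toFinset)
    have h3 := Finset.card_union_le E2.roots.toFinset E3.roots.toFinset
    have h4 := (hr E1).trans hd1
    have h5 := (hr E2).trans hd2
    have h6 := (hr E3).trans hd3
    have h7 : n ^ (2 * 1) ≤ n ^ 6 := Nat.pow_le_pow_right hn1 (by norm_num)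
    have h8 : n ^ (2 * 2) ≤ n ^ 6 := Nat.pow_le_pow_right hn1 (by norm_num)
    have h9 : n ^ (2 * 3) = n ^ 6 := by norm_num
    have h10 : n ≤ n ^ 6 := Nat.le_self_pow (by norm_num) n
    rw [hBad]
    omega
  have hmem : ∀ E : F[X], E ≠ 0 → ∀ t, t ∉ E.roots.toFinset → E.eval t ≠ 0 := by
    intro E hE t ht h0
    apply ht
    rw [Multiset.mem_toFinset, mem_roots hE]
    exact h0
  have k1 := hm1 Bad (by
    intro t ht
    apply hmem E1 hE1
    intro h1
    exact ht (by rw [hBad]; simp only [Finset.mem_union]; tauto))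
  have k2 := hm2 Bad (by
    intro t ht
    apply hmem E2 hE2
    intro h1
    exact ht (by rw [hBad]; simp only [Finset.mem_union]; tauto))
  have k3 := hm3 Bad (by
    intro t ht
    apply hmem E3 hE3
    intro h1
    exact ht (by rw [hBad]; simp only [Finset.mem_union]; tauto))
  set N : F → ℝ := fun t => ({z : F | (D.g.map (evalRingHom t)).eval z = 0}.ncard : ℝ) with hN
  set q : ℝ := (Fintype.card F : ℝ) with hqdef
  have hzero : (∑ t ∈ Finset.univ \ Bad, N t ^ 3) - 2 * a * (∑ t ∈ Finset.univ \ Bad, N t ^ 2) +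
      (a : ℝ) ^ 2 * (∑ t ∈ Finset.univ \ Bad, N t ^ 1) = 0 := by
    rw [Finset.mul_sum, Finset.mul_sum, ← Finset.sum_sub_distrib, ← Finset.sum_add_distrib]
    refine Finset.sum_eq_zero fun t ht => ?_
    rw [Finset.mem_sdiff] at ht
    have h1 : t ∉ Bad0 := fun h2 => ht.2 (by rw [hBad]; simp only [Finset.mem_union]; tauto)
    rcases h t h1 with h2 | h2
    · have : N t = 0 := by rw [hN]; simp only; rw [h2]; norm_num
      rw [this]; ring
    · have : N t = a := by rw [hN]; simp only; rw [h2]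
      rw [this]; ring
  -- the estimates
  have hsq : 0 ≤ √q := Real.sqrt_nonneg _
  have hqq : √q * √q = q := Real.mul_self_sqrt (by rw [hqdef]; positivity)
  have hsq2 : 100 * (n : ℝ) ^ 12 < √q := by
    apply Real.lt_sqrt_of_sq_lt
    have h1 : (100 * (n : ℝ) ^ 12) ^ 2 = 10000 * (n : ℝ) ^ 24 := by ring
    rw [h1, hqdef]
    exact_mod_cast hq
  have hnR : (1 : ℝ) ≤ n := by exact_mod_cast hn1
  have haR : (a : ℝ) ≤ n := by exact_mod_cast ha
  have ha0 : (0 : ℝ) ≤ a := Nat.cast_nonneg _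
  have hBR : (Bad.card : ℝ) ≤ 9 * (n : ℝ) ^ 6 := by exact_mod_cast hBc
  have hB0 : (0 : ℝ) ≤ Bad.card := Nat.cast_nonneg _
  set x : ℝ := (c3 : ℝ) - 2 * a * c2 + (a : ℝ) ^ 2 * c1 with hx
  set S1 := ∑ t ∈ Finset.univ \ Bad, N t ^ 1 with hS1
  set S2 := ∑ t ∈ Finset.univ \ Bad, N t ^ 2 with hS2
  set S3 := ∑ t ∈ Finset.univ \ Bad, N t ^ 3 with hS3
  have hxq : |x * q| ≤ (9 * (n : ℝ) ^ (4 * 3) * √q + Bad.card * (n : ℝ) ^ 3) +
      2 * a * (9 * (n : ℝ) ^ (4 * 2) * √q + Bad.card * (n : ℝ) ^ 2) +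
      (a : ℝ) ^ 2 * (9 * (n : ℝ) ^ (4 * 1) * √q + Bad.card * (n : ℝ) ^ 1) := by
    have h1 : x * q = -(S3 - c3 * q) + 2 * a * (S2 - c2 * q) - (a : ℝ) ^ 2 * (S1 - c1 * q) := by
      rw [hx]
      linear_combination (1 : ℝ) * hzero
    rw [h1]
    refine (abs_sub _ _).trans ?_
    refine add_le_add ((abs_add_le _ _).trans (add_le_add ?_ ?_)) ?_
    · rw [abs_neg]; exact k3
    · rw [abs_mul, abs_of_nonneg (by positivity : (0 : ℝ) ≤ 2 * a)]
      exact mul_le_mul_of_nonneg_left k2 (by positivity)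
    · rw [abs_mul, abs_of_nonneg (by positivity : (0 : ℝ) ≤ (a : ℝ) ^ 2)]
      exact mul_le_mul_of_nonneg_left k1 (by positivity)
  have hbound : |x * q| ≤ 100 * (n : ℝ) ^ 12 * √q := by
    refine hxq.trans ?_
    set m : ℝ := (n : ℝ) with hm
    have e0 : 0 ≤ m := by linarith
    have p9 : m ^ 9 ≤ m ^ 12 := pow_le_pow_right₀ hnR (by norm_num)
    have p6 : m ^ 6 ≤ m ^ 12 := pow_le_pow_right₀ hnR (by norm_num)
    have hs1 : 1 ≤ √q := by
      have : (1 : ℝ) ≤ m ^ 12 := one_le_pow₀ hnR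
      linarith
    have a2 : (a : ℝ) ^ 2 ≤ m ^ 2 := pow_le_pow_left₀ ha0 haR 2
    have t1 : 2 * a * (9 * m ^ (4 * 2) * √q + Bad.card * m ^ 2) ≤
        2 * m * (9 * m ^ (4 * 2) * √q + 9 * m ^ 6 * m ^ 2) := by
      apply mul_le_mul
      · linarith
      · have := mul_le_mul_of_nonneg_right hBR (pow_nonneg e0 2)
        linarith
      · positivity
      · positivity
    have t2 : (a : ℝ) ^ 2 * (9 * m ^ (4 * 1) * √q + Bad.card * m ^ 1) ≤
        m ^ 2 * (9 * m ^ (4 * 1) * √q + 9 * m ^ 6 * m ^ 1) := by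
      apply mul_le_mul a2
      · have := mul_le_mul_of_nonneg_right hBR (pow_nonneg e0 1)
        linarith
      · positivity
      · positivity
    have t3 : (Bad.card : ℝ) * m ^ 3 ≤ 9 * m ^ 6 * m ^ 3 :=
      mul_le_mul_of_nonneg_right hBR (pow_nonneg e0 3)
    have t4 : (9 * m ^ (4 * 3) * √q + 9 * m ^ 6 * m ^ 3) +
        2 * m * (9 * m ^ (4 * 2) * √q + 9 * m ^ 6 * m ^ 2) +
        m ^ 2 * (9 * m ^ (4 * 1) * √q + 9 * m ^ 6 * m ^ 1) =
        (9 * m ^ 12 + 18 * m ^ 9 + 9 * m ^ 6) * √q + 36 * m ^ 9 := by ring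
    have t5 : (9 * m ^ 12 + 18 * m ^ 9 + 9 * m ^ 6) * √q ≤ 36 * m ^ 12 * √q := by
      apply mul_le_mul_of_nonneg_right _ hsq
      linarith
    have t6 : 36 * m ^ 9 ≤ 36 * m ^ 12 * √q := by
      have : m ^ 12 ≤ m ^ 12 * √q := le_mul_of_one_le_right (by positivity) hs1
      nlinarith
    have t7 : 0 ≤ m ^ 12 * √q := by positivity
    linarith
  have hlt : |x * q| < q := by
    refine lt_of_le_of_lt hbound ?_
    have h1 : 0 < √q := by
      have : (0 : ℝ) ≤ 100 * (n : ℝ) ^ 12 := by positivity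
      linarith
    calc 100 * (n : ℝ) ^ 12 * √q < √q * √q := mul_lt_mul_of_pos_right hsq2 h1
      _ = q := hqq
  have hx0 : x = 0 := by
    have hq0 : (0 : ℝ) < q := by rw [hqdef]; exact_mod_cast Fintype.card_pos
    rw [abs_mul, abs_of_pos hq0] at hlt
    have h1 : |x| < 1 := by
      by_contra hcon
      push Not at hcon
      have := mul_le_mul_of_nonneg_right hcon hq0.le
      linarith
    have h2 : x = (((c3 : ℤ) - 2 * a * c2 + (a : ℤ) ^ 2 * c1 : ℤ) : ℝ) := by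
      rw [hx]; push_cast; ring
    rw [h2] at h1 ⊢
    rw [← Int.cast_abs, ← Int.cast_one, Int.cast_lt] at h1
    have h3 := Int.abs_lt_one_iff.1 h1
    rw [h3]
    norm_num
  -- the group side
  have hsum : ∑ ρ : D.Ga, (D.phi ρ : ℝ) * ((D.phi ρ : ℝ) - a) ^ 2 = 0 := by
    have b1 : ∑ ρ : D.Ga, (D.phi ρ : ℝ) ^ 1 = Fintype.card D.Ga * c1 := by exact_mod_cast hb1
    have b2 : ∑ ρ : D.Ga, (D.phi ρ : ℝ) ^ 2 = Fintype.card D.Ga * c2 := by exact_mod_cast hb2
    have b3 : ∑ ρ : D.Ga, (D.phi ρ : ℝ) ^ 3 = Fintype.card D.Ga * c3 := by exact_mod_cast hb3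
    have e1 : ∑ ρ : D.Ga, (D.phi ρ : ℝ) * ((D.phi ρ : ℝ) - a) ^ 2 =
        ∑ ρ : D.Ga, (D.phi ρ : ℝ) ^ 3 - 2 * a * ∑ ρ : D.Ga, (D.phi ρ : ℝ) ^ 2 +
        (a : ℝ) ^ 2 * ∑ ρ : D.Ga, (D.phi ρ : ℝ) ^ 1 := by
      rw [Finset.mul_sum, Finset.mul_sum, ← Finset.sum_sub_distrib, ← Finset.sum_add_distrib]
      exact Finset.sum_congr rfl fun ρ _ => by ring
    rw [e1, b1, b2, b3]
    have : (Fintype.card D.Ga : ℝ) * c3 - 2 * a * (Fintype.card D.Ga * c2) +
        (a : ℝ) ^ 2 * (Fintype.card D.Ga * c1) = Fintype.card D.Ga * x := by rw [hx]; ring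
    rw [this, hx0, mul_zero]
  have hterm := (Finset.sum_eq_zero_iff_of_nonneg (fun ρ _ => by positivity)).1 hsum ρ (Finset.mem_univ _)
  rcases mul_eq_zero.1 hterm with h1 | h1
  · left
    exact_mod_cast h1
  · right
    have h2 := pow_eq_zero_iff (n := 2) (by norm_num) |>.1 h1
    have h3 : (D.phi ρ : ℝ) = a := by linarith
    exact_mod_cast h3

/-- **The dichotomy.** -/
theorem dich (hn : 0 < n) (Bad0 : Finset F) (hB : Bad0.card ≤ 3 * n) (a : ℕ)
    (h : ∀ t ∉ Bad0, {z : F | (D.g.map (evalRingHom t)).eval z = 0}.ncard = 0 ∨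
      {z : F | (D.g.map (evalRingHom t)).eval z = 0}.ncard = a)
    (hq : 10000 * n ^ 24 < Fintype.card F) (ρ : D.Ga) : D.phi ρ = 0 ∨ D.phi ρ = a := by
  rcases le_or_gt a n with ha | ha
  · exact D.dich_aux hn Bad0 hB a ha h hq ρ
  · left
    have h' : ∀ t ∉ Bad0, {z : F | (D.g.map (evalRingHom t)).eval z = 0}.ncard = 0 ∨
      {z : F | (D.g.map (evalRingHom t)).eval z = 0}.ncard = 0 := by
      intro t ht
      left
      rcases h t ht with h1 | h1
      · exact h1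
      · have := D.ncard_le t hn
        omega
    rcases D.dich_aux hn Bad0 hB 0 (by omega) h' hq ρ with h1 | h1 <;> exact h1

end

end Dat

/-- **The local-global principle, quantitative form.** -/
theorem lgq {F : Type} [Field F] [Fintype F] [DecidableEq F] (k : Type) [Field k]
    [IsAlgClosed k] [Algebra F k] [Algebra.IsAlgebraic F k] (M : Type) [Field M]
    [Algebra (RatFunc k) M] [Algebra k[X] M] [IsScalarTower k[X] (RatFunc k) M] (Ψ : M →+* M)
    (hΨ : Semi F (k := k) Ψ) (n : ℕ) (hn : 0 < n) (g : F[X][X]) (hg : g.Monic) (hgn : g.natDegree = n)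
    (hgd : ∀ i, (g.coeff i).natDegree ≤ 1) (y : Fin n → M) (hy : Function.Injective y)
    (hroot : ∀ j, aeval (y j) (g.map (mapRingHom (algebraMap F k))) = 0) (Bad : Finset F)
    (hB : Bad.card ≤ 3 * n) (a : ℕ) (h : ∀ t ∉ Bad, {z : F | (g.map (evalRingHom t)).eval z = 0}.ncard = 0 ∨
      {z : F | (g.map (evalRingHom t)).eval z = 0}.ncard = a)
    (hq : 10000 * n ^ 24 < Fintype.card F) :
    {j | Ψ (y j) = y j}.ncard = 0 ∨ {j | Ψ (y j) = y j}.ncard = a := by
  classical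
  let D : Dat F k M n 1 := ⟨Ψ, hΨ, g, hg, hgn, hgd, y, hy, hroot⟩
  have h1 := D.dich hn Bad hB a h hq 1
  rw [D.phi_one] at h1
  have h2 : {j | Ψ (y j) = y j}.ncard = (Finset.univ.filter fun j => Ψ (y j) = y j).card := by
    rw [← Set.ncard_coe_finset]
    congr 1
    ext j
    simp
  rw [h2]
  exact h1

end Pool.Agent.H470
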