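import Pool.Agent.H470.Loc
import Pool.Agent.H470.LPv
import Pool.Agent.H470.Mom7

/-!
# The local principle, quantitative form
-/

set_option autoImplicit false
set_option linter.all false

open Polynomial

namespace Pool.Agent.H470

/-- **The local principle, quantitative form.** -/
theorem local_q (n N : ℕ) (hn : 0 < n) (hN : 0 < N) (F : Type) [Field F] [Fintype F] [DecidableEq F]
    (k : Type) [Field k] [IsAlgClosed k] [Algebra F k] [Algebra.IsAlgebraic F k]
    (hq : 10000 * n ^ 24 < Fintype.card F) (A B : F[X]) (hA : A.Monic) (hAn : A.natDegree = n)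
    (hB : B.degree < A.degree) (v c : F) (hc : c ≠ 0)
    (hcop : ∀ y : k, ((A - C v * B).map (algebraMap F k)).IsRoot y → (B.map (algebraMap F k)).eval y ≠ 0)
    (hμ : ∀ y : k, ((A - C v * B).map (algebraMap F k)).IsRoot y →
      (((A - C v * B).map (algebraMap F k)).rootMultiplicity y : k) ≠ 0)
    (hdvd : ∀ y : k, ((A - C v * B).map (algebraMap F k)).IsRoot y →
      ((A - C v * B).map (algebraMap F k)).rootMultiplicity y ∣ N)
    (Bad : Finset F) (hBad : Bad.card ≤ 3 * n) (aa : ℕ)
    (haa : ∀ t ∉ Bad, {z : F | (A - C t * B).eval z = 0}.ncard = 0 ∨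
      {z : F | (A - C t * B).eval z = 0}.ncard = aa) :
    FixN (A - C v * B) B c = 0 ∨ FixN (A - C v * B) B c = aa := by
  classical
  set a := algebraMap F k with ha
  set P := A - C v * B with hP
  have hPd : (C v * B).degree < A.degree := lt_of_le_of_lt (degree_C_mul_le' _ _) hB
  have hPm : P.Monic := hA.sub_of_left hPd
  have hPn : P.natDegree = n := by
    rw [hP, natDegree_eq_of_degree_eq (degree_sub_eq_left_of_degree_lt hPd), hAn]
  have hPk : P.map a = A.map a - C (a v) * B.map a := by
    rw [hP, Polynomial.map_sub, Polynomial.map_mul, map_C]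
  have hPk0 : P.map a ≠ 0 := (hPm.map a).ne_zero
  have hck : a c ≠ 0 := by
    rw [ha]
    exact (map_ne_zero_iff _ (algebraMap F k).injective).2 hc
  set T : k[X] := C (a v) + C (a c) * X ^ N with hT
  have hTn : 0 < T.natDegree := by
    rw [hT, natDegree_C_add, natDegree_C_mul_X_pow _ _ hck]
    exact hN
  set I := Idx (P.map a) (B.map a) (a c) with hI
  have hIc : I.card = n := by
    rw [hI, card_Idx hPk0 hck hcop hμ, hPm.natDegree_map, hPn]
  have hsol : ∀ i : I, ∃ w : PowerSeries k, PowerSeries.constantCoeff w = i.1.2 ∧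
      eval₂ (PowerSeries.C : k →+* PowerSeries k)
        (PowerSeries.C i.1.1 + PowerSeries.X ^ (N / (P.map a).rootMultiplicity i.1.1) * w) (A.map a) =
      (T : PowerSeries k) *
        eval₂ (PowerSeries.C : k →+* PowerSeries k)
          (PowerSeries.C i.1.1 + PowerSeries.X ^ (N / (P.map a).rootMultiplicity i.1.1) * w) (B.map a) := by
    intro i
    have := exists_sol (A := A.map a) (B := B.map a) (v := a v) (c := a c) (by rw [← hPk]; exact hPk0)
      hck (by rw [← hPk]; exact hcop) (by rw [← hPk]; exact hμ) N hN (by rw [← hPk]; exact hdvd) i.1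
      (by rw [← hPk]; exact i.2)
    rw [← hPk] at this
    exact this
  choose w hw1 hw2 using hsol
  let s : I → PowerSeries k := fun i =>
    PowerSeries.C i.1.1 + PowerSeries.X ^ (N / (P.map a).rootMultiplicity i.1.1) * w i
  have hμpos : ∀ i : I, 0 < N / (P.map a).rootMultiplicity i.1.1 := by
    intro i
    have h1 := ((mem_Idx hPk0 hμ).1 i.2).1
    have h2 : (P.map a).rootMultiplicity i.1.1 ≠ 0 := by
      intro h
      apply hμ _ h1
      rw [h, Nat.cast_zero]
    exact Nat.div_pos (Nat.le_of_dvd hN (hdvd _ h1)) (Nat.pos_of_ne_zero h2)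
  have hs0 : ∀ i, PowerSeries.constantCoeff (s i) = i.1.1 := by
    intro i
    show PowerSeries.constantCoeff (PowerSeries.C i.1.1 + _ * w i) = _
    rw [map_add, map_mul, map_pow, PowerSeries.constantCoeff_X, zero_pow (hμpos i).ne',
      zero_mul, add_zero, PowerSeries.constantCoeff_C]
  -- comparison of two solutions
  have hcmp : ∀ (i j : I) (u : k →+* k), PowerSeries.map u (s i) = s j →
      (P.map a).rootMultiplicity j.1.1 = (P.map a).rootMultiplicity i.1.1 →
      u i.1.1 = j.1.1 ∧ u i.1.2 = j.1.2 := by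
    intro i j u h hm
    have h1 : u i.1.1 = j.1.1 := by
      have := congrArg PowerSeries.constantCoeff h
      rw [hs0, ← PowerSeries.coeff_zero_eq_constantCoeff_apply, PowerSeries.coeff_map,
        PowerSeries.coeff_zero_eq_constantCoeff_apply, hs0] at this
      exact this
    refine ⟨h1, ?_⟩
    have h2 : PowerSeries.map u (s i) = PowerSeries.C (u i.1.1) +
        PowerSeries.X ^ (N / (P.map a).rootMultiplicity i.1.1) * PowerSeries.map u (w i) := by
      show PowerSeries.map u (PowerSeries.C i.1.1 + _ * w i) = _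
      rw [map_add, map_mul, map_pow, PowerSeries.map_C, PowerSeries.map_X]
    have h3 : s j = PowerSeries.C j.1.1 +
        PowerSeries.X ^ (N / (P.map a).rootMultiplicity i.1.1) * w j := by
      rw [← hm]
    rw [h2, h3, h1] at h
    have h4 := mul_left_cancel₀ (pow_ne_zero _ PowerSeries.X_ne_zero) (add_left_cancel h)
    have h5 := congrArg PowerSeries.constantCoeff h4
    rw [hw1 j, ← PowerSeries.coeff_zero_eq_constantCoeff_apply, PowerSeries.coeff_map,
      PowerSeries.coeff_zero_eq_constantCoeff_apply, hw1 i] at h5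
    exact h5
  have hsinj : Function.Injective s := by
    intro i j h
    have h0 : i.1.1 = j.1.1 := by rw [← hs0, ← hs0, h]
    have h1 := hcmp i j (RingHom.id k) (by rw [PowerSeries.map_id]; exact h) (by rw [h0])
    apply Subtype.ext
    exact Sigma.ext h1.1 (heq_of_eq h1.2)
  let e : Fin n ≃ I := (Finset.equivFinOfCardEq hIc).symm
  let y : Fin n → PSF k := fun j => toPSF k (s (e j))
  have hyinj : Function.Injective y := fun i j h =>
    e.injective (hsinj (toPSF_injective k h))
  letI algX : Algebra k[X] (PSF k) := (embT T).toAlgebra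
  letI algR : Algebra (RatFunc k) (PSF k) :=
    (IsFractionRing.lift (A := k[X]) (K := RatFunc k) (g := embT T) (embT_injective hTn)).toAlgebra
  haveI tow : IsScalarTower k[X] (RatFunc k) (PSF k) := by
    apply IsScalarTower.of_algebraMap_eq
    intro p
    show embT T p = IsFractionRing.lift (embT_injective hTn) (algebraMap k[X] (RatFunc k) p)
    rw [IsFractionRing.lift_algebraMap]
  set Ψ := psfMap (fr F k) with hΨdef
  have hTfr : PowerSeries.map (fr F k) (T : PowerSeries k) = (T : PowerSeries k) := by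
    rw [hT]
    push_cast
    rw [map_add, map_mul, map_pow, PowerSeries.map_X, PowerSeries.map_C, PowerSeries.map_C, ha,
      fr_algebraMap, fr_algebraMap]
  have hΨ : Semi F (k := k) Ψ := by
    constructor
    · intro x
      show psfMap (fr F k) (embT T (C x)) = embT T (C (fr F k x))
      rw [embT_C, embT_C, psfMap_toPSF, PowerSeries.map_C]
    · show psfMap (fr F k) (embT T X) = embT T X
      rw [embT_X, psfMap_toPSF, hTfr]
  have hroot : ∀ j, aeval (y j) ((gAB A B).map (mapRingHom (algebraMap F k))) = 0 := by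
    intro j
    show eval₂ (embT T) (toPSF k (s (e j))) _ = 0
    rw [eval₂_gAB, ← map_zero (toPSF k)]
    congr 1
    rw [sub_eq_zero]
    exact hw2 (e j)
  have hdich := lgq k (PSF k) Ψ hΨ n hn (gAB A B) (gAB_monic A B hA hB)
    ((gAB_natDegree A B hA hB).trans hAn) (gAB_coeff A B) y hyinj hroot Bad hBad aa
    (by simp only [gAB_spec]; exact haa) hq
  suffices hsuff : {j | Ψ (y j) = y j}.ncard = FixN (A - C v * B) B c by
    rw [hsuff] at hdich
    exact hdich
  -- the permutation
  set G := ((gAB A B).map (mapRingHom (algebraMap F k))).map (algebraMap k[X] (PSF k)) with hG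
  have hGm : G.Monic := ((gAB_monic A B hA hB).map _).map _
  have hGn : G.natDegree = n := by
    rw [hG, ((gAB_monic A B hA hB).map _).natDegree_map, (gAB_monic A B hA hB).natDegree_map,
      gAB_natDegree A B hA hB, hAn]
  have hGroot : ∀ j, G.eval (y j) = 0 := by
    intro j
    rw [hG, eval_map]
    exact hroot j
  have hGΨ : G.map Ψ = G := by
    rw [hG, Polynomial.map_map, Polynomial.map_map, Polynomial.map_map]
    congr 1
    apply Polynomial.ringHom_ext
    · intro x
      simp only [RingHom.comp_apply, coe_mapRingHom, map_C]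
      rw [hΨ.C, fr_algebraMap]
    · simp only [RingHom.comp_apply, coe_mapRingHom, map_X]
      exact hΨ.X
  obtain ⟨σ, hσ⟩ := exists_perm G hGm hGn y hyinj hGroot Ψ hGΨ
  have hPfr : (P.map a).map (fr F k) = P.map a := by
    rw [Polynomial.map_map, ha, fr_comp]
  have hfix : ∀ j, Ψ (y j) = y j ↔ (fr F k (e j).1.1 = (e j).1.1 ∧ fr F k (e j).1.2 = (e j).1.2) := by
    intro j
    have hΨy : Ψ (y j) = toPSF k (PowerSeries.map (fr F k) (s (e j))) := psfMap_toPSF _ _
    constructor
    · intro h
      rw [hΨy] at h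
      exact hcmp (e j) (e j) (fr F k) (toPSF_injective k h) rfl
    · rintro ⟨h1, h2⟩
      rw [hσ]
      rw [hσ] at hΨy
      have h3 : PowerSeries.map (fr F k) (s (e j)) = s (e (σ j)) := (toPSF_injective k hΨy).symm
      have h4 : (e (σ j)).1.1 = (e j).1.1 := by
        rw [← hs0 (e (σ j)), ← h3, ← PowerSeries.coeff_zero_eq_constantCoeff_apply,
          PowerSeries.coeff_map, PowerSeries.coeff_zero_eq_constantCoeff_apply, hs0, h1]
      have h5 := hcmp (e j) (e (σ j)) (fr F k) h3 (by rw [h4])
      have h6 : e (σ j) = e j := by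
        apply Subtype.ext
        exact Sigma.ext h4 (heq_of_eq (by rw [← h5.2, h2]))
      rw [e.injective h6]
  -- counting
  unfold FixN
  have hset : {j | Ψ (y j) = y j} = {j : Fin n | fr F k (e j).1.1 = (e j).1.1 ∧
      fr F k (e j).1.2 = (e j).1.2} := by
    ext j
    exact hfix j
  rw [hset]
  symm
  refine Set.ncard_congr (fun z hz => e.symm ⟨⟨a z.1, a z.2⟩, ?_⟩) ?_ ?_ ?_
  · obtain ⟨h1, h2⟩ := hz
    apply (mem_Idx hPk0 hμ).2
    refine ⟨?_, ?_⟩
    · show (P.map a).eval (a z.1) = 0
      rw [eval_map_apply, h1, map_zero]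
    · show a z.2 ^ (P.map a).rootMultiplicity (a z.1) * cof (P.map a) (a z.1) =
        a c * (B.map a).eval (a z.1)
      rw [← eq_rootMultiplicity_map a.injective, cof_map, eval_map_apply, ← map_pow, ← map_mul, h2,
        map_mul]
  · intro z hz
    show fr F k (e (e.symm _)).1.1 = (e (e.symm _)).1.1 ∧ fr F k (e (e.symm _)).1.2 = (e (e.symm _)).1.2
    rw [Equiv.apply_symm_apply]
    exact ⟨fr_algebraMap F k _, fr_algebraMap F k _⟩
  · intro z z' hz hz' h
    have h1 := e.symm.injective h
    have h2 := congrArg Subtype.val h1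
    have h3 := Sigma.mk.inj h2
    exact Prod.ext (a.injective h3.1) (a.injective (eq_of_heq h3.2))
  · intro j hj
    obtain ⟨h1, h2⟩ := hj
    obtain ⟨x, hx⟩ := fr_fixed F k _ h1
    obtain ⟨x', hx'⟩ := fr_fixed F k _ h2
    obtain ⟨h3, h4⟩ := (mem_Idx hPk0 hμ).1 (e j).2
    have hmem : (x, x') ∈ {z : F × F | P.IsRoot z.1 ∧ z.2 ^ P.rootMultiplicity z.1 * cof P z.1 =
        c * B.eval z.1} := by
      refine ⟨?_, ?_⟩
      · show P.eval x = 0
        apply a.injective
        rw [← eval_map_apply, map_zero]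
        rw [ha, hx]
        exact h3
      · show x' ^ P.rootMultiplicity x * cof P x = c * B.eval x
        apply a.injective
        rw [← hx, ← hx', ← ha] at h4
        rw [← eq_rootMultiplicity_map a.injective, cof_map, eval_map_apply] at h4
        rw [map_mul, map_pow, h4, map_mul]
    refine ⟨(x, x'), hmem, ?_⟩
    rw [Equiv.symm_apply_eq]
    apply Subtype.ext
    exact Sigma.ext hx (heq_of_eq hx')

/-- the form used for nice exponents -/
theorem LPq (n N : ℕ) (hn : 0 < n) (hN : 0 < N) (F : Type) [Field F] [Fintype F] [DecidableEq F]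
    (hq : 10000 * n ^ 24 < Fintype.card F) (A B : F[X]) (v c : F) (hT : TamePlace F n N A B v) (hc : c ≠ 0)
    (Bad : Finset F) (hBad : Bad.card ≤ 3 * n) (a : ℕ) (ha : ∀ t ∉ Bad, nrt A B t = 0 ∨ nrt A B t = a) :
    FixN (A - C v * B) B c = 0 ∨ FixN (A - C v * B) B c = a := by
  have h2 : ∀ t0, {z : F | (A - C t0 * B).eval z = 0}.ncard = nrt A B t0 := by
    intro t0
    unfold nrt
    rw [← Set.ncard_coe_finset]
    congr 1
    ext z
    simp
  refine local_q n N hn hN F (AlgebraicClosure F) hq A B hT.monic hT.deg hT.lt v c hc hT.cop hT.tame hT.dvd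
    Bad hBad a ?_
  intro t ht
  rw [h2]
  exact ha t ht

end Pool.Agent.H470
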