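import Pool.Agent.H470.Nice

/-!
# Fibres of functions which are symmetric under `x ↦ 1 - x`
-/

set_option autoImplicit false
set_option linter.all false

namespace Pool.Agent.H470

section
variable {F : Type} [Field F] [Fintype F] [DecidableEq F]

/-- the size of a fibre -/
def fc (f : F → F) (v : F) : ℕ := (Finset.univ.filter fun x : F => f x = v).card

theorem fc_even (h2 : (2 : F) ≠ 0) (f : F → F) (hf : ∀ x, f (1 - x) = f x) (v : F)
    (hv : v ≠ f 2⁻¹) : Even (fc f v) := by
  unfold fc
  apply even_card_of_sym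
  · intro y hy
    rw [Finset.mem_filter] at hy ⊢
    exact ⟨Finset.mem_univ _, by rw [hf]; exact hy.2⟩
  · intro y hy h
    rw [Finset.mem_filter] at hy
    rw [half_iff h2] at h
    rw [h] at hy
    exact hv hy.2.symm

theorem fc_odd (h2 : (2 : F) ≠ 0) (f : F → F) (hf : ∀ x, f (1 - x) = f x) : Odd (fc f (f 2⁻¹)) := by
  unfold fc
  set S := Finset.univ.filter fun x : F => f x = f 2⁻¹ with hS
  have hmem : (2⁻¹ : F) ∈ S := by
    rw [hS, Finset.mem_filter]
    exact ⟨Finset.mem_univ _, rfl⟩
  have h1 : Even (S.erase 2⁻¹).card := by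
    apply even_card_of_sym
    · intro y hy
      rw [Finset.mem_erase] at hy ⊢
      obtain ⟨h3, h4⟩ := hy
      rw [hS, Finset.mem_filter] at h4 ⊢
      refine ⟨?_, Finset.mem_univ _, ?_⟩
      · intro h5
        apply h3
        have h6 := (half_iff h2 (2⁻¹ : F)).2 rfl
        have h7 : y = 1 - (1 - y) := by ring
        rw [h7, h5]
        exact h6
      · rw [hf]
        exact h4.2
    · intro y hy h
      rw [Finset.mem_erase] at hy
      exact hy.1 ((half_iff h2 y).1 h)
  have h2' := Finset.card_erase_add_one hmem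
  rw [← h2']
  exact h1.add_one

theorem sum_fc (f : F → F) : ∑ v : F, fc f v = Fintype.card F := by
  unfold fc
  rw [← Finset.card_univ]
  exact (Finset.card_eq_sum_card_fiberwise (f := f)
    (t := Finset.univ) (by intro x _; simp)).symm

theorem exists_fc_zero (f : F → F) (hf : ∀ x, f (1 - x) = f x) : ∃ v : F, fc f v = 0 := by
  by_contra hcon
  push Not at hcon
  have hsurj : Function.Surjective f := by
    intro v
    have h1 := hcon v
    unfold fc at h1
    obtain ⟨x, hx⟩ := Finset.card_ne_zero.1 h1
    rw [Finset.mem_filter] at hx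
    exact ⟨x, hx.2⟩
  have hinj := Finite.injective_iff_surjective.2 hsurj
  have h2 : (0 : F) = 1 := by
    apply hinj
    have := hf 1
    rw [sub_self] at this
    exact this
  exact zero_ne_one h2

/-- the structure of the sizes of the fibres when they take at most three values -/
theorem nice_fc (h2 : (2 : F) ≠ 0) (f : F → F) (hf : ∀ x, f (1 - x) = f x)
    (hnice : (Finset.univ.image (fc f)).card ≤ 3) (hbig : fc f (f 2⁻¹) < Fintype.card F) :
    ∃ a : ℕ, 0 < a ∧ Even a ∧ (∀ v : F, v ≠ f 2⁻¹ → fc f v = 0 ∨ fc f v = a) ∧ ∃ v : F, fc f v = a := by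
  classical
  set v0 := f 2⁻¹ with hv0
  obtain ⟨v1, hv1, hv1'⟩ : ∃ v1 : F, v1 ≠ v0 ∧ fc f v1 ≠ 0 := by
    by_contra hcon
    push Not at hcon
    have h3 := sum_fc f
    rw [Finset.sum_eq_single v0] at h3
    · omega
    · intro v _ hv
      exact hcon v hv
    · intro h
      exact absurd (Finset.mem_univ _) h
  obtain ⟨vz, hvz⟩ := exists_fc_zero f hf
  have hodd := fc_odd h2 f hf
  rw [← hv0] at hodd
  have heven1 := fc_even h2 f hf v1 hv1
  refine ⟨fc f v1, Nat.pos_of_ne_zero hv1', heven1, ?_, v1, rfl⟩
  intro v hv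
  by_contra hcon
  push Not at hcon
  have hev := fc_even h2 f hf v hv
  have hsub : ({0, fc f v1, fc f v0, fc f v} : Finset ℕ) ⊆ Finset.univ.image (fc f) := by
    intro m hm
    simp only [Finset.mem_insert, Finset.mem_singleton] at hm
    rw [Finset.mem_image]
    rcases hm with h | h | h | h
    · exact ⟨vz, Finset.mem_univ _, hvz.trans h.symm⟩
    · exact ⟨v1, Finset.mem_univ _, h.symm⟩
    · exact ⟨v0, Finset.mem_univ _, h.symm⟩
    · exact ⟨v, Finset.mem_univ _, h.symm⟩
  have h4 : ({0, fc f v1, fc f v0, fc f v} : Finset ℕ).card = 4 := by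
    rw [Finset.card_insert_of_notMem, Finset.card_insert_of_notMem, Finset.card_insert_of_notMem,
      Finset.card_singleton]
    · rw [Finset.mem_singleton]
      intro h
      rw [← h] at hev
      exact (Nat.not_even_iff_odd.2 hodd) hev
    · rw [Finset.mem_insert, Finset.mem_singleton]
      rintro (h | h)
      · rw [h] at heven1
        exact (Nat.not_even_iff_odd.2 hodd) heven1
      · exact hcon.2 h.symm
    · rw [Finset.mem_insert, Finset.mem_insert, Finset.mem_singleton]
      rintro (h | h | h)
      · exact hv1' h.symm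
      · rw [← h] at hodd
        exact (by decide : ¬ Odd 0) hodd
      · exact hcon.1 h.symm
  have h5 := Finset.card_le_card hsub
  omega

/-- the quadratic character on a finite group of roots of unity, without `-1` -/
theorem sum_units (d : ℕ) (hd : 0 < d) (hev : Even d) :
    (∃ ε : ℤ, (ε = 1 ∨ ε = -1) ∧
      ∑ z ∈ (Finset.univ.filter fun z : F => z ^ d = 1).erase (-1), quadraticChar F z = ε) ∨
    ∑ z ∈ (Finset.univ.filter fun z : F => z ^ d = 1).erase (-1), quadraticChar F z =
      ((Finset.univ.filter fun z : F => z ^ d = 1).card : ℤ) - 1 := by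
  classical
  set U := Finset.univ.filter fun z : F => z ^ d = 1 with hU
  have hm1 : (-1 : F) ∈ U := by
    rw [hU, Finset.mem_filter]
    exact ⟨Finset.mem_univ _, hev.neg_one_pow⟩
  have hU0 : ∀ z ∈ U, z ≠ 0 := by
    intro z hz h
    rw [hU, Finset.mem_filter, h, zero_pow hd.ne'] at hz
    exact zero_ne_one hz.2
  rw [Finset.sum_erase_eq_sub hm1]
  have hpm : quadraticChar F (-1) = 1 ∨ quadraticChar F (-1) = -1 :=
    quadraticChar_dichotomy (neg_ne_zero.2 one_ne_zero)
  by_cases hz : ∃ z1 ∈ U, quadraticChar F z1 = -1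
  · left
    obtain ⟨z1, hz1, hz1'⟩ := hz
    have hS : ∑ z ∈ U, quadraticChar F z = 0 := by
      have h3 : ∑ z ∈ U, quadraticChar F z = ∑ z ∈ U, quadraticChar F (z1 * z) := by
        have hz10 := hU0 z1 hz1
        have hz1p : z1 ^ d = 1 := by
          rw [hU, Finset.mem_filter] at hz1
          exact hz1.2
        symm
        refine Finset.sum_bij' (fun z _ => z1 * z) (fun z _ => z1⁻¹ * z) ?_ ?_ ?_ ?_ ?_
        · intro z hz
          rw [hU, Finset.mem_filter] at hz ⊢
          refine ⟨Finset.mem_univ _, ?_⟩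
          rw [mul_pow, hz1p, hz.2, one_mul]
        · intro z hz
          rw [hU, Finset.mem_filter] at hz ⊢
          refine ⟨Finset.mem_univ _, ?_⟩
          rw [mul_pow, inv_pow, hz1p, hz.2, inv_one, one_mul]
        · intro z _
          rw [← mul_assoc, inv_mul_cancel₀ hz10, one_mul]
        · intro z _
          rw [← mul_assoc, mul_inv_cancel₀ hz10, one_mul]
        · intro z _
          rfl
      have h4 : ∑ z ∈ U, quadraticChar F (z1 * z) = - ∑ z ∈ U, quadraticChar F z := by
        rw [← Finset.sum_neg_distrib]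
        refine Finset.sum_congr rfl fun z _ => ?_
        rw [map_mul, hz1', neg_one_mul]
      rw [h4] at h3
      omega
    refine ⟨-quadraticChar F (-1), ?_, ?_⟩
    · rcases hpm with h | h
      · right; rw [h]
      · left; rw [h]; norm_num
    · rw [hS, zero_sub]
  · right
    push Not at hz
    have hall : ∀ z ∈ U, quadraticChar F z = 1 := by
      intro z hz'
      exact (quadraticChar_dichotomy (hU0 z hz')).resolve_right (hz z hz')
    have hS : ∑ z ∈ U, quadraticChar F z = (U.card : ℤ) := by
      rw [Finset.sum_congr rfl hall, Finset.sum_const, nsmul_eq_mul, mul_one]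
    rw [hS, hall _ hm1]

end

end Pool.Agent.H470
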