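import Pool.Agent.H470.NegPol
import Pool.Agent.H470.Sym

/-!
# Negative exponents
-/

set_option autoImplicit false
set_option linter.all false

open Polynomial

namespace Pool.Agent.H470

section
variable {F : Type} [Field F] [Fintype F] [DecidableEq F]

/-- the function `x ^ (-m) + (1 - x) ^ (-m)` -/
def fneg (m : ℕ) (x : F) : F := (x⁻¹) ^ m + ((1 - x)⁻¹) ^ m

theorem fneg_sym (m : ℕ) (x : F) : fneg m (1 - x) = fneg m x := by
  unfold fneg
  rw [sub_sub_cancel, add_comm]

/-- the twisted sum over the double roots -/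
noncomputable def twn (m : ℕ) (v : F) : ℤ :=
  ∑ z ∈ Finset.univ.filter fun z : F => (nP m v).eval z = 0 ∧ z ^ (m + 1) = 1, quadraticChar F z

theorem nrt_nP (m : ℕ) (v : F) : nrt (nA F m) (X ^ m) v =
    (Finset.univ.filter fun z : F => (nP m v).eval z = 0).card := rfl

theorem fneg_eq (m : ℕ) (hm : 0 < m) (z : F) (hz : z ≠ 0) (hz1 : 1 + z ≠ 0) :
    fneg m (z / (1 + z)) = (1 + z ^ m) * (1 + z) ^ m / z ^ m := by
  unfold fneg
  have h1 : 1 - z / (1 + z) = 1 / (1 + z) := by field_simp; ring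
  rw [h1, inv_div, one_div, inv_inv, div_pow]
  field_simp

theorem fc_fneg (m : ℕ) (hm : 0 < m) (v : F) (hv : v ≠ 0) :
    fc (fneg m) v = nrt (nA F m) (X ^ m) v + if v = 1 then 2 else 0 := by
  classical
  unfold fc
  rw [nrt_nP]
  have h1 := Finset.card_filter_add_card_filter_not (s := Finset.univ.filter fun x : F => fneg m x = v)
    (fun x => x ≠ 0 ∧ x ≠ 1)
  rw [← h1]
  congr 1
  · rw [Finset.filter_filter]
    refine Finset.card_bij' (fun x _ => x / (1 - x)) (fun z _ => z / (1 + z)) ?_ ?_ ?_ ?_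
    · intro x hx
      rw [Finset.mem_filter] at hx ⊢
      obtain ⟨-, h2, h3, h4⟩ := hx
      have h5 : 1 - x ≠ 0 := sub_ne_zero.2 (Ne.symm h4)
      refine ⟨Finset.mem_univ _, ?_⟩
      have h6 : x / (1 - x) ≠ 0 := div_ne_zero h3 h5
      have h7 : 1 + x / (1 - x) ≠ 0 := by
        have : 1 + x / (1 - x) = 1 / (1 - x) := by field_simp; ring
        rw [this]
        exact div_ne_zero one_ne_zero h5
      have h8 := fneg_eq m hm (x / (1 - x)) h6 h7
      have h9 : x / (1 - x) / (1 + x / (1 - x)) = x := by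
        field_simp
        ring
      rw [h9, h2] at h8
      rw [nP_eval, h8]
      rw [div_mul_cancel₀ _ (pow_ne_zero _ h6), sub_self]
    · intro z hz
      rw [Finset.mem_filter] at hz ⊢
      have h2 := nP_root_ne_zero m hm v z hz.2
      have h3 := nP_root_ne_neg_one m hm v z hv hz.2
      refine ⟨Finset.mem_univ _, ?_, div_ne_zero h2 h3, ?_⟩
      · rw [fneg_eq m hm z h2 h3]
        have h4 := hz.2
        rw [nP_eval, sub_eq_zero] at h4
        rw [h4, mul_div_assoc, div_self (pow_ne_zero _ h2), mul_one]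
      · intro h4
        rw [div_eq_one_iff_eq h3] at h4
        have : (1 : F) = 0 := by linear_combination (-1 : F) * h4
        exact one_ne_zero this
    · intro x hx
      rw [Finset.mem_filter] at hx
      have h5 : 1 - x ≠ 0 := sub_ne_zero.2 (Ne.symm hx.2.2.2)
      field_simp
      ring
    · intro z hz
      rw [Finset.mem_filter] at hz
      have h3 := nP_root_ne_neg_one m hm v z hv hz.2
      have h1 : 1 - z / (1 + z) = 1 / (1 + z) := by field_simp; ring
      rw [h1]
      field_simp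
  · have h0 : fneg m (0 : F) = 1 := by
      unfold fneg
      rw [inv_zero, zero_pow hm.ne', sub_zero, inv_one, one_pow, zero_add]
    have h0' : fneg m (1 : F) = 1 := by
      rw [← fneg_sym, sub_self, h0]
    split_ifs with h
    · have h2 : (Finset.filter (fun a => ¬(a ≠ 0 ∧ a ≠ 1)) (Finset.univ.filter fun x : F => fneg m x = v)) =
          {0, 1} := by
        ext x
        simp only [Finset.mem_filter, Finset.mem_univ, true_and, Finset.mem_insert, Finset.mem_singleton]
        constructor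
        · rintro ⟨-, h3⟩
          by_contra h4
          push Not at h4
          exact h3 h4
        · rintro (rfl | rfl)
          · exact ⟨h0.trans h.symm, fun h => h.1 rfl⟩
          · exact ⟨h0'.trans h.symm, fun h => h.2 rfl⟩
      rw [h2, Finset.card_pair zero_ne_one]
    · rw [Finset.card_eq_zero, Finset.filter_eq_empty_iff]
      intro x hx
      rw [Finset.mem_filter] at hx
      push Not
      constructor
      · rintro rfl
        exact h (hx.2.symm.trans h0)
      · rintro rfl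
        exact h (hx.2.symm.trans h0')

theorem FixN_neg (hchar : ringChar F ≠ 2) (m : ℕ) (hm : Odd m) (hmF : (m : F) ≠ 0)
    (hmF1 : ((m + 1 : ℕ) : F) ≠ 0) (v c : F) (hv : v ≠ 0) (hc : c ≠ 0) :
    (FixN (nA F m - C v * X ^ m) (X ^ m) c : ℤ) = nrt (nA F m) (X ^ m) v +
      quadraticChar F c * quadraticChar F (2 * m * (m + 1 : ℕ)) * twn m v := by
  classical
  have hm0 : 0 < m := hm.pos
  have h2F : (2 : F) ≠ 0 := Ring.two_ne_zero hchar
  have hmult := fun (y : F) (hy : (nP m v).IsRoot y) => mult_le_two h2F _ (nP_monic m hm0 v).ne_zero y hy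
    (nP_second_ne m hm0 hmF hmF1 v y hv hy)
  have h1 := FixN_eq hchar (nP m v) (X ^ m) (nP_monic m hm0 v).ne_zero c hc
    (by
      intro y hy
      rw [eval_pow, eval_X]
      exact pow_ne_zero _ (nP_root_ne_zero m hm0 v y hy))
    (by
      intro y hy
      rcases hmult y hy with h | h
      · exact Or.inl h.2
      · exact Or.inr h.2)
  have h2 : (nA F m - C v * X ^ m : F[X]) = nP m v := rfl
  rw [h2, h1, nrt_nP, mul_assoc]
  congr 2
  unfold twn
  rw [Finset.mul_sum]
  have hset : (Finset.univ.filter fun y : F => (nP m v).eval y = 0 ∧ (nP m v).rootMultiplicity y = 2) =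
      Finset.univ.filter fun z : F => (nP m v).eval z = 0 ∧ z ^ (m + 1) = 1 := by
    ext y
    simp only [Finset.mem_filter, Finset.mem_univ, true_and]
    constructor
    · rintro ⟨h3, h4⟩
      refine ⟨h3, ?_⟩
      rcases hmult y h3 with h | h
      · omega
      · exact (nP_crit_iff m hm0 hmF v y hv h3).1 h.1
    · rintro ⟨h3, h4⟩
      refine ⟨h3, ?_⟩
      rcases hmult y h3 with h | h
      · exact absurd ((nP_crit_iff m hm0 hmF v y hv h3).2 h4) h.1
      · exact h.2
  rw [hset]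
  refine Finset.sum_congr rfl fun z hz => ?_
  have hz2 := hz
  rw [← hset, Finset.mem_filter] at hz2
  rw [Finset.mem_filter] at hz
  obtain ⟨-, h3, h4⟩ := hz
  have hz0 := nP_root_ne_zero m hm0 v z h3
  have hz1 := nP_root_ne_neg_one m hm0 v z hv h3
  have hder := (nP_crit_iff m hm0 hmF v z hv h3).2 h4
  have hsec := nP_second m hm0 v z h3 hder h4
  rw [cof_double _ _ hz2.2.2] at hsec
  obtain ⟨r, hr⟩ := hm
  have hne : 2 * z * (1 + z) ≠ 0 := mul_ne_zero (mul_ne_zero h2F hz0) hz1
  have hkey : (X ^ m : F[X]).eval z * cof (nP m v) z * (2 * z * (1 + z)) ^ 2 =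
      (2 * m * (m + 1 : ℕ)) * z * ((1 + z) ^ (r + 1) * z ^ m) ^ 2 := by
    rw [eval_pow, eval_X]
    have h5 : z ^ m * cof (nP m v) z * (2 * z * (1 + z)) ^ 2 =
        z ^ m * (z * (1 + z) * (2 * cof (nP m v) z)) * (2 * z * (1 + z)) := by ring
    rw [h5, hsec]
    have h6 : (1 + z) ^ m * (1 + z) = ((1 + z) ^ (r + 1)) ^ 2 := by
      rw [← pow_succ, ← pow_mul]
      congr 1
      omega
    calc z ^ m * ((m : F) * ((m + 1 : ℕ) : F) * (1 + z) ^ m * z ^ m) * (2 * z * (1 + z))
        = (2 * m * (m + 1 : ℕ)) * z * ((1 + z) ^ m * (1 + z)) * (z ^ m) ^ 2 := by ring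
      _ = _ := by rw [h6]; ring
  have e1 := qc_mul_sq ((X ^ m : F[X]).eval z * cof (nP m v) z) _ hne
  have e2 := qc_mul_sq ((2 * (m : F) * ((m + 1 : ℕ) : F)) * z) ((1 + z) ^ (r + 1) * z ^ m)
    (mul_ne_zero (pow_ne_zero _ hz1) (pow_ne_zero _ hz0))
  rw [hkey, e2] at e1
  rw [← e1, map_mul]

theorem FixN_neg_zero (m : ℕ) (hm : Odd m) (hmF : (m : F) ≠ 0)
    (hcop : Nat.Coprime m (Fintype.card F - 1)) :
    FixN (nA F m - C 0 * X ^ m) (X ^ m) (-(m : F)) =
      (Finset.univ.filter fun z : F => z ^ (m + 1) = 1).card := by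
  classical
  have hm0 : 0 < m := hm.pos
  have hA : (nA F m - C 0 * X ^ m : F[X]) = nA F m := by rw [C_0, zero_mul, sub_zero]
  rw [hA]
  obtain ⟨h1, h2⟩ := nA_mult_neg_one (K := F) m hm hmF
  have honly : ∀ y : F, (nA F m).IsRoot y → y = -1 := by
    intro y hy
    rw [IsRoot.def, nA_eval] at hy
    rcases mul_eq_zero.1 hy with h | h
    · have h3 : (-y) ^ m = 1 := by
        rw [hm.neg_pow]
        linear_combination (-1 : F) * h
      have h4 : orderOf (-y) ∣ m := orderOf_dvd_of_pow_eq_one h3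
      have h5 : -y ≠ 0 := by
        intro h5
        rw [h5, zero_pow hm0.ne'] at h3
        exact zero_ne_one h3
      have h6 : orderOf (-y) ∣ Fintype.card F - 1 :=
        orderOf_dvd_of_pow_eq_one (FiniteField.pow_card_sub_one_eq_one _ h5)
      have h7 := Nat.dvd_gcd h4 h6
      rw [Nat.Coprime] at hcop
      rw [hcop, Nat.dvd_one, orderOf_eq_one_iff] at h7
      rw [← h7, neg_neg]
    · have h3 : 1 + y = 0 := (pow_eq_zero_iff hm0.ne').1 h
      linear_combination h3
  unfold FixN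
  rw [← Set.ncard_coe_finset]
  refine Set.ncard_congr (fun z _ => z.2) ?_ ?_ ?_
  · rintro ⟨y, w⟩ ⟨h4, h5⟩
    have hy := honly y h4
    subst hy
    simp only at h5
    rw [h1, h2, eval_pow, eval_X, hm.neg_one_pow] at h5
    rw [Finset.mem_coe, Finset.mem_filter]
    refine ⟨Finset.mem_univ _, ?_⟩
    apply mul_right_cancel₀ hmF
    rw [h5]
    ring
  · rintro ⟨y, w⟩ ⟨y', w'⟩ ⟨h4, -⟩ ⟨h4', -⟩ h
    exact Prod.ext ((honly y h4).trans (honly y' h4').symm) h
  · intro w hw
    rw [Finset.mem_coe, Finset.mem_filter] at hw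
    refine ⟨(-1, w), ⟨?_, ?_⟩, rfl⟩
    · simp only [IsRoot.def, nA_eval]
      rw [hm.neg_one_pow]
      ring
    · simp only
      rw [h1, h2, eval_pow, eval_X, hm.neg_one_pow, hw.2]
      ring

/-- the sum of the twisted sums -/
theorem sum_twn (m : ℕ) (hm : Odd m) :
    ∑ v ∈ (Finset.univ : Finset F).erase 0, twn m v =
      ∑ z ∈ (Finset.univ.filter fun z : F => z ^ (m + 1) = 1).erase (-1), quadraticChar F z := by
  classical
  have hm0 : 0 < m := hm.pos
  unfold twn
  have hmaps : ∀ z ∈ (Finset.univ.filter fun z : F => z ^ (m + 1) = 1).erase (-1),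
      (1 + z ^ m) * (1 + z) ^ m / z ^ m ∈ (Finset.univ : Finset F).erase 0 := by
    intro z hz
    rw [Finset.mem_erase, Finset.mem_filter] at hz
    obtain ⟨h1, -, h2⟩ := hz
    have hz0 : z ≠ 0 := by
      rintro rfl
      rw [zero_pow (by omega)] at h2
      exact zero_ne_one h2
    have h3 : 1 + z ≠ 0 := by
      intro h
      apply h1
      linear_combination h
    have h4 : 1 + z ^ m ≠ 0 := by
      intro h
      apply h3
      have h5 : z ^ m = -1 := by linear_combination h
      rw [pow_succ, h5] at h2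
      linear_combination (-1 : F) * h2
    rw [Finset.mem_erase]
    exact ⟨div_ne_zero (mul_ne_zero h4 (pow_ne_zero _ h3)) (pow_ne_zero _ hz0), Finset.mem_univ _⟩
  rw [← Finset.sum_fiberwise_of_maps_to hmaps]
  refine Finset.sum_congr rfl fun v hv => ?_
  rw [Finset.mem_erase] at hv
  refine Finset.sum_congr ?_ fun _ _ => rfl
  ext z
  rw [Finset.mem_filter, Finset.mem_filter, Finset.mem_erase, Finset.mem_filter]
  constructor
  · rintro ⟨-, h1, h2⟩
    have h3 := nP_root_ne_zero m hm0 v z h1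
    have h4 := nP_root_ne_neg_one m hm0 v z hv.1 h1
    refine ⟨⟨?_, Finset.mem_univ _, h2⟩, ?_⟩
    · rintro rfl
      exact h4 (by ring)
    · rw [nP_eval, sub_eq_zero] at h1
      rw [h1, mul_div_assoc, div_self (pow_ne_zero _ h3), mul_one]
  · rintro ⟨⟨h1, -, h2⟩, h3⟩
    refine ⟨Finset.mem_univ _, ?_, h2⟩
    have hz0 : z ≠ 0 := by
      rintro rfl
      rw [zero_pow (by omega)] at h2
      exact zero_ne_one h2
    rw [nP_eval, ← h3, div_mul_cancel₀ _ (pow_ne_zero _ hz0), sub_self]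

theorem nrt_le (m : ℕ) (hm : 0 < m) (v : F) : nrt (nA F m) (X ^ m) v ≤ 2 * m := by
  classical
  rw [nrt_nP]
  have hdeg : (nP m v).natDegree ≤ 2 * m := by
    unfold nP
    refine (natDegree_sub_le _ _).trans (max_le (nA_natDegree m hm).le ?_)
    exact (natDegree_C_mul_X_pow_le _ _).trans (by omega)
  refine le_trans ?_ hdeg
  apply card_le_degree_of_subset_roots
  intro x hx
  rw [Finset.mem_val, Finset.mem_filter] at hx
  rw [mem_roots (nP_monic m hm v).ne_zero]
  exact hx.2

end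

theorem main_neg (m : ℕ) (hm : Odd m) : ∃ C0 : ℕ, ∀ (F : Type) [Field F] [Fintype F]
    [DecidableEq F], C0 < Fintype.card F → ringChar F ≠ 2 → (m : F) ≠ 0 → ((m + 1 : ℕ) : F) ≠ 0 →
    Nat.Coprime m (Fintype.card F - 1) → (Finset.univ.image (fc (fneg m : F → F))).card ≤ 3 →
    ∃ v : F, fc (fneg m) v = 2 := by
  classical
  have hm0 : 0 < m := hm.pos
  obtain ⟨C1, hC1⟩ := LPv (2 * m) 2 3 (by omega) (by omega)
  obtain ⟨C2, hC2⟩ := LPv (2 * m) (m + 1) 3 (by omega) (by omega)
  refine ⟨max C1 (max C2 (2 * m + 2)), ?_⟩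
  intro F _ _ _ hC hchar hmF hmF1 hcop hnice
  have hc1 : C1 < Fintype.card F := lt_of_le_of_lt (le_max_left _ _) hC
  have hc2 : C2 < Fintype.card F :=
    lt_of_le_of_lt ((le_max_left _ _).trans (le_max_right _ _)) hC
  have hc3 : 2 * m + 2 < Fintype.card F :=
    lt_of_le_of_lt ((le_max_right _ _).trans (le_max_right _ _)) hC
  have h2 : (2 : F) ≠ 0 := Ring.two_ne_zero hchar
  set v0 : F := fneg m 2⁻¹ with hv0
  have h2i : (1 : F) - 2⁻¹ = 2⁻¹ := (half_iff h2 (2⁻¹ : F)).2 rfl
  have hv0e : v0 = 2 ^ (m + 1) := by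
    rw [hv0]
    unfold fneg
    rw [h2i, inv_inv]
    ring
  have hv0ne : v0 ≠ 0 := by
    rw [hv0e]
    exact pow_ne_zero _ h2
  have hfcn := fun v (hv : v ≠ 0) => fc_fneg (F := F) m hm0 v hv
  have hlt : fc (fneg m) v0 < Fintype.card F := by
    rw [hfcn v0 hv0ne]
    have := nrt_le (F := F) m hm0 v0
    split_ifs <;> omega
  obtain ⟨a, ha0, haev, hval, va, hva⟩ := nice_fc h2 (fneg m) (fneg_sym m) hnice hlt
  rw [← hv0] at hval
  have hodd := fc_odd h2 (fneg m) (fneg_sym (F := F) m)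
  rw [← hv0] at hodd
  set N : F → ℕ := fun v => nrt (nA F m) (X ^ m) v with hN
  set Bad : Finset F := {0, 1, v0} with hBad
  have hBadc : Bad.card ≤ 3 := Finset.card_le_three
  have hgood : ∀ t ∉ Bad, nrt (nA F m) (X ^ m) t = 0 ∨ nrt (nA F m) (X ^ m) t = a := by
    intro t ht
    rw [hBad, Finset.mem_insert, Finset.mem_insert, Finset.mem_singleton, not_or, not_or] at ht
    obtain ⟨h3, h4, h5⟩ := ht
    have h6 := hfcn t h3
    rw [if_neg h4, add_zero] at h6
    rw [← h6]
    exact hval t h5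
  set κ := (2 * (m : F) * ((m + 1 : ℕ) : F)) with hκ
  have hκ0 : κ ≠ 0 := mul_ne_zero (mul_ne_zero h2 hmF) hmF1
  have hκsq : quadraticChar F κ * quadraticChar F κ = 1 := by
    have := quadraticChar_sq_one hκ0
    rw [sq] at this
    exact this
  obtain ⟨g, hg⟩ := quadraticChar_exists_neg_one hchar
  have hg0 : g ≠ 0 := by
    rintro rfl
    simp at hg
  have hplus : ∀ v : F, v ≠ 0 → (N v : ℤ) + twn m v = 0 ∨ (N v : ℤ) + twn m v = a := by
    intro v hv
    have h3 := hC1 F hc1 _ _ v κ (nP_tame hchar m hm0 hmF hmF1 v hv) hκ0 Bad hBadc a hgood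
    have h4 := FixN_neg hchar m hm hmF hmF1 v κ hv hκ0
    rw [← hκ, hκsq, one_mul] at h4
    rw [show (N v : ℤ) + twn m v = (FixN (nA F m - C v * X ^ m) (X ^ m) κ : ℤ) from h4.symm]
    rcases h3 with h | h
    · left; exact_mod_cast h
    · right; exact_mod_cast h
  have hminus : ∀ v : F, v ≠ 0 → (N v : ℤ) - twn m v = 0 ∨ (N v : ℤ) - twn m v = a := by
    intro v hv
    have h3 := hC1 F hc1 _ _ v (κ * g) (nP_tame hchar m hm0 hmF hmF1 v hv) (mul_ne_zero hκ0 hg0)
      Bad hBadc a hgood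
    have h4 := FixN_neg hchar m hm hmF hmF1 v (κ * g) hv (mul_ne_zero hκ0 hg0)
    rw [← hκ, map_mul, hg] at h4
    have h5 : quadraticChar F κ * -1 * quadraticChar F κ = -1 := by
      linear_combination (-1 : ℤ) * hκsq
    rw [h5] at h4
    have h6 : (N v : ℤ) - twn m v = (FixN (nA F m - C v * X ^ m) (X ^ m) (κ * g) : ℤ) := by
      rw [h4]
      ring
    rw [h6]
    rcases h3 with h | h
    · left; exact_mod_cast h
    · right; exact_mod_cast h
  have hk := hC2 F hc2 _ _ 0 (-(m : F)) (nP_tame_zero m hm hmF hmF1) (neg_ne_zero.2 hmF) Bad hBadc a hgood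
  rw [FixN_neg_zero m hm hmF hcop] at hk
  set U := Finset.univ.filter fun z : F => z ^ (m + 1) = 1 with hU
  have hone : (1 : F) ∈ U := by
    rw [hU, Finset.mem_filter]
    exact ⟨Finset.mem_univ _, one_pow _⟩
  have hkpos : 0 < U.card := Finset.card_pos.2 ⟨1, hone⟩
  have hka : U.card = a := by omega
  have haZ : (0 : ℤ) < a := by exact_mod_cast ha0
  suffices h : (a : ℤ) = 2 by
    refine ⟨va, ?_⟩
    rw [hva]
    exact_mod_cast h
  -- generic places
  have htw0 : ∀ v : F, v ≠ 0 → v ≠ 1 → v ≠ v0 → twn m v = 0 := by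
    intro v h3 h4 h5
    have h6 := hgood v (by
      rw [hBad, Finset.mem_insert, Finset.mem_insert, Finset.mem_singleton, not_or, not_or]
      exact ⟨h3, h4, h5⟩)
    have h7 := hplus v h3
    have h8 := hminus v h3
    have h9 : N v = 0 ∨ N v = a := h6
    omega
  obtain ⟨b', hb'⟩ := hodd
  obtain ⟨a', ha'⟩ := haev
  have hfc0 := hfcn v0 hv0ne
  have hp0 := hplus v0 hv0ne
  have hm0' := hminus v0 hv0ne
  have hN0 : fc (fneg m) v0 = N v0 + if v0 = 1 then 2 else 0 := hfc0
  by_cases h1 : v0 = 1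
  · rw [if_pos h1] at hN0
    have hsum : ∑ v ∈ (Finset.univ : Finset F).erase 0, twn m v = twn m v0 := by
      refine Finset.sum_eq_single v0 (fun v hv hv' => ?_) ?_
      · rw [Finset.mem_erase] at hv
        exact htw0 v hv.1 (by rw [← h1]; exact hv') hv'
      · intro h
        exact absurd (Finset.mem_erase.2 ⟨hv0ne, Finset.mem_univ _⟩) h
    rw [sum_twn m hm, ← hU] at hsum
    have hTb : twn m v0 = N v0 ∨ twn m v0 = -(N v0 : ℤ) := by omega
    have h2b : (a : ℤ) = 2 * N v0 := by omega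
    rcases sum_units (F := F) (m + 1) (by omega) hm.add_one with ⟨ε, hε, hs⟩ | hs
    · rw [← hU] at hs
      rw [hs] at hsum
      omega
    · rw [← hU] at hs
      rw [hs] at hsum
      omega
  · rw [if_neg h1, add_zero] at hN0
    have h3 := hplus 1 one_ne_zero
    have h4 := hminus 1 one_ne_zero
    have h5 := hfcn 1 one_ne_zero
    rw [if_pos rfl] at h5
    have h6 : fc (fneg m) (1 : F) = N 1 + 2 := h5
    have h7 := hval 1 (Ne.symm h1)
    omega

end Pool.Agent.H470
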