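import Pool.Agent.H470.NegR
import Pool.Agent.H470.LocQ
import Pool.Agent.H470.MainNeg

/-!
# Negative rational exponents
-/

set_option autoImplicit false
set_option linter.all false

open Polynomial

namespace Pool.Agent.H470

section
variable {F : Type} [Field F] [Fintype F] [DecidableEq F]

theorem eq_of_pow_eq {d : ℕ} (hd : Nat.Coprime d (Fintype.card F - 1)) (hd0 : 0 < d) (x y : F)
    (h : x ^ d = y ^ d) : x = y := by
  by_cases hy : y = 0
  · rw [hy, zero_pow hd0.ne'] at h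
    rw [hy]
    exact (pow_eq_zero_iff hd0.ne').1 h
  · have hx : x ≠ 0 := by
      rintro rfl
      rw [zero_pow hd0.ne'] at h
      exact hy ((pow_eq_zero_iff hd0.ne').1 h.symm)
    have h1 : (x / y) ^ d = 1 := by
      rw [div_pow, h, div_self (pow_ne_zero _ hy)]
    have h2 : (x / y) ^ (Fintype.card F - 1) = 1 :=
      FiniteField.pow_card_sub_one_eq_one _ (div_ne_zero hx hy)
    have h3 := Nat.dvd_gcd (orderOf_dvd_of_pow_eq_one h1) (orderOf_dvd_of_pow_eq_one h2)
    rw [Nat.Coprime] at hd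
    rw [hd, Nat.dvd_one, orderOf_eq_one_iff] at h3
    exact (div_eq_one_iff_eq hy).1 h3

theorem only_neg_one {d : ℕ} (hodd : Odd d) (hd : Nat.Coprime d (Fintype.card F - 1)) (y : F)
    (h : 1 + y ^ d = 0) : y = -1 := by
  apply eq_of_pow_eq hd hodd.pos
  rw [hodd.neg_one_pow]
  linear_combination h

/-- the function attached to the exponent `-m/d` -/
def fnr (m d : ℕ) (x : F) : F := ((x⁻¹) ^ m + ((1 - x)⁻¹) ^ m) ^ d * (x ^ d + (1 - x) ^ d) ^ m

theorem fnr_sym (m d : ℕ) (x : F) : fnr m d (1 - x) = fnr m d x := by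
  unfold fnr
  rw [sub_sub_cancel, add_comm (((1 - x)⁻¹) ^ m), add_comm ((1 - x) ^ d)]

/-- the twisted sum over the double roots -/
noncomputable def twr (m d : ℕ) (v : F) : ℤ :=
  ∑ z ∈ Finset.univ.filter fun z : F => (rP m d v).eval z = 0 ∧ z ^ (m + d) = 1, quadraticChar F z

theorem nrt_rP (m d : ℕ) (v : F) : nrt (rA F m d) (X ^ (m * d)) v =
    (Finset.univ.filter fun z : F => (rP m d v).eval z = 0).card := rfl

theorem fnr_eq (m d : ℕ) (z : F) (hz : z ≠ 0) (hz1 : 1 + z ≠ 0) :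
    fnr m d (z / (1 + z)) = (1 + z ^ m) ^ d * (1 + z ^ d) ^ m / z ^ (m * d) := by
  unfold fnr
  have h1 : 1 - z / (1 + z) = 1 / (1 + z) := by field_simp; ring
  have h2 : (z / (1 + z))⁻¹ ^ m + (1 / (1 + z))⁻¹ ^ m = (1 + z) ^ m * (1 + z ^ m) / z ^ m := by
    rw [inv_div, one_div, inv_inv, div_pow]
    field_simp
  have h3 : (z / (1 + z)) ^ d + (1 / (1 + z)) ^ d = (1 + z ^ d) / (1 + z) ^ d := by
    rw [div_pow, div_pow, one_pow]
    field_simp
    ring
  rw [h1, h2, h3, div_pow, div_pow, mul_pow, ← pow_mul, ← pow_mul, ← pow_mul, mul_comm d m]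
  have e1 : (1 + z) ^ (m * d) ≠ 0 := pow_ne_zero _ hz1
  have e2 : z ^ (m * d) ≠ 0 := pow_ne_zero _ hz
  field_simp

theorem fc_fnr (m d : ℕ) (hm : Odd m) (hd : Odd d) (hcm : Nat.Coprime m (Fintype.card F - 1))
    (hcd : Nat.Coprime d (Fintype.card F - 1)) (v : F) (hv : v ≠ 0) :
    fc (fnr m d) v = nrt (rA F m d) (X ^ (m * d)) v + if v = 1 then 2 else 0 := by
  classical
  have hm0 := hm.pos
  have hd0 := hd.pos
  unfold fc
  rw [nrt_rP]
  have h1 := Finset.card_filter_add_card_filter_not (s := Finset.univ.filter fun x : F => fnr m d x = v)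
    (fun x => x ≠ 0 ∧ x ≠ 1)
  rw [← h1]
  congr 1
  · rw [Finset.filter_filter]
    refine Finset.card_bij' (fun x _ => x / (1 - x)) (fun z _ => z / (1 + z)) ?_ ?_ ?_ ?_
    · intro x hx
      rw [Finset.mem_filter] at hx ⊢
      obtain ⟨-, h2, h3, h4⟩ := hx
      have h5 : 1 - x ≠ 0 := sub_ne_zero.2 (Ne.symm h4)
      refine ⟨Finset.mem_univ _, ?_⟩
      have h6 : x / (1 - x) ≠ 0 := div_ne_zero h3 h5
      have h7 : 1 + x / (1 - x) ≠ 0 := by
        have : 1 + x / (1 - x) = 1 / (1 - x) := by field_simp; ring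
        rw [this]
        exact div_ne_zero one_ne_zero h5
      have h8 := fnr_eq m d (x / (1 - x)) h6 h7
      have h9 : x / (1 - x) / (1 + x / (1 - x)) = x := by
        field_simp
        ring
      rw [h9, h2] at h8
      rw [rP_eval, h8]
      rw [div_mul_cancel₀ _ (pow_ne_zero _ h6), sub_self]
    · intro z hz
      rw [Finset.mem_filter] at hz ⊢
      have h2 := rP_root_ne_zero m d hm0 hd0 v z hz.2
      have h3 : 1 + z ≠ 0 := by
        intro h
        have h4 : z = -1 := by linear_combination h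
        apply (rP_root_ne m d hm0 hd0 v z hv hz.2).1
        rw [h4, hm.neg_one_pow]
        ring
      refine ⟨Finset.mem_univ _, ?_, div_ne_zero h2 h3, ?_⟩
      · rw [fnr_eq m d z h2 h3]
        have h4 := hz.2
        rw [rP_eval, sub_eq_zero] at h4
        rw [h4, mul_div_assoc, div_self (pow_ne_zero _ h2), mul_one]
      · intro h4
        rw [div_eq_one_iff_eq h3] at h4
        have : (1 : F) = 0 := by linear_combination (-1 : F) * h4
        exact one_ne_zero this
    · intro x hx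
      rw [Finset.mem_filter] at hx
      have h5 : 1 - x ≠ 0 := sub_ne_zero.2 (Ne.symm hx.2.2.2)
      field_simp
      ring
    · intro z hz
      rw [Finset.mem_filter] at hz
      have h3 : 1 + z ≠ 0 := by
        intro h
        have h4 : z = -1 := by linear_combination h
        apply (rP_root_ne m d hm0 hd0 v z hv hz.2).1
        rw [h4, hm.neg_one_pow]
        ring
      have h1 : 1 - z / (1 + z) = 1 / (1 + z) := by field_simp; ring
      rw [h1]
      field_simp
  · have h0 : fnr m d (0 : F) = 1 := by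
      unfold fnr
      rw [inv_zero, zero_pow hm0.ne', zero_pow hd0.ne', sub_zero, inv_one]
      simp
    have h0' : fnr m d (1 : F) = 1 := by
      rw [← fnr_sym, sub_self, h0]
    split_ifs with h
    · have h2 : (Finset.filter (fun a => ¬(a ≠ 0 ∧ a ≠ 1)) (Finset.univ.filter fun x : F => fnr m d x = v)) =
          {0, 1} := by
        ext x
        simp only [Finset.mem_filter, Finset.mem_univ, true_and, Finset.mem_insert, Finset.mem_singleton]
        constructor
        · rintro ⟨-, h3⟩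
          by_contra h4
          push Not at h4
          exact h3 h4
        · rintro (rfl | rfl)
          · exact ⟨h0.trans h.symm, fun h => h.1 rfl⟩
          · exact ⟨h0'.trans h.symm, fun h => h.2 rfl⟩
      rw [h2, Finset.card_pair zero_ne_one]
    · rw [Finset.card_eq_zero, Finset.filter_eq_empty_iff]
      intro x hx
      rw [Finset.mem_filter] at hx
      push Not
      constructor
      · rintro rfl
        exact h (hx.2.symm.trans h0)
      · rintro rfl
        exact h (hx.2.symm.trans h0')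

theorem FixN_rneg (hchar : ringChar F ≠ 2) (m d : ℕ) (hm : Odd m) (hd : Odd d)
    (hmF : ((m * d : ℕ) : F) ≠ 0) (hmF1 : ((m + d : ℕ) : F) ≠ 0) (v c : F) (hv : v ≠ 0) (hc : c ≠ 0) :
    (FixN (rA F m d - C v * X ^ (m * d)) (X ^ (m * d)) c : ℤ) = nrt (rA F m d) (X ^ (m * d)) v +
      quadraticChar F c * quadraticChar F (2 * (m * d : ℕ) * (m + d : ℕ)) * twr m d v := by
  classical
  have hm0 : 0 < m := hm.pos
  have hd0 : 0 < d := hd.pos
  have h2F : (2 : F) ≠ 0 := Ring.two_ne_zero hchar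
  have hmult := fun (y : F) (hy : (rP m d v).IsRoot y) => mult_le_two h2F _ (rP_monic m d hm0 hd0 v).ne_zero y hy
    (rP_second_ne m d hm0 hd0 hmF hmF1 v y hv hy)
  have h1 := FixN_eq hchar (rP m d v) (X ^ (m * d)) (rP_monic m d hm0 hd0 v).ne_zero c hc
    (by
      intro y hy
      rw [eval_pow, eval_X]
      exact pow_ne_zero _ (rP_root_ne_zero m d hm0 hd0 v y hy))
    (by
      intro y hy
      rcases hmult y hy with h | h
      · exact Or.inl h.2
      · exact Or.inr h.2)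
  have h2 : (rA F m d - C v * X ^ (m * d) : F[X]) = rP m d v := rfl
  rw [h2, h1, nrt_rP, mul_assoc]
  congr 2
  unfold twr
  rw [Finset.mul_sum]
  have hset : (Finset.univ.filter fun y : F => (rP m d v).eval y = 0 ∧ (rP m d v).rootMultiplicity y = 2) =
      Finset.univ.filter fun z : F => (rP m d v).eval z = 0 ∧ z ^ (m + d) = 1 := by
    ext y
    simp only [Finset.mem_filter, Finset.mem_univ, true_and]
    constructor
    · rintro ⟨h3, h4⟩
      refine ⟨h3, ?_⟩
      rcases hmult y h3 with h | h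
      · omega
      · exact (rP_crit_iff m d hm0 hd0 hmF v y hv h3).1 h.1
    · rintro ⟨h3, h4⟩
      refine ⟨h3, ?_⟩
      rcases hmult y h3 with h | h
      · exact absurd ((rP_crit_iff m d hm0 hd0 hmF v y hv h3).2 h4) h.1
      · exact h.2
  rw [hset]
  refine Finset.sum_congr rfl fun z hz => ?_
  have hz2 := hz
  rw [← hset, Finset.mem_filter] at hz2
  rw [Finset.mem_filter] at hz
  obtain ⟨-, h3, h4⟩ := hz
  have hz0 := rP_root_ne_zero m d hm0 hd0 v z h3
  obtain ⟨hz1, hz1'⟩ := rP_root_ne m d hm0 hd0 v z hv h3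
  have hder := (rP_crit_iff m d hm0 hd0 hmF v z hv h3).2 h4
  have hsec := rP_second m d hm0 hd0 v z h3 hder h4
  rw [cof_double _ _ hz2.2.2] at hsec
  obtain ⟨r, hr⟩ := hm
  obtain ⟨u, hu⟩ := hd
  obtain ⟨w, hw⟩ : ∃ w, m * d = 2 * w + 1 := ⟨2 * r * u + r + u, by rw [hr, hu]; ring⟩
  have hne : 2 * z * (1 + z ^ m) * (1 + z ^ d) ≠ 0 :=
    mul_ne_zero (mul_ne_zero (mul_ne_zero h2F hz0) hz1) hz1'
  have hkey : (X ^ (m * d) : F[X]).eval z * cof (rP m d v) z * (2 * z * (1 + z ^ m) * (1 + z ^ d)) ^ 2 =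
      (2 * (m * d : ℕ) * (m + d : ℕ)) * z * (z ^ w * (1 + z ^ m) ^ (u + 1) * (1 + z ^ d) ^ (r + 1)) ^ 2 := by
    rw [eval_pow, eval_X]
    have h5 : z ^ (m * d) * cof (rP m d v) z * (2 * z * (1 + z ^ m) * (1 + z ^ d)) ^ 2 =
        z ^ (m * d) * (z ^ 2 * (1 + z ^ m) * (1 + z ^ d) * (2 * cof (rP m d v) z)) *
          (2 * (1 + z ^ m) * (1 + z ^ d)) := by ring
    have h6 : z ^ (m * d) = z * (z ^ w) ^ 2 := by
      rw [hw, ← pow_mul, ← pow_succ']
      congr 1
      omega
    have h7 : (1 + z ^ m) ^ d * (1 + z ^ m) = ((1 + z ^ m) ^ (u + 1)) ^ 2 := by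
      rw [← pow_succ, ← pow_mul]
      congr 1
      omega
    have h8 : (1 + z ^ d) ^ m * (1 + z ^ d) = ((1 + z ^ d) ^ (r + 1)) ^ 2 := by
      rw [← pow_succ, ← pow_mul]
      congr 1
      omega
    rw [h5, hsec, h6]
    calc z * (z ^ w) ^ 2 * (((m * d : ℕ) : F) * ((m + d : ℕ) : F) * ((1 + z ^ m) ^ d * (1 + z ^ d) ^ m)) *
          (2 * (1 + z ^ m) * (1 + z ^ d))
        = (2 * ((m * d : ℕ) : F) * ((m + d : ℕ) : F)) * z * ((z ^ w) ^ 2 * ((1 + z ^ m) ^ d * (1 + z ^ m)) *
          ((1 + z ^ d) ^ m * (1 + z ^ d))) := by ring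
      _ = _ := by rw [h7, h8]; ring
  have e1 := qc_mul_sq ((X ^ (m * d) : F[X]).eval z * cof (rP m d v) z) _ hne
  have e2 := qc_mul_sq ((2 * ((m * d : ℕ) : F) * ((m + d : ℕ) : F)) * z)
    (z ^ w * (1 + z ^ m) ^ (u + 1) * (1 + z ^ d) ^ (r + 1))
    (mul_ne_zero (mul_ne_zero (pow_ne_zero _ hz0) (pow_ne_zero _ hz1)) (pow_ne_zero _ hz1'))
  rw [hkey, e2] at e1
  rw [← e1, map_mul]

theorem FixN_rneg_zero (m d : ℕ) (hm : Odd m) (hd : Odd d) (hmF : (m : F) ≠ 0) (hdF : (d : F) ≠ 0)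
    (hcm : Nat.Coprime m (Fintype.card F - 1)) (hcd : Nat.Coprime d (Fintype.card F - 1)) :
    FixN (rA F m d - C 0 * X ^ (m * d)) (X ^ (m * d)) (-((m : F) ^ d * (d : F) ^ m)) =
      (Finset.univ.filter fun z : F => z ^ (m + d) = 1).card := by
  classical
  have hm0 : 0 < m := hm.pos
  have hA : (rA F m d - C 0 * X ^ (m * d) : F[X]) = rA F m d := by rw [C_0, zero_mul, sub_zero]
  rw [hA]
  obtain ⟨h1, h2⟩ := rA_neg_one (K := F) m d hm hd hmF hdF
  have honly : ∀ y : F, (rA F m d).IsRoot y → y = -1 := by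
    intro y hy
    rw [IsRoot.def, rA_eval] at hy
    rcases mul_eq_zero.1 hy with h | h
    · exact only_neg_one hm hcm y ((pow_eq_zero_iff hd.pos.ne').1 h)
    · exact only_neg_one hd hcd y ((pow_eq_zero_iff hm.pos.ne').1 h)
  have hmd : (-1 : F) ^ (m * d) = -1 := (hm.mul hd).neg_one_pow
  have hK : (m : F) ^ d * (d : F) ^ m ≠ 0 := mul_ne_zero (pow_ne_zero _ hmF) (pow_ne_zero _ hdF)
  unfold FixN
  rw [← Set.ncard_coe_finset]
  refine Set.ncard_congr (fun z _ => z.2) ?_ ?_ ?_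
  · rintro ⟨y, w⟩ ⟨h4, h5⟩
    have hy := honly y h4
    subst hy
    simp only at h5
    rw [h1, h2, eval_pow, eval_X, hmd] at h5
    rw [Finset.mem_coe, Finset.mem_filter]
    refine ⟨Finset.mem_univ _, ?_⟩
    apply mul_right_cancel₀ hK
    rw [h5]
    ring
  · rintro ⟨y, w⟩ ⟨y', w'⟩ ⟨h4, -⟩ ⟨h4', -⟩ h
    exact Prod.ext ((honly y h4).trans (honly y' h4').symm) h
  · intro w hw
    rw [Finset.mem_coe, Finset.mem_filter] at hw
    refine ⟨(-1, w), ⟨?_, ?_⟩, rfl⟩
    · simp only [IsRoot.def, rA_eval]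
      rw [hm.neg_one_pow, add_neg_cancel, zero_pow hd.pos.ne', zero_mul]
    · simp only
      rw [h1, h2, eval_pow, eval_X, hmd, hw.2]
      ring

/-- the sum of the twisted sums -/
theorem sum_twr (m d : ℕ) (hm : Odd m) (hd : Odd d) (hcm : Nat.Coprime m (Fintype.card F - 1))
    (hcd : Nat.Coprime d (Fintype.card F - 1)) :
    ∑ v ∈ (Finset.univ : Finset F).erase 0, twr m d v =
      ∑ z ∈ (Finset.univ.filter fun z : F => z ^ (m + d) = 1).erase (-1), quadraticChar F z := by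
  classical
  have hm0 : 0 < m := hm.pos
  have hd0 : 0 < d := hd.pos
  unfold twr
  have hmaps : ∀ z ∈ (Finset.univ.filter fun z : F => z ^ (m + d) = 1).erase (-1),
      (1 + z ^ m) ^ d * (1 + z ^ d) ^ m / z ^ (m * d) ∈ (Finset.univ : Finset F).erase 0 := by
    intro z hz
    rw [Finset.mem_erase, Finset.mem_filter] at hz
    obtain ⟨h1, -, h2⟩ := hz
    have hz0 : z ≠ 0 := by
      rintro rfl
      rw [zero_pow (by omega)] at h2
      exact zero_ne_one h2
    have h3 : 1 + z ^ m ≠ 0 := fun h => h1 (only_neg_one hm hcm z h)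
    have h4 : 1 + z ^ d ≠ 0 := fun h => h1 (only_neg_one hd hcd z h)
    rw [Finset.mem_erase]
    exact ⟨div_ne_zero (mul_ne_zero (pow_ne_zero _ h3) (pow_ne_zero _ h4)) (pow_ne_zero _ hz0),
      Finset.mem_univ _⟩
  rw [← Finset.sum_fiberwise_of_maps_to hmaps]
  refine Finset.sum_congr rfl fun v hv => ?_
  rw [Finset.mem_erase] at hv
  refine Finset.sum_congr ?_ fun _ _ => rfl
  ext z
  rw [Finset.mem_filter, Finset.mem_filter, Finset.mem_erase, Finset.mem_filter]
  constructor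
  · rintro ⟨-, h1, h2⟩
    have h3 := rP_root_ne_zero m d hm0 hd0 v z h1
    obtain ⟨h4, -⟩ := rP_root_ne m d hm0 hd0 v z hv.1 h1
    refine ⟨⟨?_, Finset.mem_univ _, h2⟩, ?_⟩
    · rintro rfl
      apply h4
      rw [hm.neg_one_pow]
      ring
    · rw [rP_eval, sub_eq_zero] at h1
      rw [h1, mul_div_assoc, div_self (pow_ne_zero _ h3), mul_one]
  · rintro ⟨⟨h1, -, h2⟩, h3⟩
    refine ⟨Finset.mem_univ _, ?_, h2⟩
    have hz0 : z ≠ 0 := by
      rintro rfl
      rw [zero_pow (by omega)] at h2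
      exact zero_ne_one h2
    rw [rP_eval, ← h3, div_mul_cancel₀ _ (pow_ne_zero _ hz0), sub_self]

theorem nrt_rle (m d : ℕ) (hm : 0 < m) (hd : 0 < d) (v : F) :
    nrt (rA F m d) (X ^ (m * d)) v ≤ 2 * (m * d) := by
  classical
  rw [nrt_rP]
  have hdeg : (rP m d v).natDegree ≤ 2 * (m * d) := by
    unfold rP
    refine (natDegree_sub_le _ _).trans (max_le (rA_natDegree m d hm hd).le ?_)
    exact (natDegree_C_mul_X_pow_le _ _).trans (by omega)
  refine le_trans ?_ hdeg
  apply card_le_degree_of_subset_roots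
  intro x hx
  rw [Finset.mem_val, Finset.mem_filter] at hx
  rw [mem_roots (rP_monic m d hm hd v).ne_zero]
  exact hx.2

end

theorem main_neg_r (m d : ℕ) (hm : Odd m) (hd : Odd d) (hmd : Nat.Coprime m d) (F : Type) [Field F]
    [Fintype F] [DecidableEq F] (hC : 10000 * (2 * (m * d)) ^ 24 < Fintype.card F) (hchar : ringChar F ≠ 2)
    (hmF : (m : F) ≠ 0) (hdF : (d : F) ≠ 0) (hmF1 : ((m + d : ℕ) : F) ≠ 0)
    (hcm : Nat.Coprime m (Fintype.card F - 1)) (hcd : Nat.Coprime d (Fintype.card F - 1))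
    (hnice : (Finset.univ.image (fc (fnr m d : F → F))).card ≤ 3) :
    ∃ v : F, fc (fnr m d) v = 2 := by
  classical
  have hm0 : 0 < m := hm.pos
  have hd0 : 0 < d := hd.pos
  have hmd0 : 0 < m * d := Nat.mul_pos hm0 hd0
  have hmdF : ((m * d : ℕ) : F) ≠ 0 := by
    push_cast
    exact mul_ne_zero hmF hdF
  have hC1 := fun A B v c hT hc Bad hBad a ha => LPq (2 * (m * d)) 2 (by omega) (by omega) F hC A B v c hT hc Bad hBad a ha
  have hC2 := fun A B v c hT hc Bad hBad a ha => LPq (2 * (m * d)) ((m + d) * (m * d)) (by omega)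
    (Nat.mul_pos (by omega) hmd0) F hC A B v c hT hc Bad hBad a ha
  have hc3 : 2 * (m * d) + 2 < Fintype.card F := by
    have h3 : 2 * (m * d) ≤ (2 * (m * d)) ^ 24 := Nat.le_self_pow (by norm_num) _
    omega
  have h2 : (2 : F) ≠ 0 := Ring.two_ne_zero hchar
  set v0 : F := fnr m d 2⁻¹ with hv0
  have h2i : (1 : F) - 2⁻¹ = 2⁻¹ := (half_iff h2 (2⁻¹ : F)).2 rfl
  have hv0ne : v0 ≠ 0 := by
    rw [hv0]
    unfold fnr
    rw [h2i, inv_inv]
    refine mul_ne_zero (pow_ne_zero _ ?_) (pow_ne_zero _ ?_)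
    · rw [← two_mul]
      exact mul_ne_zero h2 (pow_ne_zero _ h2)
    · rw [← two_mul]
      exact mul_ne_zero h2 (pow_ne_zero _ (inv_ne_zero h2))
  have hfcn := fun v (hv : v ≠ 0) => fc_fnr (F := F) m d hm hd hcm hcd v hv
  have hlt : fc (fnr m d) v0 < Fintype.card F := by
    rw [hfcn v0 hv0ne]
    have := nrt_rle (F := F) m d hm0 hd0 v0
    split_ifs <;> omega
  obtain ⟨a, ha0, haev, hval, va, hva⟩ := nice_fc h2 (fnr m d) (fnr_sym m d) hnice hlt
  rw [← hv0] at hval
  have hodd := fc_odd h2 (fnr m d) (fnr_sym (F := F) m d)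
  rw [← hv0] at hodd
  set N : F → ℕ := fun v => nrt (rA F m d) (X ^ (m * d)) v with hN
  set Bad : Finset F := {0, 1, v0} with hBad
  have hBadc : Bad.card ≤ 3 * (2 * (m * d)) := Finset.card_le_three.trans (by omega)
  have hgood : ∀ t ∉ Bad, nrt (rA F m d) (X ^ (m * d)) t = 0 ∨ nrt (rA F m d) (X ^ (m * d)) t = a := by
    intro t ht
    rw [hBad, Finset.mem_insert, Finset.mem_insert, Finset.mem_singleton, not_or, not_or] at ht
    obtain ⟨h3, h4, h5⟩ := ht
    have h6 := hfcn t h3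
    rw [if_neg h4, add_zero] at h6
    rw [← h6]
    exact hval t h5
  set κ := (2 * ((m * d : ℕ) : F) * ((m + d : ℕ) : F)) with hκ
  have hκ0 : κ ≠ 0 := mul_ne_zero (mul_ne_zero h2 hmdF) hmF1
  have hκsq : quadraticChar F κ * quadraticChar F κ = 1 := by
    have := quadraticChar_sq_one hκ0
    rw [sq] at this
    exact this
  obtain ⟨g, hg⟩ := quadraticChar_exists_neg_one hchar
  have hg0 : g ≠ 0 := by
    rintro rfl
    simp at hg
  have hplus : ∀ v : F, v ≠ 0 → (N v : ℤ) + twr m d v = 0 ∨ (N v : ℤ) + twr m d v = a := by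
    intro v hv
    have h3 := hC1 _ _ v κ (rP_tame hchar m d hm0 hd0 hmdF hmF1 v hv) hκ0 Bad hBadc a hgood
    have h4 := FixN_rneg hchar m d hm hd hmdF hmF1 v κ hv hκ0
    rw [← hκ, hκsq, one_mul] at h4
    rw [show (N v : ℤ) + twr m d v = (FixN (rA F m d - C v * X ^ (m * d)) (X ^ (m * d)) κ : ℤ) from h4.symm]
    rcases h3 with h | h
    · left; exact_mod_cast h
    · right; exact_mod_cast h
  have hminus : ∀ v : F, v ≠ 0 → (N v : ℤ) - twr m d v = 0 ∨ (N v : ℤ) - twr m d v = a := by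
    intro v hv
    have h3 := hC1 _ _ v (κ * g) (rP_tame hchar m d hm0 hd0 hmdF hmF1 v hv) (mul_ne_zero hκ0 hg0)
      Bad hBadc a hgood
    have h4 := FixN_rneg hchar m d hm hd hmdF hmF1 v (κ * g) hv (mul_ne_zero hκ0 hg0)
    rw [← hκ, map_mul, hg] at h4
    have h5 : quadraticChar F κ * -1 * quadraticChar F κ = -1 := by
      linear_combination (-1 : ℤ) * hκsq
    rw [h5] at h4
    have h6 : (N v : ℤ) - twr m d v = (FixN (rA F m d - C v * X ^ (m * d)) (X ^ (m * d)) (κ * g) : ℤ) := by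
      rw [h4]
      ring
    rw [h6]
    rcases h3 with h | h
    · left; exact_mod_cast h
    · right; exact_mod_cast h
  have hk := hC2 _ _ 0 (-((m : F) ^ d * (d : F) ^ m)) (rP_tame_zero m d hm hd hmd hmF hdF hmF1)
    (neg_ne_zero.2 (mul_ne_zero (pow_ne_zero _ hmF) (pow_ne_zero _ hdF))) Bad hBadc a hgood
  rw [FixN_rneg_zero m d hm hd hmF hdF hcm hcd] at hk
  set U := Finset.univ.filter fun z : F => z ^ (m + d) = 1 with hU
  have hone : (1 : F) ∈ U := by
    rw [hU, Finset.mem_filter]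
    exact ⟨Finset.mem_univ _, one_pow _⟩
  have hkpos : 0 < U.card := Finset.card_pos.2 ⟨1, hone⟩
  have hka : U.card = a := by omega
  have haZ : (0 : ℤ) < a := by exact_mod_cast ha0
  suffices h : (a : ℤ) = 2 by
    refine ⟨va, ?_⟩
    rw [hva]
    exact_mod_cast h
  -- generic places
  have htw0 : ∀ v : F, v ≠ 0 → v ≠ 1 → v ≠ v0 → twr m d v = 0 := by
    intro v h3 h4 h5
    have h6 := hgood v (by
      rw [hBad, Finset.mem_insert, Finset.mem_insert, Finset.mem_singleton, not_or, not_or]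
      exact ⟨h3, h4, h5⟩)
    have h7 := hplus v h3
    have h8 := hminus v h3
    have h9 : N v = 0 ∨ N v = a := h6
    omega
  obtain ⟨b', hb'⟩ := hodd
  obtain ⟨a', ha'⟩ := haev
  have hfc0 := hfcn v0 hv0ne
  have hp0 := hplus v0 hv0ne
  have hm0' := hminus v0 hv0ne
  have hN0 : fc (fnr m d) v0 = N v0 + if v0 = 1 then 2 else 0 := hfc0
  have hmdev : Even (m + d) := hm.add_odd hd
  by_cases h1 : v0 = 1
  · rw [if_pos h1] at hN0
    have hsum : ∑ v ∈ (Finset.univ : Finset F).erase 0, twr m d v = twr m d v0 := by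
      refine Finset.sum_eq_single v0 (fun v hv hv' => ?_) ?_
      · rw [Finset.mem_erase] at hv
        exact htw0 v hv.1 (by rw [← h1]; exact hv') hv'
      · intro h
        exact absurd (Finset.mem_erase.2 ⟨hv0ne, Finset.mem_univ _⟩) h
    rw [sum_twr m d hm hd hcm hcd, ← hU] at hsum
    have hTb : twr m d v0 = N v0 ∨ twr m d v0 = -(N v0 : ℤ) := by omega
    have h2b : (a : ℤ) = 2 * N v0 := by omega
    rcases sum_units (F := F) (m + d) (by omega) hmdev with ⟨ε, hε, hs⟩ | hs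
    · rw [← hU] at hs
      rw [hs] at hsum
      omega
    · rw [← hU] at hs
      rw [hs] at hsum
      omega
  · rw [if_neg h1, add_zero] at hN0
    have h3 := hplus 1 one_ne_zero
    have h4 := hminus 1 one_ne_zero
    have h5 := hfcn 1 one_ne_zero
    rw [if_pos rfl] at h5
    have h6 : fc (fnr m d) (1 : F) = N 1 + 2 := h5
    have h7 := hval 1 (Ne.symm h1)
    omega

end Pool.Agent.H470
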