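import Pool.Agent.H470.Nice

/-!
# Positive exponents
-/

set_option autoImplicit false
set_option linter.all false

open Polynomial

namespace Pool.Agent.H470

theorem cnt_le {F : Type} [Field F] [Fintype F] [DecidableEq F] (e : ℕ) (he : Odd e) (h1 : 1 < e)
    (hee : (e : F) ≠ 0) (v : F) : cnt e v ≤ e - 1 := by
  classical
  have hne : dP F e - C v ≠ 0 := by
    intro h
    have h2 := congrArg (fun p => Polynomial.coeff p (e - 1)) h
    simp only [coeff_sub, coeff_zero] at h2
    rw [dP_coeff_top he h1, coeff_C, if_neg (by omega), sub_zero] at h2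
    exact hee h2
  have hdeg : (dP F e - C v).natDegree ≤ e - 1 := by
    rw [natDegree_sub_C]
    exact dP_natDegree_le he
  unfold cnt
  refine le_trans ?_ hdeg
  apply card_le_degree_of_subset_roots
  intro x hx
  rw [Finset.mem_val, Finset.mem_filter] at hx
  rw [mem_roots hne, IsRoot.def, eval_sub, eval_C, dP_eval, hx.2, sub_self]

theorem main_pos (e : ℕ) (he : Odd e) (h1 : 1 < e) : ∃ C0 : ℕ, ∀ (F : Type) [Field F] [Fintype F]
    [DecidableEq F], C0 < Fintype.card F → ringChar F ≠ 2 → (e : F) ≠ 0 → ((e - 1 : ℕ) : F) ≠ 0 →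
    (Finset.univ.image (cnt e : F → ℕ)).card ≤ 3 → ∃ v : F, cnt e v = 2 := by
  classical
  obtain ⟨C1, hC1⟩ := finite_places e he h1
  obtain ⟨C2, hC2⟩ := inf_place e he h1
  refine ⟨max C1 (max C2 e), ?_⟩
  intro F _ _ _ hC hchar hee hee1 hnice
  have hc1 : C1 < Fintype.card F := lt_of_le_of_lt (le_max_left _ _) hC
  have hc2 : C2 < Fintype.card F :=
    lt_of_le_of_lt ((le_max_left _ _).trans (le_max_right _ _)) hC
  have hc3 : e < Fintype.card F :=
    lt_of_le_of_lt ((le_max_right _ _).trans (le_max_right _ _)) hC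
  have h2 : (2 : F) ≠ 0 := Ring.two_ne_zero hchar
  set v0 := (2⁻¹ : F) ^ e + (1 - 2⁻¹) ^ e with hv0
  obtain ⟨a, ha0, haev, hval, va, hva⟩ := nice_values h2 e (by omega) hnice
    (lt_of_le_of_lt (cnt_le e he h1 hee _) (by omega))
  rw [← hv0] at hval
  have hodd := cnt_odd h2 e
  rw [← hv0] at hodd
  set κ := (2 * (e : F) * ((e - 1 : ℕ) : F)) with hκ
  have hκ0 : κ ≠ 0 := mul_ne_zero (mul_ne_zero h2 hee) hee1
  have hκsq : quadraticChar F κ * quadraticChar F κ = 1 := by
    have := quadraticChar_sq_one hκ0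
    rw [sq] at this
    exact this
  obtain ⟨g, hg⟩ := quadraticChar_exists_neg_one hchar
  have hg0 : g ≠ 0 := by
    rintro rfl
    simp at hg
  have hval' : ∀ t : F, t ≠ v0 → (cnt e t : ℤ) = 0 ∨ (cnt e t : ℤ) = a := by
    intro t ht
    rcases hval t ht with h | h
    · left; exact_mod_cast h
    · right; exact_mod_cast h
  have hplus : ∀ v : F, (cnt e v : ℤ) + tw e v = 0 ∨ (cnt e v : ℤ) + tw e v = a := by
    intro v
    obtain ⟨t, ht, h⟩ := hC1 F hc1 hchar hee hee1 v0 v κ hκ0
    rw [← hκ, hκsq, one_mul] at h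
    rw [← h]
    exact hval' t ht
  have hminus : ∀ v : F, (cnt e v : ℤ) - tw e v = 0 ∨ (cnt e v : ℤ) - tw e v = a := by
    intro v
    obtain ⟨t, ht, h⟩ := hC1 F hc1 hchar hee hee1 v0 v (κ * g) (mul_ne_zero hκ0 hg0)
    rw [← hκ, map_mul, hg] at h
    have h3 : quadraticChar F κ * -1 * quadraticChar F κ = -1 := by
      linear_combination (-1 : ℤ) * hκsq
    rw [h3] at h
    have h4 : (cnt e v : ℤ) - tw e v = cnt e t := by rw [h]; ring
    rw [h4]
    exact hval' t ht
  have haZ : (0 : ℤ) < a := by exact_mod_cast ha0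
  have htw0 : ∀ v : F, v ≠ v0 → tw e v = 0 := by
    intro v hv
    have h3 := hval' v hv
    have h4 := hplus v
    have h5 := hminus v
    omega
  have hsum : ∑ v : F, tw e v = tw e v0 := by
    refine Finset.sum_eq_single v0 (fun v _ hv => htw0 v hv) ?_
    intro h
    exact absurd (Finset.mem_univ _) h
  rw [sum_tw, sum_crit e he h1 h2] at hsum
  have hp0 := hplus v0
  have hm0 := hminus v0
  obtain ⟨b', hb'⟩ := hodd
  obtain ⟨a', ha'⟩ := haev
  have hb : (cnt e v0 : ℤ) = 2 * b' + 1 := by rw [hb']; push_cast; ring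
  have haa : (a : ℤ) = 2 * a' := by rw [ha']; push_cast; ring
  have hTb : tw e v0 = cnt e v0 ∨ tw e v0 = -(cnt e v0 : ℤ) := by omega
  have h2b : (a : ℤ) = 2 * cnt e v0 := by omega
  set U := Finset.univ.filter fun z : F => z ^ (e - 1) = 1 with hU
  have heven : Even (e - 1) := by
    obtain ⟨m, hm⟩ := he
    exact ⟨m, by omega⟩
  have hm1 : (-1 : F) ∈ U := by
    rw [hU, Finset.mem_filter]
    exact ⟨Finset.mem_univ _, heven.neg_one_pow⟩
  have hone : (1 : F) ∈ U := by
    rw [hU, Finset.mem_filter]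
    exact ⟨Finset.mem_univ _, one_pow _⟩
  have hU0 : ∀ z ∈ U, z ≠ 0 := by
    intro z hz h
    rw [hU, Finset.mem_filter, h, zero_pow (by omega)] at hz
    exact zero_ne_one hz.2
  have hpm : quadraticChar F (-1) = 1 ∨ quadraticChar F (-1) = -1 :=
    quadraticChar_dichotomy (neg_ne_zero.2 one_ne_zero)
  suffices h : (a : ℤ) = 2 by
    refine ⟨va, ?_⟩
    rw [hva]
    exact_mod_cast h
  by_cases hz : ∃ z1 ∈ U, quadraticChar F z1 = -1
  · obtain ⟨z1, hz1, hz1'⟩ := hz
    have hS : ∑ z ∈ U, quadraticChar F z = 0 := by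
      have h3 : ∑ z ∈ U, quadraticChar F z = ∑ z ∈ U, quadraticChar F (z1 * z) := by
        have hz10 := hU0 z1 hz1
        have hz1p : z1 ^ (e - 1) = 1 := by
          rw [hU, Finset.mem_filter] at hz1
          exact hz1.2
        symm
        refine Finset.sum_bij' (fun z _ => z1 * z) (fun z _ => z1⁻¹ * z) ?_ ?_ ?_ ?_ ?_
        · intro z hz
          rw [hU, Finset.mem_filter] at hz ⊢
          refine ⟨Finset.mem_univ _, ?_⟩
          rw [mul_pow, hz1p, hz.2, one_mul]
        · intro z hz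
          rw [hU, Finset.mem_filter] at hz ⊢
          refine ⟨Finset.mem_univ _, ?_⟩
          rw [mul_pow, inv_pow, hz1p, hz.2, inv_one, one_mul]
        · intro z _
          rw [← mul_assoc, inv_mul_cancel₀ hz10, one_mul]
        · intro z _
          rw [← mul_assoc, mul_inv_cancel₀ hz10, one_mul]
        · intro z _
          rfl
      have h4 : ∑ z ∈ U, quadraticChar F (z1 * z) = - ∑ z ∈ U, quadraticChar F z := by
        rw [← Finset.sum_neg_distrib]
        refine Finset.sum_congr rfl fun z _ => ?_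
        rw [map_mul, hz1', neg_one_mul]
      rw [h4] at h3
      omega
    rw [hS] at hsum
    omega
  · push Not at hz
    have hall : ∀ z ∈ U, quadraticChar F z = 1 := by
      intro z hz'
      exact (quadraticChar_dichotomy (hU0 z hz')).resolve_right (hz z hz')
    have hS : ∑ z ∈ U, quadraticChar F z = (U.card : ℤ) := by
      rw [Finset.sum_congr rfl hall, Finset.sum_const, nsmul_eq_mul, mul_one]
    rw [hS, hall _ hm1] at hsum
    obtain ⟨t, ht, hcnt⟩ := hC2 F hc2 hee hee1 v0
    have hk : (U.card : ℤ) = 0 ∨ (U.card : ℤ) = a := by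
      have := hval' t ht
      rw [hcnt] at this
      exact this
    have hkpos : (0 : ℤ) < U.card := by
      exact_mod_cast Finset.card_pos.2 ⟨1, hone⟩
    omega

end Pool.Agent.H470
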