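import Pool.Agent.H470.Core5

/-!
# Moments: Galois part
-/

set_option autoImplicit false
set_option linter.all false

open Polynomial

namespace Pool.Agent.H470

/-- the linear combinations -/
def th {F M : Type*} [Semiring F] [Semiring M] (c : F →+* M) {n r : ℕ} (l : Fin r → F) (y : Fin n → M)
    (τ : Fin r → Fin n) : M := ∑ i, c (l i) * y (τ i)

theorem map_th {F M M' : Type*} [Semiring F] [Semiring M] [Semiring M'] (c : F →+* M) {n r : ℕ}
    (l : Fin r → F) (y : Fin n → M) (τ : Fin r → Fin n) (f : M →+* M') :
    f (th c l y τ) = th (f.comp c) l (fun j => f (y j)) τ := by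
  unfold th
  rw [map_sum]
  simp only [map_mul, RingHom.comp_apply]

theorem exists_l {F M : Type*} [Field F] [Finite F] [Field M] (c : F →+* M) {n r : ℕ} (y : Fin n → M)
    (hy : Function.Injective y) (hq : (n ^ r) ^ 2 < Nat.card F) :
    ∃ l : Fin r → F, Function.Injective (th c l y) := by
  classical
  letI : Algebra F M := c.toAlgebra
  let I : Finset ((Fin r → Fin n) × (Fin r → Fin n)) := Finset.univ.offDiag
  let fn : (Fin r → Fin n) × (Fin r → Fin n) → ((Fin r → F) →ₗ[F] M) := fun p =>
    { toFun := fun l => ∑ i, c (l i) * (y (p.1 i) - y (p.2 i))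
      map_add' := by
        intro a b
        simp only [Pi.add_apply, map_add, add_mul, Finset.sum_add_distrib]
      map_smul' := by
        intro a b
        simp only [Pi.smul_apply, smul_eq_mul, map_mul, RingHom.id_apply, Algebra.smul_def,
          Finset.mul_sum, mul_assoc]
        rfl }
  obtain ⟨l, hl⟩ := exists_notMem_submodules (F := F) (V := Fin r → F) I
    (fun p => LinearMap.ker (fn p))
    (by
      rintro ⟨p1, p2⟩ hp htop
      rw [Finset.mem_offDiag] at hp
      obtain ⟨i, hi⟩ : ∃ i, p1 i ≠ p2 i := by
        by_contra h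
        push Not at h
        exact hp.2.2 (funext h)
      have h1 : (Pi.single i (1 : F) : Fin r → F) ∈ LinearMap.ker (fn (p1, p2)) := by
        rw [htop]; trivial
      rw [LinearMap.mem_ker] at h1
      have h2 : fn (p1, p2) (Pi.single i (1 : F)) = y (p1 i) - y (p2 i) := by
        show ∑ i', c ((Pi.single i (1 : F) : Fin r → F) i') * (y (p1 i') - y (p2 i')) = _
        rw [Finset.sum_eq_single i]
        · rw [Pi.single_eq_same, map_one, one_mul]
        · intro b _ hb
          rw [Pi.single_eq_of_ne hb, map_zero, zero_mul]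
        · intro h
          exact absurd (Finset.mem_univ _) h
      rw [h2, sub_eq_zero] at h1
      exact hi (hy h1))
    (by
      refine lt_of_le_of_lt ?_ hq
      rw [Finset.offDiag_card, Finset.card_univ, Fintype.card_fun, Fintype.card_fin, Fintype.card_fin, sq]
      exact Nat.sub_le _ _)
  refine ⟨l, fun a b hab => ?_⟩
  by_contra hne
  apply hl (a, b) (Finset.mem_offDiag.2 ⟨Finset.mem_univ _, Finset.mem_univ _, hne⟩)
  rw [LinearMap.mem_ker]
  show ∑ i, c (l i) * (y (a i) - y (b i)) = 0
  have h3 : th c l y a - th c l y b = 0 := sub_eq_zero.2 hab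
  unfold th at h3
  rw [← Finset.sum_sub_distrib] at h3
  rw [← h3]
  exact Finset.sum_congr rfl fun i _ => by ring

section
variable (F k : Type) [Field F] [Finite F] [Field k] [IsAlgClosed k] [Algebra F k]

theorem fr_surj : Function.Surjective (fr F k) := by
  intro c
  obtain ⟨d, hd⟩ := IsAlgClosed.exists_pow_nat_eq c (n := Nat.card F) Nat.card_pos
  exact ⟨d, hd⟩

/-- the Frobenius automorphism of the polynomials -/
noncomputable def frE : k ≃+* k := RingEquiv.ofBijective (fr F k) ⟨(fr F k).injective, fr_surj F k⟩

noncomputable def frE2 : k[X][X] ≃+* k[X][X] := Polynomial.mapEquiv (Polynomial.mapEquiv (frE F k))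

theorem frE2_apply (f : k[X][X]) : frE2 F k f = f.map (mapRingHom (fr F k)) := by
  unfold frE2 frE
  simp only [mapEquiv_apply]
  congr 1

theorem irreducible_fr (f : k[X][X]) (h : Irreducible f) : Irreducible (f.map (mapRingHom (fr F k))) := by
  rw [← frE2_apply]
  exact (MulEquiv.irreducible_iff (frE2 F k)).2 h

end

section
variable {F k : Type} [Field F] [Finite F] [Field k] [IsAlgClosed k] [Algebra F k]
variable {M : Type} [Field M] [Algebra k[X] M] [FaithfulSMul k[X] M]

theorem minpoly_fr {Ψ : M →+* M} (h : Semi F (k := k) Ψ) (x : M) (hx : IsIntegral k[X] x)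
    (hx' : IsIntegral k[X] (Ψ x)) :
    (minpoly k[X] x).map (mapRingHom (fr F k)) = minpoly k[X] (Ψ x) := by
  have h1 := h.aeval x (minpoly k[X] x)
  rw [minpoly.aeval, map_zero] at h1
  have h2 := minpoly.isIntegrallyClosed_dvd hx' h1.symm
  have h3 := irreducible_fr F k _ (minpoly.irreducible hx)
  have h4 : Associated (minpoly k[X] (Ψ x)) ((minpoly k[X] x).map (mapRingHom (fr F k))) :=
    (minpoly.irreducible hx').associated_of_dvd h3 h2
  exact (eq_of_monic_of_associated (minpoly.monic hx') ((minpoly.monic hx).map _) h4).symm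

end

section
variable {k : Type} [Field k]
variable {M : Type} [Field M] [Algebra (RatFunc k) M] [Algebra k[X] M] [IsScalarTower k[X] (RatFunc k) M]

/-- the field generated by the roots -/
noncomputable abbrev NN (k : Type) [Field k] {M : Type} [Field M] [Algebra (RatFunc k) M] {n : ℕ} (y : Fin n → M) :
    IntermediateField (RatFunc k) M := IntermediateField.adjoin (RatFunc k) (Set.range y)

noncomputable def yN {n : ℕ} (y : Fin n → M) (j : Fin n) : NN k y :=
  ⟨y j, IntermediateField.subset_adjoin _ _ ⟨j, rfl⟩⟩

theorem adjoin_yN {n : ℕ} (y : Fin n → M) :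
    IntermediateField.adjoin (RatFunc k) (Set.range (yN (k := k) y)) = ⊤ := by
  rw [eq_top_iff]
  rintro ⟨x, hx⟩ -
  refine IntermediateField.adjoin_induction (RatFunc k)
    (p := fun x hx => (⟨x, hx⟩ : NN k y) ∈ IntermediateField.adjoin (RatFunc k) (Set.range (yN (k := k) y)))
    ?_ ?_ ?_ ?_ ?_ hx
  · rintro _ ⟨j, rfl⟩
    exact IntermediateField.subset_adjoin _ _ ⟨j, rfl⟩
  · intro x
    exact IntermediateField.algebraMap_mem _ x
  · intro x y hx hy h1 h2
    exact add_mem h1 h2
  · intro x hx h1
    exact inv_mem h1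
  · intro x y hx hy h1 h2
    exact mul_mem h1 h2

theorem galois_NN {n : ℕ} (G : k[X][X]) (hG : G.Monic) (hGn : G.natDegree = n) (y : Fin n → M)
    (hy : Function.Injective y) (hroot : ∀ j, aeval (y j) G = 0) : IsGalois (RatFunc k) (NN k y) ∧
    FiniteDimensional (RatFunc k) (NN k y) := by
  classical
  set gK := G.map (algebraMap k[X] (RatFunc k)) with hgK
  have hgKm : gK.Monic := hG.map _
  have hgKn : gK.natDegree = n := by rw [hgK, hG.natDegree_map, hGn]
  have hrootK : ∀ j, aeval (y j) gK = 0 := by
    intro j
    rw [hgK, aeval_map_algebraMap]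
    exact hroot j
  have hrootN : ∀ j, (gK.map (algebraMap (RatFunc k) (NN k y))).eval (yN (k := k) y j) = 0 := by
    intro j
    rw [eval_map, ← aeval_def]
    apply (algebraMap (NN k y) M).injective
    rw [map_zero, ← aeval_algebraMap_apply]
    exact hrootK j
  have hinj : Function.Injective (yN (k := k) y) := fun a b h => hy (congrArg Subtype.val h)
  have hprod := eq_prod_roots (gK.map (algebraMap (RatFunc k) (NN k y))) (hgKm.map _)
    (by rw [hgKm.natDegree_map, hgKn]) (yN (k := k) y) hinj hrootN
  have hsep : gK.Separable := by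
    rw [← separable_map (algebraMap (RatFunc k) (NN k y)), hprod]
    exact separable_prod_X_sub_C_iff.2 hinj
  haveI hsf : gK.IsSplittingField (RatFunc k) (NN k y) := by
    rw [isSplittingField_iff_intermediateField]
    constructor
    · rw [hprod]
      apply Splits.prod
      intro j _
      exact Splits.X_sub_C _
    · rw [eq_top_iff, ← adjoin_yN (k := k) y]
      apply IntermediateField.adjoin.mono
      rintro _ ⟨j, rfl⟩
      rw [mem_rootSet]
      refine ⟨hgKm.ne_zero, ?_⟩
      rw [aeval_def, ← eval_map]
      exact hrootN j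
  haveI : FiniteDimensional (RatFunc k) (NN k y) := IsSplittingField.finiteDimensional _ gK
  exact ⟨IsGalois.of_separable_splitting_field hsep, inferInstance⟩

end

end Pool.Agent.H470
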