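import Pool.Agent.H470.Mom1

/-!
# Moments: classes of tuples
-/

set_option autoImplicit false
set_option linter.all false

open Polynomial

namespace Pool.Agent.H470

/-- the data -/
structure Dat (F k : Type) [Field F] [Finite F] [Field k] [IsAlgClosed k] [Algebra F k] (M : Type)
    [Field M] [Algebra (RatFunc k) M] [Algebra k[X] M] [IsScalarTower k[X] (RatFunc k) M] (n d0 : ℕ) where
  Ψ : M →+* M
  semi : Semi F (k := k) Ψ
  g : F[X][X]
  monic : g.Monic
  deg : g.natDegree = n
  coeff : ∀ i, (g.coeff i).natDegree ≤ d0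
  y : Fin n → M
  inj : Function.Injective y
  root : ∀ j, aeval (y j) (g.map (mapRingHom (algebraMap F k))) = 0

namespace Dat

section
variable {F k : Type} [Field F] [Finite F] [Field k] [IsAlgClosed k] [Algebra F k] {M : Type}
    [Field M] [Algebra (RatFunc k) M] [Algebra k[X] M] [IsScalarTower k[X] (RatFunc k) M] {n d0 : ℕ}
    (D : Dat F k M n d0)
include D

theorem faith : FaithfulSMul k[X] M := by
  apply (faithfulSMul_iff_algebraMap_injective _ _).2
  rw [IsScalarTower.algebraMap_eq k[X] (RatFunc k) M]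
  exact (algebraMap (RatFunc k) M).injective.comp (IsFractionRing.injective k[X] (RatFunc k))

/-- the constants -/
noncomputable def c (_ : Dat F k M n d0) : F →+* M := (algebraMap k[X] M).comp ((C : k →+* k[X]).comp (algebraMap F k))

theorem Ψc (a : F) : D.Ψ (D.c a) = D.c a := by
  show D.Ψ (algebraMap k[X] M (C (algebraMap F k a))) = algebraMap k[X] M (C (algebraMap F k a))
  rw [D.semi.C, fr_algebraMap]

theorem integral (j : Fin n) : IsIntegral k[X] (D.y j) :=
  ⟨_, D.monic.map _, D.root j⟩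

/-- the polynomial over the large field -/
noncomputable def gM : M[X] := (D.g.map (mapRingHom (algebraMap F k))).map (algebraMap k[X] M)

theorem gM_monic : D.gM.Monic := (D.monic.map _).map _

theorem gM_deg : D.gM.natDegree = n := by
  rw [gM, (D.monic.map _).natDegree_map, D.monic.natDegree_map, D.deg]

theorem gM_root (j : Fin n) : D.gM.eval (D.y j) = 0 := by
  rw [gM, eval_map]
  exact D.root j

theorem gM_prod : D.gM = ∏ j, (X - C (D.y j)) :=
  eq_prod_roots D.gM D.gM_monic D.gM_deg D.y D.inj D.gM_root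

theorem gM_Ψ : D.gM.map D.Ψ = D.gM := by
  rw [gM, Polynomial.map_map, Polynomial.map_map, Polynomial.map_map]
  congr 1
  apply Polynomial.ringHom_ext
  · intro c
    simp only [RingHom.comp_apply, coe_mapRingHom, map_C]
    rw [D.semi.C, fr_algebraMap]
  · simp only [RingHom.comp_apply, coe_mapRingHom, map_X]
    exact D.semi.X

theorem exists_σ : ∃ σ : Equiv.Perm (Fin n), ∀ j, D.Ψ (D.y j) = D.y (σ j) :=
  exists_perm D.gM D.gM_monic D.gM_deg D.y D.inj D.gM_root D.Ψ D.gM_Ψ

noncomputable def σ : Equiv.Perm (Fin n) := D.exists_σ.choose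

theorem hσ (j : Fin n) : D.Ψ (D.y j) = D.y (D.σ j) := D.exists_σ.choose_spec j

theorem σ_fix (j : Fin n) : D.σ j = j ↔ D.Ψ (D.y j) = D.y j := by
  rw [hσ]
  exact ⟨fun h => by rw [h], fun h => D.inj h⟩

theorem Ψth {r : ℕ} (l : Fin r → F) (τ : Fin r → Fin n) :
    D.Ψ (th D.c l D.y τ) = th D.c l D.y (D.σ ∘ τ) := by
  rw [map_th]
  unfold th
  refine Finset.sum_congr rfl fun i _ => ?_
  rw [RingHom.comp_apply, Ψc]
  show _ * D.Ψ (D.y (τ i)) = _
  rw [hσ]
  rfl

theorem int_th {r : ℕ} (l : Fin r → F) (τ : Fin r → Fin n) : IsIntegral k[X] (th D.c l D.y τ) := by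
  unfold th
  refine IsIntegral.sum _ fun i _ => ?_
  exact (isIntegral_algebraMap (x := (C (algebraMap F k (l i)) : k[X]))).mul (D.integral _)

/-- the minimal polynomial of a combination -/
noncomputable def mp {r : ℕ} (l : Fin r → F) (τ : Fin r → Fin n) : k[X][X] := minpoly k[X] (th D.c l D.y τ)

theorem mp_monic {r : ℕ} (l : Fin r → F) (τ : Fin r → Fin n) : (D.mp l τ).Monic :=
  minpoly.monic (D.int_th l τ)

theorem mp_irr {r : ℕ} (l : Fin r → F) (τ : Fin r → Fin n) : Irreducible (D.mp l τ) := by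
  haveI := D.faith
  exact minpoly.irreducible (D.int_th l τ)

theorem mp_fr {r : ℕ} (l : Fin r → F) (τ : Fin r → Fin n) :
    (D.mp l τ).map (mapRingHom (fr F k)) = D.mp l (D.σ ∘ τ) := by
  haveI := D.faith
  unfold mp
  rw [minpoly_fr D.semi _ (D.int_th l τ) (by rw [D.Ψth]; exact D.int_th l _), D.Ψth]

theorem isG : IsGalois (RatFunc k) (NN k D.y) :=
  (galois_NN (D.g.map (mapRingHom (algebraMap F k))) (D.monic.map _)
    (by rw [D.monic.natDegree_map, D.deg]) D.y D.inj D.root).1

theorem finD : FiniteDimensional (RatFunc k) (NN k D.y) :=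
  (galois_NN (D.g.map (mapRingHom (algebraMap F k))) (D.monic.map _)
    (by rw [D.monic.natDegree_map, D.deg]) D.y D.inj D.root).2

/-- the constants in the small field -/
noncomputable def cN (D : Dat F k M n d0) : F →+* NN k D.y :=
  (algebraMap (RatFunc k) (NN k D.y)).comp ((algebraMap k[X] (RatFunc k)).comp
    ((C : k →+* k[X]).comp (algebraMap F k)))

theorem cN_coe (a : F) : ((D.cN a : NN k D.y) : M) = D.c a := by
  show (((algebraMap (RatFunc k) (NN k D.y)) (algebraMap k[X] (RatFunc k) (C (algebraMap F k a))) :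
    NN k D.y) : M) = algebraMap k[X] M (C (algebraMap F k a))
  rw [IsScalarTower.algebraMap_apply k[X] (RatFunc k) M]
  rfl

/-- the combinations in the small field -/
noncomputable def thN {r : ℕ} (l : Fin r → F) (τ : Fin r → Fin n) : NN k D.y := th D.cN l (yN D.y) τ

theorem thN_coe {r : ℕ} (l : Fin r → F) (τ : Fin r → Fin n) :
    ((D.thN l τ : NN k D.y) : M) = th D.c l D.y τ := by
  have h := map_th D.cN l (yN (k := k) D.y) τ (algebraMap (NN k D.y) M)
  have h2 : algebraMap (NN k D.y) M (D.thN l τ) = ((D.thN l τ : NN k D.y) : M) := rfl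
  rw [← h2]
  unfold thN
  rw [h]
  unfold th
  refine Finset.sum_congr rfl fun i _ => ?_
  rw [RingHom.comp_apply]
  have h3 : algebraMap (NN k D.y) M (D.cN (l i)) = ((D.cN (l i) : NN k D.y) : M) := rfl
  rw [h3, cN_coe]
  rfl

theorem thN_inj {r : ℕ} {l : Fin r → F} (hl : Function.Injective (th D.c l D.y)) :
    Function.Injective (D.thN l) := by
  intro a b h
  apply hl
  rw [← thN_coe, ← thN_coe, h]

theorem mpK {r : ℕ} (l : Fin r → F) (τ : Fin r → Fin n) :
    minpoly (RatFunc k) (D.thN l τ) = (D.mp l τ).map (algebraMap k[X] (RatFunc k)) := by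
  haveI := D.faith
  have h1 : minpoly (RatFunc k) (D.thN l τ) = minpoly (RatFunc k) (th D.c l D.y τ) := by
    rw [← thN_coe]
    exact (minpoly.algHom_eq (NN k D.y).val (fun a b h => Subtype.ext h) _).symm
  rw [h1]
  exact minpoly.isIntegrallyClosed_eq_field_fractions' (RatFunc k) (D.int_th l τ)

/-- the permutation given by a Galois element -/
theorem exists_pm (ρ : NN k D.y ≃ₐ[RatFunc k] NN k D.y) :
    ∃ π : Equiv.Perm (Fin n), ∀ j, ρ (yN D.y j) = yN D.y (π j) := by
  set gN : (NN k D.y)[X] := ((D.g.map (mapRingHom (algebraMap F k))).map (algebraMap k[X] (RatFunc k))).map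
    (algebraMap (RatFunc k) (NN k D.y)) with hgN
  have hm : gN.Monic := ((D.monic.map _).map _).map _
  have hd : gN.natDegree = n := by
    rw [hgN, ((D.monic.map _).map _).natDegree_map, (D.monic.map _).natDegree_map, D.monic.natDegree_map,
      D.deg]
  have hr : ∀ j, gN.eval (yN D.y j) = 0 := by
    intro j
    rw [hgN, eval_map, ← aeval_def]
    apply (algebraMap (NN k D.y) M).injective
    rw [map_zero, ← aeval_algebraMap_apply, aeval_map_algebraMap]
    exact D.root j
  exact exists_perm gN hm hd (yN D.y) (fun a b h => D.inj (congrArg Subtype.val h)) hr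
    (ρ : NN k D.y →+* NN k D.y) (by
      rw [hgN, Polynomial.map_map]
      congr 1
      exact RingHom.ext fun x => ρ.commutes x)

noncomputable def pm (ρ : NN k D.y ≃ₐ[RatFunc k] NN k D.y) : Equiv.Perm (Fin n) := (D.exists_pm ρ).choose

theorem hpm (ρ : NN k D.y ≃ₐ[RatFunc k] NN k D.y) (j : Fin n) : ρ (yN D.y j) = yN D.y (D.pm ρ j) :=
  (D.exists_pm ρ).choose_spec j

theorem ρth (ρ : NN k D.y ≃ₐ[RatFunc k] NN k D.y) {r : ℕ} (l : Fin r → F) (τ : Fin r → Fin n) :
    ρ (D.thN l τ) = D.thN l (D.pm ρ ∘ τ) := by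
  have h := map_th D.cN l (yN (k := k) D.y) τ (ρ : NN k D.y →+* NN k D.y)
  have h2 : ρ (D.thN l τ) = (ρ : NN k D.y →+* NN k D.y) (th D.cN l (yN (k := k) D.y) τ) := rfl
  rw [h2, h]
  unfold thN th
  refine Finset.sum_congr rfl fun i _ => ?_
  have e1 : ((ρ : NN k D.y →+* NN k D.y).comp D.cN) (l i) = D.cN (l i) := ρ.commutes _
  have e2 : (ρ : NN k D.y →+* NN k D.y) (yN D.y (τ i)) = yN D.y (D.pm ρ (τ i)) := D.hpm ρ (τ i)
  rw [e1]
  exact congrArg (fun z => D.cN (l i) * z) e2

theorem mp_eq_iff {r : ℕ} (l : Fin r → F) (τ τ' : Fin r → Fin n) :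
    D.mp l τ = D.mp l τ' ↔ ∃ ρ : NN k D.y ≃ₐ[RatFunc k] NN k D.y, ρ (D.thN l τ) = D.thN l τ' := by
  haveI := D.isG
  haveI := D.finD
  have h1 : D.mp l τ = D.mp l τ' ↔ IsConjRoot (RatFunc k) (D.thN l τ') (D.thN l τ) := by
    unfold IsConjRoot
    rw [D.mpK, D.mpK]
    constructor
    · intro h
      rw [h]
    · intro h
      exact (Polynomial.map_injective _ (IsFractionRing.injective k[X] (RatFunc k)) h).symm
  rw [h1, isConjRoot_iff_exists_algEquiv]

/-- the factorisation of the minimal polynomial -/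
theorem mp_prod {r : ℕ} {l : Fin r → F} (hl : Function.Injective (th D.c l D.y)) (τ : Fin r → Fin n)
    [DecidablePred fun τ' => D.mp l τ' = D.mp l τ] :
    (D.mp l τ).map (algebraMap k[X] M) =
      ∏ τ' ∈ Finset.univ.filter (fun τ' => D.mp l τ' = D.mp l τ), (X - C (th D.c l D.y τ')) := by
  classical
  haveI := D.isG
  haveI := D.finD
  set S := Finset.univ.filter (fun τ' => D.mp l τ' = D.mp l τ) with hS
  set P := (D.mp l τ).map (algebraMap k[X] M) with hP
  set Q := ∏ τ' ∈ S, (X - C (th D.c l D.y τ')) with hQ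
  have hPm : P.Monic := (D.mp_monic l τ).map _
  have hQm : Q.Monic := monic_prod_of_monic _ _ fun _ _ => monic_X_sub_C _
  have hdvd : Q ∣ P := by
    apply Finset.prod_dvd_of_coprime
    · intro i _ j _ hij
      exact pairwise_coprime_X_sub_C hl hij
    · intro j hj
      rw [hS, Finset.mem_filter] at hj
      rw [dvd_iff_isRoot, IsRoot.def, hP, eval_map, ← aeval_def, ← hj.2]
      exact minpoly.aeval _ _
  refine (eq_of_monic_of_dvd_of_natDegree_le hQm hPm hdvd ?_)
  have h1 : Q.natDegree = S.card := by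
    rw [hQ, natDegree_prod_of_monic _ _ fun _ _ => monic_X_sub_C _]
    simp
  rw [h1, hP, (D.mp_monic l τ).natDegree_map]
  -- the roots in the small field
  set m := minpoly (RatFunc k) (D.thN l τ) with hm
  have hmd : (D.mp l τ).natDegree = m.natDegree := by
    rw [hm, D.mpK, (D.mp_monic l τ).natDegree_map]
  have hspl : (m.map (algebraMap (RatFunc k) (NN k D.y))).Splits := Normal.splits inferInstance _
  have hsep : m.Separable := Algebra.IsSeparable.isSeparable _ _
  rw [hmd, ← card_rootSet_eq_natDegree hsep hspl]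
  have h2 : ∀ x : m.rootSet (NN k D.y), ∃ τ' ∈ S, D.thN l τ' = x := by
    rintro ⟨x, hx⟩
    have h3 : IsConjRoot (RatFunc k) x (D.thN l τ) := by
      rw [mem_rootSet] at hx
      unfold IsConjRoot
      have hint : IsIntegral (RatFunc k) (D.thN l τ) := Algebra.IsIntegral.isIntegral _
      exact (minpoly.eq_of_irreducible_of_monic (minpoly.irreducible hint) hx.2 (minpoly.monic hint)).symm
    obtain ⟨s, hs⟩ := isConjRoot_iff_exists_algEquiv.1 h3
    refine ⟨D.pm s ∘ τ, ?_, ?_⟩
    · rw [hS, Finset.mem_filter]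
      refine ⟨Finset.mem_univ _, ?_⟩
      exact ((D.mp_eq_iff l τ _).2 ⟨s, D.ρth s l τ⟩).symm
    · rw [← D.ρth]
      exact hs
  choose f hf1 hf2 using h2
  have h3 : Fintype.card (m.rootSet (NN k D.y)) ≤ Fintype.card S := by
    apply Fintype.card_le_of_injective (fun x => (⟨f x, hf1 x⟩ : S))
    intro a b hab
    apply Subtype.ext
    rw [← hf2 a, ← hf2 b]
    exact congrArg _ (congrArg Subtype.val hab)
  rw [Fintype.card_coe] at h3
  exact h3

theorem mp_natDegree {r : ℕ} {l : Fin r → F} (hl : Function.Injective (th D.c l D.y)) (τ : Fin r → Fin n)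
    [DecidablePred fun τ' => D.mp l τ' = D.mp l τ] :
    (D.mp l τ).natDegree = (Finset.univ.filter (fun τ' => D.mp l τ' = D.mp l τ)).card := by
  have h := congrArg natDegree (D.mp_prod hl τ)
  rw [(D.mp_monic l τ).natDegree_map, natDegree_prod_of_monic _ _ fun _ _ => monic_X_sub_C _] at h
  rw [h]
  simp

end

end Dat

end Pool.Agent.H470
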