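import Pool.Agent.H470.Mom3

/-!
# Moments: specialisation
-/

set_option autoImplicit false
set_option linter.all false

open Polynomial

namespace Pool.Agent.H470

/-- monic with coefficients of small degree -/
def PB {k : Type} [Field k] (d0 : ℕ) (f : k[X][X]) : Prop :=
  f.Monic ∧ ∀ i, (f.coeff i).natDegree ≤ d0 * f.natDegree

theorem PB.mul {k : Type} [Field k] {d0 : ℕ} {f g : k[X][X]} (hf : PB d0 f) (hg : PB d0 g) :
    PB d0 (f * g) := by
  refine ⟨hf.1.mul hg.1, fun i => ?_⟩
  rw [coeff_mul, hf.1.natDegree_mul hg.1]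
  refine natDegree_sum_le_of_forall_le _ _ fun p _ => ?_
  refine natDegree_mul_le.trans ?_
  rw [mul_add]
  exact add_le_add (hf.2 _) (hg.2 _)

theorem PB.one {k : Type} [Field k] {d0 : ℕ} : PB d0 (1 : k[X][X]) := by
  refine ⟨monic_one, fun i => ?_⟩
  rw [coeff_one]
  split_ifs <;> simp

theorem PB.prod {k : Type} [Field k] {d0 : ℕ} (S : Finset k[X][X]) (h : ∀ f ∈ S, PB d0 f) :
    PB d0 (∏ f ∈ S, f) := by
  classical
  induction S using Finset.induction_on with
  | empty => simpa using PB.one
  | insert a s ha ih =>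
    rw [Finset.prod_insert ha]
    exact (h a (Finset.mem_insert_self _ _)).mul (ih fun f hf => h f (Finset.mem_insert_of_mem hf))

namespace Dat

section
variable {F k : Type} [Field F] [Finite F] [Field k] [IsAlgClosed k] [Algebra F k] {M : Type}
    [Field M] [Algebra (RatFunc k) M] [Algebra k[X] M] [IsScalarTower k[X] (RatFunc k) M] {n d0 : ℕ}
    (D : Dat F k M n d0)
include D

theorem inf_th {r : ℕ} (l : Fin r → F) (τ : Fin r → Fin n) :
    IntInf (k := k) (algebraMap (RatFunc k) M (RatFunc.X ^ d0)⁻¹ * th D.c l D.y τ) := by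
  unfold th
  rw [Finset.mul_sum]
  refine intInf_sum _ _ fun i _ => ?_
  have h1 : algebraMap (RatFunc k) M (RatFunc.X ^ d0)⁻¹ * (D.c (l i) * D.y (τ i)) =
      D.c (l i) * (algebraMap (RatFunc k) M (RatFunc.X ^ d0)⁻¹ * D.y (τ i)) := by ring
  rw [h1]
  refine IntInf.mul ?_ ?_
  · have h2 : D.c (l i) = algebraMap (RatFunc k) M (algebraMap k[X] (RatFunc k) (C (algebraMap F k (l i)))) := by
      rw [← IsScalarTower.algebraMap_apply]
      rfl
    rw [h2]
    exact intInf_of_mem (C_mem_Oinf _)
  · apply intInf_root (D.g.map (mapRingHom (algebraMap F k))) (D.monic.map _) d0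
    · intro i
      rw [coeff_map, coe_mapRingHom]
      exact natDegree_map_le.trans (D.coeff i)
    · rw [aeval_map_algebraMap]
      exact D.root _

theorem mp_PB {r : ℕ} (l : Fin r → F) (τ : Fin r → Fin n) : PB d0 (D.mp l τ) :=
  ⟨D.mp_monic l τ, fun i => minpoly_coeff_natDegree_le _ (D.int_th l τ) d0 (D.inf_th l τ) i⟩

/-- the product of the classes -/
noncomputable def Φ (D : Dat F k M n d0) {r : ℕ} (l : Fin r → F) : k[X][X] := ∏ f ∈ D.cls l, f

theorem Φ_PB {r : ℕ} (l : Fin r → F) : PB d0 (D.Φ l) := by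
  apply PB.prod
  intro f hf
  obtain ⟨τ, rfl⟩ := (D.mem_cls l f).1 hf
  exact D.mp_PB l τ

theorem Φ_map {r : ℕ} {l : Fin r → F} (hl : Function.Injective (th D.c l D.y)) :
    (D.Φ l).map (algebraMap k[X] M) = ∏ τ, (X - C (th D.c l D.y τ)) := by
  classical
  unfold Φ
  rw [Polynomial.map_prod]
  rw [← Finset.prod_fiberwise_of_maps_to (s := (Finset.univ : Finset (Fin r → Fin n))) (t := D.cls l)
    (g := D.mp l) (fun τ _ => (D.mem_cls l _).2 ⟨τ, rfl⟩)]
  refine Finset.prod_congr rfl fun f hf => ?_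
  obtain ⟨τ, rfl⟩ := (D.mem_cls l f).1 hf
  exact D.mp_prod hl τ

theorem Φ_natDegree {r : ℕ} {l : Fin r → F} (hl : Function.Injective (th D.c l D.y)) :
    (D.Φ l).natDegree = n ^ r := by
  have h := congrArg natDegree (D.Φ_map hl)
  rw [(D.Φ_PB l).1.natDegree_map, natDegree_prod_of_monic _ _ fun _ _ => monic_X_sub_C _] at h
  rw [h]
  simp

theorem Φ_fr {r : ℕ} {l : Fin r → F} (hl : Function.Injective (th D.c l D.y)) :
    (D.Φ l).map (mapRingHom (fr F k)) = D.Φ l := by
  haveI := D.faith
  apply Polynomial.map_injective (algebraMap k[X] M) (FaithfulSMul.algebraMap_injective _ _)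
  have h1 : ((D.Φ l).map (mapRingHom (fr F k))).map (algebraMap k[X] M) =
      ((D.Φ l).map (algebraMap k[X] M)).map D.Ψ := by
    rw [Polynomial.map_map, Polynomial.map_map]
    congr 1
    refine RingHom.ext fun p => ?_
    rw [RingHom.comp_apply, RingHom.comp_apply, D.semi.poly, coe_mapRingHom]
  rw [h1, D.Φ_map hl, Polynomial.map_prod]
  rw [← Equiv.prod_comp ((Equiv.refl (Fin r)).arrowCongr D.σ) (fun τ => (X - C (th D.c l D.y τ) : M[X]))]
  refine Finset.prod_congr rfl fun τ _ => ?_
  rw [Polynomial.map_sub, map_X, map_C, D.Ψth]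
  rfl

theorem exists_bez {r : ℕ} {l : Fin r → F} (hl : Function.Injective (th D.c l D.y)) (hn : 0 < n) :
    ∃ (P0 A B : F[X][X]) (E : F[X]), P0.map (mapRingHom (algebraMap F k)) = D.Φ l ∧
      A * P0 + B * derivative P0 = C E ∧ E ≠ 0 ∧ E.natDegree ≤ 2 * n ^ r * (d0 * n ^ r) := by
  haveI := D.faith
  obtain ⟨P0, hP0⟩ := descent2 F k (D.Φ l) (D.Φ_fr hl)
  have hinjF : Function.Injective (mapRingHom (algebraMap F k)) :=
    Polynomial.map_injective _ (algebraMap F k).injective
  have hm : P0.Monic := monic_of_injective hinjF (by rw [hP0]; exact (D.Φ_PB l).1)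
  have hd : P0.natDegree = n ^ r := by rw [← D.Φ_natDegree hl, ← hP0, hm.natDegree_map]
  have hc : ∀ i, (P0.coeff i).natDegree ≤ d0 * n ^ r := by
    intro i
    have h1 : (P0.coeff i).natDegree = ((D.Φ l).coeff i).natDegree := by
      rw [← hP0, coeff_map, coe_mapRingHom, natDegree_map_eq_of_injective (algebraMap F k).injective]
    rw [h1, ← D.Φ_natDegree hl]
    exact (D.Φ_PB l).2 i
  set ι : F[X] →+* M := (algebraMap k[X] M).comp (mapRingHom (algebraMap F k)) with hι
  have hιi : Function.Injective ι := (FaithfulSMul.algebraMap_injective k[X] M).comp hinjF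
  have hsep : (P0.map ι).Separable := by
    rw [hι, ← Polynomial.map_map, hP0, D.Φ_map hl]
    exact separable_prod_X_sub_C_iff.2 hl
  obtain ⟨A, B, E, hE, hE0, hEd⟩ := exists_bezout ι hιi P0 hm (by rw [hd]; exact pow_pos hn _) _ hc hsep
  refine ⟨P0, A, B, E, hP0, hE, hE0, ?_⟩
  rw [hd] at hEd
  exact hEd

/-- **Specialisation.** -/
theorem exists_spec (t0 : F) : ∃ η : Fin n → k,
    ((D.g.map (evalRingHom t0)).map (algebraMap F k) = ∏ j, (X - C (η j))) ∧
    ∀ (r : ℕ) (l : Fin r → F) (f : k[X][X]) (S : Finset (Fin r → Fin n)),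
      f.map (algebraMap k[X] M) = ∏ τ ∈ S, (X - C (th D.c l D.y τ)) →
      f.map (evalRingHom (algebraMap F k t0)) = ∏ τ ∈ S, (X - C (th (algebraMap F k) l η τ)) := by
  classical
  haveI := D.faith
  set t0k := algebraMap F k t0 with ht0k
  let B' := integralClosure k[X] M
  have hinjB : Function.Injective (algebraMap k[X] B') := by
    intro a b h
    apply FaithfulSMul.algebraMap_injective k[X] M
    rw [IsScalarTower.algebraMap_apply k[X] B' M, h, ← IsScalarTower.algebraMap_apply]
  obtain ⟨ev, hev⟩ := exists_ext' (algebraMap k[X] B') (Algebra.IsIntegral.isIntegral) (evalRingHom t0k) (by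
    intro p hp
    rw [RingHom.mem_ker] at hp ⊢
    rw [hinjB (hp.trans (map_zero _).symm), map_zero])
  let yB : Fin n → B' := fun j => ⟨D.y j, D.integral j⟩
  have hcomp : ev.comp (algebraMap k[X] B') = evalRingHom t0k := RingHom.ext hev
  have hgen : ∀ (ι : Type) (S : Finset ι) (f : k[X][X]) (z : ι → B'),
      f.map (algebraMap k[X] M) = ∏ i ∈ S, (X - C (z i : M)) →
      f.map (evalRingHom t0k) = ∏ i ∈ S, (X - C (ev (z i))) := by
    intro ι S f z h
    have h1 : f.map (algebraMap k[X] B') = ∏ i ∈ S, (X - C (z i)) := by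
      apply Polynomial.map_injective (algebraMap B' M) Subtype.val_injective
      rw [Polynomial.map_map, ← IsScalarTower.algebraMap_eq, h, Polynomial.map_prod]
      refine Finset.prod_congr rfl fun i _ => ?_
      rw [Polynomial.map_sub, map_X, map_C]
      rfl
    have h2 := congrArg (Polynomial.map ev) h1
    rw [Polynomial.map_map, hcomp, Polynomial.map_prod] at h2
    rw [h2]
    refine Finset.prod_congr rfl fun i _ => ?_
    rw [Polynomial.map_sub, map_X, map_C]
  refine ⟨fun j => ev (yB j), ?_, ?_⟩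
  · have h1 := hgen (Fin n) Finset.univ (D.g.map (mapRingHom (algebraMap F k))) yB D.gM_prod
    rw [← h1, Polynomial.map_map, Polynomial.map_map]
    congr 1
    apply Polynomial.ringHom_ext
    · intro c; simp
    · simp [t0k]
  · intro r l f S h
    let cB : F →+* B' := (algebraMap k[X] B').comp ((C : k →+* k[X]).comp (algebraMap F k))
    have hth : ∀ τ, ((th cB l yB τ : B') : M) = th D.c l D.y τ := by
      intro τ
      have := map_th cB l yB τ (algebraMap B' M)
      have h2 : algebraMap B' M (th cB l yB τ) = ((th cB l yB τ : B') : M) := rfl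
      rw [← h2, this]
      rfl
    have h3 := hgen (Fin r → Fin n) S f (fun τ => th cB l yB τ) (by
      rw [h]
      exact Finset.prod_congr rfl fun τ _ => by rw [hth])
    rw [h3]
    refine Finset.prod_congr rfl fun τ _ => ?_
    rw [map_th]
    congr 2
    unfold th
    refine Finset.sum_congr rfl fun i _ => ?_
    congr 1
    show ev (algebraMap k[X] B' (C (algebraMap F k (l i)))) = _
    rw [hev]
    simp

end

end Dat
end Pool.Agent.H470
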