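import Pool.Agent.H470.Mom4

/-!
# Moments: the fibres
-/

set_option autoImplicit false
set_option linter.all false

open Polynomial

namespace Pool.Agent.H470

section
variable {F k : Type} [Field F] [Finite F] [Field k] [IsAlgClosed k] [Algebra F k]

/-- the number of rational zeros over `t0` -/
noncomputable def Zf (F : Type) {k : Type} [Field F] [Field k] [Algebra F k] (f : k[X][X]) (t0 : F) : ℕ :=
  {x : F | (f.map (evalRingHom (algebraMap F k t0))).eval (algebraMap F k x) = 0}.ncard

/-- zeros of a product of linear factors stable under Frobenius -/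
theorem Zf_eq {ι : Type} [Fintype ι] (f : k[X][X]) (t0 : F) (S : Finset ι) (z : ι → k)
    (hz : Function.Injective z) (h : f.map (evalRingHom (algebraMap F k t0)) = ∏ i ∈ S, (X - C (z i)))
    (s : ι → ι) (hs : ∀ i, z (s i) = fr F k (z i)) [DecidableEq ι] :
    Zf F f t0 = (S.filter fun i => s i = i).card := by
  classical
  unfold Zf
  rw [← Set.ncard_image_of_injective _ (algebraMap F k).injective, ← Set.ncard_coe_finset,
    ← Set.ncard_image_of_injective _ hz]
  congr 1
  ext x
  simp only [Set.mem_image, Set.mem_setOf_eq, Finset.coe_filter]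
  constructor
  · rintro ⟨a, ha, rfl⟩
    rw [h, eval_prod, Finset.prod_eq_zero_iff] at ha
    obtain ⟨i, hi, h2⟩ := ha
    rw [eval_sub, eval_X, eval_C, sub_eq_zero] at h2
    refine ⟨i, ⟨hi, ?_⟩, h2.symm⟩
    apply hz
    rw [hs, ← h2, fr_algebraMap]
  · rintro ⟨i, ⟨hi, h2⟩, rfl⟩
    obtain ⟨a, ha⟩ := fr_fixed F k (z i) (by rw [← hs, h2])
    refine ⟨a, ?_, ha⟩
    rw [ha, h, eval_prod]
    exact Finset.prod_eq_zero hi (by simp)

end

namespace Dat

section
variable {F k : Type} [Field F] [Finite F] [Field k] [IsAlgClosed k] [Algebra F k] {M : Type}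
    [Field M] [Algebra (RatFunc k) M] [Algebra k[X] M] [IsScalarTower k[X] (RatFunc k) M] {n d0 : ℕ}
    (D : Dat F k M n d0)
include D

theorem fiber {r : ℕ} (hr : 0 < r) {l : Fin r → F} (hl : Function.Injective (th D.c l D.y))
    (P0 A B : F[X][X]) (E : F[X]) (hP0 : P0.map (mapRingHom (algebraMap F k)) = D.Φ l)
    (hE : A * P0 + B * derivative P0 = C E) (t0 : F) (ht0 : E.eval t0 ≠ 0) :
    {z : F | (D.g.map (evalRingHom t0)).eval z = 0}.ncard ^ r = ∑ f ∈ D.scls l, Zf F f t0 := by
  classical
  haveI := D.faith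
  obtain ⟨η, hη, hsp⟩ := D.exists_spec t0
  set ϑ := th (algebraMap F k) l η with hϑ
  -- injectivity
  have h1 : (D.Φ l).map (evalRingHom (algebraMap F k t0)) = ∏ τ, (X - C (ϑ τ)) :=
    hsp r l _ Finset.univ (D.Φ_map hl)
  have hcomm : ∀ P : F[X][X], (P.map (mapRingHom (algebraMap F k))).map (evalRingHom (algebraMap F k t0)) =
      (P.map (evalRingHom t0)).map (algebraMap F k) := by
    intro P
    rw [Polynomial.map_map, Polynomial.map_map]
    congr 1
    apply Polynomial.ringHom_ext
    · intro c; simp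
    · simp
  have hinj : Function.Injective ϑ := by
    rw [← separable_prod_X_sub_C_iff, ← h1, ← hP0, hcomm]
    exact (separable_of_bezout A B P0 E hE t0 ht0).map
  have hηinj : Function.Injective η := by
    intro i j hij
    have h2 : ϑ (fun _ => i) = ϑ (fun _ => j) := by
      rw [hϑ]
      unfold th
      exact Finset.sum_congr rfl fun _ _ => by rw [hij]
    exact congrFun (hinj h2) ⟨0, hr⟩
  -- the Frobenius permutation
  set gt := (D.g.map (evalRingHom t0)).map (algebraMap F k) with hgt
  have hgtm : gt.Monic := (D.monic.map _).map _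
  have hgtn : gt.natDegree = n := by
    rw [hgt, (D.monic.map _).natDegree_map, D.monic.natDegree_map, D.deg]
  obtain ⟨π, hπ⟩ := exists_perm gt hgtm hgtn η hηinj
    (by
      intro j
      rw [hη, eval_prod]
      exact Finset.prod_eq_zero (Finset.mem_univ j) (by simp))
    (fr F k) (by rw [hgt, Polynomial.map_map, fr_comp])
  have hsep : (D.g.map (evalRingHom t0)).Separable := by
    rw [← separable_map (algebraMap F k), ← hgt, hη]
    exact separable_prod_X_sub_C_iff.2 hηinj
  have hcount := count_fixed (D.g.map (evalRingHom t0)) η hη hsep π (fun j => (hπ j).symm)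
  have hϑπ : ∀ τ : Fin r → Fin n, ϑ (π ∘ τ) = fr F k (ϑ τ) := by
    intro τ
    rw [hϑ, map_th]
    unfold th
    refine Finset.sum_congr rfl fun i _ => ?_
    rw [RingHom.comp_apply, fr_algebraMap]
    exact congrArg (fun z => algebraMap F k (l i) * z) (hπ (τ i)).symm
  -- the classes
  have hcls : ∀ f ∈ D.cls l, f.map (evalRingHom (algebraMap F k t0)) =
      ∏ τ ∈ Finset.univ.filter (fun τ => D.mp l τ = f), (X - C (ϑ τ)) := by
    intro f hf
    obtain ⟨τ0, rfl⟩ := (D.mem_cls l f).1 hf
    exact hsp r l _ _ (D.mp_prod hl τ0)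
  have hZ : ∀ f ∈ D.cls l, Zf F f t0 =
      ((Finset.univ.filter (fun τ => D.mp l τ = f)).filter fun τ => π ∘ τ = τ).card := by
    intro f hf
    exact Zf_eq f t0 _ ϑ hinj (hcls f hf) (fun τ => π ∘ τ) hϑπ
  have hZ0 : ∀ f ∈ D.cls l, f ∉ D.scls l → Zf F f t0 = 0 := by
    intro f hf hns
    rw [hZ f hf, Finset.card_eq_zero, Finset.filter_eq_empty_iff]
    intro τ hτ hfix
    rw [Finset.mem_filter] at hτ
    apply hns
    rw [D.mem_scls]
    refine ⟨⟨τ, hτ.2⟩, ?_⟩
    have hff : f.map (mapRingHom (fr F k)) ∈ D.cls l := by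
      rw [← hτ.2, D.mp_fr]
      exact (D.mem_cls l _).2 ⟨_, rfl⟩
    have h3 := hcls _ hff
    -- the root
    have h4 : (f.map (evalRingHom (algebraMap F k t0))).eval (ϑ τ) = 0 := by
      rw [hcls f hf, eval_prod]
      exact Finset.prod_eq_zero (i := τ) (by simp [hτ.2]) (by simp)
    have h5 : ((f.map (mapRingHom (fr F k))).map (evalRingHom (algebraMap F k t0))).eval (ϑ τ) = 0 := by
      have h6 : (f.map (mapRingHom (fr F k))).map (evalRingHom (algebraMap F k t0)) =
          (f.map (evalRingHom (algebraMap F k t0))).map (fr F k) := by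
        rw [Polynomial.map_map, Polynomial.map_map]
        congr 1
        apply Polynomial.ringHom_ext
        · intro c; simp
        · simp [fr_algebraMap]
      have h7 : ϑ τ = fr F k (ϑ τ) := by rw [← hϑπ, hfix]
      rw [h6, h7, eval_map_apply, h4, map_zero]
    rw [h3, eval_prod, Finset.prod_eq_zero_iff] at h5
    obtain ⟨τ', hτ', h8⟩ := h5
    rw [eval_sub, eval_X, eval_C, sub_eq_zero] at h8
    have h9 := hinj h8
    rw [Finset.mem_filter, ← h9, hτ.2] at hτ'
    exact hτ'.2.symm
  have hsum : ∑ f ∈ D.scls l, Zf F f t0 = ∑ f ∈ D.cls l, Zf F f t0 := by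
    refine Finset.sum_subset ?_ ?_
    · intro f hf
      exact (D.mem_cls l f).2 ((D.mem_scls l f).1 hf).1
    · intro f hf hns
      exact hZ0 f hf hns
  rw [hsum, Finset.sum_congr rfl hZ]
  have h10 : ∀ f, ((Finset.univ.filter (fun τ => D.mp l τ = f)).filter fun τ => π ∘ τ = τ) =
      (Finset.univ.filter fun τ => π ∘ τ = τ).filter (fun τ => D.mp l τ = f) := by
    intro f
    rw [Finset.filter_filter, Finset.filter_filter]
    congr 1
    ext τ
    exact and_comm
  simp only [h10]
  rw [← Finset.card_eq_sum_card_fiberwise (f := D.mp l) (t := D.cls l)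
    (fun τ _ => (D.mem_cls l _).2 ⟨τ, rfl⟩)]
  rw [hcount]
  have h11 : {j | π j = j}.ncard = (Finset.univ.filter fun j => π j = j).card := by
    rw [← Set.ncard_coe_finset]
    congr 1
    ext j
    simp
  rw [h11, ← Fintype.card_piFinset_const]
  congr 1
  ext τ
  simp only [Fintype.mem_piFinset, Finset.mem_filter, Finset.mem_univ, true_and]
  exact ⟨fun h => funext h, fun h i => congrFun h i⟩

end

end Dat
end Pool.Agent.H470
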