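import Pool.Agent.H470.MomI2

/-!
# Moments: the average over a coset
-/

set_option autoImplicit false
set_option linter.all false

open Polynomial

namespace Pool.Agent.H470
namespace DatI

section
variable {F k : Type} [Field F] [Finite F] [Field k] [IsAlgClosed k] [Algebra F k] {M : Type}
    [Field M] [Algebra (RatFunc k) M] [Algebra k[X] M] [IsScalarTower k[X] (RatFunc k) M] {n d0 : ℕ}
    (D : DatI F k M n d0)
include D

/-- the Galois group -/
abbrev Ga (D : DatI F k M n d0) : Type := NN k D.y ≃ₐ[RatFunc k] NN k D.y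

noncomputable instance ftGa : Fintype D.Ga := by
  haveI := D.finD
  exact inferInstanceAs (Fintype (NN k D.y ≃ₐ[RatFunc k] NN k D.y))

/-- the number of fixed points on the coset -/
noncomputable def phi (D : DatI F k M n d0) (ρ : D.Ga) : ℕ :=
  (Finset.univ.filter fun j => D.σ (D.pm ρ j) = j).card

theorem pm_one (j : Fin n) : D.pm 1 j = j := by
  have h := D.hpm 1 j
  rw [AlgEquiv.one_apply] at h
  exact (D.inj (congrArg Subtype.val h)).symm

theorem phi_one [DecidableEq M] : D.phi 1 = (Finset.univ.filter fun j => D.Ψ (D.y j) = D.y j).card := by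
  unfold phi
  congr 1
  ext j
  simp only [Finset.mem_filter, Finset.mem_univ, true_and]
  rw [D.pm_one, D.σ_fix]

theorem phi_le (ρ : D.Ga) : D.phi ρ ≤ n := by
  unfold phi
  refine (Finset.card_filter_le _ _).trans ?_
  simp

theorem phi_pow (ρ : D.Ga) {r : ℕ} {l : Fin r → F} (hl : Function.Injective (th D.c l D.y))
    [DecidablePred fun τ : Fin r → Fin n => ρ (D.thN l τ) = D.thN l (D.σ.symm ∘ τ)] :
    D.phi ρ ^ r = (Finset.univ.filter fun τ : Fin r → Fin n =>
      ρ (D.thN l τ) = D.thN l (D.σ.symm ∘ τ)).card := by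
  classical
  unfold phi
  rw [← Fintype.card_piFinset_const]
  congr 1
  ext τ
  simp only [Fintype.mem_piFinset, Finset.mem_filter, Finset.mem_univ, true_and]
  rw [D.ρth, (D.thN_inj hl).eq_iff, funext_iff]
  refine forall_congr' fun i => ?_
  simp only [Function.comp_apply]
  rw [Equiv.eq_symm_apply]

/-- the number of elements moving one combination to another -/
noncomputable def mv (D : DatI F k M n d0) {r : ℕ} (l : Fin r → F) (τ τ' : Fin r → Fin n) : ℕ := by
  classical
  exact (Finset.univ.filter fun ρ : D.Ga => ρ (D.thN l τ) = D.thN l τ').card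

theorem mv_zero {r : ℕ} (l : Fin r → F) (τ τ' : Fin r → Fin n) (h : D.mp l τ ≠ D.mp l τ') :
    D.mv l τ τ' = 0 := by
  classical
  unfold mv
  rw [Finset.card_eq_zero, Finset.filter_eq_empty_iff]
  intro ρ _ hρ
  exact h ((D.mp_eq_iff l τ τ').2 ⟨ρ, hρ⟩)

theorem mv_eq {r : ℕ} (l : Fin r → F) (τ τ' : Fin r → Fin n) (h : D.mp l τ = D.mp l τ') :
    D.mv l τ τ' = D.mv l τ τ := by
  classical
  obtain ⟨ρ0, h0⟩ := (D.mp_eq_iff l τ τ').1 h
  unfold mv
  refine Finset.card_bij' (fun ρ _ => ρ0⁻¹ * ρ) (fun ρ _ => ρ0 * ρ) ?_ ?_ ?_ ?_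
  · intro ρ hρ
    rw [Finset.mem_filter] at hρ ⊢
    refine ⟨Finset.mem_univ _, ?_⟩
    rw [AlgEquiv.mul_apply, hρ.2, ← h0, ← AlgEquiv.mul_apply, inv_mul_cancel, AlgEquiv.one_apply]
  · intro ρ hρ
    rw [Finset.mem_filter] at hρ ⊢
    refine ⟨Finset.mem_univ _, ?_⟩
    rw [AlgEquiv.mul_apply, hρ.2, h0]
  · intro ρ _
    rw [← mul_assoc, mul_inv_cancel, one_mul]
  · intro ρ _
    rw [← mul_assoc, inv_mul_cancel, one_mul]

theorem mv_sum {r : ℕ} {l : Fin r → F} (hl : Function.Injective (th D.c l D.y)) (τ : Fin r → Fin n) :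
    ∑ τ', D.mv l τ τ' = Fintype.card D.Ga := by
  classical
  have h0 := Finset.card_eq_sum_card_fiberwise (s := (Finset.univ : Finset D.Ga))
    (f := fun ρ : D.Ga => (D.pm ρ ∘ τ : Fin r → Fin n)) (t := Finset.univ) (by intro x _; simp)
  rw [← Finset.card_univ, h0]
  refine Finset.sum_congr rfl fun τ' _ => ?_
  unfold mv
  congr 1
  ext ρ
  simp only [Finset.mem_filter, Finset.mem_univ, true_and]
  rw [D.ρth, (D.thN_inj hl).eq_iff]

theorem mv_card {r : ℕ} {l : Fin r → F} (hl : Function.Injective (th D.c l D.y)) (τ : Fin r → Fin n)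
    [DecidablePred fun τ' => D.mp l τ' = D.mp l τ] :
    (Finset.univ.filter (fun τ' => D.mp l τ' = D.mp l τ)).card * D.mv l τ τ = Fintype.card D.Ga := by
  classical
  rw [← D.mv_sum hl τ]
  rw [← Finset.sum_filter_add_sum_filter_not Finset.univ (fun τ' => D.mp l τ' = D.mp l τ)]
  rw [Finset.sum_congr rfl (fun τ' hτ' => D.mv_eq l τ τ' (Finset.mem_filter.1 hτ').2.symm)]
  rw [Finset.sum_eq_zero (s := Finset.univ.filter fun τ' => ¬ D.mp l τ' = D.mp l τ)
    (fun τ' hτ' => D.mv_zero l τ τ' (fun h => (Finset.mem_filter.1 hτ').2 h.symm))]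
  rw [Finset.sum_const, smul_eq_mul, add_zero]

theorem stable_iff {r : ℕ} (l : Fin r → F) (τ : Fin r → Fin n) :
    D.mp l τ = D.mp l (D.σ.symm ∘ τ) ↔ (D.mp l τ).map (mapRingHom (fr F k)) = D.mp l τ := by
  have h : (D.mp l (D.σ.symm ∘ τ)).map (mapRingHom (fr F k)) = D.mp l τ := by
    rw [D.mp_fr]
    congr 1
    ext i
    simp
  constructor
  · intro h1
    rw [← h1] at h
    exact h
  · intro h1
    apply Polynomial.map_injective (mapRingHom (fr F k))
      (Polynomial.map_injective _ (fr F k).injective)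
    rw [h1, h]

/-- the classes -/
noncomputable def cls (D : DatI F k M n d0) {r : ℕ} (l : Fin r → F) : Finset k[X][X] := by
  classical
  exact Finset.univ.image (D.mp l)

/-- the stable classes -/
noncomputable def scls (D : DatI F k M n d0) {r : ℕ} (l : Fin r → F) : Finset k[X][X] := by
  classical
  exact (D.cls l).filter fun f => f.map (mapRingHom (fr F k)) = f

theorem mem_cls {r : ℕ} (l : Fin r → F) (f : k[X][X]) : f ∈ D.cls l ↔ ∃ τ, D.mp l τ = f := by
  classical
  unfold cls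
  simp

theorem mem_scls {r : ℕ} (l : Fin r → F) (f : k[X][X]) :
    f ∈ D.scls l ↔ (∃ τ, D.mp l τ = f) ∧ f.map (mapRingHom (fr F k)) = f := by
  classical
  unfold scls
  rw [Finset.mem_filter, D.mem_cls]

/-- **Burnside's lemma on the coset.** -/
theorem burn {r : ℕ} {l : Fin r → F} (hl : Function.Injective (th D.c l D.y)) :
    ∑ ρ : D.Ga, D.phi ρ ^ r = Fintype.card D.Ga * (D.scls l).card := by
  classical
  have h1 : ∀ ρ : D.Ga, D.phi ρ ^ r = ∑ τ : Fin r → Fin n,
      if ρ (D.thN l τ) = D.thN l (D.σ.symm ∘ τ) then 1 else 0 := by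
    intro ρ
    rw [D.phi_pow ρ hl, Finset.card_filter]
  rw [Finset.sum_congr rfl fun ρ _ => h1 ρ, Finset.sum_comm]
  have h2 : ∀ τ : Fin r → Fin n, (∑ ρ : D.Ga, if ρ (D.thN l τ) = D.thN l (D.σ.symm ∘ τ) then 1 else 0) =
      if D.mp l τ ∈ D.scls l then D.mv l τ τ else 0 := by
    intro τ
    rw [← Finset.card_filter]
    have h3 : (Finset.univ.filter fun ρ : D.Ga => ρ (D.thN l τ) = D.thN l (D.σ.symm ∘ τ)).card =
        D.mv l τ (D.σ.symm ∘ τ) := rfl
    rw [h3]
    split_ifs with h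
    · rw [D.mem_scls, ← D.stable_iff] at h
      exact D.mv_eq l _ _ h.2
    · apply D.mv_zero
      intro h4
      apply h
      rw [D.mem_scls, ← D.stable_iff]
      exact ⟨⟨τ, rfl⟩, h4⟩
  rw [Finset.sum_congr rfl fun τ _ => h2 τ, ← Finset.sum_filter]
  rw [← Finset.sum_fiberwise_of_maps_to (t := D.scls l) (g := D.mp l)
    (fun τ hτ => (Finset.mem_filter.1 hτ).2)]
  have h5 : ∀ f ∈ D.scls l, ∑ τ ∈ (Finset.univ.filter fun τ => D.mp l τ ∈ D.scls l).filter
      (fun τ => D.mp l τ = f), D.mv l τ τ = Fintype.card D.Ga := by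
    intro f hf
    obtain ⟨⟨τ0, rfl⟩, -⟩ := (D.mem_scls l f).1 hf
    have h6 : (Finset.univ.filter fun τ => D.mp l τ ∈ D.scls l).filter (fun τ => D.mp l τ = D.mp l τ0) =
        Finset.univ.filter fun τ => D.mp l τ = D.mp l τ0 := by
      ext τ
      simp only [Finset.mem_filter, Finset.mem_univ, true_and]
      exact ⟨fun h => h.2, fun h => ⟨by rw [h]; exact hf, h⟩⟩
    rw [h6]
    have h7 := D.mv_card hl τ0
    have hpos : 0 < (Finset.univ.filter (fun τ' => D.mp l τ' = D.mp l τ0)).card :=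
      Finset.card_pos.2 ⟨τ0, by simp⟩
    have h8 : ∀ τ ∈ Finset.univ.filter (fun τ => D.mp l τ = D.mp l τ0), D.mv l τ τ = D.mv l τ0 τ0 := by
      intro τ hτ
      have h9 := (Finset.mem_filter.1 hτ).2
      have h10 := D.mv_card hl τ
      rw [h9, ← h7] at h10
      exact Nat.eq_of_mul_eq_mul_left hpos h10
    rw [Finset.sum_congr rfl h8, Finset.sum_const, smul_eq_mul, h7]
  rw [Finset.sum_congr rfl h5, Finset.sum_const, smul_eq_mul, mul_comm]

end

end DatI
end Pool.Agent.H470
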