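import Pool.Agent.H470.MomI5
import Pool.Agent.H470.Mom6
import Pool.Agent.R410.PW.Weil

/-!
# Moments: the count
-/

set_option autoImplicit false
set_option linter.all false

open Polynomial

namespace Pool.Agent.H470

namespace DatI

section
variable {F k : Type} [Field F] [Fintype F] [DecidableEq F] [Field k] [IsAlgClosed k] [Algebra F k]
    [Algebra.IsAlgebraic F k] {M : Type}
    [Field M] [Algebra (RatFunc k) M] [Algebra k[X] M] [IsScalarTower k[X] (RatFunc k) M] {n : ℕ}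
    (D : DatI F k M n 1)
include D

theorem one_class {r : ℕ} {l : Fin r → F} (f : k[X][X]) (hf : f ∈ D.scls l) (Bad : Finset F) :
    |((∑ t ∈ Finset.univ \ Bad, Zf F f t : ℕ) : ℝ) - Fintype.card F| ≤
      (9 * (f.natDegree : ℝ) ^ 4) * √(Fintype.card F : ℝ) + Bad.card * f.natDegree := by
  classical
  haveI := D.faith
  obtain ⟨⟨τ, hτ⟩, hfr⟩ := (D.mem_scls l f).1 hf
  obtain ⟨f0, hf0⟩ := descent2 F k f hfr
  have hinjF : Function.Injective (mapRingHom (algebraMap F k)) :=
    Polynomial.map_injective _ (algebraMap F k).injective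
  have hPB := D.mp_PB l τ
  rw [hτ] at hPB
  have hfm : f.Monic := hPB.1
  have hf0m : f0.Monic := monic_of_injective hinjF (by rw [hf0]; exact hfm)
  have hf0n : f0.natDegree = f.natDegree := by rw [← hf0, hf0m.natDegree_map]
  have hirr : Irreducible f := by rw [← hτ]; exact D.mp_irr l τ
  have hpos : 0 < f.natDegree := by
    rw [← hτ]
    exact minpoly.natDegree_pos (D.int_th l τ)
  have hf0c : ∀ i, (f0.coeff i).natDegree ≤ 1 * f0.natDegree := by
    intro i
    have h1 : (f0.coeff i).natDegree = (f.coeff i).natDegree := by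
      rw [← hf0, coeff_map, coe_mapRingHom, natDegree_map_eq_of_injective (algebraMap F k).injective]
    rw [h1, hf0n]
    exact hPB.2 i
  -- separability
  set ι : F[X] →+* RatFunc k := (algebraMap k[X] (RatFunc k)).comp (mapRingHom (algebraMap F k)) with hι
  have hιi : Function.Injective ι :=
    (IsFractionRing.injective k[X] (RatFunc k)).comp hinjF
  have hf0sep : (f0.map ι).Separable := by
    haveI := D.isG
    rw [hι, ← Polynomial.map_map, hf0, ← hτ, ← D.mpK]
    exact Algebra.IsSeparable.isSeparable _ _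
  obtain ⟨A, B, E, hE, hE0, hEd⟩ := exists_bezout ι hιi f0 hf0m (by rw [hf0n]; exact hpos) _ hf0c hf0sep
  have hweil := R410.PW.weil (F := F) k hf0m (by rw [hf0n]; exact hpos) hE hE0 hEd hf0c
    (by rw [hf0]; exact hirr)
  have hWC : ((R410.PW.WC f0.natDegree (1 * f0.natDegree) (2 * f0.natDegree * (1 * f0.natDegree)) : ℕ) : ℝ) ≤
      9 * (f.natDegree : ℝ) ^ 4 := by
    rw [hf0n]
    exact_mod_cast WC_le f.natDegree hpos
  -- the fibres
  have hev : ∀ t x : F, (f.map (evalRingHom (algebraMap F k t))).eval (algebraMap F k x) =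
      algebraMap F k (evalEval t x f0) := by
    intro t x
    have h1 := ev2_map (k := k) t x f0
    rw [← ev2_apply, ← h1, hf0, map_evalRingHom_eval]
    rfl
  have hZ : ∀ t : F, Zf F f t = (Finset.univ.filter fun z : F × F => evalEval z.1 z.2 f0 = 0 ∧ z.1 = t).card := by
    intro t
    unfold Zf
    have h1 : {x : F | (f.map (evalRingHom (algebraMap F k t))).eval (algebraMap F k x) = 0} =
        {x : F | evalEval t x f0 = 0} := by
      ext x
      simp only [Set.mem_setOf_eq]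
      rw [hev, map_eq_zero_iff _ (algebraMap F k).injective]
    rw [h1, ← Set.ncard_coe_finset]
    rw [← Set.ncard_image_of_injective {x : F | evalEval t x f0 = 0}
      (f := fun x => (t, x)) (fun a b h => (Prod.ext_iff.1 h).2)]
    congr 1
    ext ⟨u, x⟩
    simp only [Set.mem_image, Set.mem_setOf_eq, Finset.coe_filter, Finset.mem_univ, true_and, Prod.mk.injEq]
    constructor
    · rintro ⟨x', h2, h3, h4⟩
      subst h3 h4
      exact ⟨h2, rfl⟩
    · rintro ⟨h2, h3⟩
      subst h3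
      exact ⟨x, h2, rfl, rfl⟩
  have htot : ∑ t : F, Zf F f t = {z : F × F | evalEval z.1 z.2 f0 = 0}.ncard := by
    have h1 : {z : F × F | evalEval z.1 z.2 f0 = 0}.ncard =
        (Finset.univ.filter fun z : F × F => evalEval z.1 z.2 f0 = 0).card := by
      rw [← Set.ncard_coe_finset]
      congr 1
      ext z
      simp
    rw [h1, Finset.card_eq_sum_card_fiberwise (f := Prod.fst) (t := Finset.univ) (by intro x _; simp)]
    refine Finset.sum_congr rfl fun t _ => ?_
    rw [hZ, Finset.filter_filter]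
  have hZle : ∀ t : F, Zf F f t ≤ f.natDegree := by
    intro t
    unfold Zf
    have h1 : {x : F | (f.map (evalRingHom (algebraMap F k t))).eval (algebraMap F k x) = 0} ⊆
        (((f0.map (evalRingHom t)).roots.toFinset : Finset F) : Set F) := by
      intro x hx
      simp only [Set.mem_setOf_eq] at hx
      rw [hev, map_eq_zero_iff _ (algebraMap F k).injective] at hx
      simp only [Finset.mem_coe, Multiset.mem_toFinset]
      rw [mem_roots (hf0m.map _).ne_zero, IsRoot.def, map_evalRingHom_eval]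
      exact hx
    refine (Set.ncard_le_ncard h1 (Finset.finite_toSet _)).trans ?_
    rw [Set.ncard_coe_finset]
    refine (Multiset.toFinset_card_le _).trans ((card_roots' _).trans ?_)
    rw [hf0m.natDegree_map, hf0n]
  have hsplit : (∑ t ∈ Finset.univ \ Bad, Zf F f t) + ∑ t ∈ Bad, Zf F f t = ∑ t : F, Zf F f t :=
    Finset.sum_sdiff (Finset.subset_univ Bad)
  have hbad : ∑ t ∈ Bad, Zf F f t ≤ Bad.card * f.natDegree := by
    refine (Finset.sum_le_card_nsmul _ _ _ fun t _ => hZle t).trans ?_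
    rw [smul_eq_mul]
  rw [htot] at hsplit
  have h5 : ((∑ t ∈ Finset.univ \ Bad, Zf F f t : ℕ) : ℝ) + ((∑ t ∈ Bad, Zf F f t : ℕ) : ℝ) =
      (({z : F × F | evalEval z.1 z.2 f0 = 0}.ncard : ℕ) : ℝ) := by exact_mod_cast hsplit
  have h6 : ((∑ t ∈ Bad, Zf F f t : ℕ) : ℝ) ≤ Bad.card * f.natDegree := by exact_mod_cast hbad
  have h7 : (0 : ℝ) ≤ ((∑ t ∈ Bad, Zf F f t : ℕ) : ℝ) := Nat.cast_nonneg _
  rw [Nat.card_eq_fintype_card] at hweil
  have h8 := abs_le.1 (hweil.trans (mul_le_mul_of_nonneg_right hWC (Real.sqrt_nonneg _)))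
  rw [abs_le]
  have h9 : (0 : ℝ) ≤ (Bad.card : ℝ) * f.natDegree := by positivity
  constructor <;> linarith [h8.1, h8.2]

theorem sum_deg {r : ℕ} {l : Fin r → F} (hl : Function.Injective (th D.c l D.y)) :
    ∑ f ∈ D.scls l, f.natDegree ≤ n ^ r := by
  classical
  rw [← D.Φ_natDegree hl]
  unfold Φ
  rw [natDegree_prod_of_monic _ _ (fun f hf => by
    obtain ⟨τ, rfl⟩ := (D.mem_cls l f).1 hf
    exact D.mp_monic l τ)]
  refine Finset.sum_le_sum_of_subset ?_
  intro f hf
  exact (D.mem_cls l f).2 ((D.mem_scls l f).1 hf).1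

/-- **The moments of the number of roots.** -/
theorem moment {r : ℕ} (hr : 0 < r) (hn : 0 < n) (hq : (n ^ r) ^ 2 < Fintype.card F) :
    ∃ (c : ℕ) (E : F[X]), E ≠ 0 ∧ E.natDegree ≤ 2 * n ^ (2 * r) ∧
      (∑ ρ : D.Ga, D.phi ρ ^ r = Fintype.card D.Ga * c) ∧
      ∀ Bad : Finset F, (∀ t ∉ Bad, E.eval t ≠ 0) →
        |(∑ t ∈ Finset.univ \ Bad, ({z : F | (D.g.map (evalRingHom t)).eval z = 0}.ncard : ℝ) ^ r) -
          c * Fintype.card F| ≤
        (9 * (n : ℝ) ^ (4 * r)) * √(Fintype.card F : ℝ) + Bad.card * (n : ℝ) ^ r := by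
  classical
  obtain ⟨l, hl⟩ := exists_l D.c D.y D.inj (r := r) (by rw [Nat.card_eq_fintype_card]; exact hq)
  obtain ⟨P0, A, B, E, hP0, hE, hE0, hEd⟩ := D.exists_bez hl hn
  refine ⟨(D.scls l).card, E, hE0, ?_, D.burn hl, ?_⟩
  · refine hEd.trans (le_of_eq ?_)
    ring
  intro Bad hBad
  have h1 : ∀ t ∈ Finset.univ \ Bad, ({z : F | (D.g.map (evalRingHom t)).eval z = 0}.ncard : ℝ) ^ r =
      ((∑ f ∈ D.scls l, Zf F f t : ℕ) : ℝ) := by
    intro t ht
    rw [Finset.mem_sdiff] at ht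
    rw [← D.fiber hr hl P0 A B E hP0 hE t (hBad t ht.2)]
    push_cast
    rfl
  rw [Finset.sum_congr rfl h1]
  have h2 : ∑ t ∈ Finset.univ \ Bad, ((∑ f ∈ D.scls l, Zf F f t : ℕ) : ℝ) =
      ∑ f ∈ D.scls l, ((∑ t ∈ Finset.univ \ Bad, Zf F f t : ℕ) : ℝ) := by
    push_cast
    rw [Finset.sum_comm]
  rw [h2]
  have h3 : ((D.scls l).card : ℝ) * Fintype.card F = ∑ f ∈ D.scls l, (Fintype.card F : ℝ) := by
    rw [Finset.sum_const, nsmul_eq_mul]
  rw [h3, ← Finset.sum_sub_distrib]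
  refine (Finset.abs_sum_le_sum_abs _ _).trans ((Finset.sum_le_sum fun f hf => D.one_class f hf Bad).trans ?_)
  rw [Finset.sum_add_distrib, ← Finset.sum_mul, ← Finset.mul_sum, ← Finset.mul_sum]
  have h4 : (∑ f ∈ D.scls l, (f.natDegree : ℝ)) ≤ (n : ℝ) ^ r := by exact_mod_cast D.sum_deg hl
  have h5 : ∑ f ∈ D.scls l, (f.natDegree : ℝ) ^ 4 ≤ (n : ℝ) ^ (4 * r) := by
    have h6 : ∀ f ∈ D.scls l, (f.natDegree : ℝ) ≤ (n : ℝ) ^ r := by
      intro f hf
      refine le_trans ?_ h4
      exact Finset.single_le_sum (f := fun f : k[X][X] => (f.natDegree : ℝ)) (fun _ _ => Nat.cast_nonneg _) hf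
    calc ∑ f ∈ D.scls l, (f.natDegree : ℝ) ^ 4
        ≤ ∑ f ∈ D.scls l, ((n : ℝ) ^ r) ^ 3 * (f.natDegree : ℝ) := by
          refine Finset.sum_le_sum fun f hf => ?_
          rw [pow_succ]
          exact mul_le_mul_of_nonneg_right (pow_le_pow_left₀ (Nat.cast_nonneg _) (h6 f hf) 3)
            (Nat.cast_nonneg _)
      _ = ((n : ℝ) ^ r) ^ 3 * ∑ f ∈ D.scls l, (f.natDegree : ℝ) := by rw [Finset.mul_sum]
      _ ≤ ((n : ℝ) ^ r) ^ 3 * (n : ℝ) ^ r := mul_le_mul_of_nonneg_left h4 (by positivity)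
      _ = (n : ℝ) ^ (4 * r) := by rw [← pow_succ, ← pow_mul, mul_comm]
  have h7 : 0 ≤ √(Fintype.card F : ℝ) := Real.sqrt_nonneg _
  refine add_le_add ?_ ?_
  · exact mul_le_mul_of_nonneg_right (mul_le_mul_of_nonneg_left h5 (by norm_num)) h7
  · exact mul_le_mul_of_nonneg_left h4 (Nat.cast_nonneg _)

end

end DatI
end Pool.Agent.H470
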