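import Pool.Agent.H470.Reduce3

/-!
# Negative rational exponents: the place at infinity
-/

set_option autoImplicit false
set_option linter.all false

open Polynomial

namespace Pool.Agent.H470

noncomputable def jA (K : Type*) [Field K] (n : ℕ) : K[X] := X ^ n * (X - C 1) ^ n

noncomputable def jB (K : Type*) [Field K] (m d : ℕ) : K[X] := -(dP K m ^ d * dP K d ^ m)

section
variable {K : Type*} [Field K]

theorem jA_monic (n : ℕ) : (jA K n).Monic := (monic_X_pow n).mul ((monic_X_sub_C 1).pow n)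

theorem jA_natDegree (n : ℕ) : (jA K n).natDegree = 2 * n := by
  unfold jA
  rw [(monic_X_pow n).natDegree_mul ((monic_X_sub_C 1).pow n), natDegree_X_pow,
    (monic_X_sub_C (1 : K)).natDegree_pow, natDegree_X_sub_C]
  ring

theorem jA_map {K' : Type*} [Field K'] (f : K →+* K') (n : ℕ) : (jA K n).map f = jA K' n := by
  simp [jA]

theorem jB_map {K' : Type*} [Field K'] (f : K →+* K') (m d : ℕ) : (jB K m d).map f = jB K' m d := by
  simp [jB, dP_map]

theorem jB_lt (m d : ℕ) (hm : Odd m) (hd : Odd d) : (jB K m d).degree < (jA K (m * d)).degree := by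
  rw [degree_eq_natDegree (jA_monic (K := K) (m * d)).ne_zero, jA_natDegree]
  refine lt_of_le_of_lt degree_le_natDegree ?_
  rw [Nat.cast_lt]
  unfold jB
  rw [natDegree_neg]
  refine lt_of_le_of_lt natDegree_mul_le ?_
  have h1 : (dP K m ^ d).natDegree ≤ d * (m - 1) :=
    natDegree_pow_le.trans (Nat.mul_le_mul_left _ (dP_natDegree_le hm))
  have h2 : (dP K d ^ m).natDegree ≤ m * (d - 1) :=
    natDegree_pow_le.trans (Nat.mul_le_mul_left _ (dP_natDegree_le hd))
  obtain ⟨a, rfl⟩ : ∃ a, m = a + 1 := ⟨m - 1, by have := hm.pos; omega⟩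
  obtain ⟨b, rfl⟩ : ∃ b, d = b + 1 := ⟨d - 1, by have := hd.pos; omega⟩
  rw [Nat.add_sub_cancel] at h1 h2
  nlinarith

theorem jA_root (n : ℕ) (hn : 0 < n) (y : K) : (jA K n).IsRoot y ↔ y = 0 ∨ y = 1 := by
  unfold jA
  rw [IsRoot.def, eval_mul, eval_pow, eval_pow, eval_X, eval_sub, eval_X, eval_C, mul_eq_zero,
    pow_eq_zero_iff hn.ne', pow_eq_zero_iff hn.ne', sub_eq_zero]

theorem mult_of_fac (P Q : K[X]) (y : K) (n : ℕ) (h : P = (X - C y) ^ n * Q) (hQ : Q.eval y ≠ 0) :
    P.rootMultiplicity y = n ∧ cof P y = Q.eval y := by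
  have hQ0 : Q ≠ 0 := by
    rintro rfl
    exact hQ eval_zero
  have hm : P.rootMultiplicity y = n := by
    rw [h, mul_comm, rootMultiplicity_mul_X_sub_C_pow hQ0, rootMultiplicity_eq_zero hQ, zero_add]
  refine ⟨hm, ?_⟩
  unfold cof
  rw [hm, h, mul_divByMonic_cancel_left _ ((monic_X_sub_C _).pow _)]

theorem jA_zero (n : ℕ) : (jA K n).rootMultiplicity 0 = n ∧ cof (jA K n) 0 = (-1) ^ n := by
  have h := mult_of_fac (jA K n) ((X - C 1) ^ n) 0 n (by unfold jA; rw [C_0, sub_zero])
    (by rw [eval_pow, eval_sub, eval_X, eval_C, zero_sub]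
        exact pow_ne_zero _ (neg_ne_zero.2 one_ne_zero))
  rw [eval_pow, eval_sub, eval_X, eval_C, zero_sub] at h
  exact h

theorem jA_one (n : ℕ) : (jA K n).rootMultiplicity 1 = n ∧ cof (jA K n) 1 = 1 := by
  have h := mult_of_fac (jA K n) (X ^ n) 1 n (by unfold jA; rw [mul_comm])
    (by rw [eval_pow, eval_X]
        exact pow_ne_zero _ one_ne_zero)
  rw [eval_pow, eval_X, one_pow] at h
  exact h

theorem jB_zero (m d : ℕ) (hm : 0 < m) (hd : 0 < d) : (jB K m d).eval 0 = -1 := by
  unfold jB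
  rw [eval_neg, eval_mul, eval_pow, eval_pow, dP_eval, dP_eval, zero_pow hm.ne', zero_pow hd.ne']
  simp

theorem jB_one (m d : ℕ) (hm : 0 < m) (hd : 0 < d) : (jB K m d).eval 1 = -1 := by
  unfold jB
  rw [eval_neg, eval_mul, eval_pow, eval_pow, dP_eval, dP_eval, sub_self, zero_pow hm.ne',
    zero_pow hd.ne']
  simp

end

section
variable {F : Type} [Field F] [Fintype F] [DecidableEq F]

theorem j_tame (m d : ℕ) (hm : Odd m) (hd : Odd d) (hmF : (m : F) ≠ 0) (hdF : (d : F) ≠ 0) :
    TamePlace F (2 * (m * d)) (m * d) (jA F (m * d)) (jB F m d) 0 := by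
  have hmd : 0 < m * d := Nat.mul_pos hm.pos hd.pos
  have hP : ((jA F (m * d) - C 0 * jB F m d).map (algebraMap F (AlgebraicClosure F))) =
      jA (AlgebraicClosure F) (m * d) := by
    rw [C_0, zero_mul, sub_zero, jA_map]
  refine ⟨jA_monic _, jA_natDegree _, jB_lt m d hm hd, ?_, ?_, ?_⟩
  · intro y hy
    rw [hP, jA_root _ hmd] at hy
    rw [jB_map]
    rcases hy with rfl | rfl
    · rw [jB_zero m d hm.pos hd.pos]
      exact neg_ne_zero.2 one_ne_zero
    · rw [jB_one m d hm.pos hd.pos]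
      exact neg_ne_zero.2 one_ne_zero
  · intro y hy
    rw [hP, jA_root _ hmd] at hy
    rw [hP]
    have h : ((m * d : ℕ) : AlgebraicClosure F) ≠ 0 := by
      have h1 : ((m * d : ℕ) : AlgebraicClosure F) = algebraMap F _ ((m : F) * (d : F)) := by
        push_cast
        simp
      rw [h1]
      exact (map_ne_zero_iff _ (algebraMap F (AlgebraicClosure F)).injective).2 (mul_ne_zero hmF hdF)
    rcases hy with rfl | rfl
    · rw [(jA_zero _).1]
      exact h
    · rw [(jA_one _).1]
      exact h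
  · intro y hy
    rw [hP, jA_root _ hmd] at hy
    rw [hP]
    rcases hy with rfl | rfl
    · rw [(jA_zero _).1]
    · rw [(jA_one _).1]

theorem FixN_j (m d : ℕ) (hm : Odd m) (hd : Odd d) (hcm : Nat.Coprime m (Fintype.card F - 1))
    (hcd : Nat.Coprime d (Fintype.card F - 1)) (c : F) :
    FixN (jA F (m * d) - C 0 * jB F m d) (jB F m d) c = 2 := by
  classical
  have hmd : 0 < m * d := Nat.mul_pos hm.pos hd.pos
  have hcop : Nat.Coprime (m * d) (Fintype.card F - 1) := Nat.Coprime.mul_left hcm hcd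
  have hodd : Odd (m * d) := hm.mul hd
  have hP : (jA F (m * d) - C 0 * jB F m d) = jA F (m * d) := by rw [C_0, zero_mul, sub_zero]
  unfold FixN
  rw [hP]
  have h1 := card_pow_mul (m * d) hmd hcop (1 : F) c one_ne_zero
  have h2 := card_pow_mul (m * d) hmd hcop (1 : F) (-c) one_ne_zero
  obtain ⟨w0, hw0⟩ := Finset.card_eq_one.1 h1
  obtain ⟨w1, hw1⟩ := Finset.card_eq_one.1 h2
  have hset : {z : F × F | (jA F (m * d)).IsRoot z.1 ∧
      z.2 ^ (jA F (m * d)).rootMultiplicity z.1 * cof (jA F (m * d)) z.1 = c * (jB F m d).eval z.1} =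
      {((0 : F), w0), ((1 : F), w1)} := by
    ext ⟨y, w⟩
    simp only [Set.mem_setOf_eq, Set.mem_insert_iff, Set.mem_singleton_iff, Prod.mk.injEq]
    rw [jA_root _ hmd]
    have e1 : w ^ (m * d) = c ↔ w = w0 := by
      have := Finset.ext_iff.1 hw0 w
      simpa using this
    have e2 : w ^ (m * d) = -c ↔ w = w1 := by
      have := Finset.ext_iff.1 hw1 w
      simpa using this
    constructor
    · rintro ⟨h3 | h3, h4⟩
      · left
        refine ⟨h3, ?_⟩
        rw [h3, (jA_zero _).1, (jA_zero _).2, jB_zero m d hm.pos hd.pos, hodd.neg_one_pow] at h4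
        exact e1.1 (by linear_combination (-1 : F) * h4)
      · right
        refine ⟨h3, ?_⟩
        rw [h3, (jA_one _).1, (jA_one _).2, jB_one m d hm.pos hd.pos] at h4
        exact e2.1 (by linear_combination h4)
    · rintro (⟨h3, h4⟩ | ⟨h3, h4⟩)
      · refine ⟨Or.inl h3, ?_⟩
        rw [h3, (jA_zero _).1, (jA_zero _).2, jB_zero m d hm.pos hd.pos, hodd.neg_one_pow]
        have := e1.2 h4
        linear_combination (-1 : F) * this
      · refine ⟨Or.inr h3, ?_⟩
        rw [h3, (jA_one _).1, (jA_one _).2, jB_one m d hm.pos hd.pos]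
        have := e2.2 h4
        linear_combination this
  rw [hset, Set.ncard_pair]
  intro h
  exact zero_ne_one (congrArg Prod.fst h)

theorem fnr_zero (m d : ℕ) (hm : 0 < m) (hd : 0 < d) : fnr m d (0 : F) = 1 := by
  unfold fnr
  rw [inv_zero, zero_pow hm.ne', zero_pow hd.ne']
  simp

theorem fnr_one (m d : ℕ) (hm : 0 < m) (hd : 0 < d) : fnr m d (1 : F) = 1 := by
  unfold fnr
  rw [sub_self, inv_zero, zero_pow hm.ne', zero_pow hd.ne']
  simp

theorem fnr_ne (m d : ℕ) (hm : Odd m) (hd : Odd d) (x w : F) (hx : x ≠ 0) (hx1 : x ≠ 1) (hw : w ≠ 0) :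
    (jA F (m * d) - C w * jB F m d).eval x = 0 ↔ fnr m d x = w⁻¹ := by
  have h1 : 1 - x ≠ 0 := sub_ne_zero.2 (Ne.symm hx1)
  have hodd : Odd (m * d) := hm.mul hd
  have e1 : (x - 1) ^ (m * d) = -(1 - x) ^ (m * d) := by
    rw [← hodd.neg_pow]
    congr 1
    ring
  have h2 : fnr m d x = (x ^ m + (1 - x) ^ m) ^ d * (x ^ d + (1 - x) ^ d) ^ m / (x * (1 - x)) ^ (m * d) := by
    unfold fnr
    have h3 : x⁻¹ ^ m + (1 - x)⁻¹ ^ m = (x ^ m + (1 - x) ^ m) / (x * (1 - x)) ^ m := by
      rw [inv_pow, inv_pow, mul_pow]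
      field_simp
      ring
    rw [h3, div_pow, ← pow_mul]
    ring
  rw [h2, div_eq_iff (pow_ne_zero _ (mul_ne_zero hx h1))]
  unfold jA jB
  rw [eval_sub, eval_mul, eval_mul, eval_pow, eval_pow, eval_X, eval_sub, eval_X, eval_C, eval_C, eval_neg,
    eval_mul, eval_pow, eval_pow, dP_eval, dP_eval, e1, mul_pow]
  constructor
  · intro h
    field_simp
    linear_combination h
  · intro h
    rw [h]
    field_simp
    ring

theorem fc_fnr' (m d : ℕ) (hm : Odd m) (hd : Odd d) (w : F) (hw : w ≠ 0) :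
    fc (fnr m d) w⁻¹ = nrt (jA F (m * d)) (jB F m d) w + if w = 1 then 2 else 0 := by
  classical
  have hmd : 0 < m * d := Nat.mul_pos hm.pos hd.pos
  unfold fc
  have h1 := Finset.card_filter_add_card_filter_not (s := Finset.univ.filter fun x : F => fnr m d x = w⁻¹)
    (fun x => x ≠ 0 ∧ x ≠ 1)
  rw [← h1]
  congr 1
  · unfold nrt
    rw [Finset.filter_filter]
    congr 1
    ext x
    simp only [Finset.mem_filter, Finset.mem_univ, true_and]
    constructor
    · rintro ⟨h2, h3, h4⟩
      exact (fnr_ne m d hm hd x w h3 h4 hw).2 h2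
    · intro h2
      have h3 : x ≠ 0 := by
        rintro rfl
        rw [eval_sub, eval_mul, eval_C, jB_zero m d hm.pos hd.pos, ((jA_root _ hmd _).2 (Or.inl rfl) :
          (jA F (m * d)).eval 0 = 0)] at h2
        apply hw
        linear_combination h2
      have h4 : x ≠ 1 := by
        rintro rfl
        rw [eval_sub, eval_mul, eval_C, jB_one m d hm.pos hd.pos, ((jA_root _ hmd _).2 (Or.inr rfl) :
          (jA F (m * d)).eval 1 = 0)] at h2
        apply hw
        linear_combination h2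
      exact ⟨(fnr_ne m d hm hd x w h3 h4 hw).1 h2, h3, h4⟩
  · rw [Finset.filter_filter]
    split_ifs with h
    · have : (Finset.univ.filter fun x : F => fnr m d x = w⁻¹ ∧ ¬ (x ≠ 0 ∧ x ≠ 1)) = {0, 1} := by
        ext x
        simp only [Finset.mem_filter, Finset.mem_univ, true_and, Finset.mem_insert, Finset.mem_singleton]
        constructor
        · rintro ⟨-, h3⟩
          by_contra h4
          push Not at h4
          exact h3 h4
        · rintro (rfl | rfl)
          · refine ⟨?_, fun h3 => h3.1 rfl⟩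
            rw [fnr_zero m d hm.pos hd.pos, h, inv_one]
          · refine ⟨?_, fun h3 => h3.2 rfl⟩
            rw [fnr_one m d hm.pos hd.pos, h, inv_one]
      rw [this, Finset.card_pair zero_ne_one]
    · rw [Finset.card_eq_zero, Finset.filter_eq_empty_iff]
      rintro x - ⟨h3, h4⟩
      apply h4
      constructor
      · rintro rfl
        rw [fnr_zero m d hm.pos hd.pos] at h3
        exact h (inv_injective (by rw [← h3, inv_one]))
      · rintro rfl
        rw [fnr_one m d hm.pos hd.pos] at h3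
        exact h (inv_injective (by rw [← h3, inv_one]))

/-- **Negative exponents**, without condition on the sum of numerator and denominator -/
theorem main_neg_inf (m d : ℕ) (hm : Odd m) (hd : Odd d) (hC : 10000 * (2 * (m * d)) ^ 24 < Fintype.card F)
    (hchar : ringChar F ≠ 2) (hmF : (m : F) ≠ 0) (hdF : (d : F) ≠ 0)
    (hcm : Nat.Coprime m (Fintype.card F - 1)) (hcd : Nat.Coprime d (Fintype.card F - 1))
    (hnice : (Finset.univ.image (fc (fnr m d : F → F))).card ≤ 3) :
    ∃ v : F, fc (fnr m d) v = 2 := by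
  classical
  have hm0 : 0 < m := hm.pos
  have hd0 : 0 < d := hd.pos
  have hmd0 : 0 < m * d := Nat.mul_pos hm0 hd0
  have hc3 : 2 * (m * d) + 2 < Fintype.card F := by
    have h3 : 2 * (m * d) ≤ (2 * (m * d)) ^ 24 := Nat.le_self_pow (by norm_num) _
    omega
  have h2 : (2 : F) ≠ 0 := Ring.two_ne_zero hchar
  set v0 : F := fnr m d 2⁻¹ with hv0
  have h2i : (1 : F) - 2⁻¹ = 2⁻¹ := (half_iff h2 (2⁻¹ : F)).2 rfl
  have hv0ne : v0 ≠ 0 := by
    rw [hv0]
    unfold fnr
    rw [h2i, inv_inv]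
    refine mul_ne_zero (pow_ne_zero _ ?_) (pow_ne_zero _ ?_)
    · rw [← two_mul]
      exact mul_ne_zero h2 (pow_ne_zero _ h2)
    · rw [← two_mul]
      exact mul_ne_zero h2 (pow_ne_zero _ (inv_ne_zero h2))
  have hnle : ∀ w : F, nrt (jA F (m * d)) (jB F m d) w ≤ 2 * (m * d) := by
    intro w
    have hlt' := jB_lt (K := F) m d hm hd
    have hPd : (C w * jB F m d).degree < (jA F (m * d)).degree := lt_of_le_of_lt (degree_C_mul_le' _ _) hlt'
    have hPm : (jA F (m * d) - C w * jB F m d).Monic := (jA_monic _).sub_of_left hPd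
    have hPn : (jA F (m * d) - C w * jB F m d).natDegree = 2 * (m * d) := by
      rw [natDegree_eq_of_degree_eq (degree_sub_eq_left_of_degree_lt hPd), jA_natDegree]
    rw [← hPn]
    unfold nrt
    apply card_le_degree_of_subset_roots
    intro x hx
    rw [Finset.mem_val, Finset.mem_filter] at hx
    rw [mem_roots hPm.ne_zero]
    exact hx.2
  have hlt : fc (fnr m d) v0 < Fintype.card F := by
    have h3 := fc_fnr' (F := F) m d hm hd v0⁻¹ (inv_ne_zero hv0ne)
    rw [inv_inv] at h3
    rw [h3]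
    have := hnle v0⁻¹
    split_ifs <;> omega
  obtain ⟨a, ha0, haev, hval, va, hva⟩ := nice_fc h2 (fnr m d) (fnr_sym m d) hnice hlt
  rw [← hv0] at hval
  set Bad : Finset F := {0, 1, v0⁻¹} with hBad
  have hBadc : Bad.card ≤ 3 * (2 * (m * d)) := Finset.card_le_three.trans (by omega)
  have hgood : ∀ t ∉ Bad, nrt (jA F (m * d)) (jB F m d) t = 0 ∨ nrt (jA F (m * d)) (jB F m d) t = a := by
    intro t ht
    rw [hBad, Finset.mem_insert, Finset.mem_insert, Finset.mem_singleton, not_or, not_or] at ht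
    obtain ⟨h3, h4, h5⟩ := ht
    have h6 := fc_fnr' m d hm hd t h3
    rw [if_neg h4, add_zero] at h6
    rw [← h6]
    apply hval
    intro h7
    apply h5
    rw [← h7, inv_inv]
  have h3 := LPq (2 * (m * d)) (m * d) (by omega) hmd0 F hC _ _ 0 1 (j_tame m d hm hd hmF hdF) one_ne_zero
    Bad hBadc a hgood
  rw [FixN_j m d hm hd hcm hcd] at h3
  refine ⟨va, ?_⟩
  rw [hva]
  omega

end

end Pool.Agent.H470
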