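import Pool.Agent.H470.LPv
import Pool.Agent.H470.DPol
import Pool.Agent.H470.App1

/-!
# The polynomials attached to a negative exponent
-/

set_option autoImplicit false
set_option linter.all false

open Polynomial

namespace Pool.Agent.H470

/-- the numerator -/
noncomputable def nA (K : Type*) [Field K] (m : ℕ) : K[X] := (1 + X ^ m) * (1 + X) ^ m

section
variable {K : Type*} [Field K]

theorem nA_eval (m : ℕ) (y : K) : (nA K m).eval y = (1 + y ^ m) * (1 + y) ^ m := by
  simp [nA]

theorem nA_map {K' : Type*} [Field K'] (f : K →+* K') (m : ℕ) : (nA K m).map f = nA K' m := by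
  simp [nA]

theorem one_add_X_pow_monic (m : ℕ) (hm : 0 < m) : (1 + X ^ m : K[X]).Monic ∧
    (1 + X ^ m : K[X]).natDegree = m := by
  have h : (1 + X ^ m : K[X]) = X ^ m + C 1 := by rw [C_1]; ring
  rw [h]
  exact ⟨monic_X_pow_add_C _ hm.ne', natDegree_X_pow_add_C⟩

theorem one_add_X_monic : (1 + X : K[X]).Monic ∧ (1 + X : K[X]).natDegree = 1 := by
  have h : (1 + X : K[X]) = X + C 1 := by rw [C_1]; ring
  rw [h]
  exact ⟨monic_X_add_C _, natDegree_X_add_C _⟩

theorem nA_monic (m : ℕ) (hm : 0 < m) : (nA K m).Monic :=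
  (one_add_X_pow_monic m hm).1.mul (one_add_X_monic.1.pow m)

theorem nA_natDegree (m : ℕ) (hm : 0 < m) : (nA K m).natDegree = 2 * m := by
  unfold nA
  rw [(one_add_X_pow_monic m hm).1.natDegree_mul (one_add_X_monic.1.pow m),
    (one_add_X_pow_monic m hm).2, one_add_X_monic.1.natDegree_pow, one_add_X_monic.2]
  omega

theorem nB_lt (m : ℕ) (hm : 0 < m) : (X ^ m : K[X]).degree < (nA K m).degree := by
  rw [degree_X_pow, degree_eq_natDegree (nA_monic m hm).ne_zero, nA_natDegree m hm]
  exact_mod_cast (by omega : m < 2 * m)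

/-- the polynomial `A - v B` -/
noncomputable def nP (m : ℕ) (v : K) : K[X] := nA K m - C v * X ^ m

theorem nP_eval (m : ℕ) (v y : K) : (nP m v).eval y = (1 + y ^ m) * (1 + y) ^ m - v * y ^ m := by
  simp [nP, nA_eval]

theorem nP_map {K' : Type*} [Field K'] (f : K →+* K') (m : ℕ) (v : K) :
    (nP m v).map f = nP m (f v) := by
  simp [nP, nA_map]

theorem nP_monic (m : ℕ) (hm : 0 < m) (v : K) : (nP m v).Monic :=
  (nA_monic m hm).sub_of_left (lt_of_le_of_lt (degree_C_mul_le' _ _) (nB_lt m hm))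

/-- The basic identity. -/
theorem nP_identity (m : ℕ) (hm : 0 < m) (v : K) :
    X * (1 + X) * (nP m v).derivative =
      C (m : K) * (1 + X) ^ m * (X ^ (m + 1) - 1) + C (m : K) * (1 + X) * nP m v := by
  obtain ⟨r, rfl⟩ : ∃ r, m = r + 1 := ⟨m - 1, by omega⟩
  unfold nP nA
  simp only [derivative_sub, derivative_mul, derivative_C, zero_mul, zero_add, derivative_add,
    derivative_one, derivative_X_pow, derivative_pow, derivative_X, mul_one, add_tsub_cancel_right,
    add_zero]
  have h1 : C (((r + 1 : ℕ) : K)) = (r + 1 : K[X]) := by simp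
  rw [h1]
  ring

theorem nP_second (m : ℕ) (hm : 0 < m) (v z : K) (h0 : (nP m v).eval z = 0)
    (h1 : (nP m v).derivative.eval z = 0) (h2 : z ^ (m + 1) = 1) :
    z * (1 + z) * (nP m v).derivative.derivative.eval z = m * (m + 1 : ℕ) * (1 + z) ^ m * z ^ m := by
  have h := congrArg (fun p => (derivative p).eval z) (nP_identity m hm v)
  simp only [derivative_mul, derivative_add, derivative_sub, derivative_one, derivative_X,
    derivative_C, derivative_X_pow, derivative_pow, zero_mul, zero_add, sub_zero, mul_one, one_mul,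
    eval_add, eval_mul, eval_sub, eval_one, eval_X, eval_C, eval_pow, h0, h1, mul_zero, add_zero,
    add_tsub_cancel_right, h2, sub_self, eval_natCast] at h
  rw [h]
  ring

theorem nP_root_ne_zero (m : ℕ) (hm : 0 < m) (v z : K) (h : (nP m v).eval z = 0) : z ≠ 0 := by
  rintro rfl
  rw [nP_eval, zero_pow hm.ne'] at h
  simp at h

theorem nP_root_ne_neg_one (m : ℕ) (hm : 0 < m) (v z : K) (hv : v ≠ 0) (h : (nP m v).eval z = 0) :
    1 + z ≠ 0 := by
  intro h1
  rw [nP_eval, h1, zero_pow hm.ne', mul_zero, zero_sub, neg_eq_zero] at h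
  exact mul_ne_zero hv (pow_ne_zero _ (fun h2 => by rw [h2, add_zero] at h1; exact one_ne_zero h1)) h

theorem nP_crit_iff (m : ℕ) (hm : 0 < m) (hmK : (m : K) ≠ 0) (v z : K) (hv : v ≠ 0)
    (h : (nP m v).eval z = 0) : (nP m v).derivative.eval z = 0 ↔ z ^ (m + 1) = 1 := by
  have h1 := congrArg (fun p => p.eval z) (nP_identity m hm v)
  simp only [eval_add, eval_mul, eval_sub, eval_one, eval_X, eval_C, eval_pow, h, mul_zero, add_zero] at h1
  have h2 := nP_root_ne_zero m hm v z h
  have h3 := nP_root_ne_neg_one m hm v z hv h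
  constructor
  · intro h4
    rw [h4, mul_zero] at h1
    have h5 := (mul_eq_zero.1 h1.symm).resolve_left (mul_ne_zero hmK (pow_ne_zero _ h3))
    exact sub_eq_zero.1 h5
  · intro h4
    rw [h4, sub_self, mul_zero] at h1
    exact (mul_eq_zero.1 h1).resolve_left (mul_ne_zero h2 h3)

theorem nP_second_ne (m : ℕ) (hm : 0 < m) (hmK : (m : K) ≠ 0) (hmK1 : ((m + 1 : ℕ) : K) ≠ 0) (v z : K)
    (hv : v ≠ 0) (h : (nP m v).eval z = 0) (h1 : (nP m v).derivative.eval z = 0) :
    (nP m v).derivative.derivative.eval z ≠ 0 := by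
  have h2 := (nP_crit_iff m hm hmK v z hv h).1 h1
  have h3 := nP_second m hm v z h h1 h2
  have h4 := nP_root_ne_zero m hm v z h
  have h5 := nP_root_ne_neg_one m hm v z hv h
  intro h6
  rw [h6, mul_zero] at h3
  exact mul_ne_zero (mul_ne_zero (mul_ne_zero hmK hmK1) (pow_ne_zero _ h5)) (pow_ne_zero _ h4) h3.symm

end

/-- the places `v ≠ 0` -/
theorem nP_tame {F : Type} [Field F] [Fintype F] (hchar : ringChar F ≠ 2) (m : ℕ) (hm : 0 < m)
    (hmF : (m : F) ≠ 0) (hmF1 : ((m + 1 : ℕ) : F) ≠ 0) (v : F) (hv : v ≠ 0) :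
    TamePlace F (2 * m) 2 (nA F m) (X ^ m) v := by
  have h2F : (2 : F) ≠ 0 := Ring.two_ne_zero hchar
  set k := AlgebraicClosure F
  have hinj := (algebraMap F k).injective
  have h2k : (2 : k) ≠ 0 := by
    have := (map_ne_zero_iff (algebraMap F k) hinj).2 h2F
    rwa [map_ofNat] at this
  have hmk : (m : k) ≠ 0 := by
    have := (map_ne_zero_iff (algebraMap F k) hinj).2 hmF
    rwa [map_natCast] at this
  have hmk1 : ((m + 1 : ℕ) : k) ≠ 0 := by
    have := (map_ne_zero_iff (algebraMap F k) hinj).2 hmF1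
    rwa [map_natCast] at this
  have hvk : algebraMap F k v ≠ 0 := (map_ne_zero_iff (algebraMap F k) hinj).2 hv
  have hP : (nA F m - C v * X ^ m : F[X]).map (algebraMap F k) = nP m (algebraMap F k v) :=
    nP_map _ m v
  have hmult : ∀ y : k, (nP m (algebraMap F k v)).IsRoot y →
      (nP m (algebraMap F k v)).rootMultiplicity y = 1 ∨ (nP m (algebraMap F k v)).rootMultiplicity y = 2 := by
    intro y hy
    rcases mult_le_two h2k _ (nP_monic m hm _).ne_zero y hy
      (nP_second_ne m hm hmk hmk1 _ y hvk hy) with h | h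
    · exact Or.inl h.2
    · exact Or.inr h.2
  refine ⟨nA_monic m hm, nA_natDegree m hm, nB_lt m hm, ?_, ?_, ?_⟩
  · intro y hy
    rw [hP] at hy
    rw [Polynomial.map_pow, map_X, eval_pow, eval_X]
    exact pow_ne_zero _ (nP_root_ne_zero m hm _ y hy)
  · intro y hy
    rw [hP] at hy ⊢
    rcases hmult y hy with h | h
    · rw [h]; simp
    · rw [h]; exact_mod_cast h2k
  · intro y hy
    rw [hP] at hy ⊢
    rcases hmult y hy with h | h
    · rw [h]; exact one_dvd _
    · rw [h]

section
variable {K : Type*} [Field K]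

theorem nA_neg_one (m : ℕ) (hm : Odd m) : ∃ h : K[X], nA K m = (X - C (-1)) ^ (m + 1) * h ∧
    h.eval (-1) = m := by
  have hr : (1 + X ^ m : K[X]).IsRoot (-1) := by
    simp [IsRoot, hm.neg_one_pow]
  obtain ⟨h, hh⟩ := dvd_iff_isRoot.2 hr
  refine ⟨h, ?_, ?_⟩
  · unfold nA
    rw [hh]
    have : (1 + X : K[X]) = X - C (-1) := by rw [C_neg, C_1]; ring
    rw [this]
    ring
  · have h1 := congrArg (fun p => (derivative p).eval (-1)) hh
    simp only [derivative_add, derivative_one, derivative_X_pow, derivative_mul, derivative_sub,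
      derivative_X, derivative_C, zero_add, sub_zero, one_mul, eval_add, eval_mul, eval_sub, eval_X,
      eval_C, sub_self, zero_mul, add_zero, eval_pow, eval_natCast] at h1
    rw [← h1]
    have h2 : Even (m - 1) := by
      obtain ⟨r, hr⟩ := hm
      exact ⟨r, by omega⟩
    rw [h2.neg_one_pow, mul_one]

theorem nA_mult_neg_one (m : ℕ) (hm : Odd m) (hmK : (m : K) ≠ 0) :
    (nA K m).rootMultiplicity (-1) = m + 1 ∧ cof (nA K m) (-1) = m := by
  have hm0 : 0 < m := hm.pos
  obtain ⟨h, hh, hev⟩ := nA_neg_one (K := K) m hm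
  have hne := (nA_monic (K := K) m hm0).ne_zero
  have hmult : (nA K m).rootMultiplicity (-1) = m + 1 := by
    rw [hh] at hne ⊢
    rw [rootMultiplicity_mul hne, rootMultiplicity_X_sub_C_pow,
      rootMultiplicity_eq_zero (by rw [IsRoot.def, hev]; exact hmK), add_zero]
  refine ⟨hmult, ?_⟩
  unfold cof
  rw [hmult]
  conv_lhs => rw [hh]
  rw [mul_divByMonic_cancel_left _ ((monic_X_sub_C _).pow _), hev]

theorem nA_mult_other (m : ℕ) (hm : 0 < m) (hmK : (m : K) ≠ 0) (y : K) (hy : (nA K m).IsRoot y)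
    (hy1 : y ≠ -1) : (nA K m).rootMultiplicity y = 1 := by
  have h1 : 1 + y ≠ 0 := by
    intro h
    apply hy1
    linear_combination h
  have h2 : (1 + y ^ m) = 0 := by
    rw [IsRoot.def, nA_eval] at hy
    exact (mul_eq_zero.1 hy).resolve_right (pow_ne_zero _ h1)
  have hy0 : y ≠ 0 := by
    rintro rfl
    rw [zero_pow hm.ne'] at h2
    simp at h2
  have hne : (1 + X ^ m : K[X]) ≠ 0 := (one_add_X_pow_monic m hm).1.ne_zero
  have hne2 := (nA_monic (K := K) m hm).ne_zero
  unfold nA at hne2 ⊢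
  rw [rootMultiplicity_mul hne2]
  have h3 : rootMultiplicity y ((1 + X) ^ m : K[X]) = 0 := by
    apply rootMultiplicity_eq_zero
    rw [IsRoot.def, eval_pow, eval_add, eval_one, eval_X]
    exact pow_ne_zero _ h1
  have h4 : rootMultiplicity y (1 + X ^ m : K[X]) = 1 := by
    have h5 : 0 < rootMultiplicity y (1 + X ^ m : K[X]) := by
      rw [rootMultiplicity_pos hne]
      simp [IsRoot, h2]
    have h6 : ¬ 1 < rootMultiplicity y (1 + X ^ m : K[X]) := by
      intro h7
      have h8 := ((one_lt_rootMultiplicity_iff_isRoot hne).1 h7).2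
      simp only [IsRoot.def, derivative_add, derivative_one, zero_add, derivative_X_pow, eval_mul,
        eval_C, eval_pow, eval_X, eval_natCast] at h8
      exact mul_ne_zero hmK (pow_ne_zero _ hy0) h8
    omega
  rw [h3, h4]

end

/-- the place `v = 0` -/
theorem nP_tame_zero {F : Type} [Field F] [Fintype F] (m : ℕ) (hm : Odd m)
    (hmF : (m : F) ≠ 0) (hmF1 : ((m + 1 : ℕ) : F) ≠ 0) :
    TamePlace F (2 * m) (m + 1) (nA F m) (X ^ m) 0 := by
  have hm0 : 0 < m := hm.pos
  set k := AlgebraicClosure F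
  have hinj := (algebraMap F k).injective
  have hmk : (m : k) ≠ 0 := by
    have := (map_ne_zero_iff (algebraMap F k) hinj).2 hmF
    rwa [map_natCast] at this
  have hmk1 : ((m + 1 : ℕ) : k) ≠ 0 := by
    have := (map_ne_zero_iff (algebraMap F k) hinj).2 hmF1
    rwa [map_natCast] at this
  have hP : (nA F m - C 0 * X ^ m : F[X]).map (algebraMap F k) = nA k m := by
    rw [C_0, zero_mul, sub_zero, nA_map]
  refine ⟨nA_monic m hm0, nA_natDegree m hm0, nB_lt m hm0, ?_, ?_, ?_⟩
  · intro y hy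
    rw [hP] at hy
    rw [Polynomial.map_pow, map_X, eval_pow, eval_X]
    refine pow_ne_zero _ ?_
    rintro rfl
    rw [IsRoot.def, nA_eval, zero_pow hm0.ne'] at hy
    simp at hy
  · intro y hy
    rw [hP] at hy ⊢
    by_cases h : y = -1
    · rw [h, (nA_mult_neg_one m hm hmk).1]
      exact hmk1
    · rw [nA_mult_other m hm0 hmk y hy h]
      simp
  · intro y hy
    rw [hP] at hy ⊢
    by_cases h : y = -1
    · rw [h, (nA_mult_neg_one m hm hmk).1]
    · rw [nA_mult_other m hm0 hmk y hy h]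
      exact one_dvd _

end Pool.Agent.H470
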