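import Pool.Agent.H470.NegPol

/-!
# The polynomials attached to a negative rational exponent
-/

set_option autoImplicit false
set_option linter.all false

open Polynomial

namespace Pool.Agent.H470

theorem rootMult_pow {K : Type*} [Field K] (p : K[X]) (n : ℕ) (y : K) :
    (p ^ n).rootMultiplicity y = n * p.rootMultiplicity y := by
  classical
  rw [← count_roots, ← count_roots, roots_pow, Multiset.count_nsmul]

/-- the numerator -/
noncomputable def rA (K : Type*) [Field K] (m d : ℕ) : K[X] := (1 + X ^ m) ^ d * (1 + X ^ d) ^ m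

section
variable {K : Type*} [Field K]

theorem rA_eval (m d : ℕ) (y : K) : (rA K m d).eval y = (1 + y ^ m) ^ d * (1 + y ^ d) ^ m := by
  simp [rA]

theorem rA_map {K' : Type*} [Field K'] (f : K →+* K') (m d : ℕ) : (rA K m d).map f = rA K' m d := by
  simp [rA]

theorem rA_monic (m d : ℕ) (hm : 0 < m) (hd : 0 < d) : (rA K m d).Monic :=
  ((one_add_X_pow_monic m hm).1.pow d).mul ((one_add_X_pow_monic d hd).1.pow m)

theorem rA_natDegree (m d : ℕ) (hm : 0 < m) (hd : 0 < d) : (rA K m d).natDegree = 2 * (m * d) := by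
  unfold rA
  rw [((one_add_X_pow_monic m hm).1.pow d).natDegree_mul ((one_add_X_pow_monic d hd).1.pow m),
    (one_add_X_pow_monic m hm).1.natDegree_pow, (one_add_X_pow_monic d hd).1.natDegree_pow,
    (one_add_X_pow_monic m hm).2, (one_add_X_pow_monic d hd).2]
  ring

theorem rB_lt (m d : ℕ) (hm : 0 < m) (hd : 0 < d) : (X ^ (m * d) : K[X]).degree < (rA K m d).degree := by
  rw [degree_X_pow, degree_eq_natDegree (rA_monic m d hm hd).ne_zero, rA_natDegree m d hm hd]
  have : 0 < m * d := Nat.mul_pos hm hd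
  exact_mod_cast (by omega : m * d < 2 * (m * d))

/-- the polynomial `A - v B` -/
noncomputable def rP (m d : ℕ) (v : K) : K[X] := rA K m d - C v * X ^ (m * d)

theorem rP_eval (m d : ℕ) (v y : K) :
    (rP m d v).eval y = (1 + y ^ m) ^ d * (1 + y ^ d) ^ m - v * y ^ (m * d) := by
  simp [rP, rA_eval]

theorem rP_map {K' : Type*} [Field K'] (f : K →+* K') (m d : ℕ) (v : K) :
    (rP m d v).map f = rP m d (f v) := by
  simp [rP, rA_map]

theorem rP_monic (m d : ℕ) (hm : 0 < m) (hd : 0 < d) (v : K) : (rP m d v).Monic :=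
  (rA_monic m d hm hd).sub_of_left (lt_of_le_of_lt (degree_C_mul_le' _ _) (rB_lt m d hm hd))

theorem rA_der (m d : ℕ) (hm : 0 < m) (hd : 0 < d) :
    X * (1 + X ^ m) * (1 + X ^ d) * (rA K m d).derivative =
      C ((m * d : ℕ) : K) * (X ^ m * (1 + X ^ d) + X ^ d * (1 + X ^ m)) * rA K m d := by
  obtain ⟨a, rfl⟩ : ∃ a, m = a + 1 := ⟨m - 1, by omega⟩
  obtain ⟨b, rfl⟩ : ∃ b, d = b + 1 := ⟨d - 1, by omega⟩
  unfold rA
  simp only [derivative_mul, derivative_add, derivative_one, derivative_X_pow, derivative_pow,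
    derivative_X, mul_one, add_tsub_cancel_right, zero_add]
  have h1 : C ((((a + 1) * (b + 1) : ℕ) : K)) = ((a + 1) * (b + 1) : K[X]) := by simp
  have h2 : C (((a + 1 : ℕ) : K)) = (a + 1 : K[X]) := by simp
  have h3 : C (((b + 1 : ℕ) : K)) = (b + 1 : K[X]) := by simp
  rw [h1, h2, h3]
  ring

theorem XB_der (N : ℕ) (hN : 0 < N) : X * derivative (X ^ N : K[X]) = C (N : K) * X ^ N := by
  obtain ⟨a, rfl⟩ : ∃ a, N = a + 1 := ⟨N - 1, by omega⟩
  rw [derivative_X_pow, add_tsub_cancel_right]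
  ring

/-- The basic identity. -/
theorem rP_identity (m d : ℕ) (hm : 0 < m) (hd : 0 < d) (v : K) :
    X * (1 + X ^ m) * (1 + X ^ d) * (rP m d v).derivative =
      C ((m * d : ℕ) : K) * (X ^ m * (1 + X ^ d) + X ^ d * (1 + X ^ m)) * rP m d v +
      C ((m * d : ℕ) : K) * C v * X ^ (m * d) * (X ^ (m + d) - 1) := by
  have h1 := rA_der (K := K) m d hm hd
  have h2 := XB_der (K := K) (m * d) (Nat.mul_pos hm hd)
  unfold rP
  rw [derivative_sub, derivative_mul, derivative_C, zero_mul, zero_add]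
  have h3 : X * (1 + X ^ m) * (1 + X ^ d) * (derivative (rA K m d) - C v * derivative (X ^ (m * d))) =
      X * (1 + X ^ m) * (1 + X ^ d) * derivative (rA K m d) -
      C v * (1 + X ^ m) * (1 + X ^ d) * (X * derivative (X ^ (m * d))) := by ring
  rw [h3, h1, h2]
  ring

theorem rP_root_ne_zero (m d : ℕ) (hm : 0 < m) (hd : 0 < d) (v z : K) (h : (rP m d v).eval z = 0) :
    z ≠ 0 := by
  rintro rfl
  rw [rP_eval, zero_pow hm.ne', zero_pow hd.ne', zero_pow (Nat.mul_pos hm hd).ne'] at h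
  simp at h

theorem rP_root_ne (m d : ℕ) (hm : 0 < m) (hd : 0 < d) (v z : K) (hv : v ≠ 0)
    (h : (rP m d v).eval z = 0) : 1 + z ^ m ≠ 0 ∧ 1 + z ^ d ≠ 0 := by
  have h2 := rP_root_ne_zero m d hm hd v z h
  rw [rP_eval, sub_eq_zero] at h
  have h3 : (1 + z ^ m) ^ d * (1 + z ^ d) ^ m ≠ 0 := by
    rw [h]
    exact mul_ne_zero hv (pow_ne_zero _ h2)
  constructor
  · intro h4
    apply h3
    rw [h4, zero_pow hd.ne', zero_mul]
  · intro h4
    apply h3
    rw [h4, zero_pow hm.ne', mul_zero]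

theorem rP_crit_iff (m d : ℕ) (hm : 0 < m) (hd : 0 < d) (hmd : ((m * d : ℕ) : K) ≠ 0) (v z : K)
    (hv : v ≠ 0) (h : (rP m d v).eval z = 0) : (rP m d v).derivative.eval z = 0 ↔ z ^ (m + d) = 1 := by
  have h1 := congrArg (fun p => p.eval z) (rP_identity m d hm hd v)
  simp only [eval_add, eval_mul, eval_sub, eval_one, eval_X, eval_C, eval_pow, h, mul_zero, zero_add] at h1
  have h2 := rP_root_ne_zero m d hm hd v z h
  obtain ⟨h3, h3'⟩ := rP_root_ne m d hm hd v z hv h
  constructor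
  · intro h4
    rw [h4, mul_zero] at h1
    have h5 := (mul_eq_zero.1 h1.symm).resolve_left
      (mul_ne_zero (mul_ne_zero hmd hv) (pow_ne_zero _ h2))
    exact sub_eq_zero.1 h5
  · intro h4
    rw [h4, sub_self, mul_zero] at h1
    exact (mul_eq_zero.1 h1).resolve_left (mul_ne_zero (mul_ne_zero h2 h3) h3')

theorem rP_second (m d : ℕ) (hm : 0 < m) (hd : 0 < d) (v z : K) (h0 : (rP m d v).eval z = 0)
    (h1 : (rP m d v).derivative.eval z = 0) (h2 : z ^ (m + d) = 1) :
    z ^ 2 * (1 + z ^ m) * (1 + z ^ d) * (rP m d v).derivative.derivative.eval z =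
      (m * d : ℕ) * (m + d : ℕ) * ((1 + z ^ m) ^ d * (1 + z ^ d) ^ m) := by
  have h := congrArg (fun p => (derivative p).eval z) (rP_identity m d hm hd v)
  have hz := rP_root_ne_zero m d hm hd v z h0
  obtain ⟨c, hc⟩ : ∃ c, m + d = c + 1 := ⟨m + d - 1, by omega⟩
  have e1 : (derivative (X * (1 + X ^ m) * (1 + X ^ d) * derivative (rP m d v))).eval z =
      z * (1 + z ^ m) * (1 + z ^ d) * (rP m d v).derivative.derivative.eval z := by
    rw [derivative_mul, eval_add, eval_mul, eval_mul, h1, mul_zero, zero_add]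
    simp
  have e2 : (derivative (C ((m * d : ℕ) : K) * (X ^ m * (1 + X ^ d) + X ^ d * (1 + X ^ m)) * rP m d v)).eval z
      = 0 := by
    rw [derivative_mul, eval_add, eval_mul, eval_mul, h1, h0, mul_zero, mul_zero, add_zero]
  have e3 : (derivative (C ((m * d : ℕ) : K) * C v * X ^ (m * d) * (X ^ (m + d) - 1))).eval z =
      (m * d : ℕ) * v * z ^ (m * d) * ((m + d : ℕ) * z ^ c) := by
    rw [derivative_mul, eval_add, eval_mul, eval_mul]
    have e4 : (X ^ (m + d) - 1 : K[X]).eval z = 0 := by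
      rw [eval_sub, eval_pow, eval_X, h2, eval_one, sub_self]
    rw [e4, mul_zero, zero_add, derivative_sub, derivative_one, sub_zero, derivative_X_pow, hc]
    simp
  simp only [derivative_add] at h
  rw [eval_add, e1, e2, e3, zero_add] at h
  have h5 : v * z ^ (m * d) = (1 + z ^ m) ^ d * (1 + z ^ d) ^ m := by
    rw [rP_eval, sub_eq_zero] at h0
    exact h0.symm
  have h6 : z * z ^ c = 1 := by
    rw [← pow_succ', ← hc, h2]
  rw [← h5]
  calc z ^ 2 * (1 + z ^ m) * (1 + z ^ d) * (rP m d v).derivative.derivative.eval z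
      = z * (z * (1 + z ^ m) * (1 + z ^ d) * (rP m d v).derivative.derivative.eval z) := by ring
    _ = (m * d : ℕ) * (m + d : ℕ) * (v * z ^ (m * d)) * (z * z ^ c) := by rw [h]; ring
    _ = _ := by rw [h6, mul_one]

theorem rP_second_ne (m d : ℕ) (hm : 0 < m) (hd : 0 < d) (hmd : ((m * d : ℕ) : K) ≠ 0)
    (hmd1 : ((m + d : ℕ) : K) ≠ 0) (v z : K)
    (hv : v ≠ 0) (h : (rP m d v).eval z = 0) (h1 : (rP m d v).derivative.eval z = 0) :
    (rP m d v).derivative.derivative.eval z ≠ 0 := by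
  have h2 := (rP_crit_iff m d hm hd hmd v z hv h).1 h1
  have h3 := rP_second m d hm hd v z h h1 h2
  obtain ⟨h5, h5'⟩ := rP_root_ne m d hm hd v z hv h
  intro h6
  rw [h6, mul_zero] at h3
  exact mul_ne_zero (mul_ne_zero hmd hmd1) (mul_ne_zero (pow_ne_zero _ h5) (pow_ne_zero _ h5')) h3.symm

open Classical in
theorem one_add_mult (m : ℕ) (hm : 0 < m) (hmK : (m : K) ≠ 0) (y : K) :
    (1 + X ^ m : K[X]).rootMultiplicity y = if 1 + y ^ m = 0 then 1 else 0 := by
  have hne : (1 + X ^ m : K[X]) ≠ 0 := (one_add_X_pow_monic m hm).1.ne_zero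
  split_ifs with h
  · have h5 : 0 < rootMultiplicity y (1 + X ^ m : K[X]) := by
      rw [rootMultiplicity_pos hne]
      simp [IsRoot, h]
    have h6 : ¬ 1 < rootMultiplicity y (1 + X ^ m : K[X]) := by
      intro h7
      have h8 := ((one_lt_rootMultiplicity_iff_isRoot hne).1 h7).2
      have hy0 : y ≠ 0 := by
        rintro rfl
        rw [zero_pow hm.ne'] at h
        simp at h
      simp only [IsRoot.def, derivative_add, derivative_one, zero_add, derivative_X_pow, eval_mul,
        eval_C, eval_pow, eval_X, eval_natCast] at h8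
      exact mul_ne_zero hmK (pow_ne_zero _ hy0) h8
    omega
  · apply rootMultiplicity_eq_zero
    rw [IsRoot.def, eval_add, eval_one, eval_pow, eval_X]
    exact h

open Classical in
theorem rA_mult (m d : ℕ) (hm : 0 < m) (hd : 0 < d) (hmK : (m : K) ≠ 0) (hdK : (d : K) ≠ 0) (y : K) :
    (rA K m d).rootMultiplicity y = d * (if 1 + y ^ m = 0 then 1 else 0) +
      m * (if 1 + y ^ d = 0 then 1 else 0) := by
  have hne := (rA_monic (K := K) m d hm hd).ne_zero
  unfold rA at hne ⊢
  rw [rootMultiplicity_mul hne, rootMult_pow, rootMult_pow, one_add_mult m hm hmK, one_add_mult d hd hdK]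

/-- two odd coprime exponents -/
theorem neg_one_of_coprime (m d : ℕ) (hm : Odd m) (hd : Odd d) (hcop : Nat.Coprime m d) (y : K)
    (h1 : 1 + y ^ m = 0) (h2 : 1 + y ^ d = 0) : y = -1 := by
  have h3 : (-y) ^ m = 1 := by
    rw [hm.neg_pow]
    linear_combination (-1 : K) * h1
  have h4 : (-y) ^ d = 1 := by
    rw [hd.neg_pow]
    linear_combination (-1 : K) * h2
  have h5 := Nat.dvd_gcd (orderOf_dvd_of_pow_eq_one h3) (orderOf_dvd_of_pow_eq_one h4)
  rw [Nat.Coprime] at hcop
  rw [hcop, Nat.dvd_one, orderOf_eq_one_iff] at h5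
  rw [← h5, neg_neg]

theorem one_add_fac (m : ℕ) (hm : Odd m) : ∃ h : K[X], (1 + X ^ m : K[X]) = (X - C (-1)) * h ∧
    h.eval (-1) = m := by
  have hr : (1 + X ^ m : K[X]).IsRoot (-1) := by
    simp [IsRoot, hm.neg_one_pow]
  obtain ⟨h, hh⟩ := dvd_iff_isRoot.2 hr
  refine ⟨h, hh, ?_⟩
  have h1 := congrArg (fun p => (derivative p).eval (-1)) hh
  simp only [derivative_add, derivative_one, derivative_X_pow, derivative_mul, derivative_sub,
    derivative_X, derivative_C, zero_add, sub_zero, one_mul, eval_add, eval_mul, eval_sub, eval_X,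
    eval_C, sub_self, zero_mul, add_zero, eval_pow, eval_natCast] at h1
  rw [← h1]
  have h2 : Even (m - 1) := by
    obtain ⟨r, hr⟩ := hm
    exact ⟨r, by omega⟩
  rw [h2.neg_one_pow, mul_one]

theorem rA_neg_one (m d : ℕ) (hm : Odd m) (hd : Odd d) (hmK : (m : K) ≠ 0) (hdK : (d : K) ≠ 0) :
    (rA K m d).rootMultiplicity (-1) = m + d ∧ cof (rA K m d) (-1) = (m : K) ^ d * (d : K) ^ m := by
  classical
  have hmult : (rA K m d).rootMultiplicity (-1) = m + d := by
    rw [rA_mult m d hm.pos hd.pos hmK hdK, if_pos (by rw [hm.neg_one_pow]; ring),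
      if_pos (by rw [hd.neg_one_pow]; ring)]
    ring
  refine ⟨hmult, ?_⟩
  obtain ⟨h1, hh1, he1⟩ := one_add_fac (K := K) m hm
  obtain ⟨h2, hh2, he2⟩ := one_add_fac (K := K) d hd
  unfold cof
  rw [hmult]
  have h3 : rA K m d = (X - C (-1)) ^ (m + d) * (h1 ^ d * h2 ^ m) := by
    unfold rA
    rw [hh1, hh2, mul_pow, mul_pow, pow_add]
    generalize (X - C (-1) : K[X]) = Z
    ring
  rw [h3, mul_divByMonic_cancel_left _ ((monic_X_sub_C _).pow _), eval_mul, eval_pow, eval_pow, he1, he2]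

end

/-- the places `v ≠ 0` -/
theorem rP_tame {F : Type} [Field F] [Fintype F] (hchar : ringChar F ≠ 2) (m d : ℕ) (hm : 0 < m)
    (hd : 0 < d) (hmF : ((m * d : ℕ) : F) ≠ 0) (hmF1 : ((m + d : ℕ) : F) ≠ 0) (v : F) (hv : v ≠ 0) :
    TamePlace F (2 * (m * d)) 2 (rA F m d) (X ^ (m * d)) v := by
  have h2F : (2 : F) ≠ 0 := Ring.two_ne_zero hchar
  set k := AlgebraicClosure F
  have hinj := (algebraMap F k).injective
  have h2k : (2 : k) ≠ 0 := by
    have := (map_ne_zero_iff (algebraMap F k) hinj).2 h2F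
    rwa [map_ofNat] at this
  have hmk : ((m * d : ℕ) : k) ≠ 0 := by
    have := (map_ne_zero_iff (algebraMap F k) hinj).2 hmF
    rwa [map_natCast] at this
  have hmk1 : ((m + d : ℕ) : k) ≠ 0 := by
    have := (map_ne_zero_iff (algebraMap F k) hinj).2 hmF1
    rwa [map_natCast] at this
  have hvk : algebraMap F k v ≠ 0 := (map_ne_zero_iff (algebraMap F k) hinj).2 hv
  have hP : (rA F m d - C v * X ^ (m * d) : F[X]).map (algebraMap F k) = rP m d (algebraMap F k v) :=
    rP_map _ m d v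
  have hmult : ∀ y : k, (rP m d (algebraMap F k v)).IsRoot y →
      (rP m d (algebraMap F k v)).rootMultiplicity y = 1 ∨ (rP m d (algebraMap F k v)).rootMultiplicity y = 2 := by
    intro y hy
    rcases mult_le_two h2k _ (rP_monic m d hm hd _).ne_zero y hy
      (rP_second_ne m d hm hd hmk hmk1 _ y hvk hy) with h | h
    · exact Or.inl h.2
    · exact Or.inr h.2
  refine ⟨rA_monic m d hm hd, rA_natDegree m d hm hd, rB_lt m d hm hd, ?_, ?_, ?_⟩
  · intro y hy
    rw [hP] at hy
    rw [Polynomial.map_pow, map_X, eval_pow, eval_X]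
    exact pow_ne_zero _ (rP_root_ne_zero m d hm hd _ y hy)
  · intro y hy
    rw [hP] at hy ⊢
    rcases hmult y hy with h | h
    · rw [h]; simp
    · rw [h]; exact_mod_cast h2k
  · intro y hy
    rw [hP] at hy ⊢
    rcases hmult y hy with h | h
    · rw [h]; exact one_dvd _
    · rw [h]

/-- the place `v = 0` -/
theorem rP_tame_zero {F : Type} [Field F] [Fintype F] (m d : ℕ) (hm : Odd m) (hd : Odd d)
    (hcop : Nat.Coprime m d) (hmF : (m : F) ≠ 0) (hdF : (d : F) ≠ 0) (hmF1 : ((m + d : ℕ) : F) ≠ 0) :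
    TamePlace F (2 * (m * d)) ((m + d) * (m * d)) (rA F m d) (X ^ (m * d)) 0 := by
  classical
  have hm0 : 0 < m := hm.pos
  have hd0 : 0 < d := hd.pos
  set k := AlgebraicClosure F
  have hinj := (algebraMap F k).injective
  have hmk : (m : k) ≠ 0 := by
    have := (map_ne_zero_iff (algebraMap F k) hinj).2 hmF
    rwa [map_natCast] at this
  have hdk : (d : k) ≠ 0 := by
    have := (map_ne_zero_iff (algebraMap F k) hinj).2 hdF
    rwa [map_natCast] at this
  have hmk1 : ((m + d : ℕ) : k) ≠ 0 := by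
    have := (map_ne_zero_iff (algebraMap F k) hinj).2 hmF1
    rwa [map_natCast] at this
  have hP : (rA F m d - C 0 * X ^ (m * d) : F[X]).map (algebraMap F k) = rA k m d := by
    rw [C_0, zero_mul, sub_zero, rA_map]
  have hmult : ∀ y : k, (rA k m d).IsRoot y → (rA k m d).rootMultiplicity y = m + d ∨
      (rA k m d).rootMultiplicity y = m ∨ (rA k m d).rootMultiplicity y = d := by
    intro y hy
    rw [IsRoot.def, rA_eval] at hy
    rw [rA_mult m d hm0 hd0 hmk hdk]
    by_cases h1 : 1 + y ^ m = 0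
    · by_cases h2 : 1 + y ^ d = 0
      · left; rw [if_pos h1, if_pos h2]; ring
      · right; right; rw [if_pos h1, if_neg h2]; ring
    · by_cases h2 : 1 + y ^ d = 0
      · right; left; rw [if_neg h1, if_pos h2]; ring
      · exact absurd hy (mul_ne_zero (pow_ne_zero _ h1) (pow_ne_zero _ h2))
  refine ⟨rA_monic m d hm0 hd0, rA_natDegree m d hm0 hd0, rB_lt m d hm0 hd0, ?_, ?_, ?_⟩
  · intro y hy
    rw [hP] at hy
    rw [Polynomial.map_pow, map_X, eval_pow, eval_X]
    refine pow_ne_zero _ ?_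
    rintro rfl
    rw [IsRoot.def, rA_eval, zero_pow hm0.ne', zero_pow hd0.ne'] at hy
    simp at hy
  · intro y hy
    rw [hP] at hy ⊢
    rcases hmult y hy with h | h | h <;> rw [h]
    · exact hmk1
    · exact hmk
    · exact hdk
  · intro y hy
    rw [hP] at hy ⊢
    rcases hmult y hy with h | h | h <;> rw [h]
    · exact dvd_mul_right _ _
    · exact dvd_mul_of_dvd_right (dvd_mul_right _ _) _
    · exact dvd_mul_of_dvd_right (dvd_mul_left _ _) _

end Pool.Agent.H470
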