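import Pool.Agent.H470.App2

/-!
# Nice exponents
-/

set_option autoImplicit false
set_option linter.all false

open Polynomial

namespace Pool.Agent.H470

section
variable {F : Type} [Field F] [Fintype F] [DecidableEq F]

theorem even_card_of_sym (S : Finset F) (hS : ∀ y ∈ S, 1 - y ∈ S) (hfix : ∀ y ∈ S, 1 - y ≠ y) :
    Even S.card := by
  have h : ∑ y ∈ S, (1 : ZMod 2) = 0 := by
    refine Finset.sum_involution (fun y _ => 1 - y) ?_ ?_ ?_ ?_
    · intro y _
      decide
    · intro y hy _
      exact hfix y hy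
    · intro y hy
      exact hS y hy
    · intro y _
      ring
  rw [Finset.sum_const, nsmul_eq_mul, mul_one] at h
  exact (ZMod.natCast_eq_zero_iff_even).1 h

theorem half_iff (h2 : (2 : F) ≠ 0) (y : F) : 1 - y = y ↔ y = 2⁻¹ := by
  constructor
  · intro h
    apply eq_inv_of_mul_eq_one_left
    linear_combination (-1 : F) * h
  · rintro rfl
    field_simp
    norm_num

theorem cnt_even (h2 : (2 : F) ≠ 0) (e : ℕ) (v : F) (hv : v ≠ (2⁻¹ : F) ^ e + (1 - 2⁻¹) ^ e) :
    Even (cnt e v) := by
  unfold cnt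
  apply even_card_of_sym
  · intro y hy
    rw [Finset.mem_filter] at hy ⊢
    refine ⟨Finset.mem_univ _, ?_⟩
    rw [sub_sub_cancel, add_comm]
    exact hy.2
  · intro y hy h
    rw [Finset.mem_filter] at hy
    rw [half_iff h2] at h
    rw [h] at hy
    exact hv hy.2.symm

theorem cnt_odd (h2 : (2 : F) ≠ 0) (e : ℕ) : Odd (cnt e ((2⁻¹ : F) ^ e + (1 - 2⁻¹) ^ e)) := by
  unfold cnt
  set S := Finset.univ.filter fun x : F => x ^ e + (1 - x) ^ e = (2⁻¹ : F) ^ e + (1 - 2⁻¹) ^ e with hS
  have hmem : (2⁻¹ : F) ∈ S := by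
    rw [hS, Finset.mem_filter]
    exact ⟨Finset.mem_univ _, rfl⟩
  have h1 : Even (S.erase 2⁻¹).card := by
    apply even_card_of_sym
    · intro y hy
      rw [Finset.mem_erase] at hy ⊢
      obtain ⟨h3, h4⟩ := hy
      rw [hS, Finset.mem_filter] at h4 ⊢
      refine ⟨?_, Finset.mem_univ _, ?_⟩
      · intro h5
        apply h3
        have h6 := (half_iff h2 (2⁻¹ : F)).2 rfl
        have h7 : y = 1 - (1 - y) := by ring
        rw [h7, h5]
        exact h6
      · rw [sub_sub_cancel, add_comm]
        exact h4.2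
    · intro y hy h
      rw [Finset.mem_erase] at hy
      exact hy.1 ((half_iff h2 y).1 h)
  have h2' := Finset.card_erase_add_one hmem
  rw [← h2']
  exact h1.add_one

theorem sum_cnt (e : ℕ) : ∑ v : F, cnt e v = Fintype.card F := by
  unfold cnt
  rw [← Finset.card_univ]
  exact (Finset.card_eq_sum_card_fiberwise (f := fun x : F => x ^ e + (1 - x) ^ e)
    (t := Finset.univ) (by intro x _; simp)).symm

theorem exists_cnt_zero (e : ℕ) (he : 0 < e) : ∃ v : F, cnt e v = 0 := by
  by_contra hcon
  push Not at hcon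
  have hsurj : Function.Surjective (fun x : F => x ^ e + (1 - x) ^ e) := by
    intro v
    have h1 := hcon v
    unfold cnt at h1
    obtain ⟨x, hx⟩ := Finset.card_ne_zero.1 h1
    rw [Finset.mem_filter] at hx
    exact ⟨x, hx.2⟩
  have hinj := Finite.injective_iff_surjective.2 hsurj
  have h2 : (0 : F) = 1 := by
    apply hinj
    simp [zero_pow he.ne']
  exact zero_ne_one h2

/-- the structure of the values of a nice exponent -/
theorem nice_values (h2 : (2 : F) ≠ 0) (e : ℕ) (he : 0 < e)
    (hnice : (Finset.univ.image (cnt e : F → ℕ)).card ≤ 3)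
    (hbig : cnt e ((2⁻¹ : F) ^ e + (1 - 2⁻¹) ^ e) < Fintype.card F) :
    ∃ a : ℕ, 0 < a ∧ Even a ∧
      (∀ v : F, v ≠ (2⁻¹ : F) ^ e + (1 - 2⁻¹) ^ e → cnt e v = 0 ∨ cnt e v = a) ∧ ∃ v : F, cnt e v = a := by
  classical
  set v0 := (2⁻¹ : F) ^ e + (1 - 2⁻¹) ^ e with hv0
  obtain ⟨v1, hv1, hv1'⟩ : ∃ v1 : F, v1 ≠ v0 ∧ cnt e v1 ≠ 0 := by
    by_contra hcon
    push Not at hcon
    have h3 := sum_cnt (F := F) e
    rw [Finset.sum_eq_single v0] at h3
    · omega
    · intro v _ hv
      exact hcon v hv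
    · intro h
      exact absurd (Finset.mem_univ _) h
  obtain ⟨vz, hvz⟩ := exists_cnt_zero (F := F) e he
  have hodd := cnt_odd h2 e
  rw [← hv0] at hodd
  have heven1 := cnt_even h2 e v1 hv1
  refine ⟨cnt e v1, Nat.pos_of_ne_zero hv1', heven1, ?_, v1, rfl⟩
  intro v hv
  by_contra hcon
  push Not at hcon
  have hev := cnt_even h2 e v hv
  have hsub : ({0, cnt e v1, cnt e v0, cnt e v} : Finset ℕ) ⊆ Finset.univ.image (cnt e : F → ℕ) := by
    intro m hm
    simp only [Finset.mem_insert, Finset.mem_singleton] at hm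
    rw [Finset.mem_image]
    rcases hm with h | h | h | h
    · exact ⟨vz, Finset.mem_univ _, hvz.trans h.symm⟩
    · exact ⟨v1, Finset.mem_univ _, h.symm⟩
    · exact ⟨v0, Finset.mem_univ _, h.symm⟩
    · exact ⟨v, Finset.mem_univ _, h.symm⟩
  have h4 : ({0, cnt e v1, cnt e v0, cnt e v} : Finset ℕ).card = 4 := by
    rw [Finset.card_insert_of_notMem, Finset.card_insert_of_notMem, Finset.card_insert_of_notMem,
      Finset.card_singleton]
    · rw [Finset.mem_singleton]
      intro h
      rw [← h] at hev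
      exact (Nat.not_even_iff_odd.2 hodd) hev
    · rw [Finset.mem_insert, Finset.mem_singleton]
      rintro (h | h)
      · rw [h] at heven1
        exact (Nat.not_even_iff_odd.2 hodd) heven1
      · exact hcon.2 h.symm
    · rw [Finset.mem_insert, Finset.mem_insert, Finset.mem_singleton]
      rintro (h | h | h)
      · exact hv1' h.symm
      · rw [← h] at hodd
        exact (by decide : ¬ Odd 0) hodd
      · exact hcon.1 h.symm
  have h5 := Finset.card_le_card hsub
  omega

/-- the total character sum -/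
theorem sum_tw (e : ℕ) : ∑ v : F, tw e v =
    ∑ y ∈ Finset.univ.filter fun y : F => y ^ (e - 1) = (1 - y) ^ (e - 1), quadraticChar F (y * (1 - y)) := by
  unfold tw
  rw [← Finset.sum_fiberwise_of_maps_to (s := Finset.univ.filter fun y : F => y ^ (e - 1) = (1 - y) ^ (e - 1))
    (t := Finset.univ) (g := fun y : F => y ^ e + (1 - y) ^ e) (fun y _ => Finset.mem_univ _)]
  refine Finset.sum_congr rfl fun v _ => ?_
  refine Finset.sum_congr ?_ fun _ _ => rfl
  ext y
  simp only [Finset.mem_filter, Finset.mem_univ, true_and]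
  exact and_comm

/-- the critical points and the roots of unity -/
theorem sum_crit (e : ℕ) (he : Odd e) (h1 : 1 < e) (h2 : (2 : F) ≠ 0) :
    ∑ y ∈ Finset.univ.filter fun y : F => y ^ (e - 1) = (1 - y) ^ (e - 1), quadraticChar F (y * (1 - y)) =
      (∑ z ∈ Finset.univ.filter fun z : F => z ^ (e - 1) = 1, quadraticChar F z) - quadraticChar F (-1) := by
  classical
  have heven : Even (e - 1) := by
    obtain ⟨m, hm⟩ := he
    exact ⟨m, by omega⟩
  have hm1 : (-1 : F) ∈ Finset.univ.filter fun z : F => z ^ (e - 1) = 1 := by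
    rw [Finset.mem_filter]
    exact ⟨Finset.mem_univ _, heven.neg_one_pow⟩
  rw [← Finset.sum_erase_eq_sub hm1]
  refine Finset.sum_bij' (fun y _ => y / (1 - y)) (fun z _ => z / (1 + z)) ?_ ?_ ?_ ?_ ?_
  · intro y hy
    rw [Finset.mem_filter] at hy
    have hy1 := crit_ne_one (by omega : 2 ≤ e) y hy.2
    rw [Finset.mem_erase, Finset.mem_filter]
    refine ⟨?_, Finset.mem_univ _, ?_⟩
    · intro h
      rw [div_eq_iff hy1] at h
      have : (1 : F) = 0 := by linear_combination h
      exact one_ne_zero this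
    · rw [div_pow, hy.2, div_self (pow_ne_zero _ hy1)]
  · intro z hz
    rw [Finset.mem_erase, Finset.mem_filter] at hz
    obtain ⟨h3, -, h4⟩ := hz
    have h5 : 1 + z ≠ 0 := by
      intro h
      apply h3
      linear_combination h
    rw [Finset.mem_filter]
    refine ⟨Finset.mem_univ _, ?_⟩
    have h6 : 1 - z / (1 + z) = 1 / (1 + z) := by field_simp; ring
    rw [h6, div_pow, div_pow, h4, one_pow]
  · intro y hy
    rw [Finset.mem_filter] at hy
    have hy1 := crit_ne_one (by omega : 2 ≤ e) y hy.2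
    field_simp
    ring
  · intro z hz
    rw [Finset.mem_erase, Finset.mem_filter] at hz
    obtain ⟨h3, -, h4⟩ := hz
    have h5 : 1 + z ≠ 0 := by
      intro h
      apply h3
      linear_combination h
    have h6 : 1 - z / (1 + z) = 1 / (1 + z) := by field_simp; ring
    rw [h6]
    field_simp
  · intro y hy
    rw [Finset.mem_filter] at hy
    have hy1 := crit_ne_one (by omega : 2 ≤ e) y hy.2
    have h6 : y * (1 - y) = y / (1 - y) * (1 - y) ^ 2 := by field_simp
    rw [h6, qc_mul_sq _ _ hy1]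

end

end Pool.Agent.H470
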