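import Pool.Agent.H470.Sym

/-!
# Niho exponents: basic identities and the solutions above elements of norm one
-/

set_option autoImplicit false
set_option linter.all false

namespace Pool.Agent.H470

/-- the context of a Niho exponent `1 + r (Q - 1)` over a field with `Q ^ 2` elements -/
structure NC (L : Type) [Field L] [Fintype L] (Q r : ℕ) : Prop where
  card : Fintype.card L = Q * Q
  odd : Odd Q
  three : 3 ≤ Q
  add : ∀ x y : L, (x + y) ^ Q = x ^ Q + y ^ Q
  rev : Even r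
  h1 : ¬ (Q + 1) ∣ r
  h2 : ¬ (Q + 1) ∣ r - 1

/-- the power map -/
def ff {L : Type} [Field L] (Q r : ℕ) (x : L) : L := x ^ (1 + r * (Q - 1))

/-- the derivative -/
def DD {L : Type} [Field L] (Q r : ℕ) (x : L) : L := ff Q r x + ff Q r (1 - x)

theorem ff_eq {L : Type} [Field L] {Q r : ℕ} (x : L) : ff Q r x = x * (x ^ (Q - 1)) ^ r := by
  unfold ff
  rw [pow_add, pow_one, mul_comm r, pow_mul]

theorem ff_mul {L : Type} [Field L] {Q r : ℕ} (x y : L) : ff Q r (x * y) = ff Q r x * ff Q r y := by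
  unfold ff
  rw [mul_pow]

theorem ff_zero {L : Type} [Field L] {Q r : ℕ} : ff Q r (0 : L) = 0 := by
  unfold ff
  rw [zero_pow (by omega)]

theorem ff_one {L : Type} [Field L] {Q r : ℕ} : ff Q r (1 : L) = 1 := by
  unfold ff
  rw [one_pow]

theorem ff_ne {L : Type} [Field L] {Q r : ℕ} {x : L} (hx : x ≠ 0) : ff Q r x ≠ 0 := by
  unfold ff
  exact pow_ne_zero _ hx

namespace NC
variable {L : Type} [Field L] [Fintype L] [DecidableEq L] {Q r : ℕ}

theorem r2 (h : NC L Q r) : 2 ≤ r := by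
  have h1 := h.h1
  obtain ⟨t, ht⟩ := h.rev
  by_contra hcon
  have : r = 0 := by omega
  rw [this] at h1
  exact h1 (dvd_zero _)

theorem qq (h : NC L Q r) (x : L) : (x ^ Q) ^ Q = x := by
  rw [← pow_mul, ← h.card, FiniteField.pow_card]

theorem neg (h : NC L Q r) (x : L) : (-x) ^ Q = -x ^ Q := h.odd.neg_pow x

theorem sub (h : NC L Q r) (x y : L) : (x - y) ^ Q = x ^ Q - y ^ Q := by
  rw [sub_eq_add_neg, h.add, h.neg]
  ring

theorem psucc (h : NC L Q r) (x : L) : x ^ (Q - 1) * x = x ^ Q := by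
  rw [← pow_succ, Nat.sub_add_cancel (by have := h.three; omega)]

theorem u1 (h : NC L Q r) {x : L} (hx : x ≠ 0) : x ^ (Q - 1) * (x ^ (Q - 1)) ^ Q = 1 := by
  rw [← pow_succ', ← pow_mul]
  have h1 : (Q - 1) * (Q + 1) = Fintype.card L - 1 := by
    rw [h.card]
    obtain ⟨t, ht⟩ : ∃ t, Q = t + 1 := ⟨Q - 1, by have := h.three; omega⟩
    rw [ht]
    simp only [Nat.add_sub_cancel]
    have : (t + 1) * (t + 1) = t * (t + 1 + 1) + 1 := by ring
    omega
  rw [h1, FiniteField.pow_card_sub_one_eq_one _ hx]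

theorem ff_norm (h : NC L Q r) (x : L) : ff Q r x * (ff Q r x) ^ Q = x * x ^ Q := by
  by_cases hx : x = 0
  · rw [hx, ff_zero]
  · rw [ff_eq, mul_pow]
    have h1 := h.u1 hx
    have h2 : (x ^ (Q - 1)) ^ r * ((x ^ (Q - 1)) ^ r) ^ Q = 1 := by
      rw [pow_right_comm (x ^ (Q - 1)) r Q, ← mul_pow, h1, one_pow]
    linear_combination (x * x ^ Q) * h2

theorem c1 (h : NC L Q r) {c : L} (hc : c ^ Q = c) (hc0 : c ≠ 0) : c ^ (Q - 1) = 1 := by
  apply mul_right_cancel₀ hc0
  rw [h.psucc, one_mul, hc]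

theorem ff_K (h : NC L Q r) {c : L} (hc : c ^ Q = c) : ff Q r c = c := by
  by_cases hc0 : c = 0
  · rw [hc0, ff_zero]
  · rw [ff_eq, h.c1 hc hc0, one_pow, mul_one]

theorem ff_smul (h : NC L Q r) {c : L} (hc : c ^ Q = c) (x : L) : ff Q r (c * x) = c * ff Q r x := by
  rw [ff_mul, h.ff_K hc]

theorem sodd (h : NC L Q r) : Odd (1 + r * (Q - 1)) := by
  rw [add_comm]
  exact (h.rev.mul_right _).add_one

theorem ff_neg (h : NC L Q r) (x : L) : ff Q r (-x) = -ff Q r x := by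
  unfold ff
  exact h.sodd.neg_pow x

/-- **the solutions above an element of norm one** -/
theorem sol (h : NC L Q r) (v x : L) (hv : v * v ^ Q = 1) (hx : x ^ Q ≠ x) (hD : DD Q r x = v) :
    (ff Q r x = v * x ∧ ff Q r (1 - x) = v * (1 - x)) ∨
    (ff Q r x = v * x ^ Q ∧ ff Q r (1 - x) = v * (1 - x) ^ Q) := by
  unfold DD at hD
  obtain ⟨y, hy⟩ : ∃ y, y = 1 - x := ⟨_, rfl⟩
  rw [← hy] at hD ⊢
  have hy0 : y ≠ 0 := by
    intro h0
    apply hx
    have : x = 1 := by rw [h0] at hy; linear_combination hy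
    rw [this, one_pow]
  have hxQ : x ^ Q + y ^ Q = 1 := by
    rw [← h.add, hy]
    rw [show x + (1 - x) = 1 by ring, one_pow]
  have n1 := h.ff_norm x
  have n2 := h.ff_norm y
  have hyQ0 : y ^ Q ≠ 0 := pow_ne_zero _ hy0
  obtain ⟨X, hX⟩ : ∃ X, X = ff Q r x := ⟨_, rfl⟩
  obtain ⟨Y, hY⟩ : ∃ Y, Y = ff Q r y := ⟨_, rfl⟩
  rw [← hX, ← hY] at hD ⊢
  rw [← hX] at n1
  rw [← hY] at n2
  have hv' : (X + Y) * (X ^ Q + Y ^ Q) = 1 := by rw [← h.add, hD, hv]
  have hxy : x + y = 1 := by rw [hy]; ring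
  obtain ⟨A, hA⟩ : ∃ A, A = x ^ Q := ⟨_, rfl⟩
  obtain ⟨B, hB⟩ : ∃ B, B = y ^ Q := ⟨_, rfl⟩
  obtain ⟨XA, hXA⟩ : ∃ XA, XA = X ^ Q := ⟨_, rfl⟩
  obtain ⟨YB, hYB⟩ : ∃ YB, YB = Y ^ Q := ⟨_, rfl⟩
  rw [← hA] at n1 hxQ
  rw [← hB] at n2 hxQ hyQ0
  rw [← hXA] at n1 hv'
  rw [← hYB] at n2 hv'
  rw [← hA, ← hB]
  have e1 : X * YB + XA * Y = x * B + A * y := by
    have e0 : (x + y) * (A + B) = 1 := by rw [hxy, hxQ, one_mul]
    linear_combination hv' - e0 - n1 - n2
  have e2 : (X * YB) * (XA * Y) = (x * B) * (A * y) := by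
    linear_combination (Y * YB) * n1 + (x * A) * n2
  have e3 : (X * YB - x * B) * (X * YB - A * y) = 0 := by
    linear_combination (X * YB) * e1 - e2
  rcases mul_eq_zero.1 e3 with e4 | e4
  · left
    have e5 : X * y = x * Y := by
      apply mul_right_cancel₀ hyQ0
      linear_combination (-X) * n2 + Y * e4
    constructor
    · linear_combination (-X) * hxy + e5 + x * hD
    · linear_combination (-Y) * hxy - e5 + y * hD
  · right
    have e5 : X * B = Y * A := by
      apply mul_right_cancel₀ hy0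
      linear_combination (-X) * n2 + Y * e4
    constructor
    · linear_combination (-X) * hxQ + e5 + A * hD
    · linear_combination (-Y) * hxQ - e5 + B * hD

/-- the pairs of classes -/
theorem count_pairs (h : NC L Q r) (Θ : Finset L) (hΘ : ∀ u ∈ Θ, u * u ^ Q = 1 ∧ u ≠ 1) :
    (Finset.univ.filter fun x : L => x ^ Q ≠ x ∧ x ^ (Q - 1) ∈ Θ ∧ (1 - x) ^ (Q - 1) ∈ Θ).card =
      Θ.offDiag.card := by
  have key : ∀ u ∈ Θ, ∀ w ∈ Θ, u ≠ w → ((1 - w) / (u - w)) ^ Q = u * ((1 - w) / (u - w)) ∧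
      (1 - w) / (u - w) ≠ 0 ∧ 1 - (1 - w) / (u - w) ≠ 0 ∧
      (1 - (1 - w) / (u - w)) ^ Q = w * (1 - (1 - w) / (u - w)) := by
    intro u hu w hw huw
    obtain ⟨hu1, hu2⟩ := hΘ u hu
    obtain ⟨hw1, hw2⟩ := hΘ w hw
    have hu0 : u ≠ 0 := by
      rintro rfl
      rw [zero_mul] at hu1
      exact zero_ne_one hu1
    have hw0 : w ≠ 0 := by
      rintro rfl
      rw [zero_mul] at hw1
      exact zero_ne_one hw1
    have hd : u - w ≠ 0 := sub_ne_zero.2 huw
    have huQ : u ^ Q = u⁻¹ := (eq_inv_of_mul_eq_one_right hu1)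
    have hwQ : w ^ Q = w⁻¹ := (eq_inv_of_mul_eq_one_right hw1)
    have hdQ : u⁻¹ - w⁻¹ ≠ 0 := by
      intro h0
      apply huw
      exact inv_injective (sub_eq_zero.1 h0)
    have e1 : ((1 - w) / (u - w)) ^ Q = u * ((1 - w) / (u - w)) := by
      rw [div_pow, h.sub, h.sub, one_pow, huQ, hwQ, ← mul_div_assoc, div_eq_div_iff hdQ hd]
      field_simp
      ring
    have e2 : (1 - w) / (u - w) ≠ 0 := div_ne_zero (sub_ne_zero.2 (Ne.symm hw2)) hd
    have e3 : 1 - (1 - w) / (u - w) = (u - 1) / (u - w) := by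
      field_simp
      ring
    refine ⟨e1, e2, ?_, ?_⟩
    · rw [e3]
      exact div_ne_zero (sub_ne_zero.2 hu2) hd
    · rw [h.sub, one_pow, e1]
      field_simp
      ring
  refine Finset.card_bij' (fun x _ => (x ^ (Q - 1), (1 - x) ^ (Q - 1)))
    (fun p _ => (1 - p.2) / (p.1 - p.2)) ?_ ?_ ?_ ?_
  · intro x hx
    rw [Finset.mem_filter] at hx
    obtain ⟨-, hx1, hx2, hx3⟩ := hx
    rw [Finset.mem_offDiag]
    refine ⟨hx2, hx3, ?_⟩
    intro heq
    simp only at heq
    apply hx1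
    have e1 := h.psucc x
    have e2 := h.psucc (1 - x)
    rw [← heq, h.sub, one_pow] at e2
    have e3 : x ^ (Q - 1) = 1 := by linear_combination e1 + e2
    rw [e3, one_mul] at e1
    exact e1.symm
  · intro p hp
    rw [Finset.mem_offDiag] at hp
    obtain ⟨hp1, hp2, hp3⟩ := hp
    obtain ⟨e1, e2, e3, e4⟩ := key p.1 hp1 p.2 hp2 hp3
    have e5 : ((1 - p.2) / (p.1 - p.2)) ^ (Q - 1) = p.1 := by
      apply mul_right_cancel₀ e2
      rw [h.psucc, e1]
    have e6 : (1 - (1 - p.2) / (p.1 - p.2)) ^ (Q - 1) = p.2 := by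
      apply mul_right_cancel₀ e3
      rw [h.psucc, e4]
    rw [Finset.mem_filter]
    refine ⟨Finset.mem_univ _, ?_, by rw [e5]; exact hp1, by rw [e6]; exact hp2⟩
    intro h0
    rw [e1] at h0
    apply (hΘ p.1 hp1).2
    apply mul_right_cancel₀ e2
    rw [one_mul]
    exact h0
  · intro x hx
    rw [Finset.mem_filter] at hx
    obtain ⟨-, hx1, hx2, hx3⟩ := hx
    have e1 := h.psucc x
    have e2 := h.psucc (1 - x)
    rw [h.sub, one_pow] at e2
    have hne : x ^ (Q - 1) - (1 - x) ^ (Q - 1) ≠ 0 := by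
      intro h0
      apply hx1
      have e3 : x ^ (Q - 1) = 1 := by linear_combination e1 + e2 + (1 - x) * h0
      rw [e3, one_mul] at e1
      exact e1.symm
    rw [div_eq_iff hne]
    linear_combination -e1 - e2
  · intro p hp
    rw [Finset.mem_offDiag] at hp
    obtain ⟨hp1, hp2, hp3⟩ := hp
    obtain ⟨e1, e2, e3, e4⟩ := key p.1 hp1 p.2 hp2 hp3
    have e5 : ((1 - p.2) / (p.1 - p.2)) ^ (Q - 1) = p.1 := by
      apply mul_right_cancel₀ e2
      rw [h.psucc, e1]
    have e6 : (1 - (1 - p.2) / (p.1 - p.2)) ^ (Q - 1) = p.2 := by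
      apply mul_right_cancel₀ e3
      rw [h.psucc, e4]
    rw [e5, e6]

/-- classes with `u ^ r = v` -/
def Th (L : Type) [Field L] [Fintype L] [DecidableEq L] (Q r : ℕ) (v : L) : Finset L :=
  Finset.univ.filter fun u : L => u * u ^ Q = 1 ∧ u ≠ 1 ∧ u ^ r = v

theorem mem_Th (v u : L) : u ∈ Th L Q r v ↔ u * u ^ Q = 1 ∧ u ≠ 1 ∧ u ^ r = v := by
  unfold Th
  rw [Finset.mem_filter]
  simp only [Finset.mem_univ, true_and]

/-- **the number of solutions outside the subfield, above an element of norm one** -/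
theorem count_out (h : NC L Q r) (v : L) (hv : v * v ^ Q = 1) :
    (Finset.univ.filter fun x : L => x ^ Q ≠ x ∧ DD Q r x = v).card =
      (Th L Q r v).offDiag.card + (Th L Q (r - 1) v).offDiag.card := by
  have hr := h.r2
  rw [← h.count_pairs (Th L Q r v) (fun u hu => ⟨((mem_Th v u).1 hu).1, ((mem_Th v u).1 hu).2.1⟩),
    ← h.count_pairs (Th L Q (r - 1) v) (fun u hu => ⟨((mem_Th v u).1 hu).1, ((mem_Th v u).1 hu).2.1⟩),
    ← Finset.card_union_of_disjoint]
  · congr 1
    ext x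
    rw [Finset.mem_union, Finset.mem_filter, Finset.mem_filter, Finset.mem_filter]
    simp only [Finset.mem_univ, true_and]
    constructor
    · rintro ⟨hx, hD⟩
      have hx0 : x ≠ 0 := by
        rintro rfl
        apply hx
        rw [zero_pow (by have := h.three; omega)]
      have hy0 : 1 - x ≠ 0 := by
        intro h0
        apply hx
        have : x = 1 := by linear_combination -h0
        rw [this, one_pow]
      have hu1 : ∀ z : L, z ≠ 0 → z ^ Q ≠ z → z ^ (Q - 1) ≠ 1 := by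
        intro z hz hz' h0
        apply hz'
        rw [← h.psucc, h0, one_mul]
      have hy : (1 - x) ^ Q ≠ 1 - x := by
        rw [h.sub, one_pow]
        intro h0
        apply hx
        linear_combination -h0
      rcases h.sol v x hv hx hD with ⟨e1, e2⟩ | ⟨e1, e2⟩
      · left
        refine ⟨hx, (mem_Th _ _).2 ⟨h.u1 hx0, hu1 x hx0 hx, ?_⟩, (mem_Th _ _).2 ⟨h.u1 hy0, hu1 _ hy0 hy, ?_⟩⟩
        · rw [ff_eq] at e1
          apply mul_left_cancel₀ hx0
          rw [e1, mul_comm]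
        · rw [ff_eq] at e2
          apply mul_left_cancel₀ hy0
          rw [e2, mul_comm]
      · right
        have hgen : ∀ z : L, z ≠ 0 → ff Q r z = v * z ^ Q → (z ^ (Q - 1)) ^ (r - 1) = v := by
          intro z hz hz'
          have h3 : z ^ (Q - 1) ≠ 0 := pow_ne_zero _ hz
          rw [ff_eq, ← h.psucc z] at hz'
          apply mul_right_cancel₀ h3
          apply mul_left_cancel₀ hz
          rw [← pow_succ, Nat.sub_add_cancel (by omega), hz']
          ring
        exact ⟨hx, (mem_Th _ _).2 ⟨h.u1 hx0, hu1 x hx0 hx, hgen x hx0 e1⟩,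
          (mem_Th _ _).2 ⟨h.u1 hy0, hu1 _ hy0 hy, hgen _ hy0 e2⟩⟩
    · rintro (⟨hx, h3, h4⟩ | ⟨hx, h3, h4⟩)
      · refine ⟨hx, ?_⟩
        unfold DD
        rw [ff_eq, ff_eq, ((mem_Th _ _).1 h3).2.2, ((mem_Th _ _).1 h4).2.2]
        ring
      · refine ⟨hx, ?_⟩
        have hgen : ∀ z : L, (z ^ (Q - 1)) ^ (r - 1) = v → ff Q r z = v * z ^ Q := by
          intro z hz
          rw [ff_eq, ← h.psucc z]
          have : (z ^ (Q - 1)) ^ r = (z ^ (Q - 1)) ^ (r - 1) * z ^ (Q - 1) := by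
            rw [← pow_succ, Nat.sub_add_cancel (by omega)]
          rw [this, hz]
          ring
        unfold DD
        rw [hgen x ((mem_Th _ _).1 h3).2.2, hgen (1 - x) ((mem_Th _ _).1 h4).2.2, h.sub, one_pow]
        ring
  · rw [Finset.disjoint_left]
    intro x hx hx'
    rw [Finset.mem_filter] at hx hx'
    obtain ⟨h3, h4, h5⟩ := (mem_Th _ _).1 hx.2.2.1
    obtain ⟨h3', h4', h5'⟩ := (mem_Th _ _).1 hx'.2.2.1
    apply h4
    have h6 : (x ^ (Q - 1)) ^ (r - 1) ≠ 0 := by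
      apply pow_ne_zero
      intro h0
      rw [h0, zero_mul] at h3
      exact zero_ne_one h3
    apply mul_left_cancel₀ h6
    rw [mul_one, ← pow_succ, Nat.sub_add_cancel (by omega), h5, h5']

theorem DD_K (h : NC L Q r) (x : L) (hx : x ^ Q = x) : DD Q r x = 1 := by
  unfold DD
  rw [h.ff_K hx, h.ff_K (by rw [h.sub, one_pow, hx])]
  ring

theorem fc_ne (h : NC L Q r) (v : L) (hv : v * v ^ Q = 1) (hv1 : v ≠ 1) :
    fc (DD Q r) v = (Th L Q r v).offDiag.card + (Th L Q (r - 1) v).offDiag.card := by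
  rw [← h.count_out v hv]
  unfold fc
  congr 1
  ext x
  rw [Finset.mem_filter, Finset.mem_filter]
  simp only [Finset.mem_univ, true_and]
  constructor
  · intro hx
    refine ⟨?_, hx⟩
    intro h0
    rw [h.DD_K x h0] at hx
    exact hv1 hx.symm
  · exact fun hx => hx.2

theorem fc_one (h : NC L Q r) :
    fc (DD Q r) (1 : L) = (Finset.univ.filter fun x : L => x ^ Q = x).card +
      ((Th L Q r 1).offDiag.card + (Th L Q (r - 1) 1).offDiag.card) := by
  rw [← h.count_out 1 (by rw [one_pow, mul_one])]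
  unfold fc
  rw [← Finset.card_union_of_disjoint]
  · congr 1
    ext x
    rw [Finset.mem_union, Finset.mem_filter, Finset.mem_filter, Finset.mem_filter]
    simp only [Finset.mem_univ, true_and]
    constructor
    · intro hx
      by_cases h0 : x ^ Q = x
      · exact Or.inl h0
      · exact Or.inr ⟨h0, hx⟩
    · rintro (h0 | h0)
      · exact h.DD_K x h0
      · exact h0.2
  · rw [Finset.disjoint_left]
    intro x hx hx'
    rw [Finset.mem_filter] at hx hx'
    exact hx'.2.1 hx.2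

end NC
end Pool.Agent.H470
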