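import Pool.Agent.H470.Niho2

/-!
# Niho exponents: interpolation by a linear map and the double count
-/

set_option autoImplicit false
set_option linter.all false

namespace Pool.Agent.H470

/-- the interpolating additive map -/
def AA {L : Type} [Field L] (Q : ℕ) (β x : L) : L := (1 - β) * x + β * x ^ Q

/-- the difference of the power map and the interpolating map -/
def gg {L : Type} [Field L] (Q r : ℕ) (β x : L) : L := ff Q r x - AA Q β x

/-- the linear form -/
def TT {L : Type} [Field L] (Q : ℕ) (e z : L) : L := z ^ Q - e * z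

section
variable {L : Type} [Field L] [Fintype L] [DecidableEq L]

theorem count_prod (P : L → L → Prop) [∀ x y, Decidable (P x y)] :
    (Finset.univ.filter fun p : L × L => P p.1 p.2).card =
      ∑ x : L, (Finset.univ.filter fun y : L => P x y).card := by
  simp only [Finset.card_filter]
  rw [Fintype.sum_prod_type]

theorem sum_fc_mul (D : L → L) (m : L → ℕ) : ∑ t : L, m (D t) = ∑ v : L, fc D v * m v := by
  rw [← Finset.sum_fiberwise Finset.univ D (fun t => m (D t))]
  apply Finset.sum_congr rfl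
  intro v _
  have h1 : ∑ t ∈ Finset.univ.filter (fun t : L => D t = v), m (D t) =
      ∑ t ∈ Finset.univ.filter (fun t : L => D t = v), m v := by
    apply Finset.sum_congr rfl
    intro t ht
    rw [Finset.mem_filter] at ht
    rw [ht.2]
  rw [h1, Finset.sum_const, smul_eq_mul]
  rfl

end

namespace NC
variable {L : Type} [Field L] [Fintype L] [DecidableEq L] {Q r : ℕ}

theorem Kstar (h : NC L Q r) (c : L) (hc : c ^ (Q - 1) = 1) : c ^ Q = c ∧ c ≠ 0 := by
  constructor
  · rw [← h.psucc, hc, one_mul]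
  · rintro rfl
    rw [zero_pow (by have := h.three; omega)] at hc
    exact zero_ne_one hc

theorem card_Kstar (h : NC L Q r) : (Finset.univ.filter fun c : L => c ^ (Q - 1) = 1).card = Q - 1 := by
  rw [rc]
  rw [h.fact]
  exact dvd_mul_right _ _

theorem dvd_of_stable (h : NC L Q r) (S : Finset L) (h0 : (0 : L) ∉ S)
    (hS : ∀ c x : L, c ^ (Q - 1) = 1 → x ∈ S → c * x ∈ S) : (Q - 1) ∣ S.card := by
  rw [Finset.card_eq_sum_card_image (fun x => x ^ (Q - 1)) S]
  apply Finset.dvd_sum
  intro e he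
  rw [Finset.mem_image] at he
  obtain ⟨x1, hx1, rfl⟩ := he
  have hx10 : x1 ≠ 0 := by
    rintro rfl
    exact h0 hx1
  have h1 : (S.filter fun x => x ^ (Q - 1) = x1 ^ (Q - 1)).card = Q - 1 := by
    refine Eq.trans ?_ h.card_Kstar
    refine Finset.card_bij' (fun x _ => x / x1) (fun c _ => c * x1) ?_ ?_ ?_ ?_
    · intro x hx
      rw [Finset.mem_filter] at hx
      rw [Finset.mem_filter]
      refine ⟨Finset.mem_univ _, ?_⟩
      rw [div_pow, hx.2, div_self (pow_ne_zero _ hx10)]
    · intro c hc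
      rw [Finset.mem_filter] at hc
      rw [Finset.mem_filter]
      refine ⟨hS c x1 hc.2 hx1, ?_⟩
      rw [mul_pow, hc.2, one_mul]
    · intro x _
      exact div_mul_cancel₀ _ hx10
    · intro x _
      exact mul_div_cancel_right₀ _ hx10
  rw [h1]

theorem AA_add (h : NC L Q r) (β x y : L) : AA Q β (x + y) = AA Q β x + AA Q β y := by
  unfold AA
  rw [h.add]
  ring

theorem AA_smul (h : NC L Q r) (β : L) {c : L} (hc : c ^ Q = c) (x : L) :
    AA Q β (c * x) = c * AA Q β x := by
  unfold AA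
  rw [mul_pow, hc]
  ring

theorem gg_smul (h : NC L Q r) (β : L) {c : L} (hc : c ^ Q = c) (x : L) :
    gg Q r β (c * x) = c * gg Q r β x := by
  unfold gg
  rw [h.ff_smul hc, h.AA_smul β hc]
  ring

theorem gg_0 (h : NC L Q r) (β : L) : gg Q r β 0 = 0 := by
  have h1 := h.gg_smul β (c := 0) (by rw [zero_pow (by have := h.three; omega)]) 0
  rw [zero_mul, zero_mul] at h1
  exact h1

theorem TT_add (h : NC L Q r) (e x y : L) : TT Q e (x + y) = TT Q e x + TT Q e y := by
  unfold TT
  rw [h.add]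
  ring

theorem TT_smul (h : NC L Q r) (e : L) {c : L} (hc : c ^ Q = c) (x : L) :
    TT Q e (c * x) = c * TT Q e x := by
  unfold TT
  rw [mul_pow, hc]
  ring

theorem gg_zero (h : NC L Q r) (β x0 : L) (hx0 : x0 ^ Q ≠ x0) (hβ : AA Q β x0 = ff Q r x0)
    (h3 : β ≠ 0) (h4 : 1 - β ≠ 0) (x : L) :
    gg Q r β x = 0 ↔ (x ^ Q = x ∨ x ^ Q * x0 = x * x0 ^ Q) := by
  constructor
  · intro hx
    have key : ∀ z : L, AA Q β z = ff Q r z →
        (z - z ^ Q) * ((1 - β) * β ^ Q * z - (1 - β) ^ Q * β * z ^ Q) = 0 := by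
      intro z hz
      have n := h.ff_norm z
      rw [← hz] at n
      unfold AA at n
      rw [h.add, mul_pow, mul_pow, h.qq] at n
      have n2 : (1 - β) ^ Q + β ^ Q = 1 := by
        rw [← h.add, show 1 - β + β = (1 : L) by ring, one_pow]
      linear_combination n - (z * z ^ Q) * n2
    have k1 := key x (by
      unfold gg at hx
      linear_combination -hx)
    have k2 := key x0 hβ
    rcases mul_eq_zero.1 k1 with k3 | k3
    · left
      linear_combination -k3
    · right
      have k4 : (1 - β) * β ^ Q * x0 - (1 - β) ^ Q * β * x0 ^ Q = 0 := by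
        rcases mul_eq_zero.1 k2 with k4 | k4
        · exfalso
          apply hx0
          linear_combination -k4
        · exact k4
      have k5 : (1 - β) ^ Q * β ≠ 0 := mul_ne_zero (pow_ne_zero _ h4) h3
      apply mul_left_cancel₀ k5
      linear_combination (-x0) * k3 + x * k4
  · have hx00 : x0 ≠ 0 := by
      rintro rfl
      apply hx0
      rw [zero_pow (by have := h.three; omega)]
    rintro (hx | hx)
    · unfold gg AA
      rw [h.ff_K hx, hx]
      ring
    · have hc : (x / x0) ^ Q = x / x0 := by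
        rw [div_pow, div_eq_div_iff (pow_ne_zero _ hx00) hx00]
        exact hx
      have h1 := h.gg_smul β hc x0
      rw [div_mul_cancel₀ _ hx00] at h1
      rw [h1]
      unfold gg
      rw [hβ]
      ring

theorem exists_x0 (h : NC L Q r) : ∃ x0 β : L, x0 ^ Q ≠ x0 ∧ AA Q β x0 = ff Q r x0 ∧ β ≠ 0 ∧
    1 - β ≠ 0 := by
  obtain ⟨g, hg⟩ := exists_prim (L := L) (Fintype.card L - 1) dvd_rfl
  rw [h.fact] at hg
  have h3 := h.three
  have hr := h.r2
  have hpos : (Q - 1) * (Q + 1) ≠ 0 := Nat.mul_ne_zero (by omega) (by omega)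
  have hg0 : g ≠ 0 := hg.ne_zero hpos
  have e0 : g ^ Q ≠ g := by
    intro h0
    have h1 : g ^ (Q - 1) = 1 := h.c1 h0 hg0
    have h2 := (hg.pow_eq_one_iff_dvd _).1 h1
    have h4 : (Q - 1) * (Q + 1) ∣ (Q - 1) * 1 := by rw [mul_one]; exact h2
    have h5 := Nat.dvd_of_mul_dvd_mul_left (by omega) h4
    have h6 := Nat.le_of_dvd (by omega) h5
    omega
  have e1 : ff Q r g ≠ g := by
    intro h0
    rw [ff_eq] at h0
    have h1 : (g ^ (Q - 1)) ^ r = 1 := by
      apply mul_left_cancel₀ hg0
      rw [h0, mul_one]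
    rw [← pow_mul] at h1
    have h2 := (hg.pow_eq_one_iff_dvd _).1 h1
    exact h.h1 (Nat.dvd_of_mul_dvd_mul_left (by omega) h2)
  have e2 : ff Q r g ≠ g ^ Q := by
    intro h0
    rw [ff_eq, ← h.psucc g] at h0
    have h1 : (g ^ (Q - 1)) ^ (r - 1) = 1 := by
      apply mul_right_cancel₀ (pow_ne_zero (Q - 1) hg0)
      apply mul_left_cancel₀ hg0
      rw [← pow_succ, Nat.sub_add_cancel (by omega), h0, one_mul, mul_comm]
    rw [← pow_mul] at h1
    have h2 := (hg.pow_eq_one_iff_dvd _).1 h1
    exact h.h2 (Nat.dvd_of_mul_dvd_mul_left (by omega) h2)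
  have hd : g ^ Q - g ≠ 0 := sub_ne_zero.2 e0
  have hb : 1 - (ff Q r g - g) / (g ^ Q - g) = (g ^ Q - ff Q r g) / (g ^ Q - g) := by
    rw [eq_div_iff hd, sub_mul, div_mul_cancel₀ _ hd]
    ring
  refine ⟨g, (ff Q r g - g) / (g ^ Q - g), e0, ?_, ?_, ?_⟩
  · unfold AA
    have h5 := div_mul_cancel₀ (ff Q r g - g) hd
    linear_combination h5
  · exact div_ne_zero (sub_ne_zero.2 e1) hd
  · rw [hb]
    exact div_ne_zero (sub_ne_zero.2 (Ne.symm e2)) hd

theorem card_zero (h : NC L Q r) (β x0 : L) (hx0 : x0 ^ Q ≠ x0) (hβ : AA Q β x0 = ff Q r x0)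
    (h3 : β ≠ 0) (h4 : 1 - β ≠ 0) :
    (Finset.univ.filter fun x : L => gg Q r β x = 0).card = 2 * Q - 1 := by
  have hx00 : x0 ≠ 0 := by
    rintro rfl
    apply hx0
    rw [zero_pow (by have := h.three; omega)]
  have h1 : (Finset.univ.filter fun x : L => gg Q r β x = 0) =
      (Finset.univ.filter fun x : L => x ^ Q = x) ∪
        (Finset.univ.filter fun x : L => x ^ Q * x0 = x * x0 ^ Q) := by
    ext x
    rw [Finset.mem_union, Finset.mem_filter, Finset.mem_filter, Finset.mem_filter]
    simp only [Finset.mem_univ, true_and]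
    exact h.gg_zero β x0 hx0 hβ h3 h4 x
  have h2 : (Finset.univ.filter fun x : L => x ^ Q * x0 = x * x0 ^ Q).card = Q := by
    refine Eq.trans ?_ h.cardK
    refine Finset.card_bij' (fun x _ => x / x0) (fun x _ => x * x0) ?_ ?_ ?_ ?_
    · intro x hx
      rw [Finset.mem_filter] at hx
      rw [Finset.mem_filter]
      refine ⟨Finset.mem_univ _, ?_⟩
      rw [div_pow, div_eq_div_iff (pow_ne_zero _ hx00) hx00]
      exact hx.2
    · intro x hx
      rw [Finset.mem_filter] at hx
      rw [Finset.mem_filter]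
      refine ⟨Finset.mem_univ _, ?_⟩
      rw [mul_pow, hx.2]
      ring
    · intro x _
      exact div_mul_cancel₀ _ hx00
    · intro x _
      exact mul_div_cancel_right₀ _ hx00
  have h5 : (Finset.univ.filter fun x : L => x ^ Q = x) ∩
        (Finset.univ.filter fun x : L => x ^ Q * x0 = x * x0 ^ Q) = {0} := by
    ext x
    rw [Finset.mem_inter, Finset.mem_filter, Finset.mem_filter, Finset.mem_singleton]
    simp only [Finset.mem_univ, true_and]
    constructor
    · rintro ⟨e1, e2⟩
      rw [e1] at e2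
      have e3 : x * (x0 - x0 ^ Q) = 0 := by linear_combination e2
      rcases mul_eq_zero.1 e3 with e4 | e4
      · exact e4
      · exfalso
        apply hx0
        linear_combination -e4
    · rintro rfl
      have e0 : (0 : L) ^ Q = 0 := zero_pow (by have := h.three; omega)
      exact ⟨e0, by rw [e0]; ring⟩
  have h6 := Finset.card_union_add_card_inter (Finset.univ.filter fun x : L => x ^ Q = x)
    (Finset.univ.filter fun x : L => x ^ Q * x0 = x * x0 ^ Q)
  rw [h5, h2, h.cardK, Finset.card_singleton] at h6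
  rw [h1]
  omega

theorem card_nonzero (h : NC L Q r) (β : L)
    (hz : (Finset.univ.filter fun x : L => gg Q r β x = 0).card = 2 * Q - 1) :
    (Finset.univ.filter fun x : L => gg Q r β x ≠ 0).card = (Q - 1) * (Q - 1) := by
  have h1 := Finset.card_filter_add_card_filter_not (s := (Finset.univ : Finset L))
    (fun x : L => gg Q r β x = 0)
  rw [hz, Finset.card_univ, h.card] at h1
  have h2 : (Finset.univ.filter fun x : L => gg Q r β x ≠ 0) =
    (Finset.univ.filter fun x : L => ¬ gg Q r β x = 0) := rfl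
  rw [h2]
  have h3 := h.three
  obtain ⟨t, ht⟩ : ∃ t, Q = t + 1 := ⟨Q - 1, by omega⟩
  have h4 : Q * Q = t * t + (2 * Q - 1) := by
    rw [ht]
    have : (t + 1) * (t + 1) = t * t + 2 * t + 1 := by ring
    omega
  have h5 : Q - 1 = t := by omega
  rw [h5]
  omega

theorem exists_missed (h : NC L Q r) (β : L)
    (hc : (Finset.univ.filter fun x : L => gg Q r β x ≠ 0).card = (Q - 1) * (Q - 1)) :
    ∃ e : L, e * e ^ Q = 1 ∧ ∀ x : L, gg Q r β x ≠ 0 → TT Q e (gg Q r β x) ≠ 0 := by
  by_contra hcon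
  push Not at hcon
  have h1 : ∀ e : L, ∃ x : L, e * e ^ Q = 1 → gg Q r β x ≠ 0 ∧ TT Q e (gg Q r β x) = 0 := by
    intro e
    by_cases he : e * e ^ Q = 1
    · obtain ⟨x, hx⟩ := hcon e he
      exact ⟨x, fun _ => hx⟩
    · exact ⟨0, fun h0 => absurd h0 he⟩
  choose ξ hξ using h1
  have h2 : ((Finset.univ.filter fun e : L => e ^ (Q + 1) = 1) ×ˢ
      (Finset.univ.filter fun c : L => c ^ (Q - 1) = 1)).card ≤
      (Finset.univ.filter fun x : L => gg Q r β x ≠ 0).card := by
    apply Finset.card_le_card_of_injOn (fun p => p.2 * ξ p.1)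
    · intro p hp
      rw [Finset.mem_coe, Finset.mem_product, Finset.mem_filter, Finset.mem_filter] at hp
      obtain ⟨⟨-, h3⟩, -, h4⟩ := hp
      rw [Finset.mem_coe, Finset.mem_filter]
      refine ⟨Finset.mem_univ _, ?_⟩
      obtain ⟨h5, h6⟩ := h.Kstar _ h4
      rw [h.gg_smul β h5]
      exact mul_ne_zero h6 (hξ p.1 ((normone _).2 h3)).1
    · intro p hp q hq hpq
      rw [Finset.mem_coe, Finset.mem_product, Finset.mem_filter, Finset.mem_filter] at hp hq
      obtain ⟨⟨-, h3⟩, -, h4⟩ := hp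
      obtain ⟨⟨-, h3'⟩, -, h4'⟩ := hq
      obtain ⟨h5, h6⟩ := h.Kstar _ h4
      obtain ⟨h5', h6'⟩ := h.Kstar _ h4'
      obtain ⟨h7, h8⟩ := hξ p.1 ((normone _).2 h3)
      obtain ⟨h7', h8'⟩ := hξ q.1 ((normone _).2 h3')
      have e1 := congrArg (gg Q r β) hpq
      simp only at e1 hpq
      rw [h.gg_smul β h5, h.gg_smul β h5'] at e1
      have e2 : TT Q p.1 (p.2 * gg Q r β (ξ p.1)) = 0 := by rw [h.TT_smul _ h5, h8, mul_zero]
      have e3 : TT Q q.1 (q.2 * gg Q r β (ξ q.1)) = 0 := by rw [h.TT_smul _ h5', h8', mul_zero]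
      rw [← e1] at e3
      have e4 : p.2 * gg Q r β (ξ p.1) ≠ 0 := mul_ne_zero h6 h7
      have e5 : p.1 = q.1 := by
        apply mul_right_cancel₀ e4
        unfold TT at e2 e3
        linear_combination e3 - e2
      rw [← e5] at hpq
      have e6 : ξ p.1 ≠ 0 := by
        intro h0
        rw [h0, h.gg_0] at h7
        exact h7 rfl
      exact Prod.ext e5 (mul_right_cancel₀ e6 hpq)
  rw [Finset.card_product, h.card_Kstar, hc, rc] at h2
  · have h3 := h.three
    have h4 := Nat.le_of_mul_le_mul_right h2 (by omega)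
    omega
  · rw [h.fact]
    exact dvd_mul_left _ _

end NC
end Pool.Agent.H470
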