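import Pool.Agent.H470.Niho3

/-!
# Niho exponents: the double count, and the multiplicity two
-/

set_option autoImplicit false
set_option linter.all false

namespace Pool.Agent.H470

namespace NC
variable {L : Type} [Field L] [Fintype L] [DecidableEq L] {Q r : ℕ}

theorem GG_smul (h : NC L Q r) (e β : L) {c : L} (hc : c ^ Q = c) (x : L) :
    TT Q e (gg Q r β (c * x)) = c * TT Q e (gg Q r β x) := by
  rw [h.gg_smul β hc, h.TT_smul e hc]

theorem TT_0 (h : NC L Q r) (e : L) : TT Q e 0 = 0 := by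
  unfold TT
  rw [zero_pow (by have := h.three; omega)]
  ring

theorem line (h : NC L Q r) (e : L) (he : e * e ^ Q = 1) (z : L) :
    (TT Q e z) ^ Q = -(e ^ Q) * TT Q e z := by
  unfold TT
  rw [h.sub, mul_pow, h.qq]
  linear_combination (-z) * he

theorem fibre (h : NC L Q r) (e β : L) (he : e * e ^ Q = 1)
    (hmiss : ∀ x : L, gg Q r β x ≠ 0 → TT Q e (gg Q r β x) ≠ 0)
    (hc : (Finset.univ.filter fun x : L => gg Q r β x ≠ 0).card = (Q - 1) * (Q - 1))
    (x1 : L) (hx1 : gg Q r β x1 ≠ 0) :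
    (Finset.univ.filter fun y : L => TT Q e (gg Q r β y) = TT Q e (gg Q r β x1)).card = Q - 1 := by
  have h3 := h.three
  have hG1 := hmiss x1 hx1
  obtain ⟨t1, ht1⟩ : ∃ t1, t1 = TT Q e (gg Q r β x1) := ⟨_, rfl⟩
  have hl1 := h.line e he (gg Q r β x1)
  rw [← ht1] at hG1 hl1 ⊢
  have hmaps : Set.MapsTo (fun y : L => TT Q e (gg Q r β y) / t1)
      ((Finset.univ.filter fun x : L => gg Q r β x ≠ 0 : Finset L) : Set L)
      ((Finset.univ.filter fun c : L => c ^ (Q - 1) = 1 : Finset L) : Set L) := by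
    intro y hy
    rw [Finset.mem_coe, Finset.mem_filter] at hy
    rw [Finset.mem_coe, Finset.mem_filter]
    refine ⟨Finset.mem_univ _, ?_⟩
    have h4 := hmiss y hy.2
    have h5 := h.line e he (gg Q r β y)
    apply h.c1 _ (div_ne_zero h4 hG1)
    rw [div_pow, hl1, h5, mul_div_mul_left]
    rw [neg_ne_zero]
    intro h0
    rw [h0, mul_zero] at he
    exact zero_ne_one he
  have key := Finset.card_eq_sum_card_fiberwise hmaps
  have h6 : ∀ c ∈ (Finset.univ.filter fun c : L => c ^ (Q - 1) = 1),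
      (((Finset.univ.filter fun x : L => gg Q r β x ≠ 0).filter
        fun y : L => TT Q e (gg Q r β y) / t1 = c).card) =
      (Finset.univ.filter fun y : L => TT Q e (gg Q r β y) = t1).card := by
    intro c hc'
    rw [Finset.mem_filter] at hc'
    obtain ⟨hcQ, hc0⟩ := h.Kstar c hc'.2
    have hciQ : (c⁻¹) ^ Q = c⁻¹ := by rw [inv_pow, hcQ]
    refine Finset.card_bij' (fun y _ => c⁻¹ * y) (fun y _ => c * y) ?_ ?_ ?_ ?_
    · intro y hy
      rw [Finset.mem_filter, Finset.mem_filter] at hy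
      obtain ⟨⟨-, hy1⟩, hy2⟩ := hy
      rw [Finset.mem_filter]
      refine ⟨Finset.mem_univ _, ?_⟩
      rw [h.GG_smul e β hciQ]
      rw [div_eq_iff hG1] at hy2
      rw [hy2, inv_mul_cancel_left₀ hc0]
    · intro y hy
      rw [Finset.mem_filter] at hy
      obtain ⟨-, hy1⟩ := hy
      rw [Finset.mem_filter, Finset.mem_filter]
      refine ⟨⟨Finset.mem_univ _, ?_⟩, ?_⟩
      · rw [h.gg_smul β hcQ]
        apply mul_ne_zero hc0
        intro h0
        rw [h0, h.TT_0] at hy1
        exact hG1 hy1.symm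
      · rw [h.GG_smul e β hcQ, hy1, mul_div_cancel_right₀ _ hG1]
    · intro y _
      exact mul_inv_cancel_left₀ hc0 y
    · intro y _
      exact inv_mul_cancel_left₀ hc0 y
  rw [Finset.sum_congr rfl h6, Finset.sum_const, h.card_Kstar, smul_eq_mul, hc] at key
  exact (Nat.eq_of_mul_eq_mul_left (by omega) key).symm

theorem countN (h : NC L Q r) (e β : L) (he : e * e ^ Q = 1)
    (hmiss : ∀ x : L, gg Q r β x ≠ 0 → TT Q e (gg Q r β x) ≠ 0)
    (hz : (Finset.univ.filter fun x : L => gg Q r β x = 0).card = 2 * Q - 1)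
    (hc : (Finset.univ.filter fun x : L => gg Q r β x ≠ 0).card = (Q - 1) * (Q - 1)) :
    (Finset.univ.filter fun p : L × L =>
      TT Q e (gg Q r β p.1) + TT Q e (gg Q r β p.2) = 0).card =
      (2 * Q - 1) * (2 * Q - 1) + (Q - 1) * (Q - 1) * (Q - 1) := by
  rw [count_prod (fun x y => TT Q e (gg Q r β x) + TT Q e (gg Q r β y) = 0)]
  rw [← Finset.sum_filter_add_sum_filter_not Finset.univ (fun x => gg Q r β x = 0)]
  have h1 : ∀ x ∈ Finset.univ.filter (fun x : L => gg Q r β x = 0),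
      (Finset.univ.filter fun y : L => TT Q e (gg Q r β x) + TT Q e (gg Q r β y) = 0).card =
        2 * Q - 1 := by
    intro x hx
    rw [Finset.mem_filter] at hx
    rw [← hz]
    congr 1
    ext y
    rw [Finset.mem_filter, Finset.mem_filter, hx.2, h.TT_0, zero_add]
    simp only [Finset.mem_univ, true_and]
    constructor
    · intro h0
      by_contra h4
      exact hmiss y h4 h0
    · intro h0
      rw [h0, h.TT_0]
  have h2 : ∀ x ∈ Finset.univ.filter (fun x : L => ¬ gg Q r β x = 0),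
      (Finset.univ.filter fun y : L => TT Q e (gg Q r β x) + TT Q e (gg Q r β y) = 0).card =
        Q - 1 := by
    intro x hx
    rw [Finset.mem_filter] at hx
    have hm : ((-1 : L)) ^ Q = -1 := h.odd.neg_one_pow
    have hx1 : gg Q r β (-1 * x) ≠ 0 := by
      rw [h.gg_smul β hm]
      exact mul_ne_zero (by norm_num) hx.2
    rw [← h.fibre e β he hmiss hc (-1 * x) hx1]
    congr 1
    ext y
    rw [Finset.mem_filter, Finset.mem_filter, h.GG_smul e β hm]
    simp only [Finset.mem_univ, true_and]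
    constructor
    · intro h0
      linear_combination h0
    · intro h0
      linear_combination h0
  rw [Finset.sum_congr rfl h1, Finset.sum_congr rfl h2, Finset.sum_const, Finset.sum_const, hz,
    smul_eq_mul, smul_eq_mul]
  have h5 : (Finset.univ.filter (fun x : L => ¬ gg Q r β x = 0)).card = (Q - 1) * (Q - 1) := hc
  rw [h5]

theorem core (h : NC L Q r) (e β w t : L) :
    TT Q e (gg Q r β (w * t)) + TT Q e (gg Q r β (w * (1 - t))) =
      TT Q e (ff Q r w * DD Q r t - AA Q β w) := by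
  rw [← h.TT_add]
  congr 1
  unfold gg DD
  rw [ff_mul, ff_mul]
  have h1 := h.AA_add β (w * t) (w * (1 - t))
  rw [show w * t + w * (1 - t) = w by ring] at h1
  rw [h1]
  ring

theorem countN' (h : NC L Q r) (e β : L) :
    (Finset.univ.filter fun p : L × L =>
      TT Q e (gg Q r β p.1) + TT Q e (gg Q r β p.2) = 0).card =
      Q * Q + ∑ t : L, (Finset.univ.filter fun w : L => w ≠ 0 ∧
        TT Q e (ff Q r w * DD Q r t - AA Q β w) = 0).card := by
  rw [← Finset.card_filter_add_card_filter_not (s := Finset.univ.filter fun p : L × L =>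
      TT Q e (gg Q r β p.1) + TT Q e (gg Q r β p.2) = 0) (fun p : L × L => p.1 + p.2 = 0)]
  have hm : ((-1 : L)) ^ Q = -1 := h.odd.neg_one_pow
  congr 1
  · rw [← h.card, ← Finset.card_univ]
    refine Finset.card_bij' (fun p _ => p.1) (fun x _ => (x, -1 * x)) ?_ ?_ ?_ ?_
    · intro p _
      exact Finset.mem_univ _
    · intro x _
      rw [Finset.mem_filter, Finset.mem_filter]
      refine ⟨⟨Finset.mem_univ _, ?_⟩, ?_⟩
      · rw [h.GG_smul e β hm]
        ring
      · ring
    · intro p hp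
      rw [Finset.mem_filter] at hp
      refine Prod.ext rfl ?_
      show -1 * p.1 = p.2
      linear_combination -hp.2
    · intro x _
      rfl
  · rw [← count_prod (fun t w : L => w ≠ 0 ∧ TT Q e (ff Q r w * DD Q r t - AA Q β w) = 0)]
    refine Finset.card_bij' (fun p _ => (p.1 / (p.1 + p.2), p.1 + p.2))
      (fun q _ => (q.2 * q.1, q.2 * (1 - q.1))) ?_ ?_ ?_ ?_
    · intro p hp
      rw [Finset.mem_filter, Finset.mem_filter] at hp
      obtain ⟨⟨-, h1⟩, h2⟩ := hp
      rw [Finset.mem_filter]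
      refine ⟨Finset.mem_univ _, h2, ?_⟩
      rw [← h.core e β]
      have e1 : (p.1 + p.2) * (p.1 / (p.1 + p.2)) = p.1 := mul_div_cancel₀ _ h2
      have e2 : (p.1 + p.2) * (1 - p.1 / (p.1 + p.2)) = p.2 := by
        linear_combination -e1
      show TT Q e (gg Q r β ((p.1 + p.2) * (p.1 / (p.1 + p.2)))) +
        TT Q e (gg Q r β ((p.1 + p.2) * (1 - p.1 / (p.1 + p.2)))) = 0
      rw [e1, e2, h1]
    · intro q hq
      rw [Finset.mem_filter] at hq
      obtain ⟨-, h1, h2⟩ := hq
      rw [Finset.mem_filter, Finset.mem_filter]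
      refine ⟨⟨Finset.mem_univ _, ?_⟩, ?_⟩
      · show TT Q e (gg Q r β (q.2 * q.1)) + TT Q e (gg Q r β (q.2 * (1 - q.1))) = 0
        rw [h.core e β]
        exact h2
      · show ¬ (q.2 * q.1 + q.2 * (1 - q.1) = 0)
        rw [show q.2 * q.1 + q.2 * (1 - q.1) = q.2 by ring]
        exact h1
    · intro p hp
      rw [Finset.mem_filter, Finset.mem_filter] at hp
      obtain ⟨⟨-, h1⟩, h2⟩ := hp
      have e1 : (p.1 + p.2) * (p.1 / (p.1 + p.2)) = p.1 := mul_div_cancel₀ _ h2
      have e2 : (p.1 + p.2) * (1 - p.1 / (p.1 + p.2)) = p.2 := by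
        linear_combination -e1
      exact Prod.ext e1 e2
    · intro q hq
      rw [Finset.mem_filter] at hq
      obtain ⟨-, h1, h2⟩ := hq
      have e1 : q.2 * q.1 + q.2 * (1 - q.1) = q.2 := by ring
      refine Prod.ext ?_ e1
      show q.2 * q.1 / (q.2 * q.1 + q.2 * (1 - q.1)) = q.1
      rw [e1, mul_div_cancel_left₀ _ h1]

/-- the two relations satisfied by the multiplicities -/
theorem relations (h : NC L Q r) (a : ℕ)
    (ha : ∀ v : L, v ≠ 1 → fc (DD Q r) v = 0 ∨ fc (DD Q r) v = a) :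
    ∃ M M2 : ℕ, Q * Q = fc (DD Q r) (1 : L) + a * M ∧
      Q * Q + Q = 2 * fc (DD Q r) (1 : L) + a * M2 := by
  have h3 := h.three
  obtain ⟨x0, β, hx0, hβ, hβ0, hβ1⟩ := h.exists_x0
  have hz := h.card_zero β x0 hx0 hβ hβ0 hβ1
  have hc := h.card_nonzero β hz
  obtain ⟨e, he, hmiss⟩ := h.exists_missed β hc
  have hN := h.countN e β he hmiss hz hc
  rw [h.countN' e β] at hN
  rw [sum_fc_mul (DD Q r) (fun v => (Finset.univ.filter fun w : L => w ≠ 0 ∧
        TT Q e (ff Q r w * v - AA Q β w) = 0).card)] at hN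
  obtain ⟨m, hm⟩ : ∃ m : L → ℕ, m = (fun v => (Finset.univ.filter fun w : L => w ≠ 0 ∧
        TT Q e (ff Q r w * v - AA Q β w) = 0).card) := ⟨_, rfl⟩
  have hN' : Q * Q + ∑ v : L, fc (DD Q r) v * m v =
      (2 * Q - 1) * (2 * Q - 1) + (Q - 1) * (Q - 1) * (Q - 1) := by rw [hm]; exact hN
  -- `m 1`
  have m1 : m 1 = 2 * Q - 2 := by
    have h4 : (Finset.univ.filter fun w : L => w ≠ 0 ∧
        TT Q e (ff Q r w * 1 - AA Q β w) = 0) =
        (Finset.univ.filter fun x : L => gg Q r β x = 0).erase 0 := by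
      ext w
      rw [Finset.mem_erase, Finset.mem_filter, Finset.mem_filter]
      simp only [Finset.mem_univ, true_and, mul_one]
      apply and_congr_right
      intro _
      constructor
      · intro h0
        by_contra h5
        exact hmiss w h5 h0
      · intro h0
        have : ff Q r w - AA Q β w = 0 := h0
        rw [this, h.TT_0]
    rw [hm]
    show (Finset.univ.filter fun w : L => w ≠ 0 ∧
        TT Q e (ff Q r w * 1 - AA Q β w) = 0).card = _
    rw [h4, Finset.card_erase_of_mem, hz]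
    · omega
    · rw [Finset.mem_filter]
      exact ⟨Finset.mem_univ _, h.gg_0 β⟩
  have mdvd : ∀ v : L, (Q - 1) ∣ m v := by
    intro v
    rw [hm]
    apply h.dvd_of_stable
    · intro h0
      rw [Finset.mem_filter] at h0
      exact h0.2.1 rfl
    · intro c x hc' hx
      rw [Finset.mem_filter] at hx ⊢
      obtain ⟨hcQ, hc0⟩ := h.Kstar c hc'
      refine ⟨Finset.mem_univ _, mul_ne_zero hc0 hx.2.1, ?_⟩
      rw [h.ff_smul hcQ, h.AA_smul β hcQ, show c * ff Q r x * v - c * AA Q β x =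
        c * (ff Q r x * v - AA Q β x) by ring, h.TT_smul e hcQ, hx.2.2, mul_zero]
  have hs1 := Finset.add_sum_erase Finset.univ (fun v : L => fc (DD Q r) v * m v)
    (Finset.mem_univ (1 : L))
  have hs2 := Finset.add_sum_erase Finset.univ (fun v : L => fc (DD Q r) v)
    (Finset.mem_univ (1 : L))
  have d1 : a * (Q - 1) ∣ ∑ v ∈ Finset.univ.erase (1 : L), fc (DD Q r) v * m v := by
    apply Finset.dvd_sum
    intro v hv
    rw [Finset.mem_erase] at hv
    rcases ha v hv.1 with h0 | h0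
    · rw [h0, zero_mul]
      exact dvd_zero _
    · rw [h0]
      exact mul_dvd_mul_left a (mdvd v)
  have d2 : a ∣ ∑ v ∈ Finset.univ.erase (1 : L), fc (DD Q r) v := by
    apply Finset.dvd_sum
    intro v hv
    rw [Finset.mem_erase] at hv
    rcases ha v hv.1 with h0 | h0
    · rw [h0]
      exact dvd_zero _
    · rw [h0]
  obtain ⟨M2, hM2⟩ := d1
  obtain ⟨M, hM⟩ := d2
  refine ⟨M, M2, ?_, ?_⟩
  · have h4 : Q * Q = ∑ v : L, fc (DD Q r) v := by
      rw [Pool.Agent.H470.sum_fc, h.card]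
    rw [h4, ← hs2, hM]
  · rw [← hs1, hM2] at hN'
    rw [m1] at hN'
    obtain ⟨t, ht⟩ : ∃ t, Q = t + 1 := ⟨Q - 1, by omega⟩
    have ht2 : 2 ≤ t := by omega
    have e1 : Q - 1 = t := by omega
    have e2 : 2 * Q - 1 = 2 * t + 1 := by omega
    have e3 : 2 * Q - 2 = 2 * t := by omega
    rw [e1, e2, e3] at hN'
    obtain ⟨b, hb⟩ : ∃ b, b = fc (DD Q r) (1 : L) := ⟨_, rfl⟩
    rw [← hb] at hN' ⊢
    rw [ht] at hN' ⊢
    have e4 : t * ((t + 1) * (t + 1) + (t + 1)) = t * (2 * b + a * M2) := by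
      linarith
    exact Nat.eq_of_mul_eq_mul_left (by omega) e4

/-- **the common multiplicity is two** -/
theorem a_two (h : NC L Q r) (a : ℕ)
    (ha : ∀ v : L, v ≠ 1 → fc (DD Q r) v = 0 ∨ fc (DD Q r) v = a) : a = 2 := by
  obtain ⟨H, hH, haH, hb⟩ := h.data a ha
  obtain ⟨M, M2, e1, e2⟩ := h.relations a ha
  obtain ⟨n, rfl⟩ : ∃ n, H = n + 2 := ⟨H - 2, by omega⟩
  have e3 : n + 2 - 1 = n + 1 := by omega
  have e4 : n + 2 - 2 = n := by omega
  rw [e3] at haH
  rw [e3, e4] at hb
  rw [hb] at e1 e2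
  have e5 : ((n + 2 : ℕ) : ℤ) ∣ n := by
    refine ⟨(M : ℤ) - M2, ?_⟩
    have e6 : ((n + 1 : ℕ) : ℤ) ≠ 0 := by positivity
    apply mul_left_cancel₀ e6
    rw [haH] at e1 e2
    zify at e1 e2
    push_cast
    linear_combination e1 - e2
  have e7 : n + 2 ∣ n := by exact_mod_cast e5
  have e8 : n = 0 := by
    by_contra h0
    have := Nat.le_of_dvd (by omega) e7
    omega
  rw [haH, e8]

end NC
end Pool.Agent.H470
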