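import Pool.Agent.H470.Niho4
import Pool.Agent.H470.Reduce

/-!
# Niho exponents: conclusion
-/

set_option autoImplicit false
set_option linter.all false

namespace Pool.Agent.H470

namespace NC
variable {L : Type} [Field L] [Fintype L] [DecidableEq L] {Q r : ℕ}

/-- nice exponents in normal form -/
theorem nice (h : NC L Q r) (h2 : (2 : L) ≠ 0)
    (hn : (Finset.univ.image (fc (DD (L := L) Q r))).card ≤ 3) :
    (∃ v : L, fc (DD Q r) v = 2) ∧ fc (DD Q r) (1 : L) = Q ∧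
      ∀ v : L, v ≠ 1 → fc (DD Q r) v = 0 ∨ fc (DD Q r) v = 2 := by
  have h3 := h.three
  have hhalf : DD Q r (2⁻¹ : L) = 1 := by
    apply h.DD_K
    have e1 : (2 : L) ^ Q = 2 := by
      have := h.add 1 1
      rw [one_pow, show (1 : L) + 1 = 2 by norm_num] at this
      exact this
    rw [inv_pow, e1]
  have hsym : ∀ x : L, DD Q r (1 - x) = DD Q r x := by
    intro x
    unfold DD
    rw [show 1 - (1 - x) = x by ring, add_comm]
  -- some value different from `1` is attained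
  have hbig : fc (DD Q r) (DD Q r (2⁻¹ : L)) < Fintype.card L := by
    rw [hhalf]
    obtain ⟨ζ, hζ⟩ := exists_prim (L := L) (Q + 1) (by rw [h.fact]; exact dvd_mul_left _ _)
    have hζn : ζ * ζ ^ Q = 1 := (normone ζ).2 hζ.pow_eq_one
    have hne1 : ζ ^ r ≠ 1 := fun h0 => h.h1 ((hζ.pow_eq_one_iff_dvd r).1 h0)
    have hnorm : ζ ^ r * (ζ ^ r) ^ Q = 1 := by
      rw [pow_right_comm, ← mul_pow, hζn, one_pow]
    have hpos : 0 < fc (DD Q r) (ζ ^ r) := by
      rw [h.fc_ne _ hnorm hne1, offDiag_mul, h.card_Th_pow r ζ hζn hne1]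
      have h4 : 2 ∣ Nat.gcd r (Q + 1) :=
        Nat.dvd_gcd (even_iff_two_dvd.1 h.rev) (even_iff_two_dvd.1 h.odd.add_one)
      have h5 : 0 < Nat.gcd r (Q + 1) := Nat.gcd_pos_of_pos_right _ (by omega)
      have h6 := Nat.le_of_dvd h5 h4
      have h7 : 0 < Nat.gcd r (Q + 1) * (Nat.gcd r (Q + 1) - 1) := Nat.mul_pos h5 (by omega)
      omega
    unfold fc at hpos ⊢
    rw [Finset.card_pos] at hpos
    obtain ⟨x, hx⟩ := hpos
    rw [Finset.mem_filter] at hx
    rw [← Finset.card_univ]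
    apply Finset.card_lt_card
    rw [Finset.ssubset_iff_of_subset (Finset.filter_subset _ _)]
    refine ⟨x, Finset.mem_univ _, ?_⟩
    rw [Finset.mem_filter]
    rintro ⟨-, h8⟩
    rw [h8] at hx
    exact hne1 hx.2.symm
  obtain ⟨a, ha0, hae, hav, v, hv⟩ := nice_fc h2 (DD Q r) hsym hn hbig
  rw [hhalf] at hav
  have ha2 := h.a_two a hav
  rw [ha2] at hav hv
  refine ⟨⟨v, hv⟩, ?_, hav⟩
  obtain ⟨H, hH, haH, hb⟩ := h.data 2 hav
  have hH2 : H = 2 := by
    by_contra hcon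
    have h4 : 3 ≤ H := by omega
    have : 3 * 2 ≤ H * (H - 1) := Nat.mul_le_mul h4 (by omega)
    omega
  rw [hb, hH2]
  norm_num

end NC

section
variable {L : Type} [Field L] [Fintype L] [DecidableEq L]

/-- normal form of a Niho exponent -/
theorem niho_normal (hchar : ringChar L ≠ 2) (Q : ℕ) (hQ : Fintype.card L = Q ^ 2) (s : ℕ)
    (hk : ∃ k : ℕ, s ≡ ringChar L ^ k [MOD Q - 1])
    (hs : ¬ ∃ k : ℕ, s ≡ ringChar L ^ k [MOD Fintype.card L - 1]) :
    0 < s ∧ ∃ r j : ℕ, NC L Q r ∧ s ≡ (1 + r * (Q - 1)) * ringChar L ^ j [MOD Fintype.card L - 1] := by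
  obtain ⟨k, hk⟩ := hk
  have hpr : (ringChar L).Prime := CharP.char_is_prime L (ringChar L)
  obtain ⟨n, hn, hcard⟩ := FiniteField.card L (ringChar L)
  obtain ⟨p, hp⟩ : ∃ p, p = ringChar L := ⟨_, rfl⟩
  rw [← hp] at hk hs hpr hchar hcard ⊢
  have hpodd : Odd p := hpr.odd_of_ne_two hchar
  have hQdvd : Q ∣ p ^ (n : ℕ) := by
    rw [← hcard, hQ]
    exact ⟨Q, sq Q⟩
  obtain ⟨m, hmn, hQm⟩ := (Nat.dvd_prime_pow hpr).1 hQdvd
  have hcard1 : 1 < Fintype.card L := Fintype.one_lt_card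
  have hm : 0 < m := by
    rcases Nat.eq_zero_or_pos m with h | h
    · rw [h, pow_zero] at hQm
      rw [hQ, hQm] at hcard1
      norm_num at hcard1
    · exact h
  have hQodd : Odd Q := by rw [hQm]; exact hpodd.pow
  have hQ3 : 3 ≤ Q := by
    have h1 : 1 < Q := by
      by_contra hcon
      have : Q = 0 ∨ Q = 1 := by omega
      rcases this with h | h <;> rw [hQ, h] at hcard1 <;> norm_num at hcard1
    obtain ⟨t, ht⟩ := hQodd
    omega
  have hs0 : 0 < s := by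
    rcases Nat.eq_zero_or_pos s with h | h
    · exfalso
      rw [h] at hk
      have h1 : (Q - 1) ∣ p ^ k := (Nat.modEq_zero_iff_dvd).1 hk.symm
      have h2 : 2 ∣ Q - 1 := by
        obtain ⟨t, ht⟩ := hQodd
        exact ⟨t, by omega⟩
      have h3 : 2 ∣ p := Nat.prime_two.dvd_of_dvd_pow (h2.trans h1)
      exact (Nat.not_even_iff_odd.2 hpodd) (even_iff_two_dvd.2 h3)
    · exact h
  refine ⟨hs0, ?_⟩
  have hQ1 : Q ≡ 1 [MOD Q - 1] := by
    rw [Nat.ModEq.comm]
    exact (Nat.modEq_iff_dvd' (by omega)).2 dvd_rfl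
  have hc1 : Fintype.card L ≡ 1 [MOD Fintype.card L - 1] := by
    rw [Nat.ModEq.comm]
    exact (Nat.modEq_iff_dvd' (by omega)).2 dvd_rfl
  have hcm : Fintype.card L = p ^ (2 * m) := by rw [hQ, hQm, ← pow_mul, mul_comm]
  -- the normal form
  have key : ∃ i r : ℕ, Even r ∧ s * p ^ i = 1 + r * (Q - 1) := by
    obtain ⟨m', rfl⟩ : ∃ m', m = m' + 1 := ⟨m - 1, by omega⟩
    have h1 : s * p ^ (m' * k) ≡ 1 [MOD Q - 1] := by
      have h2 : s * p ^ (m' * k) ≡ p ^ k * p ^ (m' * k) [MOD Q - 1] := hk.mul_right _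
      have h3 : p ^ k * p ^ (m' * k) = Q ^ k := by
        rw [hQm, ← pow_add, ← pow_mul]
        congr 1
        ring
      rw [h3] at h2
      have h4 := hQ1.pow k
      rw [one_pow] at h4
      exact h2.trans h4
    have h5 : 1 ≤ s * p ^ (m' * k) := Nat.mul_pos hs0 (pow_pos hpr.pos _)
    obtain ⟨r0, hr0⟩ := (Nat.modEq_iff_dvd' h5).1 h1.symm
    have h6 : s * p ^ (m' * k) = 1 + r0 * (Q - 1) := by
      rw [mul_comm r0]
      omega
    by_cases hr : Even r0
    · exact ⟨m' * k, r0, hr, h6⟩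
    · rw [Nat.not_even_iff_odd] at hr
      refine ⟨m' * k + (m' + 1), 1 + r0 * Q, ?_, ?_⟩
      · rw [add_comm]
        exact (hr.mul hQodd).add_one
      · rw [pow_add, ← hQm, ← mul_assoc, h6]
        obtain ⟨t, ht⟩ : ∃ t, Q = t + 1 := ⟨Q - 1, by omega⟩
        rw [ht]
        simp only [Nat.add_sub_cancel]
        ring
  obtain ⟨i, r, hr, hi⟩ := key
  have hmod : s ≡ (1 + r * (Q - 1)) * p ^ ((2 * m - 1) * i) [MOD Fintype.card L - 1] := by
    rw [← hi, mul_assoc, ← pow_add]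
    have h1 : i + (2 * m - 1) * i = (2 * m) * i := by
      obtain ⟨m', rfl⟩ : ∃ m', m = m' + 1 := ⟨m - 1, by omega⟩
      have : 2 * (m' + 1) - 1 = 2 * m' + 1 := by omega
      rw [this]
      ring
    rw [h1, pow_mul, ← hcm]
    have h2 := (hc1.pow i).mul_left s
    rw [one_pow, mul_one] at h2
    exact h2.symm
  have hfact : (Q - 1) * (Q + 1) = Fintype.card L - 1 := by
    rw [hQ]
    obtain ⟨t, ht⟩ : ∃ t, Q = t + 1 := ⟨Q - 1, by omega⟩
    rw [ht]
    simp only [Nat.add_sub_cancel]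
    have : (t + 1) ^ 2 = t * (t + 1 + 1) + 1 := by ring
    omega
  have hne1 : ¬ (Q + 1) ∣ r := by
    rintro ⟨c, hc⟩
    apply hs
    refine ⟨(2 * m - 1) * i, hmod.trans ?_⟩
    have h1 : 1 + r * (Q - 1) ≡ 1 [MOD Fintype.card L - 1] := by
      rw [Nat.ModEq.comm]
      refine (Nat.modEq_iff_dvd' (by omega)).2 ⟨c, ?_⟩
      rw [← hfact, hc]
      have : 1 + (Q + 1) * c * (Q - 1) - 1 = (Q + 1) * c * (Q - 1) := by omega
      rw [this]
      ring
    have h2 := h1.mul_right (p ^ ((2 * m - 1) * i))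
    rw [one_mul] at h2
    exact h2
  have hr2 : 2 ≤ r := by
    obtain ⟨t, ht⟩ := hr
    by_contra hcon
    have : r = 0 := by omega
    rw [this] at hne1
    exact hne1 (dvd_zero _)
  have hne2 : ¬ (Q + 1) ∣ r - 1 := by
    rintro ⟨c, hc⟩
    apply hs
    refine ⟨m + (2 * m - 1) * i, hmod.trans ?_⟩
    have h1 : 1 + r * (Q - 1) ≡ Q [MOD Fintype.card L - 1] := by
      rw [Nat.ModEq.comm]
      have hr1 : r = (Q + 1) * c + 1 := by omega
      have h3 : 1 + r * (Q - 1) = Q + (Q + 1) * c * (Q - 1) := by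
        rw [hr1]
        obtain ⟨t, ht⟩ : ∃ t, Q = t + 1 := ⟨Q - 1, by omega⟩
        rw [ht]
        simp only [Nat.add_sub_cancel]
        ring
      rw [h3]
      refine (Nat.modEq_iff_dvd' (by omega)).2 ⟨c, ?_⟩
      rw [← hfact]
      have : Q + (Q + 1) * c * (Q - 1) - Q = (Q + 1) * c * (Q - 1) := by omega
      rw [this]
      ring
    have h2 := h1.mul_right (p ^ ((2 * m - 1) * i))
    rw [hQm, ← pow_add] at h2
    rw [← hQm] at h2
    exact h2
  refine ⟨r, (2 * m - 1) * i, ⟨?_, hQodd, hQ3, ?_, hr, hne1, hne2⟩, hmod⟩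
  · rw [hQ, sq]
  · intro x y
    rw [hQm, hp]
    exact frob_add m x y

end
end Pool.Agent.H470
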