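import Pool.Agent.H470.LocQ
import Pool.Agent.H470.MainPos

/-!
# Positive exponents, quantitative form
-/

set_option autoImplicit false
set_option linter.all false

open Polynomial

namespace Pool.Agent.H470

/-- **Finite places.** -/
theorem finite_q (e : ℕ) (he : Odd e) (h1 : 1 < e) (F : Type) [Field F] [Fintype F]
    [DecidableEq F] (hC : 10000 * (e - 1) ^ 24 < Fintype.card F) (hchar : ringChar F ≠ 2)
    (hee : (e : F) ≠ 0) (hee1 : ((e - 1 : ℕ) : F) ≠ 0) (v0 : F) (a : ℕ)
    (hval : ∀ t, t ≠ v0 → cnt e t = 0 ∨ cnt e t = a) (v c : F) (hc : c ≠ 0) :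
    (cnt e v : ℤ) + quadraticChar F c * quadraticChar F (2 * e * (e - 1 : ℕ)) * tw e v = 0 ∨
    (cnt e v : ℤ) + quadraticChar F c * quadraticChar F (2 * e * (e - 1 : ℕ)) * tw e v = a := by
  classical
  have h2F : (2 : F) ≠ 0 := Ring.two_ne_zero hchar
  let k := AlgebraicClosure F
  have hinj := (algebraMap F k).injective
  have h2k : (2 : k) ≠ 0 := by
    have := (map_ne_zero_iff (algebraMap F k) hinj).2 h2F
    rwa [map_ofNat] at this
  have heek : (e : k) ≠ 0 := by
    have := (map_ne_zero_iff (algebraMap F k) hinj).2 hee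
    rwa [map_natCast] at this
  have heek1 : ((e - 1 : ℕ) : k) ≠ 0 := by
    have := (map_ne_zero_iff (algebraMap F k) hinj).2 hee1
    rwa [map_natCast] at this
  obtain ⟨hAm, hAn⟩ := A_props (F := F) he h1 hee
  set A := C (e : F)⁻¹ * dP F e with hA
  set B : F[X] := C (e : F)⁻¹ with hB
  have hinv : (e : F)⁻¹ ≠ 0 := inv_ne_zero hee
  have hBd : B.degree < A.degree := by
    rw [hB, degree_C hinv, degree_eq_natDegree hAm.ne_zero, hAn]
    exact_mod_cast (by omega : 0 < e - 1)
  set P := A - C v * B with hP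
  have hPform : P = C (e : F)⁻¹ * (dP F e - C v) := by rw [hP, hA, hB]; ring
  have hPd : (C v * B).degree < A.degree := lt_of_le_of_lt (degree_C_mul_le' _ _) hBd
  have hPm : P.Monic := hAm.sub_of_left hPd
  have hP0 : P ≠ 0 := hPm.ne_zero
  -- second derivatives
  have hdd : ∀ (K : Type) [Field K] (f : F →+* K), ∀ y : K, (e : K) ≠ 0 → ((e - 1 : ℕ) : K) ≠ 0 →
      (P.map f).derivative.eval y = 0 → (P.map f).derivative.derivative.eval y ≠ 0 := by
    intro K _ f y hK1 hK2 h
    have hform : P.map f = C (f (e : F)⁻¹) * (dP K e - C (f v)) := by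
      rw [hPform, Polynomial.map_mul, Polynomial.map_sub, map_C, map_C, dP_map]
    have hf : f (e : F)⁻¹ ≠ 0 := (map_ne_zero_iff f f.injective).2 hinv
    rw [hform] at h ⊢
    simp only [derivative_mul, derivative_C, derivative_sub, zero_mul, zero_add, sub_zero, eval_mul,
      eval_C, mul_eq_zero] at h ⊢
    exact mul_ne_zero hf (dP_double (by omega) hK1 hK2 y (h.resolve_left hf))
  have hmultk : ∀ y : k, (P.map (algebraMap F k)).IsRoot y →
      (P.map (algebraMap F k)).rootMultiplicity y = 1 ∨ (P.map (algebraMap F k)).rootMultiplicity y = 2 := by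
    intro y hy
    rcases mult_le_two h2k (P.map (algebraMap F k)) (hPm.map _).ne_zero y hy
      (hdd k (algebraMap F k) y heek heek1) with h | h
    · exact Or.inl h.2
    · exact Or.inr h.2
  have hdd' : ∀ y : F, P.derivative.eval y = 0 → P.derivative.derivative.eval y ≠ 0 := by
    intro y h
    have := hdd F (RingHom.id F) y hee hee1
    rw [Polynomial.map_id] at this
    exact this h
  have hcnt : ∀ t : F, {z : F | (A - C t * B).eval z = 0}.ncard = cnt e t := by
    intro t
    unfold cnt
    rw [← Set.ncard_coe_finset]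
    congr 1
    ext z
    rw [hA, hB]
    simp only [Set.mem_setOf_eq, Finset.coe_filter, Finset.mem_univ, true_and, eval_sub, eval_mul, eval_C,
      dP_eval]
    constructor
    · intro h
      have h3 : (e : F)⁻¹ * (z ^ e + (1 - z) ^ e - t) = 0 := by rw [← h]; ring
      exact sub_eq_zero.1 ((mul_eq_zero.1 h3).resolve_left hinv)
    · intro h
      rw [h]
      ring
  have hdich := local_q (e - 1) 2 (by omega) (by norm_num) F k hC A B hAm hAn hBd v c hc
    (by
      intro y _
      rw [hB, map_C, eval_C]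
      exact (map_ne_zero_iff (algebraMap F k) hinj).2 hinv)
    (by
      intro y hy
      rcases hmultk y hy with h | h
      · rw [h]; simp
      · rw [h]; exact_mod_cast h2k)
    (by
      intro y hy
      rcases hmultk y hy with h | h
      · rw [h]; exact one_dvd _
      · rw [h])
    {v0} (by rw [Finset.card_singleton]; omega) a
    (by
      intro t ht
      rw [hcnt]
      exact hval t (by simpa using ht))
  suffices hsuff : (FixN P B c : ℤ) =
      cnt e v + quadraticChar F c * quadraticChar F (2 * e * (e - 1 : ℕ)) * tw e v by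
    rw [← hsuff]
    rcases hdich with h | h
    · left; exact_mod_cast h
    · right; exact_mod_cast h
  rw [FixN_eq hchar P B hP0 c hc
    (by
      intro y _
      rw [hB, eval_C]
      exact hinv)
    (by
      intro y hy
      rcases mult_le_two h2F P hP0 y hy (hdd' y) with h | h
      · exact Or.inl h.2
      · exact Or.inr h.2)]
  have hroot : ∀ y : F, P.eval y = 0 ↔ y ^ e + (1 - y) ^ e = v := by
    intro y
    rw [hPform]
    simp only [eval_mul, eval_sub, eval_C, dP_eval, mul_eq_zero]
    constructor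
    · intro h
      exact sub_eq_zero.1 (h.resolve_left hinv)
    · intro h
      exact Or.inr (sub_eq_zero.2 h)
  have hcard : (Finset.univ.filter fun y : F => P.eval y = 0).card = cnt e v := by
    unfold cnt
    congr 1
    ext y
    simp only [Finset.mem_filter, Finset.mem_univ, true_and]
    exact hroot y
  rw [hcard]
  congr 1
  rw [mul_assoc]
  congr 1
  unfold tw
  rw [Finset.mul_sum]
  have hder : ∀ y : F, P.derivative.eval y = 0 ↔ y ^ (e - 1) = (1 - y) ^ (e - 1) := by
    intro y
    rw [hPform]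
    simp only [derivative_mul, derivative_C, derivative_sub, zero_mul, zero_add, sub_zero, eval_mul, eval_C,
      dP_derivative, eval_sub, eval_pow, eval_X, eval_one]
    constructor
    · intro h
      have h3 := (mul_eq_zero.1 h).resolve_left hinv
      exact sub_eq_zero.1 ((mul_eq_zero.1 h3).resolve_left hee)
    · intro h
      rw [h]
      ring
  have hset : (Finset.univ.filter fun y : F => P.eval y = 0 ∧ P.rootMultiplicity y = 2) =
      Finset.univ.filter fun y : F => y ^ e + (1 - y) ^ e = v ∧ y ^ (e - 1) = (1 - y) ^ (e - 1) := by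
    ext y
    simp only [Finset.mem_filter, Finset.mem_univ, true_and]
    constructor
    · rintro ⟨h3, h4⟩
      refine ⟨(hroot y).1 h3, ?_⟩
      rcases mult_le_two h2F P hP0 y h3 (hdd' y) with h | h
      · omega
      · exact (hder y).1 h.1
    · rintro ⟨h3, h4⟩
      have h3' := (hroot y).2 h3
      refine ⟨h3', ?_⟩
      rcases mult_le_two h2F P hP0 y h3' (hdd' y) with h | h
      · exact absurd ((hder y).2 h4) h.1
      · exact h.2
  rw [hset]
  refine Finset.sum_congr rfl fun y hy => ?_
  have hy2 : y ∈ Finset.univ.filter fun y : F => P.eval y = 0 ∧ P.rootMultiplicity y = 2 := by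
    rw [hset]; exact hy
  simp only [Finset.mem_filter, Finset.mem_univ, true_and] at hy hy2
  have hcr := hy.2
  have hcd := cof_double P y hy2.2
  have hder2 : P.derivative.derivative.eval y =
      (e : F)⁻¹ * ((e : F) * ((e - 1 : ℕ) : F) * (y ^ (e - 2) + (1 - y) ^ (e - 2))) := by
    rw [hPform]
    simp only [derivative_mul, derivative_C, derivative_sub, zero_mul, zero_add, sub_zero, eval_mul, eval_C,
      dP_derivative2, eval_sub, eval_pow, eval_X, eval_one, eval_add]
  have hid := crit_identity (by omega : 2 ≤ e) y hcr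
  have hy0 := crit_ne_zero (by omega : 2 ≤ e) y hcr
  have hy1 := crit_ne_one (by omega : 2 ≤ e) y hcr
  -- the square class
  obtain ⟨m, hm⟩ : ∃ m, e - 1 = 2 * m := by
    obtain ⟨m, hm⟩ := he
    exact ⟨m, by omega⟩
  have hcof : B.eval y * cof P y * (2 * e * y * (1 - y)) ^ 2 =
      (2 * e * (e - 1 : ℕ)) * (y * (1 - y)) * (y ^ m) ^ 2 := by
    have h3 : 2 * cof P y = (e : F)⁻¹ * ((e : F) * ((e - 1 : ℕ) : F) * (y ^ (e - 2) + (1 - y) ^ (e - 2))) := by
      rw [← hcd, hder2]
    have h4 : (y ^ m) ^ 2 = y * (1 - y) * (y ^ (e - 2) + (1 - y) ^ (e - 2)) := by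
      rw [hid, hm, ← pow_mul, mul_comm]
    rw [h4]
    have h5 : B.eval y * cof P y * (2 * e * y * (1 - y)) ^ 2 =
        B.eval y * (2 * cof P y) * 2 * (e * y * (1 - y)) ^ 2 := by ring
    rw [h5, h3, hB, eval_C]
    field_simp
  have hne : (2 * (e : F) * y * (1 - y)) ≠ 0 :=
    mul_ne_zero (mul_ne_zero (mul_ne_zero h2F hee) hy0) hy1
  have e1 := qc_mul_sq (B.eval y * cof P y) _ hne
  have e2 := qc_mul_sq ((2 * (e : F) * ((e - 1 : ℕ) : F)) * (y * (1 - y))) (y ^ m) (pow_ne_zero _ hy0)
  rw [hcof, e2] at e1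
  rw [← e1, map_mul]


/-- **The infinite place.** -/
theorem inf_q (e : ℕ) (he : Odd e) (h1 : 1 < e) (F : Type) [Field F] [Fintype F]
    [DecidableEq F] (hC : 10000 * (e - 1) ^ 24 < Fintype.card F) (hee : (e : F) ≠ 0)
    (hee1 : ((e - 1 : ℕ) : F) ≠ 0) (v0 : F) (a : ℕ)
    (hval : ∀ t, t ≠ v0 → cnt e t = 0 ∨ cnt e t = a) :
    (Finset.univ.filter fun z : F => z ^ (e - 1) = 1).card = 0 ∨
      (Finset.univ.filter fun z : F => z ^ (e - 1) = 1).card = a := by
  classical
  have h3 : 3 ≤ e := by
    obtain ⟨m, hm⟩ := he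
    omega
  let k := AlgebraicClosure F
  have hinj := (algebraMap F k).injective
  have heek : (e : k) ≠ 0 := by
    have := (map_ne_zero_iff (algebraMap F k) hinj).2 hee
    rwa [map_natCast] at this
  have heek1 : ((e - 1 : ℕ) : k) ≠ 0 := by
    have := (map_ne_zero_iff (algebraMap F k) hinj).2 hee1
    rwa [map_natCast] at this
  set n := e - 1 with hn
  set f : F[X] := dP F e - 1 with hf
  have hfn : f.natDegree ≤ n := by
    rw [hf]
    refine (natDegree_sub_le _ _).trans (max_le (dP_natDegree_le he) ?_)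
    rw [natDegree_one]
    omega
  have hf0 : f.coeff 0 = 0 := by
    rw [coeff_zero_eq_eval_zero, hf, eval_sub, dP_eval, eval_one, zero_pow (by omega)]
    simp
  have hfn' : f.coeff n = e := by
    rw [hf, coeff_sub, hn, dP_coeff_top he h1, coeff_one, if_neg (by omega), sub_zero]
  set B := reflect n f with hB
  have hB0 : B.eval 0 = e := by
    rw [← coeff_zero_eq_eval_zero, hB, coeff_reflect, revAt_le (by omega), Nat.sub_zero, hfn']
  have hBd : B.degree < (X ^ n : F[X]).degree := by
    rw [degree_X_pow, degree_lt_iff_coeff_zero]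
    intro m hm
    rw [hB, coeff_reflect]
    rcases hm.lt_or_eq with h | h
    · rw [revAt_eq_self_of_lt h]
      exact coeff_eq_zero_of_natDegree_lt (lt_of_le_of_lt hfn h)
    · rw [← h, revAt_le le_rfl, Nat.sub_self, hf0]
  have hPk : (X ^ n - C 0 * B : F[X]).map (algebraMap F k) = X ^ n := by
    rw [C_0, zero_mul, sub_zero, Polynomial.map_pow, map_X]
  have hroot0 : ∀ y : k, ((X ^ n - C 0 * B : F[X]).map (algebraMap F k)).IsRoot y → y = 0 := by
    intro y hy
    rw [hPk] at hy
    have : y ^ n = 0 := by simpa using hy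
    exact (pow_eq_zero_iff (by omega)).1 this
  -- the count
  have hkey : ∀ y : F, y ≠ 0 → B.eval y⁻¹ * y ^ n = y ^ e + (1 - y) ^ e - 1 := by
    intro y hy
    letI : Invertible y := invertibleOfNonzero hy
    have h4 := eval₂_reflect_mul_pow (RingHom.id F) y n f hfn
    rw [invOf_eq_inv] at h4
    rw [hB]
    have h5 : eval₂ (RingHom.id F) y⁻¹ (reflect n f) = (reflect n f).eval y⁻¹ := rfl
    have h6 : eval₂ (RingHom.id F) y f = f.eval y := rfl
    rw [h5, h6] at h4
    rw [h4, hf, eval_sub, dP_eval, eval_one]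
  have hL : ∀ t : F, t ≠ 0 → {z : F | (X ^ n - C t * B).eval z = 0}.ncard = cnt e (1 + t⁻¹) := by
    intro t ht0
    unfold cnt
    rw [← Set.ncard_coe_finset]
    refine Set.ncard_congr (fun z _ => z⁻¹) ?_ ?_ ?_
    · intro z hz
      simp only [Set.mem_setOf_eq, eval_sub, eval_pow, eval_X, eval_mul, eval_C] at hz
      have hz0 : z ≠ 0 := by
        rintro rfl
        rw [zero_pow (by omega), hB0, zero_sub, neg_eq_zero, mul_eq_zero] at hz
        exact hz.elim ht0 hee
      have h4 := hkey z⁻¹ (inv_ne_zero hz0)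
      rw [inv_inv] at h4
      rw [Finset.mem_coe, Finset.mem_filter]
      refine ⟨Finset.mem_univ _, ?_⟩
      have h5 : B.eval z = z ^ n * t⁻¹ := by
        rw [sub_eq_zero.1 hz]
        field_simp
      rw [h5] at h4
      have h6 : z ^ n * t⁻¹ * z⁻¹ ^ n = t⁻¹ := by
        rw [inv_pow]
        field_simp
      rw [h6] at h4
      rw [h4]
      ring
    · intro a b _ _ h
      exact inv_injective h
    · intro y hy
      rw [Finset.mem_coe, Finset.mem_filter] at hy
      have hy0 : y ≠ 0 := by
        rintro rfl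
        have := hy.2
        rw [zero_pow (by omega), sub_zero, one_pow, zero_add] at this
        have h7 : t⁻¹ = 0 := by
          have := sub_eq_zero.2 this
          ring_nf at this
          simpa using this
        exact ht0 (inv_eq_zero.1 h7)
      refine ⟨y⁻¹, ?_, inv_inv y⟩
      simp only [Set.mem_setOf_eq, eval_sub, eval_pow, eval_X, eval_mul, eval_C]
      have h4 := hkey y hy0
      rw [hy.2] at h4
      have h5 : B.eval y⁻¹ = t⁻¹ * y⁻¹ ^ n := by
        have h6 : B.eval y⁻¹ * y ^ n = t⁻¹ := by rw [h4]; ring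
        rw [← h6, inv_pow]
        field_simp
      rw [h5]
      field_simp
      ring
  have hdich := local_q n n (by omega) (by omega) F k hC (X ^ n) B
    (monic_X_pow n) (natDegree_X_pow n) hBd 0 ((e : F)⁻¹) (inv_ne_zero hee)
    (by
      intro y hy
      rw [hroot0 y hy]
      have h4 : (B.map (algebraMap F k)).eval 0 = algebraMap F k (B.eval 0) := by
        rw [← eval_map_apply, map_zero]
      rw [h4, hB0]
      exact (map_ne_zero_iff (algebraMap F k) hinj).2 hee)
    (by
      intro y hy
      rw [hroot0 y hy, hPk, rootMult_X_pow]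
      exact heek1)
    (by
      intro y hy
      rw [hroot0 y hy, hPk, rootMult_X_pow])
    {0, (v0 - 1)⁻¹} (Finset.card_le_two.trans (by omega)) a
    (by
      intro t ht
      rw [Finset.mem_insert, Finset.mem_singleton, not_or] at ht
      obtain ⟨ht0, ht1⟩ := ht
      rw [hL t ht0]
      apply hval
      intro h
      apply ht1
      rw [← h]
      simp)
  suffices hsuff : FixN (X ^ n - C 0 * B) B ((e : F)⁻¹) =
      (Finset.univ.filter fun z : F => z ^ n = 1).card by
    rw [hsuff] at hdich
    exact hdich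
  unfold FixN
  rw [C_0, zero_mul, sub_zero, ← Set.ncard_coe_finset]
  refine Set.ncard_congr (fun z _ => z.2) ?_ ?_ ?_
  · rintro ⟨y, w⟩ ⟨h4, h5⟩
    have hy0 : y = 0 := by
      have : y ^ n = 0 := by simpa using h4
      exact (pow_eq_zero_iff (by omega)).1 this
    subst hy0
    simp only at h5
    rw [rootMult_X_pow, cof_X_pow, hB0, inv_mul_cancel₀ hee, mul_one] at h5
    simpa using h5
  · rintro ⟨y, w⟩ ⟨y', w'⟩ ⟨h4, -⟩ ⟨h4', -⟩ h
    have hy0 : y = 0 := by
      have : y ^ n = 0 := by simpa using h4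
      exact (pow_eq_zero_iff (by omega)).1 this
    have hy0' : y' = 0 := by
      have : y' ^ n = 0 := by simpa using h4'
      exact (pow_eq_zero_iff (by omega)).1 this
    exact Prod.ext (hy0.trans hy0'.symm) h
  · intro w hw
    rw [Finset.mem_coe, Finset.mem_filter] at hw
    refine ⟨(0, w), ⟨?_, ?_⟩, rfl⟩
    · simp only [IsRoot.def, eval_pow, eval_X]
      exact zero_pow (by omega)
    · simp only
      rw [rootMult_X_pow, cof_X_pow, hB0, inv_mul_cancel₀ hee, mul_one]
      exact hw.2


theorem main_pos_q (e : ℕ) (he : Odd e) (h1 : 1 < e) (F : Type) [Field F] [Fintype F]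
    [DecidableEq F] (hC : 10000 * (e - 1) ^ 24 < Fintype.card F) (hchar : ringChar F ≠ 2)
    (hee : (e : F) ≠ 0) (hee1 : ((e - 1 : ℕ) : F) ≠ 0)
    (hnice : (Finset.univ.image (cnt e : F → ℕ)).card ≤ 3) : ∃ v : F, cnt e v = 2 := by
  classical
  have hc3 : e < Fintype.card F := by
    have h3 : e - 1 ≤ (e - 1) ^ 24 := Nat.le_self_pow (by norm_num) _
    omega
  have h2 : (2 : F) ≠ 0 := Ring.two_ne_zero hchar
  set v0 := (2⁻¹ : F) ^ e + (1 - 2⁻¹) ^ e with hv0
  obtain ⟨a, ha0, haev, hval, va, hva⟩ := nice_values h2 e (by omega) hnice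
    (lt_of_le_of_lt (cnt_le e he h1 hee _) (by omega))
  rw [← hv0] at hval
  have hodd := cnt_odd h2 e
  rw [← hv0] at hodd
  set κ := (2 * (e : F) * ((e - 1 : ℕ) : F)) with hκ
  have hκ0 : κ ≠ 0 := mul_ne_zero (mul_ne_zero h2 hee) hee1
  have hκsq : quadraticChar F κ * quadraticChar F κ = 1 := by
    have := quadraticChar_sq_one hκ0
    rw [sq] at this
    exact this
  obtain ⟨g, hg⟩ := quadraticChar_exists_neg_one hchar
  have hg0 : g ≠ 0 := by
    rintro rfl
    simp at hg
  have hvalN : ∀ t : F, t ≠ v0 → cnt e t = 0 ∨ cnt e t = a := fun t ht => hval t ht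
  have hval' : ∀ t : F, t ≠ v0 → (cnt e t : ℤ) = 0 ∨ (cnt e t : ℤ) = a := by
    intro t ht
    rcases hval t ht with h | h
    · left; exact_mod_cast h
    · right; exact_mod_cast h
  have hplus : ∀ v : F, (cnt e v : ℤ) + tw e v = 0 ∨ (cnt e v : ℤ) + tw e v = a := by
    intro v
    have h := finite_q e he h1 F hC hchar hee hee1 v0 a hvalN v κ hκ0
    rw [← hκ, hκsq, one_mul] at h
    exact h
  have hminus : ∀ v : F, (cnt e v : ℤ) - tw e v = 0 ∨ (cnt e v : ℤ) - tw e v = a := by
    intro v
    have h := finite_q e he h1 F hC hchar hee hee1 v0 a hvalN v (κ * g) (mul_ne_zero hκ0 hg0)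
    rw [← hκ, map_mul, hg] at h
    have h3 : quadraticChar F κ * -1 * quadraticChar F κ = -1 := by
      linear_combination (-1 : ℤ) * hκsq
    rw [h3] at h
    have h4 : (cnt e v : ℤ) - tw e v = (cnt e v : ℤ) + -1 * tw e v := by ring
    rw [h4]
    exact h
  have haZ : (0 : ℤ) < a := by exact_mod_cast ha0
  have htw0 : ∀ v : F, v ≠ v0 → tw e v = 0 := by
    intro v hv
    have h3 := hval' v hv
    have h4 := hplus v
    have h5 := hminus v
    omega
  have hsum : ∑ v : F, tw e v = tw e v0 := by
    refine Finset.sum_eq_single v0 (fun v _ hv => htw0 v hv) ?_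
    intro h
    exact absurd (Finset.mem_univ _) h
  rw [sum_tw, sum_crit e he h1 h2] at hsum
  have hp0 := hplus v0
  have hm0 := hminus v0
  obtain ⟨b', hb'⟩ := hodd
  obtain ⟨a', ha'⟩ := haev
  have hb : (cnt e v0 : ℤ) = 2 * b' + 1 := by rw [hb']; push_cast; ring
  have haa : (a : ℤ) = 2 * a' := by rw [ha']; push_cast; ring
  have hTb : tw e v0 = cnt e v0 ∨ tw e v0 = -(cnt e v0 : ℤ) := by omega
  have h2b : (a : ℤ) = 2 * cnt e v0 := by omega
  set U := Finset.univ.filter fun z : F => z ^ (e - 1) = 1 with hU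
  have heven : Even (e - 1) := by
    obtain ⟨m, hm⟩ := he
    exact ⟨m, by omega⟩
  have hm1 : (-1 : F) ∈ U := by
    rw [hU, Finset.mem_filter]
    exact ⟨Finset.mem_univ _, heven.neg_one_pow⟩
  have hone : (1 : F) ∈ U := by
    rw [hU, Finset.mem_filter]
    exact ⟨Finset.mem_univ _, one_pow _⟩
  have hU0 : ∀ z ∈ U, z ≠ 0 := by
    intro z hz h
    rw [hU, Finset.mem_filter, h, zero_pow (by omega)] at hz
    exact zero_ne_one hz.2
  have hpm : quadraticChar F (-1) = 1 ∨ quadraticChar F (-1) = -1 :=
    quadraticChar_dichotomy (neg_ne_zero.2 one_ne_zero)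
  suffices h : (a : ℤ) = 2 by
    refine ⟨va, ?_⟩
    rw [hva]
    exact_mod_cast h
  by_cases hz : ∃ z1 ∈ U, quadraticChar F z1 = -1
  · obtain ⟨z1, hz1, hz1'⟩ := hz
    have hS : ∑ z ∈ U, quadraticChar F z = 0 := by
      have h3 : ∑ z ∈ U, quadraticChar F z = ∑ z ∈ U, quadraticChar F (z1 * z) := by
        have hz10 := hU0 z1 hz1
        have hz1p : z1 ^ (e - 1) = 1 := by
          rw [hU, Finset.mem_filter] at hz1
          exact hz1.2
        symm
        refine Finset.sum_bij' (fun z _ => z1 * z) (fun z _ => z1⁻¹ * z) ?_ ?_ ?_ ?_ ?_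
        · intro z hz
          rw [hU, Finset.mem_filter] at hz ⊢
          refine ⟨Finset.mem_univ _, ?_⟩
          rw [mul_pow, hz1p, hz.2, one_mul]
        · intro z hz
          rw [hU, Finset.mem_filter] at hz ⊢
          refine ⟨Finset.mem_univ _, ?_⟩
          rw [mul_pow, inv_pow, hz1p, hz.2, inv_one, one_mul]
        · intro z _
          rw [← mul_assoc, inv_mul_cancel₀ hz10, one_mul]
        · intro z _
          rw [← mul_assoc, mul_inv_cancel₀ hz10, one_mul]
        · intro z _
          rfl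
      have h4 : ∑ z ∈ U, quadraticChar F (z1 * z) = - ∑ z ∈ U, quadraticChar F z := by
        rw [← Finset.sum_neg_distrib]
        refine Finset.sum_congr rfl fun z _ => ?_
        rw [map_mul, hz1', neg_one_mul]
      rw [h4] at h3
      omega
    rw [hS] at hsum
    omega
  · push Not at hz
    have hall : ∀ z ∈ U, quadraticChar F z = 1 := by
      intro z hz'
      exact (quadraticChar_dichotomy (hU0 z hz')).resolve_right (hz z hz')
    have hS : ∑ z ∈ U, quadraticChar F z = (U.card : ℤ) := by
      rw [Finset.sum_congr rfl hall, Finset.sum_const, nsmul_eq_mul, mul_one]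
    rw [hS, hall _ hm1] at hsum
    have hk : (U.card : ℤ) = 0 ∨ (U.card : ℤ) = a := by
      rcases inf_q e he h1 F hC hee hee1 v0 a hvalN with h | h
      · left; exact_mod_cast h
      · right; exact_mod_cast h
    have hkpos : (0 : ℤ) < U.card := by
      exact_mod_cast Finset.card_pos.2 ⟨1, hone⟩
    omega


end Pool.Agent.H470
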