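import Pool.Agent.H470.MainNegR
import Pool.Agent.H470.QPos

/-!
# The polynomials attached to a positive rational exponent
-/

set_option autoImplicit false
set_option linter.all false

open Polynomial

namespace Pool.Agent.H470

theorem two_expansions {R : Type*} [CommRing R] (e d : ℕ) (hd : 0 < d) (hlt : d < e) (u w : R) :
    ∃ c : R, (u ^ e + w ^ e) ^ d - (u ^ d + w ^ d) ^ e =
      w ^ d * (-(e : R) * u ^ (d * (e - 1)) + w * c) := by
  obtain ⟨k1, h1⟩ := Polynomial.powAddExpansion (u ^ e) (w ^ e) d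
  obtain ⟨k2, h2⟩ := Polynomial.powAddExpansion (u ^ d) (w ^ d) e
  obtain ⟨a, ha⟩ : ∃ a, e = d + (a + 1) := ⟨e - d - 1, by omega⟩
  obtain ⟨b, hb⟩ : ∃ b, d = b + 1 := ⟨d - 1, by omega⟩
  refine ⟨d * (u ^ e) ^ (d - 1) * w ^ a + k1 * w ^ (e + a) - k2 * w ^ b, ?_⟩
  rw [h1, h2]
  have e1 : (u ^ e) ^ d = (u ^ d) ^ e := by rw [← pow_mul, ← pow_mul, mul_comm]
  have e2 : w ^ e = w ^ d * (w * w ^ a) := by
    rw [← pow_succ', ← pow_add]
    congr 1
  have e3 : (w ^ e) ^ 2 = w ^ d * (w * w ^ (e + a)) := by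
    rw [← pow_succ', ← pow_add, ← pow_mul]
    congr 1
    omega
  have e4 : (w ^ d) ^ 2 = w ^ d * (w * w ^ b) := by
    rw [← pow_succ', ← pow_add, ← pow_mul]
    congr 1
    omega
  have e5 : u ^ (d * (e - 1)) = (u ^ d) ^ (e - 1) := by rw [← pow_mul]
  rw [e1, e5, e3, e4]
  have e6 : ((d : R) * (u ^ e) ^ (d - 1) * w ^ e) = d * (u ^ e) ^ (d - 1) * (w ^ d * (w * w ^ a)) := by
    rw [e2]
  rw [e6]
  ring

/-- the polynomial `f_e ^ d - v f_d ^ e` -/
noncomputable def pP {K : Type*} [Field K] (e d : ℕ) (v : K) : K[X] := dP K e ^ d - C v * dP K d ^ e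

section
variable {K : Type*} [Field K]

theorem pP_eval (e d : ℕ) (v y : K) :
    (pP e d v).eval y = (y ^ e + (1 - y) ^ e) ^ d - v * (y ^ d + (1 - y) ^ d) ^ e := by
  simp [pP, dP_eval]

theorem pP_map {K' : Type*} [Field K'] (f : K →+* K') (e d : ℕ) (v : K) :
    (pP e d v).map f = pP e d (f v) := by
  simp [pP, dP_map]

/-- The basic identity. -/
theorem pP_identity (e d : ℕ) (hd : 0 < d) (hlt : d < e) (v : K) :
    dP K e * dP K d * (pP e d v).derivative =
      C (d : K) * (dP K e).derivative * dP K d * pP e d v +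
      C ((d * e : ℕ) : K) * C v * dP K d ^ e *
        (X ^ (d - 1) * (1 - X) ^ (d - 1) * (X ^ (e - d) - (1 - X) ^ (e - d))) := by
  obtain ⟨b, rfl⟩ : ∃ b, d = b + 1 := ⟨d - 1, by omega⟩
  obtain ⟨g, rfl⟩ : ∃ g, e = b + 1 + (g + 1) := ⟨e - (b + 1) - 1, by omega⟩
  have hA : (pP (b + 1 + (g + 1)) (b + 1) v).derivative =
      C ((b + 1 : ℕ) : K) * dP K (b + 1 + (g + 1)) ^ b * (dP K (b + 1 + (g + 1))).derivative -
      C v * (C ((b + 1 + (g + 1) : ℕ) : K) * dP K (b + 1) ^ (b + 1 + g) * (dP K (b + 1)).derivative) := by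
    unfold pP
    rw [derivative_sub, derivative_mul, derivative_C, zero_mul, zero_add, derivative_pow, derivative_pow]
    rw [show b + 1 - 1 = b by omega, show b + 1 + (g + 1) - 1 = b + 1 + g by omega]
  have hS : C ((b + 1 : ℕ) : K) * (dP K (b + 1 + (g + 1))).derivative * dP K (b + 1) -
      C ((b + 1 + (g + 1) : ℕ) : K) * (dP K (b + 1)).derivative * dP K (b + 1 + (g + 1)) =
      C (((b + 1) * (b + 1 + (g + 1)) : ℕ) : K) * (X ^ b * (1 - X) ^ b * (X ^ (g + 1) - (1 - X) ^ (g + 1))) := by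
    rw [dP_derivative, dP_derivative]
    unfold dP
    rw [show b + 1 - 1 = b by omega, show b + 1 + (g + 1) - 1 = b + 1 + g by omega, Nat.cast_mul, C_mul]
    ring
  rw [show b + 1 - 1 = b by omega, show b + 1 + (g + 1) - (b + 1) = g + 1 by omega]
  rw [hA]
  have h1 : dP K (b + 1 + (g + 1)) ^ (b + 1) = pP (b + 1 + (g + 1)) (b + 1) v +
      C v * dP K (b + 1) ^ (b + 1 + (g + 1)) := by
    unfold pP
    ring
  calc dP K (b + 1 + (g + 1)) * dP K (b + 1) *
        (C ((b + 1 : ℕ) : K) * dP K (b + 1 + (g + 1)) ^ b * (dP K (b + 1 + (g + 1))).derivative -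
        C v * (C ((b + 1 + (g + 1) : ℕ) : K) * dP K (b + 1) ^ (b + 1 + g) * (dP K (b + 1)).derivative))
      = C ((b + 1 : ℕ) : K) * (dP K (b + 1 + (g + 1))).derivative * dP K (b + 1) *
          dP K (b + 1 + (g + 1)) ^ (b + 1) -
        C v * dP K (b + 1) ^ (b + 1 + (g + 1)) *
          (C ((b + 1 + (g + 1) : ℕ) : K) * (dP K (b + 1)).derivative * dP K (b + 1 + (g + 1))) := by ring
    _ = C ((b + 1 : ℕ) : K) * (dP K (b + 1 + (g + 1))).derivative * dP K (b + 1) *
          pP (b + 1 + (g + 1)) (b + 1) v +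
        C v * dP K (b + 1) ^ (b + 1 + (g + 1)) *
          (C ((b + 1 : ℕ) : K) * (dP K (b + 1 + (g + 1))).derivative * dP K (b + 1) -
          C ((b + 1 + (g + 1) : ℕ) : K) * (dP K (b + 1)).derivative * dP K (b + 1 + (g + 1))) := by
          rw [h1]; ring
    _ = _ := by rw [hS]; ring

theorem dP_common (e d : ℕ) (he : Odd e) (hd : Odd d) (hcop : Nat.Coprime e d) (y : K)
    (h1 : y ^ e + (1 - y) ^ e = 0) (h2 : y ^ d + (1 - y) ^ d = 0) : False := by
  have hy : y ≠ 0 := by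
    rintro rfl
    rw [zero_pow he.pos.ne'] at h1
    simp at h1
  have h3 : 1 + ((1 - y) / y) ^ e = 0 := by
    rw [div_pow]
    have : y ^ e ≠ 0 := pow_ne_zero _ hy
    field_simp
    linear_combination h1
  have h4 : 1 + ((1 - y) / y) ^ d = 0 := by
    rw [div_pow]
    have : y ^ d ≠ 0 := pow_ne_zero _ hy
    field_simp
    linear_combination h2
  have h5 := neg_one_of_coprime e d he hd hcop _ h3 h4
  rw [div_eq_iff hy] at h5
  have : (1 : K) = 0 := by linear_combination h5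
  exact one_ne_zero this

theorem pP_root_ne (e d : ℕ) (he : Odd e) (hd : Odd d) (hcop : Nat.Coprime e d) (v y : K) (hv : v ≠ 0)
    (h : (pP e d v).eval y = 0) : y ^ e + (1 - y) ^ e ≠ 0 ∧ y ^ d + (1 - y) ^ d ≠ 0 := by
  rw [pP_eval, sub_eq_zero] at h
  have h1 : y ^ d + (1 - y) ^ d ≠ 0 := by
    intro h1
    rw [h1, zero_pow he.pos.ne', mul_zero] at h
    exact dP_common e d he hd hcop y ((pow_eq_zero_iff hd.pos.ne').1 h) h1
  refine ⟨?_, h1⟩
  intro h2
  rw [h2, zero_pow hd.pos.ne'] at h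
  exact mul_ne_zero hv (pow_ne_zero _ h1) h.symm

/-- the multiplicity at `0` and `1` -/
theorem pP_mult_zero (e d : ℕ) (hd : Odd d) (hlt : d < e) (heK : (e : K) ≠ 0) (v y : K)
    (h : (pP e d v).eval y = 0) (hy : y = 0 ∨ y = 1) : (pP e d v).rootMultiplicity y = d := by
  have hd0 := hd.pos
  have hv : v = 1 := by
    rw [pP_eval] at h
    rcases hy with rfl | rfl
    · rw [zero_pow (by omega), zero_pow (by omega)] at h
      simp at h
      linear_combination (-1 : K) * h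
    · rw [sub_self, zero_pow (by omega), zero_pow (by omega)] at h
      simp at h
      linear_combination (-1 : K) * h
  subst hv
  have key : ∃ H : K[X], pP e d (1 : K) = (X - C y) ^ d * H ∧ H.eval y ≠ 0 := by
    rcases hy with rfl | rfl
    · obtain ⟨c, hc⟩ := two_expansions (R := K[X]) e d hd0 hlt (1 - X) X
      refine ⟨-(e : K[X]) * (1 - X) ^ (d * (e - 1)) + X * c, ?_, ?_⟩
      · rw [C_0, sub_zero, ← hc]
        unfold pP dP
        rw [C_1]
        ring
      · simp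
        exact heK
    · obtain ⟨c, hc⟩ := two_expansions (R := K[X]) e d hd0 hlt X (1 - X)
      refine ⟨-(-(e : K[X]) * X ^ (d * (e - 1)) + (1 - X) * c), ?_, ?_⟩
      · have h1 : (1 - X : K[X]) ^ d = -(X - C 1) ^ d := by
          rw [← hd.neg_pow, C_1]
          congr 1
          ring
        have h2 : pP e d (1 : K) = (1 - X) ^ d * (-(e : K[X]) * X ^ (d * (e - 1)) + (1 - X) * c) := by
          rw [← hc]
          unfold pP dP
          rw [C_1]
          ring
        rw [h2, h1]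
        ring
      · simp
        exact heK
  obtain ⟨H, hH, hHy⟩ := key
  have hne : (X - C y) ^ d * H ≠ 0 := by
    refine mul_ne_zero (pow_ne_zero _ (X_sub_C_ne_zero y)) ?_
    rintro rfl
    simp at hHy
  rw [hH, rootMultiplicity_mul hne, rootMultiplicity_X_sub_C_pow, rootMultiplicity_eq_zero hHy, add_zero]

theorem pP_ne_zero (e d : ℕ) (he : Odd e) (hd : Odd d) (hlt : d < e) (heK : (e : K) ≠ 0) (v : K) :
    pP e d v ≠ 0 := by
  have h1 : 1 < e := by have := hd.pos; omega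
  intro h
  have h2 : (dP K e).natDegree = e - 1 :=
    natDegree_eq_of_le_of_coeff_ne_zero (dP_natDegree_le he) (by rw [dP_coeff_top he h1]; exact heK)
  have h3 : dP K e ^ d = C v * dP K d ^ e := by
    unfold pP at h
    exact sub_eq_zero.1 h
  have h4 := congrArg natDegree h3
  rw [natDegree_pow, h2] at h4
  have h5 : (C v * dP K d ^ e).natDegree ≤ e * (d - 1) := by
    refine (natDegree_C_mul_le _ _).trans ?_
    rw [natDegree_pow]
    exact Nat.mul_le_mul_left _ (dP_natDegree_le hd)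
  rw [← h4] at h5
  have h6 : d * (e - 1) = d * e - d := by rw [Nat.mul_sub, mul_one]
  have h7 : e * (d - 1) = d * e - e := by rw [Nat.mul_sub, mul_one, mul_comm]
  have h8 : e ≤ d * e := Nat.le_mul_of_pos_left _ hd.pos
  omega

/-- the derivative at a root -/
theorem pP_der (e d : ℕ) (hd : 0 < d) (hlt : d < e) (v y : K) (h : (pP e d v).eval y = 0) :
    (y ^ e + (1 - y) ^ e) * (y ^ d + (1 - y) ^ d) * (pP e d v).derivative.eval y =
      (d * e : ℕ) * v * (y ^ d + (1 - y) ^ d) ^ e *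
        (y ^ (d - 1) * (1 - y) ^ (d - 1) * (y ^ (e - d) - (1 - y) ^ (e - d))) := by
  have h1 := congrArg (fun p => p.eval y) (pP_identity e d hd hlt v)
  simp only [eval_add, eval_mul, eval_C, h, mul_zero, zero_add, eval_pow, eval_sub, eval_X, eval_one,
    dP_eval] at h1
  exact h1

theorem pP_der2 (e d : ℕ) (hd : 0 < d) (hlt : d + 1 < e) (v y : K) (h : (pP e d v).eval y = 0)
    (h' : (pP e d v).derivative.eval y = 0) (hy : y ≠ 0) (hy1 : 1 - y ≠ 0)
    (hc : y ^ (e - d) = (1 - y) ^ (e - d)) :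
    (y ^ e + (1 - y) ^ e) * (y ^ d + (1 - y) ^ d) * (y * (1 - y)) * (pP e d v).derivative.derivative.eval y =
      (d * e : ℕ) * (e - d : ℕ) * (y ^ e + (1 - y) ^ e) ^ d * ((y * (1 - y)) ^ (d - 1) * y ^ (e - d)) := by
  have h1 := congrArg (fun p => (derivative p).eval y) (pP_identity e d hd (by omega) v)
  have e1 : (derivative (dP K e * dP K d * derivative (pP e d v))).eval y =
      (y ^ e + (1 - y) ^ e) * (y ^ d + (1 - y) ^ d) * (pP e d v).derivative.derivative.eval y := by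
    rw [derivative_mul, eval_add, eval_mul, eval_mul, h', mul_zero, zero_add, eval_mul, dP_eval, dP_eval]
  have e2 : (derivative (C (d : K) * (dP K e).derivative * dP K d * pP e d v)).eval y = 0 := by
    rw [derivative_mul, eval_add, eval_mul, eval_mul, h', h, mul_zero, mul_zero, add_zero]
  set W : K[X] := C ((d * e : ℕ) : K) * C v * dP K d ^ e * (X ^ (d - 1) * (1 - X) ^ (d - 1)) with hW
  have e3 : (derivative (C ((d * e : ℕ) : K) * C v * dP K d ^ e *
        (X ^ (d - 1) * (1 - X) ^ (d - 1) * (X ^ (e - d) - (1 - X) ^ (e - d))))).eval y =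
      (d * e : ℕ) * v * (y ^ d + (1 - y) ^ d) ^ e * (y ^ (d - 1) * (1 - y) ^ (d - 1)) *
        ((e - d : ℕ) * (y ^ (e - d - 1) + (1 - y) ^ (e - d - 1))) := by
    have e4 : C ((d * e : ℕ) : K) * C v * dP K d ^ e *
        (X ^ (d - 1) * (1 - X) ^ (d - 1) * (X ^ (e - d) - (1 - X) ^ (e - d))) =
        W * (X ^ (e - d) - (1 - X) ^ (e - d)) := by rw [hW]; ring
    rw [e4, derivative_mul, eval_add, eval_mul, eval_mul]
    have e5 : (X ^ (e - d) - (1 - X) ^ (e - d) : K[X]).eval y = 0 := by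
      simp only [eval_sub, eval_pow, eval_X, eval_one]
      rw [hc, sub_self]
    rw [e5, mul_zero, zero_add]
    have e6 : (derivative (X ^ (e - d) - (1 - X) ^ (e - d) : K[X])).eval y =
        (e - d : ℕ) * (y ^ (e - d - 1) + (1 - y) ^ (e - d - 1)) := by
      simp [derivative_pow]
      ring
    rw [e6, hW]
    simp only [eval_mul, eval_C, eval_pow, eval_sub, eval_one, eval_X, dP_eval]
  simp only [derivative_add] at h1
  rw [eval_add, e1, e2, e3, zero_add] at h1
  have h2 : v * (y ^ d + (1 - y) ^ d) ^ e = (y ^ e + (1 - y) ^ e) ^ d := by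
    rw [pP_eval, sub_eq_zero] at h
    exact h.symm
  have h3 := crit_identity (K := K) (e := e - d + 1) (by omega) y (by simpa using hc)
  rw [show e - d + 1 - 1 = e - d by omega, show e - d + 1 - 2 = e - d - 1 by omega] at h3
  calc (y ^ e + (1 - y) ^ e) * (y ^ d + (1 - y) ^ d) * (y * (1 - y)) * (pP e d v).derivative.derivative.eval y
      = (y * (1 - y)) * ((y ^ e + (1 - y) ^ e) * (y ^ d + (1 - y) ^ d) *
          (pP e d v).derivative.derivative.eval y) := by ring
    _ = (d * e : ℕ) * (e - d : ℕ) * (v * (y ^ d + (1 - y) ^ d) ^ e) * (y ^ (d - 1) * (1 - y) ^ (d - 1)) *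
          (y * (1 - y) * (y ^ (e - d - 1) + (1 - y) ^ (e - d - 1))) := by rw [h1]; ring
    _ = _ := by rw [h2, h3, mul_pow]; ring

/-- the multiplicities -/
theorem pP_mult (h2K : (2 : K) ≠ 0) (e d : ℕ) (he : Odd e) (hd : Odd d) (hcop : Nat.Coprime e d)
    (hlt : d < e) (heK : (e : K) ≠ 0) (hdK : (d : K) ≠ 0) (hgK : ((e - d : ℕ) : K) ≠ 0) (v y : K)
    (hv : v ≠ 0) (h : (pP e d v).eval y = 0) :
    ((y = 0 ∨ y = 1) ∧ (pP e d v).rootMultiplicity y = d) ∨
    ((y ≠ 0 ∧ 1 - y ≠ 0 ∧ y ^ (e - d) = (1 - y) ^ (e - d)) ∧ (pP e d v).rootMultiplicity y = 2 ∧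
      (pP e d v).derivative.eval y = 0) ∨
    ((y ≠ 0 ∧ 1 - y ≠ 0 ∧ y ^ (e - d) ≠ (1 - y) ^ (e - d)) ∧ (pP e d v).rootMultiplicity y = 1) := by
  have hlt2 : d + 1 < e := by
    obtain ⟨r, hr⟩ := he
    obtain ⟨s, hs⟩ := hd
    omega
  by_cases hy : y = 0 ∨ y = 1
  · left
    exact ⟨hy, pP_mult_zero e d hd hlt heK v y h hy⟩
  right
  push Not at hy
  have hy1 : 1 - y ≠ 0 := sub_ne_zero.2 (Ne.symm hy.2)
  obtain ⟨hfe, hfd⟩ := pP_root_ne e d he hd hcop v y hv h
  have hder := pP_der e d hd.pos hlt v y h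
  have hne := pP_ne_zero (K := K) e d he hd hlt heK v
  have hde : ((d * e : ℕ) : K) ≠ 0 := by
    push_cast
    exact mul_ne_zero hdK heK
  by_cases hc : y ^ (e - d) = (1 - y) ^ (e - d)
  · left
    rw [hc, sub_self, mul_zero, mul_zero] at hder
    have hder0 := (mul_eq_zero.1 hder).resolve_left (mul_ne_zero hfe hfd)
    have hdd := pP_der2 e d hd.pos hlt2 v y h hder0 hy.1 hy1 hc
    have hmul := mult_le_two h2K (pP e d v) hne y h (by
      intro _ h0
      rw [h0, mul_zero] at hdd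
      refine mul_ne_zero (mul_ne_zero (mul_ne_zero hde hgK) (pow_ne_zero _ hfe)) ?_ hdd.symm
      exact mul_ne_zero (pow_ne_zero _ (mul_ne_zero hy.1 hy1)) (pow_ne_zero _ hy.1))
    rcases hmul with h3 | h3
    · exact absurd hder0 h3.1
    · exact ⟨⟨hy.1, hy1, hc⟩, h3.2, hder0⟩
  · right
    refine ⟨⟨hy.1, hy1, hc⟩, ?_⟩
    have hder0 : (pP e d v).derivative.eval y ≠ 0 := by
      intro h0
      rw [h0, mul_zero] at hder
      refine mul_ne_zero (mul_ne_zero (mul_ne_zero hde hv) (pow_ne_zero _ hfd)) ?_ hder.symm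
      exact mul_ne_zero (mul_ne_zero (pow_ne_zero _ hy.1) (pow_ne_zero _ hy1)) (sub_ne_zero.2 hc)
    rcases mult_le_two h2K (pP e d v) hne y h (fun h0 => absurd h0 hder0) with h3 | h3
    · exact h3.2
    · exact absurd h3.1 hder0

end

end Pool.Agent.H470
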