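import Pool.Agent.H470.PosR

/-!
# Positive rational exponents: finite places
-/

set_option autoImplicit false
set_option linter.all false

open Polynomial

namespace Pool.Agent.H470

section
variable {F : Type} [Field F] [Fintype F] [DecidableEq F]

theorem card_pow_mul (d : ℕ) (hd0 : 0 < d) (hd : Nat.Coprime d (Fintype.card F - 1)) (h b : F) (hh : h ≠ 0) :
    (Finset.univ.filter fun w : F => w ^ d * h = b).card = 1 := by
  classical
  have hinj : Function.Injective (fun w : F => w ^ d) := fun x y hxy => eq_of_pow_eq hd hd0 x y hxy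
  obtain ⟨w0, hw0⟩ := (Finite.injective_iff_surjective.1 hinj) (b / h)
  rw [Finset.card_eq_one]
  refine ⟨w0, ?_⟩
  ext w
  simp only [Finset.mem_filter, Finset.mem_univ, true_and, Finset.mem_singleton]
  simp only at hw0
  constructor
  · intro hw
    apply hinj
    simp only
    rw [hw0, eq_div_iff hh, hw]
  · rintro rfl
    rw [hw0, div_mul_cancel₀ _ hh]

theorem FixN_eq' (hF : ringChar F ≠ 2) (P B : F[X]) (hP : P ≠ 0) (c : F) (hc : c ≠ 0)
    (hB : ∀ y, P.IsRoot y → B.eval y ≠ 0)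
    (hμ : ∀ y, P.IsRoot y → Nat.Coprime (P.rootMultiplicity y) (Fintype.card F - 1) ∧
      P.rootMultiplicity y ≠ 2 ∨ P.rootMultiplicity y = 2) :
    (FixN P B c : ℤ) = ((Finset.univ.filter fun y : F => P.eval y = 0).card : ℤ) +
      quadraticChar F c * ∑ y ∈ Finset.univ.filter fun y : F => P.eval y = 0 ∧ P.rootMultiplicity y = 2,
        quadraticChar F (B.eval y * cof P y) := by
  classical
  have h1 : FixN P B c = ∑ y ∈ Finset.univ.filter fun y : F => P.eval y = 0,
      (Finset.univ.filter fun w : F => w ^ P.rootMultiplicity y * cof P y = c * B.eval y).card := by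
    unfold FixN
    rw [← Finset.card_sigma]
    rw [← Set.ncard_coe_finset]
    refine Set.ncard_congr (fun z _ => ⟨z.1, z.2⟩) ?_ ?_ ?_
    · intro z hz
      rw [Finset.mem_coe, Finset.mem_sigma, Finset.mem_filter, Finset.mem_filter]
      exact ⟨⟨Finset.mem_univ _, hz.1⟩, Finset.mem_univ _, hz.2⟩
    · intro z z' _ _ h
      have := Sigma.mk.inj h
      exact Prod.ext this.1 (eq_of_heq this.2)
    · rintro ⟨y, w⟩ hi
      rw [Finset.mem_coe, Finset.mem_sigma, Finset.mem_filter, Finset.mem_filter] at hi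
      exact ⟨(y, w), ⟨hi.1.2, hi.2.2⟩, rfl⟩
  rw [h1]
  push_cast
  have h2 : ∀ y ∈ Finset.univ.filter fun y : F => P.eval y = 0,
      (((Finset.univ.filter fun w : F => w ^ P.rootMultiplicity y * cof P y = c * B.eval y).card : ℕ) : ℤ) =
      1 + if P.rootMultiplicity y = 2 then quadraticChar F c * quadraticChar F (B.eval y * cof P y) else 0 := by
    intro y hy
    rw [Finset.mem_filter] at hy
    have hy' : P.IsRoot y := hy.2
    have hcof : cof P y ≠ 0 := eval_divByMonic_pow_rootMultiplicity_ne_zero y hP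
    rcases hμ y hy' with ⟨h, h0⟩ | h
    · rw [if_neg h0, add_zero, card_pow_mul _ ((rootMultiplicity_pos hP).2 hy') h _ _ hcof]
      rfl
    · rw [if_pos h, h]
      exact card_sq_mul hF _ _ _ hcof (hB y hy') hc
  rw [Finset.sum_congr rfl h2, Finset.sum_add_distrib, Finset.sum_const, nsmul_eq_mul, mul_one,
    ← Finset.sum_filter, Finset.filter_filter, Finset.mul_sum]

/-- the function attached to the exponent `e/d` -/
def fpr (e d : ℕ) (x : F) : F := (x ^ e + (1 - x) ^ e) ^ d * ((x ^ d + (1 - x) ^ d)⁻¹) ^ e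

theorem fpr_sym (e d : ℕ) (x : F) : fpr e d (1 - x) = fpr e d x := by
  unfold fpr
  rw [sub_sub_cancel, add_comm ((1 - x) ^ e), add_comm ((1 - x) ^ d)]

theorem dP_eval_ne (d : ℕ) (hd : Odd d) (hcd : Nat.Coprime d (Fintype.card F - 1)) (x : F) :
    x ^ d + (1 - x) ^ d ≠ 0 := by
  intro h
  have h1 : x ^ d = (x - 1) ^ d := by
    have h2 : (x - 1) ^ d = -(1 - x) ^ d := by
      rw [← hd.neg_pow]
      congr 1
      ring
    rw [h2]
    linear_combination h
  have h2 := eq_of_pow_eq hcd hd.pos _ _ h1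
  have : (1 : F) = 0 := by linear_combination h2
  exact one_ne_zero this

theorem fpr_iff (e d : ℕ) (hd : Odd d) (hcd : Nat.Coprime d (Fintype.card F - 1)) (x v : F) :
    fpr e d x = v ↔ (pP e d v).eval x = 0 := by
  unfold fpr
  rw [pP_eval, inv_pow, sub_eq_zero, ← div_eq_mul_inv, div_eq_iff (pow_ne_zero _ (dP_eval_ne d hd hcd x))]

/-- the polynomials over `F` -/
noncomputable def pA (F : Type) [Field F] (e d : ℕ) : F[X] := C ((e : F) ^ d)⁻¹ * dP F e ^ d

noncomputable def pB (F : Type) [Field F] (e d : ℕ) : F[X] := C ((e : F) ^ d)⁻¹ * dP F d ^ e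

theorem pAB (e d : ℕ) (v : F) : pA F e d - C v * pB F e d = C ((e : F) ^ d)⁻¹ * pP e d v := by
  unfold pA pB pP
  ring

theorem pA_props (e d : ℕ) (he : Odd e) (h1 : 1 < e) (hee : (e : F) ≠ 0) :
    (pA F e d).Monic ∧ (pA F e d).natDegree = (e - 1) * d := by
  obtain ⟨h2, h3⟩ := A_props (F := F) he h1 hee
  have h4 : pA F e d = (C (e : F)⁻¹ * dP F e) ^ d := by
    unfold pA
    rw [mul_pow, ← C_pow, inv_pow]
  rw [h4]
  refine ⟨h2.pow d, ?_⟩
  rw [h2.natDegree_pow, h3, mul_comm]

theorem pB_lt (e d : ℕ) (he : Odd e) (hd : Odd d) (hlt : d < e) (hee : (e : F) ≠ 0) :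
    (pB F e d).degree < (pA F e d).degree := by
  have h1 : 1 < e := by have := hd.pos; omega
  obtain ⟨h2, h3⟩ := pA_props (F := F) e d he h1 hee
  apply degree_lt_degree
  rw [h3]
  have h4 : (pB F e d).natDegree ≤ e * (d - 1) := by
    unfold pB
    refine (natDegree_C_mul_le _ _).trans ?_
    rw [natDegree_pow]
    exact Nat.mul_le_mul_left _ (dP_natDegree_le hd)
  have h6 : (e - 1) * d = d * e - d := by rw [Nat.sub_mul, one_mul, mul_comm]
  have h7 : e * (d - 1) = d * e - e := by rw [Nat.mul_sub, mul_one, mul_comm]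
  have h8 : e ≤ d * e := Nat.le_mul_of_pos_left _ hd.pos
  omega

theorem rootMult_C_mul {K : Type*} [Field K] (a : K) (ha : a ≠ 0) (p : K[X]) (hp : p ≠ 0) (y : K) :
    (C a * p).rootMultiplicity y = p.rootMultiplicity y := by
  rw [rootMultiplicity_mul (mul_ne_zero (C_ne_zero.2 ha) hp), rootMultiplicity_C, zero_add]

theorem cof_C_mul {K : Type*} [Field K] (a : K) (ha : a ≠ 0) (p : K[X]) (hp : p ≠ 0) (y : K) :
    cof (C a * p) y = a * cof p y := by
  unfold cof
  rw [rootMult_C_mul a ha p hp]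
  set Q := p /ₘ (X - C y) ^ p.rootMultiplicity y with hQ
  have h1 : p = (X - C y) ^ p.rootMultiplicity y * Q := (pow_mul_divByMonic_rootMultiplicity_eq p y).symm
  have h2 : C a * p = (X - C y) ^ p.rootMultiplicity y * (C a * Q) := by
    conv_lhs => rw [h1]
    ring
  rw [h2, mul_divByMonic_cancel_left _ ((monic_X_sub_C _).pow _), eval_mul, eval_C]

/-- the places `v ≠ 0` -/
theorem pP_tame (hchar : ringChar F ≠ 2) (e d : ℕ) (he : Odd e) (hd : Odd d) (hcop : Nat.Coprime e d)
    (hlt : d < e) (heF : (e : F) ≠ 0) (hdF : (d : F) ≠ 0) (hgF : ((e - d : ℕ) : F) ≠ 0) (v : F)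
    (hv : v ≠ 0) : TamePlace F ((e - 1) * d) (2 * d) (pA F e d) (pB F e d) v := by
  have h2F : (2 : F) ≠ 0 := Ring.two_ne_zero hchar
  have h1 : 1 < e := by have := hd.pos; omega
  obtain ⟨hm, hn⟩ := pA_props (F := F) e d he h1 heF
  set k := AlgebraicClosure F
  have hinj := (algebraMap F k).injective
  have h2k : (2 : k) ≠ 0 := by
    have := (map_ne_zero_iff (algebraMap F k) hinj).2 h2F
    rwa [map_ofNat] at this
  have hek : (e : k) ≠ 0 := by
    have := (map_ne_zero_iff (algebraMap F k) hinj).2 heF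
    rwa [map_natCast] at this
  have hdk : (d : k) ≠ 0 := by
    have := (map_ne_zero_iff (algebraMap F k) hinj).2 hdF
    rwa [map_natCast] at this
  have hgk : ((e - d : ℕ) : k) ≠ 0 := by
    have := (map_ne_zero_iff (algebraMap F k) hinj).2 hgF
    rwa [map_natCast] at this
  have hvk : algebraMap F k v ≠ 0 := (map_ne_zero_iff (algebraMap F k) hinj).2 hv
  set a : k := ((e : k) ^ d)⁻¹ with ha
  have ha0 : a ≠ 0 := inv_ne_zero (pow_ne_zero _ hek)
  have hP : (pA F e d - C v * pB F e d).map (algebraMap F k) = C a * pP e d (algebraMap F k v) := by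
    rw [pAB, Polynomial.map_mul, pP_map, map_C, map_inv₀, map_pow, map_natCast]
  have hne := pP_ne_zero (K := k) e d he hd hlt hek (algebraMap F k v)
  have hroot : ∀ y : k, (C a * pP e d (algebraMap F k v)).IsRoot y → (pP e d (algebraMap F k v)).eval y = 0 := by
    intro y hy
    rw [IsRoot.def, eval_mul, eval_C] at hy
    exact (mul_eq_zero.1 hy).resolve_left ha0
  refine ⟨hm, hn, pB_lt e d he hd hlt heF, ?_, ?_, ?_⟩
  · intro y hy
    rw [hP] at hy
    have h3 := (pP_root_ne e d he hd hcop _ y hvk (hroot y hy)).2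
    unfold pB
    rw [Polynomial.map_mul, Polynomial.map_pow, dP_map, map_C, eval_mul, eval_C, eval_pow, dP_eval]
    refine mul_ne_zero ?_ (pow_ne_zero _ h3)
    exact (map_ne_zero_iff (algebraMap F k) hinj).2 (inv_ne_zero (pow_ne_zero _ heF))
  · intro y hy
    rw [hP] at hy ⊢
    rw [rootMult_C_mul a ha0 _ hne]
    rcases pP_mult h2k e d he hd hcop hlt hek hdk hgk _ y hvk (hroot y hy) with h | h | h
    · rw [h.2]; exact hdk
    · rw [h.2.1]; exact_mod_cast h2k
    · rw [h.2]; simp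
  · intro y hy
    rw [hP] at hy ⊢
    rw [rootMult_C_mul a ha0 _ hne]
    rcases pP_mult h2k e d he hd hcop hlt hek hdk hgk _ y hvk (hroot y hy) with h | h | h
    · rw [h.2]; exact dvd_mul_left _ _
    · rw [h.2.1]; exact dvd_mul_right _ _
    · rw [h.2]; exact one_dvd _

/-- the twisted sum over the double roots -/
noncomputable def twp (e d : ℕ) (v : F) : ℤ :=
  ∑ y ∈ Finset.univ.filter fun y : F => fpr e d y = v ∧ y ^ (e - d) = (1 - y) ^ (e - d),
    quadraticChar F (y * (1 - y))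

theorem nrt_pP (e d : ℕ) (hd : Odd d) (hcd : Nat.Coprime d (Fintype.card F - 1)) (heF : (e : F) ≠ 0)
    (v : F) : nrt (pA F e d) (pB F e d) v = fc (fpr e d) v := by
  unfold nrt fc
  congr 1
  ext z
  simp only [Finset.mem_filter, Finset.mem_univ, true_and]
  rw [fpr_iff e d hd hcd, pAB, eval_mul, eval_C, mul_eq_zero]
  exact ⟨fun h => h.resolve_left (inv_ne_zero (pow_ne_zero _ heF)), fun h => Or.inr h⟩

theorem FixN_pos (hchar : ringChar F ≠ 2) (e d : ℕ) (he : Odd e) (hd : Odd d) (hcop : Nat.Coprime e d)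
    (hlt : d < e) (heF : (e : F) ≠ 0) (hdF : (d : F) ≠ 0) (hgF : ((e - d : ℕ) : F) ≠ 0)
    (hcd : Nat.Coprime d (Fintype.card F - 1)) (v c : F) (hv : v ≠ 0) (hc : c ≠ 0) :
    (FixN (pA F e d - C v * pB F e d) (pB F e d) c : ℤ) = fc (fpr e d) v +
      quadraticChar F c * quadraticChar F (2 * (d * e : ℕ) * (e - d : ℕ)) * twp e d v := by
  classical
  have h2F : (2 : F) ≠ 0 := Ring.two_ne_zero hchar
  have h1 : 1 < e := by have := hd.pos; omega
  have hlt2 : d + 1 < e := by
    obtain ⟨r, hr⟩ := he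
    obtain ⟨s, hs⟩ := hd
    omega
  set a : F := ((e : F) ^ d)⁻¹ with ha
  have ha0 : a ≠ 0 := inv_ne_zero (pow_ne_zero _ heF)
  have hP : pA F e d - C v * pB F e d = C a * pP e d v := pAB e d v
  have hne := pP_ne_zero (K := F) e d he hd hlt heF v
  have hroot : ∀ y : F, (C a * pP e d v).IsRoot y → (pP e d v).eval y = 0 := by
    intro y hy
    rw [IsRoot.def, eval_mul, eval_C] at hy
    exact (mul_eq_zero.1 hy).resolve_left ha0
  have hne' : C a * pP e d v ≠ 0 := mul_ne_zero (C_ne_zero.2 ha0) hne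
  have hd2 : d ≠ 2 := by
    rintro rfl
    exact absurd hd (by decide)
  rw [hP, FixN_eq' hchar _ _ hne' c hc
    (by
      intro y hy
      have h3 := (pP_root_ne e d he hd hcop _ y hv (hroot y hy)).2
      unfold pB
      rw [eval_mul, eval_C, eval_pow, dP_eval]
      exact mul_ne_zero ha0 (pow_ne_zero _ h3))
    (by
      intro y hy
      rw [rootMult_C_mul a ha0 _ hne]
      rcases pP_mult h2F e d he hd hcop hlt heF hdF hgF _ y hv (hroot y hy) with h | h | h
      · left; rw [h.2]; exact ⟨hcd, hd2⟩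
      · right; exact h.2.1
      · left; rw [h.2]; exact ⟨Nat.coprime_one_left _, by norm_num⟩)]
  have hcard : (Finset.univ.filter fun y : F => (C a * pP e d v).eval y = 0).card = fc (fpr e d) v := by
    unfold fc
    congr 1
    ext y
    simp only [Finset.mem_filter, Finset.mem_univ, true_and]
    rw [fpr_iff e d hd hcd, eval_mul, eval_C, mul_eq_zero]
    exact ⟨fun h => h.resolve_left ha0, fun h => Or.inr h⟩
  rw [hcard, mul_assoc]
  congr 2
  unfold twp
  rw [Finset.mul_sum]
  have hset : (Finset.univ.filter fun y : F => (C a * pP e d v).eval y = 0 ∧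
      (C a * pP e d v).rootMultiplicity y = 2) =
      Finset.univ.filter fun y : F => fpr e d y = v ∧ y ^ (e - d) = (1 - y) ^ (e - d) := by
    ext y
    simp only [Finset.mem_filter, Finset.mem_univ, true_and]
    rw [fpr_iff e d hd hcd, rootMult_C_mul a ha0 _ hne]
    constructor
    · rintro ⟨h3, h4⟩
      have h5 := hroot y h3
      refine ⟨h5, ?_⟩
      rcases pP_mult h2F e d he hd hcop hlt heF hdF hgF _ y hv h5 with h | h | h
      · exact absurd (h.2.symm.trans h4) hd2
      · exact h.1.2.2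
      · exact absurd (h.2.symm.trans h4) (by norm_num)
    · rintro ⟨h3, h4⟩
      refine ⟨by rw [eval_mul, h3, mul_zero], ?_⟩
      rcases pP_mult h2F e d he hd hcop hlt heF hdF hgF _ y hv h3 with h | h | h
      · exfalso
        rcases h.1 with rfl | rfl
        · rw [zero_pow (by omega), sub_zero, one_pow] at h4
          exact zero_ne_one h4
        · rw [sub_self, zero_pow (by omega), one_pow] at h4
          exact one_ne_zero h4
      · exact h.2.1
      · exact absurd h4 h.1.2.2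
  rw [hset]
  refine Finset.sum_congr rfl fun y hy => ?_
  rw [Finset.mem_filter] at hy
  obtain ⟨-, h3, h4⟩ := hy
  rw [fpr_iff e d hd hcd] at h3
  rcases pP_mult h2F e d he hd hcop hlt heF hdF hgF _ y hv h3 with h | h | h
  · exfalso
    rcases h.1 with rfl | rfl
    · rw [zero_pow (by omega), sub_zero, one_pow] at h4
      exact zero_ne_one h4
    · rw [sub_self, zero_pow (by omega), one_pow] at h4
      exact one_ne_zero h4
  · obtain ⟨⟨hy0, hy1, -⟩, hmul, hder⟩ := h
    obtain ⟨hfe, hfd⟩ := pP_root_ne e d he hd hcop v y hv h3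
    have hsec := pP_der2 e d hd.pos hlt2 v y h3 hder hy0 hy1 h4
    rw [cof_double _ _ hmul] at hsec
    rw [cof_C_mul a ha0 _ hne]
    obtain ⟨r, hr⟩ := he
    obtain ⟨s, hs⟩ := hd
    set fe := y ^ e + (1 - y) ^ e with hfe'
    set fd := y ^ d + (1 - y) ^ d with hfd'
    have hBe : (pB F e d).eval y = a * fd ^ e := by
      unfold pB
      rw [eval_mul, eval_C, eval_pow, dP_eval]
    rw [hBe]
    have hg2 : ∃ g', e - d = 2 * g' := ⟨r - s, by omega⟩
    obtain ⟨g', hg'⟩ := hg2
    have hne2 : 2 * fe * fd * (y * (1 - y)) * a⁻¹ ≠ 0 :=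
      mul_ne_zero (mul_ne_zero (mul_ne_zero (mul_ne_zero h2F hfe) hfd) (mul_ne_zero hy0 hy1)) (inv_ne_zero ha0)
    have hkey : a * fd ^ e * (a * cof (pP e d v) y) * (2 * fe * fd * (y * (1 - y)) * a⁻¹) ^ 2 =
        (2 * (d * e : ℕ) * (e - d : ℕ)) * (y * (1 - y)) *
          (fd ^ (r + 1) * fe ^ (s + 1) * (y * (1 - y)) ^ s * y ^ g') ^ 2 := by
      have e1 : a * fd ^ e * (a * cof (pP e d v) y) * (2 * fe * fd * (y * (1 - y)) * a⁻¹) ^ 2 =
          (a * a⁻¹) ^ 2 * (2 * (fd ^ e * fd) * fe * (y * (1 - y)) *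
            (fe * fd * (y * (1 - y)) * (2 * cof (pP e d v) y))) := by ring
      rw [e1, hsec, mul_inv_cancel₀ ha0, one_pow, one_mul]
      have e2 : fd ^ e * fd = (fd ^ (r + 1)) ^ 2 := by
        rw [← pow_succ, ← pow_mul]
        congr 1
        omega
      have e3 : fe ^ d * fe = (fe ^ (s + 1)) ^ 2 := by
        rw [← pow_succ, ← pow_mul]
        congr 1
        omega
      have e4 : (y * (1 - y)) ^ (d - 1) = ((y * (1 - y)) ^ s) ^ 2 := by
        rw [← pow_mul]
        congr 1
        omega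
      have e5 : y ^ (e - d) = (y ^ g') ^ 2 := by
        rw [hg', ← pow_mul, mul_comm]
      calc 2 * (fd ^ e * fd) * fe * (y * (1 - y)) *
            (((d * e : ℕ) : F) * ((e - d : ℕ) : F) * fe ^ d * ((y * (1 - y)) ^ (d - 1) * y ^ (e - d)))
          = (2 * ((d * e : ℕ) : F) * ((e - d : ℕ) : F)) * (y * (1 - y)) *
            ((fd ^ e * fd) * (fe ^ d * fe) * ((y * (1 - y)) ^ (d - 1)) * y ^ (e - d)) := by ring
        _ = _ := by rw [e2, e3, e4, e5]; ring
    have e1 := qc_mul_sq (a * fd ^ e * (a * cof (pP e d v) y)) _ hne2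
    have e2 := qc_mul_sq ((2 * ((d * e : ℕ) : F) * ((e - d : ℕ) : F)) * (y * (1 - y)))
      (fd ^ (r + 1) * fe ^ (s + 1) * (y * (1 - y)) ^ s * y ^ g')
      (mul_ne_zero (mul_ne_zero (mul_ne_zero (pow_ne_zero _ hfd) (pow_ne_zero _ hfe))
        (pow_ne_zero _ (mul_ne_zero hy0 hy1))) (pow_ne_zero _ hy0))
    rw [hkey, e2] at e1
    rw [← e1, map_mul]
  · exact absurd h4 h.1.2.2

end

end Pool.Agent.H470
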