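import Pool.Agent.H470.PosR2

/-!
# Positive rational exponents: the infinite place, and the conclusion
-/

set_option autoImplicit false
set_option linter.all false

open Polynomial

namespace Pool.Agent.H470

/-- the polynomial `(1 + X ^ d) / (1 + X)` -/
noncomputable def gg (K : Type*) [Field K] (d : ℕ) : K[X] := ∑ i ∈ Finset.range d, (-X) ^ i

section
variable {K : Type*} [Field K]

theorem gg_mul (d : ℕ) (hd : Odd d) : (1 + X) * gg K d = 1 + X ^ d := by
  unfold gg
  have h := mul_neg_geom_sum (-X : K[X]) d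
  rw [hd.neg_pow, sub_neg_eq_add, sub_neg_eq_add] at h
  exact h

theorem gg_map {K' : Type*} [Field K'] (f : K →+* K') (d : ℕ) : (gg K d).map f = gg K' d := by
  simp [gg, Polynomial.map_sum]

theorem gg_monic (d : ℕ) (hd : Odd d) : (gg K d).Monic ∧ (gg K d).natDegree = d - 1 := by
  have h1 := gg_mul (K := K) d hd
  have h2 : (gg K d).Monic := by
    apply (one_add_X_monic (K := K)).1.of_mul_monic_left
    rw [h1]
    exact (one_add_X_pow_monic d hd.pos).1
  refine ⟨h2, ?_⟩
  have h3 := congrArg natDegree h1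
  rw [one_add_X_monic.1.natDegree_mul h2, one_add_X_monic.2, (one_add_X_pow_monic d hd.pos).2] at h3
  omega

theorem gg_neg_one (d : ℕ) : (gg K d).eval (-1) = d := by
  simp [gg, eval_finset_sum]

/-- the polynomials -/
noncomputable def iA (K : Type*) [Field K] (e d : ℕ) : K[X] := gg K d ^ e * (1 + X) ^ (e - d)

noncomputable def iB (K : Type*) [Field K] (e d : ℕ) : K[X] := gg K e ^ d - iA K e d

theorem iA_map {K' : Type*} [Field K'] (f : K →+* K') (e d : ℕ) : (iA K e d).map f = iA K' e d := by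
  simp [iA, gg_map]

theorem iB_map {K' : Type*} [Field K'] (f : K →+* K') (e d : ℕ) : (iB K e d).map f = iB K' e d := by
  simp [iB, gg_map, iA_map]

theorem iA_monic (e d : ℕ) (hd : Odd d) (hlt : d < e) : (iA K e d).Monic ∧
    (iA K e d).natDegree = (e - 1) * d := by
  obtain ⟨h1, h2⟩ := gg_monic (K := K) d hd
  refine ⟨(h1.pow e).mul (one_add_X_monic.1.pow _), ?_⟩
  unfold iA
  rw [(h1.pow e).natDegree_mul (one_add_X_monic.1.pow _), h1.natDegree_pow, one_add_X_monic.1.natDegree_pow,
    h2, one_add_X_monic.2]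
  have h6 : (e - 1) * d = d * e - d := by rw [Nat.sub_mul, one_mul, mul_comm]
  have h7 : e * (d - 1) = d * e - e := by rw [Nat.mul_sub, mul_one, mul_comm]
  have h8 : e ≤ d * e := Nat.le_mul_of_pos_left _ hd.pos
  omega

theorem iB_lt (e d : ℕ) (he : Odd e) (hd : Odd d) (hlt : d < e) : (iB K e d).degree < (iA K e d).degree := by
  obtain ⟨h1, h2⟩ := gg_monic (K := K) e he
  obtain ⟨h3, h4⟩ := iA_monic (K := K) e d hd hlt
  have h5 : (gg K e ^ d).natDegree = (e - 1) * d := by rw [h1.natDegree_pow, h2, mul_comm]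
  have h6 : (gg K e ^ d).degree = (iA K e d).degree := by
    rw [degree_eq_natDegree (h1.pow d).ne_zero, degree_eq_natDegree h3.ne_zero, h5, h4]
  unfold iB
  rw [← h6]
  apply degree_sub_lt h6 (h1.pow d).ne_zero
  rw [(h1.pow d).leadingCoeff, h3.leadingCoeff]

theorem gg_root (d : ℕ) (hd : Odd d) (hdK : (d : K) ≠ 0) (y : K) (h : (gg K d).eval y = 0) :
    1 + y ^ d = 0 ∧ y ≠ -1 := by
  constructor
  · have h1 := congrArg (fun p => p.eval y) (gg_mul (K := K) d hd)
    simp only [eval_mul, eval_add, eval_one, eval_X, h, mul_zero, eval_pow] at h1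
    exact h1.symm
  · rintro rfl
    rw [gg_neg_one] at h
    exact hdK h

theorem iA_mult (e d : ℕ) (hd : Odd d) (hlt : d < e) (hdK : (d : K) ≠ 0) (y : K)
    (h : (iA K e d).eval y = 0) :
    (y = -1 ∧ (iA K e d).rootMultiplicity y = e - d) ∨
    ((gg K d).eval y = 0 ∧ (iA K e d).rootMultiplicity y = e) := by
  classical
  have hne := (iA_monic (K := K) e d hd hlt).1.ne_zero
  have hgne := (gg_monic (K := K) d hd).1.ne_zero
  have hX : (1 + X : K[X]) = X - C (-1) := by rw [C_neg, C_1]; ring
  have hX1 : ∀ y : K, (1 + X : K[X]).rootMultiplicity y = if y = -1 then 1 else 0 := by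
    intro y
    rw [hX, rootMultiplicity_X_sub_C]
  have hmul : (iA K e d).rootMultiplicity y = e * (gg K d).rootMultiplicity y +
      (e - d) * (1 + X : K[X]).rootMultiplicity y := by
    unfold iA at hne ⊢
    rw [rootMultiplicity_mul hne, rootMult_pow, rootMult_pow]
  have hprod : (1 + X : K[X]).rootMultiplicity y + (gg K d).rootMultiplicity y =
      if 1 + y ^ d = 0 then 1 else 0 := by
    have h1 := gg_mul (K := K) d hd
    have h2 : (1 + X) * gg K d ≠ 0 := by
      rw [h1]
      exact (one_add_X_pow_monic d hd.pos).1.ne_zero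
    rw [← rootMultiplicity_mul h2, h1]
    exact one_add_mult d hd.pos hdK y
  rw [hX1] at hmul hprod
  by_cases hy : y = -1
  · left
    refine ⟨hy, ?_⟩
    rw [if_pos hy] at hmul hprod
    have h3 : (gg K d).rootMultiplicity y = 0 := by
      apply rootMultiplicity_eq_zero
      rw [hy, IsRoot.def, gg_neg_one]
      exact hdK
    rw [hmul, h3]
    ring
  · right
    rw [if_neg hy] at hmul hprod
    have h3 : (gg K d).eval y = 0 := by
      unfold iA at h
      rw [eval_mul, eval_pow, eval_pow, eval_add, eval_one, eval_X] at h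
      rcases mul_eq_zero.1 h with h4 | h4
      · exact (pow_eq_zero_iff (by omega)).1 h4
      · exfalso
        apply hy
        have := (pow_eq_zero_iff (by omega : e - d ≠ 0)).1 h4
        linear_combination this
    refine ⟨h3, ?_⟩
    have h4 := (gg_root d hd hdK y h3).1
    rw [if_pos h4] at hprod
    rw [hmul, mul_zero, add_zero, (by omega : (gg K d).rootMultiplicity y = 1), mul_one]

theorem iA_cof (e d : ℕ) (hd : Odd d) (hlt : d < e) (hdK : (d : K) ≠ 0) :
    (iA K e d).rootMultiplicity (-1) = e - d ∧ cof (iA K e d) (-1) = (d : K) ^ e := by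
  have hroot : (iA K e d).eval (-1) = 0 := by
    unfold iA
    rw [eval_mul, eval_pow, eval_pow, eval_add, eval_one, eval_X, add_neg_cancel, zero_pow (by omega), mul_zero]
  have hm : (iA K e d).rootMultiplicity (-1) = e - d := by
    rcases iA_mult e d hd hlt hdK (-1 : K) hroot with h | h
    · exact h.2
    · exact absurd rfl (gg_root d hd hdK _ h.1).2
  refine ⟨hm, ?_⟩
  unfold cof
  rw [hm]
  have hX : (1 + X : K[X]) = X - C (-1) := by rw [C_neg, C_1]; ring
  have h3 : iA K e d = (X - C (-1)) ^ (e - d) * gg K d ^ e := by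
    unfold iA
    rw [hX]
    ring
  rw [h3, mul_divByMonic_cancel_left _ ((monic_X_sub_C _).pow _), eval_pow, gg_neg_one]

theorem iB_ne (e d : ℕ) (he : Odd e) (hd : Odd d) (hcop : Nat.Coprime e d) (hlt : d < e)
    (heK : (e : K) ≠ 0) (hdK : (d : K) ≠ 0) (y : K) (h : (iA K e d).eval y = 0) :
    (iB K e d).eval y ≠ 0 := by
  unfold iB
  rw [eval_sub, h, sub_zero, eval_pow]
  apply pow_ne_zero
  intro h1
  obtain ⟨h2, h3⟩ := gg_root e he heK y h1
  rcases iA_mult e d hd hlt hdK y h with h4 | h4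
  · exact h3 h4.1
  · obtain ⟨h5, h6⟩ := gg_root d hd hdK y h4.1
    exact h6 (neg_one_of_coprime e d he hd hcop y h2 h5)

end

section
variable {F : Type} [Field F] [Fintype F] [DecidableEq F]

theorem iA_tame (e d : ℕ) (he : Odd e) (hd : Odd d) (hcop : Nat.Coprime e d) (hlt : d < e)
    (heF : (e : F) ≠ 0) (hdF : (d : F) ≠ 0) (hgF : ((e - d : ℕ) : F) ≠ 0) :
    TamePlace F ((e - 1) * d) ((e - d) * e) (iA F e d) (iB F e d) 0 := by
  set k := AlgebraicClosure F
  have hinj := (algebraMap F k).injective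
  have hek : (e : k) ≠ 0 := by
    have := (map_ne_zero_iff (algebraMap F k) hinj).2 heF
    rwa [map_natCast] at this
  have hdk : (d : k) ≠ 0 := by
    have := (map_ne_zero_iff (algebraMap F k) hinj).2 hdF
    rwa [map_natCast] at this
  have hgk : ((e - d : ℕ) : k) ≠ 0 := by
    have := (map_ne_zero_iff (algebraMap F k) hinj).2 hgF
    rwa [map_natCast] at this
  have hP : (iA F e d - C 0 * iB F e d).map (algebraMap F k) = iA k e d := by
    rw [C_0, zero_mul, sub_zero, iA_map]
  obtain ⟨hm, hn⟩ := iA_monic (K := F) e d hd hlt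
  refine ⟨hm, hn, iB_lt e d he hd hlt, ?_, ?_, ?_⟩
  · intro y hy
    rw [hP] at hy
    rw [iB_map]
    exact iB_ne e d he hd hcop hlt hek hdk y hy
  · intro y hy
    rw [hP] at hy ⊢
    rcases iA_mult e d hd hlt hdk y hy with h | h
    · rw [h.2]; exact hgk
    · rw [h.2]; exact hek
  · intro y hy
    rw [hP] at hy ⊢
    rcases iA_mult e d hd hlt hdk y hy with h | h
    · rw [h.2]; exact dvd_mul_right _ _
    · rw [h.2]; exact dvd_mul_left _ _

theorem iA_count (e d : ℕ) (he : Odd e) (hd : Odd d) (hlt : d < e) (heF : (e : F) ≠ 0)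
    (hcd : Nat.Coprime d (Fintype.card F - 1)) (w : F) (hw : w ≠ 0) :
    nrt (iA F e d) (iB F e d) w = fc (fpr e d) (1 + w⁻¹) := by
  classical
  set t : F := 1 + w⁻¹ with ht
  have ht1 : t ≠ 1 := by
    intro h
    rw [ht] at h
    have : w⁻¹ = 0 := by linear_combination h
    exact inv_ne_zero hw this
  have hkey : ∀ z : F, (iA F e d - C w * iB F e d).eval z = 0 ↔
      t * (iA F e d).eval z = (gg F e).eval z ^ d := by
    intro z
    unfold iB
    rw [eval_sub, eval_mul, eval_C, eval_sub, eval_pow, sub_eq_zero]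
    constructor
    · intro h
      have h2 : (iA F e d).eval z * w⁻¹ = (gg F e).eval z ^ d - (iA F e d).eval z := by
        rw [← div_eq_mul_inv, div_eq_iff hw]
        linear_combination h
      rw [ht]
      linear_combination h2
    · intro h
      have h2 : (gg F e).eval z ^ d - (iA F e d).eval z = w⁻¹ * (iA F e d).eval z := by
        rw [← h, ht]
        ring
      rw [h2, ← mul_assoc, mul_inv_cancel₀ hw, one_mul]
  have hA : ∀ z : F, (iA F e d).eval z * (1 + z) ^ d = (1 + z ^ d) ^ e := by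
    intro z
    have h1 := congrArg (fun p => p.eval z) (gg_mul (K := F) d hd)
    simp only [eval_mul, eval_add, eval_one, eval_X, eval_pow] at h1
    unfold iA
    rw [eval_mul, eval_pow, eval_pow, eval_add, eval_one, eval_X, mul_assoc, ← pow_add,
      Nat.sub_add_cancel hlt.le, ← mul_pow, ← h1, mul_comm]
  have hE : ∀ z : F, (gg F e).eval z ^ d * (1 + z) ^ d = (1 + z ^ e) ^ d := by
    intro z
    have h1 := congrArg (fun p => p.eval z) (gg_mul (K := F) e he)
    simp only [eval_mul, eval_add, eval_one, eval_X, eval_pow] at h1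
    rw [← mul_pow, ← h1, mul_comm]
  have hroot : ∀ z : F, (iA F e d - C w * iB F e d).eval z = 0 ↔
      (1 + z ≠ 0 ∧ (1 + z ^ e) ^ d = t * (1 + z ^ d) ^ e) := by
    intro z
    rw [hkey]
    constructor
    · intro h
      have h1 : 1 + z ≠ 0 := by
        intro h1
        have h2 : z = -1 := by linear_combination h1
        subst h2
        have h3 : (iA F e d).eval (-1) = 0 := by
          unfold iA
          rw [eval_mul, eval_pow, eval_pow, eval_add, eval_one, eval_X, add_neg_cancel,
            zero_pow (by omega), mul_zero]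
        rw [h3, mul_zero, gg_neg_one] at h
        exact pow_ne_zero _ heF h.symm
      refine ⟨h1, ?_⟩
      rw [← hA, ← hE, ← h]
      ring
    · rintro ⟨h1, h2⟩
      rw [← hA, ← hE] at h2
      have h3 : (1 + z) ^ d ≠ 0 := pow_ne_zero _ h1
      apply mul_right_cancel₀ h3
      rw [h2]
      ring
  have hfz : ∀ z : F, 1 + z ≠ 0 → (fpr e d (z / (1 + z)) = t ↔ (1 + z ^ e) ^ d = t * (1 + z ^ d) ^ e) := by
    intro z hz
    rw [fpr_iff e d hd hcd, pP_eval, sub_eq_zero]
    have h1 : 1 - z / (1 + z) = 1 / (1 + z) := by field_simp; ring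
    have h2 : ∀ a : ℕ, (z / (1 + z)) ^ a + (1 / (1 + z)) ^ a = (1 + z ^ a) / (1 + z) ^ a := by
      intro a
      rw [div_pow, div_pow, one_pow]
      have : (1 + z) ^ a ≠ 0 := pow_ne_zero _ hz
      field_simp
      ring
    rw [h1, h2, h2, div_pow, div_pow, ← pow_mul, ← pow_mul, mul_comm d e]
    have h3 : (1 + z) ^ (e * d) ≠ 0 := pow_ne_zero _ hz
    rw [← mul_div_assoc, div_left_inj' h3]
  have h01 : ∀ x : F, fpr e d x = t → 1 - x ≠ 0 := by
    intro x hx h
    have hx1 : x = 1 := by linear_combination (-1 : F) * h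
    apply ht1
    rw [← hx, hx1]
    unfold fpr
    rw [sub_self, zero_pow (by omega), zero_pow (by have := hd.pos; omega)]
    simp
  unfold nrt fc
  refine Finset.card_bij' (fun z _ => z / (1 + z)) (fun x _ => x / (1 - x)) ?_ ?_ ?_ ?_
  · intro z hz
    rw [Finset.mem_filter] at hz ⊢
    obtain ⟨h1, h2⟩ := (hroot z).1 hz.2
    exact ⟨Finset.mem_univ _, (hfz z h1).2 h2⟩
  · intro x hx
    rw [Finset.mem_filter] at hx ⊢
    have h1 := h01 x hx.2
    have h2 : 1 + x / (1 - x) = 1 / (1 - x) := by field_simp; ring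
    have h3 : 1 + x / (1 - x) ≠ 0 := by
      rw [h2]
      exact div_ne_zero one_ne_zero h1
    refine ⟨Finset.mem_univ _, (hroot _).2 ⟨h3, (hfz _ h3).1 ?_⟩⟩
    have h4 : x / (1 - x) / (1 + x / (1 - x)) = x := by
      rw [h2]
      field_simp
    rw [h4]
    exact hx.2
  · intro z hz
    rw [Finset.mem_filter] at hz
    obtain ⟨h1, h2⟩ := (hroot z).1 hz.2
    have h3 : 1 - z / (1 + z) = 1 / (1 + z) := by field_simp; ring
    rw [h3]
    field_simp
  · intro x hx
    rw [Finset.mem_filter] at hx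
    have h1 := h01 x hx.2
    have h2 : 1 + x / (1 - x) = 1 / (1 - x) := by field_simp; ring
    rw [h2]
    field_simp

theorem FixN_inf (e d : ℕ) (he : Odd e) (hd : Odd d) (hlt : d < e) (heF : (e : F) ≠ 0) (hdF : (d : F) ≠ 0)
    (hcd : Nat.Coprime d (Fintype.card F - 1)) :
    FixN (iA F e d - C 0 * iB F e d) (iB F e d) ((d : F) ^ e * ((e : F) ^ d)⁻¹) =
      (Finset.univ.filter fun z : F => z ^ (e - d) = 1).card := by
  classical
  have hA : (iA F e d - C 0 * iB F e d : F[X]) = iA F e d := by rw [C_0, zero_mul, sub_zero]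
  rw [hA]
  obtain ⟨h1, h2⟩ := iA_cof (K := F) e d hd hlt hdF
  have hroot0 : (iA F e d).eval (-1) = 0 := by
    unfold iA
    rw [eval_mul, eval_pow, eval_pow, eval_add, eval_one, eval_X, add_neg_cancel, zero_pow (by omega), mul_zero]
  have hB : (iB F e d).eval (-1) = (e : F) ^ d := by
    unfold iB
    rw [eval_sub, hroot0, sub_zero, eval_pow, gg_neg_one]
  have honly : ∀ y : F, (iA F e d).IsRoot y → y = -1 := by
    intro y hy
    rcases iA_mult e d hd hlt hdF y hy with h | h
    · exact h.1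
    · exact only_neg_one hd hcd y (gg_root d hd hdF y h.1).1
  have hK : (d : F) ^ e ≠ 0 := pow_ne_zero _ hdF
  have hE : (e : F) ^ d ≠ 0 := pow_ne_zero _ heF
  unfold FixN
  rw [← Set.ncard_coe_finset]
  refine Set.ncard_congr (fun z _ => z.2) ?_ ?_ ?_
  · rintro ⟨y, w⟩ ⟨h4, h5⟩
    have hy := honly y h4
    subst hy
    simp only at h5
    rw [h1, h2, hB, mul_assoc, inv_mul_cancel₀ hE, mul_one] at h5
    rw [Finset.mem_coe, Finset.mem_filter]
    refine ⟨Finset.mem_univ _, ?_⟩
    apply mul_right_cancel₀ hK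
    rw [h5, one_mul]
  · rintro ⟨y, w⟩ ⟨y', w'⟩ ⟨h4, -⟩ ⟨h4', -⟩ h
    exact Prod.ext ((honly y h4).trans (honly y' h4').symm) h
  · intro w hw
    rw [Finset.mem_coe, Finset.mem_filter] at hw
    refine ⟨(-1, w), ⟨hroot0, ?_⟩, rfl⟩
    simp only
    rw [h1, h2, hB, hw.2, mul_assoc, inv_mul_cancel₀ hE]
    ring

theorem sum_twp (e d : ℕ) (hlt : d < e) :
    ∑ v : F, twp e d v = ∑ y ∈ Finset.univ.filter fun y : F => y ^ (e - d) = (1 - y) ^ (e - d),
      quadraticChar F (y * (1 - y)) := by
  unfold twp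
  rw [← Finset.sum_fiberwise_of_maps_to
    (s := Finset.univ.filter fun y : F => y ^ (e - d) = (1 - y) ^ (e - d))
    (t := Finset.univ) (g := fpr e d) (fun y _ => Finset.mem_univ _)]
  refine Finset.sum_congr rfl fun v _ => ?_
  refine Finset.sum_congr ?_ fun _ _ => rfl
  ext y
  simp only [Finset.mem_filter, Finset.mem_univ, true_and]
  exact and_comm

end

theorem main_pos_r (e d : ℕ) (he : Odd e) (hd : Odd d) (hcop : Nat.Coprime e d) (hlt : d < e)
    (F : Type) [Field F] [Fintype F] [DecidableEq F] (hC : 10000 * ((e - 1) * d) ^ 24 < Fintype.card F)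
    (hchar : ringChar F ≠ 2) (heF : (e : F) ≠ 0) (hdF : (d : F) ≠ 0) (hgF : ((e - d : ℕ) : F) ≠ 0)
    (hce : Nat.Coprime e (Fintype.card F - 1)) (hcd : Nat.Coprime d (Fintype.card F - 1))
    (hnice : (Finset.univ.image (fc (fpr e d : F → F))).card ≤ 3) : ∃ v : F, fc (fpr e d) v = 2 := by
  classical
  have hd0 := hd.pos
  have he3 : 3 ≤ e := by
    obtain ⟨r, hr⟩ := he
    omega
  have hn2 : 2 ≤ (e - 1) * d := by
    have : 2 * 1 ≤ (e - 1) * d := Nat.mul_le_mul (by omega) (by omega)
    omega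
  have h2 : (2 : F) ≠ 0 := Ring.two_ne_zero hchar
  have hgp : 0 < e - d := by omega
  have hgev : Even (e - d) := Nat.Odd.sub_odd he hd
  set v0 : F := fpr e d 2⁻¹ with hv0
  have hnle : ∀ v : F, v ≠ 0 → fc (fpr e d) v ≤ (e - 1) * d := by
    intro v hv
    rw [← nrt_pP e d hd hcd heF v]
    obtain ⟨hm, hn⟩ := pA_props (F := F) e d he (by omega) heF
    have hlt' := pB_lt (F := F) e d he hd hlt heF
    have hPd : (C v * pB F e d).degree < (pA F e d).degree := lt_of_le_of_lt (degree_C_mul_le' _ _) hlt'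
    have hPm : (pA F e d - C v * pB F e d).Monic := hm.sub_of_left hPd
    have hPn : (pA F e d - C v * pB F e d).natDegree = (e - 1) * d := by
      rw [natDegree_eq_of_degree_eq (degree_sub_eq_left_of_degree_lt hPd), hn]
    rw [← hPn]
    unfold nrt
    apply card_le_degree_of_subset_roots
    intro x hx
    rw [Finset.mem_val, Finset.mem_filter] at hx
    rw [mem_roots hPm.ne_zero]
    exact hx.2
  have hne0 : ∀ x : F, fpr e d x ≠ 0 := by
    intro x
    unfold fpr
    exact mul_ne_zero (pow_ne_zero _ (dP_eval_ne e he hce x))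
      (pow_ne_zero _ (inv_ne_zero (dP_eval_ne d hd hcd x)))
  have hlt2 : fc (fpr e d) v0 < Fintype.card F := by
    refine lt_of_le_of_lt (hnle v0 (hne0 _)) ?_
    have h3 : (e - 1) * d ≤ ((e - 1) * d) ^ 24 := Nat.le_self_pow (by norm_num) _
    omega
  obtain ⟨a, ha0, haev, hval, va, hva⟩ := nice_fc h2 (fpr e d) (fpr_sym e d) hnice hlt2
  rw [← hv0] at hval
  have hodd := fc_odd h2 (fpr e d) (fpr_sym (F := F) e d)
  rw [← hv0] at hodd
  have hval' : ∀ t : F, t ≠ v0 → (fc (fpr e d) t : ℤ) = 0 ∨ (fc (fpr e d) t : ℤ) = a := by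
    intro t ht
    rcases hval t ht with h | h
    · left; exact_mod_cast h
    · right; exact_mod_cast h
  set κ := (2 * ((d * e : ℕ) : F) * ((e - d : ℕ) : F)) with hκ
  have hκ0 : κ ≠ 0 := by
    rw [hκ]
    refine mul_ne_zero (mul_ne_zero h2 ?_) hgF
    push_cast
    exact mul_ne_zero hdF heF
  have hκsq : quadraticChar F κ * quadraticChar F κ = 1 := by
    have := quadraticChar_sq_one hκ0
    rw [sq] at this
    exact this
  obtain ⟨g, hg⟩ := quadraticChar_exists_neg_one hchar
  have hg0 : g ≠ 0 := by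
    rintro rfl
    simp at hg
  have hplace : ∀ v c : F, v ≠ 0 → c ≠ 0 →
      (fc (fpr e d) v : ℤ) + quadraticChar F c * quadraticChar F κ * twp e d v = 0 ∨
      (fc (fpr e d) v : ℤ) + quadraticChar F c * quadraticChar F κ * twp e d v = a := by
    intro v c hv hc
    have h3 := LPq ((e - 1) * d) (2 * d) (by omega) (by omega) F hC _ _ v c
      (pP_tame hchar e d he hd hcop hlt heF hdF hgF v hv) hc {v0}
      (by rw [Finset.card_singleton]; omega) a
      (by
        intro t ht
        rw [nrt_pP e d hd hcd heF]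
        exact hval t (by simpa using ht))
    rw [hκ, ← FixN_pos hchar e d he hd hcop hlt heF hdF hgF hcd v c hv hc]
    rcases h3 with h | h
    · left; exact_mod_cast h
    · right; exact_mod_cast h
  have htwz : twp e d (0 : F) = 0 := by
    unfold twp
    apply Finset.sum_eq_zero
    intro y hy
    rw [Finset.mem_filter] at hy
    exact absurd hy.2.1 (hne0 y)
  have hfc0 : fc (fpr e d) (0 : F) = 0 := by
    unfold fc
    rw [Finset.card_eq_zero, Finset.filter_eq_empty_iff]
    intro y _ h
    exact hne0 y h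
  have hplus : ∀ v : F, (fc (fpr e d) v : ℤ) + twp e d v = 0 ∨ (fc (fpr e d) v : ℤ) + twp e d v = a := by
    intro v
    by_cases hv : v = 0
    · rw [hv, hfc0, htwz]; left; rfl
    · have h := hplace v κ hv hκ0
      rw [hκsq, one_mul] at h
      exact h
  have hminus : ∀ v : F, (fc (fpr e d) v : ℤ) - twp e d v = 0 ∨ (fc (fpr e d) v : ℤ) - twp e d v = a := by
    intro v
    by_cases hv : v = 0
    · rw [hv, hfc0, htwz]; left; rfl
    · have h := hplace v (κ * g) hv (mul_ne_zero hκ0 hg0)
      rw [map_mul, hg] at h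
      have h3 : quadraticChar F κ * -1 * quadraticChar F κ = -1 := by
        linear_combination (-1 : ℤ) * hκsq
      rw [h3] at h
      have h4 : (fc (fpr e d) v : ℤ) - twp e d v = (fc (fpr e d) v : ℤ) + -1 * twp e d v := by ring
      rw [h4]
      exact h
  have haZ : (0 : ℤ) < a := by exact_mod_cast ha0
  have htw0 : ∀ v : F, v ≠ v0 → twp e d v = 0 := by
    intro v hv
    have h3 := hval' v hv
    have h4 := hplus v
    have h5 := hminus v
    omega
  have hsum : ∑ v : F, twp e d v = twp e d v0 := by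
    refine Finset.sum_eq_single v0 (fun v _ hv => htw0 v hv) ?_
    intro h
    exact absurd (Finset.mem_univ _) h
  have hcrit := sum_crit (F := F) (e - d + 1) hgev.add_one (by omega) h2
  rw [show e - d + 1 - 1 = e - d by omega] at hcrit
  rw [sum_twp e d hlt, hcrit] at hsum
  have hp0 := hplus v0
  have hm0 := hminus v0
  obtain ⟨b', hb'⟩ := hodd
  obtain ⟨a', ha'⟩ := haev
  have hTb : twp e d v0 = fc (fpr e d) v0 ∨ twp e d v0 = -(fc (fpr e d) v0 : ℤ) := by omega
  have h2b : (a : ℤ) = 2 * fc (fpr e d) v0 := by omega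
  set U := Finset.univ.filter fun z : F => z ^ (e - d) = 1 with hU
  have hm1 : (-1 : F) ∈ U := by
    rw [hU, Finset.mem_filter]
    exact ⟨Finset.mem_univ _, hgev.neg_one_pow⟩
  have hone : (1 : F) ∈ U := by
    rw [hU, Finset.mem_filter]
    exact ⟨Finset.mem_univ _, one_pow _⟩
  suffices h : (a : ℤ) = 2 by
    refine ⟨va, ?_⟩
    rw [hva]
    exact_mod_cast h
  have hk : (U.card : ℤ) = 0 ∨ (U.card : ℤ) = a := by
    have h3 := LPq ((e - 1) * d) ((e - d) * e) (by omega) (Nat.mul_pos hgp (by omega)) F hC _ _ 0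
      ((d : F) ^ e * ((e : F) ^ d)⁻¹) (iA_tame e d he hd hcop hlt heF hdF hgF)
      (mul_ne_zero (pow_ne_zero _ hdF) (inv_ne_zero (pow_ne_zero _ heF))) {0, (v0 - 1)⁻¹}
      (Finset.card_le_two.trans (by omega)) a
      (by
        intro t ht
        rw [Finset.mem_insert, Finset.mem_singleton, not_or] at ht
        obtain ⟨ht0, ht1⟩ := ht
        rw [iA_count e d he hd hlt heF hcd t ht0]
        apply hval
        intro h
        apply ht1
        rw [← h]
        simp)
    rw [FixN_inf e d he hd hlt heF hdF hcd] at h3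
    rcases h3 with h | h
    · left; exact_mod_cast h
    · right; exact_mod_cast h
  have hkpos : (0 : ℤ) < U.card := by
    exact_mod_cast Finset.card_pos.2 ⟨1, hone⟩
  have hsu := sum_units (F := F) (e - d) hgp hgev
  rw [← hU, Finset.sum_erase_eq_sub hm1] at hsu
  rcases hsu with ⟨ε, hε, hs⟩ | hs
  · rw [hs] at hsum
    omega
  · rw [hs] at hsum
    omega

end Pool.Agent.H470
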