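import Pool.Agent.H470.Hensel

/-!
# Tame solutions in power series
-/

set_option autoImplicit false
set_option linter.all false

open Polynomial

namespace Pool.Agent.H470

section
variable {k : Type*} [Field k]

/-- A tame point of multiplicity `μ` lifts. -/
theorem tame_lift (gv h B : k[X]) (y0 w0 c : k) (μ N' : ℕ) (hμ : (μ : k) ≠ 0) (hN' : 0 < N')
    (hfac : gv = (X - C y0) ^ μ * h) (hh : h.eval y0 ≠ 0) (hw : w0 ^ μ * h.eval y0 = c * B.eval y0)
    (hw0 : w0 ≠ 0) :
    ∃ w : PowerSeries k, PowerSeries.constantCoeff w = w0 ∧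
      eval₂ (PowerSeries.C : k →+* PowerSeries k) (PowerSeries.C y0 + PowerSeries.X ^ N' * w) gv =
        PowerSeries.C c * PowerSeries.X ^ (μ * N') *
          eval₂ (PowerSeries.C : k →+* PowerSeries k) (PowerSeries.C y0 + PowerSeries.X ^ N' * w) B := by
  classical
  set cc : PowerSeries k →+* k := PowerSeries.constantCoeff with hcc
  set ι : k →+* PowerSeries k := PowerSeries.C with hι
  set L : (PowerSeries k)[X] := C (ι y0) + C (PowerSeries.X ^ N') * X with hL
  set f : (PowerSeries k)[X] := X ^ μ * (h.map ι).comp L - C (ι c) * (B.map ι).comp L with hf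
  have hcι : cc.comp ι = RingHom.id k := by
    ext a
    simp [hcc, hι]
  have hLm : L.map cc = C y0 := by
    rw [hL, Polynomial.map_add, Polynomial.map_mul, map_C, map_C, map_X]
    have h1 : cc (PowerSeries.X ^ N') = 0 := by
      rw [map_pow, hcc, PowerSeries.constantCoeff_X, zero_pow hN'.ne']
    have h2 : cc (ι y0) = y0 := RingHom.congr_fun hcι y0
    rw [h1, h2]
    simp
  have hf0 : f.map cc = X ^ μ * C (h.eval y0) - C (c * B.eval y0) := by
    have h2 : cc (ι c) = c := RingHom.congr_fun hcι c
    rw [hf, Polynomial.map_sub, Polynomial.map_mul, Polynomial.map_mul, Polynomial.map_pow, map_X,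
      Polynomial.map_comp, Polynomial.map_comp, Polynomial.map_map, Polynomial.map_map, hcι,
      Polynomial.map_id, Polynomial.map_id, hLm, map_C, h2, comp_C, comp_C, C_mul]
  have hcomm : ∀ (P : (PowerSeries k)[X]) (a : k), cc (P.eval (ι a)) = (P.map cc).eval a := by
    intro P a
    have h2 : cc (ι a) = a := RingHom.congr_fun hcι a
    conv_rhs => rw [← h2]
    rw [eval_map_apply]
  obtain ⟨w, hw1, hw2⟩ := hensel f w0
    (by
      show cc (f.eval (ι w0)) = 0
      rw [hcomm, hf0, eval_sub, eval_mul, eval_pow, eval_X, eval_C, eval_C, hw, sub_self])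
    (by
      show cc (f.derivative.eval (ι w0)) ≠ 0
      rw [hcomm, ← derivative_map, hf0]
      simp only [derivative_sub, derivative_mul, derivative_C, derivative_X_pow, mul_zero, add_zero,
        sub_zero, eval_mul, eval_C, eval_pow, eval_X]
      exact mul_ne_zero (mul_ne_zero hμ (pow_ne_zero _ hw0)) hh)
  refine ⟨w, hw2, ?_⟩
  set y := ι y0 + PowerSeries.X ^ N' * w with hy
  have hcomp : ∀ P : k[X], ((P.map ι).comp L).eval w = eval₂ ι y P := by
    intro P
    rw [eval_comp, eval_map]
    congr 1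
    rw [hL, eval_add, eval_mul, eval_C, eval_C, eval_X]
  rw [hf, eval_sub, eval_mul, eval_mul, eval_pow, eval_X, eval_C, hcomp, hcomp, sub_eq_zero] at hw1
  rw [hfac, eval₂_mul, eval₂_pow, eval₂_sub, eval₂_X, eval₂_C]
  have h3 : y - ι y0 = PowerSeries.X ^ N' * w := by rw [hy]; ring
  rw [h3, mul_pow, ← pow_mul, mul_assoc, hw1, mul_comm N' μ]
  ring

end

end Pool.Agent.H470
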