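import Pool.Agent.H470.Core6
import Pool.Agent.H470.Tame

/-!
# The field of fractions of the power series ring, as a field over `k(t)`
-/

set_option autoImplicit false
set_option linter.all false

open Polynomial

namespace Pool.Agent.H470

/-- the field of fractions of `k⟦X⟧` -/
def PSF (k : Type) [Field k] : Type := FractionRing (PowerSeries k)

noncomputable instance (k : Type) [Field k] : Field (PSF k) :=
  inferInstanceAs (Field (FractionRing (PowerSeries k)))

/-- the embedding -/
noncomputable def toPSF (k : Type) [Field k] : PowerSeries k →+* PSF k :=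
  algebraMap (PowerSeries k) (FractionRing (PowerSeries k))

theorem toPSF_injective (k : Type) [Field k] : Function.Injective (toPSF k) :=
  IsFractionRing.injective (PowerSeries k) (FractionRing (PowerSeries k))

theorem psMap_injective {k : Type} [Field k] (j : k →+* k) :
    Function.Injective (PowerSeries.map j) := by
  intro a b h
  ext n
  apply j.injective
  rw [← PowerSeries.coeff_map, ← PowerSeries.coeff_map, h]

/-- the map induced by a map of the coefficients -/
noncomputable def psfMap {k : Type} [Field k] (j : k →+* k) : PSF k →+* PSF k :=
  IsFractionRing.map (A := PowerSeries k) (B := PowerSeries k) (K := FractionRing (PowerSeries k))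
    (L := FractionRing (PowerSeries k)) (psMap_injective j)

theorem psfMap_toPSF {k : Type} [Field k] (j : k →+* k) (x : PowerSeries k) :
    psfMap j (toPSF k x) = toPSF k (PowerSeries.map j x) := by
  unfold psfMap toPSF IsFractionRing.map
  exact IsLocalization.map_eq (S := FractionRing (PowerSeries k))
    (Q := FractionRing (PowerSeries k)) _ x

section
variable {k : Type} [Field k]

/-- `p ↦ p(T)` -/
noncomputable def embT (T : k[X]) : k[X] →+* PSF k :=
  (toPSF k).comp ((coeToPowerSeries.ringHom (R := k)).comp (compRingHom T))

theorem embT_apply (T p : k[X]) : embT T p = toPSF k ((p.comp T : k[X]) : PowerSeries k) := rfl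

theorem embT_C (T : k[X]) (c : k) : embT T (C c) = toPSF k (PowerSeries.C c) := by
  rw [embT_apply, C_comp, coe_C]

theorem embT_X (T : k[X]) : embT T X = toPSF k (T : PowerSeries k) := by
  rw [embT_apply, X_comp]

theorem embT_injective {T : k[X]} (hT : 0 < T.natDegree) : Function.Injective (embT T) := by
  rw [injective_iff_map_eq_zero]
  intro p hp
  rw [embT_apply, map_eq_zero_iff _ (toPSF_injective k), coe_eq_zero_iff] at hp
  rcases comp_eq_zero_iff.1 hp with h | ⟨-, h⟩
  · exact h
  · rw [h, natDegree_C] at hT
    exact absurd hT (lt_irrefl _)

theorem eval₂_toPSF (y : PowerSeries k) (P : k[X]) :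
    eval₂ ((toPSF k).comp PowerSeries.C) (toPSF k y) P = toPSF k (eval₂ PowerSeries.C y P) :=
  (hom_eval₂ P PowerSeries.C (toPSF k) y).symm

end

end Pool.Agent.H470
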