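import Pool.Agent.H470.LocQ
import Pool.Agent.H470.MainNeg

/-!
# Negative exponents, quantitative form
-/

set_option autoImplicit false
set_option linter.all false

open Polynomial

namespace Pool.Agent.H470

theorem main_neg_q (m : ℕ) (hm : Odd m) (F : Type) [Field F] [Fintype F]
    [DecidableEq F] (hC : 10000 * (2 * m) ^ 24 < Fintype.card F) (hchar : ringChar F ≠ 2)
    (hmF : (m : F) ≠ 0) (hmF1 : ((m + 1 : ℕ) : F) ≠ 0)
    (hcop : Nat.Coprime m (Fintype.card F - 1))
    (hnice : (Finset.univ.image (fc (fneg m : F → F))).card ≤ 3) :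
    ∃ v : F, fc (fneg m) v = 2 := by
  classical
  have hm0 : 0 < m := hm.pos
  have hC1 := fun A B v c hT hc Bad hBad a ha => LPq (2 * m) 2 (by omega) (by omega) F hC A B v c hT hc Bad hBad a ha
  have hC2 := fun A B v c hT hc Bad hBad a ha => LPq (2 * m) (m + 1) (by omega) (by omega) F hC A B v c hT hc Bad hBad a ha
  have hc3 : 2 * m + 2 < Fintype.card F := by
    have h3 : 2 * m ≤ (2 * m) ^ 24 := Nat.le_self_pow (by norm_num) _
    omega
  have h2 : (2 : F) ≠ 0 := Ring.two_ne_zero hchar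
  set v0 : F := fneg m 2⁻¹ with hv0
  have h2i : (1 : F) - 2⁻¹ = 2⁻¹ := (half_iff h2 (2⁻¹ : F)).2 rfl
  have hv0e : v0 = 2 ^ (m + 1) := by
    rw [hv0]
    unfold fneg
    rw [h2i, inv_inv]
    ring
  have hv0ne : v0 ≠ 0 := by
    rw [hv0e]
    exact pow_ne_zero _ h2
  have hfcn := fun v (hv : v ≠ 0) => fc_fneg (F := F) m hm0 v hv
  have hlt : fc (fneg m) v0 < Fintype.card F := by
    rw [hfcn v0 hv0ne]
    have := nrt_le (F := F) m hm0 v0
    split_ifs <;> omega
  obtain ⟨a, ha0, haev, hval, va, hva⟩ := nice_fc h2 (fneg m) (fneg_sym m) hnice hlt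
  rw [← hv0] at hval
  have hodd := fc_odd h2 (fneg m) (fneg_sym (F := F) m)
  rw [← hv0] at hodd
  set N : F → ℕ := fun v => nrt (nA F m) (X ^ m) v with hN
  set Bad : Finset F := {0, 1, v0} with hBad
  have hBadc : Bad.card ≤ 3 * (2 * m) := Finset.card_le_three.trans (by omega)
  have hgood : ∀ t ∉ Bad, nrt (nA F m) (X ^ m) t = 0 ∨ nrt (nA F m) (X ^ m) t = a := by
    intro t ht
    rw [hBad, Finset.mem_insert, Finset.mem_insert, Finset.mem_singleton, not_or, not_or] at ht
    obtain ⟨h3, h4, h5⟩ := ht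
    have h6 := hfcn t h3
    rw [if_neg h4, add_zero] at h6
    rw [← h6]
    exact hval t h5
  set κ := (2 * (m : F) * ((m + 1 : ℕ) : F)) with hκ
  have hκ0 : κ ≠ 0 := mul_ne_zero (mul_ne_zero h2 hmF) hmF1
  have hκsq : quadraticChar F κ * quadraticChar F κ = 1 := by
    have := quadraticChar_sq_one hκ0
    rw [sq] at this
    exact this
  obtain ⟨g, hg⟩ := quadraticChar_exists_neg_one hchar
  have hg0 : g ≠ 0 := by
    rintro rfl
    simp at hg
  have hplus : ∀ v : F, v ≠ 0 → (N v : ℤ) + twn m v = 0 ∨ (N v : ℤ) + twn m v = a := by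
    intro v hv
    have h3 := hC1 _ _ v κ (nP_tame hchar m hm0 hmF hmF1 v hv) hκ0 Bad hBadc a hgood
    have h4 := FixN_neg hchar m hm hmF hmF1 v κ hv hκ0
    rw [← hκ, hκsq, one_mul] at h4
    rw [show (N v : ℤ) + twn m v = (FixN (nA F m - C v * X ^ m) (X ^ m) κ : ℤ) from h4.symm]
    rcases h3 with h | h
    · left; exact_mod_cast h
    · right; exact_mod_cast h
  have hminus : ∀ v : F, v ≠ 0 → (N v : ℤ) - twn m v = 0 ∨ (N v : ℤ) - twn m v = a := by
    intro v hv
    have h3 := hC1 _ _ v (κ * g) (nP_tame hchar m hm0 hmF hmF1 v hv) (mul_ne_zero hκ0 hg0)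
      Bad hBadc a hgood
    have h4 := FixN_neg hchar m hm hmF hmF1 v (κ * g) hv (mul_ne_zero hκ0 hg0)
    rw [← hκ, map_mul, hg] at h4
    have h5 : quadraticChar F κ * -1 * quadraticChar F κ = -1 := by
      linear_combination (-1 : ℤ) * hκsq
    rw [h5] at h4
    have h6 : (N v : ℤ) - twn m v = (FixN (nA F m - C v * X ^ m) (X ^ m) (κ * g) : ℤ) := by
      rw [h4]
      ring
    rw [h6]
    rcases h3 with h | h
    · left; exact_mod_cast h
    · right; exact_mod_cast h
  have hk := hC2 _ _ 0 (-(m : F)) (nP_tame_zero m hm hmF hmF1) (neg_ne_zero.2 hmF) Bad hBadc a hgood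
  rw [FixN_neg_zero m hm hmF hcop] at hk
  set U := Finset.univ.filter fun z : F => z ^ (m + 1) = 1 with hU
  have hone : (1 : F) ∈ U := by
    rw [hU, Finset.mem_filter]
    exact ⟨Finset.mem_univ _, one_pow _⟩
  have hkpos : 0 < U.card := Finset.card_pos.2 ⟨1, hone⟩
  have hka : U.card = a := by omega
  have haZ : (0 : ℤ) < a := by exact_mod_cast ha0
  suffices h : (a : ℤ) = 2 by
    refine ⟨va, ?_⟩
    rw [hva]
    exact_mod_cast h
  -- generic places
  have htw0 : ∀ v : F, v ≠ 0 → v ≠ 1 → v ≠ v0 → twn m v = 0 := by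
    intro v h3 h4 h5
    have h6 := hgood v (by
      rw [hBad, Finset.mem_insert, Finset.mem_insert, Finset.mem_singleton, not_or, not_or]
      exact ⟨h3, h4, h5⟩)
    have h7 := hplus v h3
    have h8 := hminus v h3
    have h9 : N v = 0 ∨ N v = a := h6
    omega
  obtain ⟨b', hb'⟩ := hodd
  obtain ⟨a', ha'⟩ := haev
  have hfc0 := hfcn v0 hv0ne
  have hp0 := hplus v0 hv0ne
  have hm0' := hminus v0 hv0ne
  have hN0 : fc (fneg m) v0 = N v0 + if v0 = 1 then 2 else 0 := hfc0
  by_cases h1 : v0 = 1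
  · rw [if_pos h1] at hN0
    have hsum : ∑ v ∈ (Finset.univ : Finset F).erase 0, twn m v = twn m v0 := by
      refine Finset.sum_eq_single v0 (fun v hv hv' => ?_) ?_
      · rw [Finset.mem_erase] at hv
        exact htw0 v hv.1 (by rw [← h1]; exact hv') hv'
      · intro h
        exact absurd (Finset.mem_erase.2 ⟨hv0ne, Finset.mem_univ _⟩) h
    rw [sum_twn m hm, ← hU] at hsum
    have hTb : twn m v0 = N v0 ∨ twn m v0 = -(N v0 : ℤ) := by omega
    have h2b : (a : ℤ) = 2 * N v0 := by omega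
    rcases sum_units (F := F) (m + 1) (by omega) hm.add_one with ⟨ε, hε, hs⟩ | hs
    · rw [← hU] at hs
      rw [hs] at hsum
      omega
    · rw [← hU] at hs
      rw [hs] at hsum
      omega
  · rw [if_neg h1, add_zero] at hN0
    have h3 := hplus 1 one_ne_zero
    have h4 := hminus 1 one_ne_zero
    have h5 := hfcn 1 one_ne_zero
    rw [if_pos rfl] at h5
    have h6 : fc (fneg m) (1 : F) = N 1 + 2 := h5
    have h7 := hval 1 (Ne.symm h1)
    omega


end Pool.Agent.H470
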