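import Pool.Agent.H470.Aut3
import Pool.Agent.H470.Niho3

/-!
# A second moment criterion, and exponents `2 P + 1` with `P` a power of the characteristic
-/

set_option autoImplicit false
set_option linter.all false

namespace Pool.Agent.H470

section
variable {L : Type} [Field L] [Fintype L] [DecidableEq L]

/-- the second moment of the multiplicities counts the pairs with equal values -/
theorem sum_sq_fc (f : L → L) :
    ∑ v : L, (fc f v) ^ 2 = (Finset.univ.filter fun p : L × L => f p.1 = f p.2).card := by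
  rw [count_prod (fun x y => f x = f y)]
  have h1 : ∀ x : L, (Finset.univ.filter fun y : L => f x = f y).card = fc f (f x) := by
    intro x
    unfold fc
    congr 1
    ext y
    rw [Finset.mem_filter, Finset.mem_filter]
    exact and_congr_right (fun _ => eq_comm)
  rw [Finset.sum_congr rfl (fun x _ => h1 x), sum_fc_mul f (fc f)]
  apply Finset.sum_congr rfl
  intro v _
  ring

/-- **the second moment criterion** -/
theorem two_of_moment (h2 : (2 : L) ≠ 0) (f : L → L) (hf : ∀ x, f (1 - x) = f x)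
    (hnice : (Finset.univ.image (fc f)).card ≤ 3) (hbig : fc f (f 2⁻¹) < Fintype.card L)
    (hT : (Finset.univ.filter fun p : L × L => f p.1 = f p.2).card + 4 < 4 * Fintype.card L) :
    ∃ v : L, fc f v = 2 := by
  obtain ⟨a, ha0, hae, hav, v, hv⟩ := nice_fc h2 f hf hnice hbig
  have h3 : a < 4 := by
    by_contra hcon
    push Not at hcon
    rw [← sum_sq_fc] at hT
    obtain ⟨v0, hv0⟩ : ∃ v0 : L, v0 = f 2⁻¹ := ⟨_, rfl⟩
    rw [← hv0] at hav hbig
    have hs1 := Finset.add_sum_erase Finset.univ (fun v : L => (fc f v) ^ 2) (Finset.mem_univ v0)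
    have hs2 := Finset.add_sum_erase Finset.univ (fun v : L => fc f v) (Finset.mem_univ v0)
    have hs3 : ∑ v ∈ Finset.univ.erase v0, (fc f v) ^ 2 = a * ∑ v ∈ Finset.univ.erase v0, fc f v := by
      rw [Finset.mul_sum]
      apply Finset.sum_congr rfl
      intro w hw
      rw [Finset.mem_erase] at hw
      rcases hav w hw.1 with h0 | h0
      · rw [h0]
        simp
      · rw [h0]
        ring
    rw [sum_fc] at hs2
    rw [← hs1, hs3] at hT
    obtain ⟨b, hb⟩ : ∃ b, b = fc f v0 := ⟨_, rfl⟩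
    obtain ⟨c, hc⟩ : ∃ c, c = ∑ v ∈ Finset.univ.erase v0, fc f v := ⟨_, rfl⟩
    rw [← hb, ← hc] at hs2 hT
    have h4 : 4 * c ≤ a * c := Nat.mul_le_mul_right _ hcon
    rw [← hs2] at hT
    zify at hT h4
    nlinarith [sq_nonneg ((b : ℤ) - 2)]
  have h4 : a = 2 := by
    obtain ⟨t, ht⟩ := hae
    omega
  exact ⟨v, by rw [hv, h4]⟩

/-- the derivative for the exponent `2 P + 1` -/
def Dq (P : ℕ) (x : L) : L := x ^ (2 * P + 1) + (1 - x) ^ (2 * P + 1)

theorem Dq_sym (P : ℕ) (x : L) : Dq P (1 - x) = Dq P x := by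
  unfold Dq
  rw [show 1 - (1 - x) = x by ring, add_comm]

theorem add_sub_pow (P : ℕ) (hadd : ∀ x y : L, (x + y) ^ P = x ^ P + y ^ P) (x y : L) :
    (x - y) ^ P = x ^ P - y ^ P := by
  have h1 := hadd (x - y) y
  rw [sub_add_cancel] at h1
  linear_combination -h1

theorem Dq_diff (P : ℕ) (hadd : ∀ x y : L, (x + y) ^ P = x ^ P + y ^ P) (x y : L) :
    Dq P x - Dq P y = (x - y) ^ P * (x + y - 1) ^ P + (x - y) * (x + y - 1) ^ P +
      (x - y) ^ P * (x + y - 1) := by
  have hs := add_sub_pow P hadd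
  unfold Dq
  have e1 : ∀ z : L, z ^ (2 * P + 1) = z * (z ^ P) ^ 2 := by
    intro z
    rw [← pow_mul, mul_comm P 2, pow_succ]
    ring
  rw [e1, e1, e1, e1, hs x y, hs (x + y) 1, hadd x y, hs 1 x, hs 1 y, one_pow]
  ring

/-- the number of pairs with equal values -/
theorem pairs_Dq (h2 : (2 : L) ≠ 0) (P : ℕ) (hadd : ∀ x y : L, (x + y) ^ P = x ^ P + y ^ P) :
    (Finset.univ.filter fun p : L × L => Dq P p.1 = Dq P p.2).card =
      (Finset.univ.filter fun p : L × L => p.1 ^ P * p.2 ^ P + p.1 * p.2 ^ P + p.1 ^ P * p.2 = 0).card := by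
  refine Finset.card_bij' (fun p _ => (p.1 - p.2, p.1 + p.2 - 1))
    (fun p _ => ((p.1 + p.2 + 1) / 2, (p.2 + 1 - p.1) / 2)) ?_ ?_ ?_ ?_
  · intro p hp
    rw [Finset.mem_filter] at hp ⊢
    refine ⟨Finset.mem_univ _, ?_⟩
    show (p.1 - p.2) ^ P * (p.1 + p.2 - 1) ^ P + (p.1 - p.2) * (p.1 + p.2 - 1) ^ P +
      (p.1 - p.2) ^ P * (p.1 + p.2 - 1) = 0
    rw [← Dq_diff P hadd, hp.2, sub_self]
  · intro p hp
    rw [Finset.mem_filter] at hp ⊢
    refine ⟨Finset.mem_univ _, ?_⟩
    have h3 := Dq_diff P hadd ((p.1 + p.2 + 1) / 2) ((p.2 + 1 - p.1) / 2)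
    have e1 : (p.1 + p.2 + 1) / 2 - (p.2 + 1 - p.1) / 2 = p.1 := by
      field_simp
      ring
    have e2 : (p.1 + p.2 + 1) / 2 + (p.2 + 1 - p.1) / 2 - 1 = p.2 := by
      field_simp
      ring
    rw [e1, e2, hp.2] at h3
    exact sub_eq_zero.1 h3
  · intro p _
    refine Prod.ext ?_ ?_
    · show (p.1 - p.2 + (p.1 + p.2 - 1) + 1) / 2 = p.1
      field_simp
      ring
    · show (p.1 + p.2 - 1 + 1 - (p.1 - p.2)) / 2 = p.2
      field_simp
      ring
  · intro p _
    refine Prod.ext ?_ ?_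
    · show (p.1 + p.2 + 1) / 2 - (p.2 + 1 - p.1) / 2 = p.1
      field_simp
      ring
    · show (p.1 + p.2 + 1) / 2 + (p.2 + 1 - p.1) / 2 - 1 = p.2
      field_simp
      ring

/-- splitting off the pairs with a zero coordinate -/
theorem pairs_split (P : ℕ) (hP : 0 < P) :
    (Finset.univ.filter fun p : L × L => p.1 ^ P * p.2 ^ P + p.1 * p.2 ^ P + p.1 ^ P * p.2 = 0).card ≤
      2 * Fintype.card L - 1 + (Finset.univ.filter fun p : L × L =>
        (p.1 ≠ 0 ∧ p.2 ≠ 0) ∧ 1 + p.1 ^ (P - 1) + p.2 ^ (P - 1) = 0).card := by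
  have h1 : (Finset.univ.filter fun p : L × L => p.1 ^ P * p.2 ^ P + p.1 * p.2 ^ P + p.1 ^ P * p.2 = 0) ⊆
      ((Finset.univ.filter fun p : L × L => p.1 = 0) ∪ (Finset.univ.filter fun p : L × L => p.2 = 0)) ∪
      (Finset.univ.filter fun p : L × L => (p.1 ≠ 0 ∧ p.2 ≠ 0) ∧
        p.1 ^ P * p.2 ^ P + p.1 * p.2 ^ P + p.1 ^ P * p.2 = 0) := by
    intro p hp
    rw [Finset.mem_filter] at hp
    rw [Finset.mem_union, Finset.mem_union, Finset.mem_filter, Finset.mem_filter, Finset.mem_filter]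
    by_cases h3 : p.1 = 0
    · exact Or.inl (Or.inl ⟨Finset.mem_univ _, h3⟩)
    · by_cases h4 : p.2 = 0
      · exact Or.inl (Or.inr ⟨Finset.mem_univ _, h4⟩)
      · exact Or.inr ⟨Finset.mem_univ _, ⟨h3, h4⟩, hp.2⟩
  refine (Finset.card_le_card h1).trans ((Finset.card_union_le _ _).trans (Nat.add_le_add ?_ ?_))
  · have e1 : (Finset.univ.filter fun p : L × L => p.1 = 0).card = Fintype.card L := by
      rw [← Finset.card_univ]
      refine Finset.card_bij' (fun p _ => p.2) (fun x _ => (0, x)) ?_ ?_ ?_ ?_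
      · intro p _
        exact Finset.mem_univ _
      · intro x _
        rw [Finset.mem_filter]
        exact ⟨Finset.mem_univ _, rfl⟩
      · intro p hp
        rw [Finset.mem_filter] at hp
        exact Prod.ext hp.2.symm rfl
      · intro x _
        rfl
    have e2 : (Finset.univ.filter fun p : L × L => p.2 = 0).card = Fintype.card L := by
      rw [← Finset.card_univ]
      refine Finset.card_bij' (fun p _ => p.1) (fun x _ => (x, 0)) ?_ ?_ ?_ ?_
      · intro p _
        exact Finset.mem_univ _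
      · intro x _
        rw [Finset.mem_filter]
        exact ⟨Finset.mem_univ _, rfl⟩
      · intro p hp
        rw [Finset.mem_filter] at hp
        exact Prod.ext rfl hp.2.symm
      · intro x _
        rfl
    have e3 := Finset.card_union_add_card_inter (Finset.univ.filter fun p : L × L => p.1 = 0)
      (Finset.univ.filter fun p : L × L => p.2 = 0)
    have e4 : 0 < ((Finset.univ.filter fun p : L × L => p.1 = 0) ∩
        (Finset.univ.filter fun p : L × L => p.2 = 0)).card := by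
      rw [Finset.card_pos]
      refine ⟨(0, 0), ?_⟩
      rw [Finset.mem_inter, Finset.mem_filter, Finset.mem_filter]
      exact ⟨⟨Finset.mem_univ _, rfl⟩, Finset.mem_univ _, rfl⟩
    omega
  · apply Finset.card_le_card_of_injOn (fun p => (p.1⁻¹, p.2⁻¹))
    · intro p hp
      rw [Finset.mem_coe, Finset.mem_filter] at hp
      obtain ⟨-, ⟨h3, h4⟩, h5⟩ := hp
      rw [Finset.mem_coe, Finset.mem_filter]
      refine ⟨Finset.mem_univ _, ⟨inv_ne_zero h3, inv_ne_zero h4⟩, ?_⟩
      obtain ⟨P', rfl⟩ : ∃ P', P = P' + 1 := ⟨P - 1, by omega⟩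
      simp only [Nat.add_sub_cancel]
      have h6 : p.1 ^ P' ≠ 0 := pow_ne_zero _ h3
      have h7 : p.2 ^ P' ≠ 0 := pow_ne_zero _ h4
      have h8 : p.1 * p.2 * (p.1 ^ P' * p.2 ^ P' + p.2 ^ P' + p.1 ^ P') = 0 := by
        rw [pow_succ, pow_succ] at h5
        linear_combination h5
      have h9 : p.1 ^ P' * p.2 ^ P' + p.2 ^ P' + p.1 ^ P' = 0 :=
        (mul_eq_zero.1 h8).resolve_left (mul_ne_zero h3 h4)
      rw [inv_pow, inv_pow]
      field_simp
      linear_combination h9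
    · intro p _ r _ hpr
      simp only [Prod.mk.injEq, inv_inj] at hpr
      exact Prod.ext hpr.1 hpr.2

/-- fibres of `x ↦ x ^ m` -/
theorem fibre_le (m : ℕ) (α : L) :
    (Finset.univ.filter fun x : L => x ≠ 0 ∧ x ^ m = α).card ≤
      (Finset.univ.filter fun x : L => x ≠ 0 ∧ x ^ m = 1).card := by
  rcases (Finset.univ.filter fun x : L => x ≠ 0 ∧ x ^ m = α).eq_empty_or_nonempty with h | ⟨x0, hx0⟩
  · rw [h, Finset.card_empty]
    exact Nat.zero_le _
  · rw [Finset.mem_filter] at hx0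
    obtain ⟨-, hx0, hx1⟩ := hx0
    apply Finset.card_le_card_of_injOn (fun x => x / x0)
    · intro x hx
      rw [Finset.mem_coe, Finset.mem_filter] at hx
      rw [Finset.mem_coe, Finset.mem_filter]
      refine ⟨Finset.mem_univ _, div_ne_zero hx.2.1 hx0, ?_⟩
      rw [div_pow, hx.2.2, hx1, div_self]
      rw [← hx1]
      exact pow_ne_zero _ hx0
    · intro x _ y _ hxy
      exact (div_left_inj' hx0).1 hxy

/-- the number of pairs in terms of cyclotomic numbers -/
theorem pairs_cyc (m γ : ℕ) (hγ : ∀ x : L, x ≠ 0 → (x ^ m) ^ γ = 1) :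
    (Finset.univ.filter fun p : L × L => (p.1 ≠ 0 ∧ p.2 ≠ 0) ∧ 1 + p.1 ^ m + p.2 ^ m = 0).card ≤
      ((Finset.univ.filter fun x : L => x ≠ 0 ∧ x ^ m = 1).card) ^ 2 *
      (Finset.univ.filter fun z : L => z ^ γ = 1 ∧ (1 + z) ^ γ = (-1) ^ γ).card := by
  have hmaps : Set.MapsTo (fun p : L × L => p.1 ^ m)
      ((Finset.univ.filter fun p : L × L => (p.1 ≠ 0 ∧ p.2 ≠ 0) ∧ 1 + p.1 ^ m + p.2 ^ m = 0 :
        Finset (L × L)) : Set (L × L))
      ((Finset.univ.filter fun z : L => z ^ γ = 1 ∧ (1 + z) ^ γ = (-1) ^ γ : Finset L) : Set L) := by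
    intro p hp
    rw [Finset.mem_coe, Finset.mem_filter] at hp
    obtain ⟨-, ⟨h3, h4⟩, h5⟩ := hp
    rw [Finset.mem_coe, Finset.mem_filter]
    refine ⟨Finset.mem_univ _, hγ _ h3, ?_⟩
    have h6 : 1 + p.1 ^ m = -1 * p.2 ^ m := by linear_combination h5
    rw [h6, mul_pow, hγ _ h4, mul_one]
  rw [Finset.card_eq_sum_card_fiberwise hmaps]
  refine (Finset.sum_le_card_nsmul _ _
    ((Finset.univ.filter fun x : L => x ≠ 0 ∧ x ^ m = 1).card ^ 2) ?_).trans ?_
  · intro α _
    refine le_trans (Finset.card_le_card (t := (Finset.univ.filter fun x : L => x ≠ 0 ∧ x ^ m = α) ×ˢ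
      (Finset.univ.filter fun x : L => x ≠ 0 ∧ x ^ m = -1 - α)) ?_) ?_
    · intro p hp
      rw [Finset.mem_filter, Finset.mem_filter] at hp
      obtain ⟨⟨-, ⟨h3, h4⟩, h5⟩, h6⟩ := hp
      rw [Finset.mem_product, Finset.mem_filter, Finset.mem_filter]
      refine ⟨⟨Finset.mem_univ _, h3, h6⟩, Finset.mem_univ _, h4, ?_⟩
      rw [← h6]
      linear_combination h5
    · rw [Finset.card_product, sq]
      exact Nat.mul_le_mul (fibre_le m α) (fibre_le m _)
  · rw [smul_eq_mul, mul_comm]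

end
end Pool.Agent.H470
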