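import Pool.Agent.H470.Qd1

/-!
# Bounds for the cyclotomic numbers in the exponents `2 P + 1`
-/

set_option autoImplicit false
set_option linter.all false

namespace Pool.Agent.H470

section
variable {L : Type} [Field L] [Fintype L] [DecidableEq L]

/-- the number of pairs with equal values of the derivative -/
theorem T_bound (h2 : (2 : L) ≠ 0) (P : ℕ) (hP : 0 < P) (hadd : ∀ x y : L, (x + y) ^ P = x ^ P + y ^ P)
    (κ γ J : ℕ) (hκ : (Finset.univ.filter fun x : L => x ≠ 0 ∧ x ^ (P - 1) = 1).card = κ)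
    (hγ : ∀ x : L, x ≠ 0 → (x ^ (P - 1)) ^ γ = 1)
    (hJ : (Finset.univ.filter fun z : L => z ^ γ = 1 ∧ (1 + z) ^ γ = (-1) ^ γ).card ≤ J) :
    (Finset.univ.filter fun p : L × L => Dq P p.1 = Dq P p.2).card ≤ 2 * Fintype.card L - 1 + κ ^ 2 * J := by
  rw [pairs_Dq h2 P hadd]
  refine (pairs_split P hP).trans (Nat.add_le_add_left ?_ _)
  refine (pairs_cyc (P - 1) γ hγ).trans ?_
  rw [hκ]
  exact Nat.mul_le_mul_left _ hJ

/-- `γ = 1` -/
theorem J_one (h3 : (3 : L) ≠ 0) :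
    (Finset.univ.filter fun z : L => z ^ 1 = 1 ∧ (1 + z) ^ 1 = (-1) ^ 1).card ≤ 0 := by
  rw [Nat.le_zero, Finset.card_eq_zero, Finset.filter_eq_empty_iff]
  rintro z - ⟨h, h'⟩
  rw [pow_one] at h
  rw [pow_one, pow_one, h] at h'
  apply h3
  linear_combination h'

/-- `γ = Q + 1` -/
theorem J_two (Q : ℕ) (hQ : Odd Q) (hadd : ∀ x y : L, (x + y) ^ Q = x ^ Q + y ^ Q) :
    (Finset.univ.filter fun z : L => z ^ (Q + 1) = 1 ∧ (1 + z) ^ (Q + 1) = (-1) ^ (Q + 1)).card ≤ 2 := by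
  have hall : ∀ z : L, z ^ (Q + 1) = 1 → (1 + z) ^ (Q + 1) = (-1) ^ (Q + 1) → z ^ 2 + z + 1 = 0 := by
    intro z h h'
    have hev : Even (Q + 1) := hQ.add_one
    rw [hev.neg_one_pow, pow_succ, hadd, one_pow] at h'
    rw [pow_succ] at h
    have hz : z ≠ 0 := by
      intro hz
      rw [hz, mul_zero] at h
      exact zero_ne_one h
    have h1 : 1 + z + z ^ Q = 0 := by linear_combination h' - h
    have h3 : z * (1 + z + z ^ Q) = 0 := by rw [h1, mul_zero]
    linear_combination h3 - h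
  rcases (Finset.univ.filter fun z : L => z ^ (Q + 1) = 1 ∧ (1 + z) ^ (Q + 1) = (-1) ^ (Q + 1)).eq_empty_or_nonempty
    with h | ⟨w, hw⟩
  · rw [h, Finset.card_empty]
    exact Nat.zero_le _
  · rw [Finset.mem_filter] at hw
    have hw2 := hall w hw.2.1 hw.2.2
    refine (Finset.card_le_card (t := {w, -1 - w}) ?_).trans Finset.card_le_two
    intro z hz
    rw [Finset.mem_filter] at hz
    have hz2 := hall z hz.2.1 hz.2.2
    have h3 : (z - w) * (z - (-1 - w)) = 0 := by linear_combination hz2 - hw2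
    rw [Finset.mem_insert, Finset.mem_singleton]
    rcases mul_eq_zero.1 h3 with h4 | h4
    · exact Or.inl (sub_eq_zero.1 h4)
    · exact Or.inr (sub_eq_zero.1 h4)

/-- the simplest cubic -/
def SC (e z : L) : L := z ^ 3 - e * z ^ 2 - (e + 3) * z - 1

theorem SC_orbit (e X z : L) (hX : SC e X = 0) (hz : SC e z = 0) :
    X ≠ 0 ∧ 1 + X ≠ 0 ∧ (z = X ∨ z = -(1 + X)⁻¹ ∨ z = -(1 + X) / X) := by
  unfold SC at hX hz
  have h0 : X ≠ 0 := by
    intro h
    rw [h] at hX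
    apply one_ne_zero (α := L)
    linear_combination -hX
  have h1 : 1 + X ≠ 0 := by
    intro h
    have h' : X = -1 := by linear_combination h
    rw [h'] at hX
    apply one_ne_zero (α := L)
    linear_combination hX
  refine ⟨h0, h1, ?_⟩
  have h3 : (z - X) * ((z * (1 + X) + 1) * (z * X + (1 + X))) = 0 := by
    linear_combination (X * (1 + X)) * hz - (z ^ 2 + z) * hX
  rcases mul_eq_zero.1 h3 with h4 | h4
  · exact Or.inl (sub_eq_zero.1 h4)
  · rcases mul_eq_zero.1 h4 with h5 | h5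
    · refine Or.inr (Or.inl ?_)
      field_simp
      linear_combination h5
    · refine Or.inr (Or.inr ?_)
      field_simp
      linear_combination h5

/-- the number of fixed points of `x ↦ x ^ Q` -/
theorem card_fixQ (Q : ℕ) (hQ : 1 < Q) (hd : Q - 1 ∣ Fintype.card L - 1) :
    (Finset.univ.filter fun x : L => x ^ Q = x).card = Q := by
  have h1 : (Finset.univ.filter fun x : L => x ^ Q = x) =
      insert 0 (Finset.univ.filter fun x : L => x ^ (Q - 1) = 1) := by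
    ext x
    rw [Finset.mem_insert, Finset.mem_filter, Finset.mem_filter]
    obtain ⟨Q', rfl⟩ : ∃ Q', Q = Q' + 1 := ⟨Q - 1, by omega⟩
    rw [Nat.add_sub_cancel, pow_succ]
    constructor
    · rintro ⟨-, h⟩
      by_cases hx : x = 0
      · exact Or.inl hx
      · refine Or.inr ⟨Finset.mem_univ _, ?_⟩
        apply mul_right_cancel₀ hx
        rw [h, one_mul]
    · rintro (h | ⟨-, h⟩)
      · refine ⟨Finset.mem_univ _, ?_⟩
        rw [h, mul_zero]
      · exact ⟨Finset.mem_univ _, by rw [h, one_mul]⟩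
  rw [h1, Finset.card_insert_of_notMem, rc (Q - 1) hd]
  · omega
  · rw [Finset.mem_filter]
    rintro ⟨-, h⟩
    rw [zero_pow (by omega)] at h
    exact zero_ne_one h

/-- `γ = Q ^ 2 + Q + 1` -/
theorem J_three (Q : ℕ) (hQ : Odd Q) (hQ3 : 3 ≤ Q) (hadd : ∀ x y : L, (x + y) ^ Q = x ^ Q + y ^ Q)
    (hfix : ∀ z : L, ((z ^ Q) ^ Q) ^ Q = z) (hK : (Finset.univ.filter fun x : L => x ^ Q = x).card = Q) :
    (Finset.univ.filter fun z : L => z ^ (Q * Q + Q + 1) = 1 ∧
      (1 + z) ^ (Q * Q + Q + 1) = (-1) ^ (Q * Q + Q + 1)).card ≤ 2 * Q + 4 := by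
  have hodd : Odd (Q * Q + Q + 1) := by
    have h1 : Even (Q * Q + Q) := (hQ.mul hQ).add_odd hQ
    exact h1.add_one
  have hnorm : ∀ z : L, z ^ (Q * Q + Q + 1) = (z ^ Q) ^ Q * z ^ Q * z := by
    intro z
    rw [pow_succ, pow_add, pow_mul]
  have hsub : ∀ x y : L, (x - y) ^ Q = x ^ Q - y ^ Q := add_sub_pow Q hadd
  have hneg : ∀ x : L, (-x) ^ Q = -x ^ Q := fun x => hQ.neg_pow x
  -- the equations
  have key : ∀ z : L, z ^ (Q * Q + Q + 1) = 1 → (1 + z) ^ (Q * Q + Q + 1) = (-1) ^ (Q * Q + Q + 1) →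
      SC (z + z ^ Q + (z ^ Q) ^ Q) z = 0 := by
    intro z h h'
    rw [hodd.neg_one_pow, hnorm, hadd, one_pow, hadd, one_pow] at h'
    rw [hnorm] at h
    unfold SC
    linear_combination (-z) * h' + (1 + z) * h
  obtain ⟨Z, hZ⟩ : ∃ Z, Z = Finset.univ.filter fun z : L => (z ^ (Q * Q + Q + 1) = 1 ∧
      (1 + z) ^ (Q * Q + Q + 1) = (-1) ^ (Q * Q + Q + 1)) ∧ z ^ Q ≠ z := ⟨_, rfl⟩
  obtain ⟨Y, hY⟩ : ∃ Y, Y = Finset.univ.filter fun z : L => (z ^ (Q * Q + Q + 1) = 1 ∧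
      (1 + z) ^ (Q * Q + Q + 1) = (-1) ^ (Q * Q + Q + 1)) ∧ z ^ Q = z := ⟨_, rfl⟩
  have hsplit : (Finset.univ.filter fun z : L => z ^ (Q * Q + Q + 1) = 1 ∧
      (1 + z) ^ (Q * Q + Q + 1) = (-1) ^ (Q * Q + Q + 1)) ⊆ Y ∪ Z := by
    intro z hz
    rw [Finset.mem_filter] at hz
    rw [Finset.mem_union, hY, hZ, Finset.mem_filter, Finset.mem_filter]
    by_cases h : z ^ Q = z
    · exact Or.inl ⟨Finset.mem_univ _, hz.2, h⟩
    · exact Or.inr ⟨Finset.mem_univ _, hz.2, h⟩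
  -- the solutions in the subfield
  have hYc : Y.card ≤ 2 := by
    have hall : ∀ z ∈ Y, z * z * z = 1 ∧ 3 * (z ^ 2 + z + 1) = 0 := by
      intro z hz
      rw [hY, Finset.mem_filter] at hz
      obtain ⟨-, ⟨h, h'⟩, h3⟩ := hz
      rw [hodd.neg_one_pow, hnorm, hadd, one_pow, hadd, one_pow, h3, h3] at h'
      rw [hnorm, h3, h3] at h
      exact ⟨h, by linear_combination h' - h⟩
    by_cases h3 : (3 : L) = 0
    · refine (Finset.card_le_card (t := {1}) ?_).trans (by rw [Finset.card_singleton]; norm_num)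
      intro z hz
      rw [Finset.mem_singleton]
      have h4 : (z - 1) ^ 3 = 0 := by
        linear_combination (hall z hz).1 - (z ^ 2 - z) * h3
      exact sub_eq_zero.1 (pow_eq_zero_iff (by norm_num) |>.1 h4)
    · rcases Y.eq_empty_or_nonempty with h | ⟨w, hw⟩
      · rw [h, Finset.card_empty]
        exact Nat.zero_le _
      · have hw2 := (mul_eq_zero.1 (hall w hw).2).resolve_left h3
        refine (Finset.card_le_card (t := {w, -1 - w}) ?_).trans Finset.card_le_two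
        intro z hz
        have hz2 := (mul_eq_zero.1 (hall z hz).2).resolve_left h3
        have h3 : (z - w) * (z - (-1 - w)) = 0 := by linear_combination hz2 - hw2
        rw [Finset.mem_insert, Finset.mem_singleton]
        rcases mul_eq_zero.1 h3 with h4 | h4
        · exact Or.inl (sub_eq_zero.1 h4)
        · exact Or.inr (sub_eq_zero.1 h4)
  -- fibres of size at most three
  have hthree : ∀ (T : Finset L) (e : L), (∀ z ∈ T, SC e z = 0) → T.card ≤ 3 := by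
    intro T e hT
    rcases T.eq_empty_or_nonempty with h | ⟨X, hX⟩
    · rw [h, Finset.card_empty]
      exact Nat.zero_le _
    · refine (Finset.card_le_card (t := {X, -(1 + X)⁻¹, -(1 + X) / X}) ?_).trans Finset.card_le_three
      intro z hz
      have h4 := (SC_orbit e X z (hT X hX) (hT z hz)).2.2
      rw [Finset.mem_insert, Finset.mem_insert, Finset.mem_singleton]
      exact h4
  -- the traces
  obtain ⟨tr, htr⟩ : ∃ tr : L → L, tr = fun z => z + z ^ Q + (z ^ Q) ^ Q := ⟨_, rfl⟩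
  have hZtr : Z.card ≤ 3 * (Z.image tr).card := by
    apply Finset.card_le_mul_card_image
    intro e _
    apply hthree _ e
    intro z hz
    rw [Finset.mem_filter, hZ, Finset.mem_filter] at hz
    have h4 := key z hz.1.2.1.1 hz.1.2.1.2
    rw [← hz.2, htr]
    exact h4
  obtain ⟨K, hKK⟩ : ∃ K, K = Finset.univ.filter fun x : L => x ^ Q = x := ⟨_, rfl⟩
  rw [← hKK] at hK
  have hmK : ∀ x : L, x ∈ K ↔ x ^ Q = x := by
    intro x
    rw [hKK, Finset.mem_filter]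
    exact and_iff_right (Finset.mem_univ _)
  obtain ⟨A, hA⟩ : ∃ A, A = (K.erase 0).erase (-1) := ⟨_, rfl⟩
  have hAc : A.card = Q - 2 := by
    have h0 : (0 : L) ∈ K := (hmK 0).2 (zero_pow (by omega))
    have h1 : (-1 : L) ∈ K.erase 0 := by
      rw [Finset.mem_erase]
      refine ⟨neg_ne_zero.2 one_ne_zero, (hmK _).2 ?_⟩
      rw [hneg, one_pow]
    rw [hA, Finset.card_erase_of_mem h1, Finset.card_erase_of_mem h0, hK]
    omega
  obtain ⟨ϕ, hϕ⟩ : ∃ ϕ : L → L, ϕ = fun X => (X ^ 3 - 3 * X - 1) / (X * (1 + X)) := ⟨_, rfl⟩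
  have hmA : ∀ X ∈ A, X ≠ 0 ∧ 1 + X ≠ 0 ∧ X ^ Q = X := by
    intro X hX
    rw [hA, Finset.mem_erase, Finset.mem_erase] at hX
    refine ⟨hX.2.1, ?_, (hmK X).1 hX.2.2⟩
    intro h
    apply hX.1
    linear_combination h
  have hϕSC : ∀ X ∈ A, SC (ϕ X) X = 0 := by
    intro X hX
    obtain ⟨h0, h1, -⟩ := hmA X hX
    rw [hϕ]
    unfold SC
    field_simp
    ring
  have hAϕ : A.card ≤ 3 * (A.image ϕ).card := by
    apply Finset.card_le_mul_card_image
    intro e _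
    apply hthree _ e
    intro z hz
    rw [Finset.mem_filter] at hz
    rw [← hz.2]
    exact hϕSC z hz.1
  have htrK : Z.image tr ⊆ K := by
    intro e he
    rw [Finset.mem_image] at he
    obtain ⟨z, -, rfl⟩ := he
    rw [hmK, htr]
    simp only
    rw [hadd, hadd, hfix]
    ring
  have hϕK : A.image ϕ ⊆ K := by
    intro e he
    rw [Finset.mem_image] at he
    obtain ⟨X, hX, rfl⟩ := he
    obtain ⟨h0, h1, h3⟩ := hmA X hX
    have h3Q : (3 : L) ^ Q = 3 := by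
      have h4 : (3 : L) = 1 + 1 + 1 := by norm_num
      rw [h4, hadd, hadd, one_pow]
    rw [hmK, hϕ]
    simp only
    rw [div_pow, hsub, hsub, mul_pow, mul_pow, hadd, one_pow, h3, h3Q, ← pow_mul, mul_comm 3 Q, pow_mul, h3]
  have hdisj : Disjoint (Z.image tr) (A.image ϕ) := by
    rw [Finset.disjoint_left]
    intro e he1 he2
    rw [Finset.mem_image] at he1 he2
    obtain ⟨z, hz, hze⟩ := he1
    obtain ⟨X, hX, hXe⟩ := he2
    have h4 := hϕSC X hX
    rw [hXe] at h4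
    rw [hZ, Finset.mem_filter] at hz
    have h5 := key z hz.2.1.1 hz.2.1.2
    have h6 : z + z ^ Q + (z ^ Q) ^ Q = e := by rw [← hze, htr]
    rw [h6] at h5
    obtain ⟨h0, h1, h7⟩ := SC_orbit e X z h4 h5
    have h3 := (hmA X hX).2.2
    apply hz.2.2
    rcases h7 with h7 | h7 | h7
    · rw [h7, h3]
    · rw [h7, hneg, inv_pow, hadd, one_pow, h3]
    · rw [h7, div_pow, hneg, hadd, one_pow, h3]
  have hunion := Finset.card_le_card (Finset.union_subset htrK hϕK)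
  rw [Finset.card_union_of_disjoint hdisj, hK] at hunion
  have hfin := (Finset.card_le_card hsplit).trans (Finset.card_union_le _ _)
  omega

/-- numerical contradiction for `m ≥ 4` -/
theorem num_four (q κ γ J : ℕ) (hq : q = κ * γ + 1) (hκ : κ ^ 4 + 4 ≤ q)
    (hb : ((q : ℤ) * J - γ * γ) ^ 2 ≤ (q : ℤ) ^ 3) (hT : 4 * q ≤ 2 * q - 1 + κ ^ 2 * J + 4) : False := by
  have h0 : (2 * q : ℤ) ≤ κ ^ 2 * J + 3 := by
    have : 2 * q ≤ κ ^ 2 * J + 3 := by omega
    exact_mod_cast this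
  have hκ' : (κ : ℤ) ^ 4 ≤ q - 4 := by
    have : κ ^ 4 + 4 ≤ q := hκ
    zify at this
    linarith
  have hq4 : (4 : ℤ) ≤ q := by
    have : 4 ≤ q := by
      have := Nat.zero_le (κ ^ 4)
      omega
    exact_mod_cast this
  have hq' : (q : ℤ) = κ * γ + 1 := by exact_mod_cast hq
  have h1 : (κ : ℤ) ^ 4 * ((q : ℤ) * J - γ * γ) ^ 2 ≤ (κ : ℤ) ^ 4 * (q : ℤ) ^ 3 :=
    mul_le_mul_of_nonneg_left hb (by positivity)
  have h2 : (κ : ℤ) ^ 4 * (q : ℤ) ^ 3 ≤ (q - 4) * (q : ℤ) ^ 3 :=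
    mul_le_mul_of_nonneg_right hκ' (by positivity)
  have h3 : (κ : ℤ) ^ 4 * ((q : ℤ) * J - γ * γ) ^ 2 = ((q : ℤ) * (κ ^ 2 * J) - (q - 1) ^ 2) ^ 2 := by
    rw [hq']
    ring
  have h4 : (q : ℤ) ^ 2 - q - 1 ≤ (q : ℤ) * (κ ^ 2 * J) - (q - 1) ^ 2 := by
    nlinarith
  have h5 : (0 : ℤ) ≤ (q : ℤ) ^ 2 - q - 1 := by nlinarith
  have h6 : ((q : ℤ) ^ 2 - q - 1) ^ 2 ≤ ((q : ℤ) * (κ ^ 2 * J) - (q - 1) ^ 2) ^ 2 :=
    pow_le_pow_left₀ h5 h4 2
  rw [← h3] at h6
  have h7 := h6.trans (h1.trans h2)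
  nlinarith [sq_nonneg ((q : ℤ) - 1), mul_nonneg (by linarith : (0 : ℤ) ≤ q - 4) (by positivity : (0 : ℤ) ≤ (q : ℤ) ^ 2)]

end
end Pool.Agent.H470
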