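import Pool.Agent.H470.Reduce
import Pool.Agent.H470.MainNeg

/-!
# Reduction for integral exponents
-/

set_option autoImplicit false
set_option linter.all false

namespace Pool.Agent.H470

section
variable {L : Type} [Field L] [Fintype L] [DecidableEq L]

theorem card_gt_two (hchar : ringChar L ≠ 2) : 2 < Fintype.card L := by
  by_contra hcon
  have h1 : 1 < Fintype.card L := Fintype.one_lt_card
  have h2 : Fintype.card L = 2 := by omega
  apply hchar
  have h3 : ((2 : ℕ) : L) = 0 := by rw [← h2, Nat.cast_card_eq_zero]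
  have h4 := (ringChar.spec L 2).1 h3
  exact (Nat.prime_dvd_prime_iff_eq (CharP.char_is_prime L (ringChar L)) Nat.prime_two).1 h4

theorem card_sub_one_even (hchar : ringChar L ≠ 2) : 2 ∣ Fintype.card L - 1 := by
  have h3 : Odd (Fintype.card L) := by
    rw [← Nat.not_even_iff_odd, even_iff_two_dvd]
    intro h4
    obtain ⟨n, hp, hcard⟩ := FiniteField.card L (ringChar L)
    rw [hcard] at h4
    have := Nat.Prime.dvd_of_dvd_pow Nat.prime_two h4
    exact hchar ((Nat.prime_dvd_prime_iff_eq Nat.prime_two hp).1 this).symm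
  obtain ⟨m, hm⟩ := h3
  exact ⟨m, by omega⟩

theorem zpow_congr' (e : ℤ) (s j : ℕ)
    (h : (s : ℤ) ≡ e * (ringChar L : ℤ) ^ j [ZMOD ((Fintype.card L : ℤ) - 1)]) (x : L) (hx : x ≠ 0) :
    x ^ s = (x ^ e) ^ (ringChar L) ^ j := by
  have hcard : 1 ≤ Fintype.card L := Fintype.card_pos
  have h1 : x ^ ((Fintype.card L : ℤ) - 1) = 1 := by
    have h2 := FiniteField.pow_card_sub_one_eq_one x hx
    have h3 : ((Fintype.card L : ℤ) - 1) = ((Fintype.card L - 1 : ℕ) : ℤ) := by
      rw [Nat.cast_sub hcard]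
      norm_num
    rw [h3, zpow_natCast, h2]
  obtain ⟨c, hc⟩ := h.symm.dvd
  have h4 : (s : ℤ) = e * (ringChar L : ℤ) ^ j + ((Fintype.card L : ℤ) - 1) * c := by
    rw [← hc]
    ring
  have h5 : x ^ (s : ℤ) = x ^ (e * (ringChar L : ℤ) ^ j) := by
    rw [h4, zpow_add₀ hx, zpow_mul x ((Fintype.card L : ℤ) - 1), h1, one_zpow, mul_one]
  rw [zpow_natCast] at h5
  rw [h5, zpow_mul]
  rw [show ((ringChar L : ℤ) ^ j) = (((ringChar L) ^ j : ℕ) : ℤ) by push_cast; rfl, zpow_natCast]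

theorem neg_twist (m s j : ℕ) (hm : 0 < m) (hs : 0 < s)
    (h : (s : ℤ) ≡ -(m : ℤ) * (ringChar L : ℤ) ^ j [ZMOD ((Fintype.card L : ℤ) - 1)]) (v : L) :
    (Finset.univ.filter (fun p : L × L => p.1 + p.2 = 1 ∧ p.1 ^ s + p.2 ^ s = v ^ (ringChar L) ^ j)).card =
      fc (fneg m) v := by
  have hp : ringChar L ≠ 0 := CharP.char_ne_zero_of_finite L (ringChar L)
  have hpow : ∀ x : L, x ^ s = ((x⁻¹) ^ m) ^ (ringChar L) ^ j := by
    intro x
    by_cases hx : x = 0
    · rw [hx, zero_pow hs.ne', inv_zero, zero_pow hm.ne', zero_pow (pow_ne_zero _ hp)]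
    · rw [zpow_congr' (-(m : ℤ)) s j h x hx, zpow_neg, zpow_natCast]
      simp only [inv_pow]
  rw [pairs_eq]
  unfold fc fneg
  congr 1
  ext x
  simp only [Finset.mem_filter, Finset.mem_univ, true_and]
  rw [hpow, hpow, ← frob_add]
  exact ⟨fun h => (frob_bij j).1 h, fun h => by rw [h]⟩

end

end Pool.Agent.H470
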