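import Pool.Agent.H470.Wal1
import Pool.Agent.H470.Reduce2

/-!
# Power permutations with at most three Walsh values
-/

set_option autoImplicit false
set_option linter.all false

namespace Pool.Agent.H470

section
variable {L : Type} [Field L] [Fintype L] [DecidableEq L]

theorem Ds_zero (s : ℕ) (hs0 : 0 < s) : Ds s (0 : L) = 1 := by
  unfold Ds
  rw [zero_pow hs0.ne', sub_zero, one_pow, zero_add]

/-- the special fibre is not everything -/
theorem hbig_gen (s : ℕ) (hs0 : 0 < s) (hodd : Odd s)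
    (hs : ¬ ∃ k : ℕ, s ≡ ringChar L ^ k [MOD Fintype.card L - 1]) :
    fc (Ds s) (Ds s (2⁻¹ : L)) < Fintype.card L := by
  apply lt_of_le_of_ne
  · unfold fc
    exact Finset.card_le_univ _
  · intro h
    have h1 : (Finset.univ.filter fun x : L => Ds s x = Ds s (2⁻¹ : L)) = Finset.univ := by
      rw [← Finset.card_eq_iff_eq_univ]
      exact h
    have h2 : ∀ x : L, Ds s x = Ds s (2⁻¹ : L) := by
      intro x
      have h3 : x ∈ (Finset.univ.filter fun x : L => Ds s x = Ds s (2⁻¹ : L)) := by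
        rw [h1]
        exact Finset.mem_univ _
      exact (Finset.mem_filter.1 h3).2
    apply hs
    apply auto_of_const s hs0 hodd
    intro x
    have h3 : Ds s x = 1 := by
      rw [h2 x, ← h2 0, Ds_zero s hs0]
    exact h3

theorem s_pos (hchar : ringChar L ≠ 2) (s : ℕ) (hcop : Nat.Coprime s (Fintype.card L - 1)) : 0 < s := by
  rcases Nat.eq_zero_or_pos s with h | h
  · rw [h, Nat.coprime_zero_left] at hcop
    have := card_gt_two (L := L) hchar
    omega
  · exact h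

theorem s_odd (hchar : ringChar L ≠ 2) (s : ℕ) (hcop : Nat.Coprime s (Fintype.card L - 1)) : Odd s := by
  rw [← Nat.not_even_iff_odd]
  intro h
  have h1 := Nat.dvd_gcd h.two_dvd (card_sub_one_even (L := L) hchar)
  rw [hcop] at h1
  omega

/-- the second moment of the multiplicities of a nice exponent -/
theorem sum_sq_nice (f : L → L) (v0 : L) (a : ℕ) (hav : ∀ v : L, v ≠ v0 → fc f v = 0 ∨ fc f v = a) :
    (∑ v : L, (fc f v) ^ 2 : ℕ) + a * fc f v0 = (fc f v0) ^ 2 + a * Fintype.card L := by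
  have hs1 := Finset.add_sum_erase Finset.univ (fun v : L => (fc f v) ^ 2) (Finset.mem_univ v0)
  have hs2 := Finset.add_sum_erase Finset.univ (fun v : L => fc f v) (Finset.mem_univ v0)
  have hs3 : ∑ v ∈ Finset.univ.erase v0, (fc f v) ^ 2 = a * ∑ v ∈ Finset.univ.erase v0, fc f v := by
    rw [Finset.mul_sum]
    apply Finset.sum_congr rfl
    intro w hw
    rw [Finset.mem_erase] at hw
    rcases hav w hw.1 with h0 | h0
    · rw [h0]
      simp
    · rw [h0]
      ring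
  rw [sum_fc] at hs2
  rw [← hs1, hs3, ← hs2]
  ring

/-- **three Walsh values `0, A, B` with `A + B` an even integer: not nice** -/
theorem three_even (h2 : (2 : L) ≠ 0) (hq : Odd (Fintype.card L)) (s : ℕ) (hs0 : 0 < s) (hodd : Odd s)
    (hbij : Function.Bijective fun x : L => x ^ s)
    (hbig : fc (Ds s) (Ds s (2⁻¹ : L)) < Fintype.card L)
    (ψ : AddChar L ℂ) (hψ : ψ.IsPrimitive) (A B : ℂ) (m : ℤ) (hAB : A + B = 2 * m)
    (h3 : ∀ a : L, WT ψ s a = 0 ∨ WT ψ s a = A ∨ WT ψ s a = B)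
    (hnice : (Finset.univ.image (fc (Ds (L := L) s))).card ≤ 3) : False := by
  obtain ⟨a, ha0, hae, hav, -⟩ := nice_fc h2 (Ds s) (Ds_sym s) hnice hbig
  have hT := sum_sq_nice (Ds s) (Ds s (2⁻¹ : L)) a hav
  have hb := fc_odd h2 (Ds s) (Ds_sym s)
  have m1 := WT_mom1 ψ hψ s hs0 hodd
  have m2 := WT_mom2 ψ hψ s hs0 hodd
  have m3 := WT_mom3 ψ hψ s hs0 hodd hbij
  have m4 := WT_mom4 ψ hψ s hs0 hodd hbij
  have hW : ∀ α : L, (WT ψ s α) ^ 3 = (A + B) * (WT ψ s α) ^ 2 - A * B * WT ψ s α := by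
    intro α
    rcases h3 α with h | h | h
    · rw [h]
      ring
    · rw [h]
      ring
    · rw [h]
      ring
  have e1 : ∑ α : L, (WT ψ s α) ^ 3 = (A + B) * ∑ α : L, (WT ψ s α) ^ 2 - A * B * ∑ α : L, WT ψ s α := by
    rw [Finset.mul_sum, Finset.mul_sum, ← Finset.sum_sub_distrib]
    exact Finset.sum_congr rfl (fun α _ => hW α)
  have e2 : ∑ α : L, (WT ψ s α) ^ 4 = (A + B) * ∑ α : L, (WT ψ s α) ^ 3 - A * B * ∑ α : L, (WT ψ s α) ^ 2 := by
    rw [Finset.mul_sum, Finset.mul_sum, ← Finset.sum_sub_distrib]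
    apply Finset.sum_congr rfl
    intro α _
    have h4 := hW α
    calc (WT ψ s α) ^ 4 = (WT ψ s α) ^ 3 * WT ψ s α := by ring
      _ = ((A + B) * (WT ψ s α) ^ 2 - A * B * WT ψ s α) * WT ψ s α := by rw [h4]
      _ = (A + B) * (WT ψ s α) ^ 3 - A * B * (WT ψ s α) ^ 2 := by ring
  rw [m3, m2, m1, hAB] at e1
  rw [m4, m3, m2, hAB] at e2
  obtain ⟨q, hqq⟩ : ∃ q, q = Fintype.card L := ⟨_, rfl⟩
  obtain ⟨N, hN⟩ : ∃ N, N = fc (Ds s) (1 : L) := ⟨_, rfl⟩
  obtain ⟨T, hTT⟩ : ∃ T, T = ∑ v : L, (fc (Ds s) v) ^ 2 := ⟨_, rfl⟩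
  obtain ⟨b, hbb⟩ : ∃ b, b = fc (Ds s) (Ds s (2⁻¹ : L)) := ⟨_, rfl⟩
  have hq0 : 0 < q := hqq ▸ Fintype.card_pos
  rw [← hqq, ← hN] at e1
  rw [← hqq, ← hN, ← hTT] at e2
  rw [← hqq] at hq hbig hT
  rw [← hbb] at hbig hT hb
  rw [← hTT] at hT
  have hqc : (q : ℂ) ≠ 0 := by exact_mod_cast hq0.ne'
  have e3 : A * B = q * (2 * m - N) := by
    apply mul_right_cancel₀ hqc
    linear_combination e1
  have e4 : (T : ℂ) = 2 * m * N - q * (2 * m - N) := by
    apply mul_left_cancel₀ (pow_ne_zero 2 hqc)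
    rw [e2, e3]
    ring
  have e5 : (T : ℤ) = 2 * m * N - q * (2 * m - N) := by exact_mod_cast e4
  have e6 : (T : ℤ) + a * b = b ^ 2 + a * q := by exact_mod_cast hT
  obtain ⟨a', ha'⟩ := hae
  obtain ⟨b', hb'⟩ := hb
  obtain ⟨q', hq'⟩ := hq
  by_cases hv : (1 : L) = Ds s 2⁻¹
  · have hNb : N = b := by rw [hN, hbb, ← hv]
    rw [hNb] at e5
    have e7 : ((b : ℤ) - q) * (b - a - 2 * m) = 0 := by
      rw [e5] at e6
      linear_combination -e6
    rcases mul_eq_zero.1 e7 with h | h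
    · omega
    · omega
  · have hNe := fc_even h2 (Ds s) (Ds_sym s) 1 hv
    rw [← hN] at hNe
    obtain ⟨N', hN'⟩ := hNe
    rw [e5, ha', hb', hq', hN'] at e6
    push_cast at e6
    have e8 : (2 : ℤ) * (2 * m * N' - (2 * q' + 1) * (m - N') + a' * (2 * b' + 1) -
        (2 * b' ^ 2 + 2 * b') - a' * (2 * q' + 1)) = 1 := by
      linear_combination e6
    omega

/-- values of the Walsh transform are algebraic integers -/
theorem WT_integral (ψ : AddChar L ℂ) (s : ℕ) (a : L) : IsIntegral ℤ (WT ψ s a) := by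
  unfold WT
  apply IsIntegral.sum
  intro x _
  have h1 : (ψ (x ^ s - a * x)) ^ (ringChar L) = 1 := by
    rw [← AddChar.map_nsmul_eq_pow, nsmul_eq_mul, CharP.cast_eq_zero, zero_mul,
      AddChar.map_zero_eq_one]
  haveI : Fact (ringChar L).Prime := ⟨CharP.char_is_prime L (ringChar L)⟩
  apply IsIntegral.of_pow (Fact.out : (ringChar L).Prime).pos
  rw [h1]
  exact isIntegral_one

end
end Pool.Agent.H470
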