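import Pool.Agent.H470.Qd2
import Pool.Agent.H470.Wal2

/-!
# Nice exponents `(2 p ^ i + 1) p ^ j`
-/

set_option autoImplicit false
set_option linter.all false

namespace Pool.Agent.H470

section
variable {L : Type} [Field L] [Fintype L] [DecidableEq L]

theorem two_ne (hchar : ringChar L ≠ 2) : (2 : L) ≠ 0 := by
  intro h0
  apply hchar
  have h1 : ((2 : ℕ) : L) = 0 := by exact_mod_cast h0
  exact (Nat.prime_dvd_prime_iff_eq (CharP.char_is_prime L (ringChar L)) Nat.prime_two).1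
    ((ringChar.spec L 2).1 h1)

theorem quad_T (hchar : ringChar L ≠ 2) (i : ℕ)
    (hs : ¬ ∃ k : ℕ, 2 * ringChar L ^ i + 1 ≡ ringChar L ^ k [MOD Fintype.card L - 1]) :
    (Finset.univ.filter fun p : L × L => Dq (ringChar L ^ i) p.1 = Dq (ringChar L ^ i) p.2).card + 4 <
      4 * Fintype.card L := by
  have h2 := two_ne (L := L) hchar
  have hpr : (ringChar L).Prime := CharP.char_is_prime L (ringChar L)
  obtain ⟨n, hn, hcard⟩ := FiniteField.card L (ringChar L)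
  have hadd := frob_add (L := L) i
  obtain ⟨p, hp⟩ : ∃ p, p = ringChar L := ⟨_, rfl⟩
  rw [← hp] at hs hpr hchar hcard hadd ⊢
  have hpodd : Odd p := hpr.odd_of_ne_two hchar
  have hp3 : 3 ≤ p := by
    obtain ⟨t, ht⟩ := hpodd
    have := hpr.two_le
    omega
  obtain ⟨g, hg⟩ : ∃ g, g = Nat.gcd i n := ⟨_, rfl⟩
  have hg0 : 0 < g := by rw [hg]; exact Nat.gcd_pos_of_pos_right _ n.pos
  obtain ⟨m, hm⟩ : g ∣ (n : ℕ) := by rw [hg]; exact Nat.gcd_dvd_right _ _
  have hm0 : 0 < m := by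
    rcases Nat.eq_zero_or_pos m with h | h
    · rw [h, mul_zero] at hm
      have := n.pos
      omega
    · exact h
  obtain ⟨Q, hQ⟩ : ∃ Q, Q = p ^ g := ⟨_, rfl⟩
  have hqQ : Fintype.card L = Q ^ m := by rw [hcard, hQ, ← pow_mul, hm]
  have hQodd : Odd Q := by rw [hQ]; exact hpodd.pow
  have hQ3 : 3 ≤ Q := by
    rw [hQ]
    exact hp3.trans (Nat.le_self_pow hg0.ne' p)
  have hP0 : 0 < p ^ i := pow_pos hpr.pos _
  have hgcd : Nat.gcd (p ^ i - 1) (Fintype.card L - 1) = Q - 1 := by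
    rw [hcard, Nat.pow_sub_one_gcd_pow_sub_one, ← hg, hQ]
  have hd1 : Q - 1 ∣ p ^ i - 1 := hgcd ▸ Nat.gcd_dvd_left _ _
  have hd2 : Q - 1 ∣ Fintype.card L - 1 := hgcd ▸ Nat.gcd_dvd_right _ _
  have hκ : (Finset.univ.filter fun x : L => x ≠ 0 ∧ x ^ (p ^ i - 1) = 1).card = Q - 1 := by
    rw [← rc (L := L) (Q - 1) hd2]
    congr 1
    ext x
    rw [Finset.mem_filter, Finset.mem_filter]
    constructor
    · rintro ⟨-, hx, h⟩
      refine ⟨Finset.mem_univ _, ?_⟩
      rw [← hgcd, pow_gcd_eq_one]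
      exact ⟨h, FiniteField.pow_card_sub_one_eq_one _ hx⟩
    · rintro ⟨-, h⟩
      refine ⟨Finset.mem_univ _, ?_, ?_⟩
      · intro hx
        rw [hx, zero_pow (by omega)] at h
        exact zero_ne_one h
      · obtain ⟨c, hc⟩ := hd1
        rw [hc, pow_mul, h, one_pow]
  obtain ⟨γ, hγ⟩ := hd2
  have hcpos : 0 < Fintype.card L := Fintype.card_pos
  have hγ' : ∀ x : L, x ≠ 0 → (x ^ (p ^ i - 1)) ^ γ = 1 := by
    intro x hx
    obtain ⟨c, hc⟩ := hd1
    have h3 : (p ^ i - 1) * γ = (Fintype.card L - 1) * c := by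
      rw [hc, hγ]
      ring
    rw [← pow_mul, h3, pow_mul, FiniteField.pow_card_sub_one_eq_one _ hx, one_pow]
  have hγ0 : 0 < γ := by
    rcases Nat.eq_zero_or_pos γ with h | h
    · rw [h, mul_zero] at hγ
      have := Fintype.one_lt_card (α := L)
      omega
    · exact h
  have hTb := fun (J : ℕ) hJ => T_bound h2 (p ^ i) hP0 hadd (Q - 1) γ J hκ hγ' hJ
  have hQadd : ∀ x y : L, (x + y) ^ Q = x ^ Q + y ^ Q := by
    rw [hQ, hp]
    exact frob_add (L := L) g
  obtain ⟨κ, hκκ⟩ : ∃ κ, Q = κ + 1 := ⟨Q - 1, by omega⟩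
  have hκ2 : 2 ≤ κ := by omega
  rw [hκκ, Nat.add_sub_cancel] at hγ
  rcases Nat.lt_or_ge m 4 with hm4 | hm4
  · interval_cases m
    · -- `m = 1`
      rw [pow_one] at hqQ
      have hγ1 : γ = 1 := by
        rw [hqQ, hκκ, Nat.add_sub_cancel] at hγ
        exact (Nat.eq_of_mul_eq_mul_left (by omega : 0 < κ) (by rw [mul_one]; exact hγ)).symm
      have h3 : (3 : L) ≠ 0 := by
        intro h3
        have hp3' : p = 3 := by
          have h4 : ((3 : ℕ) : L) = 0 := by exact_mod_cast h3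
          rw [hp] at hpr ⊢
          exact (Nat.prime_dvd_prime_iff_eq hpr Nat.prime_three).1 ((ringChar.spec L 3).1 h4)
        apply hs
        refine ⟨1, ?_⟩
        rw [pow_one, hqQ]
        have h5 : p ^ i ≡ 1 [MOD Q - 1] := by
          rw [Nat.ModEq.comm]
          exact (Nat.modEq_iff_dvd' hP0).2 hd1
        have h6 := (h5.mul_left 2).add_right 1
        rw [hp3'] at h6 ⊢
        exact h6
      have := hTb 0 (by rw [hγ1]; exact J_one h3)
      rw [mul_zero, add_zero] at this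
      rw [hqQ] at this ⊢
      omega
    · -- `m = 2`
      have hγ1 : γ = Q + 1 := by
        apply Nat.eq_of_mul_eq_mul_left (by omega : 0 < κ)
        rw [← hγ, hqQ, hκκ]
        have : (κ + 1) ^ 2 = κ * (κ + 1 + 1) + 1 := by ring
        omega
      have h3 := hTb 2 (by rw [hγ1]; exact J_two Q hQodd hQadd)
      rw [hqQ] at h3 ⊢
      rw [hκκ, Nat.add_sub_cancel] at h3
      rw [hκκ]
      have h4 : 4 * (κ + 1) ^ 2 = 2 * (κ + 1) ^ 2 + κ ^ 2 * 2 + 4 * κ + 2 := by ring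
      omega
    · -- `m = 3`
      have hγ1 : γ = Q * Q + Q + 1 := by
        apply Nat.eq_of_mul_eq_mul_left (by omega : 0 < κ)
        rw [← hγ, hqQ, hκκ]
        have : (κ + 1) ^ 3 = κ * ((κ + 1) * (κ + 1) + (κ + 1) + 1) + 1 := by ring
        omega
      have hfix : ∀ z : L, ((z ^ Q) ^ Q) ^ Q = z := by
        intro z
        rw [← pow_mul, ← pow_mul]
        have : Q * (Q * Q) = Fintype.card L := by rw [hqQ]; ring
        rw [this, FiniteField.pow_card]
      have hK := card_fixQ (L := L) Q (by omega) (by rw [hκκ, Nat.add_sub_cancel]; exact ⟨γ, hγ⟩)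
      have h3 := hTb (2 * Q + 4) (by rw [hγ1]; exact J_three Q hQodd hQ3 hQadd hfix hK)
      rw [hqQ] at h3 ⊢
      rw [hκκ, Nat.add_sub_cancel] at h3
      rw [hκκ]
      have h4 : 4 * (κ + 1) ^ 3 + 1 = 2 * (κ + 1) ^ 3 + κ ^ 2 * (2 * (κ + 1) + 4) + 6 * κ + 3 := by ring
      omega
  · -- `m ≥ 4`
    by_contra hcon
    push Not at hcon
    obtain ⟨J, hJ⟩ : ∃ J, J = (Finset.univ.filter fun z : L => z ^ γ = 1 ∧ (1 + z) ^ γ = (-1) ^ γ).card :=
      ⟨_, rfl⟩
    have h3 := hTb J (by rw [hJ])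
    have hΓ : (Finset.univ.filter fun x : L => x ^ γ = 1).card = γ :=
      rc γ ⟨κ, by rw [hγ]; ring⟩
    have hC : (Finset.univ.filter fun x : L => x ^ γ = (-1) ^ γ).card = γ := by
      rw [card_cls γ hγ0 (pow_mem_MM γ (neg_ne_zero.2 one_ne_zero)), hΓ]
    have h4 := cyc_bound γ hγ0 ((-1) ^ γ : L) γ hΓ hC hγ0
    rw [← hJ] at h4
    rw [hκκ, Nat.add_sub_cancel] at h3
    refine num_four (Fintype.card L) κ γ J (by omega) ?_ h4 (by omega)
    have h5 : (κ + 1) ^ 4 ≤ Fintype.card L := by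
      rw [hqQ, hκκ]
      exact Nat.pow_le_pow_right (by omega) hm4
    have h6 : κ ^ 4 + 4 ≤ (κ + 1) ^ 4 := by
      have h7 : (κ + 1) ^ 4 = κ ^ 4 + 4 * κ ^ 3 + 6 * κ ^ 2 + 4 * κ + 1 := by ring
      rw [h7]
      have := Nat.zero_le (4 * κ ^ 3 + 6 * κ ^ 2)
      omega
    exact h6.trans h5

/-- **the main theorem on the exponents `(2 p ^ i + 1) p ^ j`** -/
theorem quad_final (hchar : ringChar L ≠ 2) (s : ℕ) (hs0 : 0 < s)
    (hs : ¬ ∃ k : ℕ, s ≡ ringChar L ^ k [MOD Fintype.card L - 1])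
    (i j : ℕ) (hij : s ≡ (2 * ringChar L ^ i + 1) * ringChar L ^ j [MOD Fintype.card L - 1])
    (hnice : (Finset.univ.image (fc (Ds (L := L) s))).card ≤ 3) : ∃ v : L, fc (Ds s) v = 2 := by
  have h2 := two_ne (L := L) hchar
  have hs' : ¬ ∃ k : ℕ, 2 * ringChar L ^ i + 1 ≡ ringChar L ^ k [MOD Fintype.card L - 1] := by
    rintro ⟨k, hk⟩
    apply hs
    refine ⟨k + j, ?_⟩
    rw [pow_add]
    exact hij.trans (hk.mul_right _)
  have hT := quad_T hchar i hs'
  have key : ∀ v : L, fc (Ds s) (v ^ (ringChar L) ^ j) = fc (Dq (ringChar L ^ i)) v := by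
    intro v
    have h3 := twist (L := L) s (2 * ringChar L ^ i + 1) j hs0 (by omega) hij v
    rw [pairs_eq] at h3
    exact h3
  have himg : Finset.univ.image (fc (Ds (L := L) s)) = Finset.univ.image (fc (Dq (L := L) (ringChar L ^ i))) := by
    ext m
    rw [Finset.mem_image, Finset.mem_image]
    constructor
    · rintro ⟨w, -, hw⟩
      obtain ⟨v, hv⟩ := (frob_bij (L := L) j).2 w
      simp only at hv
      rw [← hv, key v] at hw
      exact ⟨v, Finset.mem_univ _, hw⟩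
    · rintro ⟨v, -, hv⟩
      exact ⟨v ^ (ringChar L) ^ j, Finset.mem_univ _, (key v).trans hv⟩
  rw [himg] at hnice
  have hbig : fc (Dq (ringChar L ^ i)) (Dq (ringChar L ^ i) (2⁻¹ : L)) < Fintype.card L :=
    hbig_gen (L := L) (2 * ringChar L ^ i + 1) (by omega) ⟨_, rfl⟩ hs'
  obtain ⟨v, hv⟩ := two_of_moment h2 (Dq (ringChar L ^ i)) (Dq_sym _) hnice hbig hT
  exact ⟨v ^ (ringChar L) ^ j, (key v).trans hv⟩

end
end Pool.Agent.H470
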