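import Pool.Agent.H470.Reduce3

/-!
# Rational exponents: conclusion for coprime numerator and positive denominator
-/

set_option autoImplicit false
set_option linter.all false

namespace Pool.Agent.H470

section
variable {L : Type} [Field L] [Fintype L] [DecidableEq L]

/-- the number of solutions -/
def NNs (s : ℕ) (v : L) : ℕ :=
  (Finset.univ.filter (fun p : L × L => p.1 + p.2 = 1 ∧ p.1 ^ s + p.2 ^ s = v)).card

theorem card_int : ((Fintype.card L - 1 : ℕ) : ℤ) = (Fintype.card L : ℤ) - 1 := by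
  have hc1 : 1 ≤ Fintype.card L := Fintype.card_pos
  rw [Nat.cast_sub hc1, Nat.cast_one]

/-- powers, for a rational exponent -/
theorem rat_pow (e : ℤ) (d s j : ℕ) (hcopd : 0 < d) (hs : 0 < s)
    (h : (d : ℤ) * (s : ℤ) ≡ e * (ringChar L : ℤ) ^ j [ZMOD ((Fintype.card L : ℤ) - 1)]) (x : L)
    (hx : x ≠ 0) : (x ^ d) ^ s = (x ^ e) ^ (ringChar L) ^ j := by
  rw [← pow_mul]
  have h1 : (((d * s : ℕ) : ℤ)) ≡ e * (ringChar L : ℤ) ^ j [ZMOD ((Fintype.card L : ℤ) - 1)] := by
    push_cast
    exact h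
  exact zpow_congr' e (d * s) j h1 x hx

theorem rat_core (e : ℤ) (d : ℕ) (hd0 : 0 < d) (hed : Int.gcd e d = 1) (hchar : ringChar L ≠ 2)
    (hd : Nat.Coprime d (Fintype.card L - 1))
    (he : (4 * (e * d).natAbs) ^ 24 < Fintype.card L) (hdvd : ¬ (ringChar L : ℤ) ∣ e * d * (e - d))
    (s j : ℕ) (hcop : Nat.Coprime s (Fintype.card L - 1))
    (hj : (d : ℤ) * (s : ℤ) ≡ e * (ringChar L : ℤ) ^ j [ZMOD ((Fintype.card L : ℤ) - 1)])
    (hnice : (Finset.univ.image (fun v : L => NNs s v)).card ≤ 3) : ∃ v : L, NNs s v = 2 := by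
  classical
  have hp0 : ringChar L ≠ 0 := CharP.char_ne_zero_of_finite L (ringChar L)
  have hev := card_sub_one_even (L := L) hchar
  have hc2 := card_gt_two (L := L) hchar
  have hs : 0 < s := by
    rcases Nat.eq_zero_or_pos s with h | h
    · rw [h, Nat.coprime_zero_left] at hcop
      omega
    · exact h
  have hsodd : Odd s := by
    rw [← Nat.not_even_iff_odd, even_iff_two_dvd]
    intro h7
    have h8 := Nat.dvd_gcd h7 hev
    rw [Nat.Coprime] at hcop
    rw [hcop] at h8
    omega
  have hdodd : Odd d := by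
    rw [← Nat.not_even_iff_odd, even_iff_two_dvd]
    intro h7
    have h8 := Nat.dvd_gcd h7 hev
    rw [Nat.Coprime] at hd
    rw [hd] at h8
    omega
  have hodd : Odd e := by
    have hevZ : (2 : ℤ) ∣ (Fintype.card L : ℤ) - 1 := by
      obtain ⟨c, hc⟩ := hev
      exact ⟨c, by omega⟩
    have h5 := hj.of_dvd hevZ
    have h7 : Odd (e * (ringChar L : ℤ) ^ j) := by
      rw [Int.odd_iff, ← h5.eq, ← Int.odd_iff]
      exact ((Int.odd_coe_nat d).2 hdodd).mul ((Int.odd_coe_nat s).2 hsodd)
    exact (Int.odd_mul.1 h7).1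
  have hdF : (d : L) ≠ 0 := by
    intro h
    apply hdvd
    have h2 := Int.natCast_dvd_natCast.2 ((ringChar.spec L d).1 h)
    exact (h2.mul_left _).mul_right _
  -- the numerator is coprime to `|L| - 1`
  have hcope : Nat.Coprime e.natAbs (Fintype.card L - 1) := by
    rw [Nat.Coprime]
    set g := Nat.gcd e.natAbs (Fintype.card L - 1) with hg
    have h3 : (g : ℤ) ∣ e := by
      rw [Int.natCast_dvd]
      exact Nat.gcd_dvd_left _ _
    have h4 : (g : ℤ) ∣ (Fintype.card L : ℤ) - 1 := by
      rw [← card_int]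
      exact Int.natCast_dvd_natCast.2 (Nat.gcd_dvd_right _ _)
    have h5 : (g : ℤ) ∣ ((d * s : ℕ) : ℤ) := by
      have h6 := hj.symm.dvd
      have h7 : ((d * s : ℕ) : ℤ) = ((d : ℤ) * (s : ℤ) - e * (ringChar L : ℤ) ^ j) +
          e * (ringChar L : ℤ) ^ j := by push_cast; ring
      rw [h7]
      exact dvd_add (h4.trans h6) (h3.mul_right _)
    have h6 : g ∣ d * s := Int.natCast_dvd_natCast.1 h5
    have h7 := Nat.dvd_gcd h6 (Nat.gcd_dvd_right e.natAbs (Fintype.card L - 1))
    have h8 : Nat.Coprime (d * s) (Fintype.card L - 1) := Nat.Coprime.mul_left hd hcop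
    rw [Nat.Coprime] at h8
    rw [h8] at h7
    exact Nat.dvd_one.1 h7
  rcases lt_trichotomy e 0 with hneg | hzero | hpos
  · -- negative exponents
    obtain ⟨m, rfl⟩ : ∃ m : ℕ, e = -(m : ℤ) := ⟨e.natAbs, by omega⟩
    have hm0 : 0 < m := by omega
    have hmodd : Odd m := by
      rw [odd_neg, Int.odd_coe_nat] at hodd
      exact hodd
    have hCL : 10000 * (2 * (m * d)) ^ 24 < Fintype.card L := by
      refine lt_of_le_of_lt ?_ he
      have h0 : (-(m : ℤ) * (d : ℤ)).natAbs = m * d := by
        rw [neg_mul, Int.natAbs_neg, ← Nat.cast_mul, Int.natAbs_natCast]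
      rw [h0]
      have h1 : (4 * (m * d)) ^ 24 = 2 ^ 24 * (2 * (m * d)) ^ 24 := by
        rw [← mul_pow]
        congr 1
        ring
      rw [h1]
      exact Nat.mul_le_mul_right _ (by norm_num)
    have hmF : (m : L) ≠ 0 := by
      intro h
      apply hdvd
      have h2 := Int.natCast_dvd_natCast.2 ((ringChar.spec L m).1 h)
      exact (h2.neg_right.mul_right _).mul_right _
    have hmdF : ((m + d : ℕ) : L) ≠ 0 := by
      intro h
      apply hdvd
      have h3 := Int.natCast_dvd_natCast.2 ((ringChar.spec L (m + d)).1 h)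
      have h5 : (-(m : ℤ)) * (d : ℤ) * (-(m : ℤ) - (d : ℤ)) =
          ((m + d : ℕ) : ℤ) * ((m : ℤ) * (d : ℤ)) := by push_cast; ring
      rw [h5]
      exact h3.mul_right _
    have hmc : Nat.Coprime m (Fintype.card L - 1) := by
      rw [Int.natAbs_neg, Int.natAbs_natCast] at hcope
      exact hcope
    have hmd : Nat.Coprime m d := by
      rw [Int.gcd, Int.natAbs_neg, Int.natAbs_natCast, Int.natAbs_natCast] at hed
      exact hed
    have hpw : ∀ X : L, (X ^ d) ^ s = ((X⁻¹) ^ m) ^ (ringChar L) ^ j := by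
      intro x
      by_cases hx : x = 0
      · rw [hx, zero_pow hd0.ne', zero_pow hs.ne', inv_zero, zero_pow hm0.ne',
          zero_pow (pow_ne_zero _ hp0)]
      · rw [rat_pow (-(m : ℤ)) d s j hd0 hs hj x hx, zpow_neg, zpow_natCast, ← inv_pow]
    refine rat_conclude (fnr m d) (fun v => NNs s v) d j hd0 hd ?_ hnice
      (fun h => main_neg_r m d hmodd hdodd hmd L hCL hchar hmF hdF hmdF hmc hd h)
    intro v
    have h1 := count_gen (fun x : L => (x⁻¹) ^ m) (fun x y => by rw [mul_inv, mul_pow]) d s j hdodd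
      hd hpw v
    simp only [NNs]
    rw [h1]
    unfold fc fnr
    simp only [inv_inv]
  · exact absurd (by rw [hzero, zero_mul, zero_mul]; exact dvd_zero _) hdvd
  · -- positive exponents
    obtain ⟨n, rfl⟩ : ∃ n : ℕ, e = (n : ℤ) := ⟨e.natAbs, by omega⟩
    have hn0 : 0 < n := by omega
    have hnodd : Odd n := (Int.odd_coe_nat n).1 hodd
    have hnF : (n : L) ≠ 0 := by
      intro h
      apply hdvd
      have h2 := Int.natCast_dvd_natCast.2 ((ringChar.spec L n).1 h)
      exact (h2.mul_right _).mul_right _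
    have hnc : Nat.Coprime n (Fintype.card L - 1) := by
      rw [Int.natAbs_natCast] at hcope
      exact hcope
    have hnd : Nat.Coprime n d := by
      rw [Int.gcd, Int.natAbs_natCast, Int.natAbs_natCast] at hed
      exact hed
    have h0 : ((n : ℤ) * (d : ℤ)).natAbs = n * d := by
      rw [← Nat.cast_mul, Int.natAbs_natCast]
    rw [h0] at he
    have hpw : ∀ X : L, (X ^ d) ^ s = (X ^ n) ^ (ringChar L) ^ j := by
      intro x
      by_cases hx : x = 0
      · rw [hx, zero_pow hd0.ne', zero_pow hs.ne', zero_pow hn0.ne',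
          zero_pow (pow_ne_zero _ hp0)]
      · rw [rat_pow (n : ℤ) d s j hd0 hs hj x hx, zpow_natCast]
    have hcnt : ∀ v : L, NNs s (v ^ (ringChar L) ^ j) = fc (fpr n d) (v ^ d) := by
      intro v
      have h1 := count_gen (fun x : L => x ^ n) (fun x y => by rw [mul_pow]) d s j hdodd
        hd hpw v
      simp only [NNs]
      rw [h1]
      rfl
    rcases lt_trichotomy n d with hlt | heq | hgt
    · -- numerator smaller than denominator
      have hCL : 10000 * ((d - 1) * n) ^ 24 < Fintype.card L := by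
        refine lt_of_le_of_lt ?_ he
        rw [mul_pow 4]
        refine Nat.mul_le_mul (by norm_num) (Nat.pow_le_pow_left ?_ 24)
        rw [mul_comm n d]
        exact Nat.mul_le_mul_right _ (by omega)
      have hgF : ((d - n : ℕ) : L) ≠ 0 := by
        intro h
        apply hdvd
        have h3 := Int.natCast_dvd_natCast.2 ((ringChar.spec L (d - n)).1 h)
        rw [Nat.cast_sub hlt.le] at h3
        have h5 : (n : ℤ) * (d : ℤ) * ((n : ℤ) - (d : ℤ)) =
            ((d : ℤ) - (n : ℤ)) * (-((n : ℤ) * (d : ℤ))) := by ring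
        rw [h5]
        exact h3.mul_right _
      refine rat_conclude (fpr n d) (fun v => NNs s v) d j hd0 hd hcnt hnice ?_
      intro h
      have hfe : (fpr n d : L → L) = fun x => (fpr d n x)⁻¹ := by
        funext x
        exact fpr_inv d n x
      rw [hfe, image_fc_inv] at h
      obtain ⟨v, hv⟩ := main_pos_r d n hdodd hnodd hnd.symm hlt L hCL hchar hdF hnF hgF hd hnc h
      exact ⟨v⁻¹, by rw [hfe, fc_inv, inv_inv]; exact hv⟩
    · exfalso
      apply hdvd
      rw [heq, sub_self, mul_zero]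
      exact dvd_zero _
    · have hCL : 10000 * ((n - 1) * d) ^ 24 < Fintype.card L := by
        refine lt_of_le_of_lt ?_ he
        rw [mul_pow 4]
        refine Nat.mul_le_mul (by norm_num) (Nat.pow_le_pow_left ?_ 24)
        exact Nat.mul_le_mul_right _ (by omega)
      have hgF : ((n - d : ℕ) : L) ≠ 0 := by
        intro h
        apply hdvd
        have h3 := Int.natCast_dvd_natCast.2 ((ringChar.spec L (n - d)).1 h)
        rw [Nat.cast_sub hgt.le] at h3
        exact h3.mul_left _
      refine rat_conclude (fpr n d) (fun v => NNs s v) d j hd0 hd hcnt hnice ?_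
      exact fun h => main_pos_r n d hnodd hdodd hnd hgt L hCL hchar hnF hdF hgF hnc hd h

/-- general integers numerator and denominator -/
theorem rat_final (hchar : ringChar L ≠ 2) (e d : ℤ)
    (hd : IsCoprime d ((Fintype.card L : ℤ) - 1))
    (he : (4 * (e * d).natAbs) ^ 24 < Fintype.card L) (hdvd : ¬ (ringChar L : ℤ) ∣ e * d * (e - d))
    (s j : ℕ) (hcop : Nat.Coprime s (Fintype.card L - 1))
    (hj : d * (s : ℤ) ≡ e * (ringChar L : ℤ) ^ j [ZMOD ((Fintype.card L : ℤ) - 1)])
    (hnice : (Finset.univ.image (fun v : L => NNs s v)).card ≤ 3) : ∃ v : L, NNs s v = 2 := by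
  have hc2 := card_gt_two (L := L) hchar
  have key : ∀ e d : ℤ, 0 < d → IsCoprime d ((Fintype.card L : ℤ) - 1) →
      (4 * (e * d).natAbs) ^ 24 < Fintype.card L → ¬ (ringChar L : ℤ) ∣ e * d * (e - d) →
      d * (s : ℤ) ≡ e * (ringChar L : ℤ) ^ j [ZMOD ((Fintype.card L : ℤ) - 1)] →
      ∃ v : L, NNs s v = 2 := by
    intro e d hdpos hd he hdvd hj
    have hgpos : 0 < Int.gcd e d := Int.gcd_pos_of_ne_zero_right _ hdpos.ne'
    set g : ℕ := Int.gcd e d with hg
    obtain ⟨e', he'⟩ : (g : ℤ) ∣ e := Int.gcd_dvd_left _ _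
    obtain ⟨d', hd'⟩ : (g : ℤ) ∣ d := Int.gcd_dvd_right _ _
    have hgZ : (0 : ℤ) < g := by exact_mod_cast hgpos
    have hd'pos : 0 < d' := by
      by_contra h
      push Not at h
      have : d ≤ 0 := by
        rw [hd']
        exact mul_nonpos_of_nonneg_of_nonpos hgZ.le h
      omega
    have hgcop : IsCoprime (g : ℤ) ((Fintype.card L : ℤ) - 1) := by
      rw [hd'] at hd
      exact hd.of_mul_left_left
    have hd'cop : IsCoprime d' ((Fintype.card L : ℤ) - 1) := by
      rw [hd'] at hd
      exact hd.of_mul_left_right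
    obtain ⟨dn, rfl⟩ : ∃ n : ℕ, d' = (n : ℤ) := ⟨d'.natAbs, by omega⟩
    have hcopn : Nat.Coprime dn (Fintype.card L - 1) := by
      rw [← Nat.isCoprime_iff_coprime, card_int]
      exact hd'cop
    refine rat_core e' dn (by omega) ?_ hchar hcopn ?_ ?_ s j hcop ?_ hnice
    · have h1 : Int.gcd e d = g * Int.gcd e' dn := by
        rw [he', hd', Int.gcd_mul_left, Int.natAbs_natCast]
      rw [← hg] at h1
      have h2 : g * 1 = g * Int.gcd e' dn := by rw [mul_one]; exact h1
      exact (Nat.eq_of_mul_eq_mul_left hgpos h2).symm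
    · refine lt_of_le_of_lt (Nat.pow_le_pow_left (Nat.mul_le_mul_left 4 ?_) 24) he
      rw [he', hd']
      have h1 : (g : ℤ) * e' * ((g : ℤ) * (dn : ℤ)) = ((g : ℤ) * (g : ℤ)) * (e' * dn) := by ring
      have h2 : ((g : ℤ) * (g : ℤ)).natAbs = g * g := by
        rw [Int.natAbs_mul, Int.natAbs_natCast]
      rw [h1, Int.natAbs_mul ((g : ℤ) * (g : ℤ)), h2]
      exact Nat.le_mul_of_pos_left _ (Nat.mul_pos hgpos hgpos)
    · intro h
      apply hdvd
      rw [he', hd']
      have h1 : (g : ℤ) * e' * ((g : ℤ) * (dn : ℤ)) * ((g : ℤ) * e' - (g : ℤ) * (dn : ℤ)) =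
          (e' * dn * (e' - dn)) * ((g : ℤ) ^ 3) := by ring
      rw [h1]
      exact h.mul_right _
    · have h1 := hj.dvd
      have h2 : e * (ringChar L : ℤ) ^ j - d * (s : ℤ) =
          (g : ℤ) * (e' * (ringChar L : ℤ) ^ j - (dn : ℤ) * (s : ℤ)) := by
        rw [he', hd']
        ring
      rw [h2] at h1
      exact Int.modEq_iff_dvd.2 (hgcop.symm.dvd_of_dvd_mul_left h1)
  rcases lt_trichotomy d 0 with hneg | hzero | hpos
  · refine key (-e) (-d) (by omega) hd.neg_left ?_ ?_ ?_
    · rw [neg_mul_neg]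
      exact he
    · intro h
      apply hdvd
      have h1 : e * d * (e - d) = -(-e * -d * (-e - -d)) := by ring
      rw [h1]
      exact h.neg_right
    · have := hj.neg
      rw [← neg_mul, ← neg_mul] at this
      exact this
  · exfalso
    apply hdvd
    rw [hzero, mul_zero, zero_mul]
    exact dvd_zero _
  · exact key e d hpos hd he hdvd hj

end

end Pool.Agent.H470
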