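import Pool.Agent.H470.W21

/-!
# The wild positive case: conclusion
-/

set_option autoImplicit false
set_option linter.all false

open Polynomial

namespace Pool.Agent.H470

namespace Wctx
variable {F : Type} [Field F] [Fintype F] [DecidableEq F] {p l m e d a : ℕ} [Fact p.Prime] [CharP F p] {v0 : F}

/-- the active clusters -/
theorem act (h : Wctx F p l m e d a v0) {k : Type} [Field k] [IsAlgClosed k] [Algebra F k]
    [Algebra.IsAlgebraic F k]
    {N : Type} [Field N] [Algebra (RatFunc k) N] [Algebra k[X] N] [IsScalarTower k[X] (RatFunc k) N]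
    [IsGalois (RatFunc k) N] [FiniteDimensional (RatFunc k) N]
    (P : Pl F k N (pA F e d) (pB F e d) v0 ((e - 1) * d)) (ψ : N →+* N) (hψ : P.Fb ψ) :
    ∃ S : Finset F, (∀ x ∈ S, 1 - x ∈ S) ∧
      (∀ x, x ∈ S ↔ (fpr e d x = v0 ∧ x ^ p ^ l = x) ∧ ∃ j, P.r j = algebraMap F k x ∧ ψ (P.y j) = P.y j) ∧
      (∑ x ∈ Finset.univ.filter (fun x : F => fpr e d x = v0 ∧ x ^ p ^ l = x), P.fc' ψ x) =
        S.card * (Finset.univ.filter fun z : F => z ^ (p ^ l + 1) = 1).card := by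
  classical
  set S := (Finset.univ.filter (fun x : F => fpr e d x = v0 ∧ x ^ p ^ l = x)).filter
    (fun x => ∃ j, P.r j = algebraMap F k x ∧ ψ (P.y j) = P.y j) with hS
  have hmem : ∀ x, x ∈ S ↔ (fpr e d x = v0 ∧ x ^ p ^ l = x) ∧ ∃ j, P.r j = algebraMap F k x ∧ ψ (P.y j) = P.y j := by
    intro x
    rw [hS, Finset.mem_filter, Finset.mem_filter]
    simp only [Finset.mem_univ, true_and]
  refine ⟨S, ?_, hmem, ?_⟩
  · intro x hx
    rw [hmem] at hx ⊢
    obtain ⟨⟨h1, h2⟩, j, hj⟩ := hx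
    refine ⟨⟨?_, ?_⟩, P.refl_fix h.gx ψ x j hj⟩
    · rw [fpr_sym, h1]
    · rw [sub_pow_char_pow, one_pow, h2]
  · rw [← Finset.sum_filter_add_sum_filter_not (Finset.univ.filter (fun x : F => fpr e d x = v0 ∧ x ^ p ^ l = x))
      (fun x => ∃ j, P.r j = algebraMap F k x ∧ ψ (P.y j) = P.y j), ← hS]
    have h1 : ∀ x ∈ S, P.fc' ψ x = (Finset.univ.filter fun z : F => z ^ (p ^ l + 1) = 1).card := by
      intro x hx
      rw [hmem] at hx
      obtain ⟨⟨h1, h2⟩, j, hj1, hj2⟩ := hx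
      obtain ⟨Q, hQ, hQc⟩ := h.tame_fac x h1 h2
      exact P.tame_eq h.gx x (p ^ l + 1) (by omega) h.castP Q hQ hQc ψ hψ j hj1 hj2
    rw [Finset.sum_congr rfl h1, Finset.sum_const, smul_eq_mul]
    rw [Finset.sum_eq_zero, add_zero]
    intro x hx
    rw [Finset.mem_filter] at hx
    unfold Pl.fc'
    rw [Set.ncard_eq_zero (Set.toFinite _), Set.eq_empty_iff_forall_notMem]
    intro j hj
    exact hx.2 ⟨j, hj⟩

theorem parity (h : Wctx F p l m e d a v0) (S : Finset F) (hS : ∀ x ∈ S, 1 - x ∈ S) :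
    Even S.card ↔ (2⁻¹ : F) ∉ S := by
  have h2 := h.two
  by_cases hm : (2⁻¹ : F) ∈ S
  · have h1 : Even (S.erase 2⁻¹).card := by
      apply even_card_of_sym
      · intro y hy
        rw [Finset.mem_erase] at hy ⊢
        refine ⟨?_, hS y hy.2⟩
        intro h3
        apply hy.1
        have : y = 1 - 2⁻¹ := by linear_combination -h3
        rw [this]
        exact (half_iff h2 _).2 rfl
      · intro y hy h3
        rw [Finset.mem_erase] at hy
        exact hy.1 ((half_iff h2 y).1 h3)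
    rw [Finset.card_erase_of_mem hm] at h1
    have h3 := Finset.card_pos.2 ⟨_, hm⟩
    constructor
    · intro h4
      exfalso
      obtain ⟨u, hu⟩ := h1
      obtain ⟨w, hw⟩ := h4
      omega
    · intro h4
      exact absurd hm h4
  · have h1 : Even S.card := by
      apply even_card_of_sym S hS
      intro y hy h3
      rw [(half_iff h2 y).1 h3] at hy
      exact hm hy
    exact ⟨fun _ => hm, fun _ => h1⟩

/-- **no wild rational point above the centre** -/
theorem no_wild (h : Wctx F p l m e d a v0) (x0 : F) (hx0 : x0 ≠ 0) (hx0P : x0 ^ p ^ l = -x0) (c : F)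
    (hc : fpr e d c = v0) : c ^ p ^ l = c := by
  classical
  by_contra hcP
  set k := AlgebraicClosure F
  haveI : CharP k p := cp_k F k p
  obtain ⟨hP3, hH1, hH⟩ := pl_facts p l h.hp h.hl
  obtain ⟨G, hQ, hQc, hW⟩ := h.wild_fac c hc hcP
  obtain ⟨Q1, hQ1, hQ1c⟩ := h.tame_fac 2⁻¹ h.hv0.symm h.half_P
  obtain ⟨N, _, _, _, _, _, _, ⟨P⟩⟩ := exists_Pl (k := k) (pA F e d) (pB F e d) v0 _ h.gx
  haveI : CharP N p := cp_N k N p
  obtain ⟨i1, hi1⟩ := P.cl_nonempty h.gx 2⁻¹ ((h.root_fpr _).2 h.hv0.symm)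
  rw [P.mem_cl] at hi1
  have hcard := P.card_cl' h.gx c (p ^ l) G hQ hQc
  have hcard2 : 1 < (P.cl (algebraMap F k c)).card := by rw [hcard]; omega
  obtain ⟨i0, hi0, j0, hj0, hij⟩ := Finset.one_lt_card.1 hcard2
  rw [P.mem_cl] at hi0 hj0
  obtain ⟨ζ0, hζ1, hζ2, hζ3⟩ := exists_zeta p l h.hp x0 hx0 hx0P
  obtain ⟨χ, hχ, hsign⟩ := P.sign_rel p l h.hp h.hl h.gx 2⁻¹ Q1 hQ1 hQ1c c G hQ hQc hW i1 hi1 i0 j0 hi0 hj0 hij
  obtain ⟨ω, hω1, hω2, hω3⟩ := exists_omega F k p l h.hp h.hl χ hχ ζ0 hζ1 hζ2 hζ3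
  -- the active lift
  obtain ⟨ψ1, hψ1, hfix1⟩ := P.exists_fixing h.gx 2⁻¹ i1 hi1
  have hall1 : ∀ ρ ∈ P.D1 i1, P.fx ((ρ : N →+* N).comp ψ1) = a := by
    intro ρ hρ
    obtain ⟨h1, h2⟩ := (P.mem_D1 i1 ρ).1 hρ
    apply h.dich_x P _ (P.fb_left ρ h1 ψ1 hψ1) i1
    show ρ (ψ1 (P.y i1)) = P.y i1
    rw [hfix1, h2]
  -- the inactive lift
  obtain ⟨ψ2, hψ2, hω⟩ := P.choose_lift h.gx 2⁻¹ (p ^ l + 1) (by omega) h.castP Q1 hQ1 hQ1c i1 hi1 ω hω1
  have hω0 : ω ≠ 0 := by
    rintro rfl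
    rw [zero_pow (by omega)] at hω1
    exact zero_ne_one hω1
  have hall2 : ∀ ρ ∈ P.D1 i1, P.fx ((ρ : N →+* N).comp ψ2) = a := by
    intro ρ hρ
    obtain ⟨h1, h2⟩ := (P.mem_D1 i1 ρ).1 hρ
    have hfb := P.fb_left ρ h1 ψ2 hψ2
    obtain ⟨ε, hε⟩ := P.exists_eps p l h.hp h.hl h.gx c G hQ hQc hW i0 j0 hi0 hj0 hij _ hfb
    have hω' : Rs P.ev (((ρ : N →+* N).comp ψ2) (P.hh 2⁻¹ i1) / P.hh 2⁻¹ i1) ω := by
      obtain ⟨σ, hσ⟩ := P.exists_σ h.gx ψ2 hψ2.1
      have hσi : P.r (σ i1) = algebraMap F k 2⁻¹ := by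
        rw [P.res_fr ψ2 hψ2 i1 (σ i1) (hσ i1), hi1, P.fr_alg]
      have h3 := P.tame_rigid h.gx 2⁻¹ 2⁻¹ (p ^ l + 1) (by omega) h.castP Q1 Q1 hQ1 hQ1c hQ1 hQ1c i1 (σ i1)
        hi1 hσi ρ hρ
      have h4 : ((ρ : N →+* N).comp ψ2) (P.y i1) = P.y (σ i1) := by
        show ρ (ψ2 (P.y i1)) = P.y (σ i1)
        rw [hσ, h3]
      rw [P.ψ_hh _ hfb 2⁻¹ i1 (σ i1) h4]
      rw [P.ψ_hh ψ2 hψ2 2⁻¹ i1 (σ i1) (hσ i1)] at hω
      exact hω
    have hs := hsign _ hfb ε ω hε hω' hω0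
    rw [hω2] at hs
    have hs1 : ε ^ ((p ^ l - 1) / 2) = -1 := by
      rw [hs]
      rcases hχ with h5 | h5 <;> rw [h5] <;> ring
    obtain ⟨j, -, hj⟩ := P.wild_fix p l h.hp h.hl h.gx c G hQ hQc hW i0 j0 hi0 hj0 hij _ hfb ε hε hs1
    exact h.dich_x P _ hfb j hj
  have e1 := h.avg_D1 P i1 hi1 ψ1 hψ1 hall1
  have e2 := h.avg_D1 P i1 hi1 ψ2 hψ2 hall2
  obtain ⟨S1, hS1, hS1m, hS1c⟩ := h.act P ψ1 hψ1
  obtain ⟨S2, hS2, hS2m, hS2c⟩ := h.act P ψ2 hψ2
  rw [hS1c] at e1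
  rw [hS2c] at e2
  have hκ : 0 < (Finset.univ.filter fun z : F => z ^ (p ^ l + 1) = 1).card :=
    Finset.card_pos.2 ⟨1, by rw [Finset.mem_filter]; exact ⟨Finset.mem_univ _, one_pow _⟩⟩
  have hSS : S1.card = S2.card := by
    apply Nat.eq_of_mul_eq_mul_right hκ
    omega
  have hm1 : (2⁻¹ : F) ∈ S1 := (hS1m _).2 ⟨⟨h.hv0.symm, h.half_P⟩, i1, hi1, hfix1⟩
  have hm2 : (2⁻¹ : F) ∉ S2 := by
    intro h3
    obtain ⟨-, j, hj1, hj2⟩ := (hS2m _).1 h3
    obtain ⟨ζ, h4, h5⟩ := P.active_rel h.gx 2⁻¹ (p ^ l + 1) (by omega) h.castP Q1 hQ1 hQ1c i1 j hi1 hj1 ψ2 hψ2 ω hω hj2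
    exact hω3 ζ h4 h5
  have h6 := (h.parity S2 hS2).2 hm2
  rw [← hSS] at h6
  exact (h.parity S1 hS1).1 h6 hm1

theorem caseB (h : Wctx F p l m e d a v0) (x0 : F) (hx0 : x0 ≠ 0) (hx0P : x0 ^ p ^ l = -x0) : False := by
  classical
  set k := AlgebraicClosure F
  haveI : CharP k p := cp_k F k p
  obtain ⟨hP3, hH1, hH⟩ := pl_facts p l h.hp h.hl
  have hmk : (m : k) ≠ 0 := by
    have := (map_ne_zero_iff (algebraMap F k) (algebraMap F k).injective).2 h.hmF
    rwa [map_natCast] at this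
  have hdk : (d : k) ≠ 0 := by
    have := (map_ne_zero_iff (algebraMap F k) (algebraMap F k).injective).2 h.hdF
    rwa [map_natCast] at this
  have hnpos := h.pos
  -- `Q ∣ a`
  have ha : Pl.QQ F (p ^ l) ∣ a := by
    obtain ⟨N, _, _, _, _, _, _, ⟨P⟩⟩ := exists_Pl (k := k) (iA F e d) (iB F e d) 0 _ h.gz
    haveI : CharP N p := cp_N k N p
    have hr : (iA F e d - C 0 * iB F e d).eval (-1) = 0 := by
      rw [C_0, zero_mul, sub_zero]
      have := h.lt
      unfold iA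
      rw [eval_mul, eval_pow, eval_pow, eval_add, eval_one, eval_X, add_neg_cancel, zero_pow (by omega), mul_zero]
    obtain ⟨i, hi⟩ := P.cl_nonempty h.gz (-1) hr
    rw [P.mem_cl] at hi
    obtain ⟨ψ, hψ, hfix⟩ := P.exists_fixing h.gz (-1) i hi
    have h1 := P.fx_pos ψ i hfix
    have h2 := (P.inf_fix p l m h.hp h.hl h.he h.hd h.hem h.hm h.hm0 hmk hdk h.hcd h.gz ψ hψ).1
    rcases P.fix_dich h.gz h.pos h.hq {0, (v0 - 1)⁻¹} (Finset.card_le_two.trans (by omega)) a h.bad_z ψ hψ with h3 | h3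
    · omega
    · rwa [h3] at h2
  -- `Q ∣ q`
  have hq : Pl.QQ F (p ^ l) ∣ Fintype.card F := by
    let K : AddSubgroup F :=
      { carrier := {x | x ^ p ^ l = -x}
        zero_mem' := by
          show (0 : F) ^ p ^ l = -0
          rw [zero_pow (by omega), neg_zero]
        add_mem' := by
          intro x y hx hy
          show (x + y) ^ p ^ l = -(x + y)
          have hx' : x ^ p ^ l = -x := hx
          have hy' : y ^ p ^ l = -y := hy
          rw [add_pow_char_pow, hx', hy']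
          ring
        neg_mem' := by
          intro x hx
          show (-x) ^ p ^ l = -(-x)
          have hx' : x ^ p ^ l = -x := hx
          have hodd : Odd (p ^ l) := ((Fact.out : p.Prime).odd_of_ne_two h.hp).pow
          rw [hodd.neg_pow, hx'] }
    have h1 : Nat.card K ∣ Nat.card F := AddSubgroup.card_addSubgroup_dvd_card K
    have h2 : Nat.card K = Pl.QQ F (p ^ l) := by
      unfold Pl.QQ
      rw [← Set.ncard_coe_finset, ← Nat.card_coe_set_eq]
      congr 1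
      have : ((K : Set F)) = ((Finset.univ.filter fun x : F => x ^ p ^ l = -x : Finset F) : Set F) := by
        ext x
        rw [Finset.mem_coe, Finset.mem_filter]
        simp only [Finset.mem_univ, true_and]
        rfl
      rw [← this]
      rfl
    rw [h2, Nat.card_eq_fintype_card] at h1
    exact h1
  -- `b ≤ Q - 2`
  have hb : fc (fpr e d) v0 + 2 ≤ Pl.QQ F (p ^ l) := by
    have h1 : Pl.QQ F (p ^ l) = (Finset.univ.filter fun x : F => x ^ p ^ l = x).card := by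
      unfold Pl.QQ
      refine Finset.card_bij' (fun x _ => x / x0) (fun x _ => x * x0) ?_ ?_ ?_ ?_
      · intro x hx
        rw [Finset.mem_filter] at hx ⊢
        refine ⟨Finset.mem_univ _, ?_⟩
        rw [div_pow, hx.2, hx0P, neg_div_neg_eq]
      · intro x hx
        rw [Finset.mem_filter] at hx ⊢
        refine ⟨Finset.mem_univ _, ?_⟩
        rw [mul_pow, hx.2, hx0P]
        ring
      · intro x _
        exact div_mul_cancel₀ _ hx0
      · intro x _
        exact mul_div_cancel_right₀ _ hx0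
    have h2 : fc (fpr e d) v0 ≤ (((Finset.univ.filter fun x : F => x ^ p ^ l = x).erase 0).erase 1).card := by
      unfold fc
      apply Finset.card_le_card
      intro y hy
      rw [Finset.mem_filter] at hy
      obtain ⟨h3, h4, -⟩ := h.pts y hy.2
      rw [Finset.mem_erase, Finset.mem_erase, Finset.mem_filter]
      refine ⟨?_, h3, Finset.mem_univ _, h.no_wild x0 hx0 hx0P y hy.2⟩
      rintro rfl
      exact h4 (sub_self 1)
    have h3 : (0 : F) ∈ Finset.univ.filter fun x : F => x ^ p ^ l = x := by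
      rw [Finset.mem_filter]
      exact ⟨Finset.mem_univ _, zero_pow (by omega)⟩
    have h4 : (1 : F) ∈ (Finset.univ.filter fun x : F => x ^ p ^ l = x).erase 0 := by
      rw [Finset.mem_erase, Finset.mem_filter]
      exact ⟨one_ne_zero, Finset.mem_univ _, one_pow _⟩
    rw [Finset.card_erase_of_mem h4, Finset.card_erase_of_mem h3] at h2
    have h5 : 2 ≤ (Finset.univ.filter fun x : F => x ^ p ^ l = x).card := by
      have h6 := Finset.card_pos.2 ⟨_, h4⟩
      rw [Finset.card_erase_of_mem h3] at h6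
      omega
    omega
  obtain ⟨M, hM⟩ := h.card_eq
  rw [hM] at hq
  have h1 : Pl.QQ F (p ^ l) ∣ fc (fpr e d) v0 := (Nat.dvd_add_left (ha.mul_right M)).1 hq
  have h2 := Nat.le_of_dvd h.hb.pos h1
  omega

/-- **the wild positive case** -/
theorem wild (h : Wctx F p l m e d a v0) : a = 2 := by
  apply h.caseA
  intro x hx
  by_contra hx0
  exact h.caseB x hx0 hx

end Wctx

theorem main_pos_wild (p l m e d : ℕ) [Fact p.Prime] (hp : p ≠ 2) (he : Odd e) (hd : Odd d)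
    (hcop : Nat.Coprime e d) (hl : 0 < l) (hem : e = d + p ^ l * m) (hm : Even m) (hm0 : 0 < m)
    (F : Type) [Field F] [Fintype F] [DecidableEq F] [CharP F p]
    (hC : 10000 * ((e - 1) * d) ^ 24 < Fintype.card F)
    (heF : (e : F) ≠ 0) (hdF : (d : F) ≠ 0) (hmF : (m : F) ≠ 0)
    (hce : Nat.Coprime e (Fintype.card F - 1)) (hcd : Nat.Coprime d (Fintype.card F - 1))
    (hnice : (Finset.univ.image (fc (fpr e d : F → F))).card ≤ 3) : ∃ v : F, fc (fpr e d) v = 2 := by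
  classical
  have h2 : (2 : F) ≠ 0 := two_ne p hp
  have hd0 := hd.pos
  have hPm : 0 < p ^ l * m := Nat.mul_pos (pow_pos (Fact.out : p.Prime).pos _) hm0
  have hlt : d < e := by omega
  have hn2 : 0 < (e - 1) * d := Nat.mul_pos (by omega) hd0
  set v0 : F := fpr e d 2⁻¹ with hv0
  have hne0 : ∀ x : F, fpr e d x ≠ 0 := by
    intro x
    unfold fpr
    exact mul_ne_zero (pow_ne_zero _ (dP_eval_ne e he hce x))
      (pow_ne_zero _ (inv_ne_zero (dP_eval_ne d hd hcd x)))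
  have hlt2 : fc (fpr e d) v0 < Fintype.card F := by
    have h3 : fc (fpr e d) v0 ≤ (e - 1) * d := by
      rw [← nrt_pP e d hd hcd heF v0]
      obtain ⟨hm, hn⟩ := pA_props (F := F) e d he (by omega) heF
      have hlt' := pB_lt (F := F) e d he hd hlt heF
      have hPd : (C v0 * pB F e d).degree < (pA F e d).degree := lt_of_le_of_lt (degree_C_mul_le' _ _) hlt'
      have hPm : (pA F e d - C v0 * pB F e d).Monic := hm.sub_of_left hPd
      have hPn : (pA F e d - C v0 * pB F e d).natDegree = (e - 1) * d := by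
        rw [natDegree_eq_of_degree_eq (degree_sub_eq_left_of_degree_lt hPd), hn]
      rw [← hPn]
      unfold nrt
      apply card_le_degree_of_subset_roots
      intro x hx
      rw [Finset.mem_val, Finset.mem_filter] at hx
      rw [mem_roots hPm.ne_zero]
      exact hx.2
    have h4 : (e - 1) * d ≤ ((e - 1) * d) ^ 24 := Nat.le_self_pow (by norm_num) _
    omega
  obtain ⟨a, ha0, haev, hval, va, hva⟩ := nice_fc h2 (fpr e d) (fpr_sym e d) hnice hlt2
  rw [← hv0] at hval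
  have hodd := fc_odd h2 (fpr e d) (fpr_sym (F := F) e d)
  rw [← hv0] at hodd
  have hctx : Wctx F p l m e d a v0 :=
    ⟨hp, he, hd, hcop, hl, hem, hm, hm0, heF, hdF, hmF, hce, hcd, hC, hv0, hval, hodd, ha0, haev⟩
  exact ⟨va, hva.trans hctx.wild⟩

end Pool.Agent.H470
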