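import Pool.Agent.H470.RatFinal
import Pool.Agent.H470.W22

/-!
# Rational exponents: the complete statement
-/

set_option autoImplicit false
set_option linter.all false

namespace Pool.Agent.H470

section
variable {L : Type} [Field L] [Fintype L] [DecidableEq L]

/-- the positive case, tame or wild -/
theorem main_pos_all (e d : ℕ) (he : Odd e) (hd : Odd d) (hcop : Nat.Coprime e d) (hlt : d < e)
    (hC : 10000 * ((e - 1) * d) ^ 24 < Fintype.card L)
    (hchar : ringChar L ≠ 2) (heF : (e : L) ≠ 0) (hdF : (d : L) ≠ 0)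
    (hce : Nat.Coprime e (Fintype.card L - 1)) (hcd : Nat.Coprime d (Fintype.card L - 1))
    (hnice : (Finset.univ.image (fc (fpr e d : L → L))).card ≤ 3) : ∃ v : L, fc (fpr e d) v = 2 := by
  by_cases hgF : ((e - d : ℕ) : L) ≠ 0
  · exact main_pos_r e d he hd hcop hlt L hC hchar heF hdF hgF hce hcd hnice
  · push Not at hgF
    obtain ⟨p, hp⟩ : ∃ p, p = ringChar L := ⟨_, rfl⟩
    haveI hpc : CharP L p := by rw [hp]; exact ringChar.charP L
    haveI hpf : Fact p.Prime := ⟨CharP.char_is_prime L p⟩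
    rw [← hp] at hchar
    obtain ⟨l, m, hpm, hlm⟩ := Nat.exists_eq_pow_mul_and_not_dvd (show e - d ≠ 0 by omega) p
      hpf.out.one_lt.ne'
    have hdvd : p ∣ e - d := (CharP.cast_eq_zero_iff L p _).1 hgF
    have hl : 0 < l := by
      rcases Nat.eq_zero_or_pos l with h | h
      · rw [h, pow_zero, one_mul] at hlm
        rw [hlm] at hdvd
        exact absurd hdvd hpm
      · exact h
    have hmev : Even m := by
      have h1 : Even (e - d) := Nat.Odd.sub_odd he hd
      rw [hlm, Nat.even_mul] at h1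
      rcases h1 with h1 | h1
      · exfalso
        have h2 : Odd (p ^ l) := (hpf.out.odd_of_ne_two hchar).pow
        exact (Nat.not_even_iff_odd.2 h2) h1
      · exact h1
    have hm0 : 0 < m := by
      rcases Nat.eq_zero_or_pos m with h | h
      · rw [h] at hpm
        exact absurd (dvd_zero p) hpm
      · exact h
    have hmF : (m : L) ≠ 0 := by
      rw [Ne, CharP.cast_eq_zero_iff L p]
      exact hpm
    exact main_pos_wild p l m e d hchar he hd hcop hl (by omega) hmev hm0 L hC heF hdF hmF hce hcd hnice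

theorem rat_core2 (e : ℤ) (d : ℕ) (hd0 : 0 < d) (hed : Int.gcd e d = 1) (hchar : ringChar L ≠ 2)
    (hd : Nat.Coprime d (Fintype.card L - 1))
    (he : (4 * (e * d).natAbs) ^ 24 < Fintype.card L) (hdvd : ¬ (ringChar L : ℤ) ∣ e * d) (hne : e ≠ d)
    (s j : ℕ) (hcop : Nat.Coprime s (Fintype.card L - 1))
    (hj : (d : ℤ) * (s : ℤ) ≡ e * (ringChar L : ℤ) ^ j [ZMOD ((Fintype.card L : ℤ) - 1)])
    (hnice : (Finset.univ.image (fun v : L => NNs s v)).card ≤ 3) : ∃ v : L, NNs s v = 2 := by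
  classical
  have hp0 : ringChar L ≠ 0 := CharP.char_ne_zero_of_finite L (ringChar L)
  have hev := card_sub_one_even (L := L) hchar
  have hc2 := card_gt_two (L := L) hchar
  have hs : 0 < s := by
    rcases Nat.eq_zero_or_pos s with h | h
    · rw [h, Nat.coprime_zero_left] at hcop
      omega
    · exact h
  have hsodd : Odd s := by
    rw [← Nat.not_even_iff_odd, even_iff_two_dvd]
    intro h7
    have h8 := Nat.dvd_gcd h7 hev
    rw [Nat.Coprime] at hcop
    rw [hcop] at h8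
    omega
  have hdodd : Odd d := by
    rw [← Nat.not_even_iff_odd, even_iff_two_dvd]
    intro h7
    have h8 := Nat.dvd_gcd h7 hev
    rw [Nat.Coprime] at hd
    rw [hd] at h8
    omega
  have hodd : Odd e := by
    have hevZ : (2 : ℤ) ∣ (Fintype.card L : ℤ) - 1 := by
      obtain ⟨c, hc⟩ := hev
      exact ⟨c, by omega⟩
    have h5 := hj.of_dvd hevZ
    have h7 : Odd (e * (ringChar L : ℤ) ^ j) := by
      rw [Int.odd_iff, ← h5.eq, ← Int.odd_iff]
      exact ((Int.odd_coe_nat d).2 hdodd).mul ((Int.odd_coe_nat s).2 hsodd)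
    exact (Int.odd_mul.1 h7).1
  have hdF : (d : L) ≠ 0 := by
    intro h
    apply hdvd
    have h2 := Int.natCast_dvd_natCast.2 ((ringChar.spec L d).1 h)
    exact h2.mul_left _
  -- the numerator is coprime to `|L| - 1`
  have hcope : Nat.Coprime e.natAbs (Fintype.card L - 1) := by
    rw [Nat.Coprime]
    set g := Nat.gcd e.natAbs (Fintype.card L - 1) with hg
    have h3 : (g : ℤ) ∣ e := by
      rw [Int.natCast_dvd]
      exact Nat.gcd_dvd_left _ _
    have h4 : (g : ℤ) ∣ (Fintype.card L : ℤ) - 1 := by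
      rw [← card_int]
      exact Int.natCast_dvd_natCast.2 (Nat.gcd_dvd_right _ _)
    have h5 : (g : ℤ) ∣ ((d * s : ℕ) : ℤ) := by
      have h6 := hj.symm.dvd
      have h7 : ((d * s : ℕ) : ℤ) = ((d : ℤ) * (s : ℤ) - e * (ringChar L : ℤ) ^ j) +
          e * (ringChar L : ℤ) ^ j := by push_cast; ring
      rw [h7]
      exact dvd_add (h4.trans h6) (h3.mul_right _)
    have h6 : g ∣ d * s := Int.natCast_dvd_natCast.1 h5
    have h7 := Nat.dvd_gcd h6 (Nat.gcd_dvd_right e.natAbs (Fintype.card L - 1))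
    have h8 : Nat.Coprime (d * s) (Fintype.card L - 1) := Nat.Coprime.mul_left hd hcop
    rw [Nat.Coprime] at h8
    rw [h8] at h7
    exact Nat.dvd_one.1 h7
  rcases lt_trichotomy e 0 with hneg | hzero | hpos
  · -- negative exponents
    obtain ⟨m, rfl⟩ : ∃ m : ℕ, e = -(m : ℤ) := ⟨e.natAbs, by omega⟩
    have hm0 : 0 < m := by omega
    have hmodd : Odd m := by
      rw [odd_neg, Int.odd_coe_nat] at hodd
      exact hodd
    have hCL : 10000 * (2 * (m * d)) ^ 24 < Fintype.card L := by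
      refine lt_of_le_of_lt ?_ he
      have h0 : (-(m : ℤ) * (d : ℤ)).natAbs = m * d := by
        rw [neg_mul, Int.natAbs_neg, ← Nat.cast_mul, Int.natAbs_natCast]
      rw [h0]
      have h1 : (4 * (m * d)) ^ 24 = 2 ^ 24 * (2 * (m * d)) ^ 24 := by
        rw [← mul_pow]
        congr 1
        ring
      rw [h1]
      exact Nat.mul_le_mul_right _ (by norm_num)
    have hmF : (m : L) ≠ 0 := by
      intro h
      apply hdvd
      have h2 := Int.natCast_dvd_natCast.2 ((ringChar.spec L m).1 h)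
      exact h2.neg_right.mul_right _
    have hmc : Nat.Coprime m (Fintype.card L - 1) := by
      rw [Int.natAbs_neg, Int.natAbs_natCast] at hcope
      exact hcope
    have hpw : ∀ X : L, (X ^ d) ^ s = ((X⁻¹) ^ m) ^ (ringChar L) ^ j := by
      intro x
      by_cases hx : x = 0
      · rw [hx, zero_pow hd0.ne', zero_pow hs.ne', inv_zero, zero_pow hm0.ne',
          zero_pow (pow_ne_zero _ hp0)]
      · rw [rat_pow (-(m : ℤ)) d s j hd0 hs hj x hx, zpow_neg, zpow_natCast, ← inv_pow]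
    refine rat_conclude (fnr m d) (fun v => NNs s v) d j hd0 hd ?_ hnice
      (fun h => main_neg_inf m d hmodd hdodd hCL hchar hmF hdF hmc hd h)
    intro v
    have h1 := count_gen (fun x : L => (x⁻¹) ^ m) (fun x y => by rw [mul_inv, mul_pow]) d s j hdodd
      hd hpw v
    simp only [NNs]
    rw [h1]
    unfold fc fnr
    simp only [inv_inv]
  · exact absurd (by rw [hzero, zero_mul]; exact dvd_zero _) hdvd
  · -- positive exponents
    obtain ⟨n, rfl⟩ : ∃ n : ℕ, e = (n : ℤ) := ⟨e.natAbs, by omega⟩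
    have hn0 : 0 < n := by omega
    have hnodd : Odd n := (Int.odd_coe_nat n).1 hodd
    have hnF : (n : L) ≠ 0 := by
      intro h
      apply hdvd
      have h2 := Int.natCast_dvd_natCast.2 ((ringChar.spec L n).1 h)
      exact h2.mul_right _
    have hnc : Nat.Coprime n (Fintype.card L - 1) := by
      rw [Int.natAbs_natCast] at hcope
      exact hcope
    have hnd : Nat.Coprime n d := by
      rw [Int.gcd, Int.natAbs_natCast, Int.natAbs_natCast] at hed
      exact hed
    have h0 : ((n : ℤ) * (d : ℤ)).natAbs = n * d := by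
      rw [← Nat.cast_mul, Int.natAbs_natCast]
    rw [h0] at he
    have hpw : ∀ X : L, (X ^ d) ^ s = (X ^ n) ^ (ringChar L) ^ j := by
      intro x
      by_cases hx : x = 0
      · rw [hx, zero_pow hd0.ne', zero_pow hs.ne', zero_pow hn0.ne',
          zero_pow (pow_ne_zero _ hp0)]
      · rw [rat_pow (n : ℤ) d s j hd0 hs hj x hx, zpow_natCast]
    have hcnt : ∀ v : L, NNs s (v ^ (ringChar L) ^ j) = fc (fpr n d) (v ^ d) := by
      intro v
      have h1 := count_gen (fun x : L => x ^ n) (fun x y => by rw [mul_pow]) d s j hdodd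
        hd hpw v
      simp only [NNs]
      rw [h1]
      rfl
    rcases lt_trichotomy n d with hlt | heq | hgt
    · -- numerator smaller than denominator
      have hCL : 10000 * ((d - 1) * n) ^ 24 < Fintype.card L := by
        refine lt_of_le_of_lt ?_ he
        rw [mul_pow 4]
        refine Nat.mul_le_mul (by norm_num) (Nat.pow_le_pow_left ?_ 24)
        rw [mul_comm n d]
        exact Nat.mul_le_mul_right _ (by omega)
      refine rat_conclude (fpr n d) (fun v => NNs s v) d j hd0 hd hcnt hnice ?_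
      intro h
      have hfe : (fpr n d : L → L) = fun x => (fpr d n x)⁻¹ := by
        funext x
        exact fpr_inv d n x
      rw [hfe, image_fc_inv] at h
      obtain ⟨v, hv⟩ := main_pos_all d n hdodd hnodd hnd.symm hlt hCL hchar hdF hnF hd hnc h
      exact ⟨v⁻¹, by rw [hfe, fc_inv, inv_inv]; exact hv⟩
    · exact absurd (by rw [heq]) hne
    · have hCL : 10000 * ((n - 1) * d) ^ 24 < Fintype.card L := by
        refine lt_of_le_of_lt ?_ he
        rw [mul_pow 4]
        refine Nat.mul_le_mul (by norm_num) (Nat.pow_le_pow_left ?_ 24)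
        exact Nat.mul_le_mul_right _ (by omega)
      refine rat_conclude (fpr n d) (fun v => NNs s v) d j hd0 hd hcnt hnice ?_
      exact fun h => main_pos_all n d hnodd hdodd hnd hgt hCL hchar hnF hdF hnc hd h

theorem strip_p (p : ℕ) (hp : p.Prime) (e : ℤ) (he : e ≠ 0) :
    ∃ (a : ℕ) (e' : ℤ), e = (p : ℤ) ^ a * e' ∧ ¬ (p : ℤ) ∣ e' := by
  obtain ⟨a, n, h1, h2⟩ := Nat.exists_eq_pow_mul_and_not_dvd (show e.natAbs ≠ 0 by omega) p hp.one_lt.ne'
  rcases le_total 0 e with h | h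
  · refine ⟨a, n, ?_, ?_⟩
    · have h3 : (e.natAbs : ℤ) = e := Int.natAbs_of_nonneg h
      rw [← h3, h2]
      push_cast
      ring
    · rw [Int.natCast_dvd_natCast]
      exact h1
  · refine ⟨a, -n, ?_, ?_⟩
    · have h3 : (e.natAbs : ℤ) = -e := by omega
      have h4 : ((p ^ a * n : ℕ) : ℤ) = -e := by rw [← h2]; exact h3
      push_cast at h4
      linear_combination h4
    · rw [dvd_neg, Int.natCast_dvd_natCast]
      exact h1

theorem rat_final2 (hchar : ringChar L ≠ 2) (e d : ℤ)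
    (hd : IsCoprime d ((Fintype.card L : ℤ) - 1))
    (he : (4 * (e * d).natAbs) ^ 24 < Fintype.card L)
    (s j : ℕ) (hcop : Nat.Coprime s (Fintype.card L - 1))
    (hj : d * (s : ℤ) ≡ e * (ringChar L : ℤ) ^ j [ZMOD ((Fintype.card L : ℤ) - 1)])
    (hs1 : ¬ ∃ k : ℕ, s ≡ ringChar L ^ k [MOD Fintype.card L - 1])
    (hnice : (Finset.univ.image (fun v : L => NNs s v)).card ≤ 3) : ∃ v : L, NNs s v = 2 := by
  have hc2 := card_gt_two (L := L) hchar
  obtain ⟨p, hpdef⟩ : ∃ p, p = ringChar L := ⟨_, rfl⟩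
  haveI hpc : CharP L p := by rw [hpdef]; exact ringChar.charP L
  have hpp : p.Prime := CharP.char_is_prime L p
  obtain ⟨f, -, hf⟩ := FiniteField.card L p
  have hqZ : (Fintype.card L : ℤ) = (p : ℤ) ^ (f : ℕ) := by rw [hf]; push_cast; rfl
  have hpf : (p : ℤ) ^ (f : ℕ) ≡ 1 [ZMOD ((Fintype.card L : ℤ) - 1)] := by
    rw [← hqZ]
    exact Int.modEq_iff_dvd.2 ⟨-1, by ring⟩
  have key : ∀ e d : ℤ, ∀ j : ℕ, 0 < d → IsCoprime d ((Fintype.card L : ℤ) - 1) →
      (4 * (e * d).natAbs) ^ 24 < Fintype.card L → ¬ (ringChar L : ℤ) ∣ e * d →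
      d * (s : ℤ) ≡ e * (ringChar L : ℤ) ^ j [ZMOD ((Fintype.card L : ℤ) - 1)] →
      ∃ v : L, NNs s v = 2 := by
    intro e d j hdpos hd he hdvd hj
    have hgpos : 0 < Int.gcd e d := Int.gcd_pos_of_ne_zero_right _ hdpos.ne'
    set g : ℕ := Int.gcd e d with hg
    obtain ⟨e', he'⟩ : (g : ℤ) ∣ e := Int.gcd_dvd_left _ _
    obtain ⟨d', hd'⟩ : (g : ℤ) ∣ d := Int.gcd_dvd_right _ _
    have hgZ : (0 : ℤ) < g := by exact_mod_cast hgpos
    have hd'pos : 0 < d' := by
      by_contra h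
      push Not at h
      have : d ≤ 0 := by
        rw [hd']
        exact mul_nonpos_of_nonneg_of_nonpos hgZ.le h
      omega
    have hgcop : IsCoprime (g : ℤ) ((Fintype.card L : ℤ) - 1) := by
      rw [hd'] at hd
      exact hd.of_mul_left_left
    have hd'cop : IsCoprime d' ((Fintype.card L : ℤ) - 1) := by
      rw [hd'] at hd
      exact hd.of_mul_left_right
    obtain ⟨dn, rfl⟩ : ∃ n : ℕ, d' = (n : ℤ) := ⟨d'.natAbs, by omega⟩
    have hcopn : Nat.Coprime dn (Fintype.card L - 1) := by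
      rw [← Nat.isCoprime_iff_coprime, card_int]
      exact hd'cop
    have hrel : (dn : ℤ) * (s : ℤ) ≡ e' * (ringChar L : ℤ) ^ j [ZMOD ((Fintype.card L : ℤ) - 1)] := by
      have h1 := hj.dvd
      have h2 : e * (ringChar L : ℤ) ^ j - d * (s : ℤ) =
          (g : ℤ) * (e' * (ringChar L : ℤ) ^ j - (dn : ℤ) * (s : ℤ)) := by
        rw [he', hd']
        ring
      rw [h2] at h1
      exact Int.modEq_iff_dvd.2 (hgcop.symm.dvd_of_dvd_mul_left h1)
    have hgcd1 : Int.gcd e' dn = 1 := by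
      have h1 : Int.gcd e d = g * Int.gcd e' dn := by
        rw [he', hd', Int.gcd_mul_left, Int.natAbs_natCast]
      rw [← hg] at h1
      have h2 : g * 1 = g * Int.gcd e' dn := by rw [mul_one]; exact h1
      exact (Nat.eq_of_mul_eq_mul_left hgpos h2).symm
    refine rat_core2 e' dn (by omega) hgcd1 hchar hcopn ?_ ?_ ?_ s j hcop hrel hnice
    · refine lt_of_le_of_lt (Nat.pow_le_pow_left (Nat.mul_le_mul_left 4 ?_) 24) he
      rw [he', hd']
      have h1 : (g : ℤ) * e' * ((g : ℤ) * (dn : ℤ)) = ((g : ℤ) * (g : ℤ)) * (e' * dn) := by ring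
      have h2 : ((g : ℤ) * (g : ℤ)).natAbs = g * g := by
        rw [Int.natAbs_mul, Int.natAbs_natCast]
      rw [h1, Int.natAbs_mul ((g : ℤ) * (g : ℤ)), h2]
      exact Nat.le_mul_of_pos_left _ (Nat.mul_pos hgpos hgpos)
    · intro h
      apply hdvd
      rw [he', hd']
      have h1 : (g : ℤ) * e' * ((g : ℤ) * (dn : ℤ)) = (e' * dn) * ((g : ℤ) ^ 2) := by ring
      rw [h1]
      exact h.mul_right _
    · intro h
      rw [h] at hgcd1 hrel
      rw [Int.gcd_self, Int.natAbs_natCast] at hgcd1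
      rw [hgcd1] at hrel
      push_cast at hrel
      rw [one_mul, one_mul] at hrel
      apply hs1
      refine ⟨j, ?_⟩
      rw [← Int.natCast_modEq_iff, card_int]
      push_cast
      exact hrel
  have hd0 : d ≠ 0 := by
    rintro rfl
    rw [isCoprime_zero_left] at hd
    have h1 := Int.isUnit_iff.1 hd
    omega
  have he0 : e ≠ 0 := by
    rintro rfl
    rw [zero_mul] at hj
    have h1 : ((Fintype.card L : ℤ) - 1) ∣ d * (s : ℤ) := (Int.modEq_zero_iff_dvd).1 hj
    have h2 : IsCoprime ((Fintype.card L : ℤ) - 1) (d * (s : ℤ)) := by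
      apply IsCoprime.symm
      apply hd.mul_left
      rw [← card_int, Nat.isCoprime_iff_coprime]
      exact hcop
    have h3 := h2.isUnit_of_dvd' dvd_rfl h1
    have h4 := Int.isUnit_iff.1 h3
    omega
  obtain ⟨α, e1, he1, hpe1⟩ := strip_p p hpp e he0
  obtain ⟨β, d1, hd1, hpd1⟩ := strip_p p hpp d hd0
  have hd1c : IsCoprime d1 ((Fintype.card L : ℤ) - 1) := by
    rw [hd1] at hd
    exact hd.of_mul_left_right
  have hrel1 : d1 * (s : ℤ) ≡ e1 * (ringChar L : ℤ) ^ (α + j + ((f : ℕ) - 1) * β)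
      [ZMOD ((Fintype.card L : ℤ) - 1)] := by
    rw [← hpdef] at hj ⊢
    have h1 := hj.mul_left ((p : ℤ) ^ (((f : ℕ) - 1) * β))
    rw [hd1, he1] at h1
    have h2 : (p : ℤ) ^ (((f : ℕ) - 1) * β) * ((p : ℤ) ^ β * d1 * (s : ℤ)) =
        ((p : ℤ) ^ (f : ℕ)) ^ β * (d1 * (s : ℤ)) := by
      have h3 : (f : ℕ) * β = ((f : ℕ) - 1) * β + β := by
        have := f.pos
        obtain ⟨t, ht⟩ : ∃ t, (f : ℕ) = t + 1 := ⟨(f : ℕ) - 1, by omega⟩
        rw [ht, Nat.add_sub_cancel, add_mul, one_mul]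
      rw [← pow_mul, h3, pow_add]
      ring
    rw [h2] at h1
    have h4 := (hpf.pow β).mul_right (d1 * (s : ℤ))
    rw [one_pow, one_mul] at h4
    refine h4.symm.trans (h1.trans ?_)
    have h5 : (p : ℤ) ^ (((f : ℕ) - 1) * β) * ((p : ℤ) ^ α * e1 * (p : ℤ) ^ j) =
        e1 * (p : ℤ) ^ (α + j + ((f : ℕ) - 1) * β) := by
      rw [pow_add, pow_add]
      ring
    rw [h5]
  have hb1 : (4 * (e1 * d1).natAbs) ^ 24 < Fintype.card L := by
    refine lt_of_le_of_lt (Nat.pow_le_pow_left (Nat.mul_le_mul_left 4 ?_) 24) he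
    have h1 : e * d = ((p : ℤ) ^ α * (p : ℤ) ^ β) * (e1 * d1) := by
      rw [he1, hd1]
      ring
    rw [h1, Int.natAbs_mul ((p : ℤ) ^ α * (p : ℤ) ^ β)]
    apply Nat.le_mul_of_pos_left
    rw [Int.natAbs_pos]
    have : (p : ℤ) ≠ 0 := by exact_mod_cast hpp.ne_zero
    exact mul_ne_zero (pow_ne_zero _ this) (pow_ne_zero _ this)
  have hpdvd : ¬ (ringChar L : ℤ) ∣ e1 * d1 := by
    rw [← hpdef]
    intro h
    rcases (Nat.prime_iff_prime_int.1 hpp).dvd_or_dvd h with h1 | h1
    · exact hpe1 h1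
    · exact hpd1 h1
  have hd10 : d1 ≠ 0 := by
    rintro rfl
    exact hpd1 (dvd_zero _)
  rcases lt_or_gt_of_ne hd10 with hneg | hpos
  · refine key (-e1) (-d1) (α + j + ((f : ℕ) - 1) * β) (by omega) hd1c.neg_left ?_ ?_ ?_
    · rw [neg_mul_neg]
      exact hb1
    · rw [neg_mul_neg]
      exact hpdvd
    · have := hrel1.neg
      rw [← neg_mul, ← neg_mul] at this
      exact this
  · exact key e1 d1 _ hpos hd1c hb1 hpdvd hrel1

/-- version with coprime numerator and denominator -/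
theorem rat_final3 (hchar : ringChar L ≠ 2) (e d : ℤ) (hed : IsCoprime e d)
    (he : (4 * (e * d).natAbs) ^ 24 < Fintype.card L)
    (s j : ℕ) (hcop : Nat.Coprime s (Fintype.card L - 1))
    (hj : d * (s : ℤ) ≡ e * (ringChar L : ℤ) ^ j [ZMOD ((Fintype.card L : ℤ) - 1)])
    (hs1 : ¬ ∃ k : ℕ, s ≡ ringChar L ^ k [MOD Fintype.card L - 1])
    (hnice : (Finset.univ.image (fun v : L => NNs s v)).card ≤ 3) : ∃ v : L, NNs s v = 2 := by
  refine rat_final2 hchar e d ?_ he s j hcop hj hs1 hnice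
  obtain ⟨p, hpdef⟩ : ∃ p, p = ringChar L := ⟨_, rfl⟩
  haveI hpc : CharP L p := by rw [hpdef]; exact ringChar.charP L
  obtain ⟨f, -, hf⟩ := FiniteField.card L p
  have hqZ : (Fintype.card L : ℤ) = (p : ℤ) ^ (f : ℕ) := by rw [hf]; push_cast; rfl
  rw [← hpdef] at hj
  have hpq : IsCoprime (p : ℤ) ((Fintype.card L : ℤ) - 1) := by
    obtain ⟨t, ht⟩ : ∃ t, (f : ℕ) = t + 1 := ⟨(f : ℕ) - 1, by have := f.pos; omega⟩
    refine ⟨(p : ℤ) ^ t, -1, ?_⟩
    rw [hqZ, ht, pow_succ]
    ring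
  rw [Int.isCoprime_iff_gcd_eq_one]
  set g : ℕ := Int.gcd d ((Fintype.card L : ℤ) - 1) with hg
  have h1 : (g : ℤ) ∣ d := Int.gcd_dvd_left _ _
  have h2 : (g : ℤ) ∣ (Fintype.card L : ℤ) - 1 := Int.gcd_dvd_right _ _
  have h3 : (g : ℤ) ∣ e * (p : ℤ) ^ j := by
    have h4 := h2.trans hj.dvd
    have h5 : e * (p : ℤ) ^ j = (e * (p : ℤ) ^ j - d * (s : ℤ)) + d * (s : ℤ) := by ring
    rw [h5]
    exact dvd_add h4 (h1.mul_right _)
  have h4 : IsCoprime (g : ℤ) ((p : ℤ) ^ j) := (hpq.symm.of_isCoprime_of_dvd_left h2).pow_right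
  have h5 : (g : ℤ) ∣ e := h4.dvd_of_dvd_mul_right h3
  have h6 := (hed.isUnit_of_dvd' h5 h1)
  have h7 := Int.isUnit_iff.1 h6
  omega

end

end Pool.Agent.H470
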