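import Pool.Agent.H470.Reduce2
import Pool.Agent.H470.PosR3
import Pool.Agent.H470.MainNegR

/-!
# Reduction for rational exponents
-/

set_option autoImplicit false
set_option linter.all false

namespace Pool.Agent.H470

section
variable {L : Type} [Field L] [Fintype L] [DecidableEq L]

theorem pow_surj {d : ℕ} (hd0 : 0 < d) (hcd : Nat.Coprime d (Fintype.card L - 1)) (y : L) :
    ∃ x : L, x ^ d = y := by
  have hinj : Function.Injective (fun w : L => w ^ d) := fun x y hxy => eq_of_pow_eq hcd hd0 x y hxy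
  exact (Finite.injective_iff_surjective.1 hinj) y

/-- the count for `s`, written with the homogeneous map `g` -/
theorem count_gen (g : L → L) (hg : ∀ x y, g (x * y) = g x * g y) (d s j : ℕ) (hd : Odd d)
    (hcd : Nat.Coprime d (Fintype.card L - 1))
    (hs : ∀ X : L, (X ^ d) ^ s = (g X) ^ (ringChar L) ^ j) (v : L) :
    (Finset.univ.filter (fun p : L × L => p.1 + p.2 = 1 ∧ p.1 ^ s + p.2 ^ s = v ^ (ringChar L) ^ j)).card =
      fc (fun x : L => (g x + g (1 - x)) ^ d * g ((x ^ d + (1 - x) ^ d)⁻¹)) (v ^ d) := by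
  have hD : ∀ x : L, x ^ d + (1 - x) ^ d ≠ 0 := dP_eval_ne d hd hcd
  have hd0 := hd.pos
  set φ : L → L := fun x => x ^ d / (x ^ d + (1 - x) ^ d) with hφ
  have hinj : Function.Injective φ := by
    intro x y hxy
    simp only [hφ] at hxy
    rw [div_eq_div_iff (hD x) (hD y)] at hxy
    have h1 : (x * (1 - y)) ^ d = (y * (1 - x)) ^ d := by
      rw [mul_pow, mul_pow]
      linear_combination hxy
    have h2 := eq_of_pow_eq hcd hd0 _ _ h1
    linear_combination h2
  have hbij : Function.Bijective φ := Finite.injective_iff_bijective.1 hinj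
  have hiff : ∀ x : L, (φ x) ^ s + (1 - φ x) ^ s = v ^ (ringChar L) ^ j ↔
      (g x + g (1 - x)) ^ d * g ((x ^ d + (1 - x) ^ d)⁻¹) = v ^ d := by
    intro x
    obtain ⟨σ, hσ⟩ := pow_surj hd0 hcd ((x ^ d + (1 - x) ^ d)⁻¹)
    have h1 : φ x = (x * σ) ^ d := by
      simp only [hφ]
      rw [mul_pow, hσ, div_eq_mul_inv]
    have h2 : 1 - φ x = ((1 - x) * σ) ^ d := by
      simp only [hφ]
      rw [mul_pow, hσ, ← div_eq_mul_inv, eq_div_iff (hD x), sub_mul, div_mul_cancel₀ _ (hD x)]
      ring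
    rw [h2, h1, hs, hs, ← frob_add, hg, hg, ← add_mul, ← hσ]
    have h3 : g (σ ^ d) = (g σ) ^ d := by
      have h4 : ∀ n : ℕ, g (σ ^ (n + 1)) = (g σ) ^ (n + 1) := by
        intro n
        induction n with
        | zero => rw [zero_add, pow_one, pow_one]
        | succ k ih => rw [pow_succ, hg, ih, ← pow_succ]
      obtain ⟨r, hr⟩ := hd
      rw [hr]
      exact h4 _
    rw [h3, ← mul_pow]
    constructor
    · intro h
      rw [(frob_bij (L := L) j).1 h]
    · intro h
      rw [eq_of_pow_eq hcd hd0 _ _ h]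
  rw [pairs_eq]
  unfold fc
  refine (Finset.card_bij (fun x _ => φ x) ?_ ?_ ?_).symm
  · intro x hx
    simp only [Finset.mem_filter, Finset.mem_univ, true_and] at hx ⊢
    exact (hiff x).2 hx
  · intro x _ y _ h
    exact hinj h
  · intro y hy
    obtain ⟨x, rfl⟩ := hbij.2 y
    simp only [Finset.mem_filter, Finset.mem_univ, true_and] at hy
    exact ⟨x, by simpa using (hiff x).1 hy, rfl⟩

theorem rat_conclude (f : L → L) (g : L → ℕ) (d j : ℕ) (hd0 : 0 < d)
    (hcd : Nat.Coprime d (Fintype.card L - 1))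
    (hc : ∀ v : L, g (v ^ (ringChar L) ^ j) = fc f (v ^ d))
    (hnice : (Finset.univ.image g).card ≤ 3)
    (hmain : (Finset.univ.image (fc f)).card ≤ 3 → ∃ v : L, fc f v = 2) : ∃ v : L, g v = 2 := by
  have himg : Finset.univ.image (fc f) = Finset.univ.image g := by
    ext r
    simp only [Finset.mem_image, Finset.mem_univ, true_and]
    constructor
    · rintro ⟨v, hv⟩
      obtain ⟨w, rfl⟩ := pow_surj hd0 hcd v
      exact ⟨w ^ ringChar L ^ j, by rw [hc]; exact hv⟩
    · rintro ⟨v, hv⟩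
      obtain ⟨w, rfl⟩ := (frob_bij (L := L) j).2 v
      exact ⟨w ^ d, by rw [← hv]; exact (hc w).symm⟩
  rw [← himg] at hnice
  obtain ⟨v, hv⟩ := hmain hnice
  obtain ⟨w, rfl⟩ := pow_surj hd0 hcd v
  exact ⟨w ^ ringChar L ^ j, by rw [hc]; exact hv⟩

theorem fpr_inv (e d : ℕ) (x : L) : fpr d e x = (fpr e d x)⁻¹ := by
  unfold fpr
  rw [mul_inv, inv_pow, inv_pow, inv_inv, mul_comm]

theorem fc_inv (f : L → L) (t : L) : fc (fun x => (f x)⁻¹) t = fc f t⁻¹ := by
  unfold fc
  congr 1
  ext x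
  simp only [Finset.mem_filter, Finset.mem_univ, true_and]
  rw [inv_eq_iff_eq_inv]

theorem image_fc_inv (f : L → L) : Finset.univ.image (fc (fun x => (f x)⁻¹)) = Finset.univ.image (fc f) := by
  ext r
  simp only [Finset.mem_image, Finset.mem_univ, true_and]
  constructor
  · rintro ⟨v, hv⟩
    exact ⟨v⁻¹, by rw [← hv, fc_inv]⟩
  · rintro ⟨v, hv⟩
    exact ⟨v⁻¹, by rw [fc_inv, inv_inv]; exact hv⟩

end

end Pool.Agent.H470
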