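import Pool.Agent.H470.Core6

/-!
# Equivariant specialisation
-/

set_option autoImplicit false
set_option linter.all false

open Polynomial

namespace Pool.Agent.H470

section
variable {F k : Type*} [Field F] [Finite F] [Field k] [IsAlgClosed k] [Algebra F k]
variable {K N : Type*} [Field K] [Algebra k K] [Field N] [Algebra K N] [FiniteDimensional K N]
  [Algebra.IsSeparable K N]

theorem algHom_ext_adjoin' {A ι : Type*} [Field A] [Algebra K A] (y : ι → N)
    (hgen : IntermediateField.adjoin K (Set.range y) = ⊤) (ρ₁ ρ₂ : N →ₐ[K] A)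
    (h : ∀ j, ρ₁ (y j) = ρ₂ (y j)) : ρ₁ = ρ₂ := by
  apply AlgHom.ext
  intro x
  have hx : x ∈ IntermediateField.adjoin K (Set.range y) := by rw [hgen]; trivial
  induction hx using IntermediateField.adjoin_induction with
  | mem x hx =>
    obtain ⟨j, rfl⟩ := hx
    exact h j
  | algebraMap x => rw [AlgHom.commutes, AlgHom.commutes]
  | add x y _ _ hx hy => rw [map_add, map_add, hx, hy]
  | inv x _ hx => rw [map_inv₀, map_inv₀, hx]
  | mul x y _ _ hx hy => rw [map_mul, map_mul, hx, hy]

/-- **A primitive element** with equivariant coefficients. -/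
theorem exists_theta' {ι : Type*} [Fintype ι] [DecidableEq ι] {n : ℕ} (hn : 0 < n) (hι : Fintype.card ι ≤ n)
    (G : K[X]) (hG : G ≠ 0) (hGn : G.natDegree ≤ n) (y : ι → N)
    (hroot : ∀ j, aeval (y j) G = 0) (hgen : IntermediateField.adjoin K (Set.range y) = ⊤)
    (σ : Equiv.Perm ι) (hq : (n ^ n) ^ 2 < Nat.card F) :
    (∃ l : ι → k, (∀ j, l (σ j) = l j ^ Nat.card F) ∧
      IntermediateField.adjoin K {∑ j, algebraMap K N (algebraMap k K (l j)) * y j} = ⊤) ∧
      Module.finrank K N ≤ n ^ n := by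
  classical
  let A := AlgebraicClosure K
  have hcard := AlgHom.card K N A
  have hle : Fintype.card (N →ₐ[K] A) ≤ n ^ n := by
    have hfin : Fintype.card (G.rootSet A) ≤ n := by
      rw [← Nat.card_eq_fintype_card]
      exact (ncard_rootSet_le G A).trans hGn
    let f : (N →ₐ[K] A) → (ι → G.rootSet A) := fun ρ j => ⟨ρ (y j), by
      rw [mem_rootSet]
      refine ⟨hG, ?_⟩
      rw [aeval_algHom_apply, hroot, map_zero]⟩
    have hf : Function.Injective f := by
      intro ρ₁ ρ₂ h
      apply algHom_ext_adjoin' y hgen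
      intro j
      have := congrFun h j
      exact congrArg Subtype.val this
    refine (Fintype.card_le_of_injective f hf).trans ?_
    rw [Fintype.card_fun]
    exact (Nat.pow_le_pow_left hfin _).trans (Nat.pow_le_pow_right hn hι)
  refine ⟨?_, hcard ▸ hle⟩
  obtain ⟨l, hl, hne⟩ := exists_equiv (F := F) (k := k) (E := A) σ
    ((Finset.univ : Finset (N →ₐ[K] A)).offDiag) (fun ρ j => ρ.1 (y j) - ρ.2 (y j))
    (by
      rintro ⟨ρ₁, ρ₂⟩ hρ h
      rw [Finset.mem_offDiag] at hρ
      apply hρ.2.2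
      apply algHom_ext_adjoin' y hgen
      intro j
      exact sub_eq_zero.1 (congrFun h j))
    (by
      refine lt_of_le_of_lt ?_ hq
      rw [Finset.offDiag_card, Finset.card_univ, sq]
      exact (Nat.sub_le _ _).trans (Nat.mul_le_mul hle hle))
  refine ⟨l, hl, ?_⟩
  rw [Field.primitive_element_iff_algHom_eq_of_eval' K A (fun x => IsAlgClosed.splits _)]
  intro ρ₁ ρ₂ h
  by_contra hcon
  apply hne (ρ₁, ρ₂) (Finset.mem_offDiag.2 ⟨Finset.mem_univ _, Finset.mem_univ _, hcon⟩)
  simp only at h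
  rw [map_sum, map_sum] at h
  simp only [map_mul, AlgHom.commutes] at h
  rw [← sub_eq_zero, ← Finset.sum_sub_distrib] at h
  rw [← h]
  refine Finset.sum_congr rfl fun j _ => ?_
  rw [← mul_sub, IsScalarTower.algebraMap_apply k K A]

end

section
variable {F k : Type*} [Field F] [Finite F] [Field k] [IsAlgClosed k] [Algebra F k]

/-- **Specialisation.** -/
theorem spec' {K N M : Type*} [Field K] [Algebra k[X] K] [IsFractionRing k[X] K] [Field N]
    [Algebra K N] [Algebra k[X] N] [IsScalarTower k[X] K N] [FiniteDimensional K N]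
    [Algebra.IsSeparable K N] [Field M] [Algebra k[X] M] (emb : N →ₐ[k[X]] M) {Ψ : M →+* M}
    (hΨ : Semi F (k := k) Ψ)
    (θ : N) (hθ : IsIntegral k[X] θ) (hgen : IntermediateField.adjoin K {θ} = ⊤)
    (hΨθ : Ψ (emb θ) = emb θ)
    (f0 : F[X][X]) (hf0 : f0.map (mapRingHom (algebraMap F k)) = minpoly k[X] θ)
    (A B : F[X][X]) (D : F[X]) (hD : A * f0 + B * derivative f0 = C D)
    (t0 θ0 : F) (hpt : evalEval t0 θ0 f0 = 0) (hDt : D.eval t0 ≠ 0) :
    ∃ ev : integralClosure k[X] N →+* k,
      (∀ p : k[X], ev (algebraMap k[X] _ p) = p.eval (algebraMap F k t0)) ∧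
      ∀ a b : integralClosure k[X] N, Ψ (emb a) = emb b → ev b = fr F k (ev a) := by
  classical
  have hfaith : FaithfulSMul k[X] K :=
    (faithfulSMul_iff_algebraMap_injective _ _).2 (IsFractionRing.injective k[X] K)
  have hinjN : Function.Injective (algebraMap k[X] N) := by
    rw [IsScalarTower.algebraMap_eq k[X] K N]
    exact (algebraMap K N).injective.comp (IsFractionRing.injective k[X] K)
  have hfaithN : FaithfulSMul k[X] N := (faithfulSMul_iff_algebraMap_injective _ _).2 hinjN
  set f := minpoly k[X] θ with hf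
  let B' := integralClosure k[X] N
  let θB : B' := ⟨θ, hθ⟩
  let i : k[X][X] →+* B' := (aeval θB : k[X][X] →ₐ[k[X]] B').toRingHom
  have hiC : ∀ p : k[X], i (C p) = algebraMap k[X] B' p := fun p => by
    show aeval θB (C p) = _
    rw [aeval_C]
  have hiX : i X = θB := aeval_X _
  have hi : i.IsIntegral := by
    have h1 : (i.comp C).IsIntegral := by
      have : i.comp C = algebraMap k[X] B' := RingHom.ext hiC
      rw [this]
      exact Algebra.IsIntegral.isIntegral
    exact RingHom.IsIntegral.tower_top _ _ h1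
  have hcoe : ∀ p : k[X][X], ((i p : B') : N) = aeval θ p := by
    intro p
    show ((aeval θB p : B') : N) = aeval θ p
    have := aeval_algebraMap_apply N θB p
    exact this.symm
  set t0k := algebraMap F k t0
  set θ0k := algebraMap F k θ0
  have hev_f : ev2 t0k θ0k f = 0 := by
    rw [← hf0, ev2_map, ev2_apply, hpt, map_zero]
  obtain ⟨ev, hev⟩ := exists_ext' i hi (ev2 t0k θ0k) (by
    intro p hp
    rw [RingHom.mem_ker] at hp ⊢
    have h1 : aeval θ p = 0 := by rw [← hcoe, hp]; rfl
    obtain ⟨r, hr⟩ := minpoly.isIntegrallyClosed_dvd hθ h1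
    rw [hr, map_mul, hev_f, zero_mul])
  have hevC : ∀ p : k[X], ev (algebraMap k[X] B' p) = p.eval t0k := by
    intro p
    rw [← hiC, hev, ev2_C]
  refine ⟨ev, hevC, ?_⟩
  intro a b hab
  obtain ⟨G, hG⟩ := deriv_mul_mem (A := k[X]) (K := K) θ hθ hgen (a : N) a.2
  have hfr : f.map (mapRingHom (fr F k)) = f := by
    rw [← hf0, Polynomial.map_map]
    congr 1
    apply Polynomial.ringHom_ext
    · intro c
      simp [fr_algebraMap]
    · simp
  have hd' : (derivative f).map (mapRingHom (fr F k)) = derivative f := by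
    rw [← derivative_map, hfr]
  have h1 : i (derivative f) * a = i G := by
    apply Subtype.ext
    rw [MulMemClass.coe_mul, hcoe, hcoe]
    exact hG
  have h2 : i (derivative f) * b = i (G.map (mapRingHom (fr F k))) := by
    apply Subtype.ext
    rw [MulMemClass.coe_mul, hcoe, hcoe]
    apply emb.toRingHom.injective
    show emb _ = emb _
    have e1 : ∀ P : k[X][X], emb (aeval θ P) = aeval (emb θ) P := fun P =>
      (aeval_algHom_apply emb θ P).symm
    have h3 := congrArg (fun z => Ψ (emb z)) hG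
    simp only [map_mul] at h3
    rw [e1, e1, hΨ.aeval, hΨ.aeval, hΨθ, hd', hab] at h3
    rw [map_mul, e1, e1]
    exact h3
  have h4 := congrArg ev h1
  have h5 := congrArg ev h2
  rw [map_mul, hev, hev] at h4 h5
  rw [ev2_fr] at h5
  have h6 : fr F k (ev2 t0k θ0k (derivative f)) = ev2 t0k θ0k (derivative f) := by
    rw [← ev2_fr, hd']
  have h7 : ev2 t0k θ0k (derivative f) ≠ 0 := by
    have h8 : derivative f = (derivative f0).map (mapRingHom (algebraMap F k)) := by
      rw [← hf0, derivative_map]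
    rw [h8, ev2_map]
    intro h9
    rw [map_eq_zero_iff _ (algebraMap F k).injective] at h9
    have h10 := congrArg (ev2 t0 θ0) hD
    rw [map_add, map_mul, map_mul, h9, ev2_apply t0 θ0 f0, hpt, mul_zero, mul_zero, add_zero,
      ev2_C] at h10
    exact hDt h10.symm
  apply mul_left_cancel₀ h7
  show _ * ev b = _ * fr F k (ev a)
  rw [h5, ← h4, map_mul, h6]

/-- The curve attached to a semilinear map, and the specialisations attached to its points. -/
theorem curve' {M : Type*} [Field M] [Algebra (RatFunc k) M] [Algebra k[X] M]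
    [IsScalarTower k[X] (RatFunc k) M] {Ψ : M →+* M}
    (hΨ : Semi F (k := k) Ψ) {n : ℕ} (hn : 0 < n) (g : F[X][X]) (hg : g.Monic) (hgn : g.natDegree ≤ n)
    (d0 : ℕ) (hd0 : ∀ i, (g.coeff i).natDegree ≤ d0)
    {ι : Type*} [Fintype ι] [DecidableEq ι] (hι : Fintype.card ι ≤ n) (y : ι → M)
    (hroot : ∀ j, aeval (y j) (g.map (mapRingHom (algebraMap F k))) = 0)
    (hsep : ∀ j, IsSeparable (RatFunc k) (y j))
    (σ : Equiv.Perm ι) (hσ : ∀ j, Ψ (y j) = y (σ j))
    (hq : (n ^ n) ^ 2 < Nat.card F) :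
    ∃ (f0 : F[X][X]) (D : F[X]) (A B : F[X][X]), f0.Monic ∧ 0 < f0.natDegree ∧ f0.natDegree ≤ n ^ n ∧
      (∀ i, (f0.coeff i).natDegree ≤ d0 * n ^ n) ∧ A * f0 + B * derivative f0 = C D ∧ D ≠ 0 ∧
      D.natDegree ≤ 2 * n ^ n * (d0 * n ^ n) ∧
      Irreducible (f0.map (mapRingHom (algebraMap F k))) ∧
      ∀ t0 θ0 : F, evalEval t0 θ0 f0 = 0 → D.eval t0 ≠ 0 →
        ∃ (R : Subalgebra k[X] M) (ev : R →+* k), (∀ j, y j ∈ R) ∧
          (∀ p : k[X], ev (algebraMap k[X] R p) = p.eval (algebraMap F k t0)) ∧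
          ∀ a b : R, Ψ (a : M) = b → ev b = fr F k (ev a) := by
  classical
  have hinjM : Function.Injective (algebraMap k[X] M) := by
    rw [IsScalarTower.algebraMap_eq k[X] (RatFunc k) M]
    exact (algebraMap (RatFunc k) M).injective.comp (IsFractionRing.injective k[X] (RatFunc k))
  have hfaithM : FaithfulSMul k[X] M := (faithfulSMul_iff_algebraMap_injective _ _).2 hinjM
  set gk := g.map (mapRingHom (algebraMap F k)) with hgk
  have hgkm : gk.Monic := hg.map _
  have hgkn : gk.natDegree ≤ n := by rw [hgk, hg.natDegree_map]; exact hgn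
  set gK := gk.map (algebraMap k[X] (RatFunc k)) with hgK
  have hgKm : gK.Monic := hgkm.map _
  have hgKn : gK.natDegree ≤ n := by rw [hgK, hgkm.natDegree_map]; exact hgkn
  have hyi : ∀ j, IsIntegral k[X] (y j) := fun j => ⟨gk, hgkm, hroot j⟩
  have hyK : ∀ j, IsIntegral (RatFunc k) (y j) := fun j => (hyi j).tower_top
  have hrootK : ∀ j, aeval (y j) gK = 0 := by
    intro j
    rw [hgK, aeval_map_algebraMap]
    exact hroot j
  set N := IntermediateField.adjoin (RatFunc k) (Set.range y) with hN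
  haveI : FiniteDimensional (RatFunc k) N := by
    apply IntermediateField.finiteDimensional_adjoin
    rintro _ ⟨j, rfl⟩
    exact hyK j
  haveI : Algebra.IsSeparable (RatFunc k) N := by
    rw [hN, IntermediateField.isSeparable_adjoin_iff_isSeparable]
    rintro _ ⟨j, rfl⟩
    exact hsep j
  let yN : ι → N := fun j => ⟨y j, IntermediateField.subset_adjoin _ _ ⟨j, rfl⟩⟩
  have hgenN : IntermediateField.adjoin (RatFunc k) (Set.range yN) = ⊤ := by
    rw [eq_top_iff]
    rintro ⟨x, hx⟩ -
    refine IntermediateField.adjoin_induction (RatFunc k)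
      (p := fun x hx => (⟨x, hx⟩ : N) ∈ IntermediateField.adjoin (RatFunc k) (Set.range yN))
      ?_ ?_ ?_ ?_ ?_ hx
    · rintro _ ⟨j, rfl⟩
      exact IntermediateField.subset_adjoin _ _ ⟨j, rfl⟩
    · intro x
      exact IntermediateField.algebraMap_mem _ x
    · intro x y hx hy h1 h2
      exact add_mem h1 h2
    · intro x hx h1
      exact inv_mem h1
    · intro x y hx hy h1 h2
      exact mul_mem h1 h2
  have hrootN : ∀ j, aeval (yN j) gK = 0 := by
    intro j
    apply (algebraMap N M).injective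
    rw [map_zero, ← aeval_algebraMap_apply]
    exact hrootK j
  obtain ⟨⟨l, hl, hgen⟩, hfr⟩ := exists_theta' (F := F) (k := k) hn hι gK hgKm.ne_zero hgKn yN hrootN hgenN σ hq
  set θ : N := ∑ j, algebraMap (RatFunc k) N (algebraMap k (RatFunc k) (l j)) * yN j with hθ
  have hcst : ∀ c : k, algebraMap (RatFunc k) N (algebraMap k (RatFunc k) c) =
      algebraMap k[X] N (C c) := by
    intro c
    rw [IsScalarTower.algebraMap_apply k[X] (RatFunc k) N, IsScalarTower.algebraMap_apply k k[X] (RatFunc k)]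
    rfl
  let emb : N →ₐ[k[X]] M := (N.val).restrictScalars k[X]
  have hemb : ∀ x : N, emb x = (x : M) := fun x => rfl
  have hinjN : Function.Injective (algebraMap k[X] N) := by
    rw [IsScalarTower.algebraMap_eq k[X] (RatFunc k) N]
    exact (algebraMap (RatFunc k) N).injective.comp (IsFractionRing.injective k[X] (RatFunc k))
  have hfaithN : FaithfulSMul k[X] N := (faithfulSMul_iff_algebraMap_injective _ _).2 hinjN
  have hyiN : ∀ j, IsIntegral k[X] (yN j) := by
    intro j
    refine ⟨gk, hgkm, ?_⟩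
    apply (algebraMap N M).injective
    rw [map_zero]
    have := hroot j
    rw [← this, aeval_def, hom_eval₂]
    rfl
  have hθi : IsIntegral k[X] θ := by
    rw [hθ]
    refine IsIntegral.sum _ fun j _ => ?_
    rw [hcst]
    exact isIntegral_algebraMap.mul (hyiN j)
  have hθM : (θ : M) = ∑ j, algebraMap k[X] M (C (l j)) * y j := by
    rw [hθ, ← hemb, map_sum]
    refine Finset.sum_congr rfl fun j _ => ?_
    rw [map_mul, hcst, emb.commutes]
    rfl
  have hΨθ : Ψ (θ : M) = θ := by
    rw [hθM, map_sum]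
    rw [← Equiv.sum_comp σ (fun j => algebraMap k[X] M (C (l j)) * y j)]
    refine Finset.sum_congr rfl fun j _ => ?_
    rw [map_mul, hΨ.C, hσ, hl, fr_apply]
  have hmin : minpoly k[X] (θ : M) = minpoly k[X] θ := by
    have := minpoly.algHom_eq emb (fun a b h => Subtype.ext h) θ
    exact this
  have hθiM : IsIntegral k[X] (θ : M) := hθi.map emb
  have hdesc := minpoly_descent hΨ (θ : M) hθiM hΨθ
  rw [hmin] at hdesc
  set f := minpoly k[X] θ with hf
  have hfm : f.Monic := minpoly.monic hθi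
  obtain ⟨f0, hf0⟩ := descent2 F k f hdesc
  have hinjF : Function.Injective (mapRingHom (algebraMap F k)) :=
    Polynomial.map_injective _ (algebraMap F k).injective
  have hf0m : f0.Monic := monic_of_injective hinjF (by rw [hf0]; exact hfm)
  have hf0n : f0.natDegree = f.natDegree := by rw [← hf0, hf0m.natDegree_map]
  have hfK : f.map (algebraMap k[X] (RatFunc k)) = minpoly (RatFunc k) θ :=
    (minpoly.isIntegrallyClosed_eq_field_fractions' (RatFunc k) hθi).symm
  have hfn : f.natDegree ≤ n ^ n := by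
    have h1 := (Field.primitive_element_iff_minpoly_natDegree_eq (RatFunc k) θ).1 hgen
    rw [← hfK, hfm.natDegree_map] at h1
    rw [h1]
    exact hfr
  have hfpos : 0 < f.natDegree := minpoly.natDegree_pos hθi
  have hinf : IntInf (k := k) (algebraMap (RatFunc k) N (RatFunc.X ^ d0)⁻¹ * θ) := by
    rw [hθ, Finset.mul_sum]
    refine intInf_sum _ _ fun j _ => ?_
    have h1 : algebraMap (RatFunc k) N (RatFunc.X ^ d0)⁻¹ *
        (algebraMap (RatFunc k) N (algebraMap k (RatFunc k) (l j)) * yN j) =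
        algebraMap (RatFunc k) N (algebraMap k (RatFunc k) (l j)) *
          (algebraMap (RatFunc k) N (RatFunc.X ^ d0)⁻¹ * yN j) := by ring
    rw [h1]
    refine IntInf.mul ?_ ?_
    · apply intInf_of_mem
      have h2 : algebraMap k (RatFunc k) (l j) = algebraMap k[X] (RatFunc k) (C (l j)) := by
        rw [IsScalarTower.algebraMap_apply k k[X] (RatFunc k)]
        rfl
      rw [h2]
      exact C_mem_Oinf _
    · apply intInf_root gk hgkm d0
      · intro i
        rw [hgk, coeff_map, coe_mapRingHom]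
        exact natDegree_map_le.trans (hd0 i)
      · exact hrootN j
  have hfc := minpoly_coeff_natDegree_le θ hθi d0 hinf
  have hf0c : ∀ i, (f0.coeff i).natDegree ≤ d0 * n ^ n := by
    intro i
    have h1 : (f0.coeff i).natDegree = (f.coeff i).natDegree := by
      rw [← hf0, coeff_map, coe_mapRingHom, natDegree_map_eq_of_injective (algebraMap F k).injective]
    rw [h1]
    exact (hfc i).trans (Nat.mul_le_mul_left _ hfn)
  set ι' : F[X] →+* RatFunc k := (algebraMap k[X] (RatFunc k)).comp (mapRingHom (algebraMap F k)) with hι'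
  have hιi : Function.Injective ι' :=
    (IsFractionRing.injective k[X] (RatFunc k)).comp hinjF
  have hf0sep : (f0.map ι').Separable := by
    rw [hι', ← Polynomial.map_map, hf0, hfK]
    exact Algebra.IsSeparable.isSeparable _ _
  obtain ⟨A, B, D, hD, hD0, hDd⟩ := exists_bezout ι' hιi f0 hf0m (by rw [hf0n]; exact hfpos) _ hf0c hf0sep
  refine ⟨f0, D, A, B, hf0m, by rw [hf0n]; exact hfpos, by rw [hf0n]; exact hfn, hf0c, hD, hD0,
    ?_, ?_, ?_⟩
  · refine hDd.trans ?_
    rw [hf0n]
    exact Nat.mul_le_mul_right _ (Nat.mul_le_mul_left _ hfn)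
  · rw [hf0]
    exact minpoly.irreducible hθi
  · intro t0 θ0 hpt hDt
    obtain ⟨ev, hev1, hev2⟩ := spec' (K := RatFunc k) emb hΨ θ hθi hgen hΨθ f0 hf0 A B D hD t0 θ0 hpt hDt
    -- transport to the image in `M`
    let φ : integralClosure k[X] N →ₐ[k[X]] M := emb.comp (integralClosure k[X] N).val
    have hφ : Function.Injective φ := fun a b h => Subtype.ext (Subtype.ext h)
    let e : integralClosure k[X] N ≃ₐ[k[X]] φ.range := AlgEquiv.ofInjective φ hφ
    refine ⟨φ.range, ev.comp e.symm.toRingEquiv.toRingHom, ?_, ?_, ?_⟩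
    · intro j
      exact ⟨⟨yN j, hyiN j⟩, rfl⟩
    · intro p
      show ev (e.symm (algebraMap k[X] φ.range p)) = _
      rw [AlgEquiv.commutes]
      exact hev1 p
    · intro a b hab
      show ev (e.symm b) = fr F k (ev (e.symm a))
      apply hev2
      have ha : emb ((e.symm a : integralClosure k[X] N) : N) = (a : M) := by
        have := congrArg Subtype.val (e.apply_symm_apply a)
        exact this
      have hb : emb ((e.symm b : integralClosure k[X] N) : N) = (b : M) := by
        have := congrArg Subtype.val (e.apply_symm_apply b)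
        exact this
      rw [ha, hb]
      exact hab

end

/-- **The local-global principle**, equivariant form. -/
theorem lgE (n d0 β : ℕ) (hn : 0 < n) : ∃ C0 : ℕ, ∀ (F : Type) [Field F] [Finite F] (k : Type) [Field k]
    [IsAlgClosed k] [Algebra F k] [Algebra.IsAlgebraic F k] (M : Type) [Field M]
    [Algebra (RatFunc k) M] [Algebra k[X] M] [IsScalarTower k[X] (RatFunc k) M] (Ψ : M →+* M),
    Semi F (k := k) Ψ → ∀ (g : F[X][X]), g.Monic → g.natDegree ≤ n →
    (∀ i, (g.coeff i).natDegree ≤ d0) → ∀ (ι : Type) [Fintype ι] [DecidableEq ι], Fintype.card ι ≤ n →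
    ∀ (y : ι → M), (∀ j, aeval (y j) (g.map (mapRingHom (algebraMap F k))) = 0) →
    (∀ j, IsSeparable (RatFunc k) (y j)) → ∀ (σ : Equiv.Perm ι), (∀ j, Ψ (y j) = y (σ j)) →
    ∀ (B : Finset F), B.card ≤ β → C0 < Nat.card F → ∃ t0 ∉ B,
      ∃ (R : Subalgebra k[X] M) (ev : R →+* k), (∀ j, y j ∈ R) ∧
          (∀ p : k[X], ev (algebraMap k[X] R p) = p.eval (algebraMap F k t0)) ∧
          ∀ a b : R, Ψ (a : M) = b → ev b = fr F k (ev a) := by
  classical
  set d := d0 * n ^ n with hd
  set δ := 2 * n ^ n * (d0 * n ^ n) with hδ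
  set W := R410.PW.WC (n ^ n) d δ with hW
  set E := (δ + β) * n ^ n with hE
  refine ⟨max ((n ^ n) ^ 2) ((W + E + 1) ^ 2), ?_⟩
  intro F _ _ k _ _ _ _ M _ _ _ _ Ψ hΨ g hg hgn hgd ι _ _ hι y hroot hsep σ hσ Bs hBs hC
  have hq1 : (n ^ n) ^ 2 < Nat.card F := lt_of_le_of_lt (le_max_left _ _) hC
  have hq2 : (W + E + 1) ^ 2 < Nat.card F := lt_of_le_of_lt (le_max_right _ _) hC
  obtain ⟨f0, D, A, B, hf0m, hf0pos, hf0n, hf0c, hD, hD0, hDd, hirr, hspec⟩ :=
    curve' hΨ hn g hg hgn d0 hgd hι y hroot hsep σ hσ hq1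
  have hweil := R410.PW.weil (F := F) k hf0m hf0pos hD hD0 hDd hf0c hirr
  set Bad : Finset F := D.roots.toFinset ∪ Bs with hBad
  have hBadc : Bad.card ≤ δ + β := by
    refine (Finset.card_union_le _ _).trans (add_le_add ?_ hBs)
    exact (Multiset.toFinset_card_le _).trans ((card_roots' _).trans hDd)
  by_contra hcon
  push Not at hcon
  have hall : {z : F × F | evalEval z.1 z.2 f0 = 0} ⊆
      {z : F × F | evalEval z.1 z.2 f0 = 0 ∧ z.1 ∈ Bad} := by
    rintro ⟨t, θ⟩ hz
    refine ⟨hz, ?_⟩
    by_contra hnb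
    simp only [hBad, Finset.mem_union, Multiset.mem_toFinset, not_or] at hnb
    obtain ⟨h1, h3⟩ := hnb
    rw [mem_roots hD0, IsRoot.def] at h1
    obtain ⟨R, ev, e1, e2, e3⟩ := hspec t θ hz h1
    obtain ⟨a, b, hab, hne⟩ := hcon t h3 R ev e1 e2
    exact hne (e3 a b hab)
  have hle : {z : F × F | evalEval z.1 z.2 f0 = 0}.ncard ≤ E := by
    refine (Set.ncard_le_ncard hall (Set.toFinite _)).trans ((card_points_le f0 hf0m Bad).trans ?_)
    exact Nat.mul_le_mul hBadc hf0n
  have hWle : R410.PW.WC f0.natDegree d δ ≤ W := WC_mono hf0n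
  have h1 := (abs_le.1 hweil).1
  set q : ℝ := (Nat.card F : ℝ) with hq
  have h2 : ((W : ℝ) + E + 1) ^ 2 < q := by
    rw [hq]
    exact_mod_cast hq2
  have h3 : (W : ℝ) + E + 1 < √q := by
    apply Real.lt_sqrt_of_sq_lt h2
  have h4 : √q * √q = q := Real.mul_self_sqrt (by positivity)
  have h5 : ((R410.PW.WC f0.natDegree d δ : ℕ) : ℝ) ≤ (W : ℝ) := by exact_mod_cast hWle
  have h6 : (({z : F × F | evalEval z.1 z.2 f0 = 0}.ncard : ℕ) : ℝ) ≤ (E : ℝ) := by exact_mod_cast hle
  have h7 : 0 ≤ √q := Real.sqrt_nonneg q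
  have h8 : (0 : ℝ) ≤ (W : ℝ) := by positivity
  have h9 : (0 : ℝ) ≤ (E : ℝ) := by positivity
  nlinarith [mul_le_mul_of_nonneg_right h5 h7, mul_lt_mul_of_pos_right h3 (show (0:ℝ) < √q by linarith)]

end Pool.Agent.H470
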