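import Pool.Agent.H470.Sec9
import Pool.Agent.H470.MainPos

/-!
# Positive integers modulo `(q - 1) / h`: the local counts
-/

set_option autoImplicit false
set_option linter.all false

open Polynomial

namespace Pool.Agent.H470

/-- the polynomial of a sector -/
noncomputable def dS {K : Type*} [Field K] (e : ℕ) (a b : K) : K[X] := C a * X ^ e + C b * (1 - X) ^ e

section
variable {K : Type*} [Field K]

theorem dS_eval (e : ℕ) (a b y : K) : (dS e a b).eval y = a * y ^ e + b * (1 - y) ^ e := by simp [dS]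

theorem dS_map {K' : Type*} [Field K'] (f : K →+* K') (e : ℕ) (a b : K) :
    (dS e a b).map f = dS e (f a) (f b) := by simp [dS]

theorem dS_derivative (e : ℕ) (a b : K) :
    (dS e a b).derivative = C (e : K) * (C a * X ^ (e - 1) - C b * (1 - X) ^ (e - 1)) := by
  simp [dS, derivative_pow]
  ring

theorem dS_derivative2 (e : ℕ) (a b : K) : (dS e a b).derivative.derivative =
    C ((e : K) * ((e - 1 : ℕ) : K)) * (C a * X ^ (e - 2) + C b * (1 - X) ^ (e - 2)) := by
  rw [dS_derivative]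
  simp [derivative_pow]
  rw [show e - 1 - 1 = e - 2 by omega]
  ring

theorem dS_deriv_eval (e : ℕ) (a b y : K) : (dS e a b).derivative.eval y =
    e * (a * y ^ (e - 1) - b * (1 - y) ^ (e - 1)) := by
  rw [dS_derivative]; simp

theorem dS_deriv2_eval (e : ℕ) (a b y : K) : (dS e a b).derivative.derivative.eval y =
    (e : K) * ((e - 1 : ℕ) : K) * (a * y ^ (e - 2) + b * (1 - y) ^ (e - 2)) := by
  rw [dS_derivative2]; simp

theorem dS_crit {e : ℕ} (he : 2 ≤ e) (h1 : (e : K) ≠ 0) (a b : K) (ha : a ≠ 0) (hb : b ≠ 0) (y : K)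
    (h : (dS e a b).derivative.eval y = 0) : a * y ^ (e - 1) = b * (1 - y) ^ (e - 1) ∧ y ≠ 0 ∧ 1 - y ≠ 0 ∧
      y * (1 - y) * (a * y ^ (e - 2) + b * (1 - y) ^ (e - 2)) = a * y ^ (e - 1) := by
  rw [dS_deriv_eval] at h
  have h2 : a * y ^ (e - 1) = b * (1 - y) ^ (e - 1) := sub_eq_zero.1 ((mul_eq_zero.1 h).resolve_left h1)
  have hy0 : y ≠ 0 := by
    rintro rfl
    rw [zero_pow (by omega), mul_zero, sub_zero, one_pow, mul_one] at h2
    exact hb h2.symm
  have hy1 : 1 - y ≠ 0 := by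
    intro h3
    rw [h3, zero_pow (by omega), mul_zero] at h2
    exact mul_ne_zero ha (pow_ne_zero _ hy0) h2
  refine ⟨h2, hy0, hy1, ?_⟩
  obtain ⟨m, rfl⟩ : ∃ m, e = m + 2 := ⟨e - 2, by omega⟩
  simp only [show m + 2 - 1 = m + 1 by omega, show m + 2 - 2 = m by omega] at h2 ⊢
  linear_combination (-y) * h2

theorem dS_double {e : ℕ} (he : 2 ≤ e) (h1 : (e : K) ≠ 0) (h2 : ((e - 1 : ℕ) : K) ≠ 0) (a b : K)
    (ha : a ≠ 0) (hb : b ≠ 0) (y : K) (h : (dS e a b).derivative.eval y = 0) :
    (dS e a b).derivative.derivative.eval y ≠ 0 := by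
  obtain ⟨-, h4, h5, h6⟩ := dS_crit he h1 a b ha hb y h
  rw [dS_deriv2_eval]
  refine mul_ne_zero (mul_ne_zero h1 h2) ?_
  intro h7
  rw [h7, mul_zero] at h6
  exact mul_ne_zero ha (pow_ne_zero _ h4) h6.symm

theorem dS_natDegree_le (e : ℕ) (a b : K) : (dS e a b).natDegree ≤ e := by
  unfold dS
  refine (natDegree_add_le _ _).trans (max_le ?_ ?_)
  · refine (natDegree_C_mul_le _ _).trans ?_
    rw [natDegree_X_pow]
  · refine (natDegree_C_mul_le _ _).trans ?_
    refine natDegree_pow_le.trans ?_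
    have : (1 - X : K[X]).natDegree ≤ 1 := by
      refine (natDegree_sub_le _ _).trans ?_
      simp
    exact (Nat.mul_le_mul_left e this).trans (by omega)

theorem dS_natDegree_pos {e : ℕ} (he : 2 ≤ e) (h1 : (e : K) ≠ 0) (a b : K) (hb : b ≠ 0) :
    0 < (dS e a b).natDegree := by
  rw [Nat.pos_iff_ne_zero]
  intro h
  obtain ⟨c, hc⟩ := natDegree_eq_zero.1 h
  have h2 := dS_deriv_eval e a b 0
  rw [← hc, derivative_C, eval_zero, zero_pow (by omega), mul_zero, zero_sub, sub_zero, one_pow, mul_one] at h2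
  exact mul_ne_zero h1 (neg_ne_zero.2 hb) h2.symm

theorem cof_simple (P : K[X]) (y : K) (hm : P.rootMultiplicity y = 1) : P.derivative.eval y = cof P y := by
  set Q := P /ₘ (X - C y) ^ P.rootMultiplicity y with hQ
  have h1 : P = (X - C y) * Q := by
    have := pow_mul_divByMonic_rootMultiplicity_eq P y
    rw [← hQ, hm, pow_one] at this
    exact this.symm
  have h2 : cof P y = Q.eval y := rfl
  rw [h2]
  conv_lhs => rw [h1]
  simp [derivative_mul]

/-- the leading coefficient -/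
noncomputable def lcS (e : ℕ) (a b : K) : K := (dS e a b).leadingCoeff

theorem lcS_ne {e : ℕ} (he : 2 ≤ e) (h1 : (e : K) ≠ 0) (a b : K) (hb : b ≠ 0) : lcS e a b ≠ 0 := by
  unfold lcS
  rw [leadingCoeff_ne_zero]
  rintro h
  have := dS_natDegree_pos he h1 a b hb
  rw [h, natDegree_zero] at this
  exact lt_irrefl _ this

/-- the normalised polynomial minus `v` -/
noncomputable def PS (e : ℕ) (a b v : K) : K[X] :=
  C (lcS e a b)⁻¹ * dS e a b - C v * C (lcS e a b)⁻¹

theorem PS_eq (e : ℕ) (a b v : K) : PS e a b v = C (lcS e a b)⁻¹ * (dS e a b - C v) := by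
  unfold PS; ring

theorem AS_props {e : ℕ} (he : 2 ≤ e) (h1 : (e : K) ≠ 0) (a b : K) (hb : b ≠ 0) :
    (C (lcS e a b)⁻¹ * dS e a b).Monic ∧ 0 < (C (lcS e a b)⁻¹ * dS e a b).natDegree ∧
    (C (lcS e a b)⁻¹ * dS e a b).natDegree ≤ e ∧
    (C (lcS e a b)⁻¹).degree < (C (lcS e a b)⁻¹ * dS e a b).degree := by
  have hl := lcS_ne he h1 a b hb
  have hinv : (lcS e a b)⁻¹ ≠ 0 := inv_ne_zero hl
  have hm : (C (lcS e a b)⁻¹ * dS e a b).Monic :=
    monic_C_mul_of_mul_leadingCoeff_eq_one (inv_mul_cancel₀ hl)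
  have hd : (C (lcS e a b)⁻¹ * dS e a b).natDegree = (dS e a b).natDegree := natDegree_C_mul hinv
  refine ⟨hm, ?_, ?_, ?_⟩
  · rw [hd]
    exact dS_natDegree_pos he h1 a b hb
  · rw [hd]
    exact dS_natDegree_le e a b
  · rw [degree_C hinv, degree_eq_natDegree hm.ne_zero, hd]
    exact_mod_cast dS_natDegree_pos he h1 a b hb

theorem PS_ne_zero {e : ℕ} (he : 2 ≤ e) (h1 : (e : K) ≠ 0) (a b v : K) (hb : b ≠ 0) : PS e a b v ≠ 0 := by
  obtain ⟨h2, -, -, h3⟩ := AS_props he h1 a b hb
  exact (h2.sub_of_left (lt_of_le_of_lt (degree_C_mul_le' _ _) h3)).ne_zero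

theorem PS_root {e : ℕ} (he : 2 ≤ e) (h1 : (e : K) ≠ 0) (a b v : K) (hb : b ≠ 0) (y : K) :
    (PS e a b v).IsRoot y ↔ a * y ^ e + b * (1 - y) ^ e = v := by
  rw [PS_eq, IsRoot.def, eval_mul, eval_C, eval_sub, eval_C, dS_eval, mul_eq_zero, sub_eq_zero]
  constructor
  · intro h
    exact h.resolve_left (inv_ne_zero (lcS_ne he h1 a b hb))
  · exact Or.inr

theorem PS_deriv (e : ℕ) (a b v y : K) :
    (PS e a b v).derivative.eval y = (lcS e a b)⁻¹ * (dS e a b).derivative.eval y := by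
  rw [PS_eq]; simp

theorem PS_deriv2 (e : ℕ) (a b v y : K) :
    (PS e a b v).derivative.derivative.eval y = (lcS e a b)⁻¹ * (dS e a b).derivative.derivative.eval y := by
  rw [PS_eq]; simp

theorem PS_second {e : ℕ} (he : 2 ≤ e) (h1 : (e : K) ≠ 0) (h2 : ((e - 1 : ℕ) : K) ≠ 0) (a b v : K)
    (ha : a ≠ 0) (hb : b ≠ 0) (y : K) (h : (PS e a b v).derivative.eval y = 0) :
    (PS e a b v).derivative.derivative.eval y ≠ 0 := by
  have hl := inv_ne_zero (lcS_ne he h1 a b hb)
  rw [PS_deriv] at h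
  rw [PS_deriv2]
  exact mul_ne_zero hl (dS_double he h1 h2 a b ha hb y ((mul_eq_zero.1 h).resolve_left hl))

theorem PS_map {k : Type*} [Field k] (f : K →+* k) (e : ℕ) (a b v : K) :
    (PS e a b v).map f = PS e (f a) (f b) (f v) := by
  unfold PS
  have : lcS e (f a) (f b) = f (lcS e a b) := by
    unfold lcS
    rw [← dS_map, leadingCoeff_map]
  rw [this, Polynomial.map_sub, Polynomial.map_mul, Polynomial.map_mul, map_C, map_C, dS_map, map_inv₀]

end

section
variable {F : Type} [Field F] [Fintype F] [DecidableEq F]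

theorem ncard_sum {X : Type} [Fintype X] (R : X → Prop) [DecidablePred R] :
    {x | R x}.ncard = ∑ x, if R x then 1 else 0 := by
  rw [← Finset.card_filter, ← Set.ncard_coe_finset]
  congr 1
  ext x
  simp

theorem ncard_prod (Q : F × F → Prop) : {p | Q p}.ncard = ∑ y : F, {w | Q (y, w)}.ncard := by
  classical
  rw [ncard_sum, Fintype.sum_prod_type]
  refine Finset.sum_congr rfl fun y _ => ?_
  rw [ncard_sum]

/-- **The local count over all sectors.** -/
theorem fixS_sum (hchar : ringChar F ≠ 2) (h e r s : ℕ) (hh : 0 < h) (hd : h ∣ Fintype.card F - 1)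
    (he : 2 ≤ e) (hee : (e : F) ≠ 0) (hee1 : ((e - 1 : ℕ) : F) ≠ 0)
    (hs : s = e + r * ((Fintype.card F - 1) / h)) (hsodd : Odd s) (v c : F) (hc : c ≠ 0) :
    ((∑ i ∈ secs F h, FixS (PS e (i.1 ^ r) (i.2 ^ r) v) (C (lcS e (i.1 ^ r) (i.2 ^ r))⁻¹) c
      ((Fintype.card F - 1) / h) i.1 i.2 : ℕ) : ℤ) =
      cnt s v + quadraticChar F c * quadraticChar F (2 * e * (e - 1 : ℕ)) * tw s v := by
  classical
  have h2F : (2 : F) ≠ 0 := Ring.two_ne_zero hchar
  set n := (Fintype.card F - 1) / h with hn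
  have hs1 : 1 < s := by omega
  have h1 : ∑ i ∈ secs F h, FixS (PS e (i.1 ^ r) (i.2 ^ r) v) (C (lcS e (i.1 ^ r) (i.2 ^ r))⁻¹) c n i.1 i.2 =
      ∑ i ∈ secs F h, {p : F × F | ((PS e (i.1 ^ r) (i.2 ^ r) v).IsRoot p.1 ∧
        p.2 ^ (PS e (i.1 ^ r) (i.2 ^ r) v).rootMultiplicity p.1 * cof (PS e (i.1 ^ r) (i.2 ^ r) v) p.1 =
          c * (C (lcS e (i.1 ^ r) (i.2 ^ r))⁻¹).eval p.1) ∧ ld0 p ^ n = i.1 ∧ ld1 p ^ n = i.2}.ncard := by
    refine Finset.sum_congr rfl fun i hi => ?_
    unfold FixS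
    congr 1
    ext p
    simp only [Set.mem_setOf_eq, and_assoc]
  rw [h1, sum_sectors (secs F h) (fun p : F × F => ld0 p ^ n) (fun p : F × F => ld1 p ^ n)
    (fun i p => (PS e (i.1 ^ r) (i.2 ^ r) v).IsRoot p.1 ∧
        p.2 ^ (PS e (i.1 ^ r) (i.2 ^ r) v).rootMultiplicity p.1 * cof (PS e (i.1 ^ r) (i.2 ^ r) v) p.1 =
          c * (C (lcS e (i.1 ^ r) (i.2 ^ r))⁻¹).eval p.1), ncard_prod]
  push_cast
  have hps : ∀ x y : F, (x ^ n, y ^ n) ∈ secs F h ↔ x ≠ 0 ∧ y ≠ 0 := pow_secs h hh hd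
  have hy : ∀ y : F, (({w : F | (ld0 (y, w) ^ n, ld1 (y, w) ^ n) ∈ secs F h ∧
      (PS e ((ld0 (y, w) ^ n) ^ r) ((ld1 (y, w) ^ n) ^ r) v).IsRoot y ∧
        w ^ (PS e ((ld0 (y, w) ^ n) ^ r) ((ld1 (y, w) ^ n) ^ r) v).rootMultiplicity y *
          cof (PS e ((ld0 (y, w) ^ n) ^ r) ((ld1 (y, w) ^ n) ^ r) v) y =
          c * (C (lcS e ((ld0 (y, w) ^ n) ^ r) ((ld1 (y, w) ^ n) ^ r))⁻¹).eval y}.ncard : ℕ) : ℤ) =
      (if y ^ s + (1 - y) ^ s = v then 1 else 0) + quadraticChar F c * quadraticChar F (2 * e * (e - 1 : ℕ)) *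
        (if y ^ s + (1 - y) ^ s = v ∧ y ^ (s - 1) = (1 - y) ^ (s - 1) then quadraticChar F (y * (1 - y)) else 0) := by
    intro y
    by_cases hy0 : y = 0
    · subst hy0
      have hncrit : ¬ ((0 : F) ^ (s - 1) = (1 - 0) ^ (s - 1)) := by
        rw [zero_pow (by omega), sub_zero, one_pow]
        exact zero_ne_one
      have hnc : ¬ ((0 : F) ^ s + (1 - 0) ^ s = v ∧ (0 : F) ^ (s - 1) = (1 - 0) ^ (s - 1)) := fun h3 => hncrit h3.2
      rw [if_neg hnc, mul_zero, add_zero, zero_pow (by omega : s ≠ 0), sub_zero, one_pow, zero_add]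
      have hl0 : ∀ w : F, ld0 ((0 : F), w) = w := by intro w; unfold ld0; simp
      have hl1 : ∀ w : F, ld1 ((0 : F), w) = 1 := by intro w; unfold ld1; simp
      simp only [hl0, hl1, hps]
      simp only [one_pow]
      have hcond : ∀ w : F, w ≠ 0 → ((PS e ((w ^ n) ^ r) 1 v).IsRoot 0 ↔ 1 = v) := by
        intro w hw
        rw [PS_root he hee _ _ _ one_ne_zero, zero_pow (by omega), mul_zero, sub_zero, one_pow, mul_one, zero_add]
      by_cases hv : (1 : F) = v
      · rw [if_pos hv]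
        have hset : {w : F | (w ≠ 0 ∧ (1 : F) ≠ 0) ∧ (PS e ((w ^ n) ^ r) 1 v).IsRoot 0 ∧
            w ^ (PS e ((w ^ n) ^ r) 1 v).rootMultiplicity 0 * cof (PS e ((w ^ n) ^ r) 1 v) 0 =
              c * (C (lcS e ((w ^ n) ^ r) 1)⁻¹).eval 0} = {-c / e} := by
          have key : ∀ w : F, w ≠ 0 → (w ^ (PS e ((w ^ n) ^ r) 1 v).rootMultiplicity 0 *
              cof (PS e ((w ^ n) ^ r) 1 v) 0 = c * (C (lcS e ((w ^ n) ^ r) 1)⁻¹).eval 0 ↔ w = -c / e) := by
            intro w hw
            have hl := lcS_ne he hee ((w ^ n) ^ r) (1 : F) one_ne_zero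
            have hwn : (w ^ n) ^ r ≠ 0 := pow_ne_zero _ (pow_ne_zero _ hw)
            have hroot := (hcond w hw).2 hv
            have hder : (PS e ((w ^ n) ^ r) 1 v).derivative.eval 0 = (lcS e ((w ^ n) ^ r) 1)⁻¹ * (-e) := by
              rw [PS_deriv, dS_deriv_eval, zero_pow (by omega), mul_zero, sub_zero, one_pow, mul_one, zero_sub]
              ring
            have hm := mult_le_two h2F _ (PS_ne_zero he hee ((w ^ n) ^ r) 1 v one_ne_zero) 0 hroot
              (PS_second he hee hee1 _ _ _ hwn one_ne_zero 0)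
            have hm1 : (PS e ((w ^ n) ^ r) 1 v).rootMultiplicity 0 = 1 := by
              rcases hm with hm | hm
              · exact hm.2
              · exfalso
                rw [hder] at hm
                exact mul_ne_zero (inv_ne_zero hl) (neg_ne_zero.2 hee) hm.1
            rw [← cof_simple _ _ hm1, hder, hm1, pow_one, eval_C]
            constructor
            · intro h3
              rw [eq_div_iff hee]
              have h4 : (lcS e ((w ^ n) ^ r) 1)⁻¹ * (w * -e) = (lcS e ((w ^ n) ^ r) 1)⁻¹ * c := by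
                linear_combination h3
              have h5 := mul_left_cancel₀ (inv_ne_zero hl) h4
              linear_combination -h5
            · intro h3
              rw [eq_div_iff hee] at h3
              linear_combination (-(lcS e ((w ^ n) ^ r) 1)⁻¹) * h3
          ext w
          simp only [Set.mem_setOf_eq, Set.mem_singleton_iff]
          constructor
          · rintro ⟨⟨h3, -⟩, -, h4⟩
            exact (key w h3).1 h4
          · intro h3
            have hw : w ≠ 0 := by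
              rw [h3]
              exact div_ne_zero (neg_ne_zero.2 hc) hee
            exact ⟨⟨hw, one_ne_zero⟩, (hcond w hw).2 hv, (key w hw).2 h3⟩
        rw [hset, Set.ncard_singleton]
        rfl
      · rw [if_neg hv]
        have hset : {w : F | (w ≠ 0 ∧ (1 : F) ≠ 0) ∧ (PS e ((w ^ n) ^ r) 1 v).IsRoot 0 ∧
            w ^ (PS e ((w ^ n) ^ r) 1 v).rootMultiplicity 0 * cof (PS e ((w ^ n) ^ r) 1 v) 0 =
              c * (C (lcS e ((w ^ n) ^ r) 1)⁻¹).eval 0} = ∅ := by
          ext w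
          simp only [Set.mem_setOf_eq, Set.mem_empty_iff_false, iff_false]
          rintro ⟨⟨h3, -⟩, h4, -⟩
          exact hv ((hcond w h3).1 h4)
        rw [hset, Set.ncard_empty]
        rfl
    by_cases hy1 : y = 1
    · subst hy1
      have hncrit : ¬ ((1 : F) ^ (s - 1) = (1 - 1) ^ (s - 1)) := by
        rw [sub_self, zero_pow (by omega), one_pow]
        exact one_ne_zero
      have hnc : ¬ ((1 : F) ^ s + (1 - 1) ^ s = v ∧ (1 : F) ^ (s - 1) = (1 - 1) ^ (s - 1)) := fun h3 => hncrit h3.2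
      rw [if_neg hnc, mul_zero, add_zero, sub_self, zero_pow (by omega : s ≠ 0), one_pow, add_zero]
      have hl0 : ∀ w : F, ld0 ((1 : F), w) = 1 := by intro w; unfold ld0; simp
      have hl1 : ∀ w : F, ld1 ((1 : F), w) = -w := by intro w; unfold ld1; simp
      simp only [hl0, hl1, hps]
      simp only [one_pow]
      have hb : ∀ w : F, w ≠ 0 → ((-w) ^ n) ^ r ≠ 0 := fun w hw => pow_ne_zero _ (pow_ne_zero _ (neg_ne_zero.2 hw))
      have hcond : ∀ w : F, w ≠ 0 → ((PS e 1 (((-w) ^ n) ^ r) v).IsRoot 1 ↔ 1 = v) := by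
        intro w hw
        rw [PS_root he hee _ _ _ (hb w hw), sub_self, zero_pow (by omega), mul_zero, one_pow, mul_one, add_zero]
      by_cases hv : (1 : F) = v
      · rw [if_pos hv]
        have hset : {w : F | ((1 : F) ≠ 0 ∧ -w ≠ 0) ∧ (PS e 1 (((-w) ^ n) ^ r) v).IsRoot 1 ∧
            w ^ (PS e 1 (((-w) ^ n) ^ r) v).rootMultiplicity 1 * cof (PS e 1 (((-w) ^ n) ^ r) v) 1 =
              c * (C (lcS e 1 (((-w) ^ n) ^ r))⁻¹).eval 1} = {c / e} := by
          have key : ∀ w : F, w ≠ 0 → (w ^ (PS e 1 (((-w) ^ n) ^ r) v).rootMultiplicity 1 *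
              cof (PS e 1 (((-w) ^ n) ^ r) v) 1 = c * (C (lcS e 1 (((-w) ^ n) ^ r))⁻¹).eval 1 ↔ w = c / e) := by
            intro w hw
            have hl := lcS_ne he hee (1 : F) (((-w) ^ n) ^ r) (hb w hw)
            have hroot := (hcond w hw).2 hv
            have hder : (PS e 1 (((-w) ^ n) ^ r) v).derivative.eval 1 = (lcS e 1 (((-w) ^ n) ^ r))⁻¹ * e := by
              rw [PS_deriv, dS_deriv_eval, sub_self, zero_pow (by omega), mul_zero, one_pow, mul_one, sub_zero]
              ring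
            have hm := mult_le_two h2F _ (PS_ne_zero he hee 1 (((-w) ^ n) ^ r) v (hb w hw)) 1 hroot
              (PS_second he hee hee1 _ _ _ one_ne_zero (hb w hw) 1)
            have hm1 : (PS e 1 (((-w) ^ n) ^ r) v).rootMultiplicity 1 = 1 := by
              rcases hm with hm | hm
              · exact hm.2
              · exfalso
                rw [hder] at hm
                exact mul_ne_zero (inv_ne_zero hl) hee hm.1
            rw [← cof_simple _ _ hm1, hder, hm1, pow_one, eval_C]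
            constructor
            · intro h3
              rw [eq_div_iff hee]
              have h4 : (lcS e 1 (((-w) ^ n) ^ r))⁻¹ * (w * e) = (lcS e 1 (((-w) ^ n) ^ r))⁻¹ * c := by
                linear_combination h3
              exact mul_left_cancel₀ (inv_ne_zero hl) h4
            · intro h3
              rw [eq_div_iff hee] at h3
              linear_combination ((lcS e 1 (((-w) ^ n) ^ r))⁻¹) * h3
          ext w
          simp only [Set.mem_setOf_eq, Set.mem_singleton_iff]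
          constructor
          · rintro ⟨⟨-, h3⟩, -, h4⟩
            exact (key w (neg_ne_zero.1 h3)).1 h4
          · intro h3
            have hw : w ≠ 0 := by
              rw [h3]
              exact div_ne_zero hc hee
            exact ⟨⟨one_ne_zero, neg_ne_zero.2 hw⟩, (hcond w hw).2 hv, (key w hw).2 h3⟩
        rw [hset, Set.ncard_singleton]
        rfl
      · rw [if_neg hv]
        have hset : {w : F | ((1 : F) ≠ 0 ∧ -w ≠ 0) ∧ (PS e 1 (((-w) ^ n) ^ r) v).IsRoot 1 ∧
            w ^ (PS e 1 (((-w) ^ n) ^ r) v).rootMultiplicity 1 * cof (PS e 1 (((-w) ^ n) ^ r) v) 1 =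
              c * (C (lcS e 1 (((-w) ^ n) ^ r))⁻¹).eval 1} = ∅ := by
          ext w
          simp only [Set.mem_setOf_eq, Set.mem_empty_iff_false, iff_false]
          rintro ⟨⟨-, h3⟩, h4, -⟩
          exact hv ((hcond w (neg_ne_zero.1 h3)).1 h4)
        rw [hset, Set.ncard_empty]
        rfl
    -- the other points
    have hy1' : 1 - y ≠ 0 := fun h3 => hy1 (by linear_combination -h3)
    have hl0 : ∀ w : F, ld0 (y, w) = y := by intro w; unfold ld0; simp [hy0]
    have hl1 : ∀ w : F, ld1 (y, w) = 1 - y := by intro w; unfold ld1; simp [hy1]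
    simp only [hl0, hl1, hps]
    obtain ⟨a, ha⟩ : ∃ a, a = (y ^ n) ^ r := ⟨_, rfl⟩
    obtain ⟨b, hb⟩ : ∃ b, b = ((1 - y) ^ n) ^ r := ⟨_, rfl⟩
    rw [← ha, ← hb]
    have ha0 : a ≠ 0 := by rw [ha]; exact pow_ne_zero _ (pow_ne_zero _ hy0)
    have hb0 : b ≠ 0 := by rw [hb]; exact pow_ne_zero _ (pow_ne_zero _ hy1')
    have hae : ∀ j, j ≤ e → a * y ^ (e - j) = y ^ (s - j) := by
      intro j hj
      rw [ha, ← pow_mul, ← pow_add]
      congr 1
      rw [hs, mul_comm n r]
      omega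
    have hbe : ∀ j, j ≤ e → b * (1 - y) ^ (e - j) = (1 - y) ^ (s - j) := by
      intro j hj
      rw [hb, ← pow_mul, ← pow_add]
      congr 1
      rw [hs, mul_comm n r]
      omega
    have hroot : (PS e a b v).IsRoot y ↔ y ^ s + (1 - y) ^ s = v := by
      rw [PS_root he hee _ _ _ hb0]
      have h3 := hae 0 (by omega)
      have h4 := hbe 0 (by omega)
      rw [Nat.sub_zero, Nat.sub_zero] at h3 h4
      rw [h3, h4]
    have hP0 := PS_ne_zero he hee a b v hb0
    have hl := lcS_ne he hee a b hb0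
    by_cases hv : y ^ s + (1 - y) ^ s = v
    · have hr := hroot.2 hv
      have hcof : cof (PS e a b v) y ≠ 0 := eval_divByMonic_pow_rootMultiplicity_ne_zero y hP0
      have hset : {w : F | (y ≠ 0 ∧ 1 - y ≠ 0) ∧ (PS e a b v).IsRoot y ∧
          w ^ (PS e a b v).rootMultiplicity y * cof (PS e a b v) y = c * (C (lcS e a b)⁻¹).eval y} =
          ((Finset.univ.filter fun w : F => w ^ (PS e a b v).rootMultiplicity y * cof (PS e a b v) y =
            c * (lcS e a b)⁻¹ : Finset F) : Set F) := by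
        ext w
        simp only [Set.mem_setOf_eq, Finset.coe_filter, Finset.mem_univ, true_and, eval_C]
        exact ⟨fun h3 => h3.2.2, fun h3 => ⟨⟨hy0, hy1'⟩, hr, h3⟩⟩
      rw [hset, Set.ncard_coe_finset, if_pos hv]
      rcases mult_le_two h2F _ hP0 y hr (PS_second he hee hee1 _ _ _ ha0 hb0 y) with hm | hm
      · have hncrit : ¬ (y ^ (s - 1) = (1 - y) ^ (s - 1)) := by
          intro h3
          apply hm.1
          rw [PS_deriv, dS_deriv_eval, hae 1 (by omega), hbe 1 (by omega), h3, sub_self, mul_zero, mul_zero]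
        have hnc : ¬ (y ^ s + (1 - y) ^ s = v ∧ y ^ (s - 1) = (1 - y) ^ (s - 1)) := fun h3 => hncrit h3.2
        rw [if_neg hnc, mul_zero, add_zero, hm.2]
        have h3 : (Finset.univ.filter fun w : F => w ^ 1 * cof (PS e a b v) y = c * (lcS e a b)⁻¹) =
            {c * (lcS e a b)⁻¹ / cof (PS e a b v) y} := by
          ext w
          simp [eq_div_iff hcof]
        rw [h3, Finset.card_singleton]
        rfl
      · have hder : (dS e a b).derivative.eval y = 0 := by
          have := hm.1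
          rw [PS_deriv] at this
          exact (mul_eq_zero.1 this).resolve_left (inv_ne_zero hl)
        obtain ⟨h3, -, -, h4⟩ := dS_crit he hee a b ha0 hb0 y hder
        have hcrit : y ^ (s - 1) = (1 - y) ^ (s - 1) := by
          rw [← hae 1 (by omega), ← hbe 1 (by omega)]
          exact h3
        rw [if_pos ⟨hv, hcrit⟩, hm.2, card_sq_mul hchar _ _ _ hcof (inv_ne_zero hl) hc, mul_assoc]
        congr 2
        obtain ⟨m, hm'⟩ : ∃ m, s - 1 = 2 * m := by
          obtain ⟨m, hm⟩ := hsodd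
          exact ⟨m, by omega⟩
        have hcd := cof_double _ y hm.2
        rw [PS_deriv2, dS_deriv2_eval] at hcd
        have h5 : (y ^ m) ^ 2 = y * (1 - y) * (a * y ^ (e - 2) + b * (1 - y) ^ (e - 2)) := by
          rw [h4, hae 1 (by omega), hm', ← pow_mul, mul_comm]
        have hcof2 : (lcS e a b)⁻¹ * cof (PS e a b v) y * (2 * lcS e a b * y * (1 - y)) ^ 2 =
            (2 * e * (e - 1 : ℕ)) * (y * (1 - y)) * (y ^ m) ^ 2 := by
          rw [h5]
          have h6 : (lcS e a b)⁻¹ * cof (PS e a b v) y * (2 * lcS e a b * y * (1 - y)) ^ 2 =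
              (lcS e a b)⁻¹ * (2 * cof (PS e a b v) y) * 2 * (lcS e a b * y * (1 - y)) ^ 2 := by ring
          rw [h6, ← hcd]
          field_simp
        have hne : (2 * lcS e a b * y * (1 - y)) ≠ 0 :=
          mul_ne_zero (mul_ne_zero (mul_ne_zero h2F hl) hy0) hy1'
        have e1 := qc_mul_sq ((lcS e a b)⁻¹ * cof (PS e a b v) y) _ hne
        have e2 := qc_mul_sq ((2 * (e : F) * ((e - 1 : ℕ) : F)) * (y * (1 - y))) (y ^ m) (pow_ne_zero _ hy0)
        rw [hcof2, e2] at e1
        rw [← e1, map_mul]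
    · have hnc : ¬ (y ^ s + (1 - y) ^ s = v ∧ y ^ (s - 1) = (1 - y) ^ (s - 1)) := fun h3 => hv h3.1
      rw [if_neg hv, if_neg hnc, mul_zero, add_zero]
      have hset : {w : F | (y ≠ 0 ∧ 1 - y ≠ 0) ∧ (PS e a b v).IsRoot y ∧
          w ^ (PS e a b v).rootMultiplicity y * cof (PS e a b v) y = c * (C (lcS e a b)⁻¹).eval y} = ∅ := by
        ext w
        simp only [Set.mem_setOf_eq, Set.mem_empty_iff_false, iff_false]
        rintro ⟨-, h3, -⟩
        exact hv (hroot.1 h3)
      rw [hset, Set.ncard_empty]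
      rfl
  rw [Finset.sum_congr rfl fun y _ => hy y, Finset.sum_add_distrib, ← Finset.mul_sum]
  unfold cnt tw
  rw [Finset.card_filter, Finset.sum_filter]
  push_cast
  rfl

end

end Pool.Agent.H470
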