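import Pool.Agent.H470.Sec10

/-!
# Positive integers modulo `(q - 1) / h`
-/

set_option autoImplicit false
set_option linter.all false

open Polynomial

namespace Pool.Agent.H470

/-- **Finite places.** -/
theorem finite_places_sec (h e : ℕ) (hh : 0 < h) (he : 2 ≤ e) : ∃ C0 : ℕ, ∀ (F : Type) [Field F] [Fintype F]
    [DecidableEq F], C0 < Nat.card F → ringChar F ≠ 2 → h ∣ Fintype.card F - 1 → (e : F) ≠ 0 →
    ((e - 1 : ℕ) : F) ≠ 0 → ∀ (r s : ℕ), s = e + r * ((Fintype.card F - 1) / h) → Odd s →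
    ∀ (v0 v c : F), c ≠ 0 → ∃ t, t ≠ v0 ∧
      (cnt s t : ℤ) = cnt s v + quadraticChar F c * quadraticChar F (2 * e * (e - 1 : ℕ)) * tw s v := by
  classical
  obtain ⟨C0, hC0⟩ := sec_local h e (h * h) 2 (2 * h) hh (by omega) (Nat.mul_pos hh hh) (by omega)
  refine ⟨C0, ?_⟩
  intro F _ _ _ hC hchar hd hee hee1 r s hs hsodd v0 v c hc
  have h2F : (2 : F) ≠ 0 := Ring.two_ne_zero hchar
  set n := (Fintype.card F - 1) / h with hn
  have hq1 : 1 < Fintype.card F := Fintype.one_lt_card
  have hs1 : 1 < s := by omega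
  set k := AlgebraicClosure F
  have hinj := (algebraMap F k).injective
  have h2k : (2 : k) ≠ 0 := by
    have := (map_ne_zero_iff (algebraMap F k) hinj).2 h2F
    rwa [map_ofNat] at this
  have heek : (e : k) ≠ 0 := by
    have := (map_ne_zero_iff (algebraMap F k) hinj).2 hee
    rwa [map_natCast] at this
  have heek1 : ((e - 1 : ℕ) : k) ≠ 0 := by
    have := (map_ne_zero_iff (algebraMap F k) hinj).2 hee1
    rwa [map_natCast] at this
  have hroot : ∀ i ∈ secs F h, i.1 ^ r ≠ 0 ∧ i.2 ^ r ≠ 0 := by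
    intro i hi
    rw [mem_secs h hh] at hi
    constructor
    · apply pow_ne_zero
      intro h0
      rw [h0, zero_pow hh.ne'] at hi
      exact zero_ne_one hi.1
    · apply pow_ne_zero
      intro h0
      rw [h0, zero_pow hh.ne'] at hi
      exact zero_ne_one hi.2
  set A : F × F → F[X] := fun i => C (lcS e (i.1 ^ r) (i.2 ^ r))⁻¹ * dS e (i.1 ^ r) (i.2 ^ r) with hA
  set B : F × F → F[X] := fun i => C (lcS e (i.1 ^ r) (i.2 ^ r))⁻¹ with hB
  have hAB : ∀ i v, A i - C v * B i = PS e (i.1 ^ r) (i.2 ^ r) v := fun i v => rfl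
  have hcond : ∀ i ∈ secs F h, (A i).Monic ∧ 0 < (A i).natDegree ∧ (A i).natDegree ≤ e ∧
      (B i).degree < (A i).degree ∧ ((A i).eval 0 ≠ 0 ∨ (B i).eval 0 ≠ 0) ∧
      ((A i).eval 1 ≠ 0 ∨ (B i).eval 1 ≠ 0) ∧
      (∀ y : k, ((A i - C v * B i).map (algebraMap F k)).IsRoot y →
        ((B i).map (algebraMap F k)).eval y ≠ 0) ∧
      (∀ y : k, ((A i - C v * B i).map (algebraMap F k)).IsRoot y →
        (((A i - C v * B i).map (algebraMap F k)).rootMultiplicity y : k) ≠ 0) ∧
      (∀ y : k, ((A i - C v * B i).map (algebraMap F k)).IsRoot y →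
        h * ((A i - C v * B i).map (algebraMap F k)).rootMultiplicity y ∣ 2 * h) := by
    intro i hi
    obtain ⟨hi1, hi2⟩ := hroot i hi
    have hl := inv_ne_zero (lcS_ne he hee (i.1 ^ r) (i.2 ^ r) hi2)
    obtain ⟨h3, h4, h5, h6⟩ := AS_props he hee (i.1 ^ r) (i.2 ^ r) hi2
    have hk1 : algebraMap F k (i.1 ^ r) ≠ 0 := (map_ne_zero_iff _ hinj).2 hi1
    have hk2 : algebraMap F k (i.2 ^ r) ≠ 0 := (map_ne_zero_iff _ hinj).2 hi2
    have hmult : ∀ y : k, ((A i - C v * B i).map (algebraMap F k)).IsRoot y →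
        ((A i - C v * B i).map (algebraMap F k)).rootMultiplicity y = 1 ∨
        ((A i - C v * B i).map (algebraMap F k)).rootMultiplicity y = 2 := by
      intro y hy
      rw [hAB, PS_map] at hy ⊢
      rcases mult_le_two h2k _ (PS_ne_zero he heek _ _ _ hk2) y hy
        (PS_second he heek heek1 _ _ _ hk1 hk2 y) with h7 | h7
      · exact Or.inl h7.2
      · exact Or.inr h7.2
    refine ⟨h3, h4, h5, h6, ?_, ?_, ?_, ?_, ?_⟩
    · right
      rw [hB]
      simp only [eval_C]
      exact hl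
    · right
      rw [hB]
      simp only [eval_C]
      exact hl
    · intro y _
      rw [hB]
      simp only [map_C, eval_C]
      exact (map_ne_zero_iff _ hinj).2 hl
    · intro y hy
      rcases hmult y hy with h7 | h7
      · rw [h7]; simp
      · rw [h7]; exact_mod_cast h2k
    · intro y hy
      rcases hmult y hy with h7 | h7
      · rw [h7, mul_one]; exact Dvd.intro_left 2 rfl
      · rw [h7, mul_comm]
  obtain ⟨t0, ht0, hloc⟩ := hC0 F k hC hd (F × F) (secs F h) (card_secs h) A B v c hc hcond {1, v0}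
    (Finset.card_le_two)
  rw [Finset.mem_insert, Finset.mem_singleton, not_or] at ht0
  obtain ⟨ht01, ht0v⟩ := ht0
  refine ⟨t0, ht0v, ?_⟩
  rw [← fixS_sum hchar h e r s hh hd he hee hee1 hs hsodd v c hc]
  have h1 : cnt s t0 = ∑ i ∈ secs F h, {x : F | (A i - C t0 * B i).eval x = 0 ∧
      x ^ n = i.1 ∧ (1 - x) ^ n = i.2}.ncard := by
    rw [sum_sectors (secs F h) (fun x : F => x ^ n) (fun x : F => (1 - x) ^ n)
      (fun i x => (A i - C t0 * B i).eval x = 0)]
    unfold cnt
    rw [← Set.ncard_coe_finset]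
    congr 1
    ext x
    simp only [Set.mem_setOf_eq, Finset.coe_filter, Finset.mem_univ, true_and]
    rw [pow_secs h hh hd x (1 - x)]
    have hx : ∀ x : F, (x ^ n) ^ r * x ^ e = x ^ s := by
      intro x
      rw [← pow_mul, ← pow_add]
      congr 1
      rw [hs, mul_comm n r]
      omega
    have hev : ∀ (hx1 : 1 - x ≠ 0), ((A (x ^ n, (1 - x) ^ n) - C t0 * B (x ^ n, (1 - x) ^ n)).eval x = 0 ↔
        x ^ s + (1 - x) ^ s = t0) := by
      intro hx1
      have h3 := PS_root he hee ((x ^ n) ^ r) (((1 - x) ^ n) ^ r) t0 (pow_ne_zero _ (pow_ne_zero _ hx1)) x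
      rw [hx, hx] at h3
      exact h3
    constructor
    · intro h2
      have hx0 : x ≠ 0 := by
        rintro rfl
        rw [zero_pow (by omega), sub_zero, one_pow, zero_add] at h2
        exact ht01 h2.symm
      have hx1 : 1 - x ≠ 0 := by
        intro h3
        have h4 : x = 1 := by linear_combination -h3
        rw [h4, sub_self, zero_pow (by omega), one_pow, add_zero] at h2
        exact ht01 h2.symm
      exact ⟨⟨hx0, hx1⟩, (hev hx1).2 h2⟩
    · rintro ⟨⟨hx0, hx1⟩, h2⟩
      exact (hev hx1).1 h2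
  rw [h1]
  congr 1
  refine Finset.sum_congr rfl fun i hi => ?_
  exact hloc i hi i.1 i.2

end Pool.Agent.H470
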