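import Pool.Agent.H470.Sec11

/-!
# Positive integers modulo `(q - 1) / h`: the main theorem
-/

set_option autoImplicit false
set_option linter.all false

open Polynomial

namespace Pool.Agent.H470

theorem main_pos_sec (h e : ℕ) (hh : 0 < h) (he : 2 ≤ e) : ∃ C0 : ℕ, ∀ (F : Type) [Field F] [Fintype F]
    [DecidableEq F], C0 < Nat.card F → ringChar F ≠ 2 → h ∣ Fintype.card F - 1 → (e : F) ≠ 0 →
    ((e - 1 : ℕ) : F) ≠ 0 → ∀ (r s : ℕ), s = e + r * ((Fintype.card F - 1) / h) → Odd s →
    (Finset.univ.image (cnt s : F → ℕ)).card ≤ 3 → ∃ v : F, cnt s v = 2 := by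
  classical
  obtain ⟨C1, hC1⟩ := finite_places_sec h e hh he
  refine ⟨C1, ?_⟩
  intro F _ _ _ hC hchar hd hee hee1 r s hs hsodd hnice
  have h2 : (2 : F) ≠ 0 := Ring.two_ne_zero hchar
  have hs1 : 1 < s := by
    obtain ⟨m, hm⟩ := hsodd
    omega
  set v0 := (2⁻¹ : F) ^ s + (1 - 2⁻¹) ^ s with hv0
  have hodd := cnt_odd h2 s
  rw [← hv0] at hodd
  set κ := (2 * (e : F) * ((e - 1 : ℕ) : F)) with hκ
  have hκ0 : κ ≠ 0 := mul_ne_zero (mul_ne_zero h2 hee) hee1
  have hκsq : quadraticChar F κ * quadraticChar F κ = 1 := by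
    have := quadraticChar_sq_one hκ0
    rw [sq] at this
    exact this
  obtain ⟨g, hg⟩ := quadraticChar_exists_neg_one hchar
  have hg0 : g ≠ 0 := by
    rintro rfl
    simp at hg
  have hP : ∀ v : F, ∃ t, t ≠ v0 ∧ (cnt s t : ℤ) = cnt s v + tw s v := by
    intro v
    obtain ⟨t, ht, h⟩ := hC1 F hC hchar hd hee hee1 r s hs hsodd v0 v κ hκ0
    rw [← hκ, hκsq, one_mul] at h
    exact ⟨t, ht, h⟩
  have hM : ∀ v : F, ∃ t, t ≠ v0 ∧ (cnt s t : ℤ) = cnt s v - tw s v := by
    intro v
    obtain ⟨t, ht, h⟩ := hC1 F hC hchar hd hee hee1 r s hs hsodd v0 v (κ * g) (mul_ne_zero hκ0 hg0)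
    rw [← hκ, map_mul, hg] at h
    have h3 : quadraticChar F κ * -1 * quadraticChar F κ = -1 := by
      linear_combination (-1 : ℤ) * hκsq
    rw [h3] at h
    exact ⟨t, ht, by rw [h]; ring⟩
  have hbig : cnt s v0 < Fintype.card F := by
    by_contra hcon
    have hsum := sum_cnt (F := F) s
    have hz : ∀ t : F, t ≠ v0 → cnt s t = 0 := by
      intro t ht
      have h3 : cnt s t + cnt s v0 ≤ ∑ v : F, cnt s v := by
        rw [← Finset.sum_pair (f := cnt s) ht]
        exact Finset.sum_le_sum_of_subset (Finset.subset_univ _)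
      omega
    obtain ⟨t1, ht1, h3⟩ := hP v0
    obtain ⟨t2, ht2, h4⟩ := hM v0
    rw [hz t1 ht1] at h3
    rw [hz t2 ht2] at h4
    obtain ⟨b', hb'⟩ := hodd
    omega
  obtain ⟨a, ha0, haev, hval, va, hva⟩ := nice_values h2 s (by omega) hnice hbig
  rw [← hv0] at hval
  have hval' : ∀ t : F, t ≠ v0 → (cnt s t : ℤ) = 0 ∨ (cnt s t : ℤ) = a := by
    intro t ht
    rcases hval t ht with h | h
    · left; exact_mod_cast h
    · right; exact_mod_cast h
  have hplus : ∀ v : F, (cnt s v : ℤ) + tw s v = 0 ∨ (cnt s v : ℤ) + tw s v = a := by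
    intro v
    obtain ⟨t, ht, h⟩ := hP v
    rw [← h]
    exact hval' t ht
  have hminus : ∀ v : F, (cnt s v : ℤ) - tw s v = 0 ∨ (cnt s v : ℤ) - tw s v = a := by
    intro v
    obtain ⟨t, ht, h⟩ := hM v
    rw [← h]
    exact hval' t ht
  have haZ : (0 : ℤ) < a := by exact_mod_cast ha0
  have htw0 : ∀ v : F, v ≠ v0 → tw s v = 0 := by
    intro v hv
    have h3 := hval' v hv
    have h4 := hplus v
    have h5 := hminus v
    omega
  have hsum0 : ∑ v : F, tw s v = tw s v0 := by
    refine Finset.sum_eq_single v0 (fun v _ hv => htw0 v hv) ?_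
    intro h
    exact absurd (Finset.mem_univ _) h
  have hsum := hsum0
  rw [sum_tw, sum_crit s hsodd hs1 h2] at hsum
  have hp0 := hplus v0
  have hm0 := hminus v0
  obtain ⟨b', hb'⟩ := hodd
  obtain ⟨a', ha'⟩ := haev
  have hb : (cnt s v0 : ℤ) = 2 * b' + 1 := by rw [hb']; push_cast; ring
  have haa : (a : ℤ) = 2 * a' := by rw [ha']; push_cast; ring
  have hTb : tw s v0 = cnt s v0 ∨ tw s v0 = -(cnt s v0 : ℤ) := by omega
  have h2b : (a : ℤ) = 2 * cnt s v0 := by omega
  set U := Finset.univ.filter fun z : F => z ^ (s - 1) = 1 with hU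
  have heven : Even (s - 1) := by
    obtain ⟨m, hm⟩ := hsodd
    exact ⟨m, by omega⟩
  have hmemU : ∀ z : F, z ∈ U ↔ z ^ (s - 1) = 1 := by
    intro z
    rw [hU, Finset.mem_filter]
    exact ⟨fun h => h.2, fun h => ⟨Finset.mem_univ _, h⟩⟩
  have hm1 : (-1 : F) ∈ U := by
    rw [hmemU]
    exact heven.neg_one_pow
  have hone : (1 : F) ∈ U := by
    rw [hmemU]
    exact one_pow _
  have hU0 : ∀ z ∈ U, z ≠ 0 := by
    intro z hz h
    rw [hmemU, h, zero_pow (by omega)] at hz
    exact zero_ne_one hz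
  have hpm : quadraticChar F (-1) = 1 ∨ quadraticChar F (-1) = -1 :=
    quadraticChar_dichotomy (neg_ne_zero.2 one_ne_zero)
  suffices h : (a : ℤ) = 2 by
    refine ⟨va, ?_⟩
    rw [hva]
    exact_mod_cast h
  by_cases hz : ∃ z1 ∈ U, quadraticChar F z1 = -1
  · obtain ⟨z1, hz1, hz1'⟩ := hz
    have hS : ∑ z ∈ U, quadraticChar F z = 0 := by
      have h3 : ∑ z ∈ U, quadraticChar F z = ∑ z ∈ U, quadraticChar F (z1 * z) := by
        have hz10 := hU0 z1 hz1
        have hz1p : z1 ^ (s - 1) = 1 := (hmemU z1).1 hz1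
        symm
        refine Finset.sum_bij' (fun z _ => z1 * z) (fun z _ => z1⁻¹ * z) ?_ ?_ ?_ ?_ ?_
        · intro z hz
          rw [hmemU] at hz ⊢
          rw [mul_pow, hz1p, hz, one_mul]
        · intro z hz
          rw [hmemU] at hz ⊢
          rw [mul_pow, inv_pow, hz1p, hz, inv_one, one_mul]
        · intro z _
          rw [← mul_assoc, inv_mul_cancel₀ hz10, one_mul]
        · intro z _
          rw [← mul_assoc, mul_inv_cancel₀ hz10, one_mul]
        · intro z _
          rfl
      have h4 : ∑ z ∈ U, quadraticChar F (z1 * z) = - ∑ z ∈ U, quadraticChar F z := by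
        rw [← Finset.sum_neg_distrib]
        refine Finset.sum_congr rfl fun z _ => ?_
        rw [map_mul, hz1', neg_one_mul]
      rw [h4] at h3
      omega
    rw [hS] at hsum
    omega
  · push Not at hz
    have hall : ∀ z ∈ U, quadraticChar F z = 1 := by
      intro z hz'
      exact (quadraticChar_dichotomy (hU0 z hz')).resolve_right (hz z hz')
    -- all critical points have character one
    have hcrit : ∀ y : F, y ^ (s - 1) = (1 - y) ^ (s - 1) → quadraticChar F (y * (1 - y)) = 1 := by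
      intro y hy
      have hy1 := crit_ne_one (by omega : 2 ≤ s) y hy
      have h6 : y * (1 - y) = y / (1 - y) * (1 - y) ^ 2 := by field_simp
      rw [h6, qc_mul_sq _ _ hy1]
      apply hall
      rw [hmemU, div_pow, hy, div_self (pow_ne_zero _ hy1)]
    set Cr := Finset.univ.filter fun y : F => y ^ (s - 1) = (1 - y) ^ (s - 1) with hCr
    set Cr0 := Finset.univ.filter fun y : F => y ^ s + (1 - y) ^ s = v0 ∧ y ^ (s - 1) = (1 - y) ^ (s - 1) with hCr0
    have hmCr : ∀ y, y ∈ Cr ↔ y ^ (s - 1) = (1 - y) ^ (s - 1) := by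
      intro y
      rw [hCr, Finset.mem_filter]
      exact ⟨fun h => h.2, fun h => ⟨Finset.mem_univ _, h⟩⟩
    have hmCr0 : ∀ y, y ∈ Cr0 ↔ y ^ s + (1 - y) ^ s = v0 ∧ y ^ (s - 1) = (1 - y) ^ (s - 1) := by
      intro y
      rw [hCr0, Finset.mem_filter]
      exact ⟨fun h => h.2, fun h => ⟨Finset.mem_univ _, h⟩⟩
    have h3 : tw s v0 = (Cr0.card : ℤ) := by
      unfold tw
      rw [← hCr0, Finset.sum_congr rfl (fun y hy => hcrit y ((hmCr0 y).1 hy).2), Finset.sum_const,
        nsmul_eq_mul, mul_one]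
    have h4 : ∑ v : F, tw s v = (Cr.card : ℤ) := by
      rw [sum_tw, ← hCr, Finset.sum_congr rfl (fun y hy => hcrit y ((hmCr y).1 hy)), Finset.sum_const,
        nsmul_eq_mul, mul_one]
    rw [h4, h3] at hsum0
    have h5 : Cr0 = Cr := by
      apply Finset.eq_of_subset_of_card_le
      · intro y hy
        exact (hmCr y).2 ((hmCr0 y).1 hy).2
      · exact_mod_cast hsum0.le
    have h6 : Cr0.card = cnt s v0 := by
      rcases hTb with h7 | h7
      · rw [h3] at h7
        exact_mod_cast h7
      · rw [h3] at h7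
        have h8 : (0 : ℤ) ≤ Cr0.card := Int.natCast_nonneg _
        omega
    have h7 : ∀ y : F, y ^ s + (1 - y) ^ s = v0 → y ^ (s - 1) = (1 - y) ^ (s - 1) := by
      have h8 : Cr0 = Finset.univ.filter fun x : F => x ^ s + (1 - x) ^ s = v0 := by
        apply Finset.eq_of_subset_of_card_le
        · intro y hy
          rw [Finset.mem_filter]
          exact ⟨Finset.mem_univ _, ((hmCr0 y).1 hy).1⟩
        · rw [h6]
          exact le_rfl
      intro y hy
      have h9 : y ∈ Cr0 := by
        rw [h8, Finset.mem_filter]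
        exact ⟨Finset.mem_univ _, hy⟩
      exact ((hmCr0 y).1 h9).2
    by_cases hz3 : ∃ z ∈ U, z ≠ 1 ∧ z ≠ -1
    · exfalso
      -- `(1 + z) / 2` is in `U`
      have hv0' : v0 = (2⁻¹ : F) ^ (s - 1) := by
        have h8 : (1 - 2⁻¹ : F) = 2⁻¹ := by field_simp; norm_num
        rw [hv0, h8]
        obtain ⟨s', hs'⟩ : ∃ s', s = s' + 1 := ⟨s - 1, by omega⟩
        rw [hs', Nat.add_sub_cancel, pow_succ]
        field_simp
        norm_num
      have key : ∀ z ∈ U, z ≠ -1 → (1 + z) ^ (s - 1) = 2 ^ (s - 1) := by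
        intro z hz hz1
        rw [hmemU] at hz
        have h9 : 1 + z ≠ 0 := by
          intro h
          apply hz1
          linear_combination h
        have h10 : 1 - z / (1 + z) = 1 / (1 + z) := by field_simp; ring
        have h11 : (z / (1 + z)) ∈ Cr := by
          rw [hmCr, h10, div_pow, div_pow, hz, one_pow]
        rw [← h5, hmCr0] at h11
        obtain ⟨h12, h13⟩ := h11
        have h14 : (1 / (1 + z)) ^ (s - 1) = v0 := by
          rw [← h12, ← h10]
          obtain ⟨s', hs'⟩ : ∃ s', s = s' + 1 := ⟨s - 1, by omega⟩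
          rw [hs', Nat.add_sub_cancel] at h13 ⊢
          rw [pow_succ, pow_succ, h13]
          ring
        rw [hv0', one_div, inv_pow, inv_pow] at h14
        exact inv_injective h14
      obtain ⟨z, hz, hz1, hzm⟩ := hz3
      have hzU := (hmemU z).1 hz
      have hnz : -z ∈ U := by rw [hmemU, heven.neg_pow]; exact hzU
      have hnz2 : -(z ^ 2) ∈ U := by rw [hmemU, heven.neg_pow, ← pow_mul, mul_comm, pow_mul, hzU, one_pow]
      have k1 := key z hz hzm
      have k2 := key (-z) hnz (fun h => hz1 (by linear_combination -h))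
      have k3 := key (-(z ^ 2)) hnz2 (by
        intro h
        have h8 : (z - 1) * (z + 1) = 0 := by linear_combination -h
        rcases mul_eq_zero.1 h8 with h9 | h9
        · exact hz1 (by linear_combination h9)
        · exact hzm (by linear_combination h9))
      have k4 : (1 + z) ^ (s - 1) * (1 + -z) ^ (s - 1) = (1 + -(z ^ 2)) ^ (s - 1) := by
        rw [← mul_pow]
        congr 1
        ring
      rw [k1, k2, k3] at k4
      have h20 : (2 : F) ^ (s - 1) ≠ 0 := pow_ne_zero _ h2
      have k5 : (2 : F) ^ (s - 1) = 1 := by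
        apply mul_left_cancel₀ h20
        rw [k4, mul_one]
      have k6 : v0 = 1 := by
        rw [hv0', inv_pow, k5, inv_one]
      have k7 := h7 0 (by rw [zero_pow (by omega), sub_zero, one_pow, zero_add, k6])
      rw [zero_pow (by omega), sub_zero, one_pow] at k7
      exact zero_ne_one k7
    · push Not at hz3
      have h8 : Cr ⊆ {(2⁻¹ : F)} := by
        intro y hy
        rw [Finset.mem_singleton]
        rw [hmCr] at hy
        have hy1 := crit_ne_one (by omega : 2 ≤ s) y hy
        have hyU : y / (1 - y) ∈ U := by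
          rw [hmemU, div_pow, hy, div_self (pow_ne_zero _ hy1)]
        by_cases h9 : y / (1 - y) = 1
        · rw [div_eq_iff hy1, one_mul] at h9
          exact (half_iff h2 y).1 h9.symm
        · have h10 := hz3 _ hyU h9
          rw [div_eq_iff hy1] at h10
          exfalso
          apply one_ne_zero (α := F)
          linear_combination h10
      have h9 := Finset.card_le_card h8
      rw [Finset.card_singleton, ← h5, h6] at h9
      omega

end Pool.Agent.H470
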