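import Pool.Agent.H470.Sec12
import Pool.Agent.H470.Aut3

/-!
# Integers modulo `(q - 1) / h`: reduction and inverses
-/

set_option autoImplicit false
set_option linter.all false

namespace Pool.Agent.H470

theorem exists_bound (P : ℕ → ℕ → Prop) (N : ℕ) (h : ∀ i, 0 < i → ∃ C, ∀ q, C < q → P i q) :
    ∃ C, ∀ i, 0 < i → i ≤ N → ∀ q, C < q → P i q := by
  classical
  choose! C hC using h
  refine ⟨(Finset.range (N + 1)).sup C, ?_⟩
  intro i hi hiN q hq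
  exact hC i hi q (lt_of_le_of_lt (Finset.le_sup (f := C) (Finset.mem_range.2 (by omega))) hq)

section
variable {L : Type} [Field L] [Fintype L] [DecidableEq L]

/-- the reduction to `s ≡ E` modulo `(q - 1) / g` -/
theorem sec_reduce (hchar : ringChar L ≠ 2) (h : ℕ) (hh : 0 < h) (E : ℤ) (s j : ℕ)
    (hcop : Nat.Coprime s (Fintype.card L - 1))
    (hj : (h : ℤ) * s ≡ h * (E * (ringChar L : ℤ) ^ j) [ZMOD ((Fintype.card L : ℤ) - 1)]) :
    ∃ g s' : ℕ, 0 < g ∧ g ≤ h ∧ g ∣ Fintype.card L - 1 ∧ 0 < s' ∧ E.natAbs ≤ s' ∧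
      Nat.Coprime s' (Fintype.card L - 1) ∧ s ≡ s' * ringChar L ^ j [MOD Fintype.card L - 1] ∧
      (((Fintype.card L - 1) / g : ℕ) : ℤ) ∣ (s' : ℤ) - E := by
  have hq2 := card_gt_two (L := L) hchar
  have hpr : (ringChar L).Prime := CharP.char_is_prime L (ringChar L)
  obtain ⟨n, hn, hcard⟩ := FiniteField.card L (ringChar L)
  obtain ⟨n', hn'⟩ : ∃ n' : ℕ, (n : ℕ) = n' + 1 := ⟨n - 1, by have := n.pos; omega⟩
  rw [hn'] at hcard
  obtain ⟨q, hq⟩ : ∃ q, q = Fintype.card L := ⟨_, rfl⟩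
  obtain ⟨p, hp⟩ : ∃ p, p = ringChar L := ⟨_, rfl⟩
  rw [← hq] at hcard hq2 hj hcop
  rw [← hp] at hcard hj hpr
  rw [← hq, ← hp]
  have hqZ : ((q - 1 : ℕ) : ℤ) = (q : ℤ) - 1 := by
    rw [Nat.cast_sub (by omega)]
    norm_num
  have hs0 : 0 < s := by
    rcases Nat.eq_zero_or_pos s with h0 | h0
    · rw [h0, Nat.coprime_zero_left] at hcop
      omega
    · exact h0
  have hc1 : q ≡ 1 [MOD q - 1] := by
    rw [Nat.ModEq.comm]
    exact (Nat.modEq_iff_dvd' (by omega)).2 dvd_rfl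
  set g := Nat.gcd h (q - 1) with hg
  have hg0 : 0 < g := Nat.gcd_pos_of_pos_left _ hh
  have hgd : g ∣ q - 1 := Nat.gcd_dvd_right _ _
  have hgh : g ∣ h := Nat.gcd_dvd_left _ _
  have hcop2 : Nat.Coprime (h / g) ((q - 1) / g) := Nat.coprime_div_gcd_div_gcd hg0
  -- the divisibility
  have hdiv : (((q - 1) / g : ℕ) : ℤ) ∣ (s : ℤ) - E * (p : ℤ) ^ j := by
    have h1 := hj.symm.dvd
    have h2 : (h : ℤ) * s - h * (E * (p : ℤ) ^ j) = (g : ℤ) * (((h / g : ℕ) : ℤ) * ((s : ℤ) - E * (p : ℤ) ^ j)) := by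
      have h3 : (h : ℤ) = (g : ℤ) * ((h / g : ℕ) : ℤ) := by
        exact_mod_cast (Nat.mul_div_cancel' hgh).symm
      rw [h3]
      have h4 : ((g : ℤ) * ((h / g : ℕ) : ℤ)) = (h : ℤ) := h3.symm
      ring
    have h5 : ((q : ℤ) - 1) = (g : ℤ) * (((q - 1) / g : ℕ) : ℤ) := by
      rw [← hqZ]
      exact_mod_cast (Nat.mul_div_cancel' hgd).symm
    rw [h2, h5] at h1
    have h6 := Int.dvd_of_mul_dvd_mul_left (by exact_mod_cast hg0.ne') h1
    have h7 : IsCoprime (((q - 1) / g : ℕ) : ℤ) ((h / g : ℕ) : ℤ) := (Nat.isCoprime_iff_coprime.2 hcop2).symm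
    exact h7.dvd_of_dvd_mul_left h6
  have hnd : (((q - 1) / g : ℕ) : ℤ) ∣ (q : ℤ) - 1 := by
    rw [← hqZ]
    exact_mod_cast Nat.div_dvd_of_dvd hgd
  obtain ⟨s', hs'⟩ : ∃ s', s' = s * p ^ (n' * j) + E.natAbs * (q - 1) := ⟨_, rfl⟩
  have hss : s ≡ s' * p ^ j [MOD q - 1] := by
    have h1 : s' * p ^ j = s * q ^ j + (E.natAbs * p ^ j) * (q - 1) := by
      rw [hs', hcard, ← pow_mul]
      have : (n' + 1) * j = n' * j + j := by ring
      rw [this, pow_add]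
      ring
    rw [h1]
    have h2 := (hc1.pow j).mul_left s
    rw [one_pow, mul_one] at h2
    have h3 : s * q ^ j + (E.natAbs * p ^ j) * (q - 1) ≡ s * q ^ j [MOD q - 1] := by
      rw [Nat.ModEq, Nat.add_mul_mod_self_right]
    exact (h3.trans h2).symm
  refine ⟨g, s', hg0, Nat.le_of_dvd hh hgh, hgd, ?_, ?_, ?_, hss, ?_⟩
  · rw [hs']
    exact Nat.add_pos_left (Nat.mul_pos hs0 (pow_pos hpr.pos _)) _
  · rw [hs']
    have : E.natAbs * 1 ≤ E.natAbs * (q - 1) := Nat.mul_le_mul_left _ (by omega)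
    omega
  · have h1 : Nat.gcd s (q - 1) = Nat.gcd (s' * p ^ j) (q - 1) := hss.gcd_eq
    rw [hcop] at h1
    exact Nat.Coprime.coprime_mul_right h1.symm
  · have h1 : (s' : ℤ) - E = (p : ℤ) ^ (n' * j) * ((s : ℤ) - E * (p : ℤ) ^ j) + E * ((q : ℤ) ^ j - 1) +
        (E.natAbs : ℤ) * ((q : ℤ) - 1) := by
      have h2 : ((q : ℕ) : ℤ) ^ j = (p : ℤ) ^ (n' * j) * (p : ℤ) ^ j := by
        rw [hcard]
        push_cast
        rw [← pow_mul, ← pow_add]
        congr 1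
        ring
      rw [h2, hs']
      push_cast [hqZ]
      ring
    rw [h1]
    refine dvd_add (dvd_add (Dvd.dvd.mul_left hdiv _) (Dvd.dvd.mul_left ?_ _)) (Dvd.dvd.mul_left hnd _)
    have h3 := sub_dvd_pow_sub_pow (q : ℤ) 1 j
    rw [one_pow] at h3
    exact hnd.trans h3

/-- the twist by a power of the characteristic -/
theorem fc_twist (hchar : ringChar L ≠ 2) (s s' j : ℕ) (hs : 0 < s) (hs' : 0 < s')
    (h : s ≡ s' * ringChar L ^ j [MOD Fintype.card L - 1]) (v : L) :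
    fc (Ds s) (v ^ ringChar L ^ j) = cnt s' v :=
  (pairs_eq s (v ^ ringChar L ^ j)).symm.trans (twist s s' j hs hs' h v)

end

theorem sec_int_neg (h m : ℕ) (hh : 0 < h) (hm : 0 < m) : ∃ C0 : ℕ, ∀ (L : Type) [Field L] [Fintype L]
    [DecidableEq L], C0 < Fintype.card L → ringChar L ≠ 2 → ∀ s j : ℕ,
    Nat.Coprime s (Fintype.card L - 1) →
    (h : ℤ) * s ≡ h * (-(m : ℤ) * (ringChar L : ℤ) ^ j) [ZMOD ((Fintype.card L : ℤ) - 1)] →
    ∃ v : L, fc (Ds s) v = 2 := by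
  classical
  have hb : ∀ m' : ℕ, 0 < m' → ∃ C, ∀ q, C < q → ∀ g, 0 < g → g ≤ h → ∀ (F : Type) [Field F] [Fintype F]
      [DecidableEq F], Nat.card F = q → g ∣ Fintype.card F - 1 → (m' : F) ≠ 0 → ∀ s r : ℕ, 0 < s →
      Nat.Coprime s (Fintype.card F - 1) → s + m' = r * ((Fintype.card F - 1) / g) →
      ∃ v : F, fc (Ds s) v = 2 := by
    intro m' hm'
    obtain ⟨C, hC⟩ := exists_bound (fun g q => ∀ (F : Type) [Field F] [Fintype F]
      [DecidableEq F], Nat.card F = q → g ∣ Fintype.card F - 1 → (m' : F) ≠ 0 → ∀ s r : ℕ, 0 < s →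
      Nat.Coprime s (Fintype.card F - 1) → s + m' = r * ((Fintype.card F - 1) / g) →
      ∃ v : F, fc (Ds s) v = 2) h (by
        intro g hg
        obtain ⟨C, hC⟩ := sec_neg g m' hg hm'
        refine ⟨C, ?_⟩
        intro q hq F _ _ _ hF
        exact hC F (by rw [hF]; exact hq))
    exact ⟨C, fun q hq g hg hgh => hC g hg hgh q hq⟩
  obtain ⟨C, hC⟩ := exists_bound _ m hb
  refine ⟨C, ?_⟩
  intro L _ _ _ hCL hchar s j hcop hj
  have hpr : (ringChar L).Prime := CharP.char_is_prime L (ringChar L)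
  obtain ⟨i, m', hm'p, hmm⟩ := Nat.exists_eq_pow_mul_and_not_dvd hm.ne' (ringChar L) hpr.ne_one
  have hm'0 : 0 < m' := by
    rcases Nat.eq_zero_or_pos m' with h0 | h0
    · rw [h0, mul_zero] at hmm
      omega
    · exact h0
  have hm'm : m' ≤ m := by
    rw [hmm]
    exact Nat.le_mul_of_pos_left _ (pow_pos hpr.pos _)
  have hj' : (h : ℤ) * s ≡ h * (-(m' : ℤ) * (ringChar L : ℤ) ^ (i + j)) [ZMOD ((Fintype.card L : ℤ) - 1)] := by
    have h1 : (-(m : ℤ) * (ringChar L : ℤ) ^ j) = (-(m' : ℤ) * (ringChar L : ℤ) ^ (i + j)) := by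
      rw [hmm]
      push_cast
      ring
    rwa [h1] at hj
  obtain ⟨g, s', hg0, hgh, hgd, hs'0, -, hcop', hss, hdiv⟩ := sec_reduce hchar h hh _ s (i + j) hcop hj'
  have hm'L : (m' : L) ≠ 0 := by
    intro h0
    exact hm'p ((ringChar.spec L m').1 h0)
  have hn0 : 0 < (Fintype.card L - 1) / g := by
    have := card_gt_two (L := L) hchar
    exact Nat.div_pos (Nat.le_of_dvd (by omega) hgd) hg0
  obtain ⟨r, hr⟩ : ∃ r : ℕ, s' + m' = r * ((Fintype.card L - 1) / g) := by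
    have h1 : (((Fintype.card L - 1) / g : ℕ) : ℤ) ∣ ((s' + m' : ℕ) : ℤ) := by
      rw [sub_neg_eq_add] at hdiv
      exact_mod_cast hdiv
    obtain ⟨r, hr⟩ := Int.natCast_dvd_natCast.1 h1
    exact ⟨r, by rw [hr, mul_comm]⟩
  obtain ⟨v, hv⟩ := hC m' hm'0 hm'm (Fintype.card L) hCL g hg0 hgh L Nat.card_eq_fintype_card hgd hm'L s' r
    hs'0 hcop' hr
  have hs0 := s_pos hchar s hcop
  exact ⟨v ^ ringChar L ^ (i + j), (fc_twist hchar s s' (i + j) hs0 hs'0 hss v).trans hv⟩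

theorem sec_int_pos (h e : ℕ) (hh : 0 < h) (he : 2 ≤ e) : ∃ C0 : ℕ, ∀ (L : Type) [Field L] [Fintype L]
    [DecidableEq L], C0 < Fintype.card L → ringChar L ≠ 2 → (e : L) ≠ 0 → ((e - 1 : ℕ) : L) ≠ 0 → ∀ s j : ℕ,
    Nat.Coprime s (Fintype.card L - 1) →
    (h : ℤ) * s ≡ h * ((e : ℤ) * (ringChar L : ℤ) ^ j) [ZMOD ((Fintype.card L : ℤ) - 1)] →
    (Finset.univ.image (fc (Ds (L := L) s))).card ≤ 3 → ∃ v : L, fc (Ds s) v = 2 := by
  classical
  obtain ⟨C, hC⟩ := exists_bound (fun g q => ∀ (F : Type) [Field F] [Fintype F]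
      [DecidableEq F], Nat.card F = q → ringChar F ≠ 2 → g ∣ Fintype.card F - 1 → (e : F) ≠ 0 →
      ((e - 1 : ℕ) : F) ≠ 0 → ∀ (r s : ℕ), s = e + r * ((Fintype.card F - 1) / g) → Odd s →
      (Finset.univ.image (cnt s : F → ℕ)).card ≤ 3 → ∃ v : F, cnt s v = 2) h (by
        intro g hg
        obtain ⟨C, hC⟩ := main_pos_sec g e hg he
        refine ⟨C, ?_⟩
        intro q hq F _ _ _ hF
        exact hC F (by rw [hF]; exact hq))
  refine ⟨C, ?_⟩
  intro L _ _ _ hCL hchar hee hee1 s j hcop hj hnice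
  obtain ⟨g, s', hg0, hgh, hgd, hs'0, hs'e, hcop', hss, hdiv⟩ := sec_reduce hchar h hh _ s j hcop hj
  have hn0 : 0 < (Fintype.card L - 1) / g := by
    have := card_gt_two (L := L) hchar
    exact Nat.div_pos (Nat.le_of_dvd (by omega) hgd) hg0
  rw [Int.natAbs_natCast] at hs'e
  obtain ⟨r, hr⟩ : ∃ r : ℕ, s' = e + r * ((Fintype.card L - 1) / g) := by
    have h1 : (((Fintype.card L - 1) / g : ℕ) : ℤ) ∣ ((s' - e : ℕ) : ℤ) := by
      rw [Nat.cast_sub hs'e]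
      exact hdiv
    obtain ⟨r, hr⟩ := Int.natCast_dvd_natCast.1 h1
    refine ⟨r, ?_⟩
    rw [mul_comm r, ← hr]
    omega
  have hs0 := s_pos hchar s hcop
  have hkey := fc_twist hchar s s' j hs0 hs'0 hss
  have hsub : Finset.univ.image (cnt s' : L → ℕ) ⊆ Finset.univ.image (fc (Ds (L := L) s)) := by
    intro m hm
    rw [Finset.mem_image] at hm ⊢
    obtain ⟨v, -, hv⟩ := hm
    exact ⟨v ^ ringChar L ^ j, Finset.mem_univ _, (hkey v).trans hv⟩
  obtain ⟨v, hv⟩ := hC g hg0 hgh (Fintype.card L) hCL L Nat.card_eq_fintype_card hchar hgd hee hee1 r s' hr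
    (s_odd hchar s' hcop') ((Finset.card_le_card hsub).trans hnice)
  exact ⟨v ^ ringChar L ^ j, (hkey v).trans hv⟩

end Pool.Agent.H470
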