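import Pool.Agent.H470.Sec13

/-!
# Integers modulo `(q - 1) / h`: the final statements
-/

set_option autoImplicit false
set_option linter.all false

namespace Pool.Agent.H470

/-- the direct case -/
theorem sec_direct (h : ℕ) (hh : 0 < h) (e : ℤ) (he : e ≠ 0) : ∃ C0 : ℕ, (e = 1 → C0 = (h + 1) ^ 4) ∧
    ∀ (L : Type) [Field L] [Fintype L] [DecidableEq L], C0 < Fintype.card L → ringChar L ≠ 2 →
      (e < 0 ∨ e = 1 ∨ ¬ (ringChar L : ℤ) ∣ e * (e - 1)) →
      ∀ s j : ℕ, Nat.Coprime s (Fintype.card L - 1) →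
      (¬ ∃ k : ℕ, s ≡ ringChar L ^ k [MOD Fintype.card L - 1]) →
      (h : ℤ) * s ≡ h * (e * (ringChar L : ℤ) ^ j) [ZMOD ((Fintype.card L : ℤ) - 1)] →
      (0 < e → (Finset.univ.image (fc (Ds (L := L) s))).card ≤ 3) → ∃ v : L, fc (Ds s) v = 2 := by
  classical
  rcases lt_or_gt_of_ne he with hneg | hpos
  · obtain ⟨m, hm⟩ : ∃ m : ℕ, e = -(m : ℤ) := ⟨e.natAbs, by omega⟩
    have hm0 : 0 < m := by omega
    obtain ⟨C, hC⟩ := sec_int_neg h m hh hm0
    refine ⟨C, fun h1 => by omega, ?_⟩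
    intro L _ _ _ hCL hchar _ s j hcop _ hj _
    rw [hm] at hj
    exact hC L hCL hchar s j hcop hj
  · by_cases he1 : e = 1
    · refine ⟨(h + 1) ^ 4, fun _ => rfl, ?_⟩
      intro L _ _ _ hCL hchar _ s j hcop hs hj hnice
      exfalso
      have hq2 := card_gt_two (L := L) hchar
      have hqZ : ((Fintype.card L - 1 : ℕ) : ℤ) = (Fintype.card L : ℤ) - 1 := by
        rw [Nat.cast_sub (by omega)]
        norm_num
      have hk : h * s ≡ h * ringChar L ^ j [MOD Fintype.card L - 1] := by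
        rw [← Int.natCast_modEq_iff, hqZ]
        push_cast
        rw [he1, one_mul] at hj
        exact hj
      have h4 := aut_final hchar h hh hCL.le s ⟨j, hk⟩ hs
      have hfun : (fun v : L => (Finset.univ.filter (fun p : L × L =>
          p.1 + p.2 = 1 ∧ p.1 ^ s + p.2 ^ s = v)).card) = fc (Ds (L := L) s) := by
        funext v
        exact pairs_eq s v
      rw [hfun] at h4
      have := hnice hpos
      omega
    · obtain ⟨m, hm⟩ : ∃ m : ℕ, e = (m : ℤ) := ⟨e.natAbs, by omega⟩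
      have hm2 : 2 ≤ m := by omega
      obtain ⟨C, hC⟩ := sec_int_pos h m hh hm2
      refine ⟨C, fun h1 => absurd h1 he1, ?_⟩
      intro L _ _ _ hCL hchar hp s j hcop _ hj hnice
      have hp' : ¬ (ringChar L : ℤ) ∣ e * (e - 1) := by
        rcases hp with h1 | h1 | h1
        · omega
        · exact absurd h1 he1
        · exact h1
      have hmL : (m : L) ≠ 0 := by
        intro h0
        apply hp'
        rw [hm]
        exact Dvd.dvd.mul_right (Int.natCast_dvd_natCast.2 ((ringChar.spec L m).1 h0)) _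
      have hmL1 : ((m - 1 : ℕ) : L) ≠ 0 := by
        intro h0
        apply hp'
        have h1 := Int.natCast_dvd_natCast.2 ((ringChar.spec L (m - 1)).1 h0)
        rw [Nat.cast_sub (by omega)] at h1
        rw [hm]
        exact Dvd.dvd.mul_left (by exact_mod_cast h1) _
      rw [hm] at hj
      exact hC L hCL hchar hmL hmL1 s j hcop hj (hnice hpos)

/-- passing to the inverse exponent -/
theorem inv_general {L : Type} [Field L] [Fintype L] [DecidableEq L] (hchar : ringChar L ≠ 2) (s : ℕ)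
    (hcop : Nat.Coprime s (Fintype.card L - 1))
    (hs : ¬ ∃ k : ℕ, s ≡ ringChar L ^ k [MOD Fintype.card L - 1]) (h j : ℕ) (e : ℤ)
    (hj : (h : ℤ) * (s * e) ≡ h * (ringChar L : ℤ) ^ j [ZMOD ((Fintype.card L : ℤ) - 1)]) :
    ∃ s' j' : ℕ, Nat.Coprime s' (Fintype.card L - 1) ∧
      (¬ ∃ k : ℕ, s' ≡ ringChar L ^ k [MOD Fintype.card L - 1]) ∧
      (h : ℤ) * s' ≡ h * (e * (ringChar L : ℤ) ^ j') [ZMOD ((Fintype.card L : ℤ) - 1)] ∧
      Finset.univ.image (fc (Ds (L := L) s')) ⊆ Finset.univ.image (fc (Ds (L := L) s)) := by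
  have hpr : (ringChar L).Prime := CharP.char_is_prime L (ringChar L)
  obtain ⟨n, hn, hcard⟩ := FiniteField.card L (ringChar L)
  obtain ⟨n', hn'⟩ : ∃ n' : ℕ, (n : ℕ) = n' + 1 := ⟨n - 1, by have := n.pos; omega⟩
  rw [hn'] at hcard
  have hq2 := card_gt_two (L := L) hchar
  have hc1 : Fintype.card L ≡ 1 [MOD Fintype.card L - 1] := by
    rw [Nat.ModEq.comm]
    exact (Nat.modEq_iff_dvd' (by omega)).2 dvd_rfl
  have hqZ : ((Fintype.card L - 1 : ℕ) : ℤ) = (Fintype.card L : ℤ) - 1 := by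
    rw [Nat.cast_sub (by omega)]
    norm_num
  have hs0 := s_pos hchar s hcop
  have hodd := s_odd hchar s hcop
  obtain ⟨s', -, hs'⟩ := Nat.exists_mul_mod_eq_one_of_coprime hcop (by omega)
  have hss : s * s' ≡ 1 [MOD Fintype.card L - 1] := by
    rw [Nat.ModEq, hs', Nat.mod_eq_of_lt (by omega)]
  have hcop' : Nat.Coprime s' (Fintype.card L - 1) := by
    have h1 : Nat.gcd (s * s') (Fintype.card L - 1) = Nat.gcd 1 (Fintype.card L - 1) := hss.gcd_eq
    rw [Nat.gcd_one_left] at h1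
    exact Nat.Coprime.coprime_mul_left h1
  have hs'0 := s_pos hchar s' hcop'
  have hodd' := s_odd hchar s' hcop'
  have hs's : s' * s ≡ 1 [MOD Fintype.card L - 1] := by rwa [mul_comm]
  have hnot : ¬ ∃ k : ℕ, s' ≡ ringChar L ^ k [MOD Fintype.card L - 1] := by
    rintro ⟨k, hk⟩
    apply hs
    refine ⟨n' * k, ?_⟩
    have h1 : s * ringChar L ^ k ≡ 1 [MOD Fintype.card L - 1] := (hk.symm.mul_left s).trans hss
    have h2 := h1.mul_right (ringChar L ^ (n' * k))
    rw [one_mul, mul_assoc, ← pow_add] at h2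
    have h3 : k + n' * k = (n' + 1) * k := by ring
    rw [h3, pow_mul, ← hcard] at h2
    have h4 := (hc1.pow k).mul_left s
    rw [one_pow, mul_one] at h4
    exact h4.symm.trans h2
  refine ⟨s', n' * j, hcop', hnot, ?_, image_sub_inv (L := L) s' s hs'0 hs0 hodd' hodd hs's⟩
  -- multiply by `s' p ^ (n' j)`
  have hssZ : (s : ℤ) * s' ≡ 1 [ZMOD ((Fintype.card L : ℤ) - 1)] := by
    rw [← hqZ]
    exact_mod_cast Int.natCast_modEq_iff.2 hss
  have hqj : (ringChar L : ℤ) ^ j * (ringChar L : ℤ) ^ (n' * j) ≡ 1 [ZMOD ((Fintype.card L : ℤ) - 1)] := by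
    have h1 : (ringChar L : ℤ) ^ j * (ringChar L : ℤ) ^ (n' * j) = (Fintype.card L : ℤ) ^ j := by
      rw [hcard]
      push_cast
      rw [← pow_mul, ← pow_add]
      congr 1
      ring
    rw [h1]
    have h2 : (Fintype.card L : ℤ) ≡ 1 [ZMOD ((Fintype.card L : ℤ) - 1)] := by
      rw [Int.modEq_comm, Int.modEq_iff_dvd]
    have h3 := h2.pow j
    rwa [one_pow] at h3
  have h1 := hj.mul_right ((s' : ℤ) * (ringChar L : ℤ) ^ (n' * j))
  have h2 : (h : ℤ) * (s * e) * ((s' : ℤ) * (ringChar L : ℤ) ^ (n' * j)) ≡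
      h * (e * (ringChar L : ℤ) ^ (n' * j)) [ZMOD ((Fintype.card L : ℤ) - 1)] := by
    have h3 := hssZ.mul_left ((h : ℤ) * (e * (ringChar L : ℤ) ^ (n' * j)))
    rw [mul_one] at h3
    have h4 : (h : ℤ) * (s * e) * ((s' : ℤ) * (ringChar L : ℤ) ^ (n' * j)) =
        (h : ℤ) * (e * (ringChar L : ℤ) ^ (n' * j)) * ((s : ℤ) * s') := by ring
    rw [h4]
    exact h3
  have h5 : (h : ℤ) * (ringChar L : ℤ) ^ j * ((s' : ℤ) * (ringChar L : ℤ) ^ (n' * j)) ≡
      h * s' [ZMOD ((Fintype.card L : ℤ) - 1)] := by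
    have h3 := hqj.mul_left ((h : ℤ) * s')
    rw [mul_one] at h3
    have h4 : (h : ℤ) * (ringChar L : ℤ) ^ j * ((s' : ℤ) * (ringChar L : ℤ) ^ (n' * j)) =
        (h : ℤ) * s' * ((ringChar L : ℤ) ^ j * (ringChar L : ℤ) ^ (n' * j)) := by ring
    rw [h4]
    exact h3
  exact h5.symm.trans (h1.symm.trans h2)

/-- **the final statement** -/
theorem sec_final (h : ℕ) (hh : 0 < h) (e : ℤ) (he : e ≠ 0) : ∃ C0 : ℕ, (e = 1 → C0 = (h + 1) ^ 4) ∧
    ∀ (L : Type) [Field L] [Fintype L] [DecidableEq L], C0 < Fintype.card L → ringChar L ≠ 2 →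
      (e < 0 ∨ e = 1 ∨ ¬ (ringChar L : ℤ) ∣ e * (e - 1)) →
      ∀ s j : ℕ, Nat.Coprime s (Fintype.card L - 1) →
      (¬ ∃ k : ℕ, s ≡ ringChar L ^ k [MOD Fintype.card L - 1]) →
      ((h : ℤ) * s ≡ h * (e * (ringChar L : ℤ) ^ j) [ZMOD ((Fintype.card L : ℤ) - 1)] ∨
        (h : ℤ) * (s * e) ≡ h * (ringChar L : ℤ) ^ j [ZMOD ((Fintype.card L : ℤ) - 1)]) →
      (0 < e → (Finset.univ.image (fc (Ds (L := L) s))).card ≤ 3) → ∃ v : L, fc (Ds s) v = 2 := by
  obtain ⟨C, hC1, hC⟩ := sec_direct h hh e he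
  refine ⟨C, hC1, ?_⟩
  intro L _ _ _ hCL hchar hp s j hcop hs hj hnice
  rcases hj with hj | hj
  · exact hC L hCL hchar hp s j hcop hs hj hnice
  · obtain ⟨s', j', hcop', hs', hj', hsub⟩ := inv_general hchar s hcop hs h j e hj
    obtain ⟨v, hv⟩ := hC L hCL hchar hp s' j' hcop' hs' hj'
      (fun h0 => (Finset.card_le_card hsub).trans (hnice h0))
    have h2 : 2 ∈ Finset.univ.image (fc (Ds (L := L) s')) := by
      rw [Finset.mem_image]
      exact ⟨v, Finset.mem_univ _, hv⟩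
    have h3 := hsub h2
    rw [Finset.mem_image] at h3
    obtain ⟨w, -, hw⟩ := h3
    exact ⟨w, hw⟩

end Pool.Agent.H470
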