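import Pool.Agent.H470.Sec1
import Pool.Agent.H470.Loc

/-!
# The polynomials of the sectors
-/

set_option autoImplicit false
set_option linter.all false

open Polynomial

namespace Pool.Agent.H470

/-- all coefficients have degree at most `d` -/
def CD {F : Type*} [Field F] (g : F[X][X]) (d : ℕ) : Prop := ∀ i, (g.coeff i).natDegree ≤ d

section
variable {F : Type*} [Field F]

theorem CD.mul {g g' : F[X][X]} {d d' : ℕ} (h : CD g d) (h' : CD g' d') : CD (g * g') (d + d') := by
  intro i
  rw [coeff_mul]
  refine natDegree_sum_le_of_forall_le _ _ fun p _ => ?_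
  exact natDegree_mul_le.trans (add_le_add (h _) (h' _))

theorem CD.expand {g : F[X][X]} {d : ℕ} (h : CD g d) (n : ℕ) (hn : 0 < n) : CD (expand F[X] n g) d := by
  intro i
  rw [coeff_expand hn]
  split_ifs
  · exact h _
  · simp

theorem CD.prod {ι : Type*} (S : Finset ι) (g : ι → F[X][X]) (d : ℕ) (h : ∀ i ∈ S, CD (g i) d) :
    CD (∏ i ∈ S, g i) (S.card * d) := by
  classical
  induction S using Finset.induction_on with
  | empty =>
    intro i
    rw [Finset.prod_empty, coeff_one]
    split_ifs <;> simp
  | insert a S ha ih =>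
    rw [Finset.prod_insert ha, Finset.card_insert_of_notMem ha, add_mul, one_mul, add_comm (_ * _)]
    exact (h a (Finset.mem_insert_self _ _)).mul (ih fun i hi => h i (Finset.mem_insert_of_mem hi))

theorem isSep_of_simple {K M : Type*} [Field K] [Field M] [Algebra K M] (P : K[X]) (y : M)
    (h0 : aeval y P = 0) (h1 : aeval y (derivative P) ≠ 0) : IsSeparable K y := by
  have hi : IsIntegral K y := by
    have hP : P ≠ 0 := by
      rintro rfl
      simp at h1
    exact (isAlgebraic_iff_isIntegral).1 ⟨P, hP, h0⟩
  unfold IsSeparable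
  rw [separable_iff_derivative_ne_zero (minpoly.irreducible hi)]
  intro hd
  obtain ⟨Q, hQ⟩ := minpoly.dvd K y h0
  apply h1
  rw [hQ, derivative_mul, hd, zero_mul, zero_add, map_mul, minpoly.aeval, zero_mul]

end

section
variable {F k : Type} [Field F] [Field k] [Algebra F k]
variable {M : Type} [Field M] [Algebra (RatFunc k) M] [Algebra k[X] M] [IsScalarTower k[X] (RatFunc k) M]

/-- the polynomial over `k[X]` -/
noncomputable def gk (k : Type) [Field k] [Algebra F k] (g : F[X][X]) : k[X][X] :=
  g.map (mapRingHom (algebraMap F k))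

/-- the value at an element of `M` -/
noncomputable def evM (k : Type) [Field k] [Algebra F k] {M : Type} [Field M] [Algebra k[X] M] (g : F[X][X])
    (y : M) : M := aeval y (gk k g)

theorem evM_mul (g g' : F[X][X]) (y : M) : evM k (g * g') y = evM k g y * evM k g' y := by
  unfold evM gk
  rw [Polynomial.map_mul, map_mul]

theorem evM_prod {ι : Type*} (S : Finset ι) (g : ι → F[X][X]) (y : M) :
    evM k (∏ i ∈ S, g i) y = ∏ i ∈ S, evM k (g i) y := by
  unfold evM gk
  rw [Polynomial.map_prod, map_prod]

theorem evM_expand (g : F[X][X]) (n : ℕ) (y : M) : evM k (expand F[X] n g) y = evM k g (y ^ n) := by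
  unfold evM gk
  rw [map_expand, expand_aeval]

theorem evM_deriv_expand (g : F[X][X]) (n : ℕ) (y : M) :
    evM k (derivative (expand F[X] n g)) y = (n : M) * y ^ (n - 1) * evM k (derivative g) (y ^ n) := by
  rw [derivative_expand, evM_mul, evM_expand]
  have : evM k ((n : F[X][X]) * X ^ (n - 1)) y = (n : M) * y ^ (n - 1) := by
    unfold evM gk
    simp
  rw [this]
  ring

theorem sep_of_evM (g : F[X][X]) (y : M) (h0 : evM k g y = 0) (h1 : evM k (derivative g) y ≠ 0) :
    IsSeparable (RatFunc k) y := by
  refine isSep_of_simple ((gk k g).map (algebraMap k[X] (RatFunc k))) y ?_ ?_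
  · rw [aeval_map_algebraMap]
    exact h0
  · rw [derivative_map, aeval_map_algebraMap]
    unfold evM gk at h1
    rw [← derivative_map] at h1
    exact h1

theorem algM_inj : Function.Injective (algebraMap k[X] M) := by
  rw [IsScalarTower.algebraMap_eq k[X] (RatFunc k) M]
  exact (algebraMap (RatFunc k) M).injective.comp (IsFractionRing.injective k[X] (RatFunc k))

/-- the constant `c` -/
noncomputable def cM (k : Type) [Field k] [Algebra F k] {M : Type} [Field M] [Algebra k[X] M] (c : F) : M :=
  algebraMap k[X] M (C (algebraMap F k c))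

theorem cM_zero : cM k (M := M) (0 : F) = 0 := by unfold cM; simp
theorem cM_one : cM k (M := M) (1 : F) = 1 := by unfold cM; simp
theorem cM_neg (c : F) : cM k (M := M) (-c) = -cM k c := by unfold cM; simp
theorem cM_mul (c d : F) : cM k (M := M) (c * d) = cM k c * cM k d := by unfold cM; simp
theorem cM_pow (c : F) (n : ℕ) : cM k (M := M) (c ^ n) = cM k c ^ n := by unfold cM; simp
theorem cM_inj : Function.Injective (cM k (M := M) : F → M) := by
  intro a b h
  exact (algebraMap F k).injective (C_injective (algM_inj h))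

/-- the values of the basic polynomial -/
theorem evM_gAB (A B : F[X]) (y : M) : evM k (gAB A B) y =
    eval₂ ((algebraMap k[X] M).comp (C.comp (algebraMap F k))) y A -
      algebraMap k[X] M X * eval₂ ((algebraMap k[X] M).comp (C.comp (algebraMap F k))) y B := by
  unfold evM gk gAB
  rw [Polynomial.map_sub, Polynomial.map_mul, Polynomial.map_map, Polynomial.map_map, map_C, map_sub, map_mul,
    aeval_C, aeval_def, aeval_def, eval₂_map, eval₂_map, coe_mapRingHom, map_X]
  have : (algebraMap k[X] M).comp ((mapRingHom (algebraMap F k)).comp C) =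
      (algebraMap k[X] M).comp (C.comp (algebraMap F k)) := by
    congr 1
    ext c
    simp
  rw [this]

theorem evM_gAB_const (A B : F[X]) (c : F) :
    evM k (M := M) (gAB A B) (cM k c) = algebraMap k[X] M (C (algebraMap F k (A.eval c)) - X * C (algebraMap F k (B.eval c))) := by
  rw [evM_gAB]
  have : ∀ P : F[X], eval₂ ((algebraMap k[X] M).comp (C.comp (algebraMap F k))) (cM k (M := M) c) P =
      algebraMap k[X] M (C (algebraMap F k (P.eval c))) := by
    intro P
    have h : cM k (M := M) c = ((algebraMap k[X] M).comp (C.comp (algebraMap F k))) c := rfl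
    rw [h, eval₂_at_apply]
    rfl
  rw [this, this, map_sub, map_mul]

theorem evM_gAB_const_ne (A B : F[X]) (c : F) (h : A.eval c ≠ 0 ∨ B.eval c ≠ 0) :
    evM k (M := M) (gAB A B) (cM k c) ≠ 0 := by
  rw [evM_gAB_const]
  intro h0
  rw [← map_zero (algebraMap k[X] M)] at h0
  have h1 := algM_inj h0
  have h2 := congrArg (fun p : k[X] => p.coeff 0) h1
  have h3 := congrArg (fun p : k[X] => p.coeff 1) h1
  simp [coeff_C, coeff_X] at h2 h3
  rcases h with h | h
  · exact h h2
  · exact h h3

/-- a polynomial with all its roots -/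
structure Full (k : Type) [Field k] [Algebra F k] {M : Type} [Field M] [Algebra k[X] M] (A B : F[X])
    (Rt : Finset M) : Prop where
  monic : A.Monic
  pos : 0 < A.natDegree
  lt : B.degree < A.degree
  card : Rt.card = A.natDegree
  root : ∀ s ∈ Rt, evM k (gAB A B) s = 0

theorem Full.prod {A B : F[X]} {Rt : Finset M} (h : Full k A B Rt) :
    (gk k (gAB A B)).map (algebraMap k[X] M) = ∏ s ∈ Rt, (X - C s) := by
  classical
  have hm : ((gk k (gAB A B)).map (algebraMap k[X] M)).Monic := ((gAB_monic A B h.monic h.lt).map _).map _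
  have hm' : (∏ s ∈ Rt, (X - C s) : M[X]).Monic := monic_prod_of_monic _ _ fun j _ => monic_X_sub_C _
  have hd : (∏ s ∈ Rt, (X - C s)) ∣ (gk k (gAB A B)).map (algebraMap k[X] M) := by
    apply Finset.prod_dvd_of_coprime
    · intro i _ j _ hij
      exact isCoprime_X_sub_C_of_isUnit_sub (sub_ne_zero.2 hij).isUnit
    · intro s hs
      rw [dvd_iff_isRoot, IsRoot.def, eval_map]
      exact h.root s hs
  refine (eq_of_monic_of_dvd_of_natDegree_le hm' hm hd ?_)
  rw [natDegree_prod_of_monic _ _ fun j _ => monic_X_sub_C _]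
  unfold gk
  rw [((gAB_monic A B h.monic h.lt).map _).natDegree_map, (gAB_monic A B h.monic h.lt).natDegree_map,
    gAB_natDegree A B h.monic h.lt]
  simp [h.card]

theorem Full.mem {A B : F[X]} {Rt : Finset M} (h : Full k A B Rt) (s : M) (hs : evM k (gAB A B) s = 0) :
    s ∈ Rt := by
  classical
  have h1 : ((gk k (gAB A B)).map (algebraMap k[X] M)).eval s = 0 := by
    rw [eval_map]
    exact hs
  rw [h.prod, eval_prod, Finset.prod_eq_zero_iff] at h1
  obtain ⟨t, ht, h2⟩ := h1
  rw [eval_sub, eval_X, eval_C, sub_eq_zero] at h2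
  rwa [h2]

theorem Full.deriv_ne {A B : F[X]} {Rt : Finset M} (h : Full k A B Rt) (s : M)
    (hs : evM k (gAB A B) s = 0) : evM k (derivative (gAB A B)) s ≠ 0 := by
  classical
  have hsep : ((gk k (gAB A B)).map (algebraMap k[X] M)).Separable := by
    rw [h.prod]
    exact separable_prod_X_sub_C_iff'.2 (fun x _ y _ hxy => hxy)
  have h1 : ((gk k (gAB A B)).map (algebraMap k[X] M)).eval s = 0 := by
    rw [eval_map]
    exact hs
  have h2 := hsep.eval₂_derivative_ne_zero (RingHom.id M) (x := s) (by rw [eval₂_id]; exact h1)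
  rw [eval₂_id, derivative_map, eval_map] at h2
  unfold evM gk
  rw [← derivative_map]
  exact h2

end

end Pool.Agent.H470
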