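import Pool.Agent.H470.Sec2

/-!
# Counting rational points in the sectors
-/

set_option autoImplicit false
set_option linter.all false

open Polynomial

namespace Pool.Agent.H470

section
variable {F k : Type} [Field F] [Field k] [Algebra F k]
variable {M : Type} [Field M] [Algebra (RatFunc k) M] [Algebra k[X] M] [IsScalarTower k[X] (RatFunc k) M]

/-- `P(1 - X)` up to sign -/
noncomputable def flipP (n : ℕ) (P : F[X]) : F[X] := C ((-1) ^ n) * P.comp (1 - X)

theorem one_sub_X_natDegree : (1 - X : F[X]).natDegree = 1 := by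
  have : (1 - X : F[X]) = C (-1) * X + C 1 := by simp; ring
  rw [this]
  exact natDegree_linear (neg_ne_zero.2 one_ne_zero)

theorem one_sub_X_lc : (1 - X : F[X]).leadingCoeff = -1 := by
  have : (1 - X : F[X]) = C (-1) * X + C 1 := by simp; ring
  rw [this]
  exact leadingCoeff_linear (neg_ne_zero.2 one_ne_zero)

theorem flipP_natDegree (n : ℕ) (P : F[X]) : (flipP n P).natDegree = P.natDegree := by
  unfold flipP
  rw [natDegree_C_mul (pow_ne_zero _ (neg_ne_zero.2 one_ne_zero)), natDegree_comp, one_sub_X_natDegree, mul_one]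

theorem flipP_monic (P : F[X]) (hP : P.Monic) : (flipP P.natDegree P).Monic := by
  unfold flipP Monic
  rw [leadingCoeff_mul, leadingCoeff_C, leadingCoeff_comp (by rw [one_sub_X_natDegree]; exact one_ne_zero),
    one_sub_X_lc, hP.leadingCoeff, one_mul, ← mul_pow]
  simp

theorem flipP_degree (n : ℕ) (P : F[X]) : (flipP n P).degree = P.degree := by
  by_cases hP : P = 0
  · simp [flipP, hP]
  have h1 : flipP n P ≠ 0 := by
    unfold flipP
    refine mul_ne_zero (C_ne_zero.2 (pow_ne_zero _ (neg_ne_zero.2 one_ne_zero))) ?_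
    intro h
    rcases comp_eq_zero_iff.1 h with h2 | ⟨-, h2⟩
    · exact hP h2
    · have := one_sub_X_natDegree (F := F)
      rw [h2, natDegree_C] at this
      exact zero_ne_one this
  rw [degree_eq_natDegree h1, degree_eq_natDegree hP, flipP_natDegree]

theorem evM_flip (n : ℕ) (A B : F[X]) (y : M) :
    evM k (gAB (flipP n A) (flipP n B)) y = (-1) ^ n * evM k (gAB A B) (1 - y) := by
  rw [evM_gAB, evM_gAB]
  have : ∀ P : F[X], eval₂ ((algebraMap k[X] M).comp (C.comp (algebraMap F k))) y (flipP n P) =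
      (-1) ^ n * eval₂ ((algebraMap k[X] M).comp (C.comp (algebraMap F k))) (1 - y) P := by
    intro P
    unfold flipP
    rw [eval₂_mul, eval₂_C, eval₂_comp]
    simp
  rw [this, this]
  ring

theorem Full.flip {A B : F[X]} {Rt : Finset M} [DecidableEq M] (h : Full k A B Rt) :
    Full k (flipP A.natDegree A) (flipP A.natDegree B) (Rt.image fun s => 1 - s) := by
  refine ⟨flipP_monic A h.monic, ?_, ?_, ?_, ?_⟩
  · rw [flipP_natDegree]
    exact h.pos
  · rw [flipP_degree, flipP_degree]
    exact h.lt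
  · rw [Finset.card_image_of_injective _ (fun a b hab => by linear_combination -hab), h.card, flipP_natDegree]
  · intro s hs
    rw [Finset.mem_image] at hs
    obtain ⟨s', hs', rfl⟩ := hs
    rw [evM_flip, sub_sub_cancel, h.root s' hs', mul_zero]

end

section
variable {F k : Type} [Field F] [Fintype F] [Field k] [Algebra F k] [IsAlgClosed k]
variable {M : Type} [Field M] [Algebra (RatFunc k) M] [Algebra k[X] M] [IsScalarTower k[X] (RatFunc k) M]

/-- the class of a fixed element modulo `h`-th powers -/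
def cl (k : Type) [Field k] {F : Type} [Field F] [Algebra F k] {M : Type} [Field M] [Algebra k[X] M]
    (h : ℕ) (Ψ : M →+* M) (u : M) (z : F) : Prop :=
  ∃ ω : M, ω ^ h = u ∧ Ψ ω = cM k z * ω

/-- roots of unity -/
theorem root_unity (h : ℕ) (hh : 0 < h) (hd : h ∣ Fintype.card F - 1) (ζ : M) (hζ : ζ ^ h = 1) :
    ∃ z : F, z ^ h = 1 ∧ cM k z = ζ := by
  classical
  -- `F` contains `h` roots of unity
  obtain ⟨g, hg⟩ := IsCyclic.exists_generator (α := Fˣ)
  have hcard : Fintype.card Fˣ = Fintype.card F - 1 := Fintype.card_units _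
  have hord : orderOf g = Fintype.card F - 1 := by
    rw [← hcard, ← Nat.card_eq_fintype_card]
    exact orderOf_eq_card_of_forall_mem_zpowers hg
  obtain ⟨r, hr⟩ := hd
  have hq : 0 < Fintype.card F - 1 := by
    have : 1 < Fintype.card F := Fintype.one_lt_card
    omega
  have hr0 : r ≠ 0 := by
    rintro rfl
    omega
  set ρ : F := ((g ^ r : Fˣ) : F) with hρ
  have hprim : IsPrimitiveRoot ρ h := by
    have h1 : orderOf (g ^ r) = h := by
      rw [orderOf_pow, hord, hr, Nat.gcd_comm, Nat.gcd_mul_left_right]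
      exact Nat.mul_div_cancel _ (Nat.pos_of_ne_zero hr0)
    have h2 : IsPrimitiveRoot (g ^ r) h := by
      rw [← h1]
      exact IsPrimitiveRoot.orderOf _
    exact h2.map_of_injective (f := Units.coeHom F) Units.val_injective
  have hprimM : IsPrimitiveRoot (cM k (M := M) ρ) h := by
    have h3 : IsPrimitiveRoot (((algebraMap k[X] M).comp (C.comp (algebraMap F k))) ρ) h :=
      hprim.map_of_injective (f := (algebraMap k[X] M).comp (C.comp (algebraMap F k))) (by
        intro a b hab
        exact cM_inj (k := k) (M := M) hab)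
    exact h3
  haveI : NeZero h := ⟨hh.ne'⟩
  obtain ⟨i, -, hi⟩ := hprimM.eq_pow_of_pow_eq_one hζ
  refine ⟨ρ ^ i, ?_, ?_⟩
  · rw [← pow_mul, mul_comm, pow_mul, hprim.pow_eq_one, one_pow]
  · rw [cM_pow]
    exact hi

/-- the class exists -/
theorem exists_cl (h : ℕ) (hh : 0 < h) (hd : h ∣ Fintype.card F - 1) (Ψ : M →+* M) (u : M) (hu : u ≠ 0)
    (hΨ : Ψ u = u) (hω : ∃ ω : M, ω ^ h = u) : ∃ z : F, z ^ h = 1 ∧ cl k h Ψ u z := by
  obtain ⟨ω, hω⟩ := hω
  have hω0 : ω ≠ 0 := by
    rintro rfl
    rw [zero_pow hh.ne'] at hω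
    exact hu hω.symm
  have h1 : (Ψ ω / ω) ^ h = 1 := by
    rw [div_pow, ← map_pow, hω, hΨ, div_self hu]
  obtain ⟨z, hz, hz2⟩ := root_unity (F := F) (k := k) h hh hd _ h1
  refine ⟨z, hz, ω, hω, ?_⟩
  rw [hz2]
  field_simp

end

end Pool.Agent.H470
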