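import Pool.Agent.H470.Sec3

/-!
# Transfer of the counts
-/

set_option autoImplicit false
set_option linter.all false

open Polynomial

namespace Pool.Agent.H470

section
variable {F k : Type} [Field F] [Fintype F] [Field k] [Algebra F k] [IsAlgClosed k]
variable {M : Type} [Field M] [Algebra (RatFunc k) M] [Algebra k[X] M] [IsScalarTower k[X] (RatFunc k) M]

/-- one sector -/
theorem transfer {Ψ : M →+* M} (hΨ : Semi F (k := k) Ψ) (h : ℕ) (hh : 0 < h)
    (hd : h ∣ Fintype.card F - 1) {A B : F[X]} {Rt : Finset M} (hF : Full k A B Rt)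
    (h0 : A.eval 0 ≠ 0 ∨ B.eval 0 ≠ 0) (h1 : A.eval 1 ≠ 0 ∨ B.eval 1 ≠ 0)
    (hω : ∀ s ∈ Rt, (∃ ω, ω ^ h = s) ∧ ∃ ω, ω ^ h = 1 - s) (t0 : F)
    (R : Subalgebra k[X] M) (ev : R →+* k)
    (ev1 : ∀ p : k[X], ev (algebraMap k[X] R p) = p.eval (algebraMap F k t0))
    (ev2 : ∀ a b : R, Ψ (a : M) = b → ev b = fr F k (ev a))
    (hR : ∀ y : M, (evM k (gAB A B) y = 0 ∨ evM k (gAB A B) (y ^ h) = 0 ∨ evM k (gAB A B) (1 - y ^ h) = 0) →
      y ∈ R)
    (hsep : (A - C t0 * B).Separable) (ht0 : A.eval 0 - t0 * B.eval 0 ≠ 0)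
    (ht1 : A.eval 1 - t0 * B.eval 1 ≠ 0) (z1 z2 : F) :
    {x : F | (A - C t0 * B).eval x = 0 ∧ x ^ ((Fintype.card F - 1) / h) = z1 ∧
        (1 - x) ^ ((Fintype.card F - 1) / h) = z2}.ncard =
      {s : M | s ∈ Rt ∧ Ψ s = s ∧ cl k h Ψ s z1 ∧ cl k h Ψ (1 - s) z2}.ncard := by
  classical
  have hRtR : ∀ s ∈ Rt, s ∈ R := fun s hs => hR s (Or.inl (hF.root s hs))
  have hq1 : 1 < Fintype.card F := Fintype.one_lt_card
  obtain ⟨r, hr⟩ := hd
  have hr' : (Fintype.card F - 1) / h = r := by rw [hr]; exact Nat.mul_div_cancel_left _ hh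
  rw [hr']
  have hconst : ∀ z : F, cM k (M := M) z ∈ R := fun z => R.algebraMap_mem _
  have evc : ∀ z : F, ev ⟨cM k z, hconst z⟩ = algebraMap F k z := by
    intro z
    have := ev1 (C (algebraMap F k z))
    rw [eval_C] at this
    exact this
  -- the roots of the specialisation
  have hprodR : ((gk k (gAB A B)).map (algebraMap k[X] R)) = ∏ s : Rt, (X - C (⟨s.1, hRtR _ s.2⟩ : R)) := by
    apply Polynomial.map_injective (algebraMap R M) Subtype.val_injective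
    rw [Polynomial.map_map, ← IsScalarTower.algebraMap_eq, hF.prod, Polynomial.map_prod,
      ← Finset.prod_coe_sort]
    refine Finset.prod_congr rfl fun s _ => ?_
    rw [Polynomial.map_sub, map_X, map_C]
    rfl
  have hprod : (A - C t0 * B).map (algebraMap F k) = ∏ s : Rt, (X - C (ev ⟨s.1, hRtR _ s.2⟩)) := by
    have h1 := congrArg (Polynomial.map ev) hprodR
    rw [Polynomial.map_map, Polynomial.map_prod] at h1
    have h2 : ev.comp (algebraMap k[X] R) = evalRingHom (algebraMap F k t0) := RingHom.ext ev1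
    unfold gk at h1
    rw [h2, Polynomial.map_map] at h1
    have h3 : (evalRingHom (algebraMap F k t0)).comp (mapRingHom (algebraMap F k)) =
        (algebraMap F k).comp (evalRingHom t0) := by
      apply Polynomial.ringHom_ext
      · intro c; simp
      · simp
    rw [h3, ← Polynomial.map_map, gAB_spec] at h1
    rw [h1]
    refine Finset.prod_congr rfl fun s _ => ?_
    rw [Polynomial.map_sub, map_X, map_C]
  have hinj : Function.Injective fun s : Rt => ev ⟨s.1, hRtR _ s.2⟩ := by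
    have h1 : (∏ s : Rt, (X - C (ev ⟨s.1, hRtR _ s.2⟩))).Separable := by rw [← hprod]; exact hsep.map
    exact separable_prod_X_sub_C_iff.1 h1
  have hrootx : ∀ x : F, (A - C t0 * B).eval x = 0 ↔ ∃ s : Rt, ev ⟨s.1, hRtR _ s.2⟩ = algebraMap F k x := by
    intro x
    rw [← map_eq_zero_iff _ (algebraMap F k).injective, ← eval_map_apply, hprod, eval_prod,
      Finset.prod_eq_zero_iff]
    constructor
    · rintro ⟨s, -, hs⟩
      rw [eval_sub, eval_X, eval_C, sub_eq_zero] at hs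
      exact ⟨s, hs.symm⟩
    · rintro ⟨s, hs⟩
      exact ⟨s, Finset.mem_univ _, by rw [eval_sub, eval_X, eval_C, hs, sub_self]⟩
  have hx0 : ∀ x : F, (A - C t0 * B).eval x = 0 → x ≠ 0 := by
    rintro x hx rfl
    apply ht0
    rw [eval_sub, eval_mul, eval_C] at hx
    exact hx
  have hx1 : ∀ x : F, (A - C t0 * B).eval x = 0 → 1 - x ≠ 0 := by
    intro x hx h2
    apply ht1
    have : x = 1 := by linear_combination -h2
    rw [this, eval_sub, eval_mul, eval_C] at hx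
    exact hx
  have hΨroot : ∀ y : M, evM k (gAB A B) y = 0 → evM k (gAB A B) (Ψ y) = 0 := by
    intro y hy
    have h1 := hΨ.aeval y (gk k (gAB A B))
    have h2 : (gk k (gAB A B)).map (mapRingHom (fr F k)) = gk k (gAB A B) := by
      unfold gk
      rw [Polynomial.map_map]
      congr 1
      apply Polynomial.ringHom_ext
      · intro c
        simp [fr_algebraMap]
      · simp
    rw [h2] at h1
    show aeval (Ψ y) (gk k (gAB A B)) = 0
    rw [← h1]
    show Ψ (evM k (gAB A B) y) = 0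
    rw [hy, map_zero]
  -- nonzero roots
  have hs0 : ∀ s ∈ Rt, s ≠ 0 := by
    rintro s hs rfl
    have h2 := evM_gAB_const_ne (k := k) (M := M) A B 0 h0
    rw [cM_zero] at h2
    exact h2 (hF.root _ hs)
  have hs1 : ∀ s ∈ Rt, 1 - s ≠ 0 := by
    intro s hs h2
    have h3 := evM_gAB_const_ne (k := k) (M := M) A B 1 h1
    rw [cM_one] at h3
    have : s = 1 := by linear_combination -h2
    rw [this] at hs
    exact h3 (hF.root _ hs)
  -- the classes
  have hclass : ∀ (u : M) (hu : u ∈ R) (x : F), x ≠ 0 → ev ⟨u, hu⟩ = algebraMap F k x →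
      (∀ ω : M, ω ^ h = u → ω ∈ R) → ∀ z : F, cl k h Ψ u z → x ^ r = z := by
    rintro u hu x hx hevx hmem z ⟨ω, hω1, hω2⟩
    have hωR := hmem ω hω1
    have hωR2 : cM k z * ω ∈ R := R.mul_mem (hconst z) hωR
    have e1 := ev2 ⟨ω, hωR⟩ ⟨cM k z * ω, hωR2⟩ hω2
    have e2 : ev ⟨cM k z * ω, hωR2⟩ = algebraMap F k z * ev ⟨ω, hωR⟩ := by
      rw [← evc z, ← map_mul]
      rfl
    have e3 : ev ⟨ω, hωR⟩ ^ h = algebraMap F k x := by
      rw [← map_pow, ← hevx]
      congr 1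
      exact Subtype.ext hω1
    have e4 : ev ⟨ω, hωR⟩ ≠ 0 := by
      intro h4
      rw [h4, zero_pow hh.ne'] at e3
      apply hx
      apply (algebraMap F k).injective
      rw [← e3, map_zero]
    rw [e2, fr_apply, Nat.card_eq_fintype_card] at e1
    have e5 : ev ⟨ω, hωR⟩ ^ (Fintype.card F - 1) = algebraMap F k z := by
      apply mul_right_cancel₀ e4
      rw [← pow_succ, Nat.sub_add_cancel hq1.le, e1]
    apply (algebraMap F k).injective
    rw [map_pow, ← e3, ← pow_mul, ← hr, e5]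
  -- the map
  have hfix : ∀ s ∈ Rt, ∀ (hs : s ∈ R), Ψ s = s → ∃ x : F, algebraMap F k x = ev ⟨s, hs⟩ := by
    intro s hs hsR hΨs
    exact fr_fixed F k _ (ev2 ⟨s, hsR⟩ ⟨s, hsR⟩ hΨs).symm
  have hmem1 : ∀ s ∈ Rt, ∀ ω : M, ω ^ h = s → ω ∈ R := by
    intro s hs ω hω'
    apply hR
    right; left
    rw [hω']
    exact hF.root s hs
  have hmem2 : ∀ s ∈ Rt, ∀ ω : M, ω ^ h = 1 - s → ω ∈ R := by
    intro s hs ω hω'
    apply hR
    right; right
    rw [hω', sub_sub_cancel]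
    exact hF.root s hs
  have h1s : ∀ s ∈ Rt, 1 - s ∈ R := fun s hs => R.sub_mem R.one_mem (hRtR s hs)
  have hev1s : ∀ s (hs : s ∈ Rt), ev ⟨1 - s, h1s s hs⟩ = 1 - ev ⟨s, hRtR s hs⟩ := by
    intro s hs
    rw [← map_one ev, ← map_sub]
    rfl
  symm
  refine Set.ncard_congr (fun s hs => (hfix s hs.1 (hRtR s hs.1) hs.2.1).choose) ?_ ?_ ?_
  · rintro s ⟨hs, hΨs, hc1, hc2⟩
    have hx := (hfix s hs (hRtR s hs) hΨs).choose_spec
    set x := (hfix s hs (hRtR s hs) hΨs).choose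
    have hxr : (A - C t0 * B).eval x = 0 := (hrootx x).2 ⟨⟨s, hs⟩, hx.symm⟩
    refine ⟨hxr, ?_, ?_⟩
    · exact hclass s (hRtR s hs) x (hx0 x hxr) hx.symm (hmem1 s hs) z1 hc1
    · refine hclass (1 - s) (h1s s hs) (1 - x) (hx1 x hxr) ?_ (hmem2 s hs) z2 hc2
      rw [hev1s s hs, ← hx, map_sub, map_one]
  · rintro s s' hs hs' hxx
    have hx := (hfix s hs.1 (hRtR s hs.1) hs.2.1).choose_spec
    have hx' := (hfix s' hs'.1 (hRtR s' hs'.1) hs'.2.1).choose_spec
    have h3 : ev ⟨s, hRtR s hs.1⟩ = ev ⟨s', hRtR s' hs'.1⟩ := by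
      rw [← hx, ← hx']
      exact congrArg _ hxx
    have h4 := hinj (a₁ := ⟨s, hs.1⟩) (a₂ := ⟨s', hs'.1⟩) h3
    exact congrArg Subtype.val h4
  · rintro x ⟨hxr, hxz1, hxz2⟩
    obtain ⟨⟨s, hs⟩, hevs⟩ := (hrootx x).1 hxr
    simp only at hevs
    have hΨs : Ψ s ∈ Rt := hF.mem _ (hΨroot s (hF.root s hs))
    have hΨs' : Ψ s = s := by
      have e1 := ev2 ⟨s, hRtR s hs⟩ ⟨Ψ s, hRtR _ hΨs⟩ rfl
      rw [hevs, fr_algebraMap, ← hevs] at e1
      have h4 := hinj (a₁ := ⟨Ψ s, hΨs⟩) (a₂ := ⟨s, hs⟩) e1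
      exact congrArg Subtype.val h4
    obtain ⟨z1', -, hz1'⟩ := exists_cl (F := F) (k := k) h hh ⟨r, hr⟩ Ψ s (hs0 s hs) hΨs' (hω s hs).1
    obtain ⟨z2', -, hz2'⟩ := exists_cl (F := F) (k := k) h hh ⟨r, hr⟩ Ψ (1 - s) (hs1 s hs)
      (by rw [map_sub, map_one, hΨs']) (hω s hs).2
    have e1 := hclass s (hRtR s hs) x (hx0 x hxr) hevs (hmem1 s hs) z1' hz1'
    have e2 := hclass (1 - s) (h1s s hs) (1 - x) (hx1 x hxr)
      (by rw [hev1s s hs, hevs, map_sub, map_one]) (hmem2 s hs) z2' hz2'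
    rw [hxz1] at e1
    rw [hxz2] at e2
    rw [← e1] at hz1'
    rw [← e2] at hz2'
    have hset : s ∈ Rt ∧ Ψ s = s ∧ cl k h Ψ s z1 ∧ cl k h Ψ (1 - s) z2 := ⟨hs, hΨs', hz1', hz2'⟩
    refine ⟨s, hset, ?_⟩
    have hx := (hfix s hset.1 (hRtR s hset.1) hset.2.1).choose_spec
    apply (algebraMap F k).injective
    rw [hx, hevs]

end

end Pool.Agent.H470
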