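import Pool.Agent.H470.Sec4

/-!
# The local-global principle with sectors
-/

set_option autoImplicit false
set_option linter.all false

open Polynomial

namespace Pool.Agent.H470

theorem gAB_CD {F : Type} [Field F] (A B : F[X]) : CD (gAB A B) 1 := gAB_coeff A B

theorem evM_poly_root {F k : Type} [Field F] [Finite F] [Field k] [Algebra F k] [IsAlgClosed k] {M : Type} [Field M]
    [Algebra (RatFunc k) M] [Algebra k[X] M] [IsScalarTower k[X] (RatFunc k) M] {Ψ : M →+* M}
    (hΨ : Semi F (k := k) Ψ) (g : F[X][X]) (y : M) (hy : evM k g y = 0) : evM k g (Ψ y) = 0 := by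
  have h1 := hΨ.aeval y (gk k g)
  have h2 : (gk k g).map (mapRingHom (fr F k)) = gk k g := by
    unfold gk
    rw [Polynomial.map_map]
    congr 1
    apply Polynomial.ringHom_ext
    · intro c
      simp [fr_algebraMap]
    · simp
  rw [h2] at h1
  show aeval (Ψ y) (gk k g) = 0
  rw [← h1]
  show Ψ (evM k g y) = 0
  rw [hy, map_zero]

/-- **The local-global principle with sectors.** -/
theorem sec (h m sz β : ℕ) (hh : 0 < h) (hm : 0 < m) (hsz : 0 < sz) : ∃ C0 : ℕ, ∀ (F : Type) [Field F] [Fintype F]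
    [DecidableEq F] (k : Type) [Field k]
    [IsAlgClosed k] [Algebra F k] [Algebra.IsAlgebraic F k] (M : Type) [Field M]
    [Algebra (RatFunc k) M] [Algebra k[X] M] [IsScalarTower k[X] (RatFunc k) M] (Ψ : M →+* M),
    Semi F (k := k) Ψ → h ∣ Fintype.card F - 1 → ∀ (I : Type) (S : Finset I), S.card ≤ sz →
    ∀ (A B : I → F[X]) (Rt : I → Finset M),
    (∀ c ∈ S, Full k (A c) (B c) (Rt c) ∧ (A c).natDegree ≤ m ∧ ((A c).eval 0 ≠ 0 ∨ (B c).eval 0 ≠ 0) ∧
      ((A c).eval 1 ≠ 0 ∨ (B c).eval 1 ≠ 0)) →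
    (∀ c ∈ S, ∀ s ∈ Rt c, (∃ ω, ω ^ h = s) ∧ ∃ ω, ω ^ h = 1 - s) →
    ∀ (Bad : Finset F), Bad.card ≤ β → C0 < Nat.card F →
    ∃ t0 ∉ Bad, ∀ c ∈ S, ∀ z1 z2 : F,
      {x : F | (A c - C t0 * B c).eval x = 0 ∧ x ^ ((Fintype.card F - 1) / h) = z1 ∧
          (1 - x) ^ ((Fintype.card F - 1) / h) = z2}.ncard =
        {s : M | s ∈ Rt c ∧ Ψ s = s ∧ cl k h Ψ s z1 ∧ cl k h Ψ (1 - s) z2}.ncard := by
  classical
  obtain ⟨C0, hC0⟩ := lgE (sz * (m + h * m + h * m)) (sz * (1 + 1 + 1)) (β + sz + sz + sz * (2 * m * 1))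
    (by positivity)
  refine ⟨C0, ?_⟩
  intro F _ _ _ k _ _ _ _ M _ _ _ _ Ψ hΨ hdvd I S hS A B Rt hAB hω Bad hBad hC
  -- `h` is not zero in `M`
  have hhM : (h : M) ≠ 0 := by
    have hhF : (h : F) ≠ 0 := by
      intro h0
      have h1 : ((Fintype.card F - 1 : ℕ) : F) = 0 := by
        obtain ⟨r, hr⟩ := hdvd
        rw [hr]
        push_cast
        rw [h0, zero_mul]
      have h2 : 1 ≤ Fintype.card F := Fintype.card_pos
      rw [Nat.cast_sub h2, FiniteField.cast_card_eq_zero] at h1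
      simp at h1
    intro h0
    apply hhF
    apply cM_inj (k := k) (M := M)
    rw [cM_zero, ← h0]
    unfold cM
    simp
  -- the polynomials
  set G : I → F[X][X] := fun c => gAB (A c) (B c) with hG
  set G' : I → F[X][X] := fun c => gAB (flipP (A c).natDegree (A c)) (flipP (A c).natDegree (B c)) with hG'
  set gc : I → F[X][X] := fun c => G c * expand F[X] h (G c) * expand F[X] h (G' c) with hgc
  set g : F[X][X] := ∏ c ∈ S, gc c with hg
  have hGm : ∀ c ∈ S, (G c).Monic := fun c hc => gAB_monic _ _ (hAB c hc).1.monic (hAB c hc).1.lt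
  have hG'm : ∀ c ∈ S, (G' c).Monic := fun c hc =>
    gAB_monic _ _ (hAB c hc).1.flip.monic (hAB c hc).1.flip.lt
  have hGd : ∀ c ∈ S, (G c).natDegree ≤ m := fun c hc => by
    rw [hG]
    simp only
    rw [gAB_natDegree _ _ (hAB c hc).1.monic (hAB c hc).1.lt]
    exact (hAB c hc).2.1
  have hG'd : ∀ c ∈ S, (G' c).natDegree ≤ m := fun c hc => by
    rw [hG']
    simp only
    rw [gAB_natDegree _ _ (hAB c hc).1.flip.monic (hAB c hc).1.flip.lt, flipP_natDegree]
    exact (hAB c hc).2.1
  have hgcm : ∀ c ∈ S, (gc c).Monic := fun c hc =>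
    ((hGm c hc).mul ((hGm c hc).expand hh)).mul ((hG'm c hc).expand hh)
  have hgm : g.Monic := monic_prod_of_monic _ _ hgcm
  have hgd : g.natDegree ≤ sz * (m + h * m + h * m) := by
    rw [hg, natDegree_prod_of_monic _ _ hgcm]
    refine (Finset.sum_le_card_nsmul _ _ (m + h * m + h * m) ?_).trans ?_
    · intro c hc
      refine natDegree_mul_le.trans (add_le_add (natDegree_mul_le.trans (add_le_add (hGd c hc) ?_)) ?_)
      · rw [natDegree_expand, mul_comm]
        exact Nat.mul_le_mul_left _ (hGd c hc)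
      · rw [natDegree_expand, mul_comm]
        exact Nat.mul_le_mul_left _ (hG'd c hc)
    · rw [smul_eq_mul]
      exact Nat.mul_le_mul_right _ hS
  have hgc' : ∀ i, (g.coeff i).natDegree ≤ sz * (1 + 1 + 1) := by
    intro i
    refine (CD.prod S gc (1 + 1 + 1) ?_ i).trans (Nat.mul_le_mul_right _ hS)
    intro c hc
    exact ((gAB_CD _ _).mul ((gAB_CD _ _).expand h hh)).mul ((gAB_CD _ _).expand h hh)
  -- the roots
  set gM : M[X] := (gk k g).map (algebraMap k[X] M) with hgM
  have hgMm : gM.Monic := (hgm.map _).map _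
  set Y : Finset M := gM.roots.toFinset with hY
  have hmemY : ∀ y : M, y ∈ Y ↔ evM k g y = 0 := by
    intro y
    rw [hY, Multiset.mem_toFinset, mem_roots hgMm.ne_zero, IsRoot.def, hgM, eval_map]
    rfl
  have hmemY' : ∀ y : M, y ∈ Y ↔ ∃ c ∈ S, evM k (G c) y = 0 ∨ evM k (G c) (y ^ h) = 0 ∨
      evM k (G' c) (y ^ h) = 0 := by
    intro y
    rw [hmemY, hg, evM_prod, Finset.prod_eq_zero_iff]
    constructor
    · rintro ⟨c, hc, h0⟩
      refine ⟨c, hc, ?_⟩
      rw [hgc] at h0
      simp only at h0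
      rw [evM_mul, evM_mul, evM_expand, evM_expand, mul_eq_zero, mul_eq_zero, or_assoc] at h0
      exact h0
    · rintro ⟨c, hc, h0⟩
      refine ⟨c, hc, ?_⟩
      rw [hgc]
      simp only
      rw [evM_mul, evM_mul, evM_expand, evM_expand, mul_eq_zero, mul_eq_zero, or_assoc]
      exact h0
  have hYcard : Fintype.card Y ≤ sz * (m + h * m + h * m) := by
    rw [Fintype.card_coe, hY]
    refine (Multiset.toFinset_card_le _).trans ((card_roots' _).trans ?_)
    rw [hgM, (show (gk k g).Monic from hgm.map _).natDegree_map]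
    unfold gk
    rw [hgm.natDegree_map]
    exact hgd
  have hΨY : ∀ y ∈ Y, Ψ y ∈ Y := by
    intro y hy
    rw [hmemY] at hy ⊢
    exact evM_poly_root hΨ g y hy
  let f : Y → Y := fun y => ⟨Ψ y.1, hΨY y.1 y.2⟩
  have hfinj : Function.Injective f := by
    intro a b hab
    apply Subtype.ext
    apply Ψ.injective
    exact congrArg Subtype.val hab
  let σ : Equiv.Perm Y := Equiv.ofBijective f (Finite.injective_iff_bijective.1 hfinj)
  -- nonvanishing of the roots
  have hne0 : ∀ c ∈ S, ∀ s : M, evM k (G c) s = 0 → s ≠ 0 := by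
    rintro c hc s hs rfl
    have h2 := evM_gAB_const_ne (k := k) (M := M) (A c) (B c) 0 (hAB c hc).2.2.1
    rw [cM_zero] at h2
    exact h2 hs
  have hne1 : ∀ c ∈ S, ∀ s : M, evM k (G c) s = 0 → 1 - s ≠ 0 := by
    intro c hc s hs h2
    have h3 := evM_gAB_const_ne (k := k) (M := M) (A c) (B c) 1 (hAB c hc).2.2.2
    rw [cM_one] at h3
    have : s = 1 := by linear_combination -h2
    rw [this] at hs
    exact h3 hs
  have hflip : ∀ c ∈ S, ∀ s : M, evM k (G' c) s = 0 → evM k (G c) (1 - s) = 0 := by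
    intro c hc s hs
    rw [hG'] at hs
    simp only at hs
    rw [evM_flip] at hs
    exact (mul_eq_zero.1 hs).resolve_left (pow_ne_zero _ (neg_ne_zero.2 one_ne_zero))
  have hsepY : ∀ y : Y, IsSeparable (RatFunc k) (y : M) := by
    rintro ⟨y, hy⟩
    obtain ⟨c, hc, h0 | h0 | h0⟩ := (hmemY' y).1 hy
    · exact sep_of_evM (G c) y h0 ((hAB c hc).1.deriv_ne y h0)
    · refine sep_of_evM (expand F[X] h (G c)) y (by rw [evM_expand]; exact h0) ?_
      rw [evM_deriv_expand]
      refine mul_ne_zero (mul_ne_zero hhM (pow_ne_zero _ ?_)) ((hAB c hc).1.deriv_ne _ h0)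
      intro h1
      apply hne0 c hc _ h0
      rw [h1, zero_pow hh.ne']
    · refine sep_of_evM (expand F[X] h (G' c)) y (by rw [evM_expand]; exact h0) ?_
      rw [evM_deriv_expand]
      refine mul_ne_zero (mul_ne_zero hhM (pow_ne_zero _ ?_)) ((hAB c hc).1.flip.deriv_ne _ h0)
      intro h1
      apply hne1 c hc _ (hflip c hc _ h0)
      rw [h1, zero_pow hh.ne']
      ring
  -- Bezout
  have hbez : ∀ c ∈ S, ∃ (A' B' : F[X][X]) (D : F[X]), A' * G c + B' * derivative (G c) = C D ∧ D ≠ 0 ∧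
      D.natDegree ≤ 2 * m * 1 := by
    intro c hc
    set ι' : F[X] →+* RatFunc k := (algebraMap k[X] (RatFunc k)).comp (mapRingHom (algebraMap F k)) with hι'
    have hιi : Function.Injective ι' :=
      (IsFractionRing.injective k[X] (RatFunc k)).comp (Polynomial.map_injective _ (algebraMap F k).injective)
    have hsep : ((G c).map ι').Separable := by
      rw [← separable_map (algebraMap (RatFunc k) M), Polynomial.map_map, hι', ← RingHom.comp_assoc,
        ← IsScalarTower.algebraMap_eq, ← Polynomial.map_map]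
      have := (hAB c hc).1.prod
      unfold gk at this
      rw [hG]
      simp only
      rw [this]
      exact separable_prod_X_sub_C_iff'.2 (fun x _ y _ hxy => hxy)
    obtain ⟨A', B', D, e1, e2, e3⟩ := exists_bezout ι' hιi (G c) (hGm c hc)
      (by rw [hG]; simp only; rw [gAB_natDegree _ _ (hAB c hc).1.monic (hAB c hc).1.lt]; exact (hAB c hc).1.pos)
      1 (gAB_CD _ _) hsep
    exact ⟨A', B', D, e1, e2, e3.trans (Nat.mul_le_mul_right _ (Nat.mul_le_mul_left _ (hGd c hc)))⟩
  choose! Ag Bg Dg hDg hDg0 hDgd using hbez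
  set Bad' : Finset F := Bad ∪ S.image (fun c => (A c).eval 0 / (B c).eval 0) ∪
    S.image (fun c => (A c).eval 1 / (B c).eval 1) ∪ S.biUnion (fun c => (Dg c).roots.toFinset) with hBad'
  have hBadc : Bad'.card ≤ β + sz + sz + sz * (2 * m * 1) := by
    refine (Finset.card_union_le _ _).trans (add_le_add ((Finset.card_union_le _ _).trans
      (add_le_add ((Finset.card_union_le _ _).trans (add_le_add hBad ?_)) ?_)) ?_)
    · exact Finset.card_image_le.trans hS
    · exact Finset.card_image_le.trans hS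
    · refine Finset.card_biUnion_le.trans ((Finset.sum_le_card_nsmul _ _ (2 * m * 1) ?_).trans ?_)
      · intro c hc
        exact (Multiset.toFinset_card_le _).trans ((card_roots' _).trans (hDgd c hc))
      · rw [smul_eq_mul]
        exact Nat.mul_le_mul_right _ hS
  obtain ⟨t0, ht0, R, ev, hyR, ev1, ev2⟩ := hC0 F k M Ψ hΨ g hgm hgd hgc' Y hYcard (fun y => (y : M))
    (fun y => (hmemY _).1 y.2) hsepY σ (fun y => rfl) Bad' hBadc hC
  rw [hBad', Finset.mem_union, Finset.mem_union, Finset.mem_union, not_or, not_or, not_or] at ht0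
  obtain ⟨⟨⟨ht0a, ht0b⟩, ht0c⟩, ht0d⟩ := ht0
  refine ⟨t0, ht0a, ?_⟩
  intro c hc z1 z2
  obtain ⟨hF, -, h0, h1⟩ := hAB c hc
  refine transfer hΨ h hh hdvd hF h0 h1 (hω c hc) t0 R ev ev1 ev2 ?_ ?_ ?_ ?_ z1 z2
  · intro y hy
    have : y ∈ Y := by
      rw [hmemY']
      refine ⟨c, hc, ?_⟩
      rcases hy with hy | hy | hy
      · exact Or.inl hy
      · exact Or.inr (Or.inl hy)
      · right; right
        rw [hG']
        simp only
        rw [evM_flip, hy, mul_zero]
    exact hyR ⟨y, this⟩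
  · have h3 : (Dg c).eval t0 ≠ 0 := by
      intro h4
      apply ht0d
      rw [Finset.mem_biUnion]
      refine ⟨c, hc, ?_⟩
      rw [Multiset.mem_toFinset, mem_roots (hDg0 c hc)]
      exact h4
    have h4 := separable_of_bezout _ _ _ _ (hDg c hc) t0 h3
    rw [hG] at h4
    simp only at h4
    rwa [gAB_spec] at h4
  · intro h3
    apply ht0b
    rw [Finset.mem_image]
    refine ⟨c, hc, ?_⟩
    have hB0 : (B c).eval 0 ≠ 0 := by
      intro h4
      rw [h4, mul_zero, sub_zero] at h3
      rcases h0 with h0 | h0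
      · exact h0 h3
      · exact h0 h4
    rw [div_eq_iff hB0]
    linear_combination h3
  · intro h3
    apply ht0c
    rw [Finset.mem_image]
    refine ⟨c, hc, ?_⟩
    have hB0 : (B c).eval 1 ≠ 0 := by
      intro h4
      rw [h4, mul_zero, sub_zero] at h3
      rcases h1 with h1 | h1
      · exact h1 h3
      · exact h1 h4
    rw [div_eq_iff hB0]
    linear_combination h3

end Pool.Agent.H470
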