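import Pool.Agent.H470.Sec5

/-!
# The local analysis with sectors
-/

set_option autoImplicit false
set_option linter.all false

open Polynomial

namespace Pool.Agent.H470

section
variable {k : Type} [Field k]

/-- the field of fractions of `k⟦X⟧`, as a field over `k(t)` by `t ↦ T` -/
def PSFT (T : k[X]) : Type := PSF k

noncomputable instance (T : k[X]) : Field (PSFT T) := inferInstanceAs (Field (PSF k))

noncomputable instance (T : k[X]) : Algebra k[X] (PSFT T) := (embT T).toAlgebra

noncomputable instance (T : k[X]) [hT : Fact (0 < T.natDegree)] : Algebra (RatFunc k) (PSFT T) :=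
  (IsFractionRing.lift (A := k[X]) (K := RatFunc k) (g := embT T) (embT_injective hT.out)).toAlgebra

instance (T : k[X]) [hT : Fact (0 < T.natDegree)] : IsScalarTower k[X] (RatFunc k) (PSFT T) := by
  apply IsScalarTower.of_algebraMap_eq
  intro p
  show embT T p = IsFractionRing.lift (embT_injective hT.out) (algebraMap k[X] (RatFunc k) p)
  rw [IsFractionRing.lift_algebraMap]

/-- the embedding of the power series -/
noncomputable def toT (T : k[X]) : PowerSeries k →+* PSFT T := toPSF k

theorem toT_injective (T : k[X]) : Function.Injective (toT T) := toPSF_injective k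

/-- the map induced on the coefficients -/
noncomputable def mapT (T : k[X]) (j : k →+* k) : PSFT T →+* PSFT T := psfMap j

theorem mapT_toT (T : k[X]) (j : k →+* k) (x : PowerSeries k) :
    mapT T j (toT T x) = toT T (PowerSeries.map j x) := psfMap_toPSF j x

theorem algT (T p : k[X]) : algebraMap k[X] (PSFT T) p = toT T ((p.comp T : k[X]) : PowerSeries k) := rfl

variable [IsAlgClosed k]

/-- roots of power series -/
theorem ps_root (h : ℕ) (hh : (h : k) ≠ 0) (u : PowerSeries k) (hu : PowerSeries.constantCoeff u ≠ 0) :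
    ∃ ω : PowerSeries k, ω ^ h = u := by
  have hh0 : h ≠ 0 := by
    rintro rfl
    simp at hh
  obtain ⟨w0, hw0⟩ := IsAlgClosed.exists_pow_nat_eq (PowerSeries.constantCoeff u) (Nat.pos_of_ne_zero hh0)
  obtain ⟨w, hw, -⟩ := hensel (X ^ h - C u) w0 (by simp [hw0]) (by
    rw [derivative_sub, derivative_X_pow, derivative_C, sub_zero]
    simp only [eval_mul, eval_natCast, eval_pow, eval_X, map_mul, map_natCast, map_pow,
      PowerSeries.constantCoeff_C, eval_C]
    refine mul_ne_zero hh (pow_ne_zero _ ?_)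
    rintro rfl
    rw [zero_pow hh0] at hw0
    exact hu hw0.symm)
  refine ⟨w, ?_⟩
  rw [eval_sub, eval_pow, eval_X, eval_C, sub_eq_zero] at hw
  exact hw

theorem ps_root' (h l : ℕ) (hh : (h : k) ≠ 0) (u : PowerSeries k) (hu : PowerSeries.constantCoeff u ≠ 0) :
    ∃ ω : PowerSeries k, ω ^ h = PowerSeries.X ^ (h * l) * u := by
  obtain ⟨ω, hω⟩ := ps_root h hh u hu
  exact ⟨PowerSeries.X ^ l * ω, by rw [mul_pow, hω, ← pow_mul, mul_comm l h]⟩

end

section
variable {F k : Type} [Field F] [Fintype F] [Field k] [Algebra F k] [IsAlgClosed k]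

theorem cM_toT (T : k[X]) (z : F) : cM k (M := PSFT T) z = toT T (PowerSeries.C (algebraMap F k z)) := by
  unfold cM
  rw [algT, C_comp, coe_C]

theorem semiT (T : k[X]) (hT : T.map (fr F k) = T) : Semi F (k := k) (mapT T (fr F k)) := by
  have h1 : PowerSeries.map (fr F k) (T : PowerSeries k) = (T : PowerSeries k) := by
    ext n
    rw [PowerSeries.coeff_map, coeff_coe]
    conv_rhs => rw [← hT]
    rw [coeff_map]
  constructor
  · intro x
    rw [algT, algT, C_comp, C_comp, coe_C, coe_C, mapT_toT, PowerSeries.map_C]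
  · rw [algT, X_comp, mapT_toT, h1]

/-- the class of a power series -/
theorem cl_ps (T : k[X]) [hT : Fact (0 < T.natDegree)] (h : ℕ) (hh : 0 < h) (hhk : (h : k) ≠ 0)
    (hd : h ∣ Fintype.card F - 1) (l : ℕ) (u : PowerSeries k) (x : F) (hx : x ≠ 0)
    (hu : PowerSeries.constantCoeff u = algebraMap F k x)
    (hfix : mapT T (fr F k) (toT T (PowerSeries.X ^ (h * l) * u)) = toT T (PowerSeries.X ^ (h * l) * u)) (z : F) :
    cl k h (mapT T (fr F k)) (toT T (PowerSeries.X ^ (h * l) * u)) z ↔ x ^ ((Fintype.card F - 1) / h) = z := by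
  have hxk : algebraMap F k x ≠ 0 := (map_ne_zero_iff _ (algebraMap F k).injective).2 hx
  have hu0 : PowerSeries.constantCoeff u ≠ 0 := by rw [hu]; exact hxk
  obtain ⟨ρ, hρ⟩ := ps_root h hhk u hu0
  have hρ0 : PowerSeries.constantCoeff ρ ^ h = algebraMap F k x := by
    rw [← map_pow, hρ, hu]
  have hρ1 : PowerSeries.constantCoeff ρ ≠ 0 := by
    intro h0
    rw [h0, zero_pow hh.ne'] at hρ0
    exact hxk hρ0.symm
  have hq1 : 1 < Fintype.card F := Fintype.one_lt_card
  have key : ∀ z : F, cl k h (mapT T (fr F k)) (toT T (PowerSeries.X ^ (h * l) * u)) z →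
      x ^ ((Fintype.card F - 1) / h) = z := by
    rintro z ⟨ω, hω1, hω2⟩
    set ω1 := toT T (PowerSeries.X ^ l * ρ) with hω1def
    have h1 : ω1 ^ h = toT T (PowerSeries.X ^ (h * l) * u) := by
      rw [hω1def, ← map_pow, mul_pow, hρ, ← pow_mul, mul_comm l h]
    have h2 : ω1 ≠ 0 := by
      rw [hω1def]
      intro h0
      rw [← map_zero (toT T)] at h0
      have h3 := toT_injective T h0
      rcases mul_eq_zero.1 h3 with h4 | h4
      · exact pow_ne_zero _ PowerSeries.X_ne_zero h4
      · apply hρ1
        rw [h4, map_zero]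
    have h3 : (ω / ω1) ^ h = 1 := by
      rw [div_pow, hω1, ← h1, div_self (pow_ne_zero _ h2)]
    obtain ⟨z', -, hz'⟩ := root_unity (F := F) (k := k) (M := PSFT T) h hh hd _ h3
    have h4 : ω = cM k z' * ω1 := by
      rw [hz']
      field_simp
    have hz'0 : cM k (M := PSFT T) z' ≠ 0 := by
      rw [hz']
      intro h0
      rw [h0, zero_pow hh.ne'] at h3
      exact zero_ne_one h3
    have h5 : mapT T (fr F k) (cM k (M := PSFT T) z') = cM k z' := by
      rw [cM_toT, mapT_toT, PowerSeries.map_C, fr_algebraMap]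
    rw [h4, map_mul, h5] at hω2
    have h6 : mapT T (fr F k) ω1 = cM k z * ω1 := by
      apply mul_left_cancel₀ hz'0
      rw [hω2]
      ring
    rw [hω1def, mapT_toT, cM_toT, ← map_mul] at h6
    have h7 := toT_injective T h6
    rw [map_mul, map_pow, PowerSeries.map_X] at h7
    have h8 : PowerSeries.map (fr F k) ρ = PowerSeries.C (algebraMap F k z) * ρ := by
      apply mul_left_cancel₀ (pow_ne_zero l (PowerSeries.X_ne_zero (R := k)))
      rw [h7]
      ring
    have h9 := congrArg PowerSeries.constantCoeff h8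
    rw [← PowerSeries.coeff_zero_eq_constantCoeff_apply, PowerSeries.coeff_map,
      PowerSeries.coeff_zero_eq_constantCoeff_apply, map_mul, PowerSeries.constantCoeff_C, fr_apply,
      Nat.card_eq_fintype_card] at h9
    have h10 : PowerSeries.constantCoeff ρ ^ (Fintype.card F - 1) = algebraMap F k z := by
      apply mul_right_cancel₀ hρ1
      rw [← pow_succ, Nat.sub_add_cancel hq1.le, h9]
    apply (algebraMap F k).injective
    rw [map_pow, ← hρ0, ← pow_mul, Nat.mul_div_cancel' hd, h10]
  refine ⟨key z, ?_⟩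
  intro hz
  have hne : toT T (PowerSeries.X ^ (h * l) * u) ≠ 0 := by
    intro h0
    rw [← map_zero (toT T)] at h0
    have h3 := toT_injective T h0
    rcases mul_eq_zero.1 h3 with h4 | h4
    · exact pow_ne_zero _ PowerSeries.X_ne_zero h4
    · apply hu0
      rw [h4, map_zero]
  obtain ⟨ω, hω⟩ := ps_root' h l hhk u hu0
  obtain ⟨z', -, hz'⟩ := exists_cl (F := F) (k := k) h hh hd (mapT T (fr F k)) _ hne hfix
    ⟨toT T ω, by rw [← map_pow, hω]⟩
  have := key z' hz'
  rw [hz] at this
  rw [this]
  exact hz'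

end

end Pool.Agent.H470
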