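import Pool.Agent.H470.Sec6

/-!
# The local analysis of one sector
-/

set_option autoImplicit false
set_option linter.all false

open Polynomial

namespace Pool.Agent.H470

open Classical in
/-- the leading coefficient of `x` -/
noncomputable def ld0 {F : Type*} [Field F] (p : F × F) : F := if p.1 = 0 then p.2 else p.1

open Classical in
/-- the leading coefficient of `1 - x` -/
noncomputable def ld1 {F : Type*} [Field F] (p : F × F) : F := if p.1 = 1 then -p.2 else 1 - p.1

/-- the number of rational places of the sector `(z1, z2)` -/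
noncomputable def FixS {F : Type*} [Field F] (P B : F[X]) (c : F) (n : ℕ) (z1 z2 : F) : ℕ :=
  {p : F × F | P.IsRoot p.1 ∧ p.2 ^ P.rootMultiplicity p.1 * cof P p.1 = c * B.eval p.1 ∧
    ld0 p ^ n = z1 ∧ ld1 p ^ n = z2}.ncard

theorem local_sector {F k : Type} [Field F] [Fintype F] [Field k] [IsAlgClosed k] [Algebra F k]
    [Algebra.IsAlgebraic F k] (h N : ℕ) (hh : 0 < h) (hhk : (h : k) ≠ 0) (hd : h ∣ Fintype.card F - 1)
    (hN : 0 < N) (A B : F[X]) (hA : A.Monic) (hpos : 0 < A.natDegree) (hB : B.degree < A.degree) (v c : F)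
    (hc : c ≠ 0) (T : k[X]) (hT : T = C (algebraMap F k v) + C (algebraMap F k c) * X ^ N)
    [hTf : Fact (0 < T.natDegree)]
    (hcop : ∀ y : k, ((A - C v * B).map (algebraMap F k)).IsRoot y → (B.map (algebraMap F k)).eval y ≠ 0)
    (hμ : ∀ y : k, ((A - C v * B).map (algebraMap F k)).IsRoot y →
      (((A - C v * B).map (algebraMap F k)).rootMultiplicity y : k) ≠ 0)
    (hdvd : ∀ y : k, ((A - C v * B).map (algebraMap F k)).IsRoot y →
      h * ((A - C v * B).map (algebraMap F k)).rootMultiplicity y ∣ N) :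
    ∃ Rt : Finset (PSFT T), Full k A B Rt ∧ (∀ s ∈ Rt, (∃ ω, ω ^ h = s) ∧ ∃ ω, ω ^ h = 1 - s) ∧
      ∀ z1 z2 : F, {s | s ∈ Rt ∧ mapT T (fr F k) s = s ∧ cl k h (mapT T (fr F k)) s z1 ∧
          cl k h (mapT T (fr F k)) (1 - s) z2}.ncard =
        FixS (A - C v * B) B c ((Fintype.card F - 1) / h) z1 z2 := by
  classical
  set a := algebraMap F k with ha
  set P := A - C v * B with hP
  have hPd : (C v * B).degree < A.degree := lt_of_le_of_lt (degree_C_mul_le' _ _) hB
  have hPm : P.Monic := hA.sub_of_left hPd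
  have hPn : P.natDegree = A.natDegree := by
    rw [hP, natDegree_eq_of_degree_eq (degree_sub_eq_left_of_degree_lt hPd)]
  have hPk : P.map a = A.map a - C (a v) * B.map a := by
    rw [hP, Polynomial.map_sub, Polynomial.map_mul, map_C]
  have hPk0 : P.map a ≠ 0 := (hPm.map a).ne_zero
  have hck : a c ≠ 0 := by
    rw [ha]
    exact (map_ne_zero_iff _ (algebraMap F k).injective).2 hc
  have hdvd' : ∀ y, (P.map a).IsRoot y → (P.map a).rootMultiplicity y ∣ N := fun y hy =>
    (Dvd.intro_left h rfl).trans (hdvd y hy)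
  set I := Idx (P.map a) (B.map a) (a c) with hI
  have hIc : I.card = A.natDegree := by
    rw [hI, card_Idx hPk0 hck hcop hμ, hPm.natDegree_map, hPn]
  have hsol : ∀ i : I, ∃ w : PowerSeries k, PowerSeries.constantCoeff w = i.1.2 ∧
      eval₂ (PowerSeries.C : k →+* PowerSeries k)
        (PowerSeries.C i.1.1 + PowerSeries.X ^ (N / (P.map a).rootMultiplicity i.1.1) * w) (A.map a) =
      (T : PowerSeries k) *
        eval₂ (PowerSeries.C : k →+* PowerSeries k)
          (PowerSeries.C i.1.1 + PowerSeries.X ^ (N / (P.map a).rootMultiplicity i.1.1) * w) (B.map a) := by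
    intro i
    have := exists_sol (A := A.map a) (B := B.map a) (v := a v) (c := a c) (by rw [← hPk]; exact hPk0)
      hck (by rw [← hPk]; exact hcop) (by rw [← hPk]; exact hμ) N hN (by rw [← hPk]; exact hdvd') i.1
      (by rw [← hPk]; exact i.2)
    rw [← hPk] at this
    rw [hT]
    exact this
  choose w hw1 hw2 using hsol
  let s : I → PowerSeries k := fun i =>
    PowerSeries.C i.1.1 + PowerSeries.X ^ (N / (P.map a).rootMultiplicity i.1.1) * w i
  have hμpos : ∀ i : I, 0 < N / (P.map a).rootMultiplicity i.1.1 := by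
    intro i
    have h1 := ((mem_Idx hPk0 hμ).1 i.2).1
    have h2 : (P.map a).rootMultiplicity i.1.1 ≠ 0 := by
      intro h
      apply hμ _ h1
      rw [h, Nat.cast_zero]
    exact Nat.div_pos (Nat.le_of_dvd hN (hdvd' _ h1)) (Nat.pos_of_ne_zero h2)
  have hμl : ∀ i : I, ∃ l, N / (P.map a).rootMultiplicity i.1.1 = h * l := by
    intro i
    have h1 := ((mem_Idx hPk0 hμ).1 i.2).1
    have h2 : (P.map a).rootMultiplicity i.1.1 ≠ 0 := by
      intro h
      apply hμ _ h1
      rw [h, Nat.cast_zero]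
    obtain ⟨l, hl⟩ := hdvd _ h1
    refine ⟨l, ?_⟩
    apply Nat.div_eq_of_eq_mul_left (Nat.pos_of_ne_zero h2)
    rw [hl]
    ring
  have hw0 : ∀ i : I, i.1.2 ≠ 0 := by
    intro i h0
    obtain ⟨h1, h2⟩ := (mem_Idx hPk0 hμ).1 i.2
    have h3 : (P.map a).rootMultiplicity i.1.1 ≠ 0 := by
      intro h
      apply hμ _ h1
      rw [h, Nat.cast_zero]
    rw [h0, zero_pow h3, zero_mul] at h2
    exact mul_ne_zero hck (hcop _ h1) h2.symm
  have hs0 : ∀ i, PowerSeries.constantCoeff (s i) = i.1.1 := by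
    intro i
    show PowerSeries.constantCoeff (PowerSeries.C i.1.1 + _ * w i) = _
    rw [map_add, map_mul, map_pow, PowerSeries.constantCoeff_X, zero_pow (hμpos i).ne',
      zero_mul, add_zero, PowerSeries.constantCoeff_C]
  -- comparison of two solutions
  have hcmp : ∀ (i j : I) (u : k →+* k), PowerSeries.map u (s i) = s j →
      (P.map a).rootMultiplicity j.1.1 = (P.map a).rootMultiplicity i.1.1 →
      u i.1.1 = j.1.1 ∧ u i.1.2 = j.1.2 := by
    intro i j u h hm
    have h1 : u i.1.1 = j.1.1 := by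
      have := congrArg PowerSeries.constantCoeff h
      rw [hs0, ← PowerSeries.coeff_zero_eq_constantCoeff_apply, PowerSeries.coeff_map,
        PowerSeries.coeff_zero_eq_constantCoeff_apply, hs0] at this
      exact this
    refine ⟨h1, ?_⟩
    have h2 : PowerSeries.map u (s i) = PowerSeries.C (u i.1.1) +
        PowerSeries.X ^ (N / (P.map a).rootMultiplicity i.1.1) * PowerSeries.map u (w i) := by
      show PowerSeries.map u (PowerSeries.C i.1.1 + _ * w i) = _
      rw [map_add, map_mul, map_pow, PowerSeries.map_C, PowerSeries.map_X]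
    have h3 : s j = PowerSeries.C j.1.1 +
        PowerSeries.X ^ (N / (P.map a).rootMultiplicity i.1.1) * w j := by
      rw [← hm]
    rw [h2, h3, h1] at h
    have h4 := mul_left_cancel₀ (pow_ne_zero _ PowerSeries.X_ne_zero) (add_left_cancel h)
    have h5 := congrArg PowerSeries.constantCoeff h4
    rw [hw1 j, ← PowerSeries.coeff_zero_eq_constantCoeff_apply, PowerSeries.coeff_map,
      PowerSeries.coeff_zero_eq_constantCoeff_apply, hw1 i] at h5
    exact h5
  have hsinj : Function.Injective s := by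
    intro i j h
    have h0 : i.1.1 = j.1.1 := by rw [← hs0, ← hs0, h]
    have h1 := hcmp i j (RingHom.id k) (by rw [PowerSeries.map_id]; exact h) (by rw [h0])
    apply Subtype.ext
    exact Sigma.ext h1.1 (heq_of_eq h1.2)
  have htinj : Function.Injective fun i : I => toT T (s i) := fun i j h => hsinj (toT_injective T h)
  set Rt : Finset (PSFT T) := Finset.univ.image fun i : I => toT T (s i) with hRt
  have hmemRt : ∀ i : I, toT T (s i) ∈ Rt := fun i => Finset.mem_image_of_mem _ (Finset.mem_univ i)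
  have hTm : T.map (fr F k) = T := by
    rw [hT, Polynomial.map_add, Polynomial.map_mul, Polynomial.map_pow, map_X, map_C, map_C, ha,
      fr_algebraMap, fr_algebraMap]
  have hΨ := semiT (F := F) T hTm
  have hfull : Full k A B Rt := by
    refine ⟨hA, hpos, hB, ?_, ?_⟩
    · rw [hRt, Finset.card_image_of_injective _ htinj, Finset.card_univ, Fintype.card_coe, hIc]
    · intro y hy
      rw [hRt, Finset.mem_image] at hy
      obtain ⟨i, -, rfl⟩ := hy
      show eval₂ (embT T) (toPSF k (s i)) _ = 0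
      unfold gk
      rw [eval₂_gAB, ← map_zero (toPSF k)]
      congr 1
      rw [sub_eq_zero]
      exact hw2 i
  refine ⟨Rt, hfull, ?_, ?_⟩
  · intro y hy
    rw [hRt, Finset.mem_image] at hy
    obtain ⟨i, -, rfl⟩ := hy
    constructor
    · by_cases h0 : i.1.1 = 0
      · obtain ⟨l, hl⟩ := hμl i
        obtain ⟨ω, hω⟩ := ps_root' h l hhk (w i) (by rw [hw1]; exact hw0 i)
        refine ⟨toT T ω, ?_⟩
        rw [← map_pow, hω]
        congr 1
        show _ = PowerSeries.C i.1.1 + PowerSeries.X ^ (N / (P.map a).rootMultiplicity i.1.1) * w i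
        rw [hl, h0, map_zero, zero_add]
      · obtain ⟨ω, hω⟩ := ps_root h hhk (s i) (by rw [hs0]; exact h0)
        exact ⟨toT T ω, by rw [← map_pow, hω]⟩
    · by_cases h0 : i.1.1 = 1
      · obtain ⟨l, hl⟩ := hμl i
        obtain ⟨ω, hω⟩ := ps_root' h l hhk (-(w i)) (by rw [map_neg, hw1]; exact neg_ne_zero.2 (hw0 i))
        refine ⟨toT T ω, ?_⟩
        rw [← map_pow, hω]
        have : PowerSeries.X ^ (h * l) * -(w i) = 1 - s i := by
          show _ = 1 - (PowerSeries.C i.1.1 + PowerSeries.X ^ (N / (P.map a).rootMultiplicity i.1.1) * w i)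
          rw [hl, h0, map_one]
          ring
        rw [this, map_sub, map_one]
      · obtain ⟨ω, hω⟩ := ps_root h hhk (1 - s i) (by
          rw [map_sub, map_one, hs0]
          intro h1
          exact h0 (by linear_combination -h1))
        exact ⟨toT T ω, by rw [← map_pow, hω, map_sub, map_one]⟩
  intro z1 z2
  have hfix : ∀ i : I, mapT T (fr F k) (toT T (s i)) = toT T (s i) ↔
      (fr F k i.1.1 = i.1.1 ∧ fr F k i.1.2 = i.1.2) := by
    intro i
    rw [mapT_toT]
    constructor
    · intro h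
      exact hcmp i i (fr F k) (toT_injective T h) rfl
    · rintro ⟨h1, h2⟩
      have h3 : toT T (PowerSeries.map (fr F k) (s i)) ∈ Rt := by
        apply hfull.mem
        rw [← mapT_toT]
        exact evM_poly_root hΨ _ _ (hfull.root _ (hmemRt i))
      rw [hRt, Finset.mem_image] at h3
      obtain ⟨j, -, hj⟩ := h3
      have h4 : PowerSeries.map (fr F k) (s i) = s j := (toT_injective T hj).symm
      have h5 : j.1.1 = i.1.1 := by
        rw [← hs0 j, ← h4, ← PowerSeries.coeff_zero_eq_constantCoeff_apply,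
          PowerSeries.coeff_map, PowerSeries.coeff_zero_eq_constantCoeff_apply, hs0, h1]
      have h6 := hcmp i j (fr F k) h4 (by rw [h5])
      have h7 : j = i := by
        apply Subtype.ext
        exact Sigma.ext h5 (heq_of_eq (by rw [← h6.2, h2]))
      rw [h4, h7]
  -- the classes
  have hcl : ∀ (i : I) (p : F × F), a p.1 = i.1.1 → a p.2 = i.1.2 →
      mapT T (fr F k) (toT T (s i)) = toT T (s i) →
      (cl k h (mapT T (fr F k)) (toT T (s i)) z1 ↔ ld0 p ^ ((Fintype.card F - 1) / h) = z1) ∧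
      (cl k h (mapT T (fr F k)) (1 - toT T (s i)) z2 ↔ ld1 p ^ ((Fintype.card F - 1) / h) = z2) := by
    intro i p hp1 hp2 hf
    have hp20 : p.2 ≠ 0 := by
      intro h0
      rw [h0, map_zero] at hp2
      exact hw0 i hp2.symm
    constructor
    · unfold ld0
      by_cases h0 : p.1 = 0
      · rw [if_pos h0]
        obtain ⟨l, hl⟩ := hμl i
        have hs : s i = PowerSeries.X ^ (h * l) * w i := by
          show PowerSeries.C i.1.1 + PowerSeries.X ^ (N / (P.map a).rootMultiplicity i.1.1) * w i = _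
          rw [hl, ← hp1, h0, map_zero, map_zero, zero_add]
        rw [hs] at hf ⊢
        exact cl_ps T h hh hhk hd l (w i) p.2 hp20 (by rw [hw1, hp2]) hf z1
      · rw [if_neg h0]
        have hs : s i = PowerSeries.X ^ (h * 0) * s i := by
          rw [mul_zero, pow_zero, one_mul]
        rw [hs] at hf ⊢
        exact cl_ps T h hh hhk hd 0 (s i) p.1 h0 (by rw [hs0, hp1]) hf z1
    · unfold ld1
      have hf' : mapT T (fr F k) (1 - toT T (s i)) = 1 - toT T (s i) := by
        rw [map_sub, map_one, hf]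
      by_cases h0 : p.1 = 1
      · rw [if_pos h0]
        obtain ⟨l, hl⟩ := hμl i
        have hs : 1 - toT T (s i) = toT T (PowerSeries.X ^ (h * l) * -(w i)) := by
          rw [← map_one (toT T), ← map_sub]
          congr 1
          show 1 - (PowerSeries.C i.1.1 + PowerSeries.X ^ (N / (P.map a).rootMultiplicity i.1.1) * w i) = _
          rw [hl, ← hp1, h0, map_one, map_one]
          ring
        rw [hs] at hf' ⊢
        exact cl_ps T h hh hhk hd l (-(w i)) (-p.2) (neg_ne_zero.2 hp20) (by rw [map_neg, hw1, map_neg, hp2]) hf' z2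
      · rw [if_neg h0]
        have hs : 1 - toT T (s i) = toT T (PowerSeries.X ^ (h * 0) * (1 - s i)) := by
          rw [mul_zero, pow_zero, one_mul, map_sub, map_one]
        rw [hs] at hf' ⊢
        exact cl_ps T h hh hhk hd 0 (1 - s i) (1 - p.1) (fun h1 => h0 (by linear_combination -h1))
          (by rw [map_sub, map_one, hs0, map_sub, map_one, hp1]) hf' z2
  -- counting
  unfold FixS
  have hmem : ∀ z : F × F, (P.IsRoot z.1 ∧ z.2 ^ P.rootMultiplicity z.1 * cof P z.1 = c * B.eval z.1) →
      (⟨a z.1, a z.2⟩ : Σ _ : k, k) ∈ I := by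
    rintro z ⟨h1, h2⟩
    apply (mem_Idx hPk0 hμ).2
    refine ⟨?_, ?_⟩
    · show (P.map a).eval (a z.1) = 0
      rw [eval_map_apply, h1, map_zero]
    · show a z.2 ^ (P.map a).rootMultiplicity (a z.1) * cof (P.map a) (a z.1) =
        a c * (B.map a).eval (a z.1)
      rw [← eq_rootMultiplicity_map a.injective, cof_map, eval_map_apply, ← map_pow, ← map_mul, h2,
        map_mul]
  have hfixz : ∀ (z : F × F) (hz : P.IsRoot z.1 ∧ z.2 ^ P.rootMultiplicity z.1 * cof P z.1 = c * B.eval z.1),
      mapT T (fr F k) (toT T (s ⟨⟨a z.1, a z.2⟩, hmem z hz⟩)) = toT T (s ⟨⟨a z.1, a z.2⟩, hmem z hz⟩) := by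
    intro z hz
    rw [hfix]
    exact ⟨fr_algebraMap F k _, fr_algebraMap F k _⟩
  symm
  refine Set.ncard_congr (fun z hz => toT T (s ⟨⟨a z.1, a z.2⟩, hmem z ⟨hz.1, hz.2.1⟩⟩)) ?_ ?_ ?_
  · intro z hz
    have h1 := hfixz z ⟨hz.1, hz.2.1⟩
    have h2 := hcl ⟨⟨a z.1, a z.2⟩, hmem z ⟨hz.1, hz.2.1⟩⟩ z rfl rfl h1
    exact ⟨hmemRt _, h1, h2.1.2 hz.2.2.1, h2.2.2 hz.2.2.2⟩
  · intro z z' hz hz' h
    have h1 := htinj h
    have h2 := congrArg Subtype.val h1
    have h3 := Sigma.mk.inj h2
    exact Prod.ext (a.injective h3.1) (a.injective (eq_of_heq h3.2))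
  · rintro y ⟨hy, hyf, hc1, hc2⟩
    rw [hRt, Finset.mem_image] at hy
    obtain ⟨i, -, rfl⟩ := hy
    obtain ⟨h1, h2⟩ := (hfix i).1 hyf
    obtain ⟨x, hx⟩ := fr_fixed F k _ h1
    obtain ⟨x', hx'⟩ := fr_fixed F k _ h2
    obtain ⟨h3, h4⟩ := (mem_Idx hPk0 hμ).1 i.2
    have hmem' : P.IsRoot x ∧ x' ^ P.rootMultiplicity x * cof P x = c * B.eval x := by
      refine ⟨?_, ?_⟩
      · show P.eval x = 0
        apply a.injective
        rw [← eval_map_apply, map_zero]
        rw [ha, hx]
        exact h3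
      · apply a.injective
        rw [← hx, ← hx', ← ha] at h4
        rw [← eq_rootMultiplicity_map a.injective, cof_map, eval_map_apply] at h4
        rw [map_mul, map_pow, h4, map_mul]
    have h5 := hcl i (x, x') hx hx' hyf
    refine ⟨(x, x'), ⟨hmem'.1, hmem'.2, h5.1.1 hc1, h5.2.1 hc2⟩, ?_⟩
    congr 2
    apply Subtype.ext
    exact Sigma.ext hx (heq_of_eq hx')

end Pool.Agent.H470
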