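import Pool.Agent.H470.Sec7

/-!
# The local principle with sectors
-/

set_option autoImplicit false
set_option linter.all false

open Polynomial

namespace Pool.Agent.H470

theorem natcast_ne_zero_of_dvd {F : Type} [Field F] [Fintype F] (h : ℕ) (hd : h ∣ Fintype.card F - 1) :
    (h : F) ≠ 0 := by
  intro h0
  have h1 : ((Fintype.card F - 1 : ℕ) : F) = 0 := by
    obtain ⟨r, hr⟩ := hd
    rw [hr]
    push_cast
    rw [h0, zero_mul]
  have h2 : 1 ≤ Fintype.card F := Fintype.card_pos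
  rw [Nat.cast_sub h2, FiniteField.cast_card_eq_zero] at h1
  simp at h1

/-- **The local principle with sectors.** -/
theorem sec_local (h m sz β N : ℕ) (hh : 0 < h) (hm : 0 < m) (hsz : 0 < sz) (hN : 0 < N) :
    ∃ C0 : ℕ, ∀ (F : Type) [Field F] [Fintype F] [DecidableEq F] (k : Type) [Field k]
    [IsAlgClosed k] [Algebra F k] [Algebra.IsAlgebraic F k], C0 < Nat.card F → h ∣ Fintype.card F - 1 →
    ∀ (I : Type) (S : Finset I), S.card ≤ sz →
    ∀ (A B : I → F[X]) (v c : F), c ≠ 0 →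
    (∀ i ∈ S, (A i).Monic ∧ 0 < (A i).natDegree ∧ (A i).natDegree ≤ m ∧ (B i).degree < (A i).degree ∧
      ((A i).eval 0 ≠ 0 ∨ (B i).eval 0 ≠ 0) ∧ ((A i).eval 1 ≠ 0 ∨ (B i).eval 1 ≠ 0) ∧
      (∀ y : k, ((A i - C v * B i).map (algebraMap F k)).IsRoot y →
        ((B i).map (algebraMap F k)).eval y ≠ 0) ∧
      (∀ y : k, ((A i - C v * B i).map (algebraMap F k)).IsRoot y →
        (((A i - C v * B i).map (algebraMap F k)).rootMultiplicity y : k) ≠ 0) ∧
      (∀ y : k, ((A i - C v * B i).map (algebraMap F k)).IsRoot y →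
        h * ((A i - C v * B i).map (algebraMap F k)).rootMultiplicity y ∣ N)) →
    ∀ (Bad : Finset F), Bad.card ≤ β →
    ∃ t0 ∉ Bad, ∀ i ∈ S, ∀ z1 z2 : F,
      {x : F | (A i - C t0 * B i).eval x = 0 ∧ x ^ ((Fintype.card F - 1) / h) = z1 ∧
          (1 - x) ^ ((Fintype.card F - 1) / h) = z2}.ncard =
        FixS (A i - C v * B i) (B i) c ((Fintype.card F - 1) / h) z1 z2 := by
  classical
  obtain ⟨C0, hC0⟩ := sec h m sz β hh hm hsz
  refine ⟨C0, ?_⟩
  intro F _ _ _ k _ _ _ _ hC hd I S hS A B v c hc hAB Bad hBad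
  have hhk : (h : k) ≠ 0 := by
    have := natcast_ne_zero_of_dvd (F := F) h hd
    rw [← map_natCast (algebraMap F k)]
    exact (map_ne_zero_iff _ (algebraMap F k).injective).2 this
  have hck : algebraMap F k c ≠ 0 := (map_ne_zero_iff _ (algebraMap F k).injective).2 hc
  set T : k[X] := C (algebraMap F k v) + C (algebraMap F k c) * X ^ N with hT
  haveI hTf : Fact (0 < T.natDegree) := ⟨by
    rw [hT, natDegree_C_add, natDegree_C_mul_X_pow _ _ hck]
    exact hN⟩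
  have hTm : T.map (fr F k) = T := by
    rw [hT, Polynomial.map_add, Polynomial.map_mul, Polynomial.map_pow, map_X, map_C, map_C,
      fr_algebraMap, fr_algebraMap]
  have hloc : ∀ i ∈ S, ∃ Rt : Finset (PSFT T), Full k (A i) (B i) Rt ∧
      (∀ s ∈ Rt, (∃ ω, ω ^ h = s) ∧ ∃ ω, ω ^ h = 1 - s) ∧
      ∀ z1 z2 : F, {s | s ∈ Rt ∧ mapT T (fr F k) s = s ∧ cl k h (mapT T (fr F k)) s z1 ∧
          cl k h (mapT T (fr F k)) (1 - s) z2}.ncard =
        FixS (A i - C v * B i) (B i) c ((Fintype.card F - 1) / h) z1 z2 := by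
    intro i hi
    obtain ⟨h1, h2, h3, h4, h5, h6, h7, h8, h9⟩ := hAB i hi
    exact local_sector h N hh hhk hd hN (A i) (B i) h1 h2 h4 v c hc T hT h7 h8 h9
  choose! Rt hRt using hloc
  obtain ⟨t0, ht0, h1⟩ := hC0 F k (PSFT T) (mapT T (fr F k)) (semiT (F := F) T hTm) hd I S hS A B Rt
    (fun i hi => ⟨(hRt i hi).1, (hAB i hi).2.2.1, (hAB i hi).2.2.2.2.1, (hAB i hi).2.2.2.2.2.1⟩)
    (fun i hi => (hRt i hi).2.1) Bad hBad hC
  refine ⟨t0, ht0, ?_⟩
  intro i hi z1 z2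
  rw [h1 i hi z1 z2]
  exact (hRt i hi).2.2 z1 z2

end Pool.Agent.H470
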