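import Pool.Agent.H470.Wt9

/-!
# Inverse exponents, and the final statements
-/

set_option autoImplicit false
set_option linter.all false

namespace Pool.Agent.H470

section
variable {L : Type} [Field L] [Fintype L] [DecidableEq L]

theorem pow_mul_inv (s s' : ℕ) (hs0 : 0 < s) (hs'0 : 0 < s') (h : s * s' ≡ 1 [MOD Fintype.card L - 1]) (x : L) :
    x ^ (s * s') = x := by
  by_cases hx : x = 0
  · rw [hx, zero_pow (Nat.mul_pos hs0 hs'0).ne']
  · have h1 : x ^ (Fintype.card L - 1) = 1 := FiniteField.pow_card_sub_one_eq_one _ hx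
    have key : ∀ m : ℕ, x ^ m = x ^ (m % (Fintype.card L - 1)) := by
      intro m
      conv_lhs => rw [← Nat.div_add_mod m (Fintype.card L - 1), pow_add, pow_mul, h1, one_pow, one_mul]
    rw [key (s * s'), show s * s' % (Fintype.card L - 1) = 1 % (Fintype.card L - 1) from h, ← key 1, pow_one]

theorem Ds_ne_zero (s s' : ℕ) (hs0 : 0 < s) (hs'0 : 0 < s') (hodd : Odd s)
    (h : s * s' ≡ 1 [MOD Fintype.card L - 1]) (x : L) : Ds s x ≠ 0 := by
  intro h0
  unfold Ds at h0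
  have h1 : x ^ s = (x - 1) ^ s := by
    have h2 : (x - 1) ^ s = -(1 - x) ^ s := by
      rw [← hodd.neg_pow]
      congr 1
      ring
    rw [h2]
    linear_combination h0
  have h2 := congrArg (fun y : L => y ^ s') h1
  simp only [← pow_mul] at h2
  rw [pow_mul_inv s s' hs0 hs'0 h, pow_mul_inv s s' hs0 hs'0 h] at h2
  apply one_ne_zero (α := L)
  linear_combination h2

theorem fc_inv_exp (s s' : ℕ) (hs0 : 0 < s) (hs'0 : 0 < s') (h : s * s' ≡ 1 [MOD Fintype.card L - 1])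
    (v : L) (hv : v ≠ 0) : fc (Ds s) v = fc (Ds s') ((v⁻¹) ^ s') := by
  have hvs : (v⁻¹) ^ s' ≠ 0 := pow_ne_zero _ (inv_ne_zero hv)
  unfold fc
  refine Finset.card_bij' (fun x _ => x ^ s / v) (fun X _ => X ^ s' / (v⁻¹) ^ s') ?_ ?_ ?_ ?_
  · intro x hx
    rw [Finset.mem_filter] at hx ⊢
    refine ⟨Finset.mem_univ _, ?_⟩
    have h1 := hx.2
    unfold Ds at h1 ⊢
    have h2 : 1 - x ^ s / v = (1 - x) ^ s / v := by
      field_simp
      linear_combination -h1
    rw [h2, div_pow, div_pow, ← pow_mul, ← pow_mul, pow_mul_inv s s' hs0 hs'0 h, pow_mul_inv s s' hs0 hs'0 h, inv_pow]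
    have h3 : v ^ s' ≠ 0 := pow_ne_zero _ hv
    field_simp
    ring
  · intro X hX
    rw [Finset.mem_filter] at hX ⊢
    refine ⟨Finset.mem_univ _, ?_⟩
    have h1 := hX.2
    unfold Ds at h1 ⊢
    have h2 : 1 - X ^ s' / (v⁻¹) ^ s' = (1 - X) ^ s' / (v⁻¹) ^ s' := by
      field_simp
      linear_combination -h1
    have h' : s' * s ≡ 1 [MOD Fintype.card L - 1] := by rwa [mul_comm]
    rw [h2, div_pow, div_pow, ← pow_mul, ← pow_mul, ← pow_mul, pow_mul_inv s' s hs'0 hs0 h',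
      pow_mul_inv s' s hs'0 hs0 h', pow_mul_inv s' s hs'0 hs0 h']
    field_simp
    ring
  · intro x _
    rw [div_pow, ← pow_mul, pow_mul_inv s s' hs0 hs'0 h, inv_pow]
    have h3 : v ^ s' ≠ 0 := pow_ne_zero _ hv
    field_simp
  · intro X _
    have h' : s' * s ≡ 1 [MOD Fintype.card L - 1] := by rwa [mul_comm]
    rw [div_pow, ← pow_mul, ← pow_mul, pow_mul_inv s' s hs'0 hs0 h', pow_mul_inv s' s hs'0 hs0 h']
    field_simp

theorem image_sub_inv (s s' : ℕ) (hs0 : 0 < s) (hs'0 : 0 < s') (hodd : Odd s) (hodd' : Odd s')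
    (h : s * s' ≡ 1 [MOD Fintype.card L - 1]) :
    Finset.univ.image (fc (Ds (L := L) s)) ⊆ Finset.univ.image (fc (Ds (L := L) s')) := by
  have h' : s' * s ≡ 1 [MOD Fintype.card L - 1] := by rwa [mul_comm]
  intro m hm
  rw [Finset.mem_image] at hm ⊢
  obtain ⟨v, -, hv⟩ := hm
  by_cases hv0 : v = 0
  · refine ⟨0, Finset.mem_univ _, ?_⟩
    have h1 : fc (Ds (L := L) s) 0 = 0 := by
      unfold fc
      rw [Finset.card_eq_zero, Finset.filter_eq_empty_iff]
      intro x _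
      exact Ds_ne_zero s s' hs0 hs'0 hodd h x
    have h2 : fc (Ds (L := L) s') 0 = 0 := by
      unfold fc
      rw [Finset.card_eq_zero, Finset.filter_eq_empty_iff]
      intro x _
      exact Ds_ne_zero s' s hs'0 hs0 hodd' h' x
    rw [h2, ← hv, hv0, h1]
  · exact ⟨(v⁻¹) ^ s', Finset.mem_univ _, by rw [← fc_inv_exp s s' hs0 hs'0 h v hv0, hv]⟩

/-- passing to the inverse exponent -/
theorem inv_transfer (hchar : ringChar L ≠ 2) (s : ℕ) (hcop : Nat.Coprime s (Fintype.card L - 1))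
    (hs : ¬ ∃ k : ℕ, s ≡ ringChar L ^ k [MOD Fintype.card L - 1])
    (e j : ℕ) (he : s * e ≡ ringChar L ^ j [MOD Fintype.card L - 1]) (he0 : 0 < e)
    (hnice : (Finset.univ.image (fc (Ds (L := L) s))).card ≤ 3)
    (hmain : ∀ (s' j' : ℕ), Nat.Coprime s' (Fintype.card L - 1) →
      (¬ ∃ k : ℕ, s' ≡ ringChar L ^ k [MOD Fintype.card L - 1]) →
      s' ≡ e * ringChar L ^ j' [MOD Fintype.card L - 1] →
      (Finset.univ.image (fc (Ds (L := L) s'))).card ≤ 3 → ∃ v : L, fc (Ds s') v = 2) :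
    ∃ v : L, fc (Ds s) v = 2 := by
  have hpr : (ringChar L).Prime := CharP.char_is_prime L (ringChar L)
  obtain ⟨n, hn, hcard⟩ := FiniteField.card L (ringChar L)
  obtain ⟨n', hn'⟩ : ∃ n' : ℕ, (n : ℕ) = n' + 1 := ⟨n - 1, by have := n.pos; omega⟩
  rw [hn'] at hcard
  have hq1 : 1 < Fintype.card L := Fintype.one_lt_card
  have hc1 : Fintype.card L ≡ 1 [MOD Fintype.card L - 1] := by
    rw [Nat.ModEq.comm]
    exact (Nat.modEq_iff_dvd' (by omega)).2 dvd_rfl
  have hs0 := s_pos hchar s hcop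
  have hodd := s_odd hchar s hcop
  obtain ⟨s', hs'⟩ : ∃ s', s' = e * ringChar L ^ (n' * j) := ⟨_, rfl⟩
  have hs'0 : 0 < s' := by rw [hs']; exact Nat.mul_pos he0 (pow_pos hpr.pos _)
  have hss : s * s' ≡ 1 [MOD Fintype.card L - 1] := by
    rw [hs', ← mul_assoc]
    have h1 := he.mul_right (ringChar L ^ (n' * j))
    refine h1.trans ?_
    rw [← pow_add]
    have h2 : j + n' * j = (n' + 1) * j := by ring
    rw [h2, pow_mul, ← hcard]
    have h3 := hc1.pow j
    rwa [one_pow] at h3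
  have hcop' : Nat.Coprime s' (Fintype.card L - 1) := by
    have h1 : Nat.gcd (s * s') (Fintype.card L - 1) = Nat.gcd 1 (Fintype.card L - 1) := hss.gcd_eq
    rw [Nat.gcd_one_left] at h1
    exact Nat.Coprime.coprime_mul_left h1
  have hodd' := s_odd hchar s' hcop'
  have hs's : s' * s ≡ 1 [MOD Fintype.card L - 1] := by rwa [mul_comm]
  have hsub1 := image_sub_inv (L := L) s s' hs0 hs'0 hodd hodd' hss
  have hsub2 := image_sub_inv (L := L) s' s hs'0 hs0 hodd' hodd hs's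
  have hnot : ¬ ∃ k : ℕ, s' ≡ ringChar L ^ k [MOD Fintype.card L - 1] := by
    rintro ⟨k, hk⟩
    apply hs
    refine ⟨n' * k, ?_⟩
    -- `s = s * s' ^ (..)`: multiply by the inverse power
    have h1 : s * ringChar L ^ k ≡ 1 [MOD Fintype.card L - 1] := (hk.symm.mul_left s).trans hss
    have h2 := h1.mul_right (ringChar L ^ (n' * k))
    rw [one_mul, mul_assoc, ← pow_add] at h2
    have h3 : k + n' * k = (n' + 1) * k := by ring
    rw [h3, pow_mul, ← hcard] at h2
    have h4 := (hc1.pow k).mul_left s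
    rw [one_pow, mul_one] at h4
    exact h4.symm.trans h2
  obtain ⟨v, hv⟩ := hmain s' (n' * j) hcop' hnot (by rw [hs']) ((Finset.card_le_card hsub2).trans hnice)
  have h2 : 2 ∈ Finset.univ.image (fc (Ds (L := L) s')) := by
    rw [Finset.mem_image]
    exact ⟨v, Finset.mem_univ _, hv⟩
  have h3 := hsub2 h2
  rw [Finset.mem_image] at h3
  obtain ⟨w, -, hw⟩ := h3
  exact ⟨w, hw⟩

end
end Pool.Agent.H470
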