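import Pool.Agent.H470.Sec8
import Pool.Agent.H470.Wt10
import Pool.Agent.H470.MainNegR

/-!
# Negative integers modulo `(q - 1) / h`
-/

set_option autoImplicit false
set_option linter.all false

open Polynomial

namespace Pool.Agent.H470

theorem sum_sectors {F X : Type} [Finite X] [DecidableEq F] (S : Finset (F × F)) (f g : X → F)
    (Q : F × F → X → Prop) :
    ∑ i ∈ S, {x | Q i x ∧ f x = i.1 ∧ g x = i.2}.ncard = {x | (f x, g x) ∈ S ∧ Q (f x, g x) x}.ncard := by
  classical
  haveI := Fintype.ofFinite X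
  have h1 : {x | (f x, g x) ∈ S ∧ Q (f x, g x) x} =
      ((Finset.univ.filter fun x => (f x, g x) ∈ S ∧ Q (f x, g x) x : Finset X) : Set X) := by
    ext x; simp
  rw [h1, Set.ncard_coe_finset, Finset.card_eq_sum_card_fiberwise (f := fun x => (f x, g x)) (t := S)]
  · refine Finset.sum_congr rfl fun i hi => ?_
    rw [← Set.ncard_coe_finset]
    congr 1
    ext x
    simp only [Set.mem_setOf_eq, Finset.coe_filter, Finset.mem_filter, Finset.mem_univ, true_and]
    constructor
    · rintro ⟨h2, h3, h4⟩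
      have : (f x, g x) = i := Prod.ext h3 h4
      rw [this]
      exact ⟨⟨hi, h2⟩, rfl⟩
    · rintro ⟨⟨h2, h3⟩, h4⟩
      rw [h4] at h3
      exact ⟨h3, congrArg Prod.fst h4, congrArg Prod.snd h4⟩
  · intro x hx
    simp only [Finset.coe_filter, Finset.mem_univ, true_and, Set.mem_setOf_eq] at hx
    exact hx.1

section
variable {K : Type*} [Field K]

/-- the denominator of the negative case -/
noncomputable def sA (K : Type*) [Field K] (m : ℕ) : K[X] := (X - C 0) ^ m * (X - C 1) ^ m

/-- the numerator of the negative case -/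
noncomputable def sB (m : ℕ) (a b : K) : K[X] := C ((-1) ^ m) * (C a * (1 - X) ^ m + C b * X ^ m)

theorem sA_monic (m : ℕ) : (sA K m).Monic := ((monic_X_sub_C 0).pow m).mul ((monic_X_sub_C 1).pow m)

theorem sA_natDegree (m : ℕ) : (sA K m).natDegree = 2 * m := by
  unfold sA
  rw [((monic_X_sub_C 0).pow m).natDegree_mul ((monic_X_sub_C 1).pow m), (monic_X_sub_C 0).natDegree_pow,
    (monic_X_sub_C 1).natDegree_pow, natDegree_X_sub_C, natDegree_X_sub_C]
  omega

theorem sA_eval (m : ℕ) (y : K) : (sA K m).eval y = y ^ m * (y - 1) ^ m := by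
  simp [sA]

theorem sB_eval (m : ℕ) (a b y : K) : (sB m a b).eval y = (-1) ^ m * (a * (1 - y) ^ m + b * y ^ m) := by
  simp [sB]

theorem sA_map {K' : Type*} [Field K'] (f : K →+* K') (m : ℕ) : (sA K m).map f = sA K' m := by
  simp [sA]

theorem sB_map {K' : Type*} [Field K'] (f : K →+* K') (m : ℕ) (a b : K) :
    (sB m a b).map f = sB m (f a) (f b) := by
  simp [sB]

theorem sB_natDegree (m : ℕ) (a b : K) : (sB m a b).natDegree ≤ m := by
  unfold sB
  refine (natDegree_C_mul_le _ _).trans ?_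
  refine (natDegree_add_le _ _).trans (max_le ?_ ?_)
  · refine (natDegree_C_mul_le _ _).trans ?_
    refine natDegree_pow_le.trans ?_
    have : (1 - X : K[X]).natDegree ≤ 1 := by
      refine (natDegree_sub_le _ _).trans ?_
      simp
    exact (Nat.mul_le_mul_left m this).trans (by omega)
  · refine (natDegree_C_mul_le _ _).trans ?_
    rw [natDegree_X_pow]

theorem sB_degree (m : ℕ) (hm : 0 < m) (a b : K) : (sB m a b).degree < (sA K m).degree := by
  rw [degree_eq_natDegree (sA_monic (K := K) m).ne_zero, sA_natDegree]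
  refine lt_of_le_of_lt degree_le_natDegree ?_
  have := sB_natDegree m a b
  exact_mod_cast (by omega : (sB m a b).natDegree < 2 * m)

theorem sA_root (m : ℕ) (y : K) (h : (sA K m).IsRoot y) : y = 0 ∨ y = 1 := by
  rw [IsRoot.def, sA_eval] at h
  rcases mul_eq_zero.1 h with h | h
  · left
    by_contra hy
    exact pow_ne_zero m hy h
  · right
    by_contra hy
    exact pow_ne_zero m (sub_ne_zero.2 hy) h

theorem sA_zero (m : ℕ) : (sA K m).rootMultiplicity 0 = m ∧ cof (sA K m) 0 = (-1) ^ m := by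
  have hne := (sA_monic (K := K) m).ne_zero
  have hmult : (sA K m).rootMultiplicity 0 = m := by
    unfold sA at hne ⊢
    rw [rootMultiplicity_mul hne, rootMultiplicity_X_sub_C_pow,
      rootMultiplicity_eq_zero (by simp [IsRoot.def]), add_zero]
  refine ⟨hmult, ?_⟩
  unfold cof
  rw [hmult]
  unfold sA
  rw [mul_divByMonic_cancel_left _ ((monic_X_sub_C _).pow _)]
  simp

theorem sA_one (m : ℕ) : (sA K m).rootMultiplicity 1 = m ∧ cof (sA K m) 1 = 1 := by
  have hne := (sA_monic (K := K) m).ne_zero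
  have hmult : (sA K m).rootMultiplicity 1 = m := by
    unfold sA at hne ⊢
    rw [rootMultiplicity_mul hne, rootMultiplicity_X_sub_C_pow,
      rootMultiplicity_eq_zero (by simp [IsRoot.def]), zero_add]
  refine ⟨hmult, ?_⟩
  unfold cof
  rw [hmult]
  unfold sA
  rw [mul_comm, mul_divByMonic_cancel_left _ ((monic_X_sub_C _).pow _)]
  simp

end

section
variable {F : Type} [Field F] [Fintype F] [DecidableEq F]

/-- pairs of `h`-th roots of unity -/
noncomputable def secs (F : Type) [Field F] [DecidableEq F] (h : ℕ) : Finset (F × F) :=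
  (nthRoots h (1 : F)).toFinset ×ˢ (nthRoots h (1 : F)).toFinset

theorem card_secs (h : ℕ) : (secs F h).card ≤ h * h := by
  unfold secs
  rw [Finset.card_product]
  have : (nthRoots h (1 : F)).toFinset.card ≤ h :=
    (Multiset.toFinset_card_le _).trans (card_nthRoots h 1)
  exact Nat.mul_le_mul this this

theorem mem_secs (h : ℕ) (hh : 0 < h) (i : F × F) : i ∈ secs F h ↔ i.1 ^ h = 1 ∧ i.2 ^ h = 1 := by
  unfold secs
  rw [Finset.mem_product, Multiset.mem_toFinset, Multiset.mem_toFinset, mem_nthRoots hh, mem_nthRoots hh]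

theorem pow_secs (h : ℕ) (hh : 0 < h) (hd : h ∣ Fintype.card F - 1) (x y : F) :
    (x ^ ((Fintype.card F - 1) / h), y ^ ((Fintype.card F - 1) / h)) ∈ secs F h ↔ x ≠ 0 ∧ y ≠ 0 := by
  rw [mem_secs h hh]
  have hq1 : 1 < Fintype.card F := Fintype.one_lt_card
  have key : ∀ x : F, (x ^ ((Fintype.card F - 1) / h)) ^ h = 1 ↔ x ≠ 0 := by
    intro x
    rw [← pow_mul, Nat.div_mul_cancel hd]
    constructor
    · rintro h1 rfl
      rw [zero_pow (by omega)] at h1
      exact zero_ne_one h1
    · intro h1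
      exact FiniteField.pow_card_sub_one_eq_one x h1
  exact and_congr (key x) (key y)

theorem fc_ncard (f : F → F) (v : F) : fc f v = {x | f x = v}.ncard := by
  unfold fc
  rw [← Set.ncard_coe_finset]
  congr 1
  ext x
  simp

/-- **negative integers** -/
theorem sec_neg (h m : ℕ) (hh : 0 < h) (hm : 0 < m) : ∃ C0 : ℕ, ∀ (F : Type) [Field F] [Fintype F]
    [DecidableEq F], C0 < Nat.card F → h ∣ Fintype.card F - 1 → (m : F) ≠ 0 → ∀ s r : ℕ, 0 < s →
    Nat.Coprime s (Fintype.card F - 1) → s + m = r * ((Fintype.card F - 1) / h) →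
    ∃ v : F, fc (Ds s) v = 2 := by
  classical
  obtain ⟨C0, hC0⟩ := sec_local h (2 * m) (h * h) 2 (h * m) hh (by omega) (Nat.mul_pos hh hh)
    (Nat.mul_pos hh hm)
  refine ⟨C0, ?_⟩
  intro F _ _ _ hC hd hmF s r hs0 hcop hsr
  set n := (Fintype.card F - 1) / h with hn
  have hq1 : 1 < Fintype.card F := Fintype.one_lt_card
  have hn0 : 0 < n := Nat.div_pos (Nat.le_of_dvd (by omega) hd) hh
  set k := AlgebraicClosure F
  have hinj := (algebraMap F k).injective
  have hmk : (m : k) ≠ 0 := by
    have := (map_ne_zero_iff (algebraMap F k) hinj).2 hmF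
    rwa [map_natCast] at this
  have hP : ∀ i : F × F, sA F m - C (0 : F) * sB m (i.1 ^ r) (i.2 ^ r) = sA F m := by
    intro i
    rw [C_0, zero_mul, sub_zero]
  have hne1 : ((-1 : F) ^ m) ≠ 0 := pow_ne_zero _ (neg_ne_zero.2 one_ne_zero)
  have hroot : ∀ i ∈ secs F h, i.1 ^ r ≠ 0 ∧ i.2 ^ r ≠ 0 := by
    intro i hi
    rw [mem_secs h hh] at hi
    constructor
    · apply pow_ne_zero
      intro h0
      rw [h0, zero_pow hh.ne'] at hi
      exact zero_ne_one hi.1
    · apply pow_ne_zero
      intro h0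
      rw [h0, zero_pow hh.ne'] at hi
      exact zero_ne_one hi.2
  have hB0 : ∀ i : F × F, (sB m (i.1 ^ r) (i.2 ^ r)).eval 0 = (-1) ^ m * i.1 ^ r := by
    intro i
    rw [sB_eval, sub_zero, one_pow, mul_one, zero_pow hm.ne', mul_zero, add_zero]
  have hB1 : ∀ i : F × F, (sB m (i.1 ^ r) (i.2 ^ r)).eval 1 = (-1) ^ m * i.2 ^ r := by
    intro i
    rw [sB_eval, sub_self, one_pow, mul_one, zero_pow hm.ne', mul_zero, zero_add]
  have hcond : ∀ i ∈ secs F h, (sA F m).Monic ∧ 0 < (sA F m).natDegree ∧ (sA F m).natDegree ≤ 2 * m ∧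
      (sB m (i.1 ^ r) (i.2 ^ r)).degree < (sA F m).degree ∧
      ((sA F m).eval 0 ≠ 0 ∨ (sB m (i.1 ^ r) (i.2 ^ r)).eval 0 ≠ 0) ∧
      ((sA F m).eval 1 ≠ 0 ∨ (sB m (i.1 ^ r) (i.2 ^ r)).eval 1 ≠ 0) ∧
      (∀ y : k, ((sA F m - C (0 : F) * sB m (i.1 ^ r) (i.2 ^ r)).map (algebraMap F k)).IsRoot y →
        ((sB m (i.1 ^ r) (i.2 ^ r)).map (algebraMap F k)).eval y ≠ 0) ∧
      (∀ y : k, ((sA F m - C (0 : F) * sB m (i.1 ^ r) (i.2 ^ r)).map (algebraMap F k)).IsRoot y →
        (((sA F m - C (0 : F) * sB m (i.1 ^ r) (i.2 ^ r)).map (algebraMap F k)).rootMultiplicity y : k) ≠ 0) ∧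
      (∀ y : k, ((sA F m - C (0 : F) * sB m (i.1 ^ r) (i.2 ^ r)).map (algebraMap F k)).IsRoot y →
        h * ((sA F m - C (0 : F) * sB m (i.1 ^ r) (i.2 ^ r)).map (algebraMap F k)).rootMultiplicity y ∣ h * m) := by
    intro i hi
    obtain ⟨hi1, hi2⟩ := hroot i hi
    have hPk : (sA F m - C (0 : F) * sB m (i.1 ^ r) (i.2 ^ r)).map (algebraMap F k) = sA k m := by
      rw [hP, sA_map]
    refine ⟨sA_monic m, by rw [sA_natDegree]; omega, (sA_natDegree m).le, sB_degree m hm _ _, ?_, ?_, ?_, ?_, ?_⟩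
    · right
      rw [hB0]
      exact mul_ne_zero hne1 hi1
    · right
      rw [hB1]
      exact mul_ne_zero hne1 hi2
    · intro y hy
      rw [hPk] at hy
      rcases sA_root m y hy with rfl | rfl
      · have h4 : ((sB m (i.1 ^ r) (i.2 ^ r)).map (algebraMap F k)).eval 0 = algebraMap F k ((-1) ^ m * i.1 ^ r) := by
          rw [← hB0, ← eval_map_apply, map_zero]
        rw [h4]
        exact (map_ne_zero_iff _ hinj).2 (mul_ne_zero hne1 hi1)
      · rw [← map_one (algebraMap F k), eval_map_apply, hB1]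
        exact (map_ne_zero_iff _ hinj).2 (mul_ne_zero hne1 hi2)
    · intro y hy
      rw [hPk] at hy ⊢
      rcases sA_root m y hy with rfl | rfl
      · rw [(sA_zero m).1]; exact hmk
      · rw [(sA_one m).1]; exact hmk
    · intro y hy
      rw [hPk] at hy ⊢
      rcases sA_root m y hy with rfl | rfl
      · rw [(sA_zero m).1]
      · rw [(sA_one m).1]
  obtain ⟨t0, ht0, hloc⟩ := hC0 F k hC hd (F × F) (secs F h) (card_secs h) (fun _ => sA F m)
    (fun i => sB m (i.1 ^ r) (i.2 ^ r)) 0 1 one_ne_zero hcond {0, 1} (Finset.card_le_two)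
  · rw [Finset.mem_insert, Finset.mem_singleton, not_or] at ht0
    obtain ⟨ht00, ht01⟩ := ht0
    refine ⟨t0⁻¹, ?_⟩
    have h1 : fc (Ds s) t0⁻¹ = ∑ i ∈ secs F h, {x : F | (sA F m - C t0 * sB m (i.1 ^ r) (i.2 ^ r)).eval x = 0 ∧
        x ^ n = i.1 ∧ (1 - x) ^ n = i.2}.ncard := by
      rw [sum_sectors (secs F h) (fun x : F => x ^ n) (fun x : F => (1 - x) ^ n)
        (fun i x => (sA F m - C t0 * sB m (i.1 ^ r) (i.2 ^ r)).eval x = 0), fc_ncard]
      congr 1
      ext x
      simp only [Set.mem_setOf_eq]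
      rw [pow_secs h hh hd x (1 - x)]
      have hx1 : (x ^ n) ^ r = x ^ s * x ^ m := by
        rw [← pow_mul, mul_comm n r, ← hsr, pow_add]
      have hx2 : ((1 - x) ^ n) ^ r = (1 - x) ^ s * (1 - x) ^ m := by
        rw [← pow_mul, mul_comm n r, ← hsr, pow_add]
      have hev : (sA F m - C t0 * sB m ((x ^ n) ^ r) (((1 - x) ^ n) ^ r)).eval x =
          x ^ m * (x - 1) ^ m * (1 - t0 * Ds s x) := by
        rw [eval_sub, eval_mul, eval_C, sA_eval, sB_eval, hx1, hx2]
        have : (1 - x) ^ m = (-1) ^ m * (x - 1) ^ m := by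
          rw [← mul_pow]; congr 1; ring
        have h3 : ((-1 : F) ^ m) * (-1) ^ m = 1 := by
          rw [← mul_pow]; simp
        unfold Ds
        rw [this]
        linear_combination (-(t0 * x ^ m * (x - 1) ^ m * (x ^ s + (1 - x) ^ s))) * h3
      rw [hev]
      constructor
      · intro h2
        have hx0 : x ≠ 0 := by
          rintro rfl
          unfold Ds at h2
          rw [zero_pow hs0.ne', sub_zero, one_pow, zero_add] at h2
          apply ht01
          rw [← inv_inv t0, ← h2, inv_one]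
        have hx1 : 1 - x ≠ 0 := by
          intro h3
          have h4 : x = 1 := by linear_combination -h3
          rw [h4] at h2
          unfold Ds at h2
          rw [sub_self, zero_pow hs0.ne', one_pow, add_zero] at h2
          apply ht01
          rw [← inv_inv t0, ← h2, inv_one]
        refine ⟨⟨hx0, hx1⟩, ?_⟩
        rw [h2, mul_inv_cancel₀ ht00, sub_self, mul_zero]
      · rintro ⟨⟨hx0, hx1⟩, h2⟩
        have hx1' : x - 1 ≠ 0 := fun h3 => hx1 (by linear_combination -h3)
        have h3 := (mul_eq_zero.1 h2).resolve_left (mul_ne_zero (pow_ne_zero _ hx0) (pow_ne_zero _ hx1'))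
        apply eq_inv_of_mul_eq_one_left
        linear_combination -h3
    rw [h1]
    have h2 : ∑ i ∈ secs F h, {x : F | (sA F m - C t0 * sB m (i.1 ^ r) (i.2 ^ r)).eval x = 0 ∧
        x ^ n = i.1 ∧ (1 - x) ^ n = i.2}.ncard = ∑ i ∈ secs F h,
        {p : F × F | ((sA F m).IsRoot p.1 ∧ p.2 ^ (sA F m).rootMultiplicity p.1 * cof (sA F m) p.1 =
          1 * (sB m (i.1 ^ r) (i.2 ^ r)).eval p.1) ∧ ld0 p ^ n = i.1 ∧ ld1 p ^ n = i.2}.ncard := by
      refine Finset.sum_congr rfl fun i hi => ?_
      rw [hloc i hi i.1 i.2]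
      unfold FixS
      rw [hP]
      congr 1
      ext p
      simp only [Set.mem_setOf_eq, and_assoc]
      exact Iff.rfl
    rw [h2, sum_sectors (secs F h) (fun p : F × F => ld0 p ^ n) (fun p : F × F => ld1 p ^ n)
        (fun i p => (sA F m).IsRoot p.1 ∧ p.2 ^ (sA F m).rootMultiplicity p.1 * cof (sA F m) p.1 =
          1 * (sB m (i.1 ^ r) (i.2 ^ r)).eval p.1)]
    have h3 : {p : F × F | (ld0 p ^ n, ld1 p ^ n) ∈ secs F h ∧ (sA F m).IsRoot p.1 ∧
        p.2 ^ (sA F m).rootMultiplicity p.1 * cof (sA F m) p.1 =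
          1 * (sB m ((ld0 p ^ n) ^ r) ((ld1 p ^ n) ^ r)).eval p.1} = {(0, 1), (1, -1)} := by
      ext p
      simp only [Set.mem_setOf_eq, Set.mem_insert_iff, Set.mem_singleton_iff]
      rw [pow_secs h hh hd]
      constructor
      · rintro ⟨⟨h4, h5⟩, h6, h7⟩
        rcases sA_root m p.1 h6 with h8 | h8
        · left
          have hl : ld0 p = p.2 := by unfold ld0; rw [if_pos h8]
          have hB := hB0 (ld0 p ^ n, ld1 p ^ n)
          simp only at hB
          rw [h8, (sA_zero m).1, (sA_zero m).2, hB, one_mul, hl, ← pow_mul, mul_comm n r, ← hsr, mul_comm] at h7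
          have h9 := mul_left_cancel₀ hne1 h7
          rw [hl] at h4
          have h10 : p.2 ^ s = 1 ^ s := by
            rw [one_pow]
            apply mul_right_cancel₀ (pow_ne_zero m h4)
            rw [← pow_add, ← h9, one_mul]
          have h11 := eq_of_pow_eq hcop hs0 _ _ h10
          exact Prod.ext h8 h11
        · right
          have hl : ld1 p = -p.2 := by unfold ld1; rw [if_pos h8]
          have hB := hB1 (ld0 p ^ n, ld1 p ^ n)
          simp only at hB
          rw [h8, (sA_one m).1, (sA_one m).2, hB, one_mul, hl, ← pow_mul, mul_comm n r, ← hsr, mul_one] at h7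
          rw [hl] at h5
          have h9 : (-p.2) ^ m = (-p.2) ^ (s + m) := by
            have h3 : ((-1 : F) ^ m) * (-1) ^ m = 1 := by
              rw [← mul_pow]; simp
            have h10 : (-p.2) ^ m = (-1) ^ m * p.2 ^ m := by
              rw [← mul_pow]; congr 1; ring
            rw [h10, h7, ← mul_assoc, h3, one_mul]
          have h10 : (-p.2) ^ s = 1 ^ s := by
            rw [one_pow]
            apply mul_right_cancel₀ (pow_ne_zero m h5)
            rw [← pow_add, ← h9, one_mul]
          have h11 := eq_of_pow_eq hcop hs0 _ _ h10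
          exact Prod.ext h8 (by linear_combination -h11)
      · rintro (rfl | rfl)
        · have hl0 : ld0 ((0 : F), (1 : F)) = 1 := by unfold ld0; simp
          have hl1 : ld1 ((0 : F), (1 : F)) = 1 := by unfold ld1; simp
          rw [hl0, hl1]
          refine ⟨⟨one_ne_zero, one_ne_zero⟩, ?_, ?_⟩
          · rw [IsRoot.def, sA_eval, zero_pow hm.ne', zero_mul]
          · have hB := hB0 ((1 : F), (1 : F))
            simp only [one_pow, mul_one] at hB
            simp only [one_pow]
            rw [(sA_zero m).2, hB]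
        · have hl0 : ld0 ((1 : F), (-1 : F)) = 1 := by unfold ld0; simp
          have hl1 : ld1 ((1 : F), (-1 : F)) = 1 := by unfold ld1; simp
          rw [hl0, hl1]
          refine ⟨⟨one_ne_zero, one_ne_zero⟩, ?_, ?_⟩
          · rw [IsRoot.def, sA_eval, sub_self, zero_pow hm.ne', mul_zero]
          · have hB := hB1 ((1 : F), (1 : F))
            simp only [one_pow, mul_one] at hB
            simp only [one_pow]
            rw [(sA_one m).1, (sA_one m).2, hB, mul_one, one_mul]
    rw [h3, Set.ncard_pair]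
    intro h4
    exact zero_ne_one (congrArg Prod.fst h4)
end

end Pool.Agent.H470
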