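import Pool.Agent.H470.MomI7

/-!
# Polynomials with a given stable set of roots
-/

set_option autoImplicit false
set_option linter.all false

open Polynomial

namespace Pool.Agent.H470

section
variable {F k : Type} [Field F] [Finite F] [Field k] [IsAlgClosed k] [Algebra F k]
variable {M : Type} [Field M] [Algebra (RatFunc k) M] [Algebra k[X] M] [IsScalarTower k[X] (RatFunc k) M]

theorem exists_poly (Y : Finset M) (S : Set M)
    (hS : ∀ w ∈ S, IsIntegral (RatFunc k) w ∧
      ((minpoly (RatFunc k) w).map (algebraMap (RatFunc k) M)).Splits)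
    (hYS : ∀ y ∈ Y, y ∈ IntermediateField.adjoin (RatFunc k) S)
    (hYint : ∀ y ∈ Y, IsIntegral k[X] y) (hYsep : ∀ y ∈ Y, IsSeparable (RatFunc k) y)
    (hconj : ∀ (φ : IntermediateField.adjoin (RatFunc k) S →ₐ[RatFunc k] M) (y : M) (hy : y ∈ Y),
      φ ⟨y, hYS y hy⟩ ∈ Y) :
    ∃ G : k[X][X], G.Monic ∧ G.map (algebraMap k[X] M) = ∏ y ∈ Y, (X - C y) := by
  classical
  haveI : FaithfulSMul k[X] M := by
    apply (faithfulSMul_iff_algebraMap_injective _ _).2
    rw [IsScalarTower.algebraMap_eq k[X] (RatFunc k) M]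
    exact (algebraMap (RatFunc k) M).injective.comp (IsFractionRing.injective k[X] (RatFunc k))
  set cls := Y.image (minpoly k[X]) with hcls
  refine ⟨∏ f ∈ cls, f, ?_, ?_⟩
  · apply monic_prod_of_monic
    intro f hf
    rw [hcls, Finset.mem_image] at hf
    obtain ⟨y, hy, rfl⟩ := hf
    exact minpoly.monic (hYint y hy)
  rw [Polynomial.map_prod]
  rw [← Finset.prod_fiberwise_of_maps_to (s := Y) (t := cls) (g := minpoly k[X])
    (fun y hy => Finset.mem_image_of_mem _ hy)]
  refine Finset.prod_congr rfl fun f hf => ?_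
  rw [hcls, Finset.mem_image] at hf
  obtain ⟨y0, hy0, rfl⟩ := hf
  have hK : ∀ y ∈ Y, minpoly (RatFunc k) y = (minpoly k[X] y).map (algebraMap k[X] (RatFunc k)) := fun y hy =>
    minpoly.isIntegrallyClosed_eq_field_fractions' (RatFunc k) (hYint y hy)
  have hinj : Function.Injective (Polynomial.map (algebraMap k[X] (RatFunc k))) :=
    Polynomial.map_injective _ (IsFractionRing.injective k[X] (RatFunc k))
  set P := (minpoly (RatFunc k) y0).map (algebraMap (RatFunc k) M) with hP
  have hPeq : P = (minpoly k[X] y0).map (algebraMap k[X] M) := by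
    rw [hP, hK y0 hy0, Polynomial.map_map, ← IsScalarTower.algebraMap_eq]
  have hint0 : IsIntegral (RatFunc k) y0 := (hYint y0 hy0).tower_top
  have hPm : P.Monic := (minpoly.monic hint0).map _
  have hPs : P.Splits := IntermediateField.splits_of_mem_adjoin (RatFunc k) M hS (hYS y0 hy0)
  have hPsep : P.Separable := Polynomial.Separable.map (hYsep y0 hy0)
  rw [← hPeq]
  have hroots : P.roots = (Y.filter fun y => minpoly k[X] y = minpoly k[X] y0).val := by
    refine (Multiset.Nodup.ext (nodup_roots hPsep) (Finset.nodup _)).2 fun a => ?_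
    rw [Finset.mem_val, Finset.mem_filter, mem_roots hPm.ne_zero, IsRoot.def, hP, eval_map]
    constructor
    · intro ha
      have ha' : aeval a (minpoly (RatFunc k) y0) = 0 := ha
      obtain ⟨φ, hφ⟩ := IntermediateField.exists_algHom_adjoin_of_splits_of_aeval hS (hYS y0 hy0) ha'
      have haY : a ∈ Y := by rw [← hφ]; exact hconj φ y0 hy0
      refine ⟨haY, ?_⟩
      apply hinj
      rw [← hK a haY, ← hK y0 hy0]
      exact (minpoly.eq_of_irreducible_of_monic (minpoly.irreducible hint0) ha' (minpoly.monic hint0)).symm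
    · rintro ⟨haY, ha⟩
      have h1 : minpoly (RatFunc k) y0 = minpoly (RatFunc k) a := by
        rw [hK a haY, hK y0 hy0, ha]
      show aeval a (minpoly (RatFunc k) y0) = 0
      rw [h1]
      exact minpoly.aeval _ _
  rw [hPs.eq_prod_roots_of_monic hPm, hroots]
  rfl

theorem exists_polyF {Ψ : M →+* M} (hΨ : Semi F (k := k) Ψ) (Y : Finset M) (S : Set M)
    (hS : ∀ w ∈ S, IsIntegral (RatFunc k) w ∧
      ((minpoly (RatFunc k) w).map (algebraMap (RatFunc k) M)).Splits)
    (hYS : ∀ y ∈ Y, y ∈ IntermediateField.adjoin (RatFunc k) S)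
    (hYint : ∀ y ∈ Y, IsIntegral k[X] y) (hYsep : ∀ y ∈ Y, IsSeparable (RatFunc k) y)
    (hconj : ∀ (φ : IntermediateField.adjoin (RatFunc k) S →ₐ[RatFunc k] M) (y : M) (hy : y ∈ Y),
      φ ⟨y, hYS y hy⟩ ∈ Y) (hYΨ : ∀ y ∈ Y, Ψ y ∈ Y) :
    ∃ g : F[X][X], g.Monic ∧
      (g.map (mapRingHom (algebraMap F k))).map (algebraMap k[X] M) = ∏ y ∈ Y, (X - C y) := by
  classical
  haveI : FaithfulSMul k[X] M := by
    apply (faithfulSMul_iff_algebraMap_injective _ _).2
    rw [IsScalarTower.algebraMap_eq k[X] (RatFunc k) M]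
    exact (algebraMap (RatFunc k) M).injective.comp (IsFractionRing.injective k[X] (RatFunc k))
  obtain ⟨G, hG, hGY⟩ := exists_poly Y S hS hYS hYint hYsep hconj
  have hfr : G.map (mapRingHom (fr F k)) = G := by
    apply Polynomial.map_injective (algebraMap k[X] M) (FaithfulSMul.algebraMap_injective _ _)
    have h1 : (G.map (mapRingHom (fr F k))).map (algebraMap k[X] M) = (G.map (algebraMap k[X] M)).map Ψ := by
      rw [Polynomial.map_map, Polynomial.map_map]
      congr 1
      refine RingHom.ext fun p => ?_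
      rw [RingHom.comp_apply, RingHom.comp_apply, hΨ.poly, coe_mapRingHom]
    rw [h1, hGY, Polynomial.map_prod]
    have h2 : Y.image Ψ = Y := by
      apply Finset.eq_of_subset_of_card_le
      · intro y hy
        rw [Finset.mem_image] at hy
        obtain ⟨y', hy', rfl⟩ := hy
        exact hYΨ y' hy'
      · rw [Finset.card_image_of_injective _ Ψ.injective]
    conv_rhs => rw [← h2]
    rw [Finset.prod_image (fun a _ b _ hab => Ψ.injective hab)]
    refine Finset.prod_congr rfl fun y _ => ?_
    rw [Polynomial.map_sub, map_X, map_C]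
  obtain ⟨g, hg⟩ := descent2 F k G hfr
  have hinjF : Function.Injective (mapRingHom (algebraMap F k)) :=
    Polynomial.map_injective _ (algebraMap F k).injective
  exact ⟨g, monic_of_injective hinjF (by rw [hg]; exact hG), by rw [hg]; exact hGY⟩

end

theorem exists_lv {F M : Type} [Field F] [Finite F] [Field M] (c : F →+* M) {J : Type} [Fintype J] {r : ℕ}
    (w : J → Fin r → M) (hw : Function.Injective w) (hq : (Fintype.card J) ^ 2 < Nat.card F) :
    ∃ l : Fin r → F, Function.Injective (fun j => ∑ i, c (l i) * w j i) := by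
  classical
  letI : Algebra F M := c.toAlgebra
  let I : Finset (J × J) := Finset.univ.offDiag
  let fn : J × J → ((Fin r → F) →ₗ[F] M) := fun p =>
    { toFun := fun l => ∑ i, c (l i) * (w p.1 i - w p.2 i)
      map_add' := by
        intro a b
        simp only [Pi.add_apply, map_add, add_mul, Finset.sum_add_distrib]
      map_smul' := by
        intro a b
        simp only [Pi.smul_apply, smul_eq_mul, map_mul, RingHom.id_apply, Algebra.smul_def,
          Finset.mul_sum, mul_assoc]
        rfl }
  obtain ⟨l, hl⟩ := exists_notMem_submodules (F := F) (V := Fin r → F) I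
    (fun p => LinearMap.ker (fn p))
    (by
      rintro ⟨p1, p2⟩ hp htop
      rw [Finset.mem_offDiag] at hp
      obtain ⟨i, hi⟩ : ∃ i, w p1 i ≠ w p2 i := by
        by_contra h
        push Not at h
        exact hp.2.2 (hw (funext h))
      have h1 : (Pi.single i (1 : F) : Fin r → F) ∈ LinearMap.ker (fn (p1, p2)) := by
        rw [htop]; trivial
      rw [LinearMap.mem_ker] at h1
      have h2 : fn (p1, p2) (Pi.single i (1 : F)) = w p1 i - w p2 i := by
        show ∑ i', c ((Pi.single i (1 : F) : Fin r → F) i') * (w p1 i' - w p2 i') = _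
        rw [Finset.sum_eq_single i]
        · rw [Pi.single_eq_same, map_one, one_mul]
        · intro b _ hb
          rw [Pi.single_eq_of_ne hb, map_zero, zero_mul]
        · intro h
          exact absurd (Finset.mem_univ _) h
      rw [h2, sub_eq_zero] at h1
      exact hi h1)
    (by
      refine lt_of_le_of_lt ?_ hq
      rw [Finset.offDiag_card, Finset.card_univ, sq]
      exact Nat.sub_le _ _)
  refine ⟨l, fun a b hab => ?_⟩
  by_contra hne
  apply hl (a, b) (Finset.mem_offDiag.2 ⟨Finset.mem_univ _, Finset.mem_univ _, hne⟩)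
  rw [LinearMap.mem_ker]
  show ∑ i, c (l i) * (w a i - w b i) = 0
  have h3 : ∑ i, c (l i) * w a i - ∑ i, c (l i) * w b i = 0 := sub_eq_zero.2 hab
  rw [← Finset.sum_sub_distrib] at h3
  rw [← h3]
  exact Finset.sum_congr rfl fun i _ => by ring

end Pool.Agent.H470
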