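import Pool.Agent.H470.SecE9

/-!
# The dichotomy for the sectors: final form
-/

set_option autoImplicit false
set_option linter.all false

open Polynomial

namespace Pool.Agent.H470

theorem sec_dichM {F : Type} [Field F] [Fintype F] [DecidableEq F] (k : Type) [Field k]
    [IsAlgClosed k] [Algebra F k] [Algebra.IsAlgebraic F k] (M : Type) [Field M]
    [Algebra (RatFunc k) M] [Algebra k[X] M] [IsScalarTower k[X] (RatFunc k) M] (Ψ : M →+* M)
    (hΨ : Semi F (k := k) Ψ) (h m : ℕ) (hh : 2 ≤ h) (hd : h ∣ Fintype.card F - 1)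
    (A B : F × F → F[X]) (Rt : F × F → Finset M)
    (hfull : ∀ c ∈ secs F h, Full k (A c) (B c) (Rt c) ∧ (A c).natDegree ≤ m ∧
      ((A c).eval 0 ≠ 0 ∨ (B c).eval 0 ≠ 0) ∧ ((A c).eval 1 ≠ 0 ∨ (B c).eval 1 ≠ 0))
    (hω : ∀ c ∈ secs F h, ∀ s ∈ Rt c, (∃ ω, ω ^ h = s) ∧ ∃ ω, ω ^ h = 1 - s)
    (Bad : Finset F) (hBad : Bad.card ≤ 3) (a : ℕ)
    (hval : ∀ t0 ∉ Bad, (∑ c ∈ secs F h, {x : F | (A c - C t0 * B c).eval x = 0 ∧
        x ^ ((Fintype.card F - 1) / h) = c.1 ∧ (1 - x) ^ ((Fintype.card F - 1) / h) = c.2}.ncard = 0) ∨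
      (∑ c ∈ secs F h, {x : F | (A c - C t0 * B c).eval x = 0 ∧
        x ^ ((Fintype.card F - 1) / h) = c.1 ∧ (1 - x) ^ ((Fintype.card F - 1) / h) = c.2}.ncard = a))
    (hq : 10000 * (h ^ 4 * m) ^ 24 < Fintype.card F) :
    (∑ c ∈ secs F h, {s | s ∈ Rt c ∧ Ψ s = s ∧ cl k h Ψ s c.1 ∧ cl k h Ψ (1 - s) c.2}.ncard = 0) ∨
    (∑ c ∈ secs F h, {s | s ∈ Rt c ∧ Ψ s = s ∧ cl k h Ψ s c.1 ∧ cl k h Ψ (1 - s) c.2}.ncard = a) := by
  classical
  have hh0 : 0 < h := by omega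
  have hex : ∀ z : F, ∃ g : F, z ^ h = 1 → g ≠ 0 ∧ g ^ ((Fintype.card F - 1) / h) = z := by
    intro z
    by_cases hz : z ^ h = 1
    · obtain ⟨g, hg⟩ := exists_gamma h hh0 hd z hz
      exact ⟨g, fun _ => hg⟩
    · exact ⟨0, fun h1 => absurd h1 hz⟩
  choose γ hγ using hex
  have hsec : ∀ c ∈ secs F h, c.1 ^ h = 1 ∧ c.2 ^ h = 1 := fun c hc => (mem_secs h hh0 c).1 hc
  have hD : SecD k h (secs F h) A B Rt γ :=
    { hh := hh0
      hd := hd
      full := fun c hc => (hfull c hc).1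
      z0 := fun c hc => (hfull c hc).2.2.1
      z1 := fun c hc => (hfull c hc).2.2.2
      om := hω
      g0 := fun c hc => ⟨(hγ _ (hsec c hc).1).1, (hγ _ (hsec c hc).2).1⟩
      gz := fun c hc => ⟨(hγ _ (hsec c hc).1).2, (hγ _ (hsec c hc).2).2⟩ }
  obtain ⟨n, hn⟩ : ∃ n, n = (JS k h (secs F h) Rt γ).ncard := ⟨_, rfl⟩
  have hn1 : n = h ^ 2 * ∑ c ∈ secs F h, (A c).natDegree := by rw [hn, hD.card]
  have hs1 : (secs F h).card ≤ ∑ c ∈ secs F h, (A c).natDegree := by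
    rw [Finset.card_eq_sum_ones]
    exact Finset.sum_le_sum fun c hc => (hfull c hc).1.pos
  have hs2 : ∑ c ∈ secs F h, (A c).natDegree ≤ h * h * m := by
    refine (Finset.sum_le_card_nsmul _ _ m fun c hc => (hfull c hc).2.1).trans ?_
    rw [smul_eq_mul]
    exact Nat.mul_le_mul_right _ (card_secs h)
  have hs3 : 1 ≤ (secs F h).card := by
    rw [Nat.succ_le_iff, Finset.card_pos]
    exact ⟨(1, 1), (mem_secs h hh0 _).2 ⟨one_pow _, one_pow _⟩⟩
  have hh4 : 4 ≤ h ^ 2 := by nlinarith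
  have hn4 : 4 * (secs F h).card ≤ n := by
    rw [hn1]
    exact Nat.mul_le_mul hh4 hs1
  have hnm : n ≤ h ^ 4 * m := by
    rw [hn1]
    calc h ^ 2 * ∑ c ∈ secs F h, (A c).natDegree ≤ h ^ 2 * (h * h * m) := Nat.mul_le_mul_left _ hs2
      _ = h ^ 4 * m := by ring
  have hfin : (JS k h (secs F h) Rt γ).Finite := Set.finite_of_ncard_pos (by omega)
  haveI : Fintype (JS k h (secs F h) Rt γ) := hfin.fintype
  have hJn : Fintype.card (JS k h (secs F h) Rt γ) = n := by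
    rw [hn, ← Nat.card_eq_fintype_card]
    rfl
  have hcint : ∀ z : F, IsIntegral k[X] (cM k (M := M) z) := fun z => isIntegral_algebraMap
  -- the bad values
  obtain ⟨Bad', hBad'⟩ : ∃ Bad' : Finset F, Bad' = Bad ∪
    ((secs F h).image (fun c => (A c).eval 0 / (B c).eval 0) ∪
      (secs F h).image (fun c => (A c).eval 1 / (B c).eval 1)) := ⟨_, rfl⟩
  have hB'c : Bad'.card ≤ n ^ 6 := by
    have h1 : Bad'.card ≤ 3 + ((secs F h).card + (secs F h).card) := by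
      rw [hBad']
      refine (Finset.card_union_le _ _).trans (Nat.add_le_add hBad ?_)
      exact (Finset.card_union_le _ _).trans (Nat.add_le_add Finset.card_image_le Finset.card_image_le)
    have h2 : n ^ 1 ≤ n ^ 6 := Nat.pow_le_pow_right (by omega) (by norm_num)
    have h3 : n ^ 2 ≤ n ^ 6 := Nat.pow_le_pow_right (by omega) (by norm_num)
    have h4 : 4 * n ≤ n ^ 2 := by nlinarith
    omega
  have hnz : ∀ t0 ∉ Bad', (t0 ∉ Bad) ∧ (∀ c ∈ secs F h, (A c - C t0 * B c).eval 0 ≠ 0) ∧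
      ∀ c ∈ secs F h, (A c - C t0 * B c).eval 1 ≠ 0 := by
    intro t0 ht0
    rw [hBad', Finset.mem_union, Finset.mem_union, not_or, not_or] at ht0
    obtain ⟨h1, h2, h3⟩ := ht0
    refine ⟨h1, ?_, ?_⟩
    · intro c hc h4
      apply h2
      rw [Finset.mem_image]
      refine ⟨c, hc, ?_⟩
      rw [eval_sub, eval_mul, eval_C] at h4
      have hB0 : (B c).eval 0 ≠ 0 := by
        intro h5
        rw [h5, mul_zero, sub_zero] at h4
        rcases (hfull c hc).2.2.1 with h0 | h0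
        · exact h0 h4
        · exact h0 h5
      rw [div_eq_iff hB0]
      linear_combination h4
    · intro c hc h4
      apply h3
      rw [Finset.mem_image]
      refine ⟨c, hc, ?_⟩
      rw [eval_sub, eval_mul, eval_C] at h4
      have hB0 : (B c).eval 1 ≠ 0 := by
        intro h5
        rw [h5, mul_zero, sub_zero] at h4
        rcases (hfull c hc).2.2.2 with h0 | h0
        · exact h0 h4
        · exact h0 h5
      rw [div_eq_iff hB0]
      linear_combination h4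
  have hmain := lgJ (F := F) k M Ψ hΨ (r := 4) (J := JS k h (secs F h) Rt γ) n hJn (by omega)
    (fun j => wJ k j.1) (fun j j' hjj => Subtype.ext (wJ_inj hjj)) (fun j i => (hD.P4 j.1 j.2 i).1)
    (fun j i => (hD.P4 j.1 j.2 i).2.1) (fun j i => (hD.P4 j.1 j.2 i).2.2.1) (fun j i => (hD.P4 j.1 j.2 i).2.2.2)
    (by
      intro φ j
      refine ⟨⟨(j.1.1, φ ⟨wJ k j.1 0, IntermediateField.subset_adjoin _ _ ⟨(j, 0), rfl⟩⟩,
        φ ⟨wJ k j.1 1, IntermediateField.subset_adjoin _ _ ⟨(j, 1), rfl⟩⟩), j.2.1, ?_, ?_⟩, ?_⟩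
      · exact conj_root (hD.full _ j.2.1) _ _ _ φ _ _ j.2.2.1
      · exact conj_rel _ _ _ _ φ _ _ _ _ j.2.2.2
      · intro i
        fin_cases i
        · rfl
        · rfl
        · exact conj_cM _ φ _ _
        · exact conj_cM _ φ _ _)
    (by
      intro j
      refine ⟨⟨(j.1.1, Ψ j.1.2.1, Ψ j.1.2.2), j.2.1, ?_, ?_⟩, ?_⟩
      · exact Ψ_root hΨ (hD.full _ j.2.1) _ _ _ j.2.2.1
      · have h1 := congrArg Ψ j.2.2.2
        rw [map_add, map_mul, map_mul, map_pow, map_pow, map_one, Ψ_cM hΨ, Ψ_cM hΨ] at h1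
        exact h1
      · intro i
        fin_cases i
        · rfl
        · rfl
        · exact Ψ_cM hΨ _
        · exact Ψ_cM hΨ _)
    Bad' hB'c (h ^ 2 * a)
    (by
      intro t0 ht0 ev hev hinj
      obtain ⟨h1, h2, h3⟩ := hnz t0 ht0
      refine ⟨hD.frob t0 ev hev, ?_⟩
      have h4 := hD.count t0 ev hev hinj h2 h3
      rcases hval t0 h1 with h5 | h5
      · left
        refine h4.trans ?_
        rw [h5, mul_zero]
      · right
        refine h4.trans ?_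
        rw [h5])
    (lt_of_le_of_lt (Nat.mul_le_mul_left _ (Nat.pow_le_pow_left hnm 24)) hq)
  have hfin2 : {j : JS k h (secs F h) Rt γ | ∀ i, Ψ (wJ k j.1 i) = wJ k j.1 i}.ncard =
      h ^ 2 * ∑ c ∈ secs F h, {s | s ∈ Rt c ∧ Ψ s = s ∧ cl k h Ψ s c.1 ∧ cl k h Ψ (1 - s) c.2}.ncard := by
    rw [← hD.cnt hΨ, ← Set.ncard_image_of_injective _ Subtype.val_injective]
    congr 1
    ext p
    simp only [Set.mem_image, Set.mem_setOf_eq]
    constructor
    · rintro ⟨j, hj, rfl⟩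
      exact ⟨j.2, hj⟩
    · rintro ⟨h1, h2⟩
      exact ⟨⟨p, h1⟩, h2, rfl⟩
  rw [hfin2] at hmain
  have hh2 : 0 < h ^ 2 := by positivity
  rcases hmain with h1 | h1
  · left
    rcases Nat.mul_eq_zero.1 h1 with h2 | h2
    · omega
    · exact h2
  · right
    exact Nat.eq_of_mul_eq_mul_left hh2 h1

end Pool.Agent.H470
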