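import Pool.Agent.H470.SecE10
import Pool.Agent.H470.Sec12

/-!
# The local dichotomy
-/

set_option autoImplicit false
set_option linter.all false

open Polynomial

namespace Pool.Agent.H470

/-- **The local dichotomy with sectors.** -/
theorem sec_dich_local {F : Type} [Field F] [Fintype F] [DecidableEq F] (k : Type) [Field k]
    [IsAlgClosed k] [Algebra F k] [Algebra.IsAlgebraic F k] (h m N : ℕ) (hh : 2 ≤ h) (hN : 0 < N)
    (hd : h ∣ Fintype.card F - 1) (A B : F × F → F[X]) (v c : F) (hc : c ≠ 0)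
    (hAB : ∀ i ∈ secs F h, (A i).Monic ∧ 0 < (A i).natDegree ∧ (A i).natDegree ≤ m ∧ (B i).degree < (A i).degree ∧
      ((A i).eval 0 ≠ 0 ∨ (B i).eval 0 ≠ 0) ∧ ((A i).eval 1 ≠ 0 ∨ (B i).eval 1 ≠ 0) ∧
      (∀ y : k, ((A i - C v * B i).map (algebraMap F k)).IsRoot y →
        ((B i).map (algebraMap F k)).eval y ≠ 0) ∧
      (∀ y : k, ((A i - C v * B i).map (algebraMap F k)).IsRoot y →
        (((A i - C v * B i).map (algebraMap F k)).rootMultiplicity y : k) ≠ 0) ∧
      (∀ y : k, ((A i - C v * B i).map (algebraMap F k)).IsRoot y →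
        h * ((A i - C v * B i).map (algebraMap F k)).rootMultiplicity y ∣ N))
    (Bad : Finset F) (hBad : Bad.card ≤ 3) (a : ℕ)
    (hval : ∀ t0 ∉ Bad, (∑ c ∈ secs F h, {x : F | (A c - C t0 * B c).eval x = 0 ∧
        x ^ ((Fintype.card F - 1) / h) = c.1 ∧ (1 - x) ^ ((Fintype.card F - 1) / h) = c.2}.ncard = 0) ∨
      (∑ c ∈ secs F h, {x : F | (A c - C t0 * B c).eval x = 0 ∧
        x ^ ((Fintype.card F - 1) / h) = c.1 ∧ (1 - x) ^ ((Fintype.card F - 1) / h) = c.2}.ncard = a))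
    (hq : 10000 * (h ^ 4 * m) ^ 24 < Fintype.card F) :
    (∑ i ∈ secs F h, FixS (A i - C v * B i) (B i) c ((Fintype.card F - 1) / h) i.1 i.2 = 0) ∨
    (∑ i ∈ secs F h, FixS (A i - C v * B i) (B i) c ((Fintype.card F - 1) / h) i.1 i.2 = a) := by
  classical
  have hh0 : 0 < h := by omega
  have hhk : (h : k) ≠ 0 := by
    have := natcast_ne_zero_of_dvd (F := F) h hd
    rw [← map_natCast (algebraMap F k)]
    exact (map_ne_zero_iff _ (algebraMap F k).injective).2 this
  have hck : algebraMap F k c ≠ 0 := (map_ne_zero_iff _ (algebraMap F k).injective).2 hc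
  set T : k[X] := C (algebraMap F k v) + C (algebraMap F k c) * X ^ N with hT
  haveI hTf : Fact (0 < T.natDegree) := ⟨by
    rw [hT, natDegree_C_add, natDegree_C_mul_X_pow _ _ hck]
    exact hN⟩
  have hTm : T.map (fr F k) = T := by
    rw [hT, Polynomial.map_add, Polynomial.map_mul, Polynomial.map_pow, map_X, map_C, map_C,
      fr_algebraMap, fr_algebraMap]
  have hloc : ∀ i ∈ secs F h, ∃ Rt : Finset (PSFT T), Full k (A i) (B i) Rt ∧
      (∀ s ∈ Rt, (∃ ω, ω ^ h = s) ∧ ∃ ω, ω ^ h = 1 - s) ∧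
      ∀ z1 z2 : F, {s | s ∈ Rt ∧ mapT T (fr F k) s = s ∧ cl k h (mapT T (fr F k)) s z1 ∧
          cl k h (mapT T (fr F k)) (1 - s) z2}.ncard =
        FixS (A i - C v * B i) (B i) c ((Fintype.card F - 1) / h) z1 z2 := by
    intro i hi
    obtain ⟨h1, h2, h3, h4, h5, h6, h7, h8, h9⟩ := hAB i hi
    exact local_sector h N hh0 hhk hd hN (A i) (B i) h1 h2 h4 v c hc T hT h7 h8 h9
  choose! Rt hRt using hloc
  have hfin := sec_dichM (F := F) k (PSFT T) (mapT T (fr F k)) (semiT (F := F) T hTm) h m hh hd A B Rt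
    (fun i hi => ⟨(hRt i hi).1, (hAB i hi).2.2.1, (hAB i hi).2.2.2.2.1, (hAB i hi).2.2.2.2.2.1⟩)
    (fun i hi => (hRt i hi).2.1) Bad hBad a hval hq
  have hsum : ∑ c ∈ secs F h, {s | s ∈ Rt c ∧ mapT T (fr F k) s = s ∧ cl k h (mapT T (fr F k)) s c.1 ∧
      cl k h (mapT T (fr F k)) (1 - s) c.2}.ncard =
      ∑ i ∈ secs F h, FixS (A i - C v * B i) (B i) c ((Fintype.card F - 1) / h) i.1 i.2 :=
    Finset.sum_congr rfl fun i hi => (hRt i hi).2.2 i.1 i.2
  rw [hsum] at hfin
  exact hfin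

/-- **Finite places: the dichotomy.** -/
theorem pos_dich {F : Type} [Field F] [Fintype F] [DecidableEq F] (h e : ℕ) (hh : 2 ≤ h) (he : 2 ≤ e)
    (hq : 10000 * (h ^ 4 * e) ^ 24 < Fintype.card F) (hchar : ringChar F ≠ 2) (hd : h ∣ Fintype.card F - 1)
    (hee : (e : F) ≠ 0) (hee1 : ((e - 1 : ℕ) : F) ≠ 0) (r s : ℕ) (hs : s = e + r * ((Fintype.card F - 1) / h))
    (hsodd : Odd s) (v0 : F) (a : ℕ) (hval : ∀ t ≠ v0, cnt s t = 0 ∨ cnt s t = a) (v c : F) (hc : c ≠ 0) :
    ((cnt s v : ℤ) + quadraticChar F c * quadraticChar F (2 * e * (e - 1 : ℕ)) * tw s v = 0) ∨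
    ((cnt s v : ℤ) + quadraticChar F c * quadraticChar F (2 * e * (e - 1 : ℕ)) * tw s v = a) := by
  classical
  have hh0 : 0 < h := by omega
  have h2F : (2 : F) ≠ 0 := Ring.two_ne_zero hchar
  set n := (Fintype.card F - 1) / h with hn
  have hq1 : 1 < Fintype.card F := Fintype.one_lt_card
  have hs1 : 1 < s := by omega
  set k := AlgebraicClosure F
  have hinj := (algebraMap F k).injective
  have h2k : (2 : k) ≠ 0 := by
    have := (map_ne_zero_iff (algebraMap F k) hinj).2 h2F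
    rwa [map_ofNat] at this
  have heek : (e : k) ≠ 0 := by
    have := (map_ne_zero_iff (algebraMap F k) hinj).2 hee
    rwa [map_natCast] at this
  have heek1 : ((e - 1 : ℕ) : k) ≠ 0 := by
    have := (map_ne_zero_iff (algebraMap F k) hinj).2 hee1
    rwa [map_natCast] at this
  have hroot : ∀ i ∈ secs F h, i.1 ^ r ≠ 0 ∧ i.2 ^ r ≠ 0 := by
    intro i hi
    rw [mem_secs h hh0] at hi
    constructor
    · apply pow_ne_zero
      intro h0
      rw [h0, zero_pow hh0.ne'] at hi
      exact zero_ne_one hi.1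
    · apply pow_ne_zero
      intro h0
      rw [h0, zero_pow hh0.ne'] at hi
      exact zero_ne_one hi.2
  set A : F × F → F[X] := fun i => C (lcS e (i.1 ^ r) (i.2 ^ r))⁻¹ * dS e (i.1 ^ r) (i.2 ^ r) with hA
  set B : F × F → F[X] := fun i => C (lcS e (i.1 ^ r) (i.2 ^ r))⁻¹ with hB
  have hAB : ∀ i v, A i - C v * B i = PS e (i.1 ^ r) (i.2 ^ r) v := fun i v => rfl
  have hcond : ∀ i ∈ secs F h, (A i).Monic ∧ 0 < (A i).natDegree ∧ (A i).natDegree ≤ e ∧
      (B i).degree < (A i).degree ∧ ((A i).eval 0 ≠ 0 ∨ (B i).eval 0 ≠ 0) ∧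
      ((A i).eval 1 ≠ 0 ∨ (B i).eval 1 ≠ 0) ∧
      (∀ y : k, ((A i - C v * B i).map (algebraMap F k)).IsRoot y →
        ((B i).map (algebraMap F k)).eval y ≠ 0) ∧
      (∀ y : k, ((A i - C v * B i).map (algebraMap F k)).IsRoot y →
        (((A i - C v * B i).map (algebraMap F k)).rootMultiplicity y : k) ≠ 0) ∧
      (∀ y : k, ((A i - C v * B i).map (algebraMap F k)).IsRoot y →
        h * ((A i - C v * B i).map (algebraMap F k)).rootMultiplicity y ∣ 2 * h) := by
    intro i hi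
    obtain ⟨hi1, hi2⟩ := hroot i hi
    have hl := inv_ne_zero (lcS_ne he hee (i.1 ^ r) (i.2 ^ r) hi2)
    obtain ⟨h3, h4, h5, h6⟩ := AS_props he hee (i.1 ^ r) (i.2 ^ r) hi2
    have hk1 : algebraMap F k (i.1 ^ r) ≠ 0 := (map_ne_zero_iff _ hinj).2 hi1
    have hk2 : algebraMap F k (i.2 ^ r) ≠ 0 := (map_ne_zero_iff _ hinj).2 hi2
    have hmult : ∀ y : k, ((A i - C v * B i).map (algebraMap F k)).IsRoot y →
        ((A i - C v * B i).map (algebraMap F k)).rootMultiplicity y = 1 ∨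
        ((A i - C v * B i).map (algebraMap F k)).rootMultiplicity y = 2 := by
      intro y hy
      rw [hAB, PS_map] at hy ⊢
      rcases mult_le_two h2k _ (PS_ne_zero he heek _ _ _ hk2) y hy
        (PS_second he heek heek1 _ _ _ hk1 hk2 y) with h7 | h7
      · exact Or.inl h7.2
      · exact Or.inr h7.2
    refine ⟨h3, h4, h5, h6, ?_, ?_, ?_, ?_, ?_⟩
    · right
      rw [hB]
      simp only [eval_C]
      exact hl
    · right
      rw [hB]
      simp only [eval_C]
      exact hl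
    · intro y _
      rw [hB]
      simp only [map_C, eval_C]
      exact (map_ne_zero_iff _ hinj).2 hl
    · intro y hy
      rcases hmult y hy with h7 | h7
      · rw [h7]; simp
      · rw [h7]; exact_mod_cast h2k
    · intro y hy
      rcases hmult y hy with h7 | h7
      · rw [h7, mul_one]; exact Dvd.intro_left 2 rfl
      · rw [h7, mul_comm]
  have hcount : ∀ t0 : F, t0 ≠ 1 → cnt s t0 = ∑ i ∈ secs F h, {x : F | (A i - C t0 * B i).eval x = 0 ∧
      x ^ n = i.1 ∧ (1 - x) ^ n = i.2}.ncard := by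
    intro t0 ht01
    rw [sum_sectors (secs F h) (fun x : F => x ^ n) (fun x : F => (1 - x) ^ n)
      (fun i x => (A i - C t0 * B i).eval x = 0)]
    unfold cnt
    rw [← Set.ncard_coe_finset]
    congr 1
    ext x
    simp only [Set.mem_setOf_eq, Finset.coe_filter, Finset.mem_univ, true_and]
    rw [pow_secs h hh0 hd x (1 - x)]
    have hx : ∀ x : F, (x ^ n) ^ r * x ^ e = x ^ s := by
      intro x
      rw [← pow_mul, ← pow_add]
      congr 1
      rw [hs, mul_comm n r]
      omega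
    have hev : ∀ (hx1 : 1 - x ≠ 0), ((A (x ^ n, (1 - x) ^ n) - C t0 * B (x ^ n, (1 - x) ^ n)).eval x = 0 ↔
        x ^ s + (1 - x) ^ s = t0) := by
      intro hx1
      have h3 := PS_root he hee ((x ^ n) ^ r) (((1 - x) ^ n) ^ r) t0 (pow_ne_zero _ (pow_ne_zero _ hx1)) x
      rw [hx, hx] at h3
      exact h3
    constructor
    · intro h2
      have hx0 : x ≠ 0 := by
        rintro rfl
        rw [zero_pow (by omega), sub_zero, one_pow, zero_add] at h2
        exact ht01 h2.symm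
      have hx1 : 1 - x ≠ 0 := by
        intro h3
        have h4 : x = 1 := by linear_combination -h3
        rw [h4, sub_self, zero_pow (by omega), one_pow, add_zero] at h2
        exact ht01 h2.symm
      exact ⟨⟨hx0, hx1⟩, (hev hx1).2 h2⟩
    · rintro ⟨⟨hx0, hx1⟩, h2⟩
      exact (hev hx1).1 h2
  have hmain := sec_dich_local (F := F) k h e (2 * h) hh (by omega) hd A B v c hc hcond {1, v0}
    (Finset.card_le_two.trans (by norm_num)) a (by
      intro t0 ht0
      rw [Finset.mem_insert, Finset.mem_singleton, not_or] at ht0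
      obtain ⟨ht01, ht0v⟩ := ht0
      rw [← hn, ← hcount t0 ht01]
      exact hval t0 ht0v) hq
  rw [← fixS_sum hchar h e r s hh0 hd he hee hee1 hs hsodd v c hc]
  rcases hmain with h1 | h1
  · left
    exact_mod_cast h1
  · right
    exact_mod_cast h1

end Pool.Agent.H470
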