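import Pool.Agent.H470.SecE12

/-!
# Negative integers modulo `(q - 1) / h`: the effective theorem
-/

set_option autoImplicit false
set_option linter.all false

open Polynomial

namespace Pool.Agent.H470

theorem neg_dich {F : Type} [Field F] [Fintype F] [DecidableEq F] (h m : ℕ) (hh : 2 ≤ h) (hm : 0 < m)
    (hq : 10000 * (h ^ 4 * (2 * m)) ^ 24 < Fintype.card F) (hd : h ∣ Fintype.card F - 1)
    (hmF : (m : F) ≠ 0) (s r : ℕ) (hs0 : 0 < s) (hcop : Nat.Coprime s (Fintype.card F - 1))
    (hsr : s + m = r * ((Fintype.card F - 1) / h)) (v0 : F) (a : ℕ)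
    (hval : ∀ t ≠ v0, fc (Ds s) t = 0 ∨ fc (Ds s) t = a) : a = 2 := by
  classical
  have hh0 : 0 < h := by omega
  set n := (Fintype.card F - 1) / h with hn
  have hq1 : 1 < Fintype.card F := Fintype.one_lt_card
  have hn0 : 0 < n := Nat.div_pos (Nat.le_of_dvd (by omega) hd) hh0
  set k := AlgebraicClosure F
  have hinj := (algebraMap F k).injective
  have hmk : (m : k) ≠ 0 := by
    have := (map_ne_zero_iff (algebraMap F k) hinj).2 hmF
    rwa [map_natCast] at this
  have hP : ∀ i : F × F, sA F m - C (0 : F) * sB m (i.1 ^ r) (i.2 ^ r) = sA F m := by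
    intro i
    rw [C_0, zero_mul, sub_zero]
  have hne1 : ((-1 : F) ^ m) ≠ 0 := pow_ne_zero _ (neg_ne_zero.2 one_ne_zero)
  have hroot : ∀ i ∈ secs F h, i.1 ^ r ≠ 0 ∧ i.2 ^ r ≠ 0 := by
    intro i hi
    rw [mem_secs h hh0] at hi
    constructor
    · apply pow_ne_zero
      intro h0
      rw [h0, zero_pow hh0.ne'] at hi
      exact zero_ne_one hi.1
    · apply pow_ne_zero
      intro h0
      rw [h0, zero_pow hh0.ne'] at hi
      exact zero_ne_one hi.2
  have hB0 : ∀ i : F × F, (sB m (i.1 ^ r) (i.2 ^ r)).eval 0 = (-1) ^ m * i.1 ^ r := by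
    intro i
    rw [sB_eval, sub_zero, one_pow, mul_one, zero_pow hm.ne', mul_zero, add_zero]
  have hB1 : ∀ i : F × F, (sB m (i.1 ^ r) (i.2 ^ r)).eval 1 = (-1) ^ m * i.2 ^ r := by
    intro i
    rw [sB_eval, sub_self, one_pow, mul_one, zero_pow hm.ne', mul_zero, zero_add]
  have hcond : ∀ i ∈ secs F h, (sA F m).Monic ∧ 0 < (sA F m).natDegree ∧ (sA F m).natDegree ≤ 2 * m ∧
      (sB m (i.1 ^ r) (i.2 ^ r)).degree < (sA F m).degree ∧
      ((sA F m).eval 0 ≠ 0 ∨ (sB m (i.1 ^ r) (i.2 ^ r)).eval 0 ≠ 0) ∧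
      ((sA F m).eval 1 ≠ 0 ∨ (sB m (i.1 ^ r) (i.2 ^ r)).eval 1 ≠ 0) ∧
      (∀ y : k, ((sA F m - C (0 : F) * sB m (i.1 ^ r) (i.2 ^ r)).map (algebraMap F k)).IsRoot y →
        ((sB m (i.1 ^ r) (i.2 ^ r)).map (algebraMap F k)).eval y ≠ 0) ∧
      (∀ y : k, ((sA F m - C (0 : F) * sB m (i.1 ^ r) (i.2 ^ r)).map (algebraMap F k)).IsRoot y →
        (((sA F m - C (0 : F) * sB m (i.1 ^ r) (i.2 ^ r)).map (algebraMap F k)).rootMultiplicity y : k) ≠ 0) ∧
      (∀ y : k, ((sA F m - C (0 : F) * sB m (i.1 ^ r) (i.2 ^ r)).map (algebraMap F k)).IsRoot y →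
        h * ((sA F m - C (0 : F) * sB m (i.1 ^ r) (i.2 ^ r)).map (algebraMap F k)).rootMultiplicity y ∣ h * m) := by
    intro i hi
    obtain ⟨hi1, hi2⟩ := hroot i hi
    have hPk : (sA F m - C (0 : F) * sB m (i.1 ^ r) (i.2 ^ r)).map (algebraMap F k) = sA k m := by
      rw [hP, sA_map]
    refine ⟨sA_monic m, by rw [sA_natDegree]; omega, (sA_natDegree m).le, sB_degree m hm _ _, ?_, ?_, ?_, ?_, ?_⟩
    · right
      rw [hB0]
      exact mul_ne_zero hne1 hi1
    · right
      rw [hB1]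
      exact mul_ne_zero hne1 hi2
    · intro y hy
      rw [hPk] at hy
      rcases sA_root m y hy with rfl | rfl
      · have h4 : ((sB m (i.1 ^ r) (i.2 ^ r)).map (algebraMap F k)).eval 0 = algebraMap F k ((-1) ^ m * i.1 ^ r) := by
          rw [← hB0, ← eval_map_apply, map_zero]
        rw [h4]
        exact (map_ne_zero_iff _ hinj).2 (mul_ne_zero hne1 hi1)
      · rw [← map_one (algebraMap F k), eval_map_apply, hB1]
        exact (map_ne_zero_iff _ hinj).2 (mul_ne_zero hne1 hi2)
    · intro y hy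
      rw [hPk] at hy ⊢
      rcases sA_root m y hy with rfl | rfl
      · rw [(sA_zero m).1]; exact hmk
      · rw [(sA_one m).1]; exact hmk
    · intro y hy
      rw [hPk] at hy ⊢
      rcases sA_root m y hy with rfl | rfl
      · rw [(sA_zero m).1]
      · rw [(sA_one m).1]
  have hcount : ∀ t0 : F, t0 ≠ 0 → t0 ≠ 1 → fc (Ds s) t0⁻¹ = ∑ i ∈ secs F h, {x : F | (sA F m - C t0 * sB m (i.1 ^ r) (i.2 ^ r)).eval x = 0 ∧
        x ^ n = i.1 ∧ (1 - x) ^ n = i.2}.ncard := by
    intro t0 ht00 ht01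
    have h1 : fc (Ds s) t0⁻¹ = ∑ i ∈ secs F h, {x : F | (sA F m - C t0 * sB m (i.1 ^ r) (i.2 ^ r)).eval x = 0 ∧
        x ^ n = i.1 ∧ (1 - x) ^ n = i.2}.ncard := by
      rw [sum_sectors (secs F h) (fun x : F => x ^ n) (fun x : F => (1 - x) ^ n)
        (fun i x => (sA F m - C t0 * sB m (i.1 ^ r) (i.2 ^ r)).eval x = 0), fc_ncard]
      congr 1
      ext x
      simp only [Set.mem_setOf_eq]
      rw [pow_secs h hh0 hd x (1 - x)]
      have hx1 : (x ^ n) ^ r = x ^ s * x ^ m := by
        rw [← pow_mul, mul_comm n r, ← hsr, pow_add]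
      have hx2 : ((1 - x) ^ n) ^ r = (1 - x) ^ s * (1 - x) ^ m := by
        rw [← pow_mul, mul_comm n r, ← hsr, pow_add]
      have hev : (sA F m - C t0 * sB m ((x ^ n) ^ r) (((1 - x) ^ n) ^ r)).eval x =
          x ^ m * (x - 1) ^ m * (1 - t0 * Ds s x) := by
        rw [eval_sub, eval_mul, eval_C, sA_eval, sB_eval, hx1, hx2]
        have : (1 - x) ^ m = (-1) ^ m * (x - 1) ^ m := by
          rw [← mul_pow]; congr 1; ring
        have h3 : ((-1 : F) ^ m) * (-1) ^ m = 1 := by
          rw [← mul_pow]; simp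
        unfold Ds
        rw [this]
        linear_combination (-(t0 * x ^ m * (x - 1) ^ m * (x ^ s + (1 - x) ^ s))) * h3
      rw [hev]
      constructor
      · intro h2
        have hx0 : x ≠ 0 := by
          rintro rfl
          unfold Ds at h2
          rw [zero_pow hs0.ne', sub_zero, one_pow, zero_add] at h2
          apply ht01
          rw [← inv_inv t0, ← h2, inv_one]
        have hx1 : 1 - x ≠ 0 := by
          intro h3
          have h4 : x = 1 := by linear_combination -h3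
          rw [h4] at h2
          unfold Ds at h2
          rw [sub_self, zero_pow hs0.ne', one_pow, add_zero] at h2
          apply ht01
          rw [← inv_inv t0, ← h2, inv_one]
        refine ⟨⟨hx0, hx1⟩, ?_⟩
        rw [h2, mul_inv_cancel₀ ht00, sub_self, mul_zero]
      · rintro ⟨⟨hx0, hx1⟩, h2⟩
        have hx1' : x - 1 ≠ 0 := fun h3 => hx1 (by linear_combination -h3)
        have h3 := (mul_eq_zero.1 h2).resolve_left (mul_ne_zero (pow_ne_zero _ hx0) (pow_ne_zero _ hx1'))
        apply eq_inv_of_mul_eq_one_left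
        linear_combination -h3
    exact h1
  have h2 : ∑ i ∈ secs F h, FixS (sA F m - C (0 : F) * sB m (i.1 ^ r) (i.2 ^ r)) (sB m (i.1 ^ r) (i.2 ^ r)) 1 n i.1 i.2 = 2 := by
    have h2 : ∑ i ∈ secs F h, FixS (sA F m - C (0 : F) * sB m (i.1 ^ r) (i.2 ^ r)) (sB m (i.1 ^ r) (i.2 ^ r)) 1 n i.1 i.2 = ∑ i ∈ secs F h,
        {p : F × F | ((sA F m).IsRoot p.1 ∧ p.2 ^ (sA F m).rootMultiplicity p.1 * cof (sA F m) p.1 =
          1 * (sB m (i.1 ^ r) (i.2 ^ r)).eval p.1) ∧ ld0 p ^ n = i.1 ∧ ld1 p ^ n = i.2}.ncard := by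
      refine Finset.sum_congr rfl fun i hi => ?_
      unfold FixS
      rw [hP]
      congr 1
      ext p
      simp only [Set.mem_setOf_eq, and_assoc]
    rw [h2, sum_sectors (secs F h) (fun p : F × F => ld0 p ^ n) (fun p : F × F => ld1 p ^ n)
        (fun i p => (sA F m).IsRoot p.1 ∧ p.2 ^ (sA F m).rootMultiplicity p.1 * cof (sA F m) p.1 =
          1 * (sB m (i.1 ^ r) (i.2 ^ r)).eval p.1)]
    have h3 : {p : F × F | (ld0 p ^ n, ld1 p ^ n) ∈ secs F h ∧ (sA F m).IsRoot p.1 ∧
        p.2 ^ (sA F m).rootMultiplicity p.1 * cof (sA F m) p.1 =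
          1 * (sB m ((ld0 p ^ n) ^ r) ((ld1 p ^ n) ^ r)).eval p.1} = {(0, 1), (1, -1)} := by
      ext p
      simp only [Set.mem_setOf_eq, Set.mem_insert_iff, Set.mem_singleton_iff]
      rw [pow_secs h hh0 hd]
      constructor
      · rintro ⟨⟨h4, h5⟩, h6, h7⟩
        rcases sA_root m p.1 h6 with h8 | h8
        · left
          have hl : ld0 p = p.2 := by unfold ld0; rw [if_pos h8]
          have hB := hB0 (ld0 p ^ n, ld1 p ^ n)
          simp only at hB
          rw [h8, (sA_zero m).1, (sA_zero m).2, hB, one_mul, hl, ← pow_mul, mul_comm n r, ← hsr, mul_comm] at h7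
          have h9 := mul_left_cancel₀ hne1 h7
          rw [hl] at h4
          have h10 : p.2 ^ s = 1 ^ s := by
            rw [one_pow]
            apply mul_right_cancel₀ (pow_ne_zero m h4)
            rw [← pow_add, ← h9, one_mul]
          have h11 := eq_of_pow_eq hcop hs0 _ _ h10
          exact Prod.ext h8 h11
        · right
          have hl : ld1 p = -p.2 := by unfold ld1; rw [if_pos h8]
          have hB := hB1 (ld0 p ^ n, ld1 p ^ n)
          simp only at hB
          rw [h8, (sA_one m).1, (sA_one m).2, hB, one_mul, hl, ← pow_mul, mul_comm n r, ← hsr, mul_one] at h7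
          rw [hl] at h5
          have h9 : (-p.2) ^ m = (-p.2) ^ (s + m) := by
            have h3 : ((-1 : F) ^ m) * (-1) ^ m = 1 := by
              rw [← mul_pow]; simp
            have h10 : (-p.2) ^ m = (-1) ^ m * p.2 ^ m := by
              rw [← mul_pow]; congr 1; ring
            rw [h10, h7, ← mul_assoc, h3, one_mul]
          have h10 : (-p.2) ^ s = 1 ^ s := by
            rw [one_pow]
            apply mul_right_cancel₀ (pow_ne_zero m h5)
            rw [← pow_add, ← h9, one_mul]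
          have h11 := eq_of_pow_eq hcop hs0 _ _ h10
          exact Prod.ext h8 (by linear_combination -h11)
      · rintro (rfl | rfl)
        · have hl0 : ld0 ((0 : F), (1 : F)) = 1 := by unfold ld0; simp
          have hl1 : ld1 ((0 : F), (1 : F)) = 1 := by unfold ld1; simp
          rw [hl0, hl1]
          refine ⟨⟨one_ne_zero, one_ne_zero⟩, ?_, ?_⟩
          · rw [IsRoot.def, sA_eval, zero_pow hm.ne', zero_mul]
          · have hB := hB0 ((1 : F), (1 : F))
            simp only [one_pow, mul_one] at hB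
            simp only [one_pow]
            rw [(sA_zero m).2, hB]
        · have hl0 : ld0 ((1 : F), (-1 : F)) = 1 := by unfold ld0; simp
          have hl1 : ld1 ((1 : F), (-1 : F)) = 1 := by unfold ld1; simp
          rw [hl0, hl1]
          refine ⟨⟨one_ne_zero, one_ne_zero⟩, ?_, ?_⟩
          · rw [IsRoot.def, sA_eval, sub_self, zero_pow hm.ne', mul_zero]
          · have hB := hB1 ((1 : F), (1 : F))
            simp only [one_pow, mul_one] at hB
            simp only [one_pow]
            rw [(sA_one m).1, (sA_one m).2, hB, mul_one, one_mul]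
    rw [h3, Set.ncard_pair]
    intro h4
    exact zero_ne_one (congrArg Prod.fst h4)
  have hmain := sec_dich_local (F := F) k h (2 * m) (h * m) hh (Nat.mul_pos hh0 hm) hd (fun _ => sA F m)
    (fun i => sB m (i.1 ^ r) (i.2 ^ r)) 0 1 one_ne_zero hcond {0, 1, v0⁻¹} (Finset.card_le_three) a (by
      intro t0 ht0
      rw [Finset.mem_insert, Finset.mem_insert, Finset.mem_singleton, not_or, not_or] at ht0
      obtain ⟨ht00, ht01, ht0v⟩ := ht0
      rw [← hn, ← hcount t0 ht00 ht01]
      exact hval _ (fun h3 => ht0v (by rw [← h3, inv_inv]))) hq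
  rw [← hn, h2] at hmain
  omega

theorem main_neg_secE {F : Type} [Field F] [Fintype F] [DecidableEq F] (h m : ℕ) (hh : 2 ≤ h) (hm : 0 < m)
    (hq : 10000 * (h ^ 4 * (2 * m)) ^ 24 < Fintype.card F) (hchar : ringChar F ≠ 2)
    (hd : h ∣ Fintype.card F - 1)
    (hmF : (m : F) ≠ 0) (s r : ℕ) (hs0 : 0 < s) (hcop : Nat.Coprime s (Fintype.card F - 1))
    (hsr : s + m = r * ((Fintype.card F - 1) / h))
    (hnice : (Finset.univ.image (cnt s : F → ℕ)).card ≤ 3) : ∃ v : F, cnt s v = 2 := by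
  classical
  have h2 : (2 : F) ≠ 0 := Ring.two_ne_zero hchar
  set v0 := (2⁻¹ : F) ^ s + (1 - 2⁻¹) ^ s with hv0
  have hkey : ∀ a : ℕ, (∀ t : F, t ≠ v0 → cnt s t = 0 ∨ cnt s t = a) → a = 2 := by
    intro a hval
    exact neg_dich h m hh hm hq hd hmF s r hs0 hcop hsr v0 a hval
  have hbig : cnt s v0 < Fintype.card F := by
    by_contra hcon
    have hsum := sum_cnt (F := F) s
    have hz : ∀ t : F, t ≠ v0 → cnt s t = 0 := by
      intro t ht
      have h3 : cnt s t + cnt s v0 ≤ ∑ v : F, cnt s v := by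
        rw [← Finset.sum_pair (f := cnt s) ht]
        exact Finset.sum_le_sum_of_subset (Finset.subset_univ _)
      omega
    have h3 := hkey 0 (fun t ht => Or.inl (hz t ht))
    omega
  obtain ⟨a, ha0, haev, hval, va, hva⟩ := nice_values h2 s hs0 hnice hbig
  exact ⟨va, by rw [hva]; exact hkey a hval⟩

end Pool.Agent.H470
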