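import Pool.Agent.H470.SecE13
import Pool.Agent.H470.Sec14

/-!
# Integers modulo `(q - 1) / h`: the effective final statement
-/

set_option autoImplicit false
set_option linter.all false

namespace Pool.Agent.H470

section
variable {L : Type} [Field L] [Fintype L] [DecidableEq L]

/-- the reduction to `s ≡ E` modulo `(q - 1) / g`, with `g ≥ 2` -/
theorem sec_reduceE (hchar : ringChar L ≠ 2) (h : ℕ) (hh : 0 < h) (E : ℤ) (s j : ℕ)
    (hcop : Nat.Coprime s (Fintype.card L - 1))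
    (hj : (h : ℤ) * s ≡ h * (E * (ringChar L : ℤ) ^ j) [ZMOD ((Fintype.card L : ℤ) - 1)]) :
    ∃ g s' : ℕ, 2 ≤ g ∧ g ≤ h + 1 ∧ g ∣ Fintype.card L - 1 ∧ 0 < s' ∧ E.natAbs ≤ s' ∧
      Nat.Coprime s' (Fintype.card L - 1) ∧ s ≡ s' * ringChar L ^ j [MOD Fintype.card L - 1] ∧
      (((Fintype.card L - 1) / g : ℕ) : ℤ) ∣ (s' : ℤ) - E := by
  obtain ⟨g, s', hg0, hgh, hgd, h1, h2, h3, h4, h5⟩ := sec_reduce hchar h hh E s j hcop hj
  by_cases hg1 : g = 1
  · have hodd := FiniteField.odd_card_of_char_ne_two hchar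
    have h2d : 2 ∣ Fintype.card L - 1 := by omega
    refine ⟨2, s', le_rfl, by omega, h2d, h1, h2, h3, h4, ?_⟩
    rw [hg1, Nat.div_one] at h5
    exact (Int.natCast_dvd_natCast.2 (Nat.div_dvd_of_dvd h2d)).trans h5
  · exact ⟨g, s', by omega, by omega, hgd, h1, h2, h3, h4, h5⟩

/-- the values of the twisted exponent -/
theorem image_twist (s s' j : ℕ) (hkey : ∀ v : L, fc (Ds s) (v ^ ringChar L ^ j) = cnt s' v)
    (hnice : (Finset.univ.image (fc (Ds (L := L) s))).card ≤ 3) :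
    (Finset.univ.image (cnt s' : L → ℕ)).card ≤ 3 := by
  refine (Finset.card_le_card ?_).trans hnice
  intro m hm
  rw [Finset.mem_image] at hm ⊢
  obtain ⟨v, -, hv⟩ := hm
  exact ⟨v ^ ringChar L ^ j, Finset.mem_univ _, (hkey v).trans hv⟩

theorem sec_directE (hchar : ringChar L ≠ 2) (h : ℕ) (hh : 0 < h) (e : ℤ) (he : e ≠ 0)
    (hp : 2 ≤ e → ¬ (ringChar L : ℤ) ∣ e * (e - 1)) (hb1 : e = 1 → (h + 1) ^ 4 ≤ Fintype.card L)
    (hb2 : e ≠ 1 → 10000 * (2 * e.natAbs * (h + 1) ^ 4) ^ 24 < Fintype.card L) (s j : ℕ)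
    (hcop : Nat.Coprime s (Fintype.card L - 1))
    (hs : ¬ ∃ k : ℕ, s ≡ ringChar L ^ k [MOD Fintype.card L - 1])
    (hj : (h : ℤ) * s ≡ h * (e * (ringChar L : ℤ) ^ j) [ZMOD ((Fintype.card L : ℤ) - 1)])
    (hnice : (Finset.univ.image (fc (Ds (L := L) s))).card ≤ 3) : ∃ v : L, fc (Ds s) v = 2 := by
  classical
  have hq2 := card_gt_two (L := L) hchar
  have hs0 := s_pos hchar s hcop
  rcases lt_or_gt_of_ne he with hneg | hpos
  · obtain ⟨m, hm⟩ : ∃ m : ℕ, e = -(m : ℤ) := ⟨e.natAbs, by omega⟩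
    have hm0 : 0 < m := by omega
    have hpr : (ringChar L).Prime := CharP.char_is_prime L (ringChar L)
    obtain ⟨i, m', hm'p, hmm⟩ := Nat.exists_eq_pow_mul_and_not_dvd hm0.ne' (ringChar L) hpr.ne_one
    have hm'0 : 0 < m' := by
      rcases Nat.eq_zero_or_pos m' with h0 | h0
      · rw [h0, mul_zero] at hmm
        omega
      · exact h0
    have hm'm : m' ≤ m := by
      rw [hmm]
      exact Nat.le_mul_of_pos_left _ (pow_pos hpr.pos _)
    have hj' : (h : ℤ) * s ≡ h * (-(m' : ℤ) * (ringChar L : ℤ) ^ (i + j)) [ZMOD ((Fintype.card L : ℤ) - 1)] := by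
      have h1 : (e * (ringChar L : ℤ) ^ j) = (-(m' : ℤ) * (ringChar L : ℤ) ^ (i + j)) := by
        rw [hm, hmm]
        push_cast
        ring
      rwa [h1] at hj
    obtain ⟨g, s', hg2, hgh, hgd, hs'0, -, hcop', hss, hdiv⟩ := sec_reduceE hchar h hh _ s (i + j) hcop hj'
    have hm'L : (m' : L) ≠ 0 := by
      intro h0
      exact hm'p ((ringChar.spec L m').1 h0)
    obtain ⟨r, hr⟩ : ∃ r : ℕ, s' + m' = r * ((Fintype.card L - 1) / g) := by
      have h1 : (((Fintype.card L - 1) / g : ℕ) : ℤ) ∣ ((s' + m' : ℕ) : ℤ) := by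
        rw [sub_neg_eq_add] at hdiv
        exact_mod_cast hdiv
      obtain ⟨r, hr⟩ := Int.natCast_dvd_natCast.1 h1
      exact ⟨r, by rw [hr, mul_comm]⟩
    have hkey := fc_twist hchar s s' (i + j) hs0 hs'0 hss
    have hbound : 10000 * (g ^ 4 * (2 * m')) ^ 24 < Fintype.card L := by
      refine lt_of_le_of_lt (Nat.mul_le_mul_left _ (Nat.pow_le_pow_left ?_ 24)) (hb2 (by omega))
      have h1 : g ^ 4 ≤ (h + 1) ^ 4 := Nat.pow_le_pow_left hgh 4
      have h2 : 2 * m' ≤ 2 * e.natAbs := by omega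
      calc g ^ 4 * (2 * m') ≤ (h + 1) ^ 4 * (2 * e.natAbs) := Nat.mul_le_mul h1 h2
        _ = 2 * e.natAbs * (h + 1) ^ 4 := by ring
    obtain ⟨v, hv⟩ := main_neg_secE g m' hg2 hm'0 hbound hchar hgd hm'L s' r hs'0 hcop' hr
      (image_twist s s' (i + j) hkey hnice)
    exact ⟨v ^ ringChar L ^ (i + j), (hkey v).trans hv⟩
  · by_cases he1 : e = 1
    · exfalso
      have hqZ : ((Fintype.card L - 1 : ℕ) : ℤ) = (Fintype.card L : ℤ) - 1 := by
        rw [Nat.cast_sub (by omega)]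
        norm_num
      have hk : h * s ≡ h * ringChar L ^ j [MOD Fintype.card L - 1] := by
        rw [← Int.natCast_modEq_iff, hqZ]
        push_cast
        rw [he1, one_mul] at hj
        exact hj
      have h4 := aut_final hchar h hh (hb1 he1) s ⟨j, hk⟩ hs
      have hfun : (fun v : L => (Finset.univ.filter (fun p : L × L =>
          p.1 + p.2 = 1 ∧ p.1 ^ s + p.2 ^ s = v)).card) = fc (Ds (L := L) s) := by
        funext v
        exact pairs_eq s v
      rw [hfun] at h4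
      omega
    · obtain ⟨m, hm⟩ : ∃ m : ℕ, e = (m : ℤ) := ⟨e.natAbs, by omega⟩
      have hm2 : 2 ≤ m := by omega
      have hp' := hp (by omega)
      have hmL : (m : L) ≠ 0 := by
        intro h0
        apply hp'
        rw [hm]
        exact Dvd.dvd.mul_right (Int.natCast_dvd_natCast.2 ((ringChar.spec L m).1 h0)) _
      have hmL1 : ((m - 1 : ℕ) : L) ≠ 0 := by
        intro h0
        apply hp'
        have h1 := Int.natCast_dvd_natCast.2 ((ringChar.spec L (m - 1)).1 h0)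
        rw [Nat.cast_sub (by omega)] at h1
        rw [hm]
        exact Dvd.dvd.mul_left (by exact_mod_cast h1) _
      obtain ⟨g, s', hg2, hgh, hgd, hs'0, hs'e, hcop', hss, hdiv⟩ := sec_reduceE hchar h hh _ s j hcop hj
      obtain ⟨r, hr⟩ : ∃ r : ℕ, s' = m + r * ((Fintype.card L - 1) / g) := by
        have h1 : (((Fintype.card L - 1) / g : ℕ) : ℤ) ∣ ((s' - m : ℕ) : ℤ) := by
          rw [Nat.cast_sub (by omega)]
          rw [hm] at hdiv
          exact hdiv
        obtain ⟨r, hr⟩ := Int.natCast_dvd_natCast.1 h1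
        refine ⟨r, ?_⟩
        rw [mul_comm r, ← hr]
        omega
      have hkey := fc_twist hchar s s' j hs0 hs'0 hss
      have hbound : 10000 * (g ^ 4 * m) ^ 24 < Fintype.card L := by
        refine lt_of_le_of_lt (Nat.mul_le_mul_left _ (Nat.pow_le_pow_left ?_ 24)) (hb2 he1)
        have h1 : g ^ 4 ≤ (h + 1) ^ 4 := Nat.pow_le_pow_left hgh 4
        have h2 : m ≤ 2 * e.natAbs := by omega
        calc g ^ 4 * m ≤ (h + 1) ^ 4 * (2 * e.natAbs) := Nat.mul_le_mul h1 h2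
          _ = 2 * e.natAbs * (h + 1) ^ 4 := by ring
      obtain ⟨v, hv⟩ := main_pos_secE g m hg2 hm2 hbound hchar hgd hmL hmL1 r s' hr
        (s_odd hchar s' hcop') (image_twist s s' j hkey hnice)
      exact ⟨v ^ ringChar L ^ j, (hkey v).trans hv⟩

/-- **the effective final statement** -/
theorem sec_finalE (hchar : ringChar L ≠ 2) (h : ℕ) (hh : 0 < h) (e : ℤ) (he : e ≠ 0)
    (hp : 2 ≤ e → ¬ (ringChar L : ℤ) ∣ e * (e - 1)) (hb1 : e = 1 → (h + 1) ^ 4 ≤ Fintype.card L)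
    (hb2 : e ≠ 1 → 10000 * (2 * e.natAbs * (h + 1) ^ 4) ^ 24 < Fintype.card L) (s j : ℕ)
    (hcop : Nat.Coprime s (Fintype.card L - 1))
    (hs : ¬ ∃ k : ℕ, s ≡ ringChar L ^ k [MOD Fintype.card L - 1])
    (hj : (h : ℤ) * s ≡ h * (e * (ringChar L : ℤ) ^ j) [ZMOD ((Fintype.card L : ℤ) - 1)] ∨
        (h : ℤ) * (s * e) ≡ h * (ringChar L : ℤ) ^ j [ZMOD ((Fintype.card L : ℤ) - 1)])
    (hnice : (Finset.univ.image (fc (Ds (L := L) s))).card ≤ 3) : ∃ v : L, fc (Ds s) v = 2 := by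
  rcases hj with hj | hj
  · exact sec_directE hchar h hh e he hp hb1 hb2 s j hcop hs hj hnice
  · obtain ⟨s', j', hcop', hs', hj', hsub⟩ := inv_general hchar s hcop hs h j e hj
    obtain ⟨v, hv⟩ := sec_directE hchar h hh e he hp hb1 hb2 s' j' hcop' hs' hj'
      ((Finset.card_le_card hsub).trans hnice)
    have h2 : 2 ∈ Finset.univ.image (fc (Ds (L := L) s')) := by
      rw [Finset.mem_image]
      exact ⟨v, Finset.mem_univ _, hv⟩
    have h3 := hsub h2
    rw [Finset.mem_image] at h3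
    obtain ⟨w, -, hw⟩ := h3
    exact ⟨w, hw⟩

end

end Pool.Agent.H470
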