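import Pool.Agent.H470.SecE1

/-!
# The dichotomy for stable sets of tuples
-/

set_option autoImplicit false
set_option linter.all false

open Polynomial

namespace Pool.Agent.H470

theorem lgJ {F : Type} [Field F] [Fintype F] [DecidableEq F] (k : Type) [Field k]
    [IsAlgClosed k] [Algebra F k] [Algebra.IsAlgebraic F k] (M : Type) [Field M]
    [Algebra (RatFunc k) M] [Algebra k[X] M] [IsScalarTower k[X] (RatFunc k) M] (Ψ : M →+* M)
    (hΨ : Semi F (k := k) Ψ) {r : ℕ} {J : Type} [Fintype J] (n : ℕ)
    (hJ : Fintype.card J = n) (hn : 0 < n)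
    (w : J → Fin r → M) (hw : Function.Injective w)
    (hint : ∀ j i, IsIntegral k[X] (w j i))
    (hinf : ∀ j i, IntInf (k := k) (algebraMap (RatFunc k) M (RatFunc.X ^ 1)⁻¹ * w j i))
    (hsplit : ∀ j i, ((minpoly (RatFunc k) (w j i)).map (algebraMap (RatFunc k) M)).Splits)
    (hsep : ∀ j i, IsSeparable (RatFunc k) (w j i))
    (hconj : ∀ (φ : IntermediateField.adjoin (RatFunc k) (Set.range fun p : J × Fin r => w p.1 p.2)
        →ₐ[RatFunc k] M) (j : J),
      ∃ j', ∀ i, φ ⟨w j i, IntermediateField.subset_adjoin _ _ ⟨(j, i), rfl⟩⟩ = w j' i)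
    (hΨJ : ∀ j, ∃ j', ∀ i, Ψ (w j i) = w j' i)
    (Bad : Finset F) (hB : Bad.card ≤ n ^ 6) (a : ℕ)
    (hspec : ∀ t0 ∉ Bad, ∀ ev : integralClosure k[X] M →+* k,
      (∀ p, ev (algebraMap k[X] _ p) = p.eval (algebraMap F k t0)) →
      (Function.Injective fun j => fun i => ev ⟨w j i, hint j i⟩) →
      (∀ j, ∃ j', ∀ i, ev ⟨w j' i, hint j' i⟩ = fr F k (ev ⟨w j i, hint j i⟩)) ∧
      ({j | ∀ i, fr F k (ev ⟨w j i, hint j i⟩) = ev ⟨w j i, hint j i⟩}.ncard = 0 ∨
        {j | ∀ i, fr F k (ev ⟨w j i, hint j i⟩) = ev ⟨w j i, hint j i⟩}.ncard = a))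
    (hq : 10000 * n ^ 24 < Fintype.card F) :
    {j | ∀ i, Ψ (w j i) = w j i}.ncard = 0 ∨ {j | ∀ i, Ψ (w j i) = w j i}.ncard = a := by
  classical
  haveI : FaithfulSMul k[X] M := by
    apply (faithfulSMul_iff_algebraMap_injective _ _).2
    rw [IsScalarTower.algebraMap_eq k[X] (RatFunc k) M]
    exact (algebraMap (RatFunc k) M).injective.comp (IsFractionRing.injective k[X] (RatFunc k))
  set S : Set M := Set.range fun p : J × Fin r => w p.1 p.2 with hSdef
  set c : F →+* M := (algebraMap k[X] M).comp ((C : k →+* k[X]).comp (algebraMap F k)) with hc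
  have hn1 : 1 ≤ n := hn
  have hcardF : (Fintype.card J) ^ 2 < Nat.card F := by
    rw [hJ, Nat.card_eq_fintype_card]
    have h1 : n ^ 2 ≤ n ^ 24 := Nat.pow_le_pow_right hn1 (by norm_num)
    omega
  obtain ⟨l, hl⟩ := exists_lv c w hw hcardF
  set y : J → M := fun j => ∑ i, c (l i) * w j i with hy
  have hmemS : ∀ j i, w j i ∈ IntermediateField.adjoin (RatFunc k) S := fun j i =>
    IntermediateField.subset_adjoin _ _ ⟨(j, i), rfl⟩
  have hcalg : ∀ x : F, c x = algebraMap (RatFunc k) M (algebraMap k[X] (RatFunc k) (C (algebraMap F k x))) := by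
    intro x
    rw [← IsScalarTower.algebraMap_apply]
    rfl
  have hcint : ∀ x : F, IsIntegral k[X] (c x) := fun x => isIntegral_algebraMap
  have hcmem : ∀ x : F, c x ∈ IntermediateField.adjoin (RatFunc k) S := by
    intro x
    rw [hcalg]
    exact IntermediateField.algebraMap_mem _ _
  have hymem : ∀ j, y j ∈ IntermediateField.adjoin (RatFunc k) S := by
    intro j
    rw [hy]
    exact sum_mem fun i _ => mul_mem (hcmem _) (hmemS j i)
  have hyint : ∀ j, IsIntegral k[X] (y j) := by
    intro j
    rw [hy]
    exact IsIntegral.sum _ fun i _ => (hcint _).mul (hint j i)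
  have hyinf : ∀ j, IntInf (k := k) (algebraMap (RatFunc k) M (RatFunc.X ^ 1)⁻¹ * y j) := by
    intro j
    rw [hy]
    simp only
    rw [Finset.mul_sum]
    refine intInf_sum _ _ fun i _ => ?_
    have h1 : algebraMap (RatFunc k) M (RatFunc.X ^ 1)⁻¹ * (c (l i) * w j i) =
        c (l i) * (algebraMap (RatFunc k) M (RatFunc.X ^ 1)⁻¹ * w j i) := by ring
    rw [h1, hcalg]
    exact (intInf_of_mem (C_mem_Oinf _)).mul (hinf j i)
  have hysep : ∀ j, IsSeparable (RatFunc k) (y j) := by
    intro j
    have hle : IntermediateField.adjoin (RatFunc k) S ≤ separableClosure (RatFunc k) M :=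
      IntermediateField.adjoin_le_iff.2 (by
        rintro _ ⟨⟨j, i⟩, rfl⟩
        exact mem_separableClosure_iff.2 (hsep j i))
    exact mem_separableClosure_iff.1 (hle (hymem j))
  set Y : Finset M := Finset.univ.image y with hY
  have hmemY : ∀ z, z ∈ Y ↔ ∃ j, y j = z := by
    intro z
    rw [hY, Finset.mem_image]
    simp
  obtain ⟨g, hgm, hgY⟩ := exists_polyF hΨ Y S
    (by
      rintro _ ⟨⟨j, i⟩, rfl⟩
      exact ⟨(hint j i).tower_top, hsplit j i⟩)
    (by
      intro z hz
      obtain ⟨j, rfl⟩ := (hmemY z).1 hz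
      exact hymem j)
    (by
      intro z hz
      obtain ⟨j, rfl⟩ := (hmemY z).1 hz
      exact hyint j)
    (by
      intro z hz
      obtain ⟨j, rfl⟩ := (hmemY z).1 hz
      exact hysep j)
    (by
      intro φ z hz
      obtain ⟨j, rfl⟩ := (hmemY z).1 hz
      obtain ⟨j', hj'⟩ := hconj φ j
      refine (hmemY _).2 ⟨j', ?_⟩
      have h1 : (⟨y j, hymem j⟩ : IntermediateField.adjoin (RatFunc k) S) =
          ∑ i, algebraMap (RatFunc k) _ (algebraMap k[X] (RatFunc k) (C (algebraMap F k (l i)))) *
            ⟨w j i, hmemS j i⟩ := by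
        apply Subtype.ext
        rw [IntermediateField.coe_sum]
        show y j = _
        rw [hy]
        refine Finset.sum_congr rfl fun i _ => ?_
        rw [hcalg]
        rfl
      have h2 : (⟨y j, (by exact hymem j)⟩ : IntermediateField.adjoin (RatFunc k) S) =
        ⟨y j, hymem j⟩ := rfl
      show y j' = φ ⟨y j, _⟩
      rw [h2, h1, map_sum, hy]
      refine Finset.sum_congr rfl fun i _ => ?_
      rw [map_mul, AlgHom.commutes, hcalg]
      congr 1
      exact (hj' i).symm)
    (by
      intro z hz
      obtain ⟨j, rfl⟩ := (hmemY z).1 hz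
      obtain ⟨j', hj'⟩ := hΨJ j
      refine (hmemY _).2 ⟨j', ?_⟩
      rw [hy]
      simp only
      rw [map_sum]
      refine Finset.sum_congr rfl fun i _ => ?_
      rw [map_mul, hj' i]
      congr 1
      show c (l i) = Ψ (algebraMap k[X] M (C (algebraMap F k (l i))))
      rw [hΨ.C, fr_algebraMap]
      rfl)
  let e : Fin n ≃ J := (Fintype.equivFinOfCardEq hJ).symm
  have hYprod : ∏ z ∈ Y, (X - C z : M[X]) = ∏ j : Fin n, (X - C (y (e j))) := by
    rw [hY, Finset.prod_image (fun a _ b _ hab => hl hab)]
    exact (Equiv.prod_comp e (fun j => (X - C (y j) : M[X]))).symm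
  have hgd : g.natDegree = n := by
    have h1 := congrArg natDegree hgY
    rw [(hgm.map _).natDegree_map, hgm.natDegree_map, hYprod,
      natDegree_prod_of_monic _ _ fun _ _ => monic_X_sub_C _] at h1
    rw [h1]
    simp
  have hroot : ∀ j : Fin n, aeval (y (e j)) (g.map (mapRingHom (algebraMap F k))) = 0 := by
    intro j
    rw [aeval_def, ← eval_map, hgY, hYprod, eval_prod]
    exact Finset.prod_eq_zero (Finset.mem_univ j) (by simp)
  have hinj : Function.Injective fun j : Fin n => y (e j) := fun a b hab => e.injective (hl hab)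
  let D : DatI F k M n 1 := ⟨Ψ, hΨ, g, hgm, hgd, fun j => y (e j), hinj, fun j => hyinf (e j), hroot⟩
  have hth : ∀ τ : Fin 1 → Fin n, th D.c (fun _ => (1 : F)) D.y τ = y (e (τ 0)) := by
    intro τ
    unfold th
    rw [Fin.sum_univ_one, map_one, one_mul]
  have hl1 : Function.Injective (th D.c (fun _ : Fin 1 => (1 : F)) D.y) := by
    intro τ τ' hττ
    rw [hth, hth] at hττ
    have h1 := hinj hττ
    funext i
    rw [Subsingleton.elim i 0]
    exact h1
  obtain ⟨P0, A, B, E, hP0, hE, hE0, hEd⟩ := D.exists_bez hl1 hn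
  set Bad' : Finset F := Bad ∪ E.roots.toFinset with hBad'
  have hBad'c : Bad'.card ≤ 3 * n ^ 6 := by
    have h0 : n ^ 2 ≤ n ^ 6 := Nat.pow_le_pow_right hn1 (by norm_num)
    have h1 := Finset.card_union_le Bad E.roots.toFinset
    have h2 : E.roots.toFinset.card ≤ E.natDegree := (Multiset.toFinset_card_le _).trans (card_roots' _)
    have h3 : 2 * n ^ 1 * (1 * n ^ 1) = 2 * n ^ 2 := by ring
    rw [h3] at hEd
    rw [hBad']
    omega
  -- the fibres
  have hfib : ∀ t0 ∉ Bad', {z : F | (g.map (evalRingHom t0)).eval z = 0}.ncard = 0 ∨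
      {z : F | (g.map (evalRingHom t0)).eval z = 0}.ncard = a := by
    intro t0 ht0
    rw [hBad', Finset.mem_union, not_or] at ht0
    obtain ⟨ht0B, ht0E⟩ := ht0
    have hEt : E.eval t0 ≠ 0 := by
      intro h0
      apply ht0E
      rw [Multiset.mem_toFinset, mem_roots hE0]
      exact h0
    set t0k := algebraMap F k t0 with ht0k
    let B' := integralClosure k[X] M
    have hinjB : Function.Injective (algebraMap k[X] B') := by
      intro a b h
      apply FaithfulSMul.algebraMap_injective k[X] M
      rw [IsScalarTower.algebraMap_apply k[X] B' M, h, ← IsScalarTower.algebraMap_apply]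
    obtain ⟨ev, hev⟩ := exists_ext' (algebraMap k[X] B') (Algebra.IsIntegral.isIntegral) (evalRingHom t0k) (by
      intro p hp
      rw [RingHom.mem_ker] at hp ⊢
      rw [hinjB (hp.trans (map_zero _).symm), map_zero])
    have hcomp : ev.comp (algebraMap k[X] B') = evalRingHom t0k := RingHom.ext hev
    have hgen : ∀ (ι : Type) (S : Finset ι) (f : k[X][X]) (z : ι → B'),
        f.map (algebraMap k[X] M) = ∏ i ∈ S, (X - C (z i : M)) →
        f.map (evalRingHom t0k) = ∏ i ∈ S, (X - C (ev (z i))) := by
      intro ι S f z h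
      have h1 : f.map (algebraMap k[X] B') = ∏ i ∈ S, (X - C (z i)) := by
        apply Polynomial.map_injective (algebraMap B' M) Subtype.val_injective
        rw [Polynomial.map_map, ← IsScalarTower.algebraMap_eq, h, Polynomial.map_prod]
        refine Finset.prod_congr rfl fun i _ => ?_
        rw [Polynomial.map_sub, map_X, map_C]
        rfl
      have h2 := congrArg (Polynomial.map ev) h1
      rw [Polynomial.map_map, hcomp, Polynomial.map_prod] at h2
      rw [h2]
      refine Finset.prod_congr rfl fun i _ => ?_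
      rw [Polynomial.map_sub, map_X, map_C]
    let yB : J → B' := fun j => ⟨y j, hyint j⟩
    let u : J → Fin r → k := fun j i => ev ⟨w j i, hint j i⟩
    have hevy : ∀ j, ev (yB j) = ∑ i, algebraMap F k (l i) * u j i := by
      intro j
      have h1 : yB j = ∑ i, algebraMap k[X] B' (C (algebraMap F k (l i))) * ⟨w j i, hint j i⟩ := by
        apply Subtype.ext
        have h2 : ((∑ i, algebraMap k[X] B' (C (algebraMap F k (l i))) * (⟨w j i, hint j i⟩ : B') : B') : M) =
            ∑ i, ((algebraMap k[X] B' (C (algebraMap F k (l i))) * (⟨w j i, hint j i⟩ : B') : B') : M) :=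
          map_sum (algebraMap B' M) _ _
        rw [h2]
        rfl
      rw [h1, map_sum]
      refine Finset.sum_congr rfl fun i _ => ?_
      rw [map_mul]
      congr 1
      rw [hev]
      simp
    -- the specialised values are distinct
    have hevinj : Function.Injective fun j => ev (yB j) := by
      have h1 : (D.Φ fun _ : Fin 1 => (1 : F)).map (evalRingHom t0k) =
          ∏ τ : Fin 1 → Fin n, (X - C (ev (yB (e (τ 0))))) := by
        apply hgen (Fin 1 → Fin n) Finset.univ _ (fun τ => yB (e (τ 0)))
        rw [D.Φ_map hl1]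
        refine Finset.prod_congr rfl fun τ _ => ?_
        rw [hth]
      have h2 : (P0.map (evalRingHom t0)).Separable := separable_of_bezout _ _ _ _ hE t0 hEt
      have h3 : (P0.map (evalRingHom t0)).map (algebraMap F k) = (D.Φ fun _ : Fin 1 => (1 : F)).map (evalRingHom t0k) := by
        rw [← hP0, Polynomial.map_map, Polynomial.map_map]
        congr 1
        apply Polynomial.ringHom_ext
        · intro c; simp
        · simp [t0k]
      have h4 : (∏ τ : Fin 1 → Fin n, (X - C (ev (yB (e (τ 0)))))).Separable := by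
        rw [← h1, ← h3]
        exact h2.map
      have h5 := separable_prod_X_sub_C_iff.1 h4
      intro j j' hjj
      have h6 : (fun _ : Fin 1 => e.symm j) = (fun _ : Fin 1 => e.symm j') := by
        apply h5
        simp only [Equiv.apply_symm_apply]
        exact hjj
      have h7 := congrFun h6 0
      exact e.symm.injective h7
    have huinj : Function.Injective u := by
      intro j j' hjj
      apply hevinj
      simp only
      rw [hevy, hevy, hjj]
    obtain ⟨hfrob, hcnt⟩ := hspec t0 ht0B ev hev huinj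
    have hgt : (g.map (evalRingHom t0)).map (algebraMap F k) = ∏ j : Fin n, (X - C (ev (yB (e j)))) := by
      have h1 := hgen (Fin n) Finset.univ (g.map (mapRingHom (algebraMap F k))) (fun j => yB (e j)) (by
        rw [hgY, hYprod])
      rw [← h1, Polynomial.map_map, Polynomial.map_map]
      congr 1
      apply Polynomial.ringHom_ext
      · intro c; simp
      · simp [t0k]
    have hrootz : ∀ z : F, (g.map (evalRingHom t0)).eval z = 0 ↔ ∃ j, ev (yB j) = algebraMap F k z := by
      intro z
      rw [← map_eq_zero_iff _ (algebraMap F k).injective, ← eval_map_apply, hgt, eval_prod,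
        Finset.prod_eq_zero_iff]
      constructor
      · rintro ⟨j, -, hj⟩
        rw [eval_sub, eval_X, eval_C, sub_eq_zero] at hj
        exact ⟨e j, hj.symm⟩
      · rintro ⟨j, hj⟩
        exact ⟨e.symm j, Finset.mem_univ _, by rw [Equiv.apply_symm_apply, hj, eval_sub, eval_X, eval_C, sub_self]⟩
    have hfry : ∀ j, fr F k (ev (yB j)) = ∑ i, algebraMap F k (l i) * fr F k (u j i) := by
      intro j
      rw [hevy, map_sum]
      refine Finset.sum_congr rfl fun i _ => ?_
      rw [map_mul, fr_algebraMap]
    have hex : ∀ j, (∀ i, fr F k (u j i) = u j i) → ∃ z : F, algebraMap F k z = ev (yB j) := by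
      intro j hj
      apply fr_fixed F k
      rw [hfry, hevy]
      exact Finset.sum_congr rfl fun i _ => by rw [hj i]
    have hncard : {z : F | (g.map (evalRingHom t0)).eval z = 0}.ncard =
        {j | ∀ i, fr F k (u j i) = u j i}.ncard := by
      symm
      refine Set.ncard_congr (fun j hj => (hex j hj).choose) ?_ ?_ ?_
      · intro j hj
        exact (hrootz _).2 ⟨j, (hex j hj).choose_spec.symm⟩
      · intro j j' hj hj' hjj
        apply hevinj
        simp only
        rw [← (hex j hj).choose_spec, ← (hex j' hj').choose_spec, hjj]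
      · intro z hz
        obtain ⟨j, hj⟩ := (hrootz z).1 hz
        obtain ⟨j', hj'⟩ := hfrob j
        have h1 : ev (yB j') = ev (yB j) := by
          have h2 : ev (yB j') = fr F k (ev (yB j)) := by
            rw [hfry, hevy]
            exact Finset.sum_congr rfl fun i _ => by rw [← hj' i]
          rw [h2, hj, fr_algebraMap]
        have h2 := hevinj h1
        subst h2
        have h3 : ∀ i, fr F k (u j' i) = u j' i := fun i => (hj' i).symm
        refine ⟨j', h3, ?_⟩
        apply (algebraMap F k).injective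
        rw [(hex j' h3).choose_spec, hj]
    rw [hncard]
    exact hcnt
  have hfinal := lgqI k M Ψ hΨ n hn g hgm hgd (fun j => y (e j)) hinj (fun j => hyinf (e j)) hroot Bad' hBad'c a
    hfib hq
  have hΨy : ∀ j, Ψ (y j) = y j ↔ ∀ i, Ψ (w j i) = w j i := by
    intro j
    have h1 : ∀ j, Ψ (y j) = ∑ i, c (l i) * Ψ (w j i) := by
      intro j
      rw [hy]
      simp only
      rw [map_sum]
      refine Finset.sum_congr rfl fun i _ => ?_
      rw [map_mul]
      congr 1
      show Ψ (algebraMap k[X] M (C (algebraMap F k (l i)))) = c (l i)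
      rw [hΨ.C, fr_algebraMap]
      rfl
    constructor
    · intro h
      obtain ⟨j', hj'⟩ := hΨJ j
      have h2 : y j' = y j := by
        rw [← h, h1]
        exact Finset.sum_congr rfl fun i _ => by rw [hj' i]
      have h3 := hl h2
      intro i
      rw [hj' i, h3]
    · intro h
      rw [h1]
      exact Finset.sum_congr rfl fun i _ => by rw [h i]
  have hcard : {j : Fin n | Ψ (y (e j)) = y (e j)}.ncard = {j | ∀ i, Ψ (w j i) = w j i}.ncard := by
    refine Set.ncard_congr (fun j _ => e j) ?_ ?_ ?_
    · intro j hj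
      exact (hΨy (e j)).1 hj
    · intro j j' _ _ hjj
      exact e.injective hjj
    · intro j hj
      exact ⟨e.symm j, by
        show Ψ (y (e (e.symm j))) = y (e (e.symm j))
        rw [Equiv.apply_symm_apply]
        exact (hΨy j).2 hj, by simp⟩
  rw [hcard] at hfinal
  exact hfinal

end Pool.Agent.H470
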