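import Pool.Agent.H470.Sec3
import Pool.Agent.H470.Inf

/-!
# Roots of the pulled back polynomials
-/

set_option autoImplicit false
set_option linter.all false

open Polynomial

namespace Pool.Agent.H470

theorem IntInf.of_pow {k : Type} [Field k] {E : Type} [Field E] [Algebra (RatFunc k) E] {x : E} {n : ℕ}
    (hn : 0 < n) (hx : IntInf (k := k) (x ^ n)) : IntInf (k := k) x := by
  letI : Algebra (Oinf k) E := ((algebraMap (RatFunc k) E).comp (Oinf k).subtype).toAlgebra
  have h : IsIntegral (Oinf k) (x ^ n) := hx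
  exact IsIntegral.of_pow hn h

theorem IntInf.pow {k : Type} [Field k] {E : Type} [Field E] [Algebra (RatFunc k) E] {x : E} (n : ℕ)
    (hx : IntInf (k := k) x) : IntInf (k := k) (x ^ n) := by
  letI : Algebra (Oinf k) E := ((algebraMap (RatFunc k) E).comp (Oinf k).subtype).toAlgebra
  have h : IsIntegral (Oinf k) x := hx
  exact IsIntegral.pow h n

theorem inv_X_mem (k : Type) [Field k] : (RatFunc.X ^ 1 : RatFunc k)⁻¹ ∈ Oinf k := by
  have := (mem_Oinf_poly (k := k) (p := 1) (m := 1)).2 (by simp)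
  simpa using this

section
variable {F k : Type} [Field F] [Finite F] [Field k] [Algebra F k] [IsAlgClosed k]
variable {M : Type} [Field M] [Algebra (RatFunc k) M] [Algebra k[X] M] [IsScalarTower k[X] (RatFunc k) M]

theorem cM_alg (z : F) : cM k (M := M) z =
    algebraMap (RatFunc k) M (algebraMap k[X] (RatFunc k) (C (algebraMap F k z))) := by
  rw [← IsScalarTower.algebraMap_apply]
  rfl

theorem intInf_cM (z : F) : IntInf (k := k) (cM k (M := M) z) := by
  rw [cM_alg]
  exact intInf_of_mem (C_mem_Oinf _)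

/-- the pulled back polynomial -/
noncomputable def PB1 (k : Type) [Field k] [Algebra F k] (A B : F[X]) (γ : F) (h : ℕ) : (RatFunc k)[X] :=
  ((gk k (gAB A B)).map (algebraMap k[X] (RatFunc k))).comp
    (C (algebraMap k[X] (RatFunc k) (C (algebraMap F k γ))) * X ^ h)

theorem PB1_aeval (A B : F[X]) (γ : F) (h : ℕ) (ω : M) :
    aeval ω (PB1 k A B γ h) = evM k (gAB A B) (cM k γ * ω ^ h) := by
  unfold PB1 evM
  rw [aeval_comp, map_mul, aeval_C, map_pow, aeval_X, aeval_map_algebraMap, ← cM_alg]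

theorem root_propsE (h : ℕ) (hh : 0 < h) (hhM : (h : M) ≠ 0) (ζ : M) (hζ : IsPrimitiveRoot ζ h) {A B : F[X]}
    {Rt : Finset M} (hF : Full k A B Rt) (hne : ∀ s ∈ Rt, s ≠ 0) (γ : F) (hγ : γ ≠ 0)
    (hω : ∀ s ∈ Rt, ∃ ω, cM k γ * ω ^ h = s) (ω : M) (hωR : cM k γ * ω ^ h ∈ Rt) :
    IsIntegral k[X] ω ∧ IntInf (k := k) (algebraMap (RatFunc k) M (RatFunc.X ^ 1)⁻¹ * ω) ∧
      ((minpoly (RatFunc k) ω).map (algebraMap (RatFunc k) M)).Splits ∧ IsSeparable (RatFunc k) ω := by
  classical
  have hγM : cM k (M := M) γ ≠ 0 := by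
    intro h0
    rw [← cM_zero (F := F) (k := k)] at h0
    exact hγ (cM_inj h0)
  set s := cM k γ * ω ^ h with hs
  have hsR := hF.root s hωR
  have hω' : ω ^ h = s * cM k γ⁻¹ := by
    rw [hs]
    have : cM k (M := M) γ * cM k γ⁻¹ = 1 := by rw [← cM_mul, mul_inv_cancel₀ hγ, cM_one]
    linear_combination (-(ω ^ h)) * this
  have hsint : IsIntegral k[X] s := ⟨gk k (gAB A B), (gAB_monic A B hF.monic hF.lt).map _, hsR⟩
  have hcint : ∀ z : F, IsIntegral k[X] (cM k (M := M) z) := fun z => isIntegral_algebraMap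
  refine ⟨?_, ?_, ?_, ?_⟩
  · apply IsIntegral.of_pow hh
    rw [hω']
    exact hsint.mul (hcint _)
  · apply IntInf.of_pow hh
    obtain ⟨h', rfl⟩ : ∃ h', h = h' + 1 := ⟨h - 1, by omega⟩
    have h1 : (algebraMap (RatFunc k) M (RatFunc.X ^ 1)⁻¹ * ω) ^ (h' + 1) =
        (algebraMap (RatFunc k) M (RatFunc.X ^ 1)⁻¹) ^ h' *
          (algebraMap (RatFunc k) M (RatFunc.X ^ 1)⁻¹ * s) * cM k γ⁻¹ := by
      rw [mul_pow, hω', pow_succ]
      ring
    rw [h1]
    refine IntInf.mul (IntInf.mul (IntInf.pow _ (intInf_of_mem (inv_X_mem k))) ?_) (intInf_cM _)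
    refine intInf_root (gk k (gAB A B)) ((gAB_monic A B hF.monic hF.lt).map _) 1 ?_ s ?_
    · intro i
      unfold gk
      rw [coeff_map, coe_mapRingHom]
      exact natDegree_map_le.trans (gAB_coeff A B i)
    · rw [aeval_map_algebraMap]
      exact hsR
  · -- splitting
    have hdvd : minpoly (RatFunc k) ω ∣ PB1 k A B γ h := by
      apply minpoly.dvd
      rw [PB1_aeval]
      exact hsR
    have hmap : (PB1 k A B γ h).map (algebraMap (RatFunc k) M) = ∏ s ∈ Rt, (C (cM k γ) * X ^ h - C s) := by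
      unfold PB1
      rw [map_comp, Polynomial.map_map, ← IsScalarTower.algebraMap_eq, hF.prod, Polynomial.map_mul, map_C,
        Polynomial.map_pow, map_X, ← cM_alg, prod_comp]
      refine Finset.prod_congr rfl fun s _ => ?_
      rw [sub_comp, X_comp, C_comp]
    have hsp : ((PB1 k A B γ h).map (algebraMap (RatFunc k) M)).Splits := by
      rw [hmap]
      apply Splits.prod
      intro s hs
      obtain ⟨ω', hω'⟩ := hω s hs
      have h1 : C (cM k (M := M) γ) * X ^ h - C s = C (cM k γ) * (X ^ h - C (ω' ^ h)) := by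
        rw [← hω', C_mul]
        ring
      rw [h1]
      exact (Splits.C _).mul (X_pow_sub_C_splits_of_isPrimitiveRoot hζ rfl)
    have hne0 : (PB1 k A B γ h).map (algebraMap (RatFunc k) M) ≠ 0 := by
      rw [hmap]
      apply Finset.prod_ne_zero_iff.2
      intro s _ h0
      have h1 := congrArg (fun p => Polynomial.coeff p h) h0
      simp only [coeff_sub, coeff_C_mul, coeff_X_pow, if_true, mul_one, coeff_C, hh.ne', if_false, sub_zero,
        coeff_zero] at h1
      exact hγM h1
    exact hsp.of_dvd hne0 (Polynomial.map_dvd _ hdvd)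
  · -- separability
    refine isSep_of_simple (PB1 k A B γ h) ω ?_ ?_
    · rw [PB1_aeval]
      exact hsR
    · have h1 : aeval ω (derivative (PB1 k A B γ h)) =
          (cM k γ * ((h : M) * ω ^ (h - 1))) * evM k (derivative (gAB A B)) s := by
        unfold PB1
        rw [derivative_comp, map_mul, aeval_comp, derivative_map, aeval_map_algebraMap]
        congr 1
        · simp only [derivative_mul, derivative_C, zero_mul, zero_add, derivative_X_pow, map_mul, aeval_C,
            map_pow, aeval_X, ← cM_alg, map_natCast]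
        · unfold evM gk
          rw [← derivative_map, map_mul, aeval_C, map_pow, aeval_X, ← cM_alg, ← hs]
      rw [h1]
      have hω0 : ω ≠ 0 := by
        intro h0
        rw [hs, h0, zero_pow hh.ne', mul_zero] at hωR
        exact hne 0 hωR rfl
      exact mul_ne_zero (mul_ne_zero hγM (mul_ne_zero hhM (pow_ne_zero _ hω0))) (hF.deriv_ne s hsR)

end

end Pool.Agent.H470
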