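import Pool.Agent.H470.SecE3

/-!
# Counting tuples of roots
-/

set_option autoImplicit false
set_option linter.all false

open Polynomial

namespace Pool.Agent.H470

section
variable {F : Type} [Field F] [Fintype F] [DecidableEq F]

theorem pow_lemmaE (a b : ℕ) (hab : a * b = Fintype.card F - 1) (w : F) (hw0 : w ≠ 0) (hw : w ^ a = 1) :
    ∃ u : F, u ≠ 0 ∧ u ^ b = w := by
  obtain ⟨g, hg⟩ := IsCyclic.exists_generator (α := Fˣ)
  have hcard : Fintype.card Fˣ = Fintype.card F - 1 := Fintype.card_units _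
  have hord : orderOf g = Fintype.card F - 1 := by
    rw [← hcard, ← Nat.card_eq_fintype_card]
    exact orderOf_eq_card_of_forall_mem_zpowers hg
  have hq1 : 1 < Fintype.card F := Fintype.one_lt_card
  have ha : 0 < a := by
    rcases Nat.eq_zero_or_pos a with h | h
    · rw [h, zero_mul] at hab
      omega
    · exact h
  obtain ⟨i, hi⟩ := (mem_powers_iff_mem_zpowers (x := g) (y := Units.mk0 w hw0)).2 (hg _)
  simp only at hi
  have h1 : g ^ (i * a) = 1 := by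
    rw [pow_mul, hi]
    apply Units.ext
    simpa using hw
  have h2 : Fintype.card F - 1 ∣ i * a := by
    rw [← hord]
    exact orderOf_dvd_of_pow_eq_one h1
  rw [← hab, mul_comm i a] at h2
  obtain ⟨l, hl⟩ := Nat.dvd_of_mul_dvd_mul_left ha h2
  refine ⟨((g ^ l : Fˣ) : F), Units.ne_zero _, ?_⟩
  rw [← Units.val_pow_eq_pow_val, ← pow_mul, mul_comm l b, ← hl, hi]
  rfl

theorem exists_primE (h : ℕ) (hh : 0 < h) (hd : h ∣ Fintype.card F - 1) : ∃ ρ : F, IsPrimitiveRoot ρ h := by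
  obtain ⟨g, hg⟩ := IsCyclic.exists_generator (α := Fˣ)
  have hcard : Fintype.card Fˣ = Fintype.card F - 1 := Fintype.card_units _
  have hord : orderOf g = Fintype.card F - 1 := by
    rw [← hcard, ← Nat.card_eq_fintype_card]
    exact orderOf_eq_card_of_forall_mem_zpowers hg
  obtain ⟨r, hr⟩ := hd
  have hq : 0 < Fintype.card F - 1 := by
    have : 1 < Fintype.card F := Fintype.one_lt_card
    omega
  have hr0 : r ≠ 0 := by
    rintro rfl
    omega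
  refine ⟨((g ^ r : Fˣ) : F), ?_⟩
  have h1 : orderOf (g ^ r) = h := by
    rw [orderOf_pow, hord, hr, Nat.gcd_comm, Nat.gcd_mul_left_right]
    exact Nat.mul_div_cancel _ (Nat.pos_of_ne_zero hr0)
  have h2 : IsPrimitiveRoot (g ^ r) h := by
    rw [← h1]
    exact IsPrimitiveRoot.orderOf _
  exact h2.map_of_injective (f := Units.coeHom F) Units.val_injective

theorem card_muE (h : ℕ) (hh : 0 < h) (hd : h ∣ Fintype.card F - 1) :
    (Finset.univ.filter fun z : F => z ^ h = 1).card = h := by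
  obtain ⟨ρ, hρ⟩ := exists_primE (F := F) h hh hd
  have h1 := hρ.card_nthRootsFinset
  conv_rhs => rw [← h1]
  congr 1
  ext z
  rw [Finset.mem_filter, mem_nthRootsFinset hh]
  simp

/-- the roots of one equation -/
theorem torsE {K' : Type} [Field K'] (h : ℕ) (hh : 0 < h) (hd : h ∣ Fintype.card F - 1)
    (Φ : K' →+* K') (ι : F →+* K') (hΦ : ∀ z, Φ (ι z) = ι z)
    (hroot : ∀ ζ : K', ζ ^ h = 1 → ∃ z : F, z ^ h = 1 ∧ ι z = ζ) (γ x : K') (hγ : γ ≠ 0) (hx : x ≠ 0)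
    (hex : ∃ u, γ * u ^ h = x ∧ Φ u = u) : {u : K' | γ * u ^ h = x ∧ Φ u = u}.ncard = h := by
  obtain ⟨u0, h0, h1⟩ := hex
  have hu0 : u0 ≠ 0 := by
    rintro rfl
    rw [zero_pow hh.ne', mul_zero] at h0
    exact hx h0.symm
  have hset : {u : K' | γ * u ^ h = x ∧ Φ u = u} =
      (fun z : F => ι z * u0) '' ((Finset.univ.filter fun z : F => z ^ h = 1 : Finset F) : Set F) := by
    ext u
    simp only [Set.mem_setOf_eq, Set.mem_image, Finset.coe_filter, Finset.mem_univ, true_and]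
    constructor
    · rintro ⟨h2, h3⟩
      have h4 : (u / u0) ^ h = 1 := by
        rw [div_pow, div_eq_one_iff_eq (pow_ne_zero _ hu0)]
        apply mul_left_cancel₀ hγ
        rw [h2, h0]
      obtain ⟨z, hz, hz2⟩ := hroot _ h4
      exact ⟨z, hz, by rw [hz2, div_mul_cancel₀ _ hu0]⟩
    · rintro ⟨z, hz, rfl⟩
      refine ⟨?_, ?_⟩
      · rw [mul_pow, ← map_pow, hz, map_one, one_mul, h0]
      · rw [map_mul, hΦ, h1]
  rw [hset, Set.ncard_image_of_injective _ (fun a b hab => ι.injective (mul_right_cancel₀ hu0 hab)),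
    Set.ncard_coe_finset, card_muE h hh hd]

theorem dcountE {C K' : Type} [Field K'] (h : ℕ) (hh : 0 < h) (hd : h ∣ Fintype.card F - 1)
    (Φ : K' →+* K') (ι : F →+* K') (hΦ : ∀ z, Φ (ι z) = ι z)
    (hroot : ∀ ζ : K', ζ ^ h = 1 → ∃ z : F, z ^ h = 1 ∧ ι z = ζ) (S : Finset C) (Rt : C → Finset K')
    (γ1 γ2 : C → K') (hγ1 : ∀ c ∈ S, γ1 c ≠ 0) (hγ2 : ∀ c ∈ S, γ2 c ≠ 0)
    (hne : ∀ c ∈ S, ∀ s ∈ Rt c, s ≠ 0 ∧ 1 - s ≠ 0) :
    {p : C × K' × K' | p.1 ∈ S ∧ γ1 p.1 * p.2.1 ^ h ∈ Rt p.1 ∧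
      γ1 p.1 * p.2.1 ^ h + γ2 p.1 * p.2.2 ^ h = 1 ∧ Φ p.2.1 = p.2.1 ∧ Φ p.2.2 = p.2.2}.ncard =
    h ^ 2 * ∑ c ∈ S, {s | s ∈ Rt c ∧ (∃ u, γ1 c * u ^ h = s ∧ Φ u = u) ∧
      (∃ u, γ2 c * u ^ h = 1 - s ∧ Φ u = u)}.ncard := by
  classical
  let U1 : C → K' → Finset K' := fun c s =>
    if hf : ({u : K' | γ1 c * u ^ h = s ∧ Φ u = u}).Finite then hf.toFinset else ∅
  let U2 : C → K' → Finset K' := fun c s =>
    if hf : ({u : K' | γ2 c * u ^ h = 1 - s ∧ Φ u = u}).Finite then hf.toFinset else ∅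
  let T : C → Finset K' := fun c => (Rt c).filter fun s => (∃ u, γ1 c * u ^ h = s ∧ Φ u = u) ∧
      (∃ u, γ2 c * u ^ h = 1 - s ∧ Φ u = u)
  have hT : ∀ c s, s ∈ T c ↔ s ∈ Rt c ∧ (∃ u, γ1 c * u ^ h = s ∧ Φ u = u) ∧
      (∃ u, γ2 c * u ^ h = 1 - s ∧ Φ u = u) := fun c s => Finset.mem_filter
  have hn1 : ∀ c ∈ S, ∀ s ∈ T c, ({u : K' | γ1 c * u ^ h = s ∧ Φ u = u}).ncard = h := by
    intro c hc s hs
    rw [hT] at hs
    exact torsE h hh hd Φ ι hΦ hroot (γ1 c) s (hγ1 c hc) (hne c hc s hs.1).1 hs.2.1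
  have hn2 : ∀ c ∈ S, ∀ s ∈ T c, ({u : K' | γ2 c * u ^ h = 1 - s ∧ Φ u = u}).ncard = h := by
    intro c hc s hs
    rw [hT] at hs
    exact torsE h hh hd Φ ι hΦ hroot (γ2 c) (1 - s) (hγ2 c hc) (hne c hc s hs.1).2 hs.2.2
  have hf1 : ∀ c ∈ S, ∀ s ∈ T c, ({u : K' | γ1 c * u ^ h = s ∧ Φ u = u}).Finite := fun c hc s hs =>
    Set.finite_of_ncard_ne_zero (by rw [hn1 c hc s hs]; exact hh.ne')
  have hf2 : ∀ c ∈ S, ∀ s ∈ T c, ({u : K' | γ2 c * u ^ h = 1 - s ∧ Φ u = u}).Finite := fun c hc s hs =>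
    Set.finite_of_ncard_ne_zero (by rw [hn2 c hc s hs]; exact hh.ne')
  have hU1 : ∀ c ∈ S, ∀ s ∈ T c, ∀ u, u ∈ U1 c s ↔ γ1 c * u ^ h = s ∧ Φ u = u := by
    intro c hc s hs u
    simp only [U1]
    rw [dif_pos (hf1 c hc s hs), Set.Finite.mem_toFinset]
    rfl
  have hU2 : ∀ c ∈ S, ∀ s ∈ T c, ∀ u, u ∈ U2 c s ↔ γ2 c * u ^ h = 1 - s ∧ Φ u = u := by
    intro c hc s hs u
    simp only [U2]
    rw [dif_pos (hf2 c hc s hs), Set.Finite.mem_toFinset]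
    rfl
  have hc1 : ∀ c ∈ S, ∀ s ∈ T c, (U1 c s).card = h := by
    intro c hc s hs
    simp only [U1]
    rw [dif_pos (hf1 c hc s hs), ← Set.ncard_eq_toFinset_card _ (hf1 c hc s hs)]
    exact hn1 c hc s hs
  have hc2 : ∀ c ∈ S, ∀ s ∈ T c, (U2 c s).card = h := by
    intro c hc s hs
    simp only [U2]
    rw [dif_pos (hf2 c hc s hs), ← Set.ncard_eq_toFinset_card _ (hf2 c hc s hs)]
    exact hn2 c hc s hs
  let Z : Finset (Σ _ : C, Σ _ : K', K' × K') := S.sigma fun c => (T c).sigma fun s => U1 c s ×ˢ U2 c s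
  have hZ : Z.card = h ^ 2 * ∑ c ∈ S, (T c).card := by
    simp only [Z]
    rw [Finset.card_sigma, Finset.mul_sum]
    refine Finset.sum_congr rfl fun c hc => ?_
    rw [Finset.card_sigma, Finset.sum_congr rfl (fun s hs => by
      rw [Finset.card_product, hc1 c hc s hs, hc2 c hc s hs] :
      ∀ s ∈ T c, (U1 c s ×ˢ U2 c s).card = h * h), Finset.sum_const, smul_eq_mul]
    ring
  have hTs : ∀ c, {s | s ∈ Rt c ∧ (∃ u, γ1 c * u ^ h = s ∧ Φ u = u) ∧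
      (∃ u, γ2 c * u ^ h = 1 - s ∧ Φ u = u)}.ncard = (T c).card := by
    intro c
    rw [← Set.ncard_coe_finset]
    congr 1
    ext s
    rw [Finset.mem_coe, hT]
    rfl
  rw [Finset.sum_congr rfl fun c _ => hTs c, ← hZ, ← Set.ncard_coe_finset]
  symm
  refine Set.ncard_congr (fun z _ => (z.1, z.2.2)) ?_ ?_ ?_
  · rintro ⟨c, s, u1, u2⟩ hz
    rw [Finset.mem_coe] at hz
    simp only [Z, Finset.mem_sigma, Finset.mem_product] at hz
    obtain ⟨hc, hs, hu1, hu2⟩ := hz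
    rw [hU1 c hc s hs] at hu1
    rw [hU2 c hc s hs] at hu2
    refine ⟨hc, ?_, ?_, hu1.2, hu2.2⟩
    · show γ1 c * u1 ^ h ∈ Rt c
      rw [hu1.1]
      exact ((hT c s).1 hs).1
    · show γ1 c * u1 ^ h + γ2 c * u2 ^ h = 1
      rw [hu1.1, hu2.1]
      ring
  · rintro ⟨c, s, u1, u2⟩ ⟨c', s', u1', u2'⟩ hz hz' he
    rw [Finset.mem_coe] at hz hz'
    simp only [Z, Finset.mem_sigma, Finset.mem_product] at hz hz'
    simp only [Prod.mk.injEq] at he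
    obtain ⟨rfl, rfl, rfl⟩ := he
    obtain ⟨hc, hs, hu1, hu2⟩ := hz
    obtain ⟨hc', hs', hu1', hu2'⟩ := hz'
    rw [hU1 c hc s hs] at hu1
    rw [hU1 c hc s' hs'] at hu1'
    have : s = s' := by rw [← hu1.1, hu1'.1]
    subst this
    rfl
  · rintro ⟨c, u1, u2⟩ ⟨hc, hs, he, h1, h2⟩
    simp only at hc hs he h1 h2
    have hsT : γ1 c * u1 ^ h ∈ T c := by
      rw [hT]
      exact ⟨hs, ⟨u1, rfl, h1⟩, ⟨u2, by linear_combination he, h2⟩⟩
    refine ⟨⟨c, γ1 c * u1 ^ h, u1, u2⟩, ?_, rfl⟩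
    rw [Finset.mem_coe]
    simp only [Z, Finset.mem_sigma, Finset.mem_product]
    exact ⟨hc, hsT, (hU1 c hc _ hsT u1).2 ⟨rfl, h1⟩, (hU2 c hc _ hsT u2).2 ⟨by linear_combination he, h2⟩⟩

end

end Pool.Agent.H470
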