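import Pool.Agent.H470.SecE4
import Pool.Agent.H470.SecE2
import Pool.Agent.H470.Sec5

/-!
# The classes and the pulled back roots
-/

set_option autoImplicit false
set_option linter.all false

open Polynomial

namespace Pool.Agent.H470

section
variable {F k : Type} [Field F] [Fintype F] [DecidableEq F] [Field k] [Algebra F k] [IsAlgClosed k]

theorem const_rootE (h : ℕ) (hh : 0 < h) (hd : h ∣ Fintype.card F - 1) (γ z : F) (hγ : γ ≠ 0)
    (hz : γ ^ ((Fintype.card F - 1) / h) = z) : ∃ g : k, g ^ h = algebraMap F k γ ∧ fr F k g = algebraMap F k z * g := by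
  obtain ⟨g, hg⟩ := IsAlgClosed.exists_pow_nat_eq (algebraMap F k γ) hh
  refine ⟨g, hg, ?_⟩
  have hq1 : 1 < Fintype.card F := Fintype.one_lt_card
  rw [fr_apply, Nat.card_eq_fintype_card]
  have h1 : Fintype.card F = (Fintype.card F - 1) + 1 := by omega
  rw [h1, pow_succ]
  congr 1
  obtain ⟨n, hn⟩ := hd
  have h2 : (Fintype.card F - 1) / h = n := by rw [hn]; exact Nat.mul_div_cancel_left _ hh
  rw [h2] at hz
  rw [hn, pow_mul, hg, ← map_pow, hz]

variable {M : Type} [Field M] [Algebra (RatFunc k) M] [Algebra k[X] M] [IsScalarTower k[X] (RatFunc k) M]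

theorem cM_ne (γ : F) (hγ : γ ≠ 0) : cM k (M := M) γ ≠ 0 := by
  intro h0
  rw [← cM_zero (F := F) (k := k)] at h0
  exact hγ (cM_inj h0)

theorem Ψ_cM {Ψ : M →+* M} (hΨ : Semi F (k := k) Ψ) (z : F) : Ψ (cM k z) = cM k z := by
  unfold cM
  rw [hΨ.C, fr_algebraMap]

/-- the class condition, by a fixed root -/
theorem cl_iff {Ψ : M →+* M} (hΨ : Semi F (k := k) Ψ) (h : ℕ) (hh : 0 < h) (hd : h ∣ Fintype.card F - 1)
    (γ z : F) (hγ : γ ≠ 0) (hz : γ ^ ((Fintype.card F - 1) / h) = z) (s : M) :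
    (∃ u, cM k γ * u ^ h = s ∧ Ψ u = u) ↔ (Ψ s = s ∧ cl k h Ψ s z) := by
  obtain ⟨g, hg1, hg2⟩ := const_rootE (k := k) h hh hd γ z hγ hz
  set G : M := algebraMap k[X] M (C g) with hG
  have hGh : G ^ h = cM k γ := by
    rw [hG, ← map_pow, ← C_pow, hg1]
    rfl
  have hΨG : Ψ G = cM k z * G := by
    rw [hG, hΨ.C, hg2, C_mul, map_mul]
    rfl
  have hG0 : G ≠ 0 := by
    intro h0
    rw [h0, zero_pow hh.ne'] at hGh
    exact cM_ne (k := k) (M := M) γ hγ hGh.symm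
  have hz0 : z ≠ 0 := by
    rw [← hz]
    exact pow_ne_zero _ hγ
  constructor
  · rintro ⟨u, hu1, hu2⟩
    refine ⟨?_, G * u, ?_, ?_⟩
    · rw [← hu1, map_mul, map_pow, Ψ_cM hΨ, hu2]
    · rw [mul_pow, hGh, hu1]
    · rw [map_mul, hΨG, hu2]
      ring
  · rintro ⟨-, ω, hω1, hω2⟩
    refine ⟨ω / G, ?_, ?_⟩
    · rw [div_pow, hGh, hω1]
      field_simp [cM_ne (k := k) (M := M) γ hγ]
    · rw [map_div₀, hω2, hΨG]
      field_simp [cM_ne (k := k) (M := M) z hz0]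

theorem exists_root_M (h : ℕ) (hh : 0 < h) (γ : F) (hγ : γ ≠ 0) (s : M) (hs : ∃ ω, ω ^ h = s) :
    ∃ ω : M, cM k γ * ω ^ h = s := by
  obtain ⟨g, hg⟩ := IsAlgClosed.exists_pow_nat_eq (algebraMap F k γ) hh
  set G : M := algebraMap k[X] M (C g) with hG
  have hGh : G ^ h = cM k γ := by
    rw [hG, ← map_pow, ← C_pow, hg]
    rfl
  obtain ⟨ω, hω⟩ := hs
  refine ⟨ω / G, ?_⟩
  rw [div_pow, hGh, hω]
  exact mul_div_cancel₀ _ (cM_ne (k := k) (M := M) γ hγ)

/-- the class condition in the field -/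
theorem class_iffE (h : ℕ) (hh : 0 < h) (hd : h ∣ Fintype.card F - 1)
    (γ z : F) (hγ : γ ≠ 0) (hz : γ ^ ((Fintype.card F - 1) / h) = z) (x : F) (hx : x ≠ 0) :
    (∃ u : F, γ * u ^ h = x ∧ (RingHom.id F) u = u) ↔ x ^ ((Fintype.card F - 1) / h) = z := by
  have hq1 : 1 < Fintype.card F := Fintype.one_lt_card
  have hmul : (Fintype.card F - 1) / h * h = Fintype.card F - 1 := Nat.div_mul_cancel hd
  constructor
  · rintro ⟨u, rfl, -⟩
    have hu : u ≠ 0 := by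
      rintro rfl
      rw [zero_pow hh.ne', mul_zero] at hx
      exact hx rfl
    rw [mul_pow, hz, ← pow_mul, mul_comm h, hmul, FiniteField.pow_card_sub_one_eq_one u hu, mul_one]
  · intro hxz
    have h1 : (x / γ) ^ ((Fintype.card F - 1) / h) = 1 := by
      rw [div_pow, hxz, hz, div_self]
      rw [← hz]
      exact pow_ne_zero _ hγ
    obtain ⟨u, -, hu⟩ := pow_lemmaE _ h hmul (x / γ) (div_ne_zero hx hγ) h1
    refine ⟨u, ?_, rfl⟩
    rw [hu]
    field_simp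

theorem exists_gamma (h : ℕ) (hh : 0 < h) (hd : h ∣ Fintype.card F - 1) (z : F) (hz : z ^ h = 1) :
    ∃ γ : F, γ ≠ 0 ∧ γ ^ ((Fintype.card F - 1) / h) = z := by
  have hz0 : z ≠ 0 := by
    rintro rfl
    rw [zero_pow hh.ne'] at hz
    exact zero_ne_one hz
  exact pow_lemmaE h _ (Nat.mul_div_cancel' hd) z hz0 hz

end

end Pool.Agent.H470
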