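import Pool.Agent.H470.SecE5

/-!
# Specialisation of the tuples
-/

set_option autoImplicit false
set_option linter.all false

open Polynomial

namespace Pool.Agent.H470

theorem root_unity' {F K' : Type} [Field F] [Fintype F] [DecidableEq F] [Field K'] (ι : F →+* K') (h : ℕ)
    (hh : 0 < h) (hd : h ∣ Fintype.card F - 1) (ζ : K') (hζ : ζ ^ h = 1) : ∃ z : F, z ^ h = 1 ∧ ι z = ζ := by
  obtain ⟨ρ, hρ⟩ := exists_primE (F := F) h hh hd
  have h1 : IsPrimitiveRoot (ι ρ) h := hρ.map_of_injective ι.injective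
  haveI : NeZero h := ⟨hh.ne'⟩
  obtain ⟨i, -, hi⟩ := h1.eq_pow_of_pow_eq_one hζ
  refine ⟨ρ ^ i, ?_, ?_⟩
  · rw [← pow_mul, mul_comm, pow_mul, hρ.pow_eq_one, one_pow]
  · rw [map_pow]
    exact hi

section
variable {F k : Type} [Field F] [Fintype F] [DecidableEq F] [Field k] [Algebra F k] [IsAlgClosed k]
variable {M : Type} [Field M] [Algebra (RatFunc k) M] [Algebra k[X] M] [IsScalarTower k[X] (RatFunc k) M]

theorem const_props (z : F) : IsIntegral k[X] (cM k (M := M) z) ∧
    IntInf (k := k) (algebraMap (RatFunc k) M (RatFunc.X ^ 1)⁻¹ * cM k z) ∧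
      ((minpoly (RatFunc k) (cM k (M := M) z)).map (algebraMap (RatFunc k) M)).Splits ∧
      IsSeparable (RatFunc k) (cM k (M := M) z) := by
  refine ⟨isIntegral_algebraMap, (intInf_of_mem (inv_X_mem k)).mul (intInf_cM z), ?_, ?_⟩
  · rw [cM_alg, minpoly.eq_X_sub_C, Polynomial.map_sub, map_X, map_C]
    exact Splits.X_sub_C _
  · rw [cM_alg]
    exact isSeparable_algebraMap _

/-- the specialised polynomial -/
theorem spec_fact {A B : F[X]} {Rt : Finset M} (hF : Full k A B Rt)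
    (hint : ∀ s ∈ Rt, IsIntegral k[X] s) (t0 : F) (ev : integralClosure k[X] M →+* k)
    (hev : ∀ p, ev (algebraMap k[X] _ p) = p.eval (algebraMap F k t0)) (x : k) :
    ((A - C t0 * B).map (algebraMap F k)).eval x = 0 ↔ ∃ (s : M) (hs : s ∈ Rt), ev ⟨s, hint s hs⟩ = x := by
  classical
  let B' := integralClosure k[X] M
  have hprodR : ((gk k (gAB A B)).map (algebraMap k[X] B')) = ∏ s : Rt, (X - C (⟨s.1, hint _ s.2⟩ : B')) := by
    apply Polynomial.map_injective (algebraMap B' M) Subtype.val_injective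
    rw [Polynomial.map_map, ← IsScalarTower.algebraMap_eq, hF.prod, Polynomial.map_prod,
      ← Finset.prod_coe_sort]
    refine Finset.prod_congr rfl fun s _ => ?_
    rw [Polynomial.map_sub, map_X, map_C]
    rfl
  have hprod : (A - C t0 * B).map (algebraMap F k) = ∏ s : Rt, (X - C (ev ⟨s.1, hint _ s.2⟩)) := by
    have h1 := congrArg (Polynomial.map ev) hprodR
    rw [Polynomial.map_map, Polynomial.map_prod] at h1
    have h2 : ev.comp (algebraMap k[X] B') = evalRingHom (algebraMap F k t0) := RingHom.ext hev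
    unfold gk at h1
    rw [h2, Polynomial.map_map] at h1
    have h3 : (evalRingHom (algebraMap F k t0)).comp (mapRingHom (algebraMap F k)) =
        (algebraMap F k).comp (evalRingHom t0) := by
      apply Polynomial.ringHom_ext
      · intro c; simp
      · simp
    rw [h3, ← Polynomial.map_map, gAB_spec] at h1
    rw [h1]
    refine Finset.prod_congr rfl fun s _ => ?_
    rw [Polynomial.map_sub, map_X, map_C]
  rw [hprod, eval_prod, Finset.prod_eq_zero_iff]
  constructor
  · rintro ⟨s, -, hs⟩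
    rw [eval_sub, eval_X, eval_C, sub_eq_zero] at hs
    exact ⟨s.1, s.2, hs.symm⟩
  · rintro ⟨s, hs, hx⟩
    exact ⟨⟨s, hs⟩, Finset.mem_univ _, by rw [eval_sub, eval_X, eval_C, hx, sub_self]⟩

/-- lifting a root of the specialised equation -/
theorem lift_root (h : ℕ) (hh : 0 < h) (hd : h ∣ Fintype.card F - 1) (γ : F) (hγ : γ ≠ 0)
    (ev : integralClosure k[X] M →+* k) (t0 : F)
    (hev : ∀ p, ev (algebraMap k[X] _ p) = p.eval (algebraMap F k t0)) (s : M) (hs : IsIntegral k[X] s)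
    (hω : ∃ ω : M, cM k γ * ω ^ h = s) (u : k) (hu : algebraMap F k γ * u ^ h = ev ⟨s, hs⟩) :
    ∃ (ω : M) (hi : IsIntegral k[X] ω), cM k γ * ω ^ h = s ∧ ev ⟨ω, hi⟩ = u := by
  obtain ⟨ω, hω⟩ := hω
  have hγk : algebraMap F k γ ≠ 0 := (map_ne_zero_iff _ (algebraMap F k).injective).2 hγ
  have hcint : ∀ z : F, IsIntegral k[X] (cM k (M := M) z) := fun z => isIntegral_algebraMap
  have hevc : ∀ z : F, ev ⟨cM k z, hcint z⟩ = algebraMap F k z := by
    intro z
    have := hev (C (algebraMap F k z))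
    rw [eval_C] at this
    exact this
  have hωi : IsIntegral k[X] ω := by
    apply IsIntegral.of_pow hh
    have h1 : ω ^ h = s * cM k γ⁻¹ := by
      rw [← hω]
      have : cM k (M := M) γ * cM k γ⁻¹ = 1 := by rw [← cM_mul, mul_inv_cancel₀ hγ, cM_one]
      linear_combination (-(ω ^ h)) * this
    rw [h1]
    exact hs.mul (hcint _)
  have hevs : algebraMap F k γ * ev ⟨ω, hωi⟩ ^ h = ev ⟨s, hs⟩ := by
    rw [← hevc γ, ← map_pow, ← map_mul]
    congr 1
    exact Subtype.ext hω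
  have hpow : ev ⟨ω, hωi⟩ ^ h = u ^ h := by
    apply mul_left_cancel₀ hγk
    rw [hevs, hu]
  by_cases h0 : ev ⟨ω, hωi⟩ = 0
  · refine ⟨ω, hωi, hω, ?_⟩
    rw [h0, zero_pow hh.ne'] at hpow
    rw [h0]
    exact (pow_eq_zero_iff hh.ne').1 hpow.symm |>.symm
  · have h1 : (u / ev ⟨ω, hωi⟩) ^ h = 1 := by
      rw [div_pow, ← hpow, div_self (pow_ne_zero _ h0)]
    obtain ⟨z, hz, hz2⟩ := root_unity' (algebraMap F k) h hh hd _ h1
    refine ⟨cM k z * ω, (hcint z).mul hωi, ?_, ?_⟩
    · rw [mul_pow, ← cM_pow, hz, cM_one, one_mul, hω]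
    · have h2 : (⟨cM k z * ω, (hcint z).mul hωi⟩ : integralClosure k[X] M) =
          ⟨cM k z, hcint z⟩ * ⟨ω, hωi⟩ := rfl
      rw [h2, map_mul, hevc, hz2, div_mul_cancel₀ _ h0]

end

end Pool.Agent.H470
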