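import Pool.Agent.H470.SecE6
import Pool.Agent.H470.Sec9

/-!
# The dichotomy for the sectors
-/

set_option autoImplicit false
set_option linter.all false

open Polynomial

namespace Pool.Agent.H470

section
variable {F k : Type} [Field F] [Fintype F] [DecidableEq F] [Field k] [Algebra F k] [IsAlgClosed k]
variable {M : Type} [Field M] [Algebra (RatFunc k) M] [Algebra k[X] M] [IsScalarTower k[X] (RatFunc k) M]

theorem conj_root {A B : F[X]} {Rt : Finset M} (hF : Full k A B Rt) (γ : F) (h : ℕ) (S : Set M)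
    (φ : IntermediateField.adjoin (RatFunc k) S →ₐ[RatFunc k] M) (ω : M)
    (hω : ω ∈ IntermediateField.adjoin (RatFunc k) S) (hR : cM k γ * ω ^ h ∈ Rt) :
    cM k γ * (φ ⟨ω, hω⟩) ^ h ∈ Rt := by
  apply hF.mem
  rw [← PB1_aeval, Polynomial.aeval_algHom_apply]
  have h1 : aeval (⟨ω, hω⟩ : IntermediateField.adjoin (RatFunc k) S) (PB1 k A B γ h) = 0 := by
    apply (IntermediateField.val (IntermediateField.adjoin (RatFunc k) S)).toRingHom.injective
    rw [map_zero]
    show (IntermediateField.val (IntermediateField.adjoin (RatFunc k) S)) _ = 0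
    rw [← Polynomial.aeval_algHom_apply]
    show aeval ω (PB1 k A B γ h) = 0
    rw [PB1_aeval]
    exact hF.root _ hR
  rw [h1, map_zero]

theorem conj_cM (S : Set M) (φ : IntermediateField.adjoin (RatFunc k) S →ₐ[RatFunc k] M) (z : F)
    (hz : cM k z ∈ IntermediateField.adjoin (RatFunc k) S) : φ ⟨cM k z, hz⟩ = cM k z := by
  have h1 : (⟨cM k z, hz⟩ : IntermediateField.adjoin (RatFunc k) S) =
      algebraMap (RatFunc k) _ (algebraMap k[X] (RatFunc k) (C (algebraMap F k z))) := by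
    apply Subtype.ext
    exact cM_alg z
  rw [h1, AlgHom.commutes, ← cM_alg]

theorem conj_rel (γ1 γ2 : F) (h : ℕ) (S : Set M)
    (φ : IntermediateField.adjoin (RatFunc k) S →ₐ[RatFunc k] M) (ω1 ω2 : M)
    (hω1 : ω1 ∈ IntermediateField.adjoin (RatFunc k) S) (hω2 : ω2 ∈ IntermediateField.adjoin (RatFunc k) S)
    (hr : cM k γ1 * ω1 ^ h + cM k γ2 * ω2 ^ h = 1) :
    cM k γ1 * (φ ⟨ω1, hω1⟩) ^ h + cM k γ2 * (φ ⟨ω2, hω2⟩) ^ h = 1 := by
  have hc : ∀ z : F, cM k (M := M) z ∈ IntermediateField.adjoin (RatFunc k) S := by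
    intro z
    rw [cM_alg]
    exact IntermediateField.algebraMap_mem _ _
  have h1 : (⟨cM k γ1, hc γ1⟩ : IntermediateField.adjoin (RatFunc k) S) * ⟨ω1, hω1⟩ ^ h +
      ⟨cM k γ2, hc γ2⟩ * ⟨ω2, hω2⟩ ^ h = 1 := Subtype.ext hr
  have h2 := congrArg φ h1
  rw [map_add, map_mul, map_mul, map_pow, map_pow, map_one, conj_cM, conj_cM] at h2
  exact h2

theorem Ψ_root {Ψ : M →+* M} (hΨ : Semi F (k := k) Ψ) {A B : F[X]} {Rt : Finset M} (hF : Full k A B Rt)
    (γ : F) (h : ℕ) (ω : M) (hR : cM k γ * ω ^ h ∈ Rt) : cM k γ * (Ψ ω) ^ h ∈ Rt := by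
  apply hF.mem
  have h1 := evM_poly_root hΨ (gAB A B) _ (hF.root _ hR)
  rw [map_mul, map_pow, Ψ_cM hΨ] at h1
  exact h1

/-- the four properties -/
def P4 (k : Type) [Field k] {M : Type} [Field M] [Algebra (RatFunc k) M] [Algebra k[X] M] (x : M) : Prop :=
  IsIntegral k[X] x ∧ IntInf (k := k) (algebraMap (RatFunc k) M (RatFunc.X ^ 1)⁻¹ * x) ∧
      ((minpoly (RatFunc k) x).map (algebraMap (RatFunc k) M)).Splits ∧ IsSeparable (RatFunc k) x

end

end Pool.Agent.H470
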