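import Pool.Agent.H470.SecE7

/-!
# The dichotomy for the sectors: the tuples
-/

set_option autoImplicit false
set_option linter.all false

open Polynomial

namespace Pool.Agent.H470

section
variable {F k : Type} [Field F] [Fintype F] [DecidableEq F] [Field k] [Algebra F k] [IsAlgClosed k]
variable {M : Type} [Field M] [Algebra (RatFunc k) M] [Algebra k[X] M] [IsScalarTower k[X] (RatFunc k) M]

theorem Full.ne_zero {A B : F[X]} {Rt : Finset M} (hF : Full k A B Rt)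
    (h0 : A.eval 0 ≠ 0 ∨ B.eval 0 ≠ 0) (s : M) (hs : s ∈ Rt) : s ≠ 0 := by
  rintro rfl
  apply evM_gAB_const_ne (k := k) (M := M) A B 0 h0
  rw [cM_zero]
  exact hF.root _ hs

theorem Full.one_sub_ne {A B : F[X]} {Rt : Finset M} (hF : Full k A B Rt)
    (h1 : A.eval 1 ≠ 0 ∨ B.eval 1 ≠ 0) (s : M) (hs : s ∈ Rt) : 1 - s ≠ 0 := by
  intro h2
  have h3 : s = 1 := by linear_combination -h2
  rw [h3] at hs
  apply evM_gAB_const_ne (k := k) (M := M) A B 1 h1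
  rw [cM_one]
  exact hF.root _ hs

/-- the data of the sectors -/
structure SecD (k : Type) [Field k] [Algebra F k] {M : Type} [Field M] [Algebra k[X] M]
    (h : ℕ) (S : Finset (F × F)) (A B : F × F → F[X]) (Rt : F × F → Finset M) (γ : F → F) : Prop where
  hh : 0 < h
  hd : h ∣ Fintype.card F - 1
  full : ∀ c ∈ S, Full k (A c) (B c) (Rt c)
  z0 : ∀ c ∈ S, (A c).eval 0 ≠ 0 ∨ (B c).eval 0 ≠ 0
  z1 : ∀ c ∈ S, (A c).eval 1 ≠ 0 ∨ (B c).eval 1 ≠ 0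
  om : ∀ c ∈ S, ∀ s ∈ Rt c, (∃ ω : M, ω ^ h = s) ∧ ∃ ω : M, ω ^ h = 1 - s
  g0 : ∀ c ∈ S, γ c.1 ≠ 0 ∧ γ c.2 ≠ 0
  gz : ∀ c ∈ S, γ c.1 ^ ((Fintype.card F - 1) / h) = c.1 ∧ γ c.2 ^ ((Fintype.card F - 1) / h) = c.2

/-- the tuples -/
def JS (k : Type) [Field k] [Algebra F k] {M : Type} [Field M] [Algebra k[X] M]
    (h : ℕ) (S : Finset (F × F)) (Rt : F × F → Finset M) (γ : F → F) : Set ((F × F) × M × M) :=
  {p | p.1 ∈ S ∧ cM k (γ p.1.1) * p.2.1 ^ h ∈ Rt p.1 ∧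
    cM k (γ p.1.1) * p.2.1 ^ h + cM k (γ p.1.2) * p.2.2 ^ h = 1}

/-- the coordinates -/
noncomputable def wJ (k : Type) [Field k] [Algebra F k] {M : Type} [Field M] [Algebra k[X] M]
    (p : (F × F) × M × M) : Fin 4 → M := ![p.2.1, p.2.2, cM k p.1.1, cM k p.1.2]

theorem wJ_inj : Function.Injective (wJ k : (F × F) × M × M → Fin 4 → M) := by
  intro p p' hp
  have h0 := congrFun hp 0
  have h1 := congrFun hp 1
  have h2 := congrFun hp 2
  have h3 := congrFun hp 3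
  simp only [wJ, Matrix.cons_val_zero, Matrix.cons_val_one, Matrix.cons_val] at h0 h1 h2 h3
  exact Prod.ext (Prod.ext (cM_inj h2) (cM_inj h3)) (Prod.ext h0 h1)

variable {h : ℕ} {S : Finset (F × F)} {A B : F × F → F[X]} {Rt : F × F → Finset M} {γ : F → F}

theorem SecD.rts (hD : SecD k h S A B Rt γ) (c : F × F) (hc : c ∈ S) (s : M) (hs : s ∈ Rt c) :
    (∃ ω : M, cM k (γ c.1) * ω ^ h = s) ∧ ∃ ω : M, cM k (γ c.2) * ω ^ h = 1 - s :=
  ⟨exists_root_M h hD.hh _ (hD.g0 c hc).1 s (hD.om c hc s hs).1,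
    exists_root_M h hD.hh _ (hD.g0 c hc).2 _ (hD.om c hc s hs).2⟩

theorem SecD.hM (hD : SecD k h S A B Rt γ) : ((h : M) ≠ 0) ∧ ∃ ζ : M, IsPrimitiveRoot ζ h := by
  constructor
  · have h1 := natcast_ne_zero_of_dvd (F := F) h hD.hd
    have h2 := cM_ne (k := k) (M := M) (h : F) h1
    have h3 : cM k (M := M) (h : F) = (h : M) := by
      unfold cM
      simp
    rwa [h3] at h2
  · obtain ⟨ρ, hρ⟩ := exists_primE (F := F) h hD.hh hD.hd
    refine ⟨cM k ρ, ?_⟩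
    have h3 : IsPrimitiveRoot (((algebraMap k[X] M).comp (C.comp (algebraMap F k))) ρ) h :=
      hρ.map_of_injective (f := (algebraMap k[X] M).comp (C.comp (algebraMap F k))) (by
        intro a b hab
        exact cM_inj (k := k) (M := M) hab)
    exact h3

theorem SecD.P4 (hD : SecD k h S A B Rt γ) (p : (F × F) × M × M) (hp : p ∈ JS k h S Rt γ) (i : Fin 4) :
    P4 k (wJ k p i) := by
  classical
  obtain ⟨hp1, hp2, hp3⟩ := hp
  obtain ⟨hhM, ζ, hζ⟩ := hD.hM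
  have hF := hD.full _ hp1
  fin_cases i
  · show Pool.Agent.H470.P4 k p.2.1
    exact root_propsE h hD.hh hhM ζ hζ hF (fun s hs => hF.ne_zero (hD.z0 _ hp1) s hs) _ (hD.g0 _ hp1).1
      (fun s hs => (hD.rts _ hp1 s hs).1) _ hp2
  · show Pool.Agent.H470.P4 k p.2.2
    refine root_propsE h hD.hh hhM ζ hζ hF.flip ?_ _ (hD.g0 _ hp1).2 ?_ _ ?_
    · intro s hs
      rw [Finset.mem_image] at hs
      obtain ⟨s', hs', rfl⟩ := hs
      exact hF.one_sub_ne (hD.z1 _ hp1) s' hs'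
    · intro s hs
      rw [Finset.mem_image] at hs
      obtain ⟨s', hs', rfl⟩ := hs
      exact (hD.rts _ hp1 s' hs').2
    · rw [Finset.mem_image]
      exact ⟨_, hp2, by linear_combination -hp3⟩
  · show Pool.Agent.H470.P4 k (cM k p.1.1)
    exact const_props _
  · show Pool.Agent.H470.P4 k (cM k p.1.2)
    exact const_props _

theorem SecD.cnt {Ψ : M →+* M} (hΨ : Semi F (k := k) Ψ) (hD : SecD k h S A B Rt γ) :
    {p | p ∈ JS k h S Rt γ ∧ ∀ i, Ψ (wJ k p i) = wJ k p i}.ncard =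
      h ^ 2 * ∑ c ∈ S, {s | s ∈ Rt c ∧ Ψ s = s ∧ cl k h Ψ s c.1 ∧ cl k h Ψ (1 - s) c.2}.ncard := by
  classical
  have h1 := dcountE (F := F) (C := F × F) (K' := M) h hD.hh hD.hd Ψ
    ((algebraMap k[X] M).comp (C.comp (algebraMap F k))) (fun z => Ψ_cM hΨ z)
    (fun ζ hζ => by
      obtain ⟨z, hz, hz2⟩ := root_unity (F := F) (k := k) h hD.hh hD.hd ζ hζ
      exact ⟨z, hz, hz2⟩) S Rt (fun c => cM k (γ c.1)) (fun c => cM k (γ c.2))
    (fun c hc => cM_ne _ (hD.g0 c hc).1) (fun c hc => cM_ne _ (hD.g0 c hc).2)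
    (fun c hc s hs => ⟨(hD.full c hc).ne_zero (hD.z0 c hc) s hs, (hD.full c hc).one_sub_ne (hD.z1 c hc) s hs⟩)
  have h2 : {p | p ∈ JS k h S Rt γ ∧ ∀ i, Ψ (wJ k p i) = wJ k p i} =
      {p : (F × F) × M × M | p.1 ∈ S ∧ cM k (γ p.1.1) * p.2.1 ^ h ∈ Rt p.1 ∧
      cM k (γ p.1.1) * p.2.1 ^ h + cM k (γ p.1.2) * p.2.2 ^ h = 1 ∧ Ψ p.2.1 = p.2.1 ∧ Ψ p.2.2 = p.2.2} := by
    ext p
    simp only [Set.mem_setOf_eq, JS]
    constructor
    · rintro ⟨⟨h3, h4, h5⟩, h6⟩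
      exact ⟨h3, h4, h5, h6 0, h6 1⟩
    · rintro ⟨h3, h4, h5, h6, h7⟩
      refine ⟨⟨h3, h4, h5⟩, ?_⟩
      intro i
      fin_cases i
      · exact h6
      · exact h7
      · exact Ψ_cM hΨ _
      · exact Ψ_cM hΨ _
  rw [h2, h1]
  congr 1
  refine Finset.sum_congr rfl fun c hc => ?_
  congr 1
  ext s
  simp only [Set.mem_setOf_eq]
  rw [cl_iff hΨ h hD.hh hD.hd _ _ (hD.g0 c hc).1 (hD.gz c hc).1 s,
    cl_iff hΨ h hD.hh hD.hd _ _ (hD.g0 c hc).2 (hD.gz c hc).2 (1 - s)]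
  constructor
  · rintro ⟨h3, ⟨h4, h5⟩, -, h6⟩
    exact ⟨h3, h4, h5, h6⟩
  · rintro ⟨h3, h4, h5, h6⟩
    exact ⟨h3, ⟨h4, h5⟩, by rw [map_sub, map_one, h4], h6⟩

theorem SecD.card (hD : SecD k h S A B Rt γ) :
    (JS k h S Rt γ).ncard = h ^ 2 * ∑ c ∈ S, (A c).natDegree := by
  classical
  have h1 := dcountE (F := F) (C := F × F) (K' := M) h hD.hh hD.hd (RingHom.id M)
    ((algebraMap k[X] M).comp (C.comp (algebraMap F k))) (fun z => rfl)
    (fun ζ hζ => by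
      obtain ⟨z, hz, hz2⟩ := root_unity (F := F) (k := k) h hD.hh hD.hd ζ hζ
      exact ⟨z, hz, hz2⟩) S Rt (fun c => cM k (γ c.1)) (fun c => cM k (γ c.2))
    (fun c hc => cM_ne _ (hD.g0 c hc).1) (fun c hc => cM_ne _ (hD.g0 c hc).2)
    (fun c hc s hs => ⟨(hD.full c hc).ne_zero (hD.z0 c hc) s hs, (hD.full c hc).one_sub_ne (hD.z1 c hc) s hs⟩)
  have h2 : JS k h S Rt γ =
      {p : (F × F) × M × M | p.1 ∈ S ∧ cM k (γ p.1.1) * p.2.1 ^ h ∈ Rt p.1 ∧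
      cM k (γ p.1.1) * p.2.1 ^ h + cM k (γ p.1.2) * p.2.2 ^ h = 1 ∧ (RingHom.id M) p.2.1 = p.2.1 ∧
        (RingHom.id M) p.2.2 = p.2.2} := by
    ext p
    simp only [Set.mem_setOf_eq, JS, RingHom.id_apply, and_true]
  rw [h2, h1]
  congr 1
  refine Finset.sum_congr rfl fun c hc => ?_
  rw [← (hD.full c hc).card, ← Set.ncard_coe_finset]
  congr 1
  ext s
  simp only [Set.mem_setOf_eq, Finset.mem_coe, RingHom.id_apply, and_true]
  constructor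
  · exact fun h3 => h3.1
  · intro h3
    exact ⟨h3, hD.rts c hc s h3⟩

end

end Pool.Agent.H470
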