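import Pool.Agent.H470.SecE8

/-!
# The dichotomy for the sectors: specialisation
-/

set_option autoImplicit false
set_option linter.all false

open Polynomial

namespace Pool.Agent.H470

section
variable {F k : Type} [Field F] [Fintype F] [DecidableEq F] [Field k] [Algebra F k] [IsAlgClosed k]
variable {M : Type} [Field M] [Algebra (RatFunc k) M] [Algebra k[X] M] [IsScalarTower k[X] (RatFunc k) M]
variable {h : ℕ} {S : Finset (F × F)} {A B : F × F → F[X]} {Rt : F × F → Finset M} {γ : F → F}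

theorem SecD.rint (hD : SecD k h S A B Rt γ) (c : F × F) (hc : c ∈ S) (s : M) (hs : s ∈ Rt c) :
    IsIntegral k[X] s :=
  ⟨gk k (gAB (A c) (B c)), (gAB_monic _ _ (hD.full c hc).monic (hD.full c hc).lt).map _, (hD.full c hc).root s hs⟩

/-- lifting a specialised tuple -/
theorem SecD.lift (hD : SecD k h S A B Rt γ) (t0 : F) (ev : integralClosure k[X] M →+* k)
    (hev : ∀ p, ev (algebraMap k[X] _ p) = p.eval (algebraMap F k t0)) (c : F × F) (hc : c ∈ S) (u1 u2 : k)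
    (hu : ((A c - C t0 * B c).map (algebraMap F k)).eval (algebraMap F k (γ c.1) * u1 ^ h) = 0)
    (hr : algebraMap F k (γ c.1) * u1 ^ h + algebraMap F k (γ c.2) * u2 ^ h = 1) :
    ∃ p ∈ JS k h S Rt γ, p.1 = c ∧ ∃ (h1 : IsIntegral k[X] p.2.1) (h2 : IsIntegral k[X] p.2.2),
      ev ⟨p.2.1, h1⟩ = u1 ∧ ev ⟨p.2.2, h2⟩ = u2 := by
  obtain ⟨s, hs, hsx⟩ := (spec_fact (hD.full c hc) (hD.rint c hc) t0 ev hev _).1 hu
  have hsi := hD.rint c hc s hs
  have hone : IsIntegral k[X] (1 - s) := isIntegral_one.sub hsi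
  have hev1 : ev ⟨1 - s, hone⟩ = 1 - ev ⟨s, hsi⟩ := by
    rw [← map_one ev, ← map_sub]
    rfl
  obtain ⟨ω1, hi1, hω1, hu1⟩ := lift_root h hD.hh hD.hd (γ c.1) (hD.g0 c hc).1 ev t0 hev s hsi
    (hD.rts c hc s hs).1 u1 hsx.symm
  obtain ⟨ω2, hi2, hω2, hu2⟩ := lift_root h hD.hh hD.hd (γ c.2) (hD.g0 c hc).2 ev t0 hev (1 - s) hone
    (hD.rts c hc s hs).2 u2 (by rw [hev1, hsx]; linear_combination hr)
  exact ⟨(c, ω1, ω2), ⟨hc, by rw [hω1]; exact hs, by rw [hω1, hω2]; ring⟩, rfl, hi1, hi2, hu1, hu2⟩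

/-- the specialised tuple -/
theorem SecD.spec (hD : SecD k h S A B Rt γ) (t0 : F) (ev : integralClosure k[X] M →+* k)
    (hev : ∀ p, ev (algebraMap k[X] _ p) = p.eval (algebraMap F k t0)) (p : (F × F) × M × M)
    (hp : p ∈ JS k h S Rt γ) (h1 : IsIntegral k[X] p.2.1) (h2 : IsIntegral k[X] p.2.2) :
    ((A p.1 - C t0 * B p.1).map (algebraMap F k)).eval (algebraMap F k (γ p.1.1) * ev ⟨p.2.1, h1⟩ ^ h) = 0 ∧
    algebraMap F k (γ p.1.1) * ev ⟨p.2.1, h1⟩ ^ h + algebraMap F k (γ p.1.2) * ev ⟨p.2.2, h2⟩ ^ h = 1 := by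
  obtain ⟨hp1, hp2, hp3⟩ := hp
  have hcint : ∀ z : F, IsIntegral k[X] (cM k (M := M) z) := fun z => isIntegral_algebraMap
  have hevc : ∀ z : F, ev ⟨cM k z, hcint z⟩ = algebraMap F k z := by
    intro z
    have := hev (C (algebraMap F k z))
    rw [eval_C] at this
    exact this
  constructor
  · rw [spec_fact (hD.full _ hp1) (hD.rint _ hp1) t0 ev hev]
    refine ⟨_, hp2, ?_⟩
    rw [← hevc, ← map_pow, ← map_mul]
    rfl
  · rw [← hevc, ← hevc, ← map_pow, ← map_mul, ← map_pow, ← map_mul, ← map_add, ← map_one ev]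
    congr 1
    exact Subtype.ext hp3

theorem SecD.fint (hD : SecD k h S A B Rt γ) (j : JS k h S Rt γ) (i : Fin 4) : IsIntegral k[X] (wJ k j.1 i) :=
  (hD.P4 j.1 j.2 i).1

/-- the Frobenius map on the specialised tuples -/
theorem SecD.frob (hD : SecD k h S A B Rt γ) (t0 : F) (ev : integralClosure k[X] M →+* k)
    (hev : ∀ p, ev (algebraMap k[X] _ p) = p.eval (algebraMap F k t0)) (j : JS k h S Rt γ) :
    ∃ j' : JS k h S Rt γ, ∀ i, ev ⟨wJ k j'.1 i, hD.fint j' i⟩ = fr F k (ev ⟨wJ k j.1 i, hD.fint j i⟩) := by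
  have hcint : ∀ z : F, IsIntegral k[X] (cM k (M := M) z) := fun z => isIntegral_algebraMap
  have hevc : ∀ z : F, ev ⟨cM k z, hcint z⟩ = algebraMap F k z := by
    intro z
    have := hev (C (algebraMap F k z))
    rw [eval_C] at this
    exact this
  obtain ⟨h1, h2⟩ := hD.spec t0 ev hev j.1 j.2 (hD.fint j 0) (hD.fint j 1)
  obtain ⟨p, hp, hpc, hi1, hi2, hu1, hu2⟩ := hD.lift t0 ev hev j.1.1 j.2.1
    (fr F k (ev ⟨j.1.2.1, hD.fint j 0⟩)) (fr F k (ev ⟨j.1.2.2, hD.fint j 1⟩)) (by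
      have h3 := congrArg (fr F k) h1
      rw [map_zero, ← eval_map_apply, Polynomial.map_map, map_mul, map_pow, fr_algebraMap] at h3
      have h4 : (fr F k).comp (algebraMap F k) = algebraMap F k := RingHom.ext fun x => fr_algebraMap F k x
      rw [h4] at h3
      exact h3) (by
      have h3 := congrArg (fr F k) h2
      rw [map_add, map_mul, map_mul, map_pow, map_pow, fr_algebraMap, fr_algebraMap, map_one] at h3
      exact h3)
  refine ⟨⟨p, hp⟩, ?_⟩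
  intro i
  fin_cases i
  · exact hu1
  · exact hu2
  · show ev ⟨cM k p.1.1, hcint _⟩ = fr F k (ev ⟨cM k j.1.1.1, hcint _⟩)
    rw [hevc, hevc, hpc, fr_algebraMap]
  · show ev ⟨cM k p.1.2, hcint _⟩ = fr F k (ev ⟨cM k j.1.1.2, hcint _⟩)
    rw [hevc, hevc, hpc, fr_algebraMap]

/-- the count of the fixed specialised tuples -/
theorem SecD.count (hD : SecD k h S A B Rt γ) (t0 : F) (ev : integralClosure k[X] M →+* k)
    (hev : ∀ p, ev (algebraMap k[X] _ p) = p.eval (algebraMap F k t0))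
    (hinj : Function.Injective fun (j : JS k h S Rt γ) i => ev ⟨wJ k j.1 i, hD.fint j i⟩)
    (h0 : ∀ c ∈ S, (A c - C t0 * B c).eval 0 ≠ 0) (h1 : ∀ c ∈ S, (A c - C t0 * B c).eval 1 ≠ 0) :
    {j : JS k h S Rt γ | ∀ i, fr F k (ev ⟨wJ k j.1 i, hD.fint j i⟩) = ev ⟨wJ k j.1 i, hD.fint j i⟩}.ncard =
      h ^ 2 * ∑ c ∈ S, {x : F | (A c - C t0 * B c).eval x = 0 ∧ x ^ ((Fintype.card F - 1) / h) = c.1 ∧
        (1 - x) ^ ((Fintype.card F - 1) / h) = c.2}.ncard := by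
  classical
  have hcint : ∀ z : F, IsIntegral k[X] (cM k (M := M) z) := fun z => isIntegral_algebraMap
  have hevc : ∀ z : F, ev ⟨cM k z, hcint z⟩ = algebraMap F k z := by
    intro z
    have := hev (C (algebraMap F k z))
    rw [eval_C] at this
    exact this
  have hne : ∀ c ∈ S, A c - C t0 * B c ≠ 0 := by
    intro c hc h3
    apply h0 c hc
    rw [h3, eval_zero]
  set R : F × F → Finset F := fun c => (A c - C t0 * B c).roots.toFinset with hR
  have hmemR : ∀ c ∈ S, ∀ x, x ∈ R c ↔ (A c - C t0 * B c).eval x = 0 := by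
    intro c hc x
    rw [hR]
    simp only [Multiset.mem_toFinset]
    rw [mem_roots (hne c hc), IsRoot.def]
  have hx0 : ∀ c ∈ S, ∀ x, (A c - C t0 * B c).eval x = 0 → x ≠ 0 ∧ 1 - x ≠ 0 := by
    intro c hc x hx
    constructor
    · rintro rfl
      exact h0 c hc hx
    · intro h3
      have h4 : x = 1 := by linear_combination -h3
      rw [h4] at hx
      exact h1 c hc hx
  have hcnt := dcountE (F := F) (C := F × F) (K' := F) h hD.hh hD.hd (RingHom.id F) (RingHom.id F)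
    (fun z => rfl) (fun ζ hζ => ⟨ζ, hζ, rfl⟩) S R (fun c => γ c.1) (fun c => γ c.2)
    (fun c hc => (hD.g0 c hc).1) (fun c hc => (hD.g0 c hc).2)
    (fun c hc s hs => hx0 c hc s ((hmemR c hc s).1 hs))
  have hsum : ∑ c ∈ S, {x : F | (A c - C t0 * B c).eval x = 0 ∧ x ^ ((Fintype.card F - 1) / h) = c.1 ∧
        (1 - x) ^ ((Fintype.card F - 1) / h) = c.2}.ncard = ∑ c ∈ S, {s | s ∈ R c ∧
        (∃ u, γ c.1 * u ^ h = s ∧ (RingHom.id F) u = u) ∧
      (∃ u, γ c.2 * u ^ h = 1 - s ∧ (RingHom.id F) u = u)}.ncard := by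
    refine Finset.sum_congr rfl fun c hc => ?_
    congr 1
    ext x
    simp only [Set.mem_setOf_eq]
    rw [hmemR c hc]
    constructor
    · rintro ⟨h3, h4, h5⟩
      obtain ⟨h6, h7⟩ := hx0 c hc x h3
      exact ⟨h3, (class_iffE h hD.hh hD.hd _ _ (hD.g0 c hc).1 (hD.gz c hc).1 x h6).2 h4,
        (class_iffE h hD.hh hD.hd _ _ (hD.g0 c hc).2 (hD.gz c hc).2 (1 - x) h7).2 h5⟩
    · rintro ⟨h3, h4, h5⟩
      obtain ⟨h6, h7⟩ := hx0 c hc x h3
      exact ⟨h3, (class_iffE h hD.hh hD.hd _ _ (hD.g0 c hc).1 (hD.gz c hc).1 x h6).1 h4,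
        (class_iffE h hD.hh hD.hd _ _ (hD.g0 c hc).2 (hD.gz c hc).2 (1 - x) h7).1 h5⟩
  rw [hsum, ← hcnt]
  set g : JS k h S Rt γ → (F × F) × k × k := fun j => (j.1.1, ev ⟨wJ k j.1 0, hD.fint j 0⟩, ev ⟨wJ k j.1 1, hD.fint j 1⟩)
    with hg
  have hginj : Function.Injective g := by
    intro j j' hjj
    have h3 := Prod.mk.inj hjj
    have h4 := Prod.mk.inj h3.2
    apply hinj
    funext i
    fin_cases i
    · exact h4.1
    · exact h4.2
    · show ev ⟨cM k j.1.1.1, hcint _⟩ = ev ⟨cM k j'.1.1.1, hcint _⟩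
      rw [hevc, hevc, h3.1]
    · show ev ⟨cM k j.1.1.2, hcint _⟩ = ev ⟨cM k j'.1.1.2, hcint _⟩
      rw [hevc, hevc, h3.1]
  have hainj := (algebraMap F k).injective
  set ι : (F × F) × F × F → (F × F) × k × k := fun p => (p.1, algebraMap F k p.2.1, algebraMap F k p.2.2) with hι
  have hιinj : Function.Injective ι := by
    intro p p' hpp
    have h3 := Prod.mk.inj hpp
    have h4 := Prod.mk.inj h3.2
    exact Prod.ext h3.1 (Prod.ext (hainj h4.1) (hainj h4.2))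
  rw [← Set.ncard_image_of_injective _ hginj, ← Set.ncard_image_of_injective _ hιinj]
  congr 1
  ext q
  simp only [Set.mem_image, Set.mem_setOf_eq]
  constructor
  · rintro ⟨j, hj, rfl⟩
    obtain ⟨x1, hx1⟩ := fr_fixed F k _ (hj 0)
    obtain ⟨x2, hx2⟩ := fr_fixed F k _ (hj 1)
    obtain ⟨h3, h4⟩ := hD.spec t0 ev hev j.1 j.2 (hD.fint j 0) (hD.fint j 1)
    have h5 : algebraMap F k x1 = ev ⟨j.1.2.1, hD.fint j 0⟩ := hx1
    have h6 : algebraMap F k x2 = ev ⟨j.1.2.2, hD.fint j 1⟩ := hx2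
    rw [← h5, ← map_pow, ← map_mul, eval_map_apply, ← map_zero (algebraMap F k)] at h3
    rw [← h5, ← h6, ← map_pow, ← map_mul, ← map_pow, ← map_mul, ← map_add, ← map_one (algebraMap F k)] at h4
    refine ⟨(j.1.1, x1, x2), ⟨j.2.1, ?_, hainj h4, rfl, rfl⟩, ?_⟩
    · rw [hmemR _ j.2.1]
      exact hainj h3
    · rw [hι, hg]
      simp only
      rw [hx1, hx2]
  · rintro ⟨⟨c, x1, x2⟩, ⟨hc, h3, h4, -, -⟩, rfl⟩
    simp only at hc h3 h4
    rw [hmemR c hc] at h3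
    obtain ⟨p, hp, hpc, hi1, hi2, hu1, hu2⟩ := hD.lift t0 ev hev c hc (algebraMap F k x1) (algebraMap F k x2)
      (by rw [← map_pow, ← map_mul, eval_map_apply, h3, map_zero])
      (by rw [← map_pow, ← map_mul, ← map_pow, ← map_mul, ← map_add, h4, map_one])
    refine ⟨⟨p, hp⟩, ?_, ?_⟩
    · intro i
      fin_cases i
      · show fr F k (ev ⟨p.2.1, hi1⟩) = ev ⟨p.2.1, hi1⟩
        rw [hu1, fr_algebraMap]
      · show fr F k (ev ⟨p.2.2, hi2⟩) = ev ⟨p.2.2, hi2⟩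
        rw [hu2, fr_algebraMap]
      · show fr F k (ev ⟨cM k p.1.1, hcint _⟩) = ev ⟨cM k p.1.1, hcint _⟩
        rw [hevc, fr_algebraMap]
      · show fr F k (ev ⟨cM k p.1.2, hcint _⟩) = ev ⟨cM k p.1.2, hcint _⟩
        rw [hevc, fr_algebraMap]
    · rw [hι, hg]
      exact Prod.ext hpc (Prod.ext hu1 hu2)

end

end Pool.Agent.H470
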