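import Pool.Agent.H470.Mom7

/-!
# Residues at a place of an extension of the rational function field
-/

set_option autoImplicit false
set_option linter.all false

open Polynomial

namespace Pool.Agent.H470

section
variable {k : Type} [Field k] {N : Type} [Field N] [Algebra k[X] N]

/-- `r` is finite at the place `ev`, with residue `c` -/
def Rs (ev : integralClosure k[X] N →+* k) (r : N) (c : k) : Prop :=
  ∃ g h : integralClosure k[X] N, ev h ≠ 0 ∧ r * (h : N) = (g : N) ∧ c * ev h = ev g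

variable {ev : integralClosure k[X] N →+* k}

theorem Rs.unique {r : N} {c c' : k} (h1 : Rs ev r c) (h2 : Rs ev r c') : c = c' := by
  obtain ⟨g, h, hh, e1, e2⟩ := h1
  obtain ⟨g', h', hh', e1', e2'⟩ := h2
  have h3 : g * h' = g' * h := by
    apply Subtype.ext
    rw [MulMemClass.coe_mul, MulMemClass.coe_mul, ← e1, ← e1']
    ring
  have h4 := congrArg ev h3
  rw [map_mul, map_mul, ← e2, ← e2'] at h4
  have h5 : ev h * ev h' * (c - c') = 0 := by linear_combination h4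
  rcases mul_eq_zero.1 h5 with h6 | h6
  · rcases mul_eq_zero.1 h6 with h7 | h7
    · exact absurd h7 hh
    · exact absurd h7 hh'
  · exact sub_eq_zero.1 h6

theorem Rs.of_int (b : integralClosure k[X] N) : Rs ev (b : N) (ev b) :=
  ⟨b, 1, by rw [map_one]; exact one_ne_zero, by simp, by simp⟩

theorem Rs.congr {r r' : N} {c c' : k} (h : Rs ev r c) (hr : r = r') (hc : c = c') : Rs ev r' c' := by
  rw [← hr, ← hc]
  exact h

theorem Rs.one : Rs ev (1 : N) 1 := (Rs.of_int (ev := ev) 1).congr (by simp) (by simp)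

theorem Rs.zero : Rs ev (0 : N) 0 := (Rs.of_int (ev := ev) 0).congr (by simp) (by simp)

theorem Rs.add {r s : N} {c d : k} (h1 : Rs ev r c) (h2 : Rs ev s d) : Rs ev (r + s) (c + d) := by
  obtain ⟨g, h, hh, e1, e2⟩ := h1
  obtain ⟨g', h', hh', e1', e2'⟩ := h2
  refine ⟨g * h' + g' * h, h * h', by rw [map_mul]; exact mul_ne_zero hh hh', ?_, ?_⟩
  · push_cast
    rw [← e1, ← e1']
    ring
  · rw [map_mul, map_add, map_mul, map_mul, ← e2, ← e2']
    ring

theorem Rs.mul {r s : N} {c d : k} (h1 : Rs ev r c) (h2 : Rs ev s d) : Rs ev (r * s) (c * d) := by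
  obtain ⟨g, h, hh, e1, e2⟩ := h1
  obtain ⟨g', h', hh', e1', e2'⟩ := h2
  refine ⟨g * g', h * h', by rw [map_mul]; exact mul_ne_zero hh hh', ?_, ?_⟩
  · push_cast
    rw [← e1, ← e1']
    ring
  · rw [map_mul, map_mul, ← e2, ← e2']
    ring

theorem Rs.neg {r : N} {c : k} (h1 : Rs ev r c) : Rs ev (-r) (-c) := by
  obtain ⟨g, h, hh, e1, e2⟩ := h1
  refine ⟨-g, h, hh, ?_, ?_⟩
  · push_cast
    rw [← e1]
    ring
  · rw [map_neg, ← e2]
    ring

theorem Rs.sub {r s : N} {c d : k} (h1 : Rs ev r c) (h2 : Rs ev s d) : Rs ev (r - s) (c - d) := by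
  rw [sub_eq_add_neg, sub_eq_add_neg]
  exact h1.add h2.neg

theorem Rs.pow {r : N} {c : k} (h1 : Rs ev r c) (n : ℕ) : Rs ev (r ^ n) (c ^ n) := by
  induction n with
  | zero => rw [pow_zero, pow_zero]; exact Rs.one
  | succ m ih => rw [pow_succ, pow_succ]; exact ih.mul h1

theorem Rs.sum {ι : Type} (s : Finset ι) (f : ι → N) (c : ι → k) (h : ∀ i ∈ s, Rs ev (f i) (c i)) :
    Rs ev (∑ i ∈ s, f i) (∑ i ∈ s, c i) := by
  classical
  induction s using Finset.induction_on with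
  | empty => simpa using Rs.zero
  | insert a s ha ih =>
    rw [Finset.sum_insert ha, Finset.sum_insert ha]
    exact (h a (Finset.mem_insert_self _ _)).add (ih fun i hi => h i (Finset.mem_insert_of_mem hi))

theorem Rs.ne_zero {r : N} {c : k} (h1 : Rs ev r c) (hc : c ≠ 0) : r ≠ 0 := by
  rintro rfl
  exact hc (h1.unique Rs.zero)

theorem Rs.inv {r : N} {c : k} (h1 : Rs ev r c) (hc : c ≠ 0) : Rs ev r⁻¹ c⁻¹ := by
  have hr := h1.ne_zero hc
  obtain ⟨g, h, hh, e1, e2⟩ := h1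
  refine ⟨h, g, ?_, ?_, ?_⟩
  · rw [← e2]
    exact mul_ne_zero hc hh
  · rw [← e1, ← mul_assoc, inv_mul_cancel₀ hr, one_mul]
  · rw [← e2, ← mul_assoc, inv_mul_cancel₀ hc, one_mul]

theorem Rs.div {r s : N} {c d : k} (h1 : Rs ev r c) (h2 : Rs ev s d) (hd : d ≠ 0) :
    Rs ev (r / s) (c / d) := by
  rw [div_eq_mul_inv, div_eq_mul_inv]
  exact h1.mul (h2.inv hd)

/-- roots of finite elements are finite -/
theorem Rs.root {r : N} {c : k} {n : ℕ} (hn : 0 < n) (h1 : Rs ev (r ^ n) c) :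
    ∃ c' : k, Rs ev r c' ∧ c' ^ n = c := by
  obtain ⟨g, h, hh, e1, e2⟩ := id h1
  have hint : IsIntegral k[X] (r * (h : N)) := by
    apply IsIntegral.of_pow hn
    have h2 : (r * (h : N)) ^ n = ((h ^ (n - 1) * g : integralClosure k[X] N) : N) := by
      push_cast
      rw [← e1, mul_pow]
      obtain ⟨m, rfl⟩ : ∃ m, n = m + 1 := ⟨n - 1, by omega⟩
      rw [Nat.add_sub_cancel]
      ring
    rw [h2]
    exact (h ^ (n - 1) * g : integralClosure k[X] N).2
  have h3 : Rs ev r (ev ⟨r * (h : N), hint⟩ / ev h) := by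
    refine ⟨⟨r * (h : N), hint⟩, h, hh, rfl, ?_⟩
    rw [div_mul_cancel₀ _ hh]
  exact ⟨_, h3, (h3.pow n).unique h1⟩

/-- a semilinear map compatible with the place -/
def Cmp (ev : integralClosure k[X] N →+* k) (ψ : N →+* N) (φ : k →+* k) : Prop :=
  ∀ b : integralClosure k[X] N, ∃ h : ψ b ∈ integralClosure k[X] N, ev ⟨ψ b, h⟩ = φ (ev b)

theorem Rs.map {ψ : N →+* N} {φ : k →+* k} (hψ : Cmp ev ψ φ) {r : N} {c : k} (h1 : Rs ev r c) :
    Rs ev (ψ r) (φ c) := by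
  obtain ⟨g, h, hh, e1, e2⟩ := h1
  obtain ⟨h3, h4⟩ := hψ g
  obtain ⟨h5, h6⟩ := hψ h
  refine ⟨⟨ψ g, h3⟩, ⟨ψ h, h5⟩, ?_, ?_, ?_⟩
  · rw [h6]
    exact (map_ne_zero_iff φ φ.injective).2 hh
  · show ψ r * ψ h = ψ g
    rw [← map_mul, e1]
  · rw [h6, h4, ← map_mul, e2]

theorem Cmp.comp {ψ ψ' : N →+* N} {φ φ' : k →+* k} (h : Cmp ev ψ φ) (h' : Cmp ev ψ' φ') :
    Cmp ev (ψ.comp ψ') (φ.comp φ') := by
  intro b
  obtain ⟨h1, h2⟩ := h' b
  obtain ⟨h3, h4⟩ := h ⟨ψ' b, h1⟩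
  refine ⟨h3, ?_⟩
  have h5 : ev ⟨ψ.comp ψ' b, h3⟩ = ev ⟨ψ (⟨ψ' b, h1⟩ : integralClosure k[X] N), h3⟩ := rfl
  rw [h5, h4, h2]
  rfl

end

end Pool.Agent.H470
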