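import Pool.Agent.H470.W9

/-!
# Positive exponents: the pole at `-1`
-/

set_option autoImplicit false
set_option linter.all false

open Polynomial

namespace Pool.Agent.H470

theorem exists_sP (K : Type) [Field K] (m : ℕ) (hm : Even m) (hm0 : 0 < m) :
    ∃ sP : K[X], X ^ m - 1 = (1 + X) * sP ∧ sP.eval (-1) = -(m : K) := by
  have h1 : (X - C (-1) : K[X]) ∣ X ^ m - 1 := by
    rw [dvd_iff_isRoot, IsRoot.def, eval_sub, eval_pow, eval_X, eval_one, hm.neg_one_pow, sub_self]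
  obtain ⟨sP, hs⟩ := h1
  have h2 : (X - C (-1) : K[X]) = 1 + X := by rw [C_neg, C_1]; ring
  rw [h2] at hs
  refine ⟨sP, hs, ?_⟩
  have h3 := congrArg (fun q => (derivative q).eval (-1)) hs
  simp only [derivative_sub, derivative_X_pow, derivative_one, derivative_mul, derivative_add, derivative_X,
    eval_sub, eval_mul, eval_add, eval_pow, eval_X, eval_C, eval_one, eval_zero, eval_natCast, map_natCast] at h3
  have h4 : Odd (m - 1) := by
    obtain ⟨a, ha⟩ := hm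
    exact ⟨a - 1, by omega⟩
  rw [h4.neg_one_pow] at h3
  linear_combination (-1 : K) * h3

theorem one_of_pow {k : Type} [Field k] (p l : ℕ) [Fact p.Prime] [CharP k p] (x : k) (h : x ^ p ^ l = 1) :
    x = 1 := by
  have h1 : (x - 1) ^ p ^ l = 0 := by rw [sub_pow_char_pow, one_pow, h, sub_self]
  exact sub_eq_zero.1 (pow_eq_zero_iff (pow_ne_zero _ (Fact.out : p.Prime).ne_zero) |>.1 h1)

theorem nat_pow_char {k : Type} [Field k] (p l : ℕ) [Fact p.Prime] [CharP k p] (m : ℕ) :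
    ((m : k)) ^ p ^ l = m := by
  have := map_natCast (iterateFrobenius k p l) m
  rw [iterateFrobenius_def] at this
  exact this

namespace Pl

section
variable {F k : Type} [Field F] [Fintype F] [DecidableEq F] [Field k] [IsAlgClosed k] [Algebra F k]
variable {N : Type} [Field N] [Algebra (RatFunc k) N] [Algebra k[X] N]
    [IsScalarTower k[X] (RatFunc k) N]
variable {e d : ℕ} {n : ℕ}

/-- ratios and differences in the cluster at `-1` -/
theorem inf_pair (p l m : ℕ) [Fact p.Prime] [CharP N p] [CharP k p] (hp : p ≠ 2) (hl : 0 < l)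
    (he : Odd e) (hd : Odd d) (hem : e = d + p ^ l * m) (hm : Even m) (hm0 : 0 < m)
    (hmk : (m : k) ≠ 0) (hdk : (d : k) ≠ 0) {v : F}
    (P : Pl F k N (iA F e d) (iB F e d) v n) (hG : Good (iA F e d) (iB F e d) n) (i j : Fin n)
    (hi : P.r i = -1) (hj : P.r j = -1) :
    ∃ ζ : k, Rs P.ev ((1 + (P.y j : N) ^ d) / (1 + (P.y i : N) ^ d)) ζ ∧ ζ ^ m = 1 ∧
      (ζ = 1 → i ≠ j → ∃ δ : k, Rs P.ev ((1 + (P.y j : N) ^ d)⁻¹ - (1 + (P.y i : N) ^ d)⁻¹) δ ∧
        δ ^ (p ^ l - 1) = -1) := by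
  have hp1 := (Fact.out : p.Prime)
  subst hem
  have hlt : d < d + p ^ l * m := by
    have : 0 < p ^ l * m := Nat.mul_pos (pow_pos hp1.pos _) hm0
    omega
  have hP3 : 3 ≤ p ^ l := by
    have h3 : 3 ≤ p := by
      have := hp1.two_le
      omega
    exact h3.trans (Nat.le_self_pow hl.ne' p)
  obtain ⟨q, hq⟩ : ∃ q, p ^ l = q + 1 := ⟨p ^ l - 1, by omega⟩
  have hq0 : 0 < q := by omega
  have hPp : 0 < p ^ l := by omega
  have powP : ∀ x : N, x ^ p ^ l = x * x ^ q := by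
    intro x
    rw [hq, pow_succ']
  obtain ⟨sP, hsP, hsP1⟩ := exists_sP k m hm hm0
  have hVne := P.V_ne hG hd.pos
  -- residues
  have hres : ∀ z : Fin n, P.r z = -1 → Rs P.ev (1 + (P.y z : N)) 0 ∧
      Rs P.ev (1 + (P.y z : N) ^ d) 0 ∧
      Rs P.ev ((gg k d).eval₂ (cN k N) (P.y z : N)) (d : k) ∧
      Rs P.ev (sP.eval₂ (cN k N) (P.y z : N)) (-(m : k)) ∧
      1 + (P.y z : N) ^ d = (1 + (P.y z : N)) * (gg k d).eval₂ (cN k N) (P.y z : N) ∧
      (P.y z : N) ^ m - 1 = (1 + (P.y z : N)) * sP.eval₂ (cN k N) (P.y z : N) := by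
    intro z hz
    have h1 := P.rs z
    rw [hz] at h1
    have h2 := P.rs_poly z (gg k d)
    have h3 := P.rs_poly z sP
    rw [hz, gg_neg_one] at h2
    rw [hz, hsP1] at h3
    refine ⟨(Rs.one.add h1).congr rfl (by ring), (Rs.one.add (h1.pow d)).congr rfl (by rw [hd.neg_one_pow]; ring),
      h2, h3, ?_, ?_⟩
    · have := congrArg (eval₂ (cN k N) (P.y z : N)) (gg_mul (K := k) d hd)
      rw [eval₂_mul, eval₂_add, eval₂_add, eval₂_one, eval₂_X, eval₂_pow, eval₂_X] at this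
      exact this.symm
    · have := congrArg (eval₂ (cN k N) (P.y z : N)) hsP
      rw [eval₂_mul, eval₂_add, eval₂_sub, eval₂_one, eval₂_X, eval₂_pow, eval₂_X] at this
      exact this
  obtain ⟨hhi, hVi, hgi, hsi, hfi, hai⟩ := hres i hi
  obtain ⟨hhj, hVj, hgj, hsj, hfj, haj⟩ := hres j hj
  have hVi0 := hVne i
  have hVj0 := hVne j
  have hgi0 := hgi.ne_zero hdk
  have hgj0 := hgj.ne_zero hdk
  have hhi0 := P.y1_ne hG i
  have hhj0 := P.y1_ne hG j
  have hu : ∀ z : Fin n, P.r z = -1 →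
      Rs P.ev ((1 - (1 + (P.y z : N) ^ d)⁻¹) * ((P.y z : N) ^ m - 1) ^ p ^ l) 0 := by
    intro z hz
    obtain ⟨h1, h2, h3, h4, h5, h6⟩ := hres z hz
    have hz0 := P.y1_ne hG z
    have hg0 := h3.ne_zero hdk
    have h7 : (1 - (1 + (P.y z : N) ^ d)⁻¹) * ((P.y z : N) ^ m - 1) ^ p ^ l =
        ((1 + (P.y z : N) ^ d) - 1) * (1 + (P.y z : N)) ^ q * (sP.eval₂ (cN k N) (P.y z : N)) ^ p ^ l /
          (gg k d).eval₂ (cN k N) (P.y z : N) := by
      have h8 := hVne z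
      rw [eq_div_iff hg0, h6, mul_pow]
      have h9 : (1 - (1 + (P.y z : N) ^ d)⁻¹) * (1 + (P.y z : N) ^ d) = (1 + (P.y z : N) ^ d) - 1 := by
        field_simp
      rw [← h9]
      rw [powP (1 + (P.y z : N))]
      linear_combination (-(1 - (1 + (P.y z : N) ^ d)⁻¹) * (1 + (P.y z : N)) ^ q *
        (sP.eval₂ (cN k N) (P.y z : N)) ^ p ^ l) * h5
    rw [h7]
    refine ((((h2.sub Rs.one).mul (h1.pow q)).mul (h4.pow _)).div h3 hdk).congr rfl ?_
    rw [zero_pow hq0.ne']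
    ring
  have hui := hu i hi
  have huj := hu j hj
  set V : N := 1 + (P.y i : N) ^ d with hVdef
  set V' : N := 1 + (P.y j : N) ^ d with hV'def
  set u : N := (1 - V⁻¹) * ((P.y i : N) ^ m - 1) ^ p ^ l with hudef
  set u' : N := (1 - V'⁻¹) * ((P.y j : N) ^ m - 1) ^ p ^ l with hu'def
  have hpair := P.pair he hd hlt i j
  rw [← hVdef, ← hV'def] at hpair
  have hstar := two_roots p l d m (P.y i : N) (P.y j : N) hVi0 hVj0 hpair u u' rfl rfl
  rw [← hVdef, ← hV'def] at hstar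
  have h1u : Rs P.ev (1 + u) 1 := (Rs.one.add hui).congr rfl (by ring)
  have h1u' : Rs P.ev (1 + u') 1 := (Rs.one.add huj).congr rfl (by ring)
  have h1u0 : 1 + u ≠ 0 := h1u.ne_zero one_ne_zero
  have h1u'0 : 1 + u' ≠ 0 := h1u'.ne_zero one_ne_zero
  have hratio : Rs P.ev ((V' / V) ^ (p ^ l * m)) 1 := by
    have h1 : (V' / V) ^ (p ^ l * m) = (1 + u') ^ d / (1 + u) ^ d := by
      rw [div_pow, div_eq_div_iff (pow_ne_zero _ hVi0) (pow_ne_zero _ h1u0)]
      linear_combination (-1 : N) * hstar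
    rw [h1]
    refine ((h1u'.pow d).div (h1u.pow d) (by rw [one_pow]; exact one_ne_zero)).congr rfl ?_
    simp
  obtain ⟨ζ, hζ, hζm⟩ := hratio.root (Nat.mul_pos hPp hm0)
  have hζm' : ζ ^ m = 1 := by
    apply one_of_pow p l
    rw [← pow_mul, mul_comm m]
    exact hζm
  refine ⟨ζ, hζ, hζm', ?_⟩
  rintro rfl hij
  have hyne : (P.y i : N) - (P.y j : N) ≠ 0 := by
    intro h
    exact hij (P.injN (sub_eq_zero.1 h))
  have hri := P.rs i
  have hrj := P.rs j
  rw [hi] at hri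
  rw [hj] at hrj
  have hm1 : Odd (m - 1) := by
    obtain ⟨a, ha⟩ := hm
    exact ⟨a - 1, by omega⟩
  have hd1 : Even (d - 1) := by
    obtain ⟨a, ha⟩ := hd
    exact ⟨a, by omega⟩
  set w1 : N := dq (P.y i : N) (P.y j : N) m with hw1
  set w2 : N := dq (P.y i : N) (P.y j : N) d with hw2
  have hw1r : Rs P.ev w1 (-(m : k)) := (Rs.dq hri hrj m).congr rfl (by rw [hm1.neg_one_pow]; ring)
  have hw2r : Rs P.ev w2 (d : k) := (Rs.dq hri hrj d).congr rfl (by rw [hd1.neg_one_pow]; ring)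
  have hw20 := hw2r.ne_zero hdk
  have hVV : V - V' = ((P.y i : N) - (P.y j : N)) * w2 := by
    rw [hw2, ← dq_mul, hVdef, hV'def]
    ring
  have hVne' : V - V' ≠ 0 := by
    rw [hVV]
    exact mul_ne_zero hyne hw20
  set Δ : N := V'⁻¹ - V⁻¹ with hΔ
  have hΔV : V - V' = V * V' * Δ := by
    rw [hΔ]
    field_simp
  have hΔ0 : Δ ≠ 0 := by
    intro h
    rw [h, mul_zero] at hΔV
    exact hVne' hΔV
  have haa : (P.y i : N) ^ m - (P.y j : N) ^ m = V * V' * Δ * (w1 / w2) := by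
    rw [← hΔV, hVV, dq_mul, ← hw1]
    field_simp
  set lam : N := w1 / w2 with hlam
  have hlamr : Rs P.ev lam (-(m : k) / d) := hw1r.div hw2r hdk
  set sg : N := sP.eval₂ (cN k N) (P.y j : N) / (gg k d).eval₂ (cN k N) (P.y j : N) with hsg
  have hsgr : Rs P.ev sg (-(m : k) / d) := hsj.div hgj hdk
  have hsgV : (P.y j : N) ^ m - 1 = V' * sg := by
    rw [haj, hfj, hsg]
    field_simp
  have hr : Rs P.ev (V / V') 1 := by
    refine ((hζ.inv one_ne_zero).congr ?_ ?_)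
    · rw [inv_div]
    · rw [inv_one]
  set r : N := V / V' with hrdef
  have hrV : r * V' = V := by rw [hrdef, div_mul_cancel₀ _ hVj0]
  set T : N := ∑ t ∈ Finset.range m, r ^ t with hT
  have hTr : Rs P.ev T (m : k) := by
    have h1 := Rs.sum (ev := P.ev) (Finset.range m) (fun t => r ^ t) (fun t => (1 : k) ^ t)
      (fun t _ => hr.pow t)
    refine h1.congr rfl ?_
    simp
  have hgeom : r ^ m - 1 = V * Δ * T := by
    have h1 := mul_geom_sum r m
    rw [← hT] at h1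
    rw [← h1]
    have h2 : r - 1 = V * Δ := by
      apply mul_right_cancel₀ hVj0
      linear_combination hrV + hΔV
    rw [h2]
  set S : N := dq (1 + u) (1 + u') d with hS
  have hSr : Rs P.ev S (d : k) := (Rs.dq h1u h1u' d).congr rfl (by rw [one_pow, mul_one])
  have hSd : (1 + u) ^ d - (1 + u') ^ d = (u - u') * S := by
    rw [dq_mul, ← hS]
    ring
  have husub : u - u' = (1 - V⁻¹) * (V * V' * Δ * lam) ^ p ^ l + Δ * (V' * sg) ^ p ^ l := by
    rw [hudef, hu'def, u_sub p l V V' _ _ hVi0 hVj0, haa, hsgV]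
  have hrP : (V * Δ * T) ^ p ^ l = r ^ (p ^ l * m) - 1 := by
    rw [← hgeom, sub_pow_char_pow, one_pow, ← pow_mul, mul_comm m]
  have hstar2 : r ^ (p ^ l * m) * (1 + u') ^ d = (1 + u) ^ d := by
    apply mul_left_cancel₀ (pow_ne_zero (p ^ l * m) hVj0)
    rw [← mul_assoc, ← mul_pow, mul_comm V' r, hrV, hstar]
  have hmain : (V * Δ * T) ^ p ^ l * (1 + u') ^ d =
      ((1 - V⁻¹) * (V * V' * Δ * lam) ^ p ^ l + Δ * (V' * sg) ^ p ^ l) * S := by
    rw [← husub, ← hSd, hrP]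
    linear_combination hstar2
  set D1 : N := r ^ p ^ l * T ^ p ^ l * (1 + u') ^ d - S * (V - 1) * V ^ q * lam ^ p ^ l with hD1
  have hD1r : Rs P.ev D1 ((m : k) ^ p ^ l) := by
    refine ((((hr.pow _).mul (hTr.pow _)).mul (h1u'.pow d)).sub
      (((hSr.mul (hVi.sub Rs.one)).mul (hVi.pow q)).mul (hlamr.pow _))).congr rfl ?_
    rw [zero_pow hq0.ne']
    ring
  have hfin : Δ ^ q * D1 = S * sg ^ p ^ l := by
    apply mul_left_cancel₀ (mul_ne_zero (pow_ne_zero (p ^ l) hVj0) hΔ0)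
    have h1 : V' ^ p ^ l * r ^ p ^ l = V ^ p ^ l := by rw [← mul_pow, mul_comm, hrV]
    have h2 : Δ * Δ ^ q = Δ ^ p ^ l := (powP Δ).symm
    have h3 : (1 - V⁻¹) * V ^ p ^ l = (V - 1) * V ^ q := by
      rw [powP V]
      field_simp
    rw [mul_pow, mul_pow, mul_pow, mul_pow, mul_pow, mul_pow] at hmain
    calc V' ^ p ^ l * Δ * (Δ ^ q * D1) =
        (V' ^ p ^ l * r ^ p ^ l) * (Δ * Δ ^ q) * T ^ p ^ l * (1 + u') ^ d -
          V' ^ p ^ l * (Δ * Δ ^ q) * S * lam ^ p ^ l * ((V - 1) * V ^ q) := by rw [hD1]; ring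
      _ = V ^ p ^ l * Δ ^ p ^ l * T ^ p ^ l * (1 + u') ^ d -
          V' ^ p ^ l * Δ ^ p ^ l * S * lam ^ p ^ l * ((1 - V⁻¹) * V ^ p ^ l) := by rw [h1, h2, h3]
      _ = V' ^ p ^ l * Δ * (S * sg ^ p ^ l) := by linear_combination hmain
  have hmP : ((m : k)) ^ p ^ l ≠ 0 := pow_ne_zero _ hmk
  have hΔr : Rs P.ev (Δ ^ (p ^ l - 1)) (-1) := by
    have h1 : p ^ l - 1 = q := by omega
    rw [h1]
    have h2 : Δ ^ q = S * sg ^ p ^ l / D1 := by
      rw [eq_div_iff (hD1r.ne_zero hmP), hfin]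
    rw [h2]
    refine ((hSr.mul (hsgr.pow _)).div hD1r hmP).congr rfl ?_
    rw [div_pow, neg_pow, nat_pow_char, nat_pow_char]
    have hodd : Odd (p ^ l) := (hp1.odd_of_ne_two hp).pow
    rw [hodd.neg_one_pow]
    field_simp
  obtain ⟨δ, hδ, hδ'⟩ := hΔr.root (by omega)
  exact ⟨δ, hδ, hδ'⟩

end

end Pl

end Pool.Agent.H470
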