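import Pool.Agent.H470.W10

/-!
# Positive exponents: counting at the pole at `-1`
-/

set_option autoImplicit false
set_option linter.all false

open Polynomial

namespace Pool.Agent.H470

/-- the zeros of `x ^ P + x` -/
noncomputable def WW (k : Type) [Field k] (P : ℕ) : Finset k := by
  classical
  exact (X ^ P + X : k[X]).roots.toFinset

theorem XPX_natDegree (k : Type) [Field k] (P : ℕ) (hP : 1 < P) : (X ^ P + X : k[X]).natDegree = P := by
  rw [natDegree_add_eq_left_of_natDegree_lt]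
  · exact natDegree_X_pow P
  · rw [natDegree_X_pow, natDegree_X]
    exact hP

theorem XPX_ne (k : Type) [Field k] (P : ℕ) (hP : 1 < P) : (X ^ P + X : k[X]) ≠ 0 := by
  intro h
  have := XPX_natDegree k P hP
  rw [h, natDegree_zero] at this
  omega

theorem mem_WW {k : Type} [Field k] {P : ℕ} (hP : 1 < P) (x : k) : x ∈ WW k P ↔ x ^ P = -x := by
  classical
  unfold WW
  rw [Multiset.mem_toFinset, mem_roots (XPX_ne k P hP), IsRoot.def, eval_add, eval_pow, eval_X]
  exact ⟨fun h => by linear_combination h, fun h => by linear_combination h⟩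

theorem card_WW_le {k : Type} [Field k] {P : ℕ} (hP : 1 < P) : (WW k P).card ≤ P := by
  classical
  unfold WW
  refine (Multiset.toFinset_card_le _).trans ((card_roots' _).trans ?_)
  rw [XPX_natDegree k P hP]

namespace Pl

section
variable {F k : Type} [Field F] [Fintype F] [DecidableEq F] [Field k] [IsAlgClosed k] [Algebra F k]
variable {N : Type} [Field N] [Algebra (RatFunc k) N] [Algebra k[X] N]
    [IsScalarTower k[X] (RatFunc k) N]
variable {e d : ℕ} {n : ℕ}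

/-- the shape of the cluster at `-1` -/
theorem inf_surj (p l m : ℕ) [Fact p.Prime] [CharP N p] [CharP k p] (hp : p ≠ 2) (hl : 0 < l)
    (he : Odd e) (hd : Odd d) (hem : e = d + p ^ l * m) (hm : Even m) (hm0 : 0 < m)
    (hmk : (m : k) ≠ 0) (hdk : (d : k) ≠ 0)
    (P : Pl F k N (iA F e d) (iB F e d) 0 n) (hG : Good (iA F e d) (iB F e d) n) (i : Fin n)
    (hi : P.r i = -1) :
    (∀ ζ : k, ζ ^ m = 1 → ∃ j, P.r j = -1 ∧
      Rs P.ev ((1 + (P.y j : N) ^ d) / (1 + (P.y i : N) ^ d)) ζ) ∧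
    (∀ x : k, x ^ p ^ l = -x → ∃ j, P.r j = -1 ∧
      Rs P.ev ((1 + (P.y j : N) ^ d) / (1 + (P.y i : N) ^ d)) 1 ∧
      Rs P.ev ((1 + (P.y j : N) ^ d)⁻¹ - (1 + (P.y i : N) ^ d)⁻¹) x) := by
  classical
  have hp1 := (Fact.out : p.Prime)
  have hP3 : 3 ≤ p ^ l := by
    have h3 : 3 ≤ p := by
      have := hp1.two_le
      omega
    exact h3.trans (Nat.le_self_pow hl.ne' p)
  have hP1 : 1 < p ^ l := by omega
  have hPm : 0 < p ^ l * m := Nat.mul_pos (by omega) hm0
  have hlt : d < e := by omega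
  set V : Fin n → N := fun j => 1 + (P.y j : N) ^ d with hVdef
  have hV0 : ∀ j, V j ≠ 0 := P.V_ne hG hd.pos
  have hpair := fun a b ha hb => P.inf_pair p l m hp hl he hd hem hm hm0 hmk hdk hG a b ha hb
  -- the ratios
  have h1 : ∀ j ∈ P.cl (-1), ∃ ζ : k, Rs P.ev (V j / V i) ζ ∧ ζ ^ m = 1 := by
    intro j hj
    rw [P.mem_cl] at hj
    obtain ⟨ζ, h2, h3, -⟩ := hpair i j hi hj
    exact ⟨ζ, h2, h3⟩
  choose! z hz using h1
  have hz0 : ∀ j ∈ P.cl (-1), z j ≠ 0 := by
    intro j hj h0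
    have := (hz j hj).2
    rw [h0, zero_pow hm0.ne'] at this
    exact zero_ne_one this
  -- two elements with the same ratio
  have hsame : ∀ a ∈ P.cl (-1), ∀ b ∈ P.cl (-1), z a = z b → Rs P.ev (V b / V a) 1 := by
    intro a ha b hb hab
    have h2 := (hz b hb).1.div (hz a ha).1 (hz0 a ha)
    rw [hab, div_self (hz0 b hb)] at h2
    refine h2.congr ?_ rfl
    have := hV0 i
    have := hV0 a
    field_simp
  have hδ : ∀ a ∈ P.cl (-1), ∀ b ∈ P.cl (-1), Rs P.ev (V b / V a) 1 →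
      ∃ δ : k, Rs P.ev ((V b)⁻¹ - (V a)⁻¹) δ ∧ δ ^ p ^ l = -δ ∧ (δ = 0 → a = b) := by
    intro a ha b hb hab
    rw [P.mem_cl] at ha hb
    by_cases h : a = b
    · refine ⟨0, ?_, ?_, fun _ => h⟩
      · rw [h, sub_self]
        exact Rs.zero
      · rw [zero_pow (by omega), neg_zero]
    · obtain ⟨ζ, h2, -, h4⟩ := hpair a b ha hb
      obtain ⟨δ, h5, h6⟩ := h4 (h2.unique hab) h
      refine ⟨δ, h5, ?_, ?_⟩
      · obtain ⟨q, hq⟩ : ∃ q, p ^ l = q + 1 := ⟨p ^ l - 1, by omega⟩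
        rw [hq, Nat.add_sub_cancel] at h6
        rw [hq, pow_succ, h6]
        ring
      · intro h0
        rw [h0, zero_pow (by omega)] at h6
        exact absurd h6.symm (neg_ne_zero.2 one_ne_zero)
  -- base points
  have hbase : ∀ ζ : k, ∃ b : Fin n, (∃ j ∈ P.cl (-1), z j = ζ) → b ∈ P.cl (-1) ∧ z b = ζ := by
    intro ζ
    by_cases h : ∃ j ∈ P.cl (-1), z j = ζ
    · obtain ⟨j, hj, hj'⟩ := h
      exact ⟨j, fun _ => ⟨hj, hj'⟩⟩
    · exact ⟨i, fun h' => absurd h' h⟩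
  choose b hb using hbase
  have hb1 : ∀ j ∈ P.cl (-1), b (z j) ∈ P.cl (-1) ∧ z (b (z j)) = z j := fun j hj => hb (z j) ⟨j, hj, rfl⟩
  have h2 : ∀ j ∈ P.cl (-1), ∃ δ : k, Rs P.ev ((V j)⁻¹ - (V (b (z j)))⁻¹) δ ∧ δ ^ p ^ l = -δ := by
    intro j hj
    obtain ⟨h3, h4⟩ := hb1 j hj
    obtain ⟨δ, h5, h6, -⟩ := hδ _ h3 j hj (hsame _ h3 j hj h4)
    exact ⟨δ, h5, h6⟩
  choose! w hw using h2
  let Z : Finset k := (nthRoots m (1 : k)).toFinset
  have hinj : Set.InjOn (fun j => (z j, w j)) (P.cl (-1)) := by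
    intro a ha c hc hac
    simp only [Prod.mk.injEq] at hac
    obtain ⟨hac1, hac2⟩ := hac
    obtain ⟨δ, h5, -, h7⟩ := hδ a ha c hc (hsame a ha c hc hac1)
    apply h7
    have h8 := (hw c hc).1.sub (hw a ha).1
    rw [hac2, sub_self, hac1] at h8
    have h9 := h8.congr (r' := (V c)⁻¹ - (V a)⁻¹) (by ring) rfl
    exact h5.unique h9
  have hmaps : (P.cl (-1)).image (fun j => (z j, w j)) ⊆ Z ×ˢ WW k (p ^ l) := by
    intro x hx
    rw [Finset.mem_image] at hx
    obtain ⟨j, hj, rfl⟩ := hx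
    rw [Finset.mem_product]
    refine ⟨?_, (mem_WW hP1 _).2 (hw j hj).2⟩
    show z j ∈ (nthRoots m (1 : k)).toFinset
    rw [Multiset.mem_toFinset, mem_nthRoots hm0]
    exact (hz j hj).2
  have hclcard : (P.cl (-1)).card = p ^ l * m := by
    rw [P.card_cl hG, C_0, zero_mul, sub_zero, iA_map]
    rw [(iA_cof (K := k) e d hd hlt hdk).1]
    omega
  have hcard : (Z ×ˢ WW k (p ^ l)).card ≤ ((P.cl (-1)).image fun j => (z j, w j)).card := by
    rw [Finset.card_image_of_injOn hinj, hclcard, Finset.card_product, mul_comm (p ^ l)]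
    exact Nat.mul_le_mul ((Multiset.toFinset_card_le _).trans (card_nthRoots m 1)) (card_WW_le hP1)
  have heq := Finset.eq_of_subset_of_card_le hmaps hcard
  have hsurj : ∀ ζ x : k, ζ ^ m = 1 → x ^ p ^ l = -x → ∃ j ∈ P.cl (-1), z j = ζ ∧ w j = x := by
    intro ζ x hζ hx
    have hmem : (ζ, x) ∈ Z ×ˢ WW k (p ^ l) := by
      rw [Finset.mem_product]
      refine ⟨?_, (mem_WW hP1 _).2 hx⟩
      show ζ ∈ (nthRoots m (1 : k)).toFinset
      rw [Multiset.mem_toFinset, mem_nthRoots hm0]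
      exact hζ
    rw [← heq, Finset.mem_image] at hmem
    obtain ⟨j, hj, hj'⟩ := hmem
    simp only [Prod.mk.injEq] at hj'
    exact ⟨j, hj, hj'⟩
  constructor
  · intro ζ hζ
    obtain ⟨j, hj, hj', -⟩ := hsurj ζ 0 hζ (by rw [zero_pow (by omega), neg_zero])
    refine ⟨j, (P.mem_cl _ _).1 hj, ?_⟩
    rw [← hj']
    exact (hz j hj).1
  · intro x hx
    have hicl : i ∈ P.cl (-1) := (P.mem_cl _ _).2 hi
    have hzi : z i = 1 := by
      have h3 := (hz i hicl).1
      rw [div_self (hV0 i)] at h3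
      exact h3.unique Rs.one
    have h4 : (x + w i) ^ p ^ l = -(x + w i) := by
      rw [add_pow_char_pow, hx, (hw i hicl).2]
      ring
    obtain ⟨j, hj, hj', hj''⟩ := hsurj 1 (x + w i) (one_pow m) h4
    refine ⟨j, (P.mem_cl _ _).1 hj, ?_, ?_⟩
    · have := (hz j hj).1
      rw [hj'] at this
      exact this
    · have h5 := (hw j hj).1.sub (hw i hicl).1
      rw [hj', hj'', hzi] at h5
      exact h5.congr (by ring) (by ring)

end

end Pl

end Pool.Agent.H470
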