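import Pool.Agent.H470.W11

/-!
# Positive exponents: fixed roots at the pole at `-1`
-/

set_option autoImplicit false
set_option linter.all false

open Polynomial

namespace Pool.Agent.H470
namespace Pl

section
variable {F k : Type} [Field F] [Fintype F] [DecidableEq F] [Field k] [IsAlgClosed k] [Algebra F k]
variable {N : Type} [Field N] [Algebra (RatFunc k) N] [Algebra k[X] N]
    [IsScalarTower k[X] (RatFunc k) N]
variable {e d : ℕ} {n : ℕ}

/-- the number of zeros of `x ^ P + x` in the finite field -/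
noncomputable def QQ (F : Type) [Field F] [Fintype F] [DecidableEq F] (P : ℕ) : ℕ :=
  (Finset.univ.filter fun x : F => x ^ P = -x).card

/-- the count at the pole at `-1` -/
theorem inf_fix (p l m : ℕ) [Fact p.Prime] [CharP N p] [CharP k p] (hp : p ≠ 2) (hl : 0 < l)
    (he : Odd e) (hd : Odd d) (hem : e = d + p ^ l * m) (hm : Even m) (hm0 : 0 < m)
    (hmk : (m : k) ≠ 0) (hdk : (d : k) ≠ 0) (hcd : Nat.Coprime d (Fintype.card F - 1))
    (P : Pl F k N (iA F e d) (iB F e d) 0 n) (hG : Good (iA F e d) (iB F e d) n)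
    (ψ : N →+* N) (hψ : P.Fb ψ) :
    QQ F (p ^ l) ∣ P.fx ψ ∧ ((∃ i, ψ (P.y i) = P.y i) → (∀ x : F, x ^ p ^ l = -x → x = 0) →
      P.fx ψ = (Finset.univ.filter fun z : F => z ^ m = 1).card) := by
  classical
  have hp1 := (Fact.out : p.Prime)
  have hP3 : 3 ≤ p ^ l := by
    have h3 : 3 ≤ p := by
      have := hp1.two_le
      omega
    exact h3.trans (Nat.le_self_pow hl.ne' p)
  have hP1 : 1 < p ^ l := by omega
  have hPm : 0 < p ^ l * m := Nat.mul_pos (by omega) hm0
  have hlt : d < e := by omega
  set V : Fin n → N := fun j => 1 + (P.y j : N) ^ d with hVdef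
  have hV0 : ∀ j, V j ≠ 0 := P.V_ne hG hd.pos
  have hpair : ∀ a b, P.r a = -1 → P.r b = -1 → ∃ ζ : k, Rs P.ev (V b / V a) ζ ∧ ζ ^ m = 1 ∧
      (ζ = 1 → a ≠ b → ∃ δ : k, Rs P.ev ((V b)⁻¹ - (V a)⁻¹) δ ∧ δ ^ (p ^ l - 1) = -1) :=
    fun a b ha hb => P.inf_pair p l m hp hl he hd hem hm hm0 hmk hdk hG a b ha hb
  have hsurj : ∀ i, P.r i = -1 → (∀ ζ : k, ζ ^ m = 1 → ∃ j, P.r j = -1 ∧ Rs P.ev (V j / V i) ζ) ∧
      (∀ x : k, x ^ p ^ l = -x → ∃ j, P.r j = -1 ∧ Rs P.ev (V j / V i) 1 ∧
        Rs P.ev ((V j)⁻¹ - (V i)⁻¹) x) :=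
    fun i hi => P.inf_surj p l m hp hl he hd hem hm hm0 hmk hdk hG i hi
  obtain ⟨σ, hσ⟩ := P.exists_σ hG ψ hψ.1
  have hσfix : ∀ j, ψ (P.y j) = P.y j → σ j = j := by
    intro j h
    apply P.inj
    apply Subtype.ext
    rw [← hσ]
    exact h
  have hψV : ∀ j, ψ (V j) = V (σ j) := by
    intro j
    show ψ (1 + (P.y j : N) ^ d) = 1 + (P.y (σ j) : N) ^ d
    rw [map_add, map_one, map_pow, hσ]
  -- fixed roots have residue -1
  have hres : ∀ j, ψ (P.y j) = P.y j → P.r j = -1 := by
    intro j hj
    obtain ⟨x, hx, hx'⟩ := P.fixed_res ψ hψ j hj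
    rw [C_0, zero_mul, sub_zero] at hx
    have h1 : 1 + x ^ d = 0 := by
      have h2 := congrArg (eval x) (gg_mul (K := F) d hd)
      rw [eval_mul, eval_add, eval_add, eval_one, eval_X, eval_pow, eval_X] at h2
      unfold iA at hx
      rw [eval_mul, eval_pow, eval_pow, eval_add, eval_one, eval_X, mul_eq_zero] at hx
      rw [← h2]
      rcases hx with h | h
      · rw [pow_eq_zero_iff (by have := hd.pos; omega)] at h
        rw [h, mul_zero]
      · rw [pow_eq_zero_iff (by omega)] at h
        rw [h, zero_mul]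
    rw [hx', only_neg_one hd hcd x h1, map_neg, map_one]
  have hσr : ∀ j, P.r j = -1 → P.r (σ j) = -1 := by
    intro j hj
    rw [P.res_fr ψ hψ j (σ j) (hσ j), hj, map_neg, map_one]
  have hsep : ∀ a b, P.r a = -1 → P.r b = -1 → Rs P.ev (V b / V a) 1 → Rs P.ev ((V b)⁻¹ - (V a)⁻¹) 0 → a = b := by
    intro a b ha hb h1 h2
    by_contra hne
    obtain ⟨ζ, h3, -, h4⟩ := hpair a b ha hb
    obtain ⟨δ, h5, h6⟩ := h4 (h3.unique h1) hne
    rw [h5.unique h2, zero_pow (by omega)] at h6
    exact absurd h6.symm (neg_ne_zero.2 one_ne_zero)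
  have hδW : ∀ a b, P.r a = -1 → P.r b = -1 → Rs P.ev (V b / V a) 1 →
      ∃ δ : k, Rs P.ev ((V b)⁻¹ - (V a)⁻¹) δ ∧ δ ^ p ^ l = -δ := by
    intro a b ha hb hab
    by_cases h : a = b
    · refine ⟨0, ?_, ?_⟩
      · rw [h, sub_self]
        exact Rs.zero
      · rw [zero_pow (by omega), neg_zero]
    · obtain ⟨ζ, h2, -, h4⟩ := hpair a b ha hb
      obtain ⟨δ, h5, h6⟩ := h4 (h2.unique hab) h
      refine ⟨δ, h5, ?_⟩
      obtain ⟨q, hq⟩ : ∃ q, p ^ l = q + 1 := ⟨p ^ l - 1, by omega⟩
      rw [hq, Nat.add_sub_cancel] at h6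
      rw [hq, pow_succ, h6]
      ring
  -- the class of a fixed root
  have hclass : ∀ j1, ψ (P.y j1) = P.y j1 →
      (Finset.univ.filter fun j => ψ (P.y j) = P.y j ∧ Rs P.ev (V j / V j1) 1).card = QQ F (p ^ l) := by
    intro j1 hj1
    have hr1 := hres j1 hj1
    have hσ1 : σ j1 = j1 := hσfix j1 hj1
    symm
    unfold QQ
    have h1 : ∀ x ∈ Finset.univ.filter (fun x : F => x ^ p ^ l = -x), ∃ j, (ψ (P.y j) = P.y j ∧
        Rs P.ev (V j / V j1) 1) ∧ Rs P.ev ((V j)⁻¹ - (V j1)⁻¹) (algebraMap F k x) := by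
      intro x hx
      rw [Finset.mem_filter] at hx
      obtain ⟨j, hj, h2, h3⟩ := (hsurj j1 hr1).2 (algebraMap F k x) (by rw [← map_pow, hx.2, map_neg])
      refine ⟨j, ⟨?_, h2⟩, h3⟩
      have h4 := h2.map hψ.2
      rw [map_div₀, hψV, hψV, hσ1, map_one] at h4
      have h5 := h3.map hψ.2
      rw [map_sub, map_inv₀, map_inv₀, hψV, hψV, hσ1, fr_algebraMap] at h5
      have h6 := hsep j (σ j) hj (hσr j hj) (by
        refine (h4.div h2 one_ne_zero).congr ?_ (div_one _)
        have := hV0 j1
        have := hV0 j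
        field_simp) (by
        refine (h5.sub h3).congr ?_ (sub_self _)
        ring)
      rw [hσ, ← h6]
    haveI : Nonempty (Fin n) := ⟨j1⟩
    choose! f hf using h1
    refine Finset.card_bij (fun x _ => f x) ?_ ?_ ?_
    · intro x hx
      rw [Finset.mem_filter]
      exact ⟨Finset.mem_univ _, (hf x hx).1⟩
    · intro x hx x' hx' hxx
      have h2 := (hf x hx).2
      have h3 := (hf x' hx').2
      rw [hxx] at h2
      exact (algebraMap F k).injective (h2.unique h3)
    · intro j hj
      rw [Finset.mem_filter] at hj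
      obtain ⟨-, hj2, hj3⟩ := hj
      have hrj := hres j hj2
      obtain ⟨δ, h2, h3⟩ := hδW j1 j hr1 hrj hj3
      have hσj : σ j = j := hσfix j hj2
      have h4 := h2.map hψ.2
      rw [map_sub, map_inv₀, map_inv₀, hψV, hψV, hσj, hσ1] at h4
      obtain ⟨x, hx⟩ := fr_fixed F k δ (h4.unique h2)
      have hxm : x ∈ Finset.univ.filter (fun x : F => x ^ p ^ l = -x) := by
        rw [Finset.mem_filter]
        refine ⟨Finset.mem_univ _, ?_⟩
        apply (algebraMap F k).injective
        rw [map_pow, map_neg, hx, h3]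
      refine ⟨x, hxm, ?_⟩
      have h5 := (hf x hxm).2
      rw [hx] at h5
      have h6 := (hf x hxm).1.2
      have hrf := hres _ (hf x hxm).1.1
      apply hsep _ _ hrf hrj
      · refine (hj3.div h6 one_ne_zero).congr ?_ (div_one _)
        have := hV0 j1
        have := hV0 (f x)
        field_simp
      · refine (h2.sub h5).congr ?_ (sub_self _)
        ring
  -- the fixed roots
  set Fx := Finset.univ.filter fun j => ψ (P.y j) = P.y j with hFx
  have hfx : P.fx ψ = Fx.card := by
    unfold fx
    rw [← Set.ncard_coe_finset]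
    congr 1
    ext j
    simp [hFx]
  by_cases hne : ∃ i, ψ (P.y i) = P.y i
  swap
  · have h0 : Fx = ∅ := by
      rw [hFx, Finset.filter_eq_empty_iff]
      intro j _ hj
      exact hne ⟨j, hj⟩
    rw [hfx, h0, Finset.card_empty]
    exact ⟨dvd_zero _, fun h => absurd h hne⟩
  obtain ⟨i, hi⟩ := hne
  have hri := hres i hi
  have hσi : σ i = i := hσfix i hi
  -- the ratio map
  have h1 : ∀ j ∈ Fx, ∃ z : F, z ^ m = 1 ∧ Rs P.ev (V j / V i) (algebraMap F k z) := by
    intro j hj
    rw [hFx, Finset.mem_filter] at hj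
    obtain ⟨ζ, h2, h3, -⟩ := hpair i j hri (hres j hj.2)
    have hσj : σ j = j := hσfix j hj.2
    have h4 := h2.map hψ.2
    rw [map_div₀, hψV, hψV, hσj, hσi] at h4
    obtain ⟨z, hz⟩ := fr_fixed F k ζ (h4.unique h2)
    refine ⟨z, ?_, by rw [hz]; exact h2⟩
    apply (algebraMap F k).injective
    rw [map_pow, hz, h3, map_one]
  choose! z hz using h1
  set Z := Finset.univ.filter fun z : F => z ^ m = 1 with hZ
  have hmaps : ∀ j ∈ Fx, z j ∈ Z := by
    intro j hj
    rw [hZ, Finset.mem_filter]
    exact ⟨Finset.mem_univ _, (hz j hj).1⟩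
  have hz0 : ∀ j ∈ Fx, algebraMap F k (z j) ≠ 0 := by
    intro j hj
    rw [map_ne_zero_iff _ (algebraMap F k).injective]
    intro h0
    have := (hz j hj).1
    rw [h0, zero_pow hm0.ne'] at this
    exact zero_ne_one this
  have hfib : ∀ j1 ∈ Fx, (Fx.filter fun j => z j = z j1) =
      Finset.univ.filter fun j => ψ (P.y j) = P.y j ∧ Rs P.ev (V j / V j1) 1 := by
    intro j1 hj1
    ext j
    simp only [Finset.mem_filter, Finset.mem_univ, true_and]
    constructor
    · rintro ⟨h2, h3⟩
      have h4 := (hz j h2).2.div (hz j1 hj1).2 (hz0 j1 hj1)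
      rw [h3, div_self (hz0 j1 hj1)] at h4
      have h5 := h2
      rw [hFx, Finset.mem_filter] at h5
      refine ⟨h5.2, h4.congr ?_ rfl⟩
      have := hV0 i
      have := hV0 j1
      field_simp
    · rintro ⟨h2, h3⟩
      have hj : j ∈ Fx := by
        rw [hFx, Finset.mem_filter]
        exact ⟨Finset.mem_univ _, h2⟩
      refine ⟨hj, ?_⟩
      have h4 := (hz j hj).2.div (hz j1 hj1).2 (hz0 j1 hj1)
      have h5 := h4.congr (r' := V j / V j1) (by
        have := hV0 i
        have := hV0 j1
        field_simp) rfl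
      have h6 := h5.unique h3
      rw [div_eq_one_iff_eq (hz0 j1 hj1)] at h6
      exact (algebraMap F k).injective h6
  have hsum : Fx.card = ∑ c ∈ Z, (Fx.filter fun j => z j = c).card :=
    Finset.card_eq_sum_card_fiberwise hmaps
  constructor
  · rw [hfx, hsum]
    apply Finset.dvd_sum
    intro c _
    by_cases hc : ∃ j1 ∈ Fx, z j1 = c
    · obtain ⟨j1, hj1, rfl⟩ := hc
      rw [hfib j1 hj1, hclass j1 (by
        rw [hFx, Finset.mem_filter] at hj1
        exact hj1.2)]
    · have h0 : (Fx.filter fun j => z j = c) = ∅ := by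
        rw [Finset.filter_eq_empty_iff]
        intro j hj hj'
        exact hc ⟨j, hj, hj'⟩
      rw [h0, Finset.card_empty]
      exact dvd_zero _
  · intro _ hA
    have hQ1 : QQ F (p ^ l) = 1 := by
      unfold QQ
      rw [Finset.card_eq_one]
      refine ⟨0, ?_⟩
      ext x
      simp only [Finset.mem_filter, Finset.mem_univ, true_and, Finset.mem_singleton]
      constructor
      · exact hA x
      · rintro rfl
        rw [zero_pow (by omega), neg_zero]
    rw [hfx, hsum]
    have hone : ∀ c ∈ Z, (Fx.filter fun j => z j = c).card = 1 := by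
      intro c hc
      rw [hZ, Finset.mem_filter] at hc
      -- the class is not empty
      obtain ⟨j1, hr1, hj1⟩ := (hsurj i hri).1 (algebraMap F k c) (by rw [← map_pow, hc.2, map_one])
      have hc0 : algebraMap F k c ≠ 0 := by
        rw [map_ne_zero_iff _ (algebraMap F k).injective]
        intro h0
        have := hc.2
        rw [h0, zero_pow hm0.ne'] at this
        exact zero_ne_one this
      have h2 := hj1.map hψ.2
      rw [map_div₀, hψV, hψV, hσi, fr_algebraMap] at h2
      have h3 : Rs P.ev (V (σ j1) / V j1) 1 := by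
        refine (h2.div hj1 hc0).congr ?_ (div_self hc0)
        have := hV0 i
        have := hV0 j1
        field_simp
      obtain ⟨w0, hw0, hw0'⟩ := hδW j1 (σ j1) hr1 (hσr j1 hr1) h3
      -- solve x - x ^ q = w0
      have hodd : Odd (Fintype.card F) := by
        have hev := card_sub_one_even (L := F) (by
          intro h2
          have : (2 : F) = 0 := by
            have := (ringChar.spec F 2).2 (by rw [h2])
            exact_mod_cast this
          have h2k : ((2 : ℕ) : k) = 0 := by
            have h5 := congrArg (algebraMap F k) this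
            rw [map_ofNat, map_zero] at h5
            exact_mod_cast h5
          have h3 := (CharP.cast_eq_zero_iff k p 2).1 h2k
          have h4 := (Nat.prime_dvd_prime_iff_eq hp1 Nat.prime_two).1 h3
          exact hp h4)
        have hc1 : 1 ≤ Fintype.card F := Fintype.card_pos
        obtain ⟨r, hr⟩ := hev
        exact ⟨r, by omega⟩
      have hfrW : ∀ x ∈ WW k (p ^ l), x - fr F k x ∈ WW k (p ^ l) := by
        intro x hx
        rw [mem_WW hP1] at hx ⊢
        rw [sub_pow_char_pow, hx, ← map_pow, hx, map_neg]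
        ring
      have hS : Set.SurjOn (fun x => x - fr F k x) (WW k (p ^ l)) (WW k (p ^ l)) := by
        apply Finset.surjOn_of_injOn_of_card_le _ hfrW
        · intro x hx x' hx' hxx
          rw [Finset.mem_coe, mem_WW hP1] at hx hx'
          simp only at hxx
          have h5 : fr F k (x - x') = x - x' := by
            rw [map_sub]
            linear_combination (-1 : k) * hxx
          obtain ⟨a, ha⟩ := fr_fixed F k _ h5
          have h6 : a ^ p ^ l = -a := by
            apply (algebraMap F k).injective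
            rw [map_pow, map_neg, ha, sub_pow_char_pow, hx, hx']
            ring
          rw [hA a h6, map_zero] at ha
          exact sub_eq_zero.1 ha.symm
        · exact le_rfl
      obtain ⟨x, hx, hx'⟩ := hS ((mem_WW hP1 w0).2 hw0')
      rw [Finset.mem_coe, mem_WW hP1] at hx
      simp only at hx'
      obtain ⟨j, hrj, hj, hjx⟩ := (hsurj j1 hr1).2 x hx
      have h4 := hj.map hψ.2
      rw [map_div₀, hψV, hψV, map_one] at h4
      have h5 := hjx.map hψ.2
      rw [map_sub, map_inv₀, map_inv₀, hψV, hψV] at h5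
      have h6 := hsep j (σ j) hrj (hσr j hrj) (by
        refine ((h4.mul h3).div hj one_ne_zero).congr ?_ (by simp)
        have := hV0 j1
        have := hV0 j
        have := hV0 (σ j1)
        field_simp) (by
        refine ((h5.add hw0).sub hjx).congr ?_ ?_
        · ring
        · rw [← hx']
          ring)
      have hjFx : j ∈ Fx := by
        rw [hFx, Finset.mem_filter]
        exact ⟨Finset.mem_univ _, by rw [hσ, ← h6]⟩
      have hzj : z j = c := by
        apply (algebraMap F k).injective
        have h7 := (hj.mul hj1).congr (r' := V j / V i) (by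
          have := hV0 j1
          field_simp) (one_mul _)
        exact (hz j hjFx).2.unique h7
      rw [← hzj, hfib j hjFx, hclass j (by
        rw [hFx, Finset.mem_filter] at hjFx
        exact hjFx.2), hQ1]
    rw [Finset.sum_congr rfl hone, Finset.sum_const, smul_eq_mul, mul_one]

end

end Pl

end Pool.Agent.H470
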