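import Pool.Agent.H470.W12

/-!
# The two models satisfy the general hypotheses
-/

set_option autoImplicit false
set_option linter.all false

open Polynomial

namespace Pool.Agent.H470

section
variable {K : Type} [Field K]

/-- `x ^ m - (1 - x) ^ m` is not the zero polynomial -/
theorem mid_ne (m : ℕ) (hm : 0 < m) : (X ^ m - (1 - X) ^ m : K[X]) ≠ 0 := by
  intro h
  have h1 := congrArg (fun p => p.eval 0) h
  simp only [eval_sub, eval_pow, eval_X, eval_one, sub_zero, one_pow, eval_zero] at h1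
  rw [zero_pow hm.ne'] at h1
  simp at h1

theorem dP_ne (d : ℕ) (hd : 0 < d) : (dP K d) ≠ 0 := by
  intro h
  have h1 := congrArg (fun p => p.eval 0) h
  simp only [dP_eval, sub_zero, one_pow, eval_zero] at h1
  rw [zero_pow hd.ne'] at h1
  simp at h1

theorem dP_wr (e d : ℕ) (hd : 0 < d) (hlt : d < e) :
    C (d : K) * (dP K e).derivative * dP K d - C (e : K) * (dP K d).derivative * dP K e =
      C ((d * e : ℕ) : K) * (X ^ (d - 1) * (1 - X) ^ (d - 1) * (X ^ (e - d) - (1 - X) ^ (e - d))) := by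
  obtain ⟨b, rfl⟩ : ∃ b, d = b + 1 := ⟨d - 1, by omega⟩
  obtain ⟨g, rfl⟩ : ∃ g, e = b + 1 + (g + 1) := ⟨e - (b + 1) - 1, by omega⟩
  rw [dP_derivative, dP_derivative]
  unfold dP
  rw [show b + 1 - 1 = b by omega, show b + 1 + (g + 1) - 1 = b + 1 + g by omega,
    show b + 1 + (g + 1) - (b + 1) = g + 1 by omega, Nat.cast_mul, C_mul]
  ring

/-- the Wronskian of the `x`-model -/
theorem pAB_wr (e d : ℕ) (hd : 0 < d) (hlt : d < e) :
    (pA K e d).derivative * pB K e d - pA K e d * (pB K e d).derivative =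
      C (((e : K) ^ d)⁻¹ ^ 2 * ((d * e : ℕ) : K)) * dP K e ^ (d - 1) * dP K d ^ (e - 1) *
        (X ^ (d - 1) * (1 - X) ^ (d - 1) * (X ^ (e - d) - (1 - X) ^ (e - d))) := by
  have h := dP_wr (K := K) e d hd hlt
  obtain ⟨b, rfl⟩ : ∃ b, d = b + 1 := ⟨d - 1, by omega⟩
  obtain ⟨g, rfl⟩ : ∃ g, e = g + 1 := ⟨e - 1, by omega⟩
  rw [show b + 1 - 1 = b by omega] at *
  rw [show g + 1 - 1 = g by omega] at *
  set Z := (X ^ b * (1 - X) ^ b * (X ^ (g + 1 - (b + 1)) - (1 - X) ^ (g + 1 - (b + 1))) : K[X])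
  unfold pA pB
  rw [derivative_mul, derivative_mul, derivative_C, derivative_pow, derivative_pow]
  rw [show b + 1 - 1 = b by omega, show g + 1 - 1 = g by omega, C_mul, C_pow]
  simp only [zero_mul, zero_add]
  linear_combination (C (((g + 1 : ℕ) : K) ^ (b + 1))⁻¹ ^ 2 * dP K (g + 1) ^ b * dP K (b + 1) ^ g) * h

theorem good_x [Fintype K] [DecidableEq K] (e d : ℕ) (he : Odd e) (hd : Odd d) (hcop : Nat.Coprime e d) (hlt : d < e)
    (heK : (e : K) ≠ 0) (hdK : (d : K) ≠ 0) : Good (pA K e d) (pB K e d) ((e - 1) * d) := by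
  have hd0 := hd.pos
  have hc0 : ((e : K) ^ d)⁻¹ ≠ 0 := inv_ne_zero (pow_ne_zero _ heK)
  obtain ⟨h1, h2⟩ := pA_props (F := K) e d he (by omega) heK
  refine ⟨h1, h2, pB_lt e d he hd hlt heK, ?_, ?_⟩
  · have h3 : IsCoprime (dP K e) (dP K d) := by
      rw [Polynomial.isCoprime_iff_aeval_ne_zero_of_isAlgClosed K (AlgebraicClosure K)]
      intro a
      by_contra h
      push Not at h
      obtain ⟨h4, h5⟩ := h
      have h6 : ∀ s : ℕ, aeval a (dP K s) = a ^ s + (1 - a) ^ s := by
        intro s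
        simp [dP]
      rw [h6] at h4 h5
      exact dP_common e d he hd hcop a h4 h5
    unfold pA pB
    have hu : IsUnit (C ((e : K) ^ d)⁻¹) := isUnit_C.2 (isUnit_iff_ne_zero.2 hc0)
    rw [isCoprime_mul_unit_left_left hu, isCoprime_mul_unit_left_right hu]
    exact h3.pow
  · rw [pAB_wr e d hd0 hlt]
    refine mul_ne_zero (mul_ne_zero (mul_ne_zero ?_ ?_) ?_) (mul_ne_zero (mul_ne_zero ?_ ?_) ?_)
    · rw [Ne, C_eq_zero]
      refine mul_ne_zero (pow_ne_zero _ hc0) ?_
      push_cast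
      exact mul_ne_zero hdK heK
    · exact pow_ne_zero _ (dP_ne e he.pos)
    · exact pow_ne_zero _ (dP_ne d hd0)
    · exact pow_ne_zero _ X_ne_zero
    · apply pow_ne_zero
      intro h
      have h1 := congrArg (fun p => p.eval 0) h
      simp at h1
    · exact mid_ne _ (by omega)

theorem good_z (e d : ℕ) (he : Odd e) (hd : Odd d) (hcop : Nat.Coprime e d) (hlt : d < e)
    (heK : (e : K) ≠ 0) (hdK : (d : K) ≠ 0) : Good (iA K e d) (iB K e d) ((e - 1) * d) := by
  have hd0 := hd.pos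
  obtain ⟨h1, h2⟩ := iA_monic (K := K) e d hd hlt
  refine ⟨h1, h2, iB_lt e d he hd hlt, ?_, ?_⟩
  · rw [Polynomial.isCoprime_iff_aeval_ne_zero_of_isAlgClosed K (AlgebraicClosure K)]
    intro a
    by_contra h
    push Not at h
    obtain ⟨h4, h5⟩ := h
    rw [aeval_def, ← eval_map, iA_map] at h4
    rw [aeval_def, ← eval_map, iB_map] at h5
    refine iB_ne e d he hd hcop hlt ?_ ?_ a h4 h5
    · have := (map_ne_zero_iff (algebraMap K (AlgebraicClosure K)) (algebraMap K _).injective).2 heK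
      rwa [map_natCast] at this
    · have := (map_ne_zero_iff (algebraMap K (AlgebraicClosure K)) (algebraMap K _).injective).2 hdK
      rwa [map_natCast] at this
  · intro h0
    have hG : iB K e d = gg K e ^ d - iA K e d := rfl
    have h3 : derivative (iA K e d) * gg K e ^ d - iA K e d * derivative (gg K e ^ d) = 0 := by
      rw [hG, derivative_sub] at h0
      linear_combination h0
    have hV : (1 + X) ^ d * iA K e d = (1 + X ^ d) ^ e := by
      unfold iA
      rw [← gg_mul d hd, mul_pow, mul_left_comm, ← pow_add, Nat.add_sub_cancel' hlt.le, mul_comm]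
    have hE : (1 + X) ^ d * gg K e ^ d = (1 + X ^ e) ^ d := by
      rw [← mul_pow, gg_mul e he]
    have hV' := congrArg derivative hV
    have hE' := congrArg derivative hE
    rw [derivative_mul, derivative_pow (1 + X ^ d) e] at hV'
    rw [derivative_mul, derivative_pow (1 + X ^ e) d] at hE'
    simp only [derivative_add, derivative_one, zero_add, derivative_X_pow] at hV' hE'
    obtain ⟨b, hb⟩ : ∃ b, d = b + 1 := ⟨d - 1, by omega⟩
    obtain ⟨g, hg⟩ : ∃ g, e = b + 1 + (g + 1) := ⟨e - (b + 1) - 1, by omega⟩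
    have hkey : C ((d * e : ℕ) : K) * (1 + X ^ d) ^ (e - 1) * (1 + X ^ e) ^ (d - 1) *
        (X ^ (d - 1) * (1 - X ^ (e - d))) = 0 := by
      have h4 : (derivative ((1 + X) ^ d) * iA K e d + (1 + X) ^ d * derivative (iA K e d)) *
          ((1 + X) ^ d * gg K e ^ d) - ((1 + X) ^ d * iA K e d) *
          (derivative ((1 + X) ^ d) * gg K e ^ d + (1 + X) ^ d * derivative (gg K e ^ d)) = 0 := by
        linear_combination ((1 + X) ^ d * (1 + X) ^ d : K[X]) * h3
      rw [hV', hE', hV, hE] at h4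
      subst hb
      subst hg
      rw [show b + 1 - 1 = b by omega, show b + 1 + (g + 1) - 1 = b + 1 + g by omega] at h4 ⊢
      rw [show b + 1 + (g + 1) - (b + 1) = g + 1 by omega, Nat.cast_mul, C_mul]
      linear_combination h4
    have hX : ∀ s : ℕ, 0 < s → (1 + X ^ s : K[X]) ≠ 0 := fun s hs => (one_add_X_pow_monic s hs).1.ne_zero
    refine mul_ne_zero (mul_ne_zero (mul_ne_zero ?_ ?_) ?_) (mul_ne_zero ?_ ?_) hkey
    · rw [Ne, C_eq_zero]
      push_cast
      exact mul_ne_zero hdK heK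
    · exact pow_ne_zero _ (hX d hd0)
    · exact pow_ne_zero _ (hX e he.pos)
    · exact pow_ne_zero _ X_ne_zero
    · intro h
      have h1 := congrArg (fun p => p.eval 0) h
      simp only [eval_sub, eval_pow, eval_X, eval_one, eval_zero] at h1
      rw [zero_pow (by omega)] at h1
      simp at h1

end
end Pool.Agent.H470
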