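import Pool.Agent.H470.W13

/-!
# Local structure of the `x`-model at a critical point
-/

set_option autoImplicit false
set_option linter.all false

open Polynomial

namespace Pool.Agent.H470

section
variable {K : Type} [Field K]

theorem lin_exp (Q : K[X]) (c : K) : ∃ a : K[X], Q = C (Q.eval c) + (X - C c) * a ∧
    a.eval c = (derivative Q).eval c := by
  obtain ⟨a, ha⟩ := X_sub_C_dvd_sub_C_eval (a := c) (p := Q)
  refine ⟨a, by rw [← ha]; ring, ?_⟩
  have h1 := congrArg derivative ha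
  rw [derivative_sub, derivative_C, derivative_mul, derivative_sub, derivative_X, derivative_C] at h1
  have h2 := congrArg (fun p => p.eval c) h1
  simp only [eval_add, eval_mul, eval_sub, eval_X, eval_C, sub_self, zero_mul, sub_zero, eval_one, one_mul,
    eval_zero, add_zero] at h2
  exact h2.symm

theorem cp_poly (p : ℕ) [CharP K p] : CharP K[X] p := inferInstance

end

section
variable {F : Type} [Field F] [Fintype F] [DecidableEq F]

theorem pow_inj_F (d : ℕ) (hd0 : 0 < d) (hcd : Nat.Coprime d (Fintype.card F - 1)) {x y : F}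
    (h : x ^ d = y ^ d) : x = y := by
  by_cases hx : x = 0
  · subst hx
    rw [zero_pow hd0.ne'] at h
    exact ((pow_eq_zero_iff hd0.ne').1 h.symm).symm
  · by_cases hy : y = 0
    · subst hy
      rw [zero_pow hd0.ne'] at h
      exact (pow_eq_zero_iff hd0.ne').1 h
    · have h1 : (x / y) ^ d = 1 := by rw [div_pow, h, div_self (pow_ne_zero _ hy)]
      have h2 : (x / y) ^ (Fintype.card F - 1) = 1 := FiniteField.pow_card_sub_one_eq_one _ (div_ne_zero hx hy)
      have h3 : orderOf (x / y) ∣ 1 := by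
        have := Nat.dvd_gcd (orderOf_dvd_of_pow_eq_one h1) (orderOf_dvd_of_pow_eq_one h2)
        rwa [hcd] at this
      have h4 : x / y = 1 := by
        rw [← orderOf_eq_one_iff]
        exact Nat.dvd_one.1 h3
      exact (div_eq_one_iff_eq hy).1 h4

theorem loc_x (p l m e d : ℕ) [Fact p.Prime] [CharP F p] (hp : p ≠ 2) (he : Odd e) (hd : Odd d)
    (hl : 0 < l) (hem : e = d + p ^ l * m) (hm0 : 0 < m) (heF : (e : F) ≠ 0) (hdF : (d : F) ≠ 0)
    (hmF : (m : F) ≠ 0) (hce : Nat.Coprime e (Fintype.card F - 1)) (hcd : Nat.Coprime d (Fintype.card F - 1))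
    (c : F) (hc0 : c ≠ 0) (hc1 : 1 - c ≠ 0) (hcm : c ^ m = (1 - c) ^ m) :
    ∃ G : F[X], pA F e d - C (fpr e d c) * pB F e d = (X - C c) ^ p ^ l * G ∧
      (derivative G * pB F e d - G * derivative (pB F e d)).eval c ≠ 0 ∧
      (G.eval c = 0 ↔ c ^ p ^ l = c) := by
  haveI : CharP F[X] p := inferInstance
  have hd0 := hd.pos
  have hPodd : Odd (p ^ l) := ((Fact.out : p.Prime).odd_of_ne_two hp).pow
  obtain ⟨P, hP⟩ : ∃ P, P = p ^ l := ⟨_, rfl⟩
  rw [← hP] at hPodd hem ⊢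
  have hP0 : 0 < P := hP ▸ pow_pos (Fact.out : p.Prime).pos _
  obtain ⟨κ, hκ⟩ : ∃ κ : F, κ = ((e : F) ^ d)⁻¹ := ⟨_, rfl⟩
  have hκ0 : κ ≠ 0 := hκ ▸ inv_ne_zero (pow_ne_zero _ heF)
  obtain ⟨μ, hμ⟩ : ∃ μ, μ = c ^ m := ⟨_, rfl⟩
  have hμ' : μ = (1 - c) ^ m := hμ.trans hcm
  have hμ0 : μ ≠ 0 := hμ ▸ pow_ne_zero _ hc0
  obtain ⟨φ, hφ⟩ : ∃ φ, φ = c ^ d + (1 - c) ^ d := ⟨_, rfl⟩
  have hφ0 : φ ≠ 0 := hφ ▸ dP_eval_ne d hd hcd c
  obtain ⟨v, hv⟩ : ∃ v, v = fpr e d c := ⟨_, rfl⟩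
  rw [← hv]
  have hv1 : v * φ ^ (P * m) = μ ^ (P * d) := by
    rw [hv]
    unfold fpr
    have h1 : c ^ e + (1 - c) ^ e = μ ^ P * φ := by
      rw [hem, pow_add, pow_add, mul_comm P m, pow_mul, pow_mul, ← hμ, ← hμ', hφ]
      ring
    rw [h1, ← hφ, hem, inv_pow, pow_add φ, mul_pow, ← pow_mul]
    field_simp
  obtain ⟨a1, h1, h1c⟩ := lin_exp (X ^ m : F[X]) c
  obtain ⟨a2, h2, h2c⟩ := lin_exp ((1 - X) ^ m : F[X]) c
  obtain ⟨a3, h3, h3c⟩ := lin_exp (dP F d ^ m) c
  rw [eval_pow, eval_X, ← hμ] at h1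
  rw [eval_pow, eval_sub, eval_one, eval_X, ← hμ'] at h2
  rw [eval_pow, dP_eval, ← hφ] at h3
  -- `P`-th powers
  have hpw : ∀ (x : F) (a : F[X]), (C x + (X - C c) * a) ^ P = C (x ^ P) + (X - C c) ^ P * a ^ P := by
    intro x a
    rw [hP, add_pow_char_pow, mul_pow, C_pow]
  have h1P : (X : F[X]) ^ (P * m) = C (μ ^ P) + (X - C c) ^ P * a1 ^ P := by
    rw [mul_comm, pow_mul, h1, hpw]
  have h2P : (1 - X : F[X]) ^ (P * m) = C (μ ^ P) + (X - C c) ^ P * a2 ^ P := by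
    rw [mul_comm, pow_mul, h2, hpw]
  have h3P : dP F d ^ (P * m) = C (φ ^ (P * m)) + (X - C c) ^ P * a3 ^ P := by
    rw [mul_comm, pow_mul, h3, hpw, ← pow_mul, mul_comm m P]
  obtain ⟨S, hS⟩ : ∃ S : F[X], S = X ^ d * a1 ^ P + (1 - X) ^ d * a2 ^ P := ⟨_, rfl⟩
  have hE : dP F e = C (μ ^ P) * dP F d + (X - C c) ^ P * S := by
    have : dP F e = X ^ d * X ^ (P * m) + (1 - X) ^ d * (1 - X) ^ (P * m) := by
      unfold dP
      rw [hem, pow_add, pow_add]
    rw [this, h1P, h2P, hS]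
    unfold dP
    ring
  obtain ⟨k1, hk1⟩ := Polynomial.powAddExpansion (C (μ ^ P) * dP F d) ((X - C c) ^ P * S) d
  have hDe : dP F d ^ e = dP F d ^ d * (C (φ ^ (P * m)) + (X - C c) ^ P * a3 ^ P) := by
    rw [← h3P, ← pow_add, ← hem]
  obtain ⟨G, hG⟩ : ∃ G : F[X], G = C κ * ((d : F[X]) * (C (μ ^ P) * dP F d) ^ (d - 1) * S +
    k1 * (X - C c) ^ P * S ^ 2 - C v * dP F d ^ d * a3 ^ P) := ⟨_, rfl⟩
  have hfac : pA F e d - C v * pB F e d = (X - C c) ^ P * G := by
    unfold pA pB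
    rw [← hκ, hE, hk1, hDe, hG, mul_pow]
    have h4 : C v * C (φ ^ (P * m)) = (C (μ ^ P)) ^ d := by
      rw [← C_mul, hv1, pow_mul, C_pow]
    linear_combination (-C κ * dP F d ^ d) * h4
  refine ⟨G, hfac, ?_, ?_⟩
  · -- the derivative
    have hder : derivative ((X - C c) ^ P) = 0 := by
      rw [derivative_pow, hP, Nat.cast_pow, CharP.cast_eq_zero, zero_pow hl.ne']
      simp
    have hw := pAB_wr (K := F) e d hd0 (by
      have : 0 < P * m := Nat.mul_pos hP0 hm0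
      omega)
    have hX : (X : F[X]) ^ (e - d) - (1 - X) ^ (e - d) = (X - C c) ^ P * (a1 - a2) ^ P := by
      have hsp : (a1 - a2) ^ P = a1 ^ P - a2 ^ P := by rw [hP, sub_pow_char_pow]
      rw [hem, Nat.add_sub_cancel_left, h1P, h2P, hsp]
      ring
    rw [hX, ← hκ] at hw
    clear hG
    have hw2 : (X - C c) ^ P * (derivative G * pB F e d - G * derivative (pB F e d)) =
        (X - C c) ^ P * (C (κ ^ 2 * ((d * e : ℕ) : F)) * dP F e ^ (d - 1) * dP F d ^ (e - 1) *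
        (X ^ (d - 1) * (1 - X) ^ (d - 1) * (a1 - a2) ^ P)) := by
      have h5 : pA F e d = (X - C c) ^ P * G + C v * pB F e d := by rw [← hfac]; ring
      rw [h5, derivative_add, derivative_mul, derivative_mul, hder, derivative_C] at hw
      linear_combination hw
    have hw3 := mul_left_cancel₀ (pow_ne_zero _ (X_sub_C_ne_zero c)) hw2
    rw [hw3]
    simp only [eval_mul, eval_C, eval_pow, dP_eval, eval_X, eval_sub, eval_one]
    refine mul_ne_zero (mul_ne_zero (mul_ne_zero ?_ ?_) ?_) (mul_ne_zero (mul_ne_zero ?_ ?_) ?_)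
    · refine mul_ne_zero (pow_ne_zero _ hκ0) ?_
      push_cast
      exact mul_ne_zero hdF heF
    · exact pow_ne_zero _ (dP_eval_ne e he hce c)
    · exact pow_ne_zero _ (hφ ▸ hφ0)
    · exact pow_ne_zero _ hc0
    · exact pow_ne_zero _ hc1
    · apply pow_ne_zero
      rw [h1c, h2c]
      simp only [derivative_X_pow, derivative_pow, derivative_sub, derivative_one, derivative_X, zero_sub,
        eval_mul, eval_C, eval_pow, eval_X, eval_sub, eval_one, eval_neg]
      intro h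
      obtain ⟨t, ht⟩ : ∃ t, m = t + 1 := ⟨m - 1, by omega⟩
      have h6 : (m : F) * μ = 0 := by
        rw [ht, show t + 1 - 1 = t by omega] at h
        have hcm' := hcm
        rw [ht, pow_succ, pow_succ] at hcm'
        rw [hμ, ht, pow_succ]
        linear_combination (c * (1 - c)) * h + ((t + 1 : ℕ) : F) * c * hcm'
      exact mul_ne_zero hmF hμ0 h6
  · -- vanishing of `G` at `c`
    have hSc : S.eval c = c ^ d * a1.eval c ^ P + (1 - c) ^ d * a2.eval c ^ P := by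
      rw [hS]
      simp
    have hGc : G.eval c = κ * ((d : F) * (μ ^ P * φ) ^ (d - 1) * S.eval c - v * φ ^ d * a3.eval c ^ P) := by
      rw [hG]
      simp only [eval_mul, eval_C, eval_sub, eval_add, eval_natCast, eval_pow, dP_eval, eval_X, sub_self,
        zero_pow hP0.ne', mul_zero, zero_mul, add_zero, ← hφ]
    have h1P' : c ^ P * a1.eval c ^ P = m * μ ^ P := by
      rw [← mul_pow, h1c]
      have : c * (derivative (X ^ m : F[X])).eval c = m * μ := by
        obtain ⟨t, ht⟩ : ∃ t, m = t + 1 := ⟨m - 1, by omega⟩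
        rw [hμ, ht]
        simp only [derivative_X_pow, eval_mul, eval_C, eval_pow, eval_X, Nat.add_sub_cancel]
        ring
      rw [this, mul_pow, hP, nat_pow_char p l]
    have h2P' : (1 - c) ^ P * a2.eval c ^ P = -(m * μ ^ P) := by
      rw [← mul_pow, h2c]
      have : (1 - c) * (derivative ((1 - X) ^ m : F[X])).eval c = -(m * μ) := by
        obtain ⟨t, ht⟩ : ∃ t, m = t + 1 := ⟨m - 1, by omega⟩
        rw [hμ', ht]
        simp only [derivative_pow, derivative_sub, derivative_one, derivative_X, zero_sub,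
          eval_mul, eval_C, eval_pow, eval_X, eval_sub, eval_one, eval_neg, Nat.add_sub_cancel]
        ring
      rw [this, hPodd.neg_pow, mul_pow, hP, nat_pow_char p l]
    have h3P' : φ ^ P * c ^ P * (1 - c) ^ P * a3.eval c ^ P =
        m * d * φ ^ (P * m) * ((c ^ d) ^ P * (1 - c) ^ P - ((1 - c) ^ d) ^ P * c ^ P) := by
      rw [← mul_pow, ← mul_pow, ← mul_pow, h3c]
      have : φ * c * (1 - c) * (derivative (dP F d ^ m)).eval c =
          m * d * φ ^ m * (c ^ d * (1 - c) - (1 - c) ^ d * c) := by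
        obtain ⟨t, ht⟩ : ∃ t, m = t + 1 := ⟨m - 1, by omega⟩
        obtain ⟨b, hb⟩ : ∃ b, d = b + 1 := ⟨d - 1, by omega⟩
        rw [derivative_pow, dP_derivative]
        simp only [eval_mul, eval_C, eval_pow, eval_X, eval_sub, eval_one, dP_eval]
        rw [← hφ, ht, hb, Nat.add_sub_cancel, Nat.add_sub_cancel]
        ring
      rw [this, mul_pow, mul_pow, mul_pow, hP, sub_pow_char_pow, mul_pow, mul_pow, nat_pow_char p l,
        nat_pow_char p l, ← pow_mul, mul_comm m]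
    have hφP : φ ^ P = (c ^ d) ^ P + ((1 - c) ^ d) ^ P := by rw [hφ, hP, add_pow_char_pow]
    have h1cP : (1 - c) ^ P = 1 - c ^ P := by rw [hP, sub_pow_char_pow, one_pow]
    have hmain : G.eval c * (c ^ P * (1 - c) ^ P * φ ^ P) =
        κ * (m * d * μ ^ (P * d) * φ ^ (d - 1)) * (c ^ d * ((1 - c) ^ d) ^ P - (1 - c) ^ d * (c ^ d) ^ P) := by
      rw [hGc, hSc]
      obtain ⟨b, hb⟩ : ∃ b, d = b + 1 := ⟨d - 1, by omega⟩
      have hd1 : d - 1 = b := by omega
      have hφd : φ ^ d = φ ^ b * φ := by rw [hb, pow_succ]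
      have hμd : μ ^ (P * d) = (μ ^ P) ^ b * μ ^ P := by rw [hb, mul_add, pow_add, pow_mul, mul_one]
      rw [hd1, hφd]
      have e1 : κ * ((d : F) * (μ ^ P * φ) ^ b * (c ^ d * a1.eval c ^ P + (1 - c) ^ d * a2.eval c ^ P) -
          v * (φ ^ b * φ) * a3.eval c ^ P) * (c ^ P * (1 - c) ^ P * φ ^ P) =
          κ * ((d : F) * (μ ^ P * φ) ^ b * φ ^ P * (c ^ d * (1 - c) ^ P * (c ^ P * a1.eval c ^ P) +
            (1 - c) ^ d * c ^ P * ((1 - c) ^ P * a2.eval c ^ P)) -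
            v * (φ ^ b * φ) * (φ ^ P * c ^ P * (1 - c) ^ P * a3.eval c ^ P)) := by ring
      rw [e1, h1P', h2P', h3P', mul_pow]
      have e2 : κ * ((d : F) * ((μ ^ P) ^ b * φ ^ b) * φ ^ P * (c ^ d * (1 - c) ^ P * (m * μ ^ P) +
            (1 - c) ^ d * c ^ P * -(m * μ ^ P)) -
            v * (φ ^ b * φ) * (m * d * φ ^ (P * m) * ((c ^ d) ^ P * (1 - c) ^ P - ((1 - c) ^ d) ^ P * c ^ P))) =
          κ * m * d * φ ^ b * ((μ ^ P) ^ b * μ ^ P * φ ^ P * (c ^ d * (1 - c) ^ P - (1 - c) ^ d * c ^ P) -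
            (v * φ ^ (P * m)) * φ * ((c ^ d) ^ P * (1 - c) ^ P - ((1 - c) ^ d) ^ P * c ^ P)) := by ring
      rw [e2, hv1, hμd, hφP, h1cP, hφ]
      ring
    have hne1 : (c ^ P * (1 - c) ^ P * φ ^ P) ≠ 0 :=
      mul_ne_zero (mul_ne_zero (pow_ne_zero _ hc0) (pow_ne_zero _ hc1)) (pow_ne_zero _ hφ0)
    have hne2 : κ * (m * d * μ ^ (P * d) * φ ^ (d - 1)) ≠ 0 :=
      mul_ne_zero hκ0 (mul_ne_zero (mul_ne_zero (mul_ne_zero hmF hdF) (pow_ne_zero _ hμ0)) (pow_ne_zero _ hφ0))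
    constructor
    · intro h
      rw [h, zero_mul] at hmain
      have h6 := (mul_eq_zero.1 hmain.symm).resolve_left hne2
      have h7 : (c * (1 - c) ^ P) ^ d = ((1 - c) * c ^ P) ^ d := by
        rw [mul_pow, mul_pow, ← pow_mul, ← pow_mul, mul_comm P d, pow_mul, pow_mul]
        linear_combination h6
      have h8 := pow_inj_F d hd0 hcd h7
      rw [h1cP] at h8
      linear_combination -h8
    · intro h
      have h6 : c ^ d * ((1 - c) ^ d) ^ P - (1 - c) ^ d * (c ^ d) ^ P = 0 := by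
        rw [← pow_mul, ← pow_mul, mul_comm d P, pow_mul, pow_mul, h1cP, h]
        ring
      rw [h6, mul_zero] at hmain
      exact (mul_eq_zero.1 hmain).resolve_right hne1

end
end Pool.Agent.H470
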