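import Pool.Agent.H470.W14

/-!
# The wild positive case: context, and the rational points over the centre
-/

set_option autoImplicit false
set_option linter.all false

open Polynomial

namespace Pool.Agent.H470

/-- a rational tame point with ramification index prime to `q - 1` forces the generic count -/
theorem tame_point {F : Type} [Field F] [Fintype F] [DecidableEq F] (A B : F[X]) (v : F) (n : ℕ)
    (hG : Good A B n) (hn : 0 < n) (hq : 10000 * n ^ 24 < Fintype.card F) (Bad : Finset F)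
    (hBad : Bad.card ≤ 3 * n) (a : ℕ) (ha : ∀ t ∉ Bad, nrt A B t = 0 ∨ nrt A B t = a)
    (c : F) (μ : ℕ) (hμ0 : 0 < μ) (hμ : (μ : F) ≠ 0) (Q : F[X])
    (hQ : A - C v * B = (X - C c) ^ μ * Q) (hQc : Q.eval c ≠ 0)
    (hcop : Nat.Coprime μ (Fintype.card F - 1)) : nrt A B v = a := by
  classical
  set k := AlgebraicClosure F
  obtain ⟨N, _, _, _, _, _, _, ⟨P⟩⟩ := exists_Pl (k := k) A B v n hG
  apply P.avg hG a
  intro ψ hψ
  rcases P.fix_dich hG hn hq Bad hBad a ha ψ hψ with h | h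
  · exfalso
    obtain ⟨j, -, hj⟩ := P.tame_fix hG c μ hμ0 hμ Q hQ hQc hcop ψ hψ
    unfold Pl.fx at h
    rw [Set.ncard_eq_zero (Set.toFinite _)] at h
    exact (Set.eq_empty_iff_forall_notMem.1 h) j hj
  · exact h

theorem fac_mult {K : Type} [Field K] (R : K[X]) (hR : R ≠ 0) (c : K) :
    ∃ Q : K[X], R = (X - C c) ^ R.rootMultiplicity c * Q ∧ Q.eval c ≠ 0 := by
  obtain ⟨Q, hQ, hnd⟩ := exists_eq_pow_rootMultiplicity_mul_and_not_dvd R hR c
  refine ⟨Q, hQ, ?_⟩
  intro h
  exact hnd (dvd_iff_isRoot.2 h)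

structure Wctx (F : Type) [Field F] [Fintype F] [DecidableEq F] (p l m e d a : ℕ) (v0 : F) : Prop where
  hp : p ≠ 2
  he : Odd e
  hd : Odd d
  hcop : Nat.Coprime e d
  hl : 0 < l
  hem : e = d + p ^ l * m
  hm : Even m
  hm0 : 0 < m
  heF : (e : F) ≠ 0
  hdF : (d : F) ≠ 0
  hmF : (m : F) ≠ 0
  hce : Nat.Coprime e (Fintype.card F - 1)
  hcd : Nat.Coprime d (Fintype.card F - 1)
  hq : 10000 * ((e - 1) * d) ^ 24 < Fintype.card F
  hv0 : v0 = fpr e d 2⁻¹
  ha : ∀ v : F, v ≠ v0 → fc (fpr e d) v = 0 ∨ fc (fpr e d) v = a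
  hb : Odd (fc (fpr e d) v0)
  ha0 : 0 < a
  haev : Even a

namespace Wctx
variable {F : Type} [Field F] [Fintype F] [DecidableEq F] {p l m e d a : ℕ} [Fact p.Prime] [CharP F p] {v0 : F}

theorem lt (h : Wctx F p l m e d a v0) : d < e := by
  have h1 : 0 < p ^ l * m := Nat.mul_pos (pow_pos (Fact.out : p.Prime).pos _) h.hm0
  have := h.hem
  omega

theorem pos (h : Wctx F p l m e d a v0) : 0 < (e - 1) * d := by
  have h1 := h.hd.pos
  have h2 := h.lt
  exact Nat.mul_pos (by omega) h1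

theorem gx (h : Wctx F p l m e d a v0) : Good (pA F e d) (pB F e d) ((e - 1) * d) :=
  good_x e d h.he h.hd h.hcop h.lt h.heF h.hdF

theorem gz (h : Wctx F p l m e d a v0) : Good (iA F e d) (iB F e d) ((e - 1) * d) :=
  good_z e d h.he h.hd h.hcop h.lt h.heF h.hdF

theorem two (h : Wctx F p l m e d a v0) : (2 : F) ≠ 0 := by
  apply Ring.two_ne_zero
  rw [ringChar.eq F p]
  exact h.hp

theorem fpr_ne (h : Wctx F p l m e d a v0) (x : F) : fpr e d x ≠ 0 := by
  unfold fpr
  exact mul_ne_zero (pow_ne_zero _ (dP_eval_ne e h.he h.hce x))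
    (pow_ne_zero _ (inv_ne_zero (dP_eval_ne d h.hd h.hcd x)))

theorem v0_ne (h : Wctx F p l m e d a v0) : v0 ≠ 0 := by
  rw [h.hv0]
  exact h.fpr_ne _

theorem bad_x (h : Wctx F p l m e d a v0) : ∀ t ∉ ({v0} : Finset F),
    nrt (pA F e d) (pB F e d) t = 0 ∨ nrt (pA F e d) (pB F e d) t = a := by
  intro t ht
  rw [nrt_pP e d h.hd h.hcd h.heF]
  exact h.ha t (by simpa using ht)

theorem bad_z (h : Wctx F p l m e d a v0) : ∀ t ∉ ({0, (v0 - 1)⁻¹} : Finset F),
    nrt (iA F e d) (iB F e d) t = 0 ∨ nrt (iA F e d) (iB F e d) t = a := by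
  intro t ht
  rw [Finset.mem_insert, Finset.mem_singleton, not_or] at ht
  obtain ⟨ht0, ht1⟩ := ht
  rw [iA_count e d h.he h.hd h.lt h.heF h.hcd t ht0]
  apply h.ha
  intro h'
  apply ht1
  rw [← h']
  simp

theorem no_tame (h : Wctx F p l m e d a v0) (y : F) (μ : ℕ) (hμ0 : 0 < μ) (hμ : (μ : F) ≠ 0)
    (hcop : Nat.Coprime μ (Fintype.card F - 1)) (hy : (pP e d v0).rootMultiplicity y = μ) : False := by
  have hne : pA F e d - C v0 * pB F e d ≠ 0 := by
    rw [pAB]
    exact mul_ne_zero (by rw [Ne, C_eq_zero]; exact inv_ne_zero (pow_ne_zero _ h.heF))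
      (pP_ne_zero e d h.he h.hd h.lt h.heF v0)
  obtain ⟨Q, hQ, hQc⟩ := fac_mult _ hne y
  have hmu : (pA F e d - C v0 * pB F e d).rootMultiplicity y = μ := by
    rw [pAB, rootMult_C_mul _ (inv_ne_zero (pow_ne_zero _ h.heF)) _
      (pP_ne_zero e d h.he h.hd h.lt h.heF v0), hy]
  rw [hmu] at hQ
  have h1 := tame_point _ _ v0 _ h.gx h.pos h.hq {v0} (by
    rw [Finset.card_singleton]
    have := h.pos
    omega) a h.bad_x y μ hμ0 hμ Q hQ hQc hcop
  rw [nrt_pP e d h.hd h.hcd h.heF] at h1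
  have h2 := h.hb
  rw [h1] at h2
  exact (Nat.not_odd_iff_even.2 h.haev) h2

/-- **the rational points over the centre are critical** -/
theorem pts (h : Wctx F p l m e d a v0) (y : F) (hy : fpr e d y = v0) :
    y ≠ 0 ∧ 1 - y ≠ 0 ∧ y ^ m = (1 - y) ^ m := by
  have hd0 := h.hd.pos
  have hroot := (fpr_iff e d h.hd h.hcd y v0).1 hy
  have h01 : ¬ (y = 0 ∨ y = 1) := by
    intro hy'
    exact h.no_tame y d hd0 h.hdF h.hcd (pP_mult_zero e d h.hd h.lt h.heF v0 y hroot hy')
  rw [not_or] at h01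
  obtain ⟨hy0, hy1⟩ := h01
  have hy1' : 1 - y ≠ 0 := fun h' => hy1 (by linear_combination -h')
  refine ⟨hy0, hy1', ?_⟩
  by_contra hm
  have hder := pP_der e d hd0 h.lt v0 y hroot
  have hPm : y ^ (e - d) - (1 - y) ^ (e - d) ≠ 0 := by
    have h1 : e - d = m * p ^ l := by
      rw [h.hem, Nat.add_sub_cancel_left, mul_comm]
    rw [h1, pow_mul, pow_mul, ← sub_pow_char_pow]
    exact pow_ne_zero _ (sub_ne_zero.2 hm)
  have hder' : (pP e d v0).derivative.eval y ≠ 0 := by
    intro h0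
    rw [h0, mul_zero] at hder
    refine mul_ne_zero (mul_ne_zero (mul_ne_zero ?_ h.v0_ne) (pow_ne_zero _ (dP_eval_ne d h.hd h.hcd y)))
      (mul_ne_zero (mul_ne_zero (pow_ne_zero _ hy0) (pow_ne_zero _ hy1')) hPm) hder.symm
    push_cast
    exact mul_ne_zero h.hdF h.heF
  have hone : (pP e d v0).rootMultiplicity y = 1 := by
    have hne := pP_ne_zero e d h.he h.hd h.lt h.heF v0
    have h1 : 0 < (pP e d v0).rootMultiplicity y := (rootMultiplicity_pos hne).2 hroot
    have h2 : ¬ 1 < (pP e d v0).rootMultiplicity y := by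
      intro h2
      rw [one_lt_rootMultiplicity_iff_isRoot hne] at h2
      exact hder' h2.2
    omega
  exact h.no_tame y 1 one_pos (by simp) (Nat.coprime_one_left _) hone

theorem cm_card (h : Wctx F p l m e d a v0) :
    (Finset.univ.filter fun y : F => y ≠ 0 ∧ 1 - y ≠ 0 ∧ y ^ m = (1 - y) ^ m).card + 1 ≤
      (Finset.univ.filter fun z : F => z ^ m = 1).card := by
  have h2 := h.two
  have h1 : (-1 : F) ∈ (Finset.univ.filter fun z : F => z ^ m = 1) := by
    rw [Finset.mem_filter]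
    exact ⟨Finset.mem_univ _, h.hm.neg_one_pow⟩
  have h3 : (Finset.univ.filter fun y : F => y ≠ 0 ∧ 1 - y ≠ 0 ∧ y ^ m = (1 - y) ^ m).card ≤
      ((Finset.univ.filter fun z : F => z ^ m = 1).erase (-1)).card := by
    refine Finset.card_le_card_of_injOn (fun y => y / (1 - y)) ?_ ?_
    · intro y hy
      rw [Finset.mem_coe, Finset.mem_filter] at hy
      obtain ⟨-, hy0, hy1, hym⟩ := hy
      rw [Finset.mem_coe, Finset.mem_erase, Finset.mem_filter]
      refine ⟨?_, Finset.mem_univ _, ?_⟩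
      · intro h4
        simp only at h4
        rw [div_eq_iff hy1] at h4
        have : (1 : F) = 0 := by linear_combination h4
        exact one_ne_zero this
      · simp only
        rw [div_pow, hym, div_self (pow_ne_zero _ hy1)]
    · intro y hy y' hy' h4
      rw [Finset.mem_coe, Finset.mem_filter] at hy hy'
      simp only at h4
      rw [div_eq_div_iff hy.2.2.1 hy'.2.2.1] at h4
      linear_combination h4
  rw [Finset.card_erase_of_mem h1] at h3
  have h4 := Finset.card_pos.2 ⟨_, h1⟩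
  omega

theorem b_lt (h : Wctx F p l m e d a v0) :
    fc (fpr e d) v0 < (Finset.univ.filter fun z : F => z ^ m = 1).card := by
  have h1 := h.cm_card
  have h2 : fc (fpr e d) v0 ≤ (Finset.univ.filter fun y : F => y ≠ 0 ∧ 1 - y ≠ 0 ∧ y ^ m = (1 - y) ^ m).card := by
    unfold fc
    apply Finset.card_le_card
    intro y hy
    rw [Finset.mem_filter] at hy ⊢
    exact ⟨Finset.mem_univ _, h.pts y hy.2⟩
  omega

/-- the number of values -/
theorem card_eq (h : Wctx F p l m e d a v0) : ∃ M : ℕ, Fintype.card F = fc (fpr e d) v0 + a * M := by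
  have h1 : Fintype.card F = ∑ v : F, fc (fpr e d) v := by
    unfold fc
    rw [← Finset.card_univ]
    exact Finset.card_eq_sum_card_fiberwise (fun _ _ => Finset.mem_univ _)
  refine ⟨((Finset.univ.erase v0).filter fun v => fc (fpr e d) v = a).card, ?_⟩
  rw [h1, ← Finset.add_sum_erase _ _ (Finset.mem_univ v0)]
  congr 1
  rw [← Finset.sum_filter_add_sum_filter_not _ (fun v => fc (fpr e d) v = a),
    Finset.sum_congr rfl (fun v hv => (Finset.mem_filter.1 hv).2), Finset.sum_const, smul_eq_mul, mul_comm]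
  have h2 : ∑ v ∈ (Finset.univ.erase v0).filter (fun v => ¬ fc (fpr e d) v = a), fc (fpr e d) v = 0 := by
    apply Finset.sum_eq_zero
    intro v hv
    rw [Finset.mem_filter, Finset.mem_erase] at hv
    exact (h.ha v hv.1.1).resolve_right hv.2
  rw [h2, add_zero]

end Wctx
end Pool.Agent.H470
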