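import Pool.Agent.H470.W15

/-!
# The wild positive case when `x ^ P = -x` has only the trivial solution
-/

set_option autoImplicit false
set_option linter.all false

open Polynomial

namespace Pool.Agent.H470

theorem card_mu_dvd {F : Type} [Field F] [Fintype F] [DecidableEq F] (m : ℕ) (hm : 0 < m) :
    (Finset.univ.filter fun z : F => z ^ m = 1).card ∣ Fintype.card F - 1 := by
  classical
  have h1 : Nat.card (powMonoidHom m : Fˣ →* Fˣ).ker ∣ Nat.card Fˣ := Subgroup.card_subgroup_dvd_card _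
  rw [Nat.card_eq_fintype_card (α := Fˣ), Fintype.card_units] at h1
  convert h1 using 1
  rw [← Set.ncard_coe_finset, ← Nat.card_coe_set_eq]
  refine Nat.card_congr ⟨fun z => ⟨Units.mk0 z.1 ?_, ?_⟩, fun u => ⟨u.1.1, ?_⟩, fun z => ?_, fun u => ?_⟩
  · have := z.2
    rw [Finset.mem_coe, Finset.mem_filter] at this
    intro h0
    rw [h0, zero_pow hm.ne'] at this
    exact zero_ne_one this.2
  · have := z.2
    rw [Finset.mem_coe, Finset.mem_filter] at this
    rw [MonoidHom.mem_ker]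
    ext
    simpa using this.2
  · have := u.2
    rw [MonoidHom.mem_ker] at this
    rw [Finset.mem_coe, Finset.mem_filter]
    refine ⟨Finset.mem_univ _, ?_⟩
    have h2 := congrArg Units.val this
    simpa using h2
  · rfl
  · ext; rfl

theorem cp_k (F k : Type) [Field F] [Field k] [Algebra F k] (p : ℕ) [CharP F p] : CharP k p :=
  charP_of_injective_algebraMap (algebraMap F k).injective p

theorem cp_N (k N : Type) [Field k] [Field N] [Algebra k[X] N] (p : ℕ) [CharP k p] : CharP N p :=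
  charP_of_injective_ringHom (cN k N).injective p

theorem mu_le_two {F : Type} [Field F] [Fintype F] [DecidableEq F] (p l : ℕ) [Fact p.Prime] [CharP F p]
    (hp : p ≠ 2)
    (hA : ∀ x : F, x ^ p ^ l = -x → x = 0) :
    (Finset.univ.filter fun z : F => z ^ (p ^ l + 1) = 1).card ≤ 2 := by
  refine (Finset.card_le_card (t := ({1, -1} : Finset F)) ?_).trans Finset.card_le_two
  intro z hz
  rw [Finset.mem_filter] at hz
  have hz1 := hz.2
  have hz0 : z ≠ 0 := by
    rintro rfl
    rw [zero_pow (by omega)] at hz1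
    exact zero_ne_one hz1
  have h1 : z ^ p ^ l = z⁻¹ := by
    rw [pow_succ] at hz1
    exact eq_inv_of_mul_eq_one_left hz1
  have h2 : (z - z⁻¹) ^ p ^ l = -(z - z⁻¹) := by
    rw [sub_pow_char_pow, inv_pow, h1, inv_inv]
    ring
  have h3 := hA _ h2
  have h4 : (z - 1) * (z + 1) = 0 := by
    have h5 : z * (z - z⁻¹) = 0 := by rw [h3, mul_zero]
    rw [mul_sub, mul_inv_cancel₀ hz0] at h5
    linear_combination h5
  rw [Finset.mem_insert, Finset.mem_singleton]
  rcases mul_eq_zero.1 h4 with h5 | h5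
  · left; linear_combination h5
  · right; linear_combination h5

namespace Pl
section
variable {F k : Type} [Field F] [Fintype F] [DecidableEq F] [Field k] [IsAlgClosed k] [Algebra F k]
variable {N : Type} [Field N] [Algebra (RatFunc k) N] [Algebra k[X] N]
  [IsScalarTower k[X] (RatFunc k) N] {A B : F[X]} {v : F} {n : ℕ} (P : Pl F k N A B v n)

/-- a lift of Frobenius fixing a given root above a rational point -/
theorem exists_fixing [FiniteDimensional (RatFunc k) N] [IsGalois (RatFunc k) N] (hG : Good A B n) (c : F)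
    (i : Fin n) (hi : P.r i = algebraMap F k c) : ∃ ψ : N →+* N, P.Fb ψ ∧ ψ (P.y i) = P.y i := by
  obtain ⟨ρ, -, h1, h2⟩ := P.adj hG P.ψ P.fb i i (by rw [hi, P.fr_alg])
  exact ⟨_, h1, h2⟩

theorem fx_pos (ψ : N →+* N) (i : Fin n) (h : ψ (P.y i) = P.y i) : 0 < P.fx ψ := by
  unfold fx
  rw [Set.ncard_pos (Set.toFinite _)]
  exact ⟨i, h⟩

end
end Pl

namespace Wctx
variable {F : Type} [Field F] [Fintype F] [DecidableEq F] {p l m e d a : ℕ} [Fact p.Prime] [CharP F p] {v0 : F}

theorem tame_fac (h : Wctx F p l m e d a v0) (c : F) (hc : fpr e d c = v0) (hcP : c ^ p ^ l = c) :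
    ∃ Q : F[X], pA F e d - C v0 * pB F e d = (X - C c) ^ (p ^ l + 1) * Q ∧ Q.eval c ≠ 0 := by
  obtain ⟨hc0, hc1, hcm⟩ := h.pts c hc
  obtain ⟨G, h1, h2, h3⟩ := loc_x p l m e d h.hp h.he h.hd h.hl h.hem h.hm0 h.heF h.hdF h.hmF h.hce h.hcd c
    hc0 hc1 hcm
  have h4 := h3.2 hcP
  obtain ⟨Q, hQ, hQ'⟩ := lin_exp G c
  rw [h4, C_0, zero_add] at hQ
  rw [hc] at h1
  refine ⟨Q, ?_, ?_⟩
  · rw [h1]
    nth_rewrite 1 [hQ]
    ring
  · rw [hQ']
    intro h5
    apply h2
    rw [eval_sub, eval_mul, eval_mul, h5, h4]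
    ring

theorem caseA (h : Wctx F p l m e d a v0) (hA : ∀ x : F, x ^ p ^ l = -x → x = 0) : a = 2 := by
  classical
  set k := AlgebraicClosure F
  haveI : CharP k p := cp_k F k p
  have hmk : (m : k) ≠ 0 := by
    have := (map_ne_zero_iff (algebraMap F k) (algebraMap F k).injective).2 h.hmF
    rwa [map_natCast] at this
  have hdk : (d : k) ≠ 0 := by
    have := (map_ne_zero_iff (algebraMap F k) (algebraMap F k).injective).2 h.hdF
    rwa [map_natCast] at this
  have hnpos := h.pos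
  -- the place at infinity
  have hak : a = (Finset.univ.filter fun z : F => z ^ m = 1).card := by
    obtain ⟨N, _, _, _, _, _, _, ⟨P⟩⟩ := exists_Pl (k := k) (iA F e d) (iB F e d) 0 _ h.gz
    haveI : CharP N p := cp_N k N p
    have hr : (iA F e d - C 0 * iB F e d).eval (-1) = 0 := by
      rw [C_0, zero_mul, sub_zero]
      have := h.lt
      unfold iA
      rw [eval_mul, eval_pow, eval_pow, eval_add, eval_one, eval_X, add_neg_cancel, zero_pow (by omega), mul_zero]
    obtain ⟨i, hi⟩ := P.cl_nonempty h.gz (-1) hr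
    rw [P.mem_cl] at hi
    obtain ⟨ψ, hψ, hfix⟩ := P.exists_fixing h.gz (-1) i hi
    have h1 := P.fx_pos ψ i hfix
    have h2 := (P.inf_fix p l m h.hp h.hl h.he h.hd h.hem h.hm h.hm0 hmk hdk h.hcd h.gz ψ hψ).2 ⟨i, hfix⟩ hA
    rcases P.fix_dich h.gz h.pos h.hq {0, (v0 - 1)⁻¹} (Finset.card_le_two.trans (by omega)) a h.bad_z ψ hψ with h3 | h3
    · omega
    · rw [← h3, h2]
  -- the fibre above the centre has one rational point
  have hb1 : fc (fpr e d) v0 = 1 := by
    have h1 := h.b_lt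
    obtain ⟨M, hM⟩ := h.card_eq
    have h2 := card_mu_dvd (F := F) m h.hm0
    rw [← hak] at h1 h2
    have h3 := h.hb.pos
    have h4 : Fintype.card F - 1 = (fc (fpr e d) v0 - 1) + a * M := by omega
    rw [h4] at h2
    have h5 : a ∣ fc (fpr e d) v0 - 1 := (Nat.dvd_add_left (dvd_mul_right a M)).1 h2
    have h6 := Nat.eq_zero_of_dvd_of_lt h5 (by omega)
    omega
  have hhalf : ∀ y : F, fpr e d y = v0 → y = 2⁻¹ := by
    intro y hy
    unfold fc at hb1
    rw [Finset.card_eq_one] at hb1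
    obtain ⟨x, hx⟩ := hb1
    have h1 : y ∈ ({x} : Finset F) := by rw [← hx, Finset.mem_filter]; exact ⟨Finset.mem_univ _, hy⟩
    have h2 : (2⁻¹ : F) ∈ ({x} : Finset F) := by
      rw [← hx, Finset.mem_filter]; exact ⟨Finset.mem_univ _, h.hv0.symm⟩
    rw [Finset.mem_singleton] at h1 h2
    rw [h1, h2]
  -- the cluster at one half
  have hcP : (2⁻¹ : F) ^ p ^ l = 2⁻¹ := by
    rw [inv_pow]
    have := nat_pow_char (k := F) p l 2
    push_cast at this
    rw [this]
  obtain ⟨Q, hQ, hQc⟩ := h.tame_fac 2⁻¹ h.hv0.symm hcP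
  obtain ⟨N, _, _, _, _, _, _, ⟨P⟩⟩ := exists_Pl (k := k) (pA F e d) (pB F e d) v0 _ h.gx
  have hroot : (pA F e d - C v0 * pB F e d).eval 2⁻¹ = 0 := by
    rw [hQ, eval_mul, eval_pow, eval_sub, eval_X, eval_C, sub_self, zero_pow (by omega), zero_mul]
  obtain ⟨i, hi⟩ := P.cl_nonempty h.gx 2⁻¹ hroot
  rw [P.mem_cl] at hi
  obtain ⟨ψ, hψ, hfix⟩ := P.exists_fixing h.gx 2⁻¹ i hi
  have h1 := P.fx_pos ψ i hfix
  have hcast : ((p ^ l + 1 : ℕ) : F) ≠ 0 := by
    push_cast
    rw [CharP.cast_eq_zero, zero_pow h.hl.ne', zero_add]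
    exact one_ne_zero
  have h2 := P.tame_le h.gx 2⁻¹ (p ^ l + 1) (by omega) hcast Q hQ hQc ψ hψ
  have h3 : P.fx ψ ≤ {j | P.r j = algebraMap F k 2⁻¹ ∧ ψ (P.y j) = P.y j}.ncard := by
    unfold Pl.fx
    apply Set.ncard_le_ncard _ (Set.toFinite _)
    intro j hj
    obtain ⟨x, hx1, hx2⟩ := P.fixed_res ψ hψ j hj
    refine ⟨?_, hj⟩
    rw [hx2]
    congr 1
    apply hhalf
    rw [fpr_iff e d h.hd h.hcd]
    rw [pAB, eval_mul, eval_C] at hx1
    exact (mul_eq_zero.1 hx1).resolve_left (inv_ne_zero (pow_ne_zero _ h.heF))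
  have h4 := mu_le_two (F := F) p l h.hp hA
  have h5 := h.ha0
  obtain ⟨a', ha'⟩ := h.haev
  rcases P.fix_dich h.gx h.pos h.hq {v0} (by rw [Finset.card_singleton]; omega) a h.bad_x ψ hψ with h6 | h6
  · omega
  · omega

end Wctx
end Pool.Agent.H470
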