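import Pool.Agent.H470.W16

/-!
# Stabilizers: transitivity on clusters of coprime sizes, rigidity of tame clusters
-/

set_option autoImplicit false
set_option linter.all false

open Polynomial

namespace Pool.Agent.H470

theorem coprime_trans {G X : Type*} [Group G] [Finite G] [MulAction G X] (x y : X)
    (h : Nat.Coprime (MulAction.orbit G x).ncard (MulAction.orbit G y).ncard) (y' : X)
    (hy' : y' ∈ MulAction.orbit G y) : ∃ g : G, g • x = x ∧ g • y = y' := by
  classical
  set S1 := MulAction.stabilizer G x with hS1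
  set S2 := MulAction.stabilizer G y with hS2
  have h1 : S1.index = (MulAction.orbit G x).ncard := MulAction.index_stabilizer G x
  have h2 : S2.index = (MulAction.orbit G y).ncard := MulAction.index_stabilizer G y
  have h3 : (S1 ⊓ S2).index = S2.relIndex S1 * S1.index := by
    rw [← Subgroup.relIndex_mul_index (inf_le_left : S1 ⊓ S2 ≤ S1), Subgroup.inf_relIndex_left]
  have h4 : (S1 ⊓ S2).index = S1.relIndex S2 * S2.index := by
    rw [← Subgroup.relIndex_mul_index (inf_le_right : S1 ⊓ S2 ≤ S2), Subgroup.inf_relIndex_right]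
  have h5 : S2.index ∣ S2.relIndex S1 := by
    have h6 : S2.index ∣ S2.relIndex S1 * S1.index := by rw [← h3, h4]; exact dvd_mul_left _ _
    rw [← h1, ← h2] at h
    exact h.symm.dvd_of_dvd_mul_right h6
  have h6 : S2.relIndex S1 = (MulAction.orbit S1 y).ncard := by
    rw [← MulAction.index_stabilizer S1 y]
    rfl
  have hfin : (MulAction.orbit G y).Finite := Set.finite_range _
  have hsub : MulAction.orbit S1 y ⊆ MulAction.orbit G y := by
    rintro _ ⟨g, rfl⟩
    exact ⟨g.1, rfl⟩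
  have h7 : (MulAction.orbit G y).ncard ≤ (MulAction.orbit S1 y).ncard := by
    rw [← h6, ← h2]
    apply Nat.le_of_dvd _ h5
    rw [h6]
    exact (Set.ncard_pos (hfin.subset hsub)).2 ⟨y, MulAction.mem_orbit_self y⟩
  have h8 := Set.eq_of_subset_of_ncard_le hsub h7 hfin
  rw [← h8] at hy'
  obtain ⟨g, hg⟩ := hy'
  exact ⟨g.1, g.2, hg⟩

namespace Pl
section
variable {F k : Type} [Field F] [Fintype F] [DecidableEq F] [Field k] [IsAlgClosed k] [Algebra F k]
variable {N : Type} [Field N] [Algebra (RatFunc k) N] [Algebra k[X] N]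
  [IsScalarTower k[X] (RatFunc k) N] {A B : F[X]} {v : F} {n : ℕ} (P : Pl F k N A B v n)

/-- any root is one of the `y j` -/
theorem root_idx (hG : Good A B n) (z : N)
    (hz : aeval z (gAB (A.map (algebraMap F k)) (B.map (algebraMap F k))) = 0) : ∃ j, (P.y j : N) = z := by
  have hGk : Good (A.map (algebraMap F k)) (B.map (algebraMap F k)) n := hG.map
  have hm := gAB_monic _ _ hGk.monic hGk.lt
  have hdeg : (gAB (A.map (algebraMap F k)) (B.map (algebraMap F k))).natDegree = n := by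
    rw [gAB_natDegree _ _ hGk.monic hGk.lt, hGk.deg]
  have hprodN : (gAB (A.map (algebraMap F k)) (B.map (algebraMap F k))).map (algebraMap k[X] N) =
      ∏ j, (X - C (P.y j : N)) :=
    eq_prod_roots _ (hm.map _) (by rw [hm.natDegree_map, hdeg]) (fun j => (P.y j : N)) P.injN
      (by intro j; rw [eval_map]; exact P.root j)
  have h1 := congrArg (fun p => p.eval z) hprodN
  simp only [eval_map, eval_prod, eval_sub, eval_X, eval_C] at h1
  rw [← aeval_def, hz] at h1
  obtain ⟨j, -, hj⟩ := Finset.prod_eq_zero_iff.1 h1.symm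
  exact ⟨j, by linear_combination -hj⟩

/-- the orbit of a root under the decomposition group -/
theorem orbit_eq [FiniteDimensional (RatFunc k) N] [IsGalois (RatFunc k) N] (hG : Good A B n) (i : Fin n) :
    (MulAction.orbit P.Dg (P.y i : N)).ncard = (P.cl (P.r i)).card := by
  classical
  have h1 : MulAction.orbit P.Dg (P.y i : N) = (fun j => (P.y j : N)) '' (P.cl (P.r i) : Set (Fin n)) := by
    ext z
    constructor
    · rintro ⟨ρ, rfl⟩
      obtain ⟨σ, hσ⟩ := P.σD hG ρ.1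
      refine ⟨σ i, ?_, (hσ i).symm⟩
      rw [Finset.mem_coe, P.mem_cl]
      have h2 := P.rs_Dg ρ.1 ρ.2 (P.rs i)
      rw [hσ] at h2
      exact (P.rs (σ i)).unique h2
    · rintro ⟨j, hj, rfl⟩
      rw [Finset.mem_coe, P.mem_cl] at hj
      obtain ⟨ρ, hρ, h2⟩ := P.trans_cl hG i j hj.symm
      exact ⟨⟨ρ, hρ⟩, h2⟩
  rw [h1, Set.ncard_image_of_injective _ P.injN, Set.ncard_coe_finset]

/-- transitivity of the stabilizer of a root on a cluster of coprime size -/
theorem trans_stab [FiniteDimensional (RatFunc k) N] [IsGalois (RatFunc k) N] (hG : Good A B n)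
    (i1 i j : Fin n) (hij : P.r i = P.r j)
    (hcop : Nat.Coprime (P.cl (P.r i1)).card (P.cl (P.r i)).card) :
    ∃ ρ ∈ P.Dg, ρ (P.y i1) = P.y i1 ∧ ρ (P.y i) = P.y j := by
  haveI : Finite (N ≃ₐ[RatFunc k] N) := inferInstance
  rw [← P.orbit_eq hG, ← P.orbit_eq hG] at hcop
  obtain ⟨ρ0, hρ0, h0⟩ := P.trans_cl hG i j hij
  obtain ⟨ρ, h1, h2⟩ := coprime_trans (G := P.Dg) (P.y i1 : N) (P.y i : N) hcop (P.y j : N)
    ⟨⟨ρ0, hρ0⟩, h0⟩
  exact ⟨ρ.1, ρ.2, h1, h2⟩

/-- the stabilizer of a root in the decomposition group -/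
noncomputable def D1 (P : Pl F k N A B v n) (i : Fin n) : Subgroup (N ≃ₐ[RatFunc k] N) :=
  P.Dg ⊓ MulAction.stabilizer (N ≃ₐ[RatFunc k] N) (P.y i : N)

theorem mem_D1 (i : Fin n) (ρ : N ≃ₐ[RatFunc k] N) : ρ ∈ P.D1 i ↔ ρ ∈ P.Dg ∧ ρ (P.y i) = P.y i := Iff.rfl

/-- the `M`-th power of the quotient of two tame parameters (possibly in different clusters) has a
nonzero residue -/
theorem tame_quot (hG : Good A B n) (c c' : F) (M : ℕ) (hM0 : 0 < M) (hM : (M : F) ≠ 0) (Q Q' : F[X])
    (hQ : A - C v * B = (X - C c) ^ M * Q) (hQc : Q.eval c ≠ 0)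
    (hQ' : A - C v * B = (X - C c') ^ M * Q') (hQc' : Q'.eval c' ≠ 0) (i j : Fin n)
    (hi : P.r i = algebraMap F k c) (hj : P.r j = algebraMap F k c') :
    ∃ η : k, Rs P.ev (P.hh c' j / P.hh c i) η ∧ η ≠ 0 := by
  have hroot : (A - C v * B).eval c = 0 := by
    rw [hQ, eval_mul, eval_pow, eval_sub, eval_X, eval_C, sub_self, zero_pow hM0.ne', zero_mul]
  have hroot' : (A - C v * B).eval c' = 0 := by
    rw [hQ', eval_mul, eval_pow, eval_sub, eval_X, eval_C, sub_self, zero_pow hM0.ne', zero_mul]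
  have hB := P.B_ne hG c hroot
  have hB' := P.B_ne hG c' hroot'
  have hi0 := (P.tame_ratio hG c M hM0 hM Q hQ hQc i i hi hi).1
  have hj0 := (P.tame_ratio hG c' M hM0 hM Q' hQ' hQc' j j hj hj).1
  have e1 := P.local_eq c M Q hQ i
  have e2 := P.local_eq c' M Q' hQ' j
  have hev : ∀ (R : F[X]) (a : F), (R.map (algebraMap F k)).eval (algebraMap F k a) = algebraMap F k (R.eval a) := by
    intro R a
    rw [eval_map, eval₂_at_apply]
  have r1 := P.rs_poly i (Q.map (algebraMap F k))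
  have r2 := P.rs_poly i (B.map (algebraMap F k))
  have r3 := P.rs_poly j (Q'.map (algebraMap F k))
  have r4 := P.rs_poly j (B.map (algebraMap F k))
  rw [hi, hev] at r1 r2
  rw [hj, hev] at r3 r4
  have n1 := (map_ne_zero_iff (algebraMap F k) (algebraMap F k).injective).2 hQc
  have n2 := (map_ne_zero_iff (algebraMap F k) (algebraMap F k).injective).2 hB
  have n3 := (map_ne_zero_iff (algebraMap F k) (algebraMap F k).injective).2 hQc'
  have n4 := (map_ne_zero_iff (algebraMap F k) (algebraMap F k).injective).2 hB'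
  have m1 := r1.ne_zero n1
  have m2 := r2.ne_zero n2
  have m3 := r3.ne_zero n3
  have m4 := r4.ne_zero n4
  have hT := P.tv_ne (F := F)
  have key : (P.hh c' j / P.hh c i) ^ M =
      ((B.map (algebraMap F k)).eval₂ (cN k N) (P.y j : N) / (Q'.map (algebraMap F k)).eval₂ (cN k N) (P.y j : N)) /
      ((B.map (algebraMap F k)).eval₂ (cN k N) (P.y i : N) / (Q.map (algebraMap F k)).eval₂ (cN k N) (P.y i : N)) := by
    rw [div_pow, div_div_div_eq, div_eq_div_iff (pow_ne_zero _ hi0) (mul_ne_zero m3 m2)]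
    apply mul_left_cancel₀ hT
    apply mul_left_cancel₀ m1
    linear_combination ((Q.map (algebraMap F k)).eval₂ (cN k N) (P.y i : N) *
      (algebraMap k[X] N X - cN k N (algebraMap F k v)) *
      (B.map (algebraMap F k)).eval₂ (cN k N) (P.y i : N)) * e2 -
      ((algebraMap k[X] N X - cN k N (algebraMap F k v)) * (B.map (algebraMap F k)).eval₂ (cN k N) (P.y j : N) *
        (Q.map (algebraMap F k)).eval₂ (cN k N) (P.y i : N)) * e1
  have h5 := ((r4.div r3 n3).div (r2.div r1 n1) (div_ne_zero n2 n1)).congr key.symm rfl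
  obtain ⟨η, h6, h7⟩ := Rs.root hM0 h5
  refine ⟨η, h6, ?_⟩
  rintro rfl
  rw [zero_pow hM0.ne'] at h7
  exact div_ne_zero (div_ne_zero n4 n3) (div_ne_zero n2 n1) h7.symm

/-- elements of the decomposition group fixing one tame root fix all tame roots of the same index -/
theorem tame_rigid (hG : Good A B n) (c c' : F) (M : ℕ) (hM0 : 0 < M) (hM : (M : F) ≠ 0) (Q Q' : F[X])
    (hQ : A - C v * B = (X - C c) ^ M * Q) (hQc : Q.eval c ≠ 0)
    (hQ' : A - C v * B = (X - C c') ^ M * Q') (hQc' : Q'.eval c' ≠ 0) (i j : Fin n)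
    (hi : P.r i = algebraMap F k c) (hj : P.r j = algebraMap F k c') (ρ : N ≃ₐ[RatFunc k] N)
    (hρ : ρ ∈ P.D1 i) : ρ (P.y j) = P.y j := by
  obtain ⟨h1, h2⟩ := (P.mem_D1 i ρ).1 hρ
  obtain ⟨η, h3, h4⟩ := P.tame_quot hG c c' M hM0 hM Q Q' hQ hQc hQ' hQc' i j hi hj
  obtain ⟨σ, hσ⟩ := P.σD hG ρ
  have hσj : P.r (σ j) = algebraMap F k c' := by
    have h5 := P.rs_Dg ρ h1 (P.rs j)
    rw [hσ] at h5
    rw [(P.rs (σ j)).unique h5, hj]
  have hcN : ∀ x : k, ρ (cN k N x) = cN k N x := by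
    intro x
    show ρ (algebraMap k[X] N (C x)) = algebraMap k[X] N (C x)
    rw [IsScalarTower.algebraMap_apply k[X] (RatFunc k) N]
    exact ρ.commutes _
  have e1 : ρ (P.hh c i) = P.hh c i := by
    unfold hh
    rw [map_sub, h2, hcN]
  have e2 : ρ (P.hh c' j) = P.hh c' (σ j) := by
    unfold hh
    rw [map_sub, hσ, hcN]
  have h5 := P.rs_Dg ρ h1 h3
  rw [map_div₀, e1, e2] at h5
  have hi0 := (P.tame_ratio hG c M hM0 hM Q hQ hQc i i hi hi).1
  have hj0 := (P.tame_ratio hG c' M hM0 hM Q' hQ' hQc' j j hj hj).1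
  have h6 := h5.div h3 h4
  rw [div_self h4] at h6
  have h7 : P.hh c' (σ j) / P.hh c i / (P.hh c' j / P.hh c i) = P.hh c' (σ j) / P.hh c' j := by
    field_simp
  rw [h7] at h6
  obtain ⟨-, ζ, h8, -, h9⟩ := P.tame_ratio hG c' M hM0 hM Q' hQ' hQc' j (σ j) hj hσj
  have h10 := h9 (h8.unique h6)
  rw [hσ, ← h10]

/-- the number of fixed roots in a tame cluster with a fixed root -/
theorem tame_eq (hG : Good A B n) (c : F) (m : ℕ) (hm0 : 0 < m) (hm : (m : F) ≠ 0) (Q : F[X])
    (hQ : A - C v * B = (X - C c) ^ m * Q) (hQc : Q.eval c ≠ 0) (ψ : N →+* N) (hψ : P.Fb ψ) (i : Fin n)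
    (hi : P.r i = algebraMap F k c) (hfix : ψ (P.y i) = P.y i) :
    {j | P.r j = algebraMap F k c ∧ ψ (P.y j) = P.y j}.ncard =
      (Finset.univ.filter fun z : F => z ^ m = 1).card := by
  classical
  apply le_antisymm (P.tame_le hG c m hm0 hm Q hQ hQc ψ hψ)
  have hi0 := (P.tame_ratio hG c m hm0 hm Q hQ hQc i i hi hi).1
  have hex : ∀ z : F, z ∈ (Finset.univ.filter fun z : F => z ^ m = 1) → ∃ j,
      (P.r j = algebraMap F k c ∧ ψ (P.y j) = P.y j) ∧ Rs P.ev (P.hh c j / P.hh c i) (algebraMap F k z) := by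
    intro z hz
    rw [Finset.mem_filter] at hz
    obtain ⟨j, h1, h2⟩ := P.tame_surj hG c m hm0 hm Q hQ hQc i hi (algebraMap F k z)
      (by rw [← map_pow, hz.2, map_one])
    refine ⟨j, ⟨h1, ?_⟩, h2⟩
    obtain ⟨σ, hσ⟩ := P.exists_σ hG ψ hψ.1
    have h3 : P.r (σ j) = algebraMap F k c := by
      rw [P.res_fr ψ hψ j (σ j) (hσ j), h1, P.fr_alg]
    have h4 := h2.map hψ.2
    rw [map_div₀, P.ψ_hh ψ hψ c i i hfix, P.ψ_hh ψ hψ c j (σ j) (hσ j), P.fr_alg] at h4
    have hz0 : algebraMap F k z ≠ 0 := by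
      intro h0
      have h5 : z = 0 := (algebraMap F k).injective (h0.trans (map_zero _).symm)
      rw [h5, zero_pow hm0.ne'] at hz
      exact zero_ne_one hz.2
    have hj0 := (P.tame_ratio hG c m hm0 hm Q hQ hQc j j h1 h1).1
    have h6 := h4.div h2 hz0
    rw [div_self hz0] at h6
    have h7 : P.hh c (σ j) / P.hh c i / (P.hh c j / P.hh c i) = P.hh c (σ j) / P.hh c j := by
      field_simp
    rw [h7] at h6
    obtain ⟨-, ζ, h8, -, h9⟩ := P.tame_ratio hG c m hm0 hm Q hQ hQc j (σ j) h1 h3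
    have h10 := h9 (h8.unique h6)
    rw [hσ, ← h10]
  haveI : Nonempty (Fin n) := ⟨i⟩
  choose! f hf using hex
  rw [← Set.ncard_coe_finset]
  refine Set.ncard_le_ncard_of_injOn f (fun z hz => (hf z hz).1) ?_ (Set.toFinite _)
  intro z hz z' hz' h1
  have h2 := (hf z hz).2
  have h3 := (hf z' hz').2
  rw [h1] at h2
  exact (algebraMap F k).injective (h2.unique h3)

end
end Pl
end Pool.Agent.H470
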