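import Pool.Agent.H470.W17

/-!
# Wild clusters of size `p ^ l`
-/

set_option autoImplicit false
set_option linter.all false

open Polynomial

namespace Pool.Agent.H470

section
variable {k : Type} [Field k] {N : Type} [Field N] [Algebra k[X] N]

theorem dd_poly {ev : integralClosure k[X] N →+* k} (hc : ∀ c : k, ev (algebraMap k[X] _ (C c)) = c) {x x' : N}
    {c : k} (hx : Rs ev x c) (hx' : Rs ev x' c) (Q : k[X]) :
    ∃ D : N, Rs ev D ((derivative Q).eval c) ∧
      Q.eval₂ (cN k N) x - Q.eval₂ (cN k N) x' = (x - x') * D := by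
  induction Q using Polynomial.induction_on' with
  | add p q hp hq =>
    obtain ⟨D1, h1, h2⟩ := hp
    obtain ⟨D2, h3, h4⟩ := hq
    refine ⟨D1 + D2, (h1.add h3).congr rfl (by rw [derivative_add, eval_add]), ?_⟩
    rw [eval₂_add, eval₂_add]
    linear_combination h2 + h4
  | monomial n a =>
    refine ⟨cN k N a * dq x x' n, ?_, ?_⟩
    · have h1 : Rs ev (cN k N a) a := (Rs.of_int (ev := ev) (algebraMap k[X] _ (C a))).congr rfl (hc a)
      refine (h1.mul (Rs.dq hx hx' n)).congr rfl ?_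
      rw [derivative_monomial, eval_monomial]
      ring
    · rw [eval₂_monomial, eval₂_monomial, ← mul_sub, dq_mul]
      ring

/-- the elements of `k` fixed by `x ↦ x ^ P` -/
noncomputable def FP (k : Type) [Field k] (P : ℕ) : Finset k := by
  classical
  exact (X ^ P - X : k[X]).roots.toFinset

theorem XP_sub_natDegree (k : Type) [Field k] (P : ℕ) (hP : 1 < P) : (X ^ P - X : k[X]).natDegree = P := by
  have h1 : (X : k[X]).degree < (X ^ P : k[X]).degree := by
    rw [degree_X_pow, degree_X]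
    exact_mod_cast hP
  rw [natDegree_eq_of_degree_eq (degree_sub_eq_left_of_degree_lt h1), natDegree_X_pow]

theorem XP_sub_ne (k : Type) [Field k] (P : ℕ) (hP : 1 < P) : (X ^ P - X : k[X]) ≠ 0 := by
  intro h
  have h1 := XP_sub_natDegree k P hP
  rw [h, natDegree_zero] at h1
  omega

theorem mem_FP {P : ℕ} (hP : 1 < P) (x : k) : x ∈ FP k P ↔ x ^ P = x := by
  classical
  unfold FP
  rw [Multiset.mem_toFinset, mem_roots (XP_sub_ne k P hP), IsRoot.def, eval_sub, eval_pow, eval_X, sub_eq_zero]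

theorem card_FP_le {P : ℕ} (hP : 1 < P) : (FP k P).card ≤ P := by
  classical
  unfold FP
  refine (Multiset.toFinset_card_le _).trans ((card_roots' _).trans ?_)
  rw [XP_sub_natDegree k P hP]

end

namespace Pl
section
variable {F k : Type} [Field F] [Fintype F] [DecidableEq F] [Field k] [IsAlgClosed k] [Algebra F k]
variable {N : Type} [Field N] [Algebra (RatFunc k) N] [Algebra k[X] N]
  [IsScalarTower k[X] (RatFunc k) N] {A B : F[X]} {v : F} {n : ℕ} (P : Pl F k N A B v n)

theorem ev_alg (R : F[X]) (a : F) :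
    (R.map (algebraMap F k)).eval (algebraMap F k a) = algebraMap F k (R.eval a) := by
  rw [eval_map, eval₂_at_apply]

theorem root_of_fac (c : F) (M : ℕ) (hM0 : 0 < M) (Q : F[X]) (hQ : A - C v * B = (X - C c) ^ M * Q) :
    (A - C v * B).eval c = 0 := by
  rw [hQ, eval_mul, eval_pow, eval_sub, eval_X, eval_C, sub_self, zero_pow hM0.ne', zero_mul]

/-- the local equation with a unit -/
theorem loc_unit (hG : Good A B n) (c : F) (M : ℕ) (hM0 : 0 < M) (Q : F[X])
    (hQ : A - C v * B = (X - C c) ^ M * Q) (hQc : Q.eval c ≠ 0) (i : Fin n)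
    (hi : P.r i = algebraMap F k c) :
    ∃ b : N, Rs P.ev b (algebraMap F k (B.eval c / Q.eval c)) ∧
      (P.hh c i) ^ M = (algebraMap k[X] N X - cN k N (algebraMap F k v)) * b := by
  have e1 := P.local_eq c M Q hQ i
  have r1 := P.rs_poly i (Q.map (algebraMap F k))
  have r2 := P.rs_poly i (B.map (algebraMap F k))
  rw [hi, ev_alg] at r1 r2
  have n1 := (map_ne_zero_iff (algebraMap F k) (algebraMap F k).injective).2 hQc
  have m1 := r1.ne_zero n1
  refine ⟨_, (r2.div r1 n1).congr rfl (by rw [map_div₀]), ?_⟩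
  rw [← mul_div_assoc, eq_div_iff m1]
  exact e1

theorem hh_ne (hG : Good A B n) (c : F) (M : ℕ) (hM0 : 0 < M) (Q : F[X])
    (hQ : A - C v * B = (X - C c) ^ M * Q) (hQc : Q.eval c ≠ 0) (i : Fin n)
    (hi : P.r i = algebraMap F k c) : P.hh c i ≠ 0 := by
  obtain ⟨b, h1, h2⟩ := P.loc_unit hG c M hM0 Q hQ hQc i hi
  intro h3
  rw [h3, zero_pow hM0.ne'] at h2
  have hB := P.B_ne hG c (root_of_fac c M hM0 Q hQ)
  have h4 : b ≠ 0 := h1.ne_zero ((map_ne_zero_iff (algebraMap F k) (algebraMap F k).injective).2 (div_ne_zero hB hQc))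
  exact mul_ne_zero (P.tv_ne (F := F)) h4 h2.symm

theorem hh_sub (c : F) (i j : Fin n) : P.hh c j - P.hh c i = (P.y j : N) - (P.y i : N) := by
  unfold hh
  ring

/-- in a wild cluster of size `p ^ l` all parameters agree to first order -/
theorem wild_hh (p l : ℕ) [Fact p.Prime] [CharP k p] (hG : Good A B n) (c : F) (G : F[X])
    (hQ : A - C v * B = (X - C c) ^ p ^ l * G) (hQc : G.eval c ≠ 0) (i j : Fin n)
    (hi : P.r i = algebraMap F k c) (hj : P.r j = algebraMap F k c) :
    Rs P.ev (P.hh c j / P.hh c i) 1 := by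
  have hP0 : 0 < p ^ l := pow_pos (Fact.out : p.Prime).pos _
  obtain ⟨b, h1, h2⟩ := P.loc_unit hG c _ hP0 G hQ hQc i hi
  obtain ⟨b', h1', h2'⟩ := P.loc_unit hG c _ hP0 G hQ hQc j hj
  have hB := P.B_ne hG c (root_of_fac c _ hP0 G hQ)
  have hn := (map_ne_zero_iff (algebraMap F k) (algebraMap F k).injective).2 (div_ne_zero hB hQc)
  have h3 : (P.hh c j / P.hh c i) ^ p ^ l = b' / b := by
    rw [div_pow, h2, h2', mul_div_mul_left _ _ (P.tv_ne (F := F))]
  have h4 := (h1'.div h1 hn).congr h3.symm rfl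
  obtain ⟨x, h5, h6⟩ := Rs.root hP0 h4
  rw [div_self hn] at h6
  rw [one_of_pow p l x h6] at h5
  exact h5

/-- **the basic relation in a wild cluster** -/
theorem wild_pair (p l : ℕ) [Fact p.Prime] [CharP k p] [CharP N p] (hG : Good A B n) (c : F) (G : F[X])
    (hQ : A - C v * B = (X - C c) ^ p ^ l * G) (hQc : G.eval c ≠ 0) (i j : Fin n)
    (hi : P.r i = algebraMap F k c) (hj : P.r j = algebraMap F k c) (hij : i ≠ j) :
    Rs P.ev (((P.y j : N) - (P.y i : N)) ^ (p ^ l - 1) / (P.hh c i) ^ p ^ l)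
      (algebraMap F k (-((derivative G * B - G * derivative B).eval c) / (G.eval c * B.eval c))) := by
  have hP0 : 0 < p ^ l := pow_pos (Fact.out : p.Prime).pos _
  have hB := P.B_ne hG c (root_of_fac c _ hP0 G hQ)
  have e1 := P.local_eq c _ G hQ i
  have e2 := P.local_eq c _ G hQ j
  have ri := P.rs i
  have rj := P.rs j
  rw [hi] at ri
  rw [hj] at rj
  obtain ⟨D1, d1, d1'⟩ := dd_poly P.evC rj ri (G.map (algebraMap F k))
  obtain ⟨D2, d2, d2'⟩ := dd_poly P.evC rj ri (B.map (algebraMap F k))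
  rw [derivative_map, ev_alg] at d1 d2
  have g1 := P.rs_poly i (G.map (algebraMap F k))
  have b1 := P.rs_poly i (B.map (algebraMap F k))
  have g2 := P.rs_poly j (G.map (algebraMap F k))
  have b2 := P.rs_poly j (B.map (algebraMap F k))
  rw [hi, ev_alg] at g1 b1
  rw [hj, ev_alg] at g2 b2
  set Gi := (G.map (algebraMap F k)).eval₂ (cN k N) (P.y i : N)
  set Gj := (G.map (algebraMap F k)).eval₂ (cN k N) (P.y j : N)
  set Bi := (B.map (algebraMap F k)).eval₂ (cN k N) (P.y i : N)
  set Bj := (B.map (algebraMap F k)).eval₂ (cN k N) (P.y j : N)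
  set δ := (P.y j : N) - (P.y i : N) with hδ
  have hδ0 : δ ≠ 0 := by
    intro h
    apply hij
    apply P.injN
    show (P.y i : N) = P.y j
    linear_combination -h
  have hhi := P.hh_ne hG c _ hP0 G hQ hQc i hi
  have hhj : (P.hh c j) ^ p ^ l = (P.hh c i) ^ p ^ l + δ ^ p ^ l := by
    rw [← add_pow_char_pow, hδ, ← P.hh_sub c i j]
    congr 1
    ring
  have nG := (map_ne_zero_iff (algebraMap F k) (algebraMap F k).injective).2 hQc
  have nB := (map_ne_zero_iff (algebraMap F k) (algebraMap F k).injective).2 hB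
  have mGj := g2.ne_zero nG
  have mBi := b1.ne_zero nB
  have h1 : (P.hh c i) ^ p ^ l * Gi * Bj = (P.hh c j) ^ p ^ l * Gj * Bi := by
    linear_combination Bj * e1 - Bi * e2
  have hPs : δ ^ p ^ l = δ * δ ^ (p ^ l - 1) := by
    rw [← pow_succ']
    congr 1
    omega
  have h2 : δ ^ (p ^ l - 1) * (Gj * Bi) = (P.hh c i) ^ p ^ l * -(D1 * Bj - Gj * D2) := by
    apply mul_left_cancel₀ hδ0
    rw [hhj, hPs] at h1
    linear_combination -h1 - (P.hh c i) ^ p ^ l * Bj * d1' + (P.hh c i) ^ p ^ l * Gj * d2'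
  have h3 : δ ^ (p ^ l - 1) / (P.hh c i) ^ p ^ l = -(D1 * Bj - Gj * D2) / (Gj * Bi) := by
    rw [div_eq_div_iff (pow_ne_zero _ hhi) (mul_ne_zero mGj mBi), h2]
    ring
  refine ((((d1.mul b2).sub (g2.mul d2)).neg).div (g2.mul b1) (mul_ne_zero nG nB)).congr h3.symm ?_
  rw [map_div₀, map_neg, eval_sub, eval_mul, eval_mul, map_sub, map_mul, map_mul, map_mul]

end
end Pl
end Pool.Agent.H470
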