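import Pool.Agent.H470.W18

/-!
# Fixed roots in wild clusters
-/

set_option autoImplicit false
set_option linter.all false

open Polynomial

namespace Pool.Agent.H470

namespace Pl
section
variable {F k : Type} [Field F] [Fintype F] [DecidableEq F] [Field k] [IsAlgClosed k] [Algebra F k]
variable {N : Type} [Field N] [Algebra (RatFunc k) N] [Algebra k[X] N]
  [IsScalarTower k[X] (RatFunc k) N] {A B : F[X]} {v : F} {n : ℕ} (P : Pl F k N A B v n)

theorem wild_fix (p l : ℕ) [Fact p.Prime] [CharP k p] [CharP N p] (hp : p ≠ 2) (hl : 0 < l)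
    (hG : Good A B n) (c : F) (G : F[X])
    (hQ : A - C v * B = (X - C c) ^ p ^ l * G) (hQc : G.eval c ≠ 0)
    (hW : (derivative G * B - G * derivative B).eval c ≠ 0) (i0 j0 : Fin n)
    (hi0 : P.r i0 = algebraMap F k c) (hj0 : P.r j0 = algebraMap F k c) (h0 : i0 ≠ j0)
    (ψ : N →+* N) (hψ : P.Fb ψ) (ε : k)
    (hε : Rs P.ev (ψ ((P.y j0 : N) - P.y i0) / ((P.y j0 : N) - P.y i0)) ε)
    (hε1 : ε ^ ((p ^ l - 1) / 2) = -1) : ∃ j, P.r j = algebraMap F k c ∧ ψ (P.y j) = P.y j := by
  classical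
  have hpp : p.Prime := Fact.out
  have hp3 : 3 ≤ p := by
    rcases hpp.two_le.lt_or_eq with h | h
    · exact h
    · exact absurd h.symm hp
  have hP3 : 3 ≤ p ^ l := hp3.trans (Nat.le_self_pow hl.ne' p)
  have hPodd : Odd (p ^ l) := (hpp.odd_of_ne_two hp).pow
  have hP0 : 0 < p ^ l := by omega
  have hhalf : p ^ l - 1 = 2 * ((p ^ l - 1) / 2) := by
    obtain ⟨t, ht⟩ := hPodd
    omega
  have hB := P.B_ne hG c (root_of_fac c _ hP0 G hQ)
  set ν : k := algebraMap F k (-((derivative G * B - G * derivative B).eval c) / (G.eval c * B.eval c)) with hν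
  have hν0 : ν ≠ 0 := (map_ne_zero_iff (algebraMap F k) (algebraMap F k).injective).2
    (div_ne_zero (neg_ne_zero.2 hW) (mul_ne_zero hQc hB))
  set δ0 : N := (P.y j0 : N) - P.y i0 with hδ0
  have hδ00 : δ0 ≠ 0 := by
    intro h
    apply h0
    apply P.injN
    show (P.y i0 : N) = P.y j0
    rw [hδ0] at h
    linear_combination -h
  have hh0 := P.hh_ne hG c _ hP0 G hQ hQc i0 hi0
  have hbase := P.wild_pair p l hG c G hQ hQc i0 j0 hi0 hj0 h0
  -- coordinates
  have hex : ∀ j, P.r j = algebraMap F k c → ∃ x : k, Rs P.ev (((P.y j : N) - P.y i0) / δ0) x ∧ x ^ p ^ l = x := by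
    intro j hj
    by_cases hji : j = i0
    · subst hji
      refine ⟨0, Rs.zero.congr (by rw [sub_self, zero_div]) rfl, zero_pow hP0.ne'⟩
    · have h1 := P.wild_pair p l hG c G hQ hQc i0 j hi0 hj (fun h => hji h.symm)
      have h2 := h1.div hbase hν0
      rw [div_self hν0] at h2
      have h3 : ((P.y j : N) - P.y i0) ^ (p ^ l - 1) / P.hh c i0 ^ p ^ l /
          (((P.y j0 : N) - P.y i0) ^ (p ^ l - 1) / P.hh c i0 ^ p ^ l) =
          (((P.y j : N) - P.y i0) / δ0) ^ (p ^ l - 1) := by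
        rw [← hδ0, div_div_div_cancel_right₀ (pow_ne_zero _ hh0), div_pow]
      rw [h3] at h2
      obtain ⟨x, h4, h5⟩ := Rs.root (by omega) h2
      refine ⟨x, h4, ?_⟩
      have h6 : x ^ p ^ l = x ^ (p ^ l - 1) * x := by
        rw [← pow_succ]
        congr 1
        omega
      rw [h6, h5, one_mul]
  choose! x hx hxP using hex
  have hinj : ∀ j j', P.r j = algebraMap F k c → P.r j' = algebraMap F k c → x j = x j' → j = j' := by
    intro j j' hj hj' hjj
    by_contra hne
    have h1 := P.wild_pair p l hG c G hQ hQc j' j hj' hj (fun h => hne h.symm)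
    have h2 := (P.wild_hh p l hG c G hQ hQc i0 j' hi0 hj').pow (p ^ l)
    rw [one_pow] at h2
    have h3 := (h1.mul h2).div hbase hν0
    rw [mul_one, div_self hν0] at h3
    have hhj' := P.hh_ne hG c _ hP0 G hQ hQc j' hj'
    have h4 : ((P.y j : N) - P.y j') ^ (p ^ l - 1) / P.hh c j' ^ p ^ l * (P.hh c j' / P.hh c i0) ^ p ^ l /
        (((P.y j0 : N) - P.y i0) ^ (p ^ l - 1) / P.hh c i0 ^ p ^ l) =
        (((P.y j : N) - P.y i0) / δ0 - ((P.y j' : N) - P.y i0) / δ0) ^ (p ^ l - 1) := by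
      rw [← hδ0, ← sub_div, div_pow, div_pow]
      have e1 : ((P.y j : N) - P.y i0 - ((P.y j' : N) - P.y i0)) = (P.y j : N) - P.y j' := by ring
      rw [e1]
      have e2 := pow_ne_zero (p ^ l) hh0
      have e3 := pow_ne_zero (p ^ l) hhj'
      have e4 := pow_ne_zero (p ^ l - 1) hδ00
      field_simp
    rw [h4] at h3
    have h5 := ((hx j hj).sub (hx j' hj')).pow (p ^ l - 1)
    rw [hjj, sub_self, zero_pow (by omega)] at h5
    exact zero_ne_one (h5.unique h3)
  have hcard := P.card_cl' hG c (p ^ l) G hQ hQc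
  have hsurj : ∀ z : k, z ^ p ^ l = z → ∃ j, P.r j = algebraMap F k c ∧ x j = z := by
    intro z hz
    have h1 : Set.SurjOn x (P.cl (algebraMap F k c) : Set (Fin n)) (FP k (p ^ l) : Set k) := by
      apply Finset.surjOn_of_injOn_of_card_le x
      · intro j hj
        rw [Finset.mem_coe, P.mem_cl] at hj
        rw [Finset.mem_coe, mem_FP (by omega)]
        exact hxP j hj
      · intro j hj j' hj' h
        rw [Finset.mem_coe, P.mem_cl] at hj hj'
        exact hinj j j' hj hj' h
      · rw [hcard]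
        exact card_FP_le (by omega)
    obtain ⟨j, hj, hj'⟩ := h1 (by rw [Finset.mem_coe, mem_FP (by omega)]; exact hz : z ∈ (FP k (p ^ l) : Set k))
    rw [Finset.mem_coe, P.mem_cl] at hj
    exact ⟨j, hj, hj'⟩
  -- the action of `ψ`
  obtain ⟨σ, hσ⟩ := P.exists_σ hG ψ hψ.1
  have hσc : ∀ j, P.r j = algebraMap F k c → P.r (σ j) = algebraMap F k c := by
    intro j hj
    rw [P.res_fr ψ hψ j (σ j) (hσ j), hj, P.fr_alg]
  have hact : ∀ j, P.r j = algebraMap F k c → x (σ j) = fr F k (x j) * ε + x (σ i0) := by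
    intro j hj
    have h1 := (((hx j hj).map hψ.2).mul hε).add (hx (σ i0) (hσc i0 hi0))
    have h2 : ψ (((P.y j : N) - P.y i0) / δ0) * (ψ δ0 / δ0) + ((P.y (σ i0) : N) - P.y i0) / δ0 =
        ((P.y (σ j) : N) - P.y i0) / δ0 := by
      rw [map_div₀, map_sub, hσ, hσ]
      have h3 : ψ δ0 ≠ 0 := (map_ne_zero_iff ψ ψ.injective).2 hδ00
      field_simp
      ring
    rw [h2] at h1
    exact (hx (σ j) (hσc j hj)).unique h1
  have hεP : ε ^ p ^ l = ε := by
    have h6 : ε ^ p ^ l = ε ^ (p ^ l - 1) * ε := by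
      rw [← pow_succ]
      congr 1
      omega
    rw [h6, hhalf, mul_comm 2, pow_mul, hε1]
    ring
  have h2k : (2 : k) ≠ 0 := by
    intro h
    have h1 : ((2 : ℕ) : k) = 0 := by exact_mod_cast h
    rw [CharP.cast_eq_zero_iff k p] at h1
    exact hp ((Nat.prime_dvd_prime_iff_eq hpp Nat.prime_two).1 h1)
  have hL : ∀ z : k, z ^ p ^ l = z → z = fr F k z * ε → z = 0 := by
    intro z hz1 hz2
    by_contra hz0
    have h1 : z ^ (p ^ l - 1) = 1 := by
      apply mul_right_cancel₀ hz0
      rw [one_mul, ← pow_succ]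
      rw [show p ^ l - 1 + 1 = p ^ l by omega]
      exact hz1
    set s := z ^ ((p ^ l - 1) / 2) with hs
    have h3 : s ^ 2 = 1 := by
      rw [hs, ← pow_mul, mul_comm, ← hhalf]
      exact h1
    have h4 : s = fr F k s * -1 := by
      rw [hs, map_pow, ← hε1, ← mul_pow, ← hz2]
    have h5 : fr F k s = s := by
      have h6 : (s - 1) * (s + 1) = 0 := by linear_combination h3
      rcases mul_eq_zero.1 h6 with h7 | h7
      · rw [show s = 1 by linear_combination h7, map_one]
      · rw [show s = -1 by linear_combination h7, map_neg, map_one]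
    rw [h5] at h4
    have h6 : (2 : k) * s = 0 := by linear_combination h4
    rcases mul_eq_zero.1 h6 with h7 | h7
    · exact h2k h7
    · rw [h7] at h3
      norm_num at h3
  have hτ := hxP (σ i0) (hσc i0 hi0)
  have hLs : ∃ z : k, z ^ p ^ l = z ∧ z - fr F k z * ε = x (σ i0) := by
    have h1 : Set.SurjOn (fun z => z - fr F k z * ε) (FP k (p ^ l) : Set k) (FP k (p ^ l) : Set k) := by
      apply Finset.surjOn_of_injOn_of_card_le
      · intro z hz
        rw [Finset.mem_coe, mem_FP (by omega)] at hz ⊢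
        simp only
        rw [sub_pow_char_pow, mul_pow, ← map_pow, hz, hεP]
      · intro z hz z' hz' h
        rw [Finset.mem_coe, mem_FP (by omega)] at hz hz'
        simp only at h
        have h3 := hL (z - z') (by rw [sub_pow_char_pow, hz, hz']) (by
          rw [map_sub]
          linear_combination h)
        linear_combination h3
      · exact le_rfl
    obtain ⟨z, hz, hz'⟩ := h1 (by rw [Finset.mem_coe, mem_FP (by omega)]; exact hτ :
      x (σ i0) ∈ (FP k (p ^ l) : Set k))
    rw [Finset.mem_coe, mem_FP (by omega)] at hz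
    exact ⟨z, hz, hz'⟩
  obtain ⟨z, hz1, hz2⟩ := hLs
  obtain ⟨j, hj1, hj2⟩ := hsurj z hz1
  refine ⟨j, hj1, ?_⟩
  have h1 := hact j hj1
  rw [hj2, ← hz2] at h1
  have h2 : x (σ j) = x j := by rw [h1, hj2]; ring
  rw [hσ, hinj _ _ (hσc j hj1) hj1 h2]

end
end Pl
end Pool.Agent.H470
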