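import Pool.Agent.H470.W1
import Pool.Agent.H470.Loc

/-!
# Transitivity of the Galois group on places
-/

set_option autoImplicit false
set_option linter.all false

open Polynomial

namespace Pool.Agent.H470

section
variable {k : Type} [Field k] {N : Type} [Field N] [Algebra (RatFunc k) N] [Algebra k[X] N]
  [IsScalarTower k[X] (RatFunc k) N]

/-- the action of the Galois group on the integral closure -/
noncomputable def gB (ρ : N ≃ₐ[RatFunc k] N) : integralClosure k[X] N ≃ₐ[k[X]] integralClosure k[X] N :=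
  AlgEquiv.mapIntegralClosure (ρ.restrictScalars k[X])

theorem gB_coe (ρ : N ≃ₐ[RatFunc k] N) (b : integralClosure k[X] N) : ((gB ρ b : integralClosure k[X] N) : N) = ρ b :=
  rfl

theorem gB_mul (ρ ρ' : N ≃ₐ[RatFunc k] N) (b : integralClosure k[X] N) : gB (ρ * ρ') b = gB ρ (gB ρ' b) :=
  rfl

theorem gB_one (b : integralClosure k[X] N) : gB (1 : N ≃ₐ[RatFunc k] N) b = b := rfl

theorem faithN : FaithfulSMul k[X] N := by
  apply (faithfulSMul_iff_algebraMap_injective _ _).2
  rw [IsScalarTower.algebraMap_eq k[X] (RatFunc k) N]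
  exact (algebraMap (RatFunc k) N).injective.comp (IsFractionRing.injective k[X] (RatFunc k))

/-- **Transitivity on places.** -/
theorem trans_places [FiniteDimensional (RatFunc k) N] (H : Subgroup (N ≃ₐ[RatFunc k] N))
    (ev1 ev2 : integralClosure k[X] N →+* k)
    (hc1 : ∀ c : k, ev1 (algebraMap k[X] _ (C c)) = c) (hc2 : ∀ c : k, ev2 (algebraMap k[X] _ (C c)) = c)
    (hH : ∀ b : integralClosure k[X] N, (∀ ρ ∈ H, gB ρ b = b) → ev1 b = ev2 b) :
    ∃ ρ ∈ H, ∀ b, ev2 b = ev1 (gB ρ b) := by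
  classical
  haveI : Fintype (N ≃ₐ[RatFunc k] N) := inferInstance
  let S : Finset (N ≃ₐ[RatFunc k] N) := Finset.univ.filter fun ρ => ρ ∈ H
  let J : (N ≃ₐ[RatFunc k] N) → Ideal (integralClosure k[X] N) := fun ρ =>
    RingHom.ker (ev1.comp (gB ρ : integralClosure k[X] N →+* integralClosure k[X] N))
  have hJp : ∀ ρ, (J ρ).IsPrime := fun ρ => RingHom.ker_isPrime _
  have hmem : ∀ ρ, ρ ∈ S ↔ ρ ∈ H := by
    intro ρ
    simp [S]
  by_cases hsub : ((RingHom.ker ev2 : Ideal (integralClosure k[X] N)) : Set (integralClosure k[X] N)) ⊆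
      ⋃ ρ ∈ (↑S : Set (N ≃ₐ[RatFunc k] N)), (J ρ : Set (integralClosure k[X] N))
  · obtain ⟨ρ, hρ, hle⟩ := (Ideal.subset_union_prime (1 : N ≃ₐ[RatFunc k] N) 1
      (fun ρ _ _ _ => hJp ρ)).1 hsub
    refine ⟨ρ, (hmem ρ).1 hρ, fun b => ?_⟩
    have h1 : b - algebraMap k[X] _ (C (ev2 b)) ∈ RingHom.ker ev2 := by
      rw [RingHom.mem_ker, map_sub, hc2, sub_self]
    have h2 := hle h1
    have h3 : ev1 (gB ρ (b - algebraMap k[X] _ (C (ev2 b)))) = 0 := h2
    rw [map_sub, map_sub, AlgEquiv.commutes, hc1, sub_eq_zero] at h3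
    exact h3.symm
  · exfalso
    rw [Set.not_subset] at hsub
    obtain ⟨b, hb1, hb2⟩ := hsub
    simp only [Set.mem_iUnion, not_exists] at hb2
    have hb1' : ev2 b = 0 := hb1
    set β : integralClosure k[X] N := ∏ ρ ∈ S, gB ρ b with hβ
    have hinv : ∀ σ ∈ H, gB σ β = β := by
      intro σ hσ
      rw [hβ, map_prod]
      refine Finset.prod_bij' (fun ρ _ => σ * ρ) (fun ρ _ => σ⁻¹ * ρ) ?_ ?_ ?_ ?_ ?_
      · intro ρ hρ
        rw [hmem] at hρ ⊢
        exact H.mul_mem hσ hρ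
      · intro ρ hρ
        rw [hmem] at hρ ⊢
        exact H.mul_mem (H.inv_mem hσ) hρ
      · intro ρ _
        rw [inv_mul_cancel_left]
      · intro ρ _
        rw [mul_inv_cancel_left]
      · intro ρ _
        rfl
    have h1 := hH β hinv
    have h2 : ev2 β = 0 := by
      rw [hβ, map_prod]
      refine Finset.prod_eq_zero (i := 1) ((hmem 1).2 H.one_mem) ?_
      rw [gB_one]
      exact hb1'
    have h3 : ev1 β ≠ 0 := by
      rw [hβ, map_prod, Finset.prod_ne_zero_iff]
      intro ρ hρ h4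
      exact hb2 ρ (by exact hρ) h4
    exact h3 (h1.trans h2)

end

end Pool.Agent.H470
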