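import Pool.Agent.H470.W19

/-!
# The sign relation between a wild and a tame cluster, and the choice of Frobenius lifts
-/

set_option autoImplicit false
set_option linter.all false

open Polynomial

namespace Pool.Agent.H470

theorem pm_one {k : Type} [Field k] {s : k} (h : s ^ 2 = 1) : s = 1 ∨ s = -1 := by
  have h6 : (s - 1) * (s + 1) = 0 := by linear_combination h
  rcases mul_eq_zero.1 h6 with h7 | h7
  · left; linear_combination h7
  · right; linear_combination h7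

theorem two_ne {k : Type} [Field k] (p : ℕ) [Fact p.Prime] [CharP k p] (hp : p ≠ 2) : (2 : k) ≠ 0 := by
  intro h
  have h1 : ((2 : ℕ) : k) = 0 := by exact_mod_cast h
  rw [CharP.cast_eq_zero_iff k p] at h1
  exact hp ((Nat.prime_dvd_prime_iff_eq Fact.out Nat.prime_two).1 h1)

theorem pl_facts (p l : ℕ) [Fact p.Prime] (hp : p ≠ 2) (hl : 0 < l) :
    3 ≤ p ^ l ∧ p ^ l - 1 = 2 * ((p ^ l - 1) / 2) ∧ p ^ l + 1 = 2 * ((p ^ l + 1) / 2) := by
  have hpp : p.Prime := Fact.out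
  have hp3 : 3 ≤ p := by
    rcases hpp.two_le.lt_or_eq with h | h
    · exact h
    · exact absurd h.symm hp
  have hP3 : 3 ≤ p ^ l := hp3.trans (Nat.le_self_pow hl.ne' p)
  have hPodd : Odd (p ^ l) := (hpp.odd_of_ne_two hp).pow
  obtain ⟨t, ht⟩ := hPodd
  refine ⟨hP3, ?_, ?_⟩ <;> omega

/-- a non-trivial root of unity from a solution of `x ^ P = - x` -/
theorem exists_zeta {F : Type} [Field F] (p l : ℕ) [Fact p.Prime] [CharP F p] (hp : p ≠ 2) (x0 : F)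
    (hx0 : x0 ≠ 0) (h : x0 ^ p ^ l = -x0) : ∃ ζ : F, ζ ^ (p ^ l + 1) = 1 ∧ ζ ≠ 1 ∧ ζ ≠ -1 := by
  have h2 := two_ne (k := F) p hp
  have h1 : 1 + x0 ≠ 0 := by
    intro h1
    have h3 : x0 = -1 := by linear_combination h1
    have hodd : Odd (p ^ l) := ((Fact.out : p.Prime).odd_of_ne_two hp).pow
    rw [h3, hodd.neg_one_pow] at h
    apply h2
    linear_combination -h
  have h1' : 1 - x0 ≠ 0 := by
    intro h1
    have h3 : x0 = 1 := by linear_combination -h1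
    rw [h3, one_pow] at h
    apply h2
    linear_combination h
  refine ⟨(1 - x0) / (1 + x0), ?_, ?_, ?_⟩
  · rw [pow_succ, div_pow, sub_pow_char_pow, add_pow_char_pow, one_pow, h]
    have h1'' : 1 + -x0 ≠ 0 := by rw [← sub_eq_add_neg]; exact h1'
    field_simp
    ring
  · intro h3
    rw [div_eq_iff h1] at h3
    apply mul_ne_zero h2 hx0
    linear_combination -h3
  · intro h3
    rw [div_eq_iff h1] at h3
    apply h2
    linear_combination h3

theorem exists_omega (F k : Type) [Field F] [Fintype F] [DecidableEq F] [Field k] [IsAlgClosed k] [Algebra F k]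
    (p l : ℕ) [Fact p.Prime] [CharP F p] [CharP k p] (hp : p ≠ 2) (hl : 0 < l) (χ : k)
    (hχ : χ = 1 ∨ χ = -1) (ζ0 : F) (h0 : ζ0 ^ (p ^ l + 1) = 1) (h1 : ζ0 ≠ 1) (h2 : ζ0 ≠ -1) :
    ∃ ω : k, ω ^ (p ^ l + 1) = 1 ∧ ω ^ ((p ^ l + 1) / 2) = -χ ∧
      ∀ ζ : k, ζ ^ (p ^ l + 1) = 1 → fr F k ζ * ω ≠ ζ := by
  obtain ⟨hP3, -, hH⟩ := pl_facts p l hp hl
  have h2k := two_ne (k := k) p hp
  obtain ⟨H, hHdef⟩ : ∃ H, H = (p ^ l + 1) / 2 := ⟨_, rfl⟩
  rw [← hHdef] at hH ⊢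
  rcases hχ with hχ | hχ
  · obtain ⟨ω, hω⟩ := IsAlgClosed.exists_pow_nat_eq (-1 : k) (by omega : 0 < H)
    refine ⟨ω, by rw [hH, mul_comm, pow_mul, hω]; ring, by rw [hω, hχ], ?_⟩
    intro ζ hζ h
    set s := ζ ^ H with hs
    have hs2 : s ^ 2 = 1 := by rw [hs, ← pow_mul, mul_comm, ← hH, hζ]
    have h3 : fr F k s * -1 = s := by
      rw [hs, map_pow, ← hω, ← mul_pow, h]
    have h4 : fr F k s = s := by
      rcases pm_one hs2 with h5 | h5
      · rw [h5, map_one]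
      · rw [h5, map_neg, map_one]
    rw [h4] at h3
    have h5 : (2 : k) * s = 0 := by linear_combination -h3
    rcases mul_eq_zero.1 h5 with h6 | h6
    · exact h2k h6
    · rw [h6] at hs2
      norm_num at hs2
  · have hHk : (H : k) ≠ 0 := by
      intro h
      have h3 : ((p ^ l + 1 : ℕ) : k) = 2 * (H : k) := by rw [hH]; push_cast; ring
      push_cast at h3
      rw [CharP.cast_eq_zero, zero_pow hl.ne', h] at h3
      simp at h3
    haveI : NeZero (H : k) := ⟨hHk⟩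
    obtain ⟨ω, hω⟩ := HasEnoughRootsOfUnity.exists_primitiveRoot k H
    refine ⟨ω, by rw [hH, mul_comm, pow_mul, hω.pow_eq_one, one_pow], by rw [hω.pow_eq_one, hχ]; ring, ?_⟩
    intro ζ hζ h
    have hζ00 : ζ0 ≠ 0 := by
      rintro rfl
      rw [zero_pow (by omega)] at h0
      exact zero_ne_one h0
    obtain ⟨o, ho⟩ : ∃ o, o = orderOf ζ0 := ⟨_, rfl⟩
    have ho1 : o ∣ 2 * H := by rw [← hH, ho]; exact orderOf_dvd_of_pow_eq_one h0
    have ho2 : o ∣ Fintype.card F - 1 := by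
      rw [ho]
      exact orderOf_dvd_of_pow_eq_one (FiniteField.pow_card_sub_one_eq_one _ hζ00)
    have ho3 : ¬ o ≤ 2 := by
      intro h3
      have h4 : o ≠ 0 := by
        intro h4
        rw [h4, zero_dvd_iff] at ho1
        omega
      have h5 : ζ0 ^ 2 = 1 := by
        have h6 : o ∣ 2 := by
          have : o = 1 ∨ o = 2 := by omega
          rcases this with h7 | h7 <;> rw [h7] <;> norm_num
        rw [ho] at h6
        exact orderOf_dvd_iff_pow_eq_one.1 h6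
      rcases pm_one h5 with h6 | h6
      · exact h1 h6
      · exact h2 h6
    obtain ⟨t, ht⟩ := ho1
    obtain ⟨u, hu⟩ := ho2
    have hζ0' : ζ ≠ 0 := by
      rintro rfl
      rw [zero_pow (by omega)] at hζ
      exact zero_ne_one hζ
    have hfr : fr F k ζ = ζ ^ (Fintype.card F - 1) * ζ := by
      show ζ ^ Nat.card F = _
      rw [Nat.card_eq_fintype_card, ← pow_succ, Nat.sub_add_cancel Fintype.card_pos]
    have h4 : ω ^ t = 1 := by
      have h5 : (ζ ^ (Fintype.card F - 1)) * ω = 1 := by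
        apply mul_right_cancel₀ hζ0'
        rw [one_mul]
        rw [hfr] at h
        linear_combination h
      have h6 : ((ζ ^ (Fintype.card F - 1)) * ω) ^ t = 1 ^ t := by rw [h5]
      rw [one_pow, mul_pow, ← pow_mul, hu, show o * u * t = (o * t) * u by ring, ← ht, ← hH, pow_mul, hζ,
        one_pow, one_mul] at h6
      exact h6
    have h5 := (hω.pow_eq_one_iff_dvd t).1 h4
    obtain ⟨w, hw⟩ := h5
    have hHpos : 0 < H := by omega
    rw [hw] at ht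
    have h6 : o * w = 2 := by
      apply Nat.eq_of_mul_eq_mul_left hHpos
      linarith
    apply ho3
    exact Nat.le_of_dvd (by norm_num) ⟨w, h6.symm⟩

namespace Pl
section
variable {F k : Type} [Field F] [Fintype F] [DecidableEq F] [Field k] [IsAlgClosed k] [Algebra F k]
variable {N : Type} [Field N] [Algebra (RatFunc k) N] [Algebra k[X] N]
  [IsScalarTower k[X] (RatFunc k) N] {A B : F[X]} {v : F} {n : ℕ} (P : Pl F k N A B v n)

theorem sign_rel (p l : ℕ) [Fact p.Prime] [CharP k p] [CharP N p] (hp : p ≠ 2) (hl : 0 < l)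
    (hG : Good A B n) (c1 : F) (Q1 : F[X]) (hQ1 : A - C v * B = (X - C c1) ^ (p ^ l + 1) * Q1)
    (hQ1c : Q1.eval c1 ≠ 0) (c : F) (G : F[X])
    (hQ : A - C v * B = (X - C c) ^ p ^ l * G) (hQc : G.eval c ≠ 0)
    (hW : (derivative G * B - G * derivative B).eval c ≠ 0) (i1 : Fin n) (hi1 : P.r i1 = algebraMap F k c1)
    (i0 j0 : Fin n)
    (hi0 : P.r i0 = algebraMap F k c) (hj0 : P.r j0 = algebraMap F k c) (h0 : i0 ≠ j0) :
    ∃ χ : k, (χ = 1 ∨ χ = -1) ∧ ∀ ψ : N →+* N, P.Fb ψ → ∀ ε ω : k,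
      Rs P.ev (ψ ((P.y j0 : N) - P.y i0) / ((P.y j0 : N) - P.y i0)) ε →
      Rs P.ev (ψ (P.hh c1 i1) / P.hh c1 i1) ω → ω ≠ 0 →
      ε ^ ((p ^ l - 1) / 2) = χ * ω ^ ((p ^ l + 1) / 2) := by
  obtain ⟨hP3, hH1, hH⟩ := pl_facts p l hp hl
  have hB := P.B_ne hG c (root_of_fac c _ (by omega) G hQ)
  have hB1 := P.B_ne hG c1 (root_of_fac c1 _ (by omega) Q1 hQ1)
  obtain ⟨b0, hb0, hb0'⟩ := P.loc_unit hG c _ (by omega) G hQ hQc i0 hi0
  obtain ⟨b1, hb1, hb1'⟩ := P.loc_unit hG c1 _ (by omega) Q1 hQ1 hQ1c i1 hi1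
  have hh0 := P.hh_ne hG c _ (by omega) G hQ hQc i0 hi0
  have hh1 := P.hh_ne hG c1 _ (by omega) Q1 hQ1 hQ1c i1 hi1
  have hbase := P.wild_pair p l hG c G hQ hQc i0 j0 hi0 hj0 h0
  set δ0 : N := (P.y j0 : N) - P.y i0 with hδ0
  have hδ00 : δ0 ≠ 0 := by
    intro h
    apply h0
    apply P.injN
    show (P.y i0 : N) = P.y j0
    rw [hδ0] at h
    linear_combination -h
  set ν : F := -((derivative G * B - G * derivative B).eval c) / (G.eval c * B.eval c) with hν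
  have hν0 : ν ≠ 0 := div_ne_zero (neg_ne_zero.2 hW) (mul_ne_zero hQc hB)
  have n1 : B.eval c1 / Q1.eval c1 ≠ 0 := div_ne_zero hB1 hQ1c
  have n0 : B.eval c / G.eval c ≠ 0 := div_ne_zero hB hQc
  have n1k := (map_ne_zero_iff (algebraMap F k) (algebraMap F k).injective).2 n1
  set θ : F := ν * ((B.eval c / G.eval c) / (B.eval c1 / Q1.eval c1)) with hθ
  have hθ0 : θ ≠ 0 := mul_ne_zero hν0 (div_ne_zero n0 n1)
  obtain ⟨H1, hH1d⟩ : ∃ H1, H1 = (p ^ l - 1) / 2 := ⟨_, rfl⟩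
  obtain ⟨H, hHd⟩ : ∃ H, H = (p ^ l + 1) / 2 := ⟨_, rfl⟩
  rw [← hH1d] at hH1 ⊢
  rw [← hHd] at hH ⊢
  set r : N := δ0 ^ H1 / P.hh c1 i1 ^ H with hr
  have hr0 : r ≠ 0 := div_ne_zero (pow_ne_zero _ hδ00) (pow_ne_zero _ hh1)
  have hr2 : Rs P.ev (r ^ 2) (algebraMap F k θ) := by
    have h3 := hbase.mul (hb0.div hb1 n1k)
    refine h3.congr ?_ ?_
    · have hT := P.tv_ne (F := F)
      have e1 : b1 ≠ 0 := hb1.ne_zero n1k
      rw [hr, div_pow, ← pow_mul, ← pow_mul, mul_comm H1, mul_comm H, ← hH1, ← hH, hb1', hb0']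
      have e2 : b0 ≠ 0 := by
        rintro rfl
        rw [mul_zero] at hb0'
        exact pow_ne_zero _ hh0 hb0'
      field_simp
    · rw [hθ, map_mul, map_div₀ (algebraMap F k) (B.eval c / G.eval c)]
  obtain ⟨ρ, hρ, hρ2⟩ := Rs.root (by norm_num) hr2
  have hρ0 : ρ ≠ 0 := by
    rintro rfl
    rw [zero_pow (by norm_num)] at hρ2
    exact (map_ne_zero_iff (algebraMap F k) (algebraMap F k).injective).2 hθ0 hρ2.symm
  refine ⟨fr F k ρ / ρ, ?_, ?_⟩
  · apply pm_one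
    rw [div_pow, ← map_pow, hρ2, P.fr_alg, div_self ((map_ne_zero_iff (algebraMap F k) (algebraMap F k).injective).2 hθ0)]
  · intro ψ hψ ε ω hε hω hω0
    have h3 := (hρ.map hψ.2).div hρ hρ0
    have h4 := (hε.pow H1).div (hω.pow H) (pow_ne_zero _ hω0)
    have hψ1 : ψ (P.hh c1 i1) ≠ 0 := (map_ne_zero_iff ψ ψ.injective).2 hh1
    have h5 : (ψ δ0 / δ0) ^ H1 / (ψ (P.hh c1 i1) / P.hh c1 i1) ^ H = ψ r / r := by
      rw [hr, map_div₀, map_pow, map_pow, div_pow, div_pow]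
      have hψ2 := pow_ne_zero H hψ1
      have hψ3 := pow_ne_zero H hh1
      have hψ4 := pow_ne_zero H1 hδ00
      field_simp
    rw [h5] at h4
    have h6 := h3.unique h4
    rw [h6, div_mul_cancel₀ _ (pow_ne_zero _ hω0)]

theorem choose_lift [FiniteDimensional (RatFunc k) N] [IsGalois (RatFunc k) N] (hG : Good A B n) (c : F)
    (M : ℕ) (hM0 : 0 < M) (hM : (M : F) ≠ 0) (Q : F[X])
    (hQ : A - C v * B = (X - C c) ^ M * Q) (hQc : Q.eval c ≠ 0) (i : Fin n)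
    (hi : P.r i = algebraMap F k c) (ω : k) (hω : ω ^ M = 1) :
    ∃ ψ : N →+* N, P.Fb ψ ∧ Rs P.ev (ψ (P.hh c i) / P.hh c i) ω := by
  obtain ⟨j, h1, h2⟩ := P.tame_surj hG c M hM0 hM Q hQ hQc i hi ω hω
  obtain ⟨ρ, h3, h4, h5⟩ := P.adj hG P.ψ P.fb i j (by rw [h1, hi, P.fr_alg])
  refine ⟨_, h4, ?_⟩
  rw [P.ψ_hh _ h4 c i j h5]
  exact h2

theorem active_rel (hG : Good A B n) (c : F)
    (M : ℕ) (hM0 : 0 < M) (hM : (M : F) ≠ 0) (Q : F[X])
    (hQ : A - C v * B = (X - C c) ^ M * Q) (hQc : Q.eval c ≠ 0) (i j : Fin n)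
    (hi : P.r i = algebraMap F k c) (hj : P.r j = algebraMap F k c) (ψ : N →+* N) (hψ : P.Fb ψ) (ω : k)
    (hω : Rs P.ev (ψ (P.hh c i) / P.hh c i) ω) (hfix : ψ (P.y j) = P.y j) :
    ∃ ζ : k, ζ ^ M = 1 ∧ fr F k ζ * ω = ζ := by
  obtain ⟨hi0, ζ, h1, h2, -⟩ := P.tame_ratio hG c M hM0 hM Q hQ hQc i j hi hj
  refine ⟨ζ, h2, ?_⟩
  have h3 := (h1.map hψ.2).mul hω
  have h4 : ψ (P.hh c j / P.hh c i) * (ψ (P.hh c i) / P.hh c i) = P.hh c j / P.hh c i := by
    rw [map_div₀, P.ψ_hh ψ hψ c j j hfix]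
    have : ψ (P.hh c i) ≠ 0 := (map_ne_zero_iff ψ ψ.injective).2 hi0
    field_simp
  rw [h4] at h3
  exact h3.unique h1

/-- existence of the residue `ε` for a pair of distinct roots of a wild cluster -/
theorem exists_eps (p l : ℕ) [Fact p.Prime] [CharP k p] [CharP N p] (hp : p ≠ 2) (hl : 0 < l)
    (hG : Good A B n) (c : F) (G : F[X])
    (hQ : A - C v * B = (X - C c) ^ p ^ l * G) (hQc : G.eval c ≠ 0)
    (hW : (derivative G * B - G * derivative B).eval c ≠ 0)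
    (i0 j0 : Fin n)
    (hi0 : P.r i0 = algebraMap F k c) (hj0 : P.r j0 = algebraMap F k c) (h0 : i0 ≠ j0)
    (ψ : N →+* N) (hψ : P.Fb ψ) :
    ∃ ε : k, Rs P.ev (ψ ((P.y j0 : N) - P.y i0) / ((P.y j0 : N) - P.y i0)) ε := by
  obtain ⟨hP3, hH1, hH⟩ := pl_facts p l hp hl
  have hB := P.B_ne hG c (root_of_fac c _ (by omega) G hQ)
  obtain ⟨σ, hσ⟩ := P.exists_σ hG ψ hψ.1
  have hσi : P.r (σ i0) = algebraMap F k c := by rw [P.res_fr ψ hψ i0 (σ i0) (hσ i0), hi0, P.fr_alg]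
  have hσj : P.r (σ j0) = algebraMap F k c := by rw [P.res_fr ψ hψ j0 (σ j0) (hσ j0), hj0, P.fr_alg]
  have hne : σ i0 ≠ σ j0 := fun h => h0 (σ.injective h)
  have h1 := P.wild_pair p l hG c G hQ hQc (σ i0) (σ j0) hσi hσj hne
  have h2 := P.wild_pair p l hG c G hQ hQc i0 j0 hi0 hj0 h0
  have h3 := (P.wild_hh p l hG c G hQ hQc i0 (σ i0) hi0 hσi).pow (p ^ l)
  have hν0 : algebraMap F k (-((derivative G * B - G * derivative B).eval c) / (G.eval c * B.eval c)) ≠ 0 :=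
    (map_ne_zero_iff (algebraMap F k) (algebraMap F k).injective).2
    (div_ne_zero (neg_ne_zero.2 hW) (mul_ne_zero hQc hB))
  have h4 := (h1.mul h3).div h2 hν0
  have hhi := P.hh_ne hG c _ (by omega) G hQ hQc i0 hi0
  have hhσ := P.hh_ne hG c _ (by omega) G hQ hQc (σ i0) hσi
  have hδ00 : (P.y j0 : N) - P.y i0 ≠ 0 := by
    intro h
    apply h0
    apply P.injN
    show (P.y i0 : N) = P.y j0
    linear_combination -h
  have h5 : ((P.y (σ j0) : N) - P.y (σ i0)) ^ (p ^ l - 1) / P.hh c (σ i0) ^ p ^ l *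
      (P.hh c (σ i0) / P.hh c i0) ^ p ^ l / (((P.y j0 : N) - P.y i0) ^ (p ^ l - 1) / P.hh c i0 ^ p ^ l) =
      (ψ ((P.y j0 : N) - P.y i0) / ((P.y j0 : N) - P.y i0)) ^ (p ^ l - 1) := by
    rw [map_sub, hσ, hσ, div_pow, div_pow]
    have e2 := pow_ne_zero (p ^ l) hhi
    have e3 := pow_ne_zero (p ^ l) hhσ
    have e4 := pow_ne_zero (p ^ l - 1) hδ00
    field_simp
  obtain ⟨ε, h6, -⟩ := Rs.root (by omega) (h4.congr h5 rfl)
  exact ⟨ε, h6⟩

end
end Pl
end Pool.Agent.H470
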