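import Pool.Agent.H470.W20

/-!
# No wild rational points above the centre when `x ^ P = - x` has a non-trivial solution
-/

set_option autoImplicit false
set_option linter.all false

open Polynomial

namespace Pool.Agent.H470

namespace Pl
section
variable {F k : Type} [Field F] [Fintype F] [DecidableEq F] [Field k] [IsAlgClosed k] [Algebra F k]
variable {N : Type} [Field N] [Algebra (RatFunc k) N] [Algebra k[X] N]
  [IsScalarTower k[X] (RatFunc k) N]

theorem pA_sym (e d : ℕ) (z : N) : ((pA F e d).map (algebraMap F k)).eval₂ (cN k N) (1 - z) =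
    ((pA F e d).map (algebraMap F k)).eval₂ (cN k N) z := by
  unfold pA dP
  simp only [Polynomial.map_mul, Polynomial.map_pow, Polynomial.map_add, Polynomial.map_sub,
    Polynomial.map_one, map_X, map_C, eval₂_mul, eval₂_pow, eval₂_add, eval₂_sub, eval₂_one, eval₂_X,
    eval₂_C, sub_sub_cancel]
  rw [add_comm ((1 - z) ^ e)]

theorem pB_sym (e d : ℕ) (z : N) : ((pB F e d).map (algebraMap F k)).eval₂ (cN k N) (1 - z) =
    ((pB F e d).map (algebraMap F k)).eval₂ (cN k N) z := by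
  unfold pB dP
  simp only [Polynomial.map_mul, Polynomial.map_pow, Polynomial.map_add, Polynomial.map_sub,
    Polynomial.map_one, map_X, map_C, eval₂_mul, eval₂_pow, eval₂_add, eval₂_sub, eval₂_one, eval₂_X,
    eval₂_C, sub_sub_cancel]
  rw [add_comm ((1 - z) ^ d)]

/-- the reflection of the roots -/
theorem refl_idx {e d : ℕ} {v : F} {n : ℕ} (P : Pl F k N (pA F e d) (pB F e d) v n)
    (hG : Good (pA F e d) (pB F e d) n) (j : Fin n) : ∃ j', (P.y j' : N) = 1 - P.y j := by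
  apply P.root_idx hG
  rw [aeval_gAB, pA_sym, pB_sym, ← aeval_gAB]
  exact P.root j

/-- the fixed roots with a given residue -/
noncomputable def fc' {A B : F[X]} {v : F} {n : ℕ} (P : Pl F k N A B v n) (ψ : N →+* N) (x : F) : ℕ :=
  {j | P.r j = algebraMap F k x ∧ ψ (P.y j) = P.y j}.ncard

theorem refl_fix {e d : ℕ} {v : F} {n : ℕ} (P : Pl F k N (pA F e d) (pB F e d) v n)
    (hG : Good (pA F e d) (pB F e d) n) (ψ : N →+* N) (x : F) (j : Fin n)
    (h : P.r j = algebraMap F k x ∧ ψ (P.y j) = P.y j) :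
    ∃ j', P.r j' = algebraMap F k (1 - x) ∧ ψ (P.y j') = P.y j' := by
  obtain ⟨j', hj'⟩ := P.refl_idx hG j
  refine ⟨j', ?_, ?_⟩
  · have h1 := (Rs.one (ev := P.ev)).sub (P.rs j)
    rw [← hj'] at h1
    rw [(P.rs j').unique h1, h.1, map_sub, map_one]
  · rw [hj', map_sub, map_one, h.2]

end
end Pl

namespace Wctx
variable {F : Type} [Field F] [Fintype F] [DecidableEq F] {p l m e d a : ℕ} [Fact p.Prime] [CharP F p] {v0 : F}

theorem root_fpr (h : Wctx F p l m e d a v0) (x : F) :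
    (pA F e d - C v0 * pB F e d).eval x = 0 ↔ fpr e d x = v0 := by
  rw [fpr_iff e d h.hd h.hcd, pAB, eval_mul, eval_C, mul_eq_zero]
  constructor
  · intro h1
    exact h1.resolve_left (inv_ne_zero (pow_ne_zero _ h.heF))
  · intro h1
    exact Or.inr h1

theorem wild_fac (h : Wctx F p l m e d a v0) (c : F) (hc : fpr e d c = v0) (hcP : c ^ p ^ l ≠ c) :
    ∃ G : F[X], pA F e d - C v0 * pB F e d = (X - C c) ^ p ^ l * G ∧ G.eval c ≠ 0 ∧
      (derivative G * pB F e d - G * derivative (pB F e d)).eval c ≠ 0 := by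
  obtain ⟨hc0, hc1, hcm⟩ := h.pts c hc
  obtain ⟨G, h1, h2, h3⟩ := loc_x p l m e d h.hp h.he h.hd h.hl h.hem h.hm0 h.heF h.hdF h.hmF h.hce h.hcd c
    hc0 hc1 hcm
  rw [hc] at h1
  exact ⟨G, h1, fun h4 => hcP (h3.1 h4), h2⟩

theorem castP (h : Wctx F p l m e d a v0) : ((p ^ l + 1 : ℕ) : F) ≠ 0 := by
  push_cast
  rw [CharP.cast_eq_zero, zero_pow h.hl.ne', zero_add]
  exact one_ne_zero

theorem half_P (h : Wctx F p l m e d a v0) : (2⁻¹ : F) ^ p ^ l = 2⁻¹ := by
  rw [inv_pow]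
  have := nat_pow_char (k := F) p l 2
  push_cast at this
  rw [this]

theorem dich_x (h : Wctx F p l m e d a v0) {k : Type} [Field k] [IsAlgClosed k] [Algebra F k]
    [Algebra.IsAlgebraic F k]
    {N : Type} [Field N] [Algebra (RatFunc k) N] [Algebra k[X] N] [IsScalarTower k[X] (RatFunc k) N]
    [IsGalois (RatFunc k) N] [FiniteDimensional (RatFunc k) N]
    (P : Pl F k N (pA F e d) (pB F e d) v0 ((e - 1) * d)) (ψ : N →+* N) (hψ : P.Fb ψ) (j)
    (hj : ψ (P.y j) = P.y j) : P.fx ψ = a := by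
  have hnpos := h.pos
  have h1 := P.fx_pos ψ j hj
  rcases P.fix_dich h.gx h.pos h.hq {v0} (by rw [Finset.card_singleton]; omega) a h.bad_x ψ hψ with h6 | h6
  · omega
  · exact h6

/-- the average over the stabilizer of a tame root -/
theorem avg_D1 (h : Wctx F p l m e d a v0) {k : Type} [Field k] [IsAlgClosed k] [Algebra F k]
    [Algebra.IsAlgebraic F k]
    {N : Type} [Field N] [Algebra (RatFunc k) N] [Algebra k[X] N] [IsScalarTower k[X] (RatFunc k) N]
    [IsGalois (RatFunc k) N] [FiniteDimensional (RatFunc k) N]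
    (P : Pl F k N (pA F e d) (pB F e d) v0 ((e - 1) * d)) (i1 : Fin ((e - 1) * d))
    (hi1 : P.r i1 = algebraMap F k 2⁻¹) (ψ : N →+* N) (hψ : P.Fb ψ)
    (hall : ∀ ρ ∈ P.D1 i1, P.fx ((ρ : N →+* N).comp ψ) = a) :
    a = (∑ x ∈ Finset.univ.filter (fun x : F => fpr e d x = v0 ∧ x ^ p ^ l = x), P.fc' ψ x) +
      (Finset.univ.filter fun x : F => fpr e d x = v0 ∧ ¬ x ^ p ^ l = x).card := by
  classical
  haveI : Fintype (N ≃ₐ[RatFunc k] N) := Fintype.ofFinite _
  set H := P.D1 i1 with hH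
  have hHle : H ≤ P.Dg := inf_le_left
  set S := Finset.univ.filter (fun ρ : N ≃ₐ[RatFunc k] N => ρ ∈ H) with hS
  set Z := Finset.univ.filter (fun x : F => fpr e d x = v0) with hZ
  have hSpos : 0 < S.card := Finset.card_pos.2 ⟨1, by rw [hS, Finset.mem_filter]; exact ⟨Finset.mem_univ _, H.one_mem⟩⟩
  obtain ⟨Q1, hQ1, hQ1c⟩ := h.tame_fac 2⁻¹ h.hv0.symm h.half_P
  have h1 : ∀ ρ ∈ S, a = ∑ x ∈ Z, ((P.cl (algebraMap F k x)).filter fun j => ρ (ψ (P.y j)) = P.y j).card := by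
    intro ρ hρ
    rw [hS, Finset.mem_filter] at hρ
    have hfb := P.fb_left ρ (hHle hρ.2) ψ hψ
    rw [← hall ρ hρ.2]
    unfold Pl.fx
    have h2 : {j | ((ρ : N →+* N).comp ψ) (P.y j) = P.y j}.ncard =
        (Finset.univ.filter fun j => ρ (ψ (P.y j)) = P.y j).card := by
      rw [← Set.ncard_coe_finset]
      congr 1
      ext j
      simp
    rw [h2]
    have h3 : (Finset.univ.filter fun j => ρ (ψ (P.y j)) = P.y j) =
        Z.biUnion fun x => (P.cl (algebraMap F k x)).filter fun j => ρ (ψ (P.y j)) = P.y j := by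
      ext j
      simp only [Finset.mem_filter, Finset.mem_univ, true_and, Finset.mem_biUnion]
      constructor
      · intro h4
        obtain ⟨x, hx, hx'⟩ := P.fixed_res _ hfb j h4
        exact ⟨x, by rw [hZ, Finset.mem_filter]; exact ⟨Finset.mem_univ _, (h.root_fpr x).1 hx⟩,
          (P.mem_cl _ _).2 hx', h4⟩
      · rintro ⟨x, -, -, h4⟩
        exact h4
    rw [h3, Finset.card_biUnion]
    intro x _ x' _ hne
    rw [Function.onFun, Finset.disjoint_left]
    intro j hj hj'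
    rw [Finset.mem_filter, P.mem_cl] at hj hj'
    exact hne ((algebraMap F k).injective (hj.1.symm.trans hj'.1))
  have ht : ∀ x : F, fpr e d x = v0 → x ^ p ^ l = x →
      ∑ ρ ∈ S, ((P.cl (algebraMap F k x)).filter fun j => ρ (ψ (P.y j)) = P.y j).card =
        S.card * P.fc' ψ x := by
    intro x hx hxP
    obtain ⟨Q, hQ, hQc⟩ := h.tame_fac x hx hxP
    have e0 : S.card * P.fc' ψ x = ∑ ρ ∈ S, P.fc' ψ x := by rw [Finset.sum_const, smul_eq_mul]
    rw [e0]
    refine Finset.sum_congr rfl fun ρ hρ => ?_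
    rw [hS, Finset.mem_filter] at hρ
    unfold Pl.fc'
    rw [← Set.ncard_coe_finset]
    congr 1
    ext j
    rw [Finset.mem_coe, Finset.mem_filter, P.mem_cl]
    constructor
    · rintro ⟨h4, h5⟩
      refine ⟨h4, ?_⟩
      obtain ⟨σ, hσ⟩ := P.exists_σ h.gx ψ hψ.1
      have h6 : P.r (σ j) = algebraMap F k x := by rw [P.res_fr ψ hψ j (σ j) (hσ j), h4, P.fr_alg]
      have h7 := P.tame_rigid h.gx 2⁻¹ x (p ^ l + 1) (by omega) h.castP Q1 Q hQ1 hQ1c hQ hQc i1 (σ j) hi1 h6 ρ hρ.2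
      rw [← hσ] at h7
      rw [← h7, h5]
    · rintro ⟨h4, h5⟩
      refine ⟨h4, ?_⟩
      rw [h5]
      exact P.tame_rigid h.gx 2⁻¹ x (p ^ l + 1) (by omega) h.castP Q1 Q hQ1 hQ1c hQ hQc i1 j hi1 h4 ρ hρ.2
  have hw : ∀ x : F, fpr e d x = v0 → ¬ x ^ p ^ l = x →
      ∑ ρ ∈ S, ((P.cl (algebraMap F k x)).filter fun j => ρ (ψ (P.y j)) = P.y j).card = S.card := by
    intro x hx hxP
    obtain ⟨G, hQ, hQc, hW⟩ := h.wild_fac x hx hxP
    have hcard := P.card_cl' h.gx x (p ^ l) G hQ hQc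
    have hcard1 := P.card_cl' h.gx 2⁻¹ (p ^ l + 1) Q1 hQ1 hQ1c
    refine P.burn_cl h.gx H hHle _ (P.fr_alg x) (P.cl_nonempty h.gx x ((h.root_fpr x).2 hx)) ?_ ψ hψ
    intro i hi j hj
    rw [P.mem_cl] at hi hj
    obtain ⟨ρ, h4, h5, h6⟩ := P.trans_stab h.gx i1 i j (hi.trans hj.symm) (by
      rw [hi1, hi, hcard, hcard1]
      exact (Nat.coprime_self_add_left.2 (Nat.coprime_one_left _)).symm.symm)
    exact ⟨ρ, (P.mem_D1 i1 ρ).2 ⟨h4, h5⟩, h6⟩
  have h2 : S.card * a = S.card * ((∑ x ∈ Finset.univ.filter (fun x : F => fpr e d x = v0 ∧ x ^ p ^ l = x), P.fc' ψ x) +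
      (Finset.univ.filter fun x : F => fpr e d x = v0 ∧ ¬ x ^ p ^ l = x).card) := by
    have e1 : S.card * a = ∑ ρ ∈ S, ∑ x ∈ Z, ((P.cl (algebraMap F k x)).filter fun j => ρ (ψ (P.y j)) = P.y j).card := by
      rw [← smul_eq_mul, ← Finset.sum_const]
      exact Finset.sum_congr rfl h1
    rw [e1, Finset.sum_comm, ← Finset.sum_filter_add_sum_filter_not Z (fun x => x ^ p ^ l = x), mul_add,
      Finset.mul_sum, hZ, Finset.filter_filter, Finset.filter_filter]
    congr 1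
    · refine Finset.sum_congr rfl fun x hx => ?_
      rw [Finset.mem_filter] at hx
      exact ht x hx.2.1 hx.2.2
    · have e2 : S.card * (Finset.univ.filter fun x : F => fpr e d x = v0 ∧ ¬ x ^ p ^ l = x).card =
          ∑ x ∈ Finset.univ.filter (fun x : F => fpr e d x = v0 ∧ ¬ x ^ p ^ l = x), S.card := by
        rw [Finset.sum_const, smul_eq_mul, mul_comm]
      rw [e2]
      refine Finset.sum_congr rfl fun x hx => ?_
      rw [Finset.mem_filter] at hx
      exact hw x hx.2.1 hx.2.2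
  exact Nat.eq_of_mul_eq_mul_left hSpos h2

end Wctx
end Pool.Agent.H470
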