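import Pool.Agent.H470.W2

/-!
# Conjugate roots, and transitivity of the decomposition group on the roots with a given residue
-/

set_option autoImplicit false
set_option linter.all false

open Polynomial

namespace Pool.Agent.H470

theorem gAB_map {F k : Type} [Field F] [Field k] [Algebra F k] (A B : F[X]) :
    (gAB A B).map (mapRingHom (algebraMap F k)) = gAB (A.map (algebraMap F k)) (B.map (algebraMap F k)) := by
  unfold gAB
  have hc : (mapRingHom (algebraMap F k)).comp (C : F →+* F[X]) =
      (C : k →+* k[X]).comp (algebraMap F k) := by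
    ext a
    simp
  rw [Polynomial.map_sub, Polynomial.map_mul, map_C, Polynomial.map_map, Polynomial.map_map, hc,
    ← Polynomial.map_map, ← Polynomial.map_map, coe_mapRingHom, map_X]

section
variable {k : Type} [Field k]

theorem gAB_irreducible (A B : k[X]) (hcop : IsCoprime A B) (hB : B ≠ 0) : Irreducible (gAB A B) := by
  have h1 : gAB A B = Bivariate.swap (C (-B) * X + C A) := by
    unfold gAB
    rw [map_add, map_mul, Bivariate.swap_C, Bivariate.swap_C, Bivariate.swap_Y, Polynomial.map_neg]
    ring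
  rw [h1, MulEquiv.irreducible_iff]
  apply irreducible_C_mul_X_add_C (neg_ne_zero.2 hB)
  exact (IsCoprime.neg_left_iff _ _).2 hcop.symm |>.isRelPrime

variable {N : Type} [Field N] [Algebra (RatFunc k) N] [Algebra k[X] N]
  [IsScalarTower k[X] (RatFunc k) N]

theorem conj_roots [IsGalois (RatFunc k) N] (A B : k[X]) (hcop : IsCoprime A B) (hB : B ≠ 0) (hA : A.Monic)
    (hlt : B.degree < A.degree) (y y' : N) (hy : aeval y (gAB A B) = 0) (hy' : aeval y' (gAB A B) = 0) :
    ∃ ρ : N ≃ₐ[RatFunc k] N, ρ y = y' := by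
  have hm := gAB_monic A B hA hlt
  have hirr := (Monic.irreducible_iff_irreducible_map_fraction_map (K := RatFunc k) hm).1
    (gAB_irreducible A B hcop hB)
  have h1 : minpoly (RatFunc k) y = (gAB A B).map (algebraMap k[X] (RatFunc k)) := by
    symm
    apply minpoly.eq_of_irreducible_of_monic hirr
    · rw [aeval_map_algebraMap]
      exact hy
    · exact hm.map _
  have h2 : minpoly (RatFunc k) y' = (gAB A B).map (algebraMap k[X] (RatFunc k)) := by
    symm
    apply minpoly.eq_of_irreducible_of_monic hirr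
    · rw [aeval_map_algebraMap]
      exact hy'
    · exact hm.map _
  have h3 : IsConjRoot (RatFunc k) y' y := by
    unfold IsConjRoot
    rw [h1, h2]
  exact (isConjRoot_iff_exists_algEquiv).1 h3

/-- the constants -/
noncomputable def cN (k : Type) [Field k] (N : Type) [Field N] [Algebra k[X] N] : k →+* N :=
  (algebraMap k[X] N).comp (C : k →+* k[X])

theorem aeval_gAB (A B : k[X]) (y : N) :
    aeval y (gAB A B) = A.eval₂ (cN k N) y - algebraMap k[X] N X * B.eval₂ (cN k N) y := by
  unfold gAB
  rw [map_sub, map_mul, aeval_C, aeval_def, aeval_def, eval₂_map, eval₂_map]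
  rfl

/-- the rational functions of `y` -/
def Ratl (y x : N) : Prop :=
  ∃ P1 P2 : k[X], P2.eval₂ (cN k N) y ≠ 0 ∧ x * P2.eval₂ (cN k N) y = P1.eval₂ (cN k N) y

theorem Ratl.add {y x x' : N} (h : Ratl (k := k) y x) (h' : Ratl (k := k) y x') :
    Ratl (k := k) y (x + x') := by
  obtain ⟨P1, P2, h1, h2⟩ := h
  obtain ⟨Q1, Q2, h1', h2'⟩ := h'
  refine ⟨P1 * Q2 + Q1 * P2, P2 * Q2, ?_, ?_⟩
  · rw [eval₂_mul]
    exact mul_ne_zero h1 h1'
  · rw [eval₂_mul, eval₂_add, eval₂_mul, eval₂_mul, ← h2, ← h2']
    ring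

theorem Ratl.mul {y x x' : N} (h : Ratl (k := k) y x) (h' : Ratl (k := k) y x') :
    Ratl (k := k) y (x * x') := by
  obtain ⟨P1, P2, h1, h2⟩ := h
  obtain ⟨Q1, Q2, h1', h2'⟩ := h'
  refine ⟨P1 * Q1, P2 * Q2, ?_, ?_⟩
  · rw [eval₂_mul]
    exact mul_ne_zero h1 h1'
  · rw [eval₂_mul, eval₂_mul, ← h2, ← h2']
    ring

theorem Ratl.inv {y x : N} (h : Ratl (k := k) y x) : Ratl (k := k) y x⁻¹ := by
  by_cases hx : x = 0
  · rw [hx, inv_zero, ← hx]
    exact h
  · obtain ⟨P1, P2, h1, h2⟩ := h
    refine ⟨P2, P1, ?_, ?_⟩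
    · rw [← h2]
      exact mul_ne_zero hx h1
    · rw [← h2, ← mul_assoc, inv_mul_cancel₀ hx, one_mul]

theorem Ratl.poly {y : N} (P : k[X]) : Ratl (k := k) y (P.eval₂ (cN k N) y) :=
  ⟨P, 1, by rw [eval₂_one]; exact one_ne_zero, by rw [eval₂_one, mul_one]⟩

theorem ratl_of_mem (A B : k[X]) (y : N) (hy : aeval y (gAB A B) = 0) (hB : B.eval₂ (cN k N) y ≠ 0) (x : N)
    (hx : x ∈ IntermediateField.adjoin (RatFunc k) {y}) : Ratl (k := k) y x := by
  rw [aeval_gAB, sub_eq_zero] at hy
  have hX : Ratl (k := k) y (algebraMap k[X] N X) := ⟨A, B, hB, hy.symm⟩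
  have hC : ∀ c : k, Ratl (k := k) y (algebraMap k[X] N (C c)) := by
    intro c
    have := Ratl.poly (y := y) (C c)
    rw [eval₂_C] at this
    exact this
  have hp : ∀ p : k[X], Ratl (k := k) y (algebraMap k[X] N p) := by
    intro p
    induction p using Polynomial.induction_on' with
    | add p q hp hq => rw [map_add]; exact hp.add hq
    | monomial n c =>
      rw [← C_mul_X_pow_eq_monomial, map_mul, map_pow]
      refine (hC c).mul ?_
      induction n with
      | zero =>
        rw [pow_zero]
        have := hC 1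
        rw [C_1, map_one] at this
        exact this
      | succ m ih => rw [pow_succ]; exact ih.mul hX
  induction hx using IntermediateField.adjoin_induction with
  | mem x hx =>
    have : x = y := hx
    rw [this]
    have := Ratl.poly (y := y) (X : k[X])
    rw [eval₂_X] at this
    exact this
  | algebraMap x =>
    rw [← RatFunc.num_div_denom x, map_div₀, ← IsScalarTower.algebraMap_apply,
      ← IsScalarTower.algebraMap_apply, div_eq_mul_inv]
    exact (hp _).mul (hp _).inv
  | add x y _ _ hx hy => exact hx.add hy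
  | inv x _ hx => exact hx.inv
  | mul x y _ _ hx hy => exact hx.mul hy

/-- two places with the same value at `y` agree on the integral rational functions of `y` -/
theorem agree_ratl (ev1 ev2 : integralClosure k[X] N →+* k)
    (hc1 : ∀ c : k, ev1 (algebraMap k[X] _ (C c)) = c) (hc2 : ∀ c : k, ev2 (algebraMap k[X] _ (C c)) = c)
    (y b : integralClosure k[X] N) (hy : ev1 y = ev2 y) (P1 P2 : k[X])
    (h1 : P2.eval₂ (cN k N) (y : N) ≠ 0)
    (h2 : (b : N) * P2.eval₂ (cN k N) (y : N) = P1.eval₂ (cN k N) (y : N)) : ev1 b = ev2 b := by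
  have key : ∀ (n : ℕ) (P1 P2 : k[X]), P2.natDegree = n → P2.eval₂ (cN k N) (y : N) ≠ 0 →
      (b : N) * P2.eval₂ (cN k N) (y : N) = P1.eval₂ (cN k N) (y : N) → ev1 b = ev2 b := by
    intro n
    induction n using Nat.strong_induction_on with
    | _ n ih =>
      intro P1 P2 hn h1 h2
      have hcoe : ∀ P : k[X], P.eval₂ (cN k N) (y : N) =
          ((P.eval₂ ((algebraMap k[X] (integralClosure k[X] N)).comp C) y : integralClosure k[X] N) : N) := by
        intro P
        have := hom_eval₂ P ((algebraMap k[X] (integralClosure k[X] N)).comp C)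
          (algebraMap (integralClosure k[X] N) N) y
        exact this.symm
      have hev : ∀ (ev : integralClosure k[X] N →+* k) (hc : ∀ c : k, ev (algebraMap k[X] _ (C c)) = c)
          (P : k[X]), ev (P.eval₂ ((algebraMap k[X] (integralClosure k[X] N)).comp C) y) = P.eval (ev y) := by
        intro ev hc P
        rw [hom_eval₂]
        have : ev.comp ((algebraMap k[X] (integralClosure k[X] N)).comp C) = RingHom.id k :=
          RingHom.ext fun c => hc c
        rw [this]
        rfl
      have h3 : b * P2.eval₂ ((algebraMap k[X] (integralClosure k[X] N)).comp C) y =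
          P1.eval₂ ((algebraMap k[X] (integralClosure k[X] N)).comp C) y := by
        apply Subtype.ext
        rw [MulMemClass.coe_mul, ← hcoe, ← hcoe]
        exact h2
      have h4 := congrArg ev1 h3
      have h5 := congrArg ev2 h3
      rw [map_mul, hev ev1 hc1, hev ev1 hc1] at h4
      rw [map_mul, hev ev2 hc2, hev ev2 hc2, ← hy] at h5
      by_cases h6 : P2.eval (ev1 y) = 0
      · rw [h6, mul_zero] at h4
        obtain ⟨Q1, hQ1⟩ := dvd_iff_isRoot.2 h4.symm
        obtain ⟨Q2, hQ2⟩ := dvd_iff_isRoot.2 h6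
        have hne : (X - C (ev1 y)).eval₂ (cN k N) (y : N) ≠ 0 := by
          intro h
          rw [hQ2, eval₂_mul, h, zero_mul] at h1
          exact h1 rfl
        have hP20 : P2 ≠ 0 := by
          rintro rfl
          exact h1 (eval₂_zero _ _)
        have hQ20 : Q2 ≠ 0 := by
          rintro rfl
          rw [mul_zero] at hQ2
          exact hP20 hQ2
        refine ih Q2.natDegree ?_ Q1 Q2 rfl ?_ ?_
        · rw [← hn, hQ2, natDegree_mul (X_sub_C_ne_zero _) hQ20, natDegree_X_sub_C]
          omega
        · intro h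
          rw [hQ2, eval₂_mul, h, mul_zero] at h1
          exact h1 rfl
        · rw [hQ1, hQ2, eval₂_mul, eval₂_mul] at h2
          apply mul_left_cancel₀ hne
          linear_combination h2
      · apply mul_right_cancel₀ h6
        rw [h4, h5]
  exact key _ P1 P2 rfl h1 h2

/-- **The decomposition group is transitive on the roots with a given residue.** -/
theorem decomp_trans [FiniteDimensional (RatFunc k) N] [IsGalois (RatFunc k) N] (A B : k[X])
    (hcop : IsCoprime A B) (hB : B ≠ 0) (hA : A.Monic) (hlt : B.degree < A.degree)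
    (ev : integralClosure k[X] N →+* k) (hc : ∀ c : k, ev (algebraMap k[X] _ (C c)) = c)
    (y y' : integralClosure k[X] N) (hy : aeval (y : N) (gAB A B) = 0) (hy' : aeval (y' : N) (gAB A B) = 0)
    (h : ev y = ev y') : ∃ ρ : N ≃ₐ[RatFunc k] N, gB ρ y = y' ∧ ∀ b, ev (gB ρ b) = ev b := by
  obtain ⟨σ, hσ⟩ := conj_roots A B hcop hB hA hlt (y : N) (y' : N) hy hy'
  have hσB : gB σ y = y' := Subtype.ext hσ
  have hBy : B.eval₂ (cN k N) (y : N) ≠ 0 := by
    intro h0
    rw [aeval_gAB, h0, mul_zero, sub_zero] at hy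
    obtain ⟨u, w, huw⟩ := hcop
    have := congrArg (eval₂ (cN k N) (y : N)) huw
    rw [eval₂_add, eval₂_mul, eval₂_mul, hy, h0, mul_zero, mul_zero, add_zero, eval₂_one] at this
    exact zero_ne_one this
  set ev1 : integralClosure k[X] N →+* k := ev.comp (gB σ : integralClosure k[X] N →+* integralClosure k[X] N)
    with hev1
  have hc1 : ∀ c : k, ev1 (algebraMap k[X] _ (C c)) = c := by
    intro c
    have h2 : ev1 (algebraMap k[X] _ (C c)) = ev (gB σ (algebraMap k[X] _ (C c))) := rfl
    rw [h2, AlgEquiv.commutes, hc]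
  have hy1 : ev1 y = ev y := by
    have h2 : ev1 y = ev (gB σ y) := rfl
    rw [h2, hσB, h]
  obtain ⟨ρ, hρ, hev⟩ := trans_places (IntermediateField.fixingSubgroup
    (IntermediateField.adjoin (RatFunc k) {(y : N)})) ev1 ev hc1 hc (by
      intro b hb
      have hmem : (b : N) ∈ IntermediateField.adjoin (RatFunc k) {(y : N)} := by
        rw [← IsGalois.fixedField_fixingSubgroup (IntermediateField.adjoin (RatFunc k) {(y : N)}),
          IntermediateField.mem_fixedField_iff]
        intro ρ hρ
        exact congrArg Subtype.val (hb ρ hρ)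
      obtain ⟨P1, P2, h1, h2⟩ := ratl_of_mem A B (y : N) hy hBy _ hmem
      exact agree_ratl ev1 ev hc1 hc y b hy1 P1 P2 h1 h2)
  refine ⟨σ * ρ, ?_, ?_⟩
  · rw [gB_mul]
    have h2 : gB ρ y = y := by
      apply Subtype.ext
      rw [gB_coe]
      rw [IntermediateField.mem_fixingSubgroup_iff] at hρ
      exact hρ _ (IntermediateField.mem_adjoin_simple_self _ _)
    rw [h2, hσB]
  · intro b
    rw [hev b]
    rfl

end

end Pool.Agent.H470
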