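import Pool.Agent.H470.W3

/-!
# Places of the splitting field of `A - t B` with a Frobenius lift
-/

set_option autoImplicit false
set_option linter.all false

open Polynomial

namespace Pool.Agent.H470

section
variable {k : Type} [Field k] [IsAlgClosed k]

/-- the roots of `A - t B` are simple -/
theorem gAB_simple {M : Type} [Field M] [Algebra (RatFunc k) M] [Algebra k[X] M]
    [IsScalarTower k[X] (RatFunc k) M] (A B : k[X]) (hcop : IsCoprime A B)
    (hW : derivative A * B - A * derivative B ≠ 0) (y : M) (hy : aeval y (gAB A B) = 0) :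
    aeval y (derivative (gAB A B)) ≠ 0 := by
  haveI := faithN (k := k) (N := M)
  intro h
  have hder : derivative (gAB A B) = gAB (derivative A) (derivative B) := by
    unfold gAB
    rw [derivative_sub, derivative_mul, derivative_C, zero_mul, zero_add, derivative_map, derivative_map]
  rw [hder, aeval_gAB] at h
  rw [aeval_gAB] at hy
  have h1 : (derivative A * B - A * derivative B).eval₂ (cN k M) y = 0 := by
    rw [eval₂_sub, eval₂_mul, eval₂_mul]
    linear_combination (B.eval₂ (cN k M) y) * h - ((derivative B).eval₂ (cN k M) y) * hy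
  set W := derivative A * B - A * derivative B with hWdef
  have h2 : W.Splits := IsAlgClosed.splits W
  have h3 : ∃ c : k, y = cN k M c := by
    have h4 : (W.map (cN k M)).eval y = 0 := by rw [eval_map]; exact h1
    have h5 : W.map (cN k M) ≠ 0 := (Polynomial.map_ne_zero_iff (cN k M).injective).2 hW
    have h6 : y ∈ (W.map (cN k M)).roots := (mem_roots h5).2 h4
    rw [h2.roots_map, Multiset.mem_map] at h6
    obtain ⟨c, -, hc⟩ := h6
    exact ⟨c, hc.symm⟩
  obtain ⟨c, rfl⟩ := h3
  rw [eval₂_at_apply, eval₂_at_apply] at hy
  have h7 : algebraMap k[X] M (C (A.eval c) - X * C (B.eval c)) = 0 := by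
    rw [map_sub, map_mul]
    exact hy
  have h8 : C (A.eval c) - X * C (B.eval c) = 0 := by
    apply FaithfulSMul.algebraMap_injective k[X] M
    rw [h7, map_zero]
  have h9 : B.eval c = 0 := by
    have := congrArg (fun p => p.coeff 1) h8
    simpa using this
  have h10 : A.eval c = 0 := by
    have := congrArg (fun p => p.coeff 0) h8
    simpa using this
  obtain ⟨u, w, huw⟩ := hcop
  have := congrArg (eval c) huw
  rw [eval_add, eval_mul, eval_mul, h9, h10, mul_zero, mul_zero, add_zero, eval_one] at this
  exact zero_ne_one this

/-- the distinct roots -/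
theorem exists_roots {M : Type} [Field M] [IsAlgClosed M] [Algebra (RatFunc k) M] [Algebra k[X] M]
    [IsScalarTower k[X] (RatFunc k) M] (A B : k[X]) (n : ℕ) (hA : A.Monic) (hn : A.natDegree = n)
    (hlt : B.degree < A.degree) (hcop : IsCoprime A B)
    (hW : derivative A * B - A * derivative B ≠ 0) :
    ∃ y : Fin n → M, Function.Injective y ∧ ∀ j, aeval (y j) (gAB A B) = 0 := by
  classical
  have hm := gAB_monic A B hA hlt
  set G := (gAB A B).map (algebraMap k[X] M) with hG
  have hGm : G.Monic := hm.map _
  have hGn : G.natDegree = n := by rw [hG, hm.natDegree_map, gAB_natDegree A B hA hlt, hn]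
  have hsep : G.Separable := by
    refine (isCoprime_iff_aeval_ne_zero_of_isAlgClosed (k := M) M G (derivative G)).2 ?_
    intro a
    by_contra hcon
    push Not at hcon
    obtain ⟨h1, h2⟩ := hcon
    rw [coe_aeval_eq_eval] at h1 h2
    rw [hG, eval_map, ← aeval_def] at h1
    rw [hG, derivative_map, eval_map, ← aeval_def] at h2
    exact gAB_simple A B hcop hW a h1 h2
  have hcard : G.roots.toFinset.card = n := by
    rw [Multiset.toFinset_card_of_nodup (nodup_roots hsep), IsAlgClosed.card_roots_eq_natDegree, hGn]
  let e := (Finset.equivFinOfCardEq hcard).symm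
  refine ⟨fun j => (e j : M), fun i j h => e.injective (Subtype.ext h), fun j => ?_⟩
  have h1 := (e j).2
  rw [Multiset.mem_toFinset, mem_roots hGm.ne_zero, IsRoot.def] at h1
  have h2 : aeval (e j : M) (gAB A B) = G.eval (e j : M) := (eval_map _ _).symm
  exact h2.trans h1

end

section
variable (F k : Type) [Field F] [Finite F] [Field k] [IsAlgClosed k] [Algebra F k]

/-- the Frobenius automorphism of the rational function field -/
noncomputable def frR : RatFunc k ≃+* RatFunc k :=
  IsFractionRing.ringEquivOfRingEquiv (Polynomial.mapEquiv (frE F k))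

theorem frR_algebraMap (p : k[X]) :
    frR F k (algebraMap k[X] (RatFunc k) p) = algebraMap k[X] (RatFunc k) (p.map (fr F k)) := by
  unfold frR
  rw [IsFractionRing.ringEquivOfRingEquiv_algebraMap]
  rfl

/-- a semilinear automorphism of the algebraic closure -/
noncomputable def frM : AlgebraicClosure (RatFunc k) ≃+* AlgebraicClosure (RatFunc k) :=
  IsAlgClosure.equivOfEquiv _ _ (frR F k)

theorem frM_algebraMap (x : RatFunc k) :
    frM F k (algebraMap (RatFunc k) _ x) = algebraMap (RatFunc k) _ (frR F k x) := by
  unfold frM
  rw [IsAlgClosure.equivOfEquiv_algebraMap]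

theorem frM_semi : Semi F (k := k) ((frM F k : AlgebraicClosure (RatFunc k) ≃+* AlgebraicClosure (RatFunc k)) :
    AlgebraicClosure (RatFunc k) →+* AlgebraicClosure (RatFunc k)) := by
  constructor
  · intro c
    show frM F k (algebraMap k[X] _ (C c)) = _
    rw [IsScalarTower.algebraMap_apply k[X] (RatFunc k), frM_algebraMap, frR_algebraMap, map_C,
      ← IsScalarTower.algebraMap_apply]
  · show frM F k (algebraMap k[X] _ X) = _
    rw [IsScalarTower.algebraMap_apply k[X] (RatFunc k), frM_algebraMap, frR_algebraMap, map_X]

end

end Pool.Agent.H470
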