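import Pool.Agent.H470.W4

/-!
# Places with a Frobenius lift: existence
-/

set_option autoImplicit false
set_option linter.all false

open Polynomial

namespace Pool.Agent.H470

/-- the assumptions on the polynomials -/
structure Good {k : Type} [Field k] (A B : k[X]) (n : ℕ) : Prop where
  monic : A.Monic
  deg : A.natDegree = n
  lt : B.degree < A.degree
  cop : IsCoprime A B
  wr : derivative A * B - A * derivative B ≠ 0

theorem Good.B0 {k : Type} [Field k] {A B : k[X]} {n : ℕ} (h : Good A B n) : B ≠ 0 := by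
  intro hB
  apply h.wr
  rw [hB]
  simp

theorem Good.map {F k : Type} [Field F] [Field k] [Algebra F k] {A B : F[X]} {n : ℕ} (h : Good A B n) :
    Good (A.map (algebraMap F k)) (B.map (algebraMap F k)) n := by
  refine ⟨h.monic.map _, by rw [h.monic.natDegree_map, h.deg], ?_, ?_, ?_⟩
  · rw [degree_map, degree_map]
    exact h.lt
  · exact h.cop.map (mapRingHom (algebraMap F k))
  · rw [derivative_map, derivative_map, ← Polynomial.map_mul, ← Polynomial.map_mul, ← Polynomial.map_sub]
    exact (Polynomial.map_ne_zero_iff (algebraMap F k).injective).2 h.wr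

section
variable (F k : Type) [Field F] [Finite F] [Field k] [IsAlgClosed k] [Algebra F k]

/-- a place above `t = v`, with a Frobenius lift -/
structure Pl (N : Type) [Field N] [Algebra (RatFunc k) N] [Algebra k[X] N]
    [IsScalarTower k[X] (RatFunc k) N] (A B : F[X]) (v : F) (n : ℕ) where
  y : Fin n → integralClosure k[X] N
  inj : Function.Injective y
  root : ∀ j, aeval (y j : N) (gAB (A.map (algebraMap F k)) (B.map (algebraMap F k))) = 0
  ev : integralClosure k[X] N →+* k
  evp : ∀ p : k[X], ev (algebraMap _ _ p) = p.eval (algebraMap F k v)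
  ψ : N →+* N
  semi : Semi F (k := k) ψ
  cmp : Cmp ev ψ (fr F k)

end

section
variable {F k : Type} [Field F] [Finite F] [Field k] [IsAlgClosed k] [Algebra F k]
variable {N : Type} [Field N] [Algebra (RatFunc k) N] [Algebra k[X] N]
    [IsScalarTower k[X] (RatFunc k) N]

theorem semi_int {ψ : N →+* N} (h : Semi F (k := k) ψ) (x : N) (hx : x ∈ integralClosure k[X] N) :
    ψ x ∈ integralClosure k[X] N := by
  obtain ⟨P, hP, h0⟩ := hx
  refine ⟨P.map (mapRingHom (fr F k)), hP.map _, ?_⟩
  have := h.aeval x P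
  rw [aeval_def, h0, map_zero] at this
  exact this.symm

/-- a compatible semilinear map from a semilinear map -/
theorem exists_cmp [FiniteDimensional (RatFunc k) N] [IsGalois (RatFunc k) N] (v : F)
    (ev : integralClosure k[X] N →+* k)
    (evp : ∀ p : k[X], ev (algebraMap _ _ p) = p.eval (algebraMap F k v)) (ψ : N →+* N)
    (h : Semi F (k := k) ψ) : ∃ ψ' : N →+* N, Semi F (k := k) ψ' ∧ Cmp ev ψ' (fr F k) := by
  let ψB : integralClosure k[X] N →+* integralClosure k[X] N :=
    { toFun := fun b => ⟨ψ b, semi_int h b b.2⟩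
      map_one' := Subtype.ext (map_one ψ)
      map_mul' := fun a b => Subtype.ext (map_mul ψ _ _)
      map_zero' := Subtype.ext (map_zero ψ)
      map_add' := fun a b => Subtype.ext (map_add ψ _ _) }
  let ev2 : integralClosure k[X] N →+* k := ((frE F k).symm : k →+* k).comp (ev.comp ψB)
  have hψp : ∀ p : k[X], ψB (algebraMap _ _ p) = algebraMap _ _ (p.map (fr F k)) := by
    intro p
    apply Subtype.ext
    exact h.poly p
  have hev2 : ∀ p : k[X], ev2 (algebraMap _ _ p) = p.eval (algebraMap F k v) := by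
    intro p
    show (frE F k).symm (ev (ψB (algebraMap _ _ p))) = _
    rw [RingEquiv.symm_apply_eq, hψp, evp]
    show (p.map (fr F k)).eval (algebraMap F k v) = fr F k (p.eval (algebraMap F k v))
    conv_lhs => rw [← fr_algebraMap F k v]
    rw [eval_map_apply]
  obtain ⟨ρ, -, hρ⟩ := trans_places (⊤ : Subgroup (N ≃ₐ[RatFunc k] N)) ev ev2
    (by intro c; rw [evp, eval_C]) (by intro c; rw [hev2, eval_C]) (by
      intro b hb
      have h1 : (b : N) ∈ Set.range (algebraMap (RatFunc k) N) := by
        rw [IsGalois.mem_range_algebraMap_iff_fixed]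
        intro σ
        exact congrArg Subtype.val (hb σ (Subgroup.mem_top _))
      obtain ⟨r, hr⟩ := h1
      have h2 : IsIntegral k[X] r := by
        have h3 : IsIntegral k[X] (algebraMap (RatFunc k) N r) := by
          rw [hr]
          exact b.2
        exact (isIntegral_algebraMap_iff (algebraMap (RatFunc k) N).injective).1 h3
      obtain ⟨p, hp⟩ := IsIntegrallyClosed.isIntegral_iff.1 h2
      have h4 : b = algebraMap k[X] _ p := by
        apply Subtype.ext
        rw [← hr, ← hp, ← IsScalarTower.algebraMap_apply]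
        rfl
      rw [h4, evp, hev2])
  refine ⟨ψ.comp ((ρ⁻¹ : N ≃ₐ[RatFunc k] N) : N →+* N), ?_, ?_⟩
  · constructor
    · intro c
      have h1 : ((ρ⁻¹ : N ≃ₐ[RatFunc k] N) : N →+* N) (algebraMap k[X] N (C c)) = algebraMap k[X] N (C c) := by
        rw [IsScalarTower.algebraMap_apply k[X] (RatFunc k) N]
        exact (ρ⁻¹).commutes _
      rw [RingHom.comp_apply, h1, h.C]
    · have h1 : ((ρ⁻¹ : N ≃ₐ[RatFunc k] N) : N →+* N) (algebraMap k[X] N X) = algebraMap k[X] N X := by
        rw [IsScalarTower.algebraMap_apply k[X] (RatFunc k) N]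
        exact (ρ⁻¹).commutes _
      rw [RingHom.comp_apply, h1, h.X]
  · intro b
    have h1 : (ψ.comp ((ρ⁻¹ : N ≃ₐ[RatFunc k] N) : N →+* N)) b = ψ (gB ρ⁻¹ b : integralClosure k[X] N) := rfl
    refine ⟨by rw [h1]; exact semi_int h _ (gB ρ⁻¹ b).2, ?_⟩
    have h2 := hρ (gB ρ⁻¹ b)
    rw [← gB_mul, mul_inv_cancel, gB_one] at h2
    have h3 : (frE F k).symm (ev (ψB (gB ρ⁻¹ b))) = ev b := h2
    rw [RingEquiv.symm_apply_eq] at h3
    exact h3

end

section
variable {F k : Type} [Field F] [Finite F] [Field k] [IsAlgClosed k] [Algebra F k]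

/-- **Existence.** -/
theorem exists_Pl (A B : F[X]) (v : F) (n : ℕ) (hG : Good A B n) :
    ∃ (N : Type) (_ : Field N) (_ : Algebra (RatFunc k) N) (_ : Algebra k[X] N)
      (_ : IsScalarTower k[X] (RatFunc k) N) (_ : IsGalois (RatFunc k) N)
      (_ : FiniteDimensional (RatFunc k) N), Nonempty (Pl F k N A B v n) := by
  classical
  have hGk : Good (A.map (algebraMap F k)) (B.map (algebraMap F k)) n := hG.map
  obtain ⟨y0, hinj, hroot⟩ := exists_roots (M := AlgebraicClosure (RatFunc k)) _ _ n hGk.monic hGk.deg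
    hGk.lt hGk.cop hGk.wr
  have hm := gAB_monic _ _ hGk.monic hGk.lt
  have hdeg : (gAB (A.map (algebraMap F k)) (B.map (algebraMap F k))).natDegree = n := by
    rw [gAB_natDegree _ _ hGk.monic hGk.lt, hGk.deg]
  obtain ⟨hgal, hfin⟩ := galois_NN _ hm hdeg y0 hinj hroot
  refine ⟨NN k y0, inferInstance, inferInstance, inferInstance, inferInstance, hgal, hfin, ?_⟩
  -- the semilinear map
  set Ψ : AlgebraicClosure (RatFunc k) →+* AlgebraicClosure (RatFunc k) :=
    ((frM F k : AlgebraicClosure (RatFunc k) ≃+* AlgebraicClosure (RatFunc k)) :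
      AlgebraicClosure (RatFunc k) →+* AlgebraicClosure (RatFunc k)) with hΨ
  have hsemi : Semi F (k := k) Ψ := frM_semi F k
  set GM := (gAB (A.map (algebraMap F k)) (B.map (algebraMap F k))).map
    (algebraMap k[X] (AlgebraicClosure (RatFunc k))) with hGM
  have hGMfr : GM.map Ψ = GM := by
    rw [hGM, ← gAB_map, Polynomial.map_map, Polynomial.map_map, Polynomial.map_map]
    congr 1
    apply Polynomial.ringHom_ext
    · intro x
      simp only [RingHom.comp_apply, coe_mapRingHom, map_C]
      rw [hsemi.C, fr_algebraMap]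
    · simp only [RingHom.comp_apply, coe_mapRingHom, map_X]
      exact hsemi.X
  obtain ⟨σ, hσ⟩ := exists_perm GM (hm.map _) (by rw [hGM, hm.natDegree_map, hdeg]) y0 hinj
    (by intro j; rw [hGM, eval_map]; exact hroot j) Ψ hGMfr
  have hmap : ∀ x : AlgebraicClosure (RatFunc k), x ∈ NN k y0 → Ψ x ∈ NN k y0 := by
    intro x hx
    refine IntermediateField.adjoin_induction (RatFunc k) (p := fun x _ => Ψ x ∈ NN k y0)
      ?_ ?_ ?_ ?_ ?_ hx
    · rintro _ ⟨j, rfl⟩
      rw [hσ]
      exact IntermediateField.subset_adjoin _ _ ⟨_, rfl⟩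
    · intro x
      have h1 : Ψ (algebraMap (RatFunc k) _ x) = algebraMap (RatFunc k) _ (frR F k x) := frM_algebraMap F k x
      rw [h1]
      exact IntermediateField.algebraMap_mem _ _
    · intro x y _ _ h1 h2
      rw [map_add]
      exact add_mem h1 h2
    · intro x _ h1
      rw [map_inv₀]
      exact inv_mem h1
    · intro x y _ _ h1 h2
      rw [map_mul]
      exact mul_mem h1 h2
  let ψ : NN k y0 →+* NN k y0 :=
    { toFun := fun x => ⟨Ψ x, hmap x x.2⟩
      map_one' := Subtype.ext (map_one Ψ)
      map_mul' := fun a b => Subtype.ext (map_mul Ψ _ _)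
      map_zero' := Subtype.ext (map_zero Ψ)
      map_add' := fun a b => Subtype.ext (map_add Ψ _ _) }
  have hψ : Semi F (k := k) ψ := by
    constructor
    · intro c
      apply Subtype.ext
      exact hsemi.C c
    · apply Subtype.ext
      exact hsemi.X
  -- the place
  haveI := faithN (k := k) (N := NN k y0)
  have hinjB : Function.Injective (algebraMap k[X] (integralClosure k[X] (NN k y0))) := by
    intro a b h
    apply FaithfulSMul.algebraMap_injective k[X] (NN k y0)
    exact congrArg Subtype.val h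
  obtain ⟨ev, hev⟩ := exists_ext' (algebraMap k[X] (integralClosure k[X] (NN k y0)))
    (Algebra.IsIntegral.isIntegral) (evalRingHom (algebraMap F k v)) (by
      intro p hp
      rw [RingHom.mem_ker] at hp ⊢
      rw [hinjB (hp.trans (map_zero _).symm), map_zero])
  obtain ⟨ψ', hψ', hcmp⟩ := exists_cmp v ev hev ψ hψ
  have hrootN : ∀ j, aeval (yN (k := k) y0 j) (gAB (A.map (algebraMap F k)) (B.map (algebraMap F k))) = 0 := by
    intro j
    apply (algebraMap (NN k y0) (AlgebraicClosure (RatFunc k))).injective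
    rw [map_zero, ← hroot j, aeval_def, hom_eval₂]
    rfl
  exact ⟨{
    y := fun j => ⟨yN (k := k) y0 j, ⟨_, hm, hrootN j⟩⟩
    inj := fun i j h => hinj (congrArg (fun z : integralClosure k[X] (NN k y0) => ((z : NN k y0) :
      AlgebraicClosure (RatFunc k))) h)
    root := hrootN
    ev := ev
    evp := hev
    ψ := ψ'
    semi := hψ'
    cmp := hcmp }⟩

end

end Pool.Agent.H470
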