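import Pool.Agent.H470.W5
import Pool.Agent.H470.LPv

/-!
# The Frobenius lifts at a place: dichotomy, clusters, averages
-/

set_option autoImplicit false
set_option linter.all false

open Polynomial

namespace Pool.Agent.H470

section
variable {k : Type} [Field k] {N : Type} [Field N] [Algebra k[X] N]

theorem Rs.poly {ev : integralClosure k[X] N →+* k} (hc : ∀ c : k, ev (algebraMap k[X] _ (C c)) = c) {x : N}
    {c : k} (h : Rs ev x c) (Q : k[X]) : Rs ev (Q.eval₂ (cN k N) x) (Q.eval c) := by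
  have hC : ∀ a : k, Rs ev (cN k N a) a := by
    intro a
    exact (Rs.of_int (ev := ev) (algebraMap k[X] _ (C a))).congr rfl (hc a)
  induction Q using Polynomial.induction_on' with
  | add p q hp hq =>
    rw [eval₂_add, eval_add]
    exact hp.add hq
  | monomial n a =>
    rw [eval₂_monomial, eval_monomial]
    exact (hC a).mul (h.pow n)

end

namespace Pl

section
variable {F k : Type} [Field F] [Finite F] [Field k] [IsAlgClosed k] [Algebra F k]
variable {N : Type} [Field N] [Algebra (RatFunc k) N] [Algebra k[X] N]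
    [IsScalarTower k[X] (RatFunc k) N] {A B : F[X]} {v : F} {n : ℕ} (P : Pl F k N A B v n)
include P

/-- Frobenius lifts at the place -/
def Fb (P : Pl F k N A B v n) (ψ : N →+* N) : Prop := Semi F (k := k) ψ ∧ Cmp P.ev ψ (fr F k)

theorem fb : P.Fb P.ψ := ⟨P.semi, P.cmp⟩

theorem evC (c : k) : P.ev (algebraMap k[X] _ (C c)) = c := by rw [P.evp, eval_C]

/-- the residues of the roots -/
noncomputable def r (P : Pl F k N A B v n) (j : Fin n) : k := P.ev (P.y j)

theorem rs (j : Fin n) : Rs P.ev (P.y j : N) (P.r j) := Rs.of_int _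

theorem rsX : Rs P.ev (algebraMap k[X] N X) (algebraMap F k v) :=
  (Rs.of_int (ev := P.ev) (algebraMap k[X] _ X)).congr rfl (by rw [P.evp, eval_X])

theorem rs_poly (j : Fin n) (Q : k[X]) : Rs P.ev (Q.eval₂ (cN k N) (P.y j : N)) (Q.eval (P.r j)) :=
  Rs.poly P.evC (P.rs j) Q

theorem eqn (j : Fin n) : (A.map (algebraMap F k)).eval₂ (cN k N) (P.y j : N) =
    algebraMap k[X] N X * (B.map (algebraMap F k)).eval₂ (cN k N) (P.y j : N) := by
  have := P.root j
  rw [aeval_gAB, sub_eq_zero] at this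
  exact this

theorem res_root (j : Fin n) : ((A - C v * B).map (algebraMap F k)).eval (P.r j) = 0 := by
  have h1 := P.rs_poly j (A.map (algebraMap F k))
  rw [P.eqn] at h1
  have h2 := h1.unique (P.rsX.mul (P.rs_poly j (B.map (algebraMap F k))))
  rw [Polynomial.map_sub, Polynomial.map_mul, map_C, eval_sub, eval_mul, eval_C, h2, sub_self]

theorem semi_gAB (ψ : N →+* N) (h : Semi F (k := k) ψ) :
    ((gAB (A.map (algebraMap F k)) (B.map (algebraMap F k))).map (algebraMap k[X] N)).map ψ =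
      (gAB (A.map (algebraMap F k)) (B.map (algebraMap F k))).map (algebraMap k[X] N) := by
  rw [← gAB_map, Polynomial.map_map, Polynomial.map_map, Polynomial.map_map]
  congr 1
  apply Polynomial.ringHom_ext
  · intro x
    simp only [RingHom.comp_apply, coe_mapRingHom, map_C]
    rw [h.C, fr_algebraMap]
  · simp only [RingHom.comp_apply, coe_mapRingHom, map_X]
    exact h.X

theorem injN : Function.Injective fun j => (P.y j : N) := fun i j h => P.inj (Subtype.ext h)

theorem exists_σ (hG : Good A B n) (ψ : N →+* N) (h : Semi F (k := k) ψ) :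
    ∃ σ : Equiv.Perm (Fin n), ∀ j, ψ (P.y j) = P.y (σ j) := by
  have hGk : Good (A.map (algebraMap F k)) (B.map (algebraMap F k)) n := hG.map
  have hm := gAB_monic _ _ hGk.monic hGk.lt
  have hdeg : (gAB (A.map (algebraMap F k)) (B.map (algebraMap F k))).natDegree = n := by
    rw [gAB_natDegree _ _ hGk.monic hGk.lt, hGk.deg]
  exact exists_perm _ (hm.map _) (by rw [hm.natDegree_map, hdeg]) (fun j => (P.y j : N)) P.injN
    (by intro j; rw [eval_map]; exact P.root j) ψ (P.semi_gAB ψ h)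

/-- the number of fixed roots -/
noncomputable def fx (P : Pl F k N A B v n) (ψ : N →+* N) : ℕ := {j | ψ (P.y j) = P.y j}.ncard

theorem res_fr (ψ : N →+* N) (h : P.Fb ψ) (i j : Fin n) (hij : ψ (P.y i) = P.y j) : P.r j = fr F k (P.r i) := by
  have h1 := (P.rs i).map h.2
  rw [hij] at h1
  exact (P.rs j).unique h1

/-- the cluster of a residue -/
noncomputable def cl (P : Pl F k N A B v n) (c : k) : Finset (Fin n) := by
  classical
  exact Finset.univ.filter fun j => P.r j = c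

theorem mem_cl (c : k) (j : Fin n) : j ∈ P.cl c ↔ P.r j = c := by
  unfold cl
  simp

/-- the size of a cluster -/
theorem card_cl (hG : Good A B n) (c : k) :
    (P.cl c).card = ((A - C v * B).map (algebraMap F k)).rootMultiplicity c := by
  classical
  have hGk : Good (A.map (algebraMap F k)) (B.map (algebraMap F k)) n := hG.map
  have hm := gAB_monic _ _ hGk.monic hGk.lt
  have hdeg : (gAB (A.map (algebraMap F k)) (B.map (algebraMap F k))).natDegree = n := by
    rw [gAB_natDegree _ _ hGk.monic hGk.lt, hGk.deg]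
  set g := gAB (A.map (algebraMap F k)) (B.map (algebraMap F k)) with hg
  have hprodN : g.map (algebraMap k[X] N) = ∏ j, (X - C (P.y j : N)) :=
    eq_prod_roots _ (hm.map _) (by rw [hm.natDegree_map, hdeg]) (fun j => (P.y j : N)) P.injN
      (by intro j; rw [eval_map]; exact P.root j)
  have hprodB : g.map (algebraMap k[X] (integralClosure k[X] N)) = ∏ j, (X - C (P.y j)) := by
    apply Polynomial.map_injective (algebraMap (integralClosure k[X] N) N) Subtype.val_injective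
    rw [Polynomial.map_map, ← IsScalarTower.algebraMap_eq, hprodN, Polynomial.map_prod]
    refine Finset.prod_congr rfl fun j _ => ?_
    rw [Polynomial.map_sub, map_X, map_C]
    rfl
  have h1 := congrArg (Polynomial.map P.ev) hprodB
  rw [Polynomial.map_map, Polynomial.map_prod] at h1
  have h2 : P.ev.comp (algebraMap k[X] (integralClosure k[X] N)) = evalRingHom (algebraMap F k v) :=
    RingHom.ext P.evp
  have h3 : g.map (evalRingHom (algebraMap F k v)) = (A - C v * B).map (algebraMap F k) := by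
    rw [hg, gAB_spec, Polynomial.map_sub, Polynomial.map_mul, map_C]
  rw [h2, h3] at h1
  have h4 : ∏ j, (X - C (P.y j)).map P.ev = ∏ j, (X - C (P.r j)) :=
    Finset.prod_congr rfl fun j _ => by
      rw [Polynomial.map_sub, map_X, map_C]
      rfl
  rw [h4] at h1
  rw [h1, ← count_roots, roots_prod _ _ (by
    rw [Finset.prod_ne_zero_iff]
    intro j _
    exact X_sub_C_ne_zero _)]
  simp only [roots_X_sub_C]
  rw [Multiset.count_bind]
  unfold cl
  rw [Finset.card_filter]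
  show _ = ∑ j, Multiset.count c ({P.r j} : Multiset k)
  refine Finset.sum_congr rfl fun j _ => ?_
  rw [Multiset.count_singleton]
  by_cases h : P.r j = c
  · rw [if_pos h, if_pos h.symm]
  · rw [if_neg h, if_neg (fun h' => h h'.symm)]

/-- the decomposition group -/
noncomputable def Dg (P : Pl F k N A B v n) : Subgroup (N ≃ₐ[RatFunc k] N) where
  carrier := {ρ | ∀ b, P.ev (gB ρ b) = P.ev b}
  one_mem' := fun b => by rw [gB_one]
  mul_mem' := fun {a b} ha hb x => by rw [gB_mul, ha, hb]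
  inv_mem' := fun {a} ha x => by
    rw [← ha (gB a⁻¹ x), ← gB_mul, mul_inv_cancel, gB_one]

theorem mem_Dg (ρ : N ≃ₐ[RatFunc k] N) : ρ ∈ P.Dg ↔ ∀ b, P.ev (gB ρ b) = P.ev b := Iff.rfl

theorem semi_left (ρ : N ≃ₐ[RatFunc k] N) (ψ : N →+* N) (h : Semi F (k := k) ψ) :
    Semi F (k := k) ((ρ : N →+* N).comp ψ) := by
  constructor
  · intro c
    rw [RingHom.comp_apply, h.C, IsScalarTower.algebraMap_apply k[X] (RatFunc k) N]
    exact ρ.commutes _
  · rw [RingHom.comp_apply, h.X, IsScalarTower.algebraMap_apply k[X] (RatFunc k) N]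
    exact ρ.commutes _

theorem fb_left (ρ : N ≃ₐ[RatFunc k] N) (hρ : ρ ∈ P.Dg) (ψ : N →+* N) (h : P.Fb ψ) :
    P.Fb ((ρ : N →+* N).comp ψ) := by
  refine ⟨P.semi_left ρ ψ h.1, ?_⟩
  intro b
  obtain ⟨h1, h2⟩ := h.2 b
  refine ⟨(gB ρ ⟨ψ b, h1⟩).2, ?_⟩
  have h3 := hρ ⟨ψ b, h1⟩
  rw [h2] at h3
  exact h3

theorem rs_Dg (ρ : N ≃ₐ[RatFunc k] N) (hρ : ρ ∈ P.Dg) {x : N} {c : k} (h : Rs P.ev x c) :
    Rs P.ev (ρ x) c := by
  have h1 : Cmp P.ev (ρ : N →+* N) (RingHom.id k) := fun b => ⟨(gB ρ b).2, hρ b⟩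
  exact h.map h1

/-- transitivity on clusters -/
theorem trans_cl [FiniteDimensional (RatFunc k) N] [IsGalois (RatFunc k) N] (hG : Good A B n) (i j : Fin n)
    (h : P.r i = P.r j) : ∃ ρ ∈ P.Dg, ρ (P.y i) = P.y j := by
  have hGk : Good (A.map (algebraMap F k)) (B.map (algebraMap F k)) n := hG.map
  obtain ⟨ρ, h1, h2⟩ := decomp_trans _ _ hGk.cop hGk.B0 hGk.monic hGk.lt P.ev P.evC (P.y i) (P.y j)
    (P.root i) (P.root j) h
  exact ⟨ρ, h2, congrArg Subtype.val h1⟩

/-- adjusting a Frobenius lift -/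
theorem adj [FiniteDimensional (RatFunc k) N] [IsGalois (RatFunc k) N] (hG : Good A B n) (ψ : N →+* N)
    (hψ : P.Fb ψ) (i j : Fin n) (h : P.r j = fr F k (P.r i)) :
    ∃ ρ ∈ P.Dg, P.Fb ((ρ : N →+* N).comp ψ) ∧ ((ρ : N →+* N).comp ψ) (P.y i) = P.y j := by
  obtain ⟨σ, hσ⟩ := P.exists_σ hG ψ hψ.1
  have h1 : P.r (σ i) = P.r j := by
    rw [P.res_fr ψ hψ i (σ i) (hσ i), h]
  obtain ⟨ρ, hρ, hρ'⟩ := P.trans_cl hG (σ i) j h1
  refine ⟨ρ, hρ, P.fb_left ρ hρ ψ hψ, ?_⟩
  rw [RingHom.comp_apply, hσ]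
  exact hρ'

end

section
variable {F k : Type} [Field F] [Finite F] [Field k] [IsAlgClosed k] [Algebra F k]
variable {N : Type} [Field N] [Algebra (RatFunc k) N] [Algebra k[X] N]
    [IsScalarTower k[X] (RatFunc k) N] {A B : F[X]} {v : F} {n : ℕ} (P : Pl F k N A B v n)
include P

theorem σD (hG : Good A B n) (ρ : N ≃ₐ[RatFunc k] N) : ∃ σ : Equiv.Perm (Fin n), ∀ j, ρ (P.y j) = P.y (σ j) := by
  have hGk : Good (A.map (algebraMap F k)) (B.map (algebraMap F k)) n := hG.map
  have hm := gAB_monic _ _ hGk.monic hGk.lt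
  have hdeg : (gAB (A.map (algebraMap F k)) (B.map (algebraMap F k))).natDegree = n := by
    rw [gAB_natDegree _ _ hGk.monic hGk.lt, hGk.deg]
  refine exists_perm ((gAB (A.map (algebraMap F k)) (B.map (algebraMap F k))).map (algebraMap k[X] N))
    (hm.map _) (by rw [hm.natDegree_map, hdeg]) (fun j => (P.y j : N)) P.injN
    (by intro j; rw [eval_map]; exact P.root j) (ρ : N →+* N) ?_
  rw [Polynomial.map_map]
  congr 1
  refine RingHom.ext fun p => ?_
  rw [RingHom.comp_apply, IsScalarTower.algebraMap_apply k[X] (RatFunc k) N]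
  exact ρ.commutes _

/-- **Burnside's lemma on a coset of a subgroup of the decomposition group**, for one cluster -/
theorem burn_cl [FiniteDimensional (RatFunc k) N] [IsGalois (RatFunc k) N] (hG : Good A B n)
    (H : Subgroup (N ≃ₐ[RatFunc k] N)) (hH : H ≤ P.Dg) (c : k) (hc : fr F k c = c)
    (hne : (P.cl c).Nonempty)
    (htr : ∀ i ∈ P.cl c, ∀ j ∈ P.cl c, ∃ ρ ∈ H, ρ (P.y i) = P.y j) (ψ : N →+* N) (hψ : P.Fb ψ)
    [DecidableEq N] [Fintype (N ≃ₐ[RatFunc k] N)] [DecidablePred fun ρ => ρ ∈ H] :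
    ∑ ρ ∈ Finset.univ.filter (fun ρ : N ≃ₐ[RatFunc k] N => ρ ∈ H),
      ((P.cl c).filter fun j => ρ (ψ (P.y j)) = P.y j).card =
        (Finset.univ.filter (fun ρ : N ≃ₐ[RatFunc k] N => ρ ∈ H)).card := by
  classical
  set S := Finset.univ.filter (fun ρ : N ≃ₐ[RatFunc k] N => ρ ∈ H) with hS
  have hmem : ∀ ρ, ρ ∈ S ↔ ρ ∈ H := by
    intro ρ
    simp [hS]
  obtain ⟨σ, hσ⟩ := P.exists_σ hG ψ hψ.1
  let m : Fin n → Fin n → ℕ := fun i j => (S.filter fun ρ => ρ (P.y i : N) = (P.y j : N)).card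
  have hm1 : ∀ i ∈ P.cl c, ∀ j ∈ P.cl c, m i j = m i i := by
    intro i hi j hj
    obtain ⟨ρ0, h0, h1⟩ := htr i hi j hj
    refine Finset.card_bij' (fun ρ _ => ρ0⁻¹ * ρ) (fun ρ _ => ρ0 * ρ) ?_ ?_ ?_ ?_
    · intro ρ hρ
      rw [Finset.mem_filter, hmem] at hρ ⊢
      refine ⟨H.mul_mem (H.inv_mem h0) hρ.1, ?_⟩
      rw [AlgEquiv.mul_apply, hρ.2, ← h1, ← AlgEquiv.mul_apply, inv_mul_cancel, AlgEquiv.one_apply]
    · intro ρ hρ
      rw [Finset.mem_filter, hmem] at hρ ⊢
      refine ⟨H.mul_mem h0 hρ.1, ?_⟩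
      rw [AlgEquiv.mul_apply, hρ.2, h1]
    · intro ρ _
      rw [mul_inv_cancel_left]
    · intro ρ _
      rw [inv_mul_cancel_left]
  have hmap : ∀ i ∈ P.cl c, ∀ ρ ∈ S, ∃ j ∈ P.cl c, ρ (P.y i) = P.y j := by
    intro i hi ρ hρ
    obtain ⟨τ, hτ⟩ := P.σD hG ρ
    refine ⟨τ i, ?_, hτ i⟩
    rw [mem_cl] at hi ⊢
    have h1 := P.rs_Dg ρ (hH ((hmem ρ).1 hρ)) (P.rs i)
    rw [hτ] at h1
    rw [(P.rs (τ i)).unique h1, hi]
  have hm2 : ∀ i ∈ P.cl c, ∑ j ∈ P.cl c, m i j = S.card := by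
    intro i hi
    haveI : Nonempty (Fin n) := ⟨i⟩
    choose! f hf using hmap i hi
    rw [Finset.card_eq_sum_card_fiberwise (f := f) (t := P.cl c) (fun ρ hρ => (hf ρ hρ).1)]
    refine Finset.sum_congr rfl fun j _ => ?_
    have e0 : m i j = (S.filter fun ρ => ρ (P.y i : N) = (P.y j : N)).card := rfl
    rw [e0]
    refine congrArg Finset.card (Finset.filter_congr ?_)
    intro ρ h1
    constructor
    · intro h2
      rw [(hf ρ h1).2] at h2
      exact P.injN h2
    · intro h2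
      rw [(hf ρ h1).2, h2]
  have hm3 : ∀ i ∈ P.cl c, (P.cl c).card * m i i = S.card := by
    intro i hi
    rw [← hm2 i hi, Finset.sum_congr rfl (fun j hj => hm1 i hi j hj), Finset.sum_const, smul_eq_mul]
  have hσc : ∀ j ∈ P.cl c, σ j ∈ P.cl c := by
    intro j hj
    rw [mem_cl] at hj ⊢
    rw [P.res_fr ψ hψ j (σ j) (hσ j), hj, hc]
  have h1 : ∀ ρ ∈ S, ((P.cl c).filter fun j => ρ (ψ (P.y j)) = P.y j).card =
      ∑ j ∈ P.cl c, if ρ (P.y (σ j)) = P.y j then 1 else 0 := by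
    intro ρ _
    rw [Finset.card_filter]
    simp only [hσ]
  rw [Finset.sum_congr rfl h1, Finset.sum_comm]
  obtain ⟨i0, hi0⟩ := hne
  have hpos : 0 < (P.cl c).card := Finset.card_pos.2 ⟨i0, hi0⟩
  have h2 : ∀ j ∈ P.cl c, (∑ ρ ∈ S, if ρ (P.y (σ j)) = P.y j then 1 else 0) = m i0 i0 := by
    intro j hj
    rw [← Finset.card_filter]
    have h3 : (S.filter fun ρ => ρ (P.y (σ j) : N) = (P.y j : N)).card = m (σ j) j := rfl
    rw [h3, hm1 _ (hσc j hj) _ hj]
    apply Nat.eq_of_mul_eq_mul_left hpos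
    rw [hm3 _ (hσc j hj), hm3 _ hi0]
  rw [Finset.sum_congr rfl h2, Finset.sum_const, smul_eq_mul, hm3 _ hi0]

end

end Pl

end Pool.Agent.H470
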