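import Pool.Agent.H470.W6

/-!
# The Frobenius lifts at a place: averages and tame clusters
-/

set_option autoImplicit false
set_option linter.all false

open Polynomial

namespace Pool.Agent.H470

namespace Pl

section
variable {F k : Type} [Field F] [Fintype F] [DecidableEq F] [Field k] [IsAlgClosed k] [Algebra F k]
variable {N : Type} [Field N] [Algebra (RatFunc k) N] [Algebra k[X] N]
    [IsScalarTower k[X] (RatFunc k) N] {A B : F[X]} {v : F} {n : ℕ} (P : Pl F k N A B v n)
include P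

theorem fix_dich [Algebra.IsAlgebraic F k] (hG : Good A B n) (hn : 0 < n)
    (hq : 10000 * n ^ 24 < Fintype.card F) (Bad : Finset F)
    (hBad : Bad.card ≤ 3 * n) (a : ℕ) (ha : ∀ t ∉ Bad, nrt A B t = 0 ∨ nrt A B t = a) (ψ : N →+* N)
    (hψ : P.Fb ψ) : P.fx ψ = 0 ∨ P.fx ψ = a := by
  have h2 : ∀ t0, {z : F | ((gAB A B).map (evalRingHom t0)).eval z = 0}.ncard = nrt A B t0 := by
    intro t0
    unfold nrt
    rw [← Set.ncard_coe_finset, gAB_spec]
    congr 1
    ext z
    simp
  exact lgq k N ψ hψ.1 n hn (gAB A B) (gAB_monic A B hG.monic hG.lt)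
    ((gAB_natDegree A B hG.monic hG.lt).trans hG.deg) (gAB_coeff A B) (fun j => (P.y j : N)) P.injN
    (by intro j; rw [gAB_map]; exact P.root j) Bad hBad a
    (by intro t ht; rw [h2]; exact ha t ht) hq

theorem fr_alg (x : F) : fr F k (algebraMap F k x) = algebraMap F k x := fr_algebraMap F k x

theorem root_iff (x : F) : ((A - C v * B).map (algebraMap F k)).eval (algebraMap F k x) = 0 ↔
    (A - C v * B).eval x = 0 := by
  rw [eval_map_apply, map_eq_zero_iff _ (algebraMap F k).injective]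

theorem ABne (hG : Good A B n) : (A - C v * B).Monic ∧ (A - C v * B).natDegree = n := by
  have hPd : (C v * B).degree < A.degree := lt_of_le_of_lt (degree_C_mul_le' _ _) hG.lt
  refine ⟨hG.monic.sub_of_left hPd, ?_⟩
  rw [natDegree_eq_of_degree_eq (degree_sub_eq_left_of_degree_lt hPd), hG.deg]

theorem cl_nonempty (hG : Good A B n) (x : F) (hx : (A - C v * B).eval x = 0) :
    (P.cl (algebraMap F k x)).Nonempty := by
  rw [← Finset.card_pos, P.card_cl hG]
  rw [← eq_rootMultiplicity_map (algebraMap F k).injective]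
  exact (rootMultiplicity_pos (P.ABne hG).1.ne_zero).2 hx

/-- a root fixed by a Frobenius lift has a rational residue -/
theorem fixed_res (ψ : N →+* N) (hψ : P.Fb ψ) (j : Fin n) (h : ψ (P.y j) = P.y j) :
    ∃ x : F, (A - C v * B).eval x = 0 ∧ P.r j = algebraMap F k x := by
  have h1 := P.res_fr ψ hψ j j h
  obtain ⟨x, hx⟩ := fr_fixed F k (P.r j) h1.symm
  refine ⟨x, ?_, hx.symm⟩
  rw [← P.root_iff, hx]
  exact P.res_root j

/-- **The average of the numbers of fixed roots.** -/
theorem avg [FiniteDimensional (RatFunc k) N] [IsGalois (RatFunc k) N] (hG : Good A B n) (a : ℕ)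
    (h : ∀ ψ : N →+* N, P.Fb ψ → P.fx ψ = a) : nrt A B v = a := by
  classical
  haveI : Fintype (N ≃ₐ[RatFunc k] N) := Fintype.ofFinite _
  set S := Finset.univ.filter (fun ρ : N ≃ₐ[RatFunc k] N => ρ ∈ P.Dg) with hS
  set Z := Finset.univ.filter (fun x : F => (A - C v * B).eval x = 0) with hZ
  have hSpos : 0 < S.card := Finset.card_pos.2 ⟨1, by rw [hS, Finset.mem_filter]; exact ⟨Finset.mem_univ _, P.Dg.one_mem⟩⟩
  have h1 : ∀ ρ ∈ S, a = ∑ x ∈ Z, ((P.cl (algebraMap F k x)).filter fun j => ρ (P.ψ (P.y j)) = P.y j).card := by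
    intro ρ hρ
    rw [hS, Finset.mem_filter] at hρ
    have hfb := P.fb_left ρ hρ.2 P.ψ P.fb
    rw [← h _ hfb]
    unfold fx
    have h2 : {j | ((ρ : N →+* N).comp P.ψ) (P.y j) = P.y j}.ncard =
        (Finset.univ.filter fun j => ρ (P.ψ (P.y j)) = P.y j).card := by
      rw [← Set.ncard_coe_finset]
      congr 1
      ext j
      simp
    rw [h2]
    have h3 : (Finset.univ.filter fun j => ρ (P.ψ (P.y j)) = P.y j) =
        Z.biUnion fun x => (P.cl (algebraMap F k x)).filter fun j => ρ (P.ψ (P.y j)) = P.y j := by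
      ext j
      simp only [Finset.mem_filter, Finset.mem_univ, true_and, Finset.mem_biUnion]
      constructor
      · intro h4
        obtain ⟨x, hx, hx'⟩ := P.fixed_res _ hfb j h4
        exact ⟨x, by rw [hZ, Finset.mem_filter]; exact ⟨Finset.mem_univ _, hx⟩, (P.mem_cl _ _).2 hx', h4⟩
      · rintro ⟨x, -, -, h4⟩
        exact h4
    rw [h3, Finset.card_biUnion]
    intro x _ x' _ hne
    rw [Function.onFun, Finset.disjoint_left]
    intro j hj hj'
    rw [Finset.mem_filter, P.mem_cl] at hj hj'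
    exact hne ((algebraMap F k).injective (hj.1.symm.trans hj'.1))
  have h2 : S.card * a = S.card * Z.card := by
    rw [← smul_eq_mul, ← Finset.sum_const, Finset.sum_congr rfl h1, Finset.sum_comm]
    have h3 : ∀ x ∈ Z, ∑ ρ ∈ S, ((P.cl (algebraMap F k x)).filter fun j => ρ (P.ψ (P.y j)) = P.y j).card =
        S.card := by
      intro x hx
      rw [hZ, Finset.mem_filter] at hx
      exact P.burn_cl hG P.Dg le_rfl _ (P.fr_alg x) (P.cl_nonempty hG x hx.2)
        (by
          intro i hi j hj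
          rw [P.mem_cl] at hi hj
          exact P.trans_cl hG i j (hi.trans hj.symm)) P.ψ P.fb
    rw [Finset.sum_congr rfl h3, Finset.sum_const, smul_eq_mul, mul_comm]
  have h3 := Nat.eq_of_mul_eq_mul_left hSpos h2
  rw [h3]
  rfl

/-- the difference of a root and a constant -/
noncomputable def hh (P : Pl F k N A B v n) (c : F) (j : Fin n) : N := (P.y j : N) - cN k N (algebraMap F k c)

theorem rs_const (c : k) : Rs P.ev (cN k N c) c :=
  (Rs.of_int (ev := P.ev) (algebraMap k[X] _ (C c))).congr rfl (P.evC c)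

theorem rs_hh (c : F) (j : Fin n) (hj : P.r j = algebraMap F k c) : Rs P.ev (P.hh c j) 0 := by
  have h := (P.rs j).sub (P.rs_const (algebraMap F k c))
  rw [hj, sub_self] at h
  exact h

theorem tv_ne : algebraMap k[X] N X - cN k N (algebraMap F k v) ≠ 0 := by
  haveI := faithN (k := k) (N := N)
  intro h
  have h1 : algebraMap k[X] N (X - C (algebraMap F k v)) = 0 := by
    rw [map_sub]
    exact h
  exact X_sub_C_ne_zero _ ((FaithfulSMul.algebraMap_injective k[X] N) (h1.trans (map_zero _).symm))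

/-- the local equation -/
theorem local_eq (c : F) (m : ℕ) (Q : F[X]) (hQ : A - C v * B = (X - C c) ^ m * Q) (j : Fin n) :
    (P.hh c j) ^ m * (Q.map (algebraMap F k)).eval₂ (cN k N) (P.y j : N) =
      (algebraMap k[X] N X - cN k N (algebraMap F k v)) * (B.map (algebraMap F k)).eval₂ (cN k N) (P.y j : N) := by
  have h1 := congrArg (fun p => (p.map (algebraMap F k)).eval₂ (cN k N) (P.y j : N)) hQ
  simp only [Polynomial.map_sub, Polynomial.map_mul, Polynomial.map_pow, map_X, map_C, eval₂_sub, eval₂_mul,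
    eval₂_pow, eval₂_X, eval₂_C] at h1
  unfold hh
  rw [← h1, P.eqn]
  ring

theorem B_ne (hG : Good A B n) (c : F) (hc : (A - C v * B).eval c = 0) : B.eval c ≠ 0 := by
  intro h
  rw [eval_sub, eval_mul, eval_C, h, mul_zero, sub_zero] at hc
  obtain ⟨u, w, huw⟩ := hG.cop
  have := congrArg (eval c) huw
  rw [eval_add, eval_mul, eval_mul, hc, h, mul_zero, mul_zero, add_zero, eval_one] at this
  exact zero_ne_one this

/-- ratios in a tame cluster -/
theorem tame_ratio (hG : Good A B n) (c : F) (m : ℕ) (hm0 : 0 < m) (hm : (m : F) ≠ 0) (Q : F[X])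
    (hQ : A - C v * B = (X - C c) ^ m * Q) (hQc : Q.eval c ≠ 0) (i j : Fin n)
    (hi : P.r i = algebraMap F k c) (hj : P.r j = algebraMap F k c) :
    P.hh c i ≠ 0 ∧ ∃ ζ : k, Rs P.ev (P.hh c j / P.hh c i) ζ ∧ ζ ^ m = 1 ∧ (ζ = 1 → i = j) := by
  set a := algebraMap F k with ha
  have hroot : (A - C v * B).eval c = 0 := by
    rw [hQ, eval_mul, eval_pow, eval_sub, eval_X, eval_C, sub_self, zero_pow hm0.ne', zero_mul]
  have hBc : a (B.eval c) ≠ 0 := (map_ne_zero_iff _ a.injective).2 (P.B_ne hG c hroot)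
  have hQc' : a (Q.eval c) ≠ 0 := (map_ne_zero_iff _ a.injective).2 hQc
  have hBi := P.rs_poly i (B.map a)
  have hBj := P.rs_poly j (B.map a)
  have hQi := P.rs_poly i (Q.map a)
  have hQj := P.rs_poly j (Q.map a)
  rw [hi, eval_map_apply] at hBi hQi
  rw [hj, eval_map_apply] at hBj hQj
  set Bi := (B.map a).eval₂ (cN k N) (P.y i : N) with hBidef
  set Bj := (B.map a).eval₂ (cN k N) (P.y j : N) with hBjdef
  set Qi := (Q.map a).eval₂ (cN k N) (P.y i : N) with hQidef
  set Qj := (Q.map a).eval₂ (cN k N) (P.y j : N) with hQjdef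
  have ei := P.local_eq c m Q hQ i
  have ej := P.local_eq c m Q hQ j
  rw [← hBidef, ← hQidef] at ei
  rw [← hBjdef, ← hQjdef] at ej
  have ht := P.tv_ne
  have hhi : P.hh c i ≠ 0 := by
    intro h
    rw [h, zero_pow hm0.ne', zero_mul] at ei
    exact mul_ne_zero ht (hBi.ne_zero hBc) ei.symm
  refine ⟨hhi, ?_⟩
  set u := P.hh c j / P.hh c i with hu
  have huj : P.hh c j = u * P.hh c i := by rw [hu, div_mul_cancel₀ _ hhi]
  have hm1 : u ^ m * (Qj * Bi) = Qi * Bj := by
    rw [huj, mul_pow] at ej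
    have h1 : (P.hh c i) ^ m ≠ 0 := pow_ne_zero _ hhi
    apply mul_left_cancel₀ (mul_ne_zero h1 (hBi.ne_zero hBc))
    apply mul_left_cancel₀ (hQi.ne_zero hQc')
    linear_combination (Qi * Bi * Bi) * ej - (Qi * Bi * Bj) * ei
  have hum : Rs P.ev (u ^ m) 1 := by
    have h1 : u ^ m = (Qi * Bj) / (Qj * Bi) := by
      rw [eq_div_iff (mul_ne_zero (hQj.ne_zero hQc') (hBi.ne_zero hBc)), hm1]
    rw [h1]
    have h2 := (hQi.mul hBj).div (hQj.mul hBi) (mul_ne_zero hQc' hBc)
    rw [div_self (mul_ne_zero hQc' hBc)] at h2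
    exact h2
  obtain ⟨ζ, hζ, hζm⟩ := hum.root hm0
  refine ⟨ζ, hζ, hζm, ?_⟩
  rintro rfl
  by_contra hne
  have hyne : (P.y j : N) - (P.y i : N) ≠ 0 := by
    intro h
    exact hne (P.injN (sub_eq_zero.1 h)).symm
  -- difference quotients
  have hdq : ∀ R : F[X], ∃ e : integralClosure k[X] N,
      (R.map a).eval₂ (cN k N) (P.y j : N) - (R.map a).eval₂ (cN k N) (P.y i : N) =
        ((P.y j : N) - (P.y i : N)) * (e : N) := by
    intro R
    set RB := (R.map a).map ((algebraMap k[X] (integralClosure k[X] N)).comp C) with hRB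
    obtain ⟨e, he⟩ := Polynomial.sub_dvd_eval_sub (P.y j) (P.y i) RB
    refine ⟨e, ?_⟩
    have h1 : ∀ z : integralClosure k[X] N, (R.map a).eval₂ (cN k N) (z : N) = ((RB.eval z : integralClosure k[X] N) : N) := by
      intro z
      rw [hRB, eval_map]
      have := hom_eval₂ (R.map a) ((algebraMap k[X] (integralClosure k[X] N)).comp C)
        (algebraMap (integralClosure k[X] N) N) z
      exact this.symm
    rw [h1, h1]
    have := congrArg (fun z : integralClosure k[X] N => (z : N)) he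
    simpa using this
  obtain ⟨q1, hq1⟩ := hdq Q
  obtain ⟨b1, hb1⟩ := hdq B
  rw [← hQjdef, ← hQidef] at hq1
  rw [← hBjdef, ← hBidef] at hb1
  have hdiff : (P.y j : N) - (P.y i : N) = (u - 1) * P.hh c i := by
    have h1 : (P.y j : N) - (P.y i : N) = P.hh c j - P.hh c i := by
      unfold hh
      ring
    rw [h1, huj]
    ring
  have hu1 : u - 1 ≠ 0 := by
    intro h
    rw [h, zero_mul] at hdiff
    exact hyne hdiff
  have hgeom := mul_geom_sum u m
  have hfin : (∑ l ∈ Finset.range m, u ^ l) * (Qj * Bi) + P.hh c i * ((q1 : N) * Bi - Qi * (b1 : N)) = 0 := by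
    apply mul_left_cancel₀ hu1
    rw [mul_zero, mul_add, ← mul_assoc, hgeom]
    have h1 : (u ^ m - 1) * (Qj * Bi) = Qi * (Bj - Bi) - (Qj - Qi) * Bi := by
      linear_combination hm1
    rw [h1, hb1, hq1, hdiff]
    ring
  have hres : Rs P.ev ((∑ l ∈ Finset.range m, u ^ l) * (Qj * Bi) +
      P.hh c i * ((q1 : N) * Bi - Qi * (b1 : N)))
      ((∑ l ∈ Finset.range m, (1 : k) ^ l) * (a (Q.eval c) * a (B.eval c)) +
        0 * (P.ev q1 * a (B.eval c) - a (Q.eval c) * P.ev b1)) := by
    refine ((Rs.sum _ _ _ fun l _ => hζ.pow l).mul (hQj.mul hBi)).add ((P.rs_hh c i hi).mul ?_)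
    exact ((Rs.of_int q1).mul hBi).sub (hQi.mul (Rs.of_int b1))
  rw [hfin] at hres
  have h0 := hres.unique Rs.zero
  simp only [one_pow, Finset.sum_const, Finset.card_range, nsmul_eq_mul, mul_one, zero_mul, add_zero] at h0
  have hmk : ((m : ℕ) : k) ≠ 0 := by
    have : ((m : ℕ) : k) = a (m : F) := by simp
    rw [this]
    exact (map_ne_zero_iff _ a.injective).2 hm
  exact mul_ne_zero hmk (mul_ne_zero hQc' hBc) h0

end

end Pl

end Pool.Agent.H470
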