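import Pool.Agent.H470.W7
import Pool.Agent.H470.NegInf

/-!
# The Frobenius lifts at a place: counting in tame clusters
-/

set_option autoImplicit false
set_option linter.all false

open Polynomial

namespace Pool.Agent.H470

namespace Pl

section
variable {F k : Type} [Field F] [Fintype F] [DecidableEq F] [Field k] [IsAlgClosed k] [Algebra F k]
variable {N : Type} [Field N] [Algebra (RatFunc k) N] [Algebra k[X] N]
    [IsScalarTower k[X] (RatFunc k) N] {A B : F[X]} {v : F} {n : ℕ} (P : Pl F k N A B v n)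
include P

theorem card_cl' (hG : Good A B n) (c : F) (m : ℕ) (Q : F[X])
    (hQ : A - C v * B = (X - C c) ^ m * Q) (hQc : Q.eval c ≠ 0) :
    (P.cl (algebraMap F k c)).card = m := by
  rw [P.card_cl hG, ← eq_rootMultiplicity_map (algebraMap F k).injective]
  exact (mult_of_fac _ Q c m hQ hQc).1

theorem tame_surj (hG : Good A B n) (c : F) (m : ℕ) (hm0 : 0 < m) (hm : (m : F) ≠ 0) (Q : F[X])
    (hQ : A - C v * B = (X - C c) ^ m * Q) (hQc : Q.eval c ≠ 0) (i : Fin n)
    (hi : P.r i = algebraMap F k c) (ζ : k) (hζ : ζ ^ m = 1) :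
    ∃ j, P.r j = algebraMap F k c ∧ Rs P.ev (P.hh c j / P.hh c i) ζ := by
  classical
  have h1 : ∀ j ∈ P.cl (algebraMap F k c), ∃ ζ : k, Rs P.ev (P.hh c j / P.hh c i) ζ ∧ ζ ^ m = 1 := by
    intro j hj
    rw [P.mem_cl] at hj
    obtain ⟨-, ζ, h2, h3, -⟩ := P.tame_ratio hG c m hm0 hm Q hQ hQc i j hi hj
    exact ⟨ζ, h2, h3⟩
  choose! f hf using h1
  have hinj : Set.InjOn f (P.cl (algebraMap F k c)) := by
    intro j hj j' hj' hjj
    have hj2 := (P.mem_cl _ _).1 hj
    have hj2' := (P.mem_cl _ _).1 hj'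
    obtain ⟨hi0, -⟩ := P.tame_ratio hG c m hm0 hm Q hQ hQc i i hi hi
    obtain ⟨hj0, ζ', h4, -, h6⟩ := P.tame_ratio hG c m hm0 hm Q hQ hQc j j' hj2 hj2'
    apply h6
    have h7 := (hf j hj).1
    have h8 := (hf j' hj').1
    have hne : f j ≠ 0 := by
      intro h0
      have := (hf j hj).2
      rw [h0, zero_pow hm0.ne'] at this
      exact zero_ne_one this
    have h9 := h8.div h7 hne
    have h10 : P.hh c j' / P.hh c i / (P.hh c j / P.hh c i) = P.hh c j' / P.hh c j := by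
      field_simp
    rw [h10, ← hjj, div_self hne] at h9
    exact h4.unique h9
  have hsub : (P.cl (algebraMap F k c)).image f ⊆ (nthRoots m (1 : k)).toFinset := by
    intro z hz
    rw [Finset.mem_image] at hz
    obtain ⟨j, hj, rfl⟩ := hz
    rw [Multiset.mem_toFinset, mem_nthRoots hm0]
    exact (hf j hj).2
  have hcard : (nthRoots m (1 : k)).toFinset.card ≤ ((P.cl (algebraMap F k c)).image f).card := by
    rw [Finset.card_image_of_injOn hinj, P.card_cl' hG c m Q hQ hQc]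
    exact (Multiset.toFinset_card_le _).trans (card_nthRoots m 1)
  have heq := Finset.eq_of_subset_of_card_le hsub hcard
  have hmem : ζ ∈ (nthRoots m (1 : k)).toFinset := by
    rw [Multiset.mem_toFinset, mem_nthRoots hm0]
    exact hζ
  rw [← heq, Finset.mem_image] at hmem
  obtain ⟨j, hj, rfl⟩ := hmem
  exact ⟨j, (P.mem_cl _ _).1 hj, (hf j hj).1⟩

theorem ψ_hh (ψ : N →+* N) (hψ : P.Fb ψ) (c : F) (i j : Fin n) (h : ψ (P.y i) = P.y j) :
    ψ (P.hh c i) = P.hh c j := by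
  unfold hh
  rw [map_sub, h]
  congr 1
  show ψ (algebraMap k[X] N (C (algebraMap F k c))) = algebraMap k[X] N (C (algebraMap F k c))
  rw [hψ.1.C, fr_algebraMap]

/-- a Frobenius lift has a fixed root in a tame cluster of index prime to `q - 1` -/
theorem tame_fix (hG : Good A B n) (c : F) (m : ℕ) (hm0 : 0 < m) (hm : (m : F) ≠ 0) (Q : F[X])
    (hQ : A - C v * B = (X - C c) ^ m * Q) (hQc : Q.eval c ≠ 0)
    (hcop : Nat.Coprime m (Fintype.card F - 1)) (ψ : N →+* N) (hψ : P.Fb ψ) :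
    ∃ j, P.r j = algebraMap F k c ∧ ψ (P.y j) = P.y j := by
  classical
  have hroot : (A - C v * B).eval c = 0 := by
    rw [hQ, eval_mul, eval_pow, eval_sub, eval_X, eval_C, sub_self, zero_pow hm0.ne', zero_mul]
  obtain ⟨i, hi⟩ := P.cl_nonempty hG c hroot
  rw [P.mem_cl] at hi
  obtain ⟨σ, hσ⟩ := P.exists_σ hG ψ hψ.1
  have hσr : ∀ j, P.r j = algebraMap F k c → P.r (σ j) = algebraMap F k c := by
    intro j hj
    rw [P.res_fr ψ hψ j (σ j) (hσ j), hj, fr_algebraMap]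
  obtain ⟨hi0, ζ0, hζ0, hζ0m, -⟩ := P.tame_ratio hG c m hm0 hm Q hQ hQc i (σ i) hi (hσr i hi)
  have hζ0ne : ζ0 ≠ 0 := by
    rintro rfl
    rw [zero_pow hm0.ne'] at hζ0m
    exact zero_ne_one hζ0m
  have hq1 : 1 ≤ Fintype.card F := Fintype.card_pos
  obtain ⟨a, b, hab⟩ := Nat.isCoprime_iff_coprime.2 hcop
  set ζ := ζ0 ^ (-b) with hζdef
  have hζm : ζ ^ m = 1 := by
    rw [hζdef, ← zpow_natCast, ← zpow_mul, mul_comm, zpow_mul, zpow_natCast, hζ0m, one_zpow]
  have hζq : ζ ^ Fintype.card F * ζ0 = ζ := by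
    have h1 : ζ ^ (Fintype.card F - 1) * ζ0 = 1 := by
      have h2 : ζ ^ (Fintype.card F - 1) * ζ0 = ζ0 ^ (a * (m : ℤ)) := by
        rw [hζdef, ← zpow_natCast, ← zpow_mul]
        nth_rewrite 2 [← zpow_one ζ0]
        rw [← zpow_add₀ hζ0ne]
        congr 1
        linear_combination (-1 : ℤ) * hab
      rw [h2, mul_comm a, zpow_mul, zpow_natCast, hζ0m, one_zpow]
    calc ζ ^ Fintype.card F * ζ0 = ζ ^ (Fintype.card F - 1 + 1) * ζ0 := by rw [Nat.sub_add_cancel hq1]
      _ = (ζ ^ (Fintype.card F - 1) * ζ0) * ζ := by ring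
      _ = ζ := by rw [h1, one_mul]
  obtain ⟨j, hj, hjζ⟩ := P.tame_surj hG c m hm0 hm Q hQ hQc i hi ζ hζm
  have h1 := hjζ.map hψ.2
  rw [map_div₀, P.ψ_hh ψ hψ c j (σ j) (hσ j), P.ψ_hh ψ hψ c i (σ i) (hσ i)] at h1
  have h2 := h1.mul hζ0
  obtain ⟨hσi0, -⟩ := P.tame_ratio hG c m hm0 hm Q hQ hQc (σ i) (σ i) (hσr i hi) (hσr i hi)
  obtain ⟨hj0, ζ1, h3, -, h4⟩ := P.tame_ratio hG c m hm0 hm Q hQ hQc j (σ j) hj (hσr j hj)
  have hζne : ζ ≠ 0 := zpow_ne_zero _ hζ0ne
  have h5 : P.hh c (σ j) / P.hh c (σ i) * (P.hh c (σ i) / P.hh c i) = P.hh c (σ j) / P.hh c i := by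
    field_simp
  rw [h5, fr_apply, Nat.card_eq_fintype_card, hζq] at h2
  have h6 := h2.div hjζ hζne
  have h7 : P.hh c (σ j) / P.hh c i / (P.hh c j / P.hh c i) = P.hh c (σ j) / P.hh c j := by
    field_simp
  rw [h7, div_self hζne] at h6
  have h8 := h4 (h3.unique h6)
  exact ⟨j, hj, by rw [hσ, ← h8]⟩

/-- the number of fixed roots in a tame cluster -/
theorem tame_le (hG : Good A B n) (c : F) (m : ℕ) (hm0 : 0 < m) (hm : (m : F) ≠ 0) (Q : F[X])
    (hQ : A - C v * B = (X - C c) ^ m * Q) (hQc : Q.eval c ≠ 0) (ψ : N →+* N) (hψ : P.Fb ψ) :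
    {j | P.r j = algebraMap F k c ∧ ψ (P.y j) = P.y j}.ncard ≤
      (Finset.univ.filter fun z : F => z ^ m = 1).card := by
  classical
  by_cases hne : ∃ i, P.r i = algebraMap F k c ∧ ψ (P.y i) = P.y i
  · obtain ⟨i, hi, hi'⟩ := hne
    have h1 : ∀ j ∈ {j | P.r j = algebraMap F k c ∧ ψ (P.y j) = P.y j}, ∃ z : F, z ^ m = 1 ∧
        Rs P.ev (P.hh c j / P.hh c i) (algebraMap F k z) := by
      rintro j ⟨hj, hj'⟩
      obtain ⟨hi0, ζ, h3, h4, -⟩ := P.tame_ratio hG c m hm0 hm Q hQ hQc i j hi hj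
      have h5 := h3.map hψ.2
      rw [map_div₀, P.ψ_hh ψ hψ c j j hj', P.ψ_hh ψ hψ c i i hi'] at h5
      obtain ⟨z, hz⟩ := fr_fixed F k ζ (h5.unique h3)
      refine ⟨z, ?_, by rw [hz]; exact h3⟩
      apply (algebraMap F k).injective
      rw [map_pow, hz, h4, map_one]
    choose! f hf using h1
    rw [← Set.ncard_coe_finset]
    refine Set.ncard_le_ncard_of_injOn f ?_ ?_ (Finset.finite_toSet _)
    · intro j hj
      rw [Finset.mem_coe, Finset.mem_filter]
      exact ⟨Finset.mem_univ _, (hf j hj).1⟩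
    · intro j hj j' hj' hjj
      obtain ⟨hi0, -⟩ := P.tame_ratio hG c m hm0 hm Q hQ hQc i i hi hi
      obtain ⟨hj0, ζ', h4, -, h6⟩ := P.tame_ratio hG c m hm0 hm Q hQ hQc j j' hj.1 hj'.1
      apply h6
      have h7 := (hf j hj).2
      have h8 := (hf j' hj').2
      have hne : algebraMap F k (f j) ≠ 0 := by
        rw [map_ne_zero_iff _ (algebraMap F k).injective]
        intro h0
        have := (hf j hj).1
        rw [h0, zero_pow hm0.ne'] at this
        exact zero_ne_one this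
      have h9 := h8.div h7 hne
      have h10 : P.hh c j' / P.hh c i / (P.hh c j / P.hh c i) = P.hh c j' / P.hh c j := by
        field_simp
      rw [h10, ← hjj, div_self hne] at h9
      exact h4.unique h9
  · push Not at hne
    have : {j | P.r j = algebraMap F k c ∧ ψ (P.y j) = P.y j} = ∅ := by
      ext j
      simp only [Set.mem_setOf_eq, Set.mem_empty_iff_false, iff_false]
      rintro ⟨h1, h2⟩
      exact hne j h1 h2
    rw [this, Set.ncard_empty]
    exact Nat.zero_le _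

end

end Pl

end Pool.Agent.H470
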