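import Pool.Agent.H470.W8

/-!
# Positive exponents: the basic identities between two roots
-/

set_option autoImplicit false
set_option linter.all false

open Polynomial

namespace Pool.Agent.H470

/-- difference quotients of powers -/
noncomputable def dq {N : Type} [CommRing N] (x x' : N) (n : ℕ) : N :=
  ∑ i ∈ Finset.range n, x ^ i * x' ^ (n - 1 - i)

theorem dq_mul {N : Type} [CommRing N] (x x' : N) (n : ℕ) : x ^ n - x' ^ n = (x - x') * dq x x' n := by
  unfold dq
  rw [mul_comm, geom_sum₂_mul]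

theorem Rs.dq {k : Type} [Field k] {N : Type} [Field N] [Algebra k[X] N]
    {ev : integralClosure k[X] N →+* k} {x x' : N} {c : k} (h : Rs ev x c) (h' : Rs ev x' c) (n : ℕ) :
    Rs ev (H470.dq x x' n) (n * c ^ (n - 1)) := by
  have h1 : (n : k) * c ^ (n - 1) = ∑ i ∈ Finset.range n, c ^ i * c ^ (n - 1 - i) := by
    rw [Finset.sum_congr rfl (g := fun _ => c ^ (n - 1))]
    · rw [Finset.sum_const, Finset.card_range, nsmul_eq_mul]
    · intro i hi
      rw [Finset.mem_range] at hi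
      rw [← pow_add]
      congr 1
      omega
  rw [h1]
  exact Rs.sum _ _ _ fun i _ => (h.pow i).mul (h'.pow _)

/-- The identity between two roots. -/
theorem two_roots {N : Type} [Field N] (p l : ℕ) [Fact p.Prime] [CharP N p] (d m : ℕ) (y y' : N)
    (hV : 1 + y ^ d ≠ 0) (hV' : 1 + y' ^ d ≠ 0)
    (h : (1 + y ^ d) ^ (d + p ^ l * m) * (1 + y' ^ (d + p ^ l * m)) ^ d =
      (1 + y' ^ d) ^ (d + p ^ l * m) * (1 + y ^ (d + p ^ l * m)) ^ d) (u u' : N)
    (hu : u = (1 - (1 + y ^ d)⁻¹) * (y ^ m - 1) ^ p ^ l)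
    (hu' : u' = (1 - (1 + y' ^ d)⁻¹) * (y' ^ m - 1) ^ p ^ l) :
    (1 + y ^ d) ^ (p ^ l * m) * (1 + u') ^ d = (1 + y' ^ d) ^ (p ^ l * m) * (1 + u) ^ d := by
  have hE : ∀ z : N, 1 + z ^ d ≠ 0 → 1 + z ^ (d + p ^ l * m) =
      (1 + z ^ d) * (1 + (1 - (1 + z ^ d)⁻¹) * (z ^ m - 1) ^ p ^ l) := by
    intro z hz
    rw [sub_pow_char_pow, one_pow, ← pow_mul, mul_comm m, pow_add]
    field_simp
    ring
  rw [hE y hV, hE y' hV', ← hu, ← hu', mul_pow, mul_pow, pow_add, pow_add] at h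
  apply mul_left_cancel₀ (mul_ne_zero (pow_ne_zero d hV) (pow_ne_zero d hV'))
  linear_combination h

theorem u_sub {N : Type} [Field N] (p l : ℕ) [Fact p.Prime] [CharP N p] (V V' a a' : N)
    (hV : V ≠ 0) (hV' : V' ≠ 0) :
    (1 - V⁻¹) * (a - 1) ^ p ^ l - (1 - V'⁻¹) * (a' - 1) ^ p ^ l =
      (1 - V⁻¹) * (a - a') ^ p ^ l + (V'⁻¹ - V⁻¹) * (a' - 1) ^ p ^ l := by
  have h : (a - a') ^ p ^ l = (a - 1) ^ p ^ l - (a' - 1) ^ p ^ l := by
    rw [← sub_pow_char_pow]
    congr 1
    ring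
  rw [h]
  ring

namespace Pl

section
variable {F k : Type} [Field F] [Fintype F] [DecidableEq F] [Field k] [IsAlgClosed k] [Algebra F k]
variable {N : Type} [Field N] [Algebra (RatFunc k) N] [Algebra k[X] N]
    [IsScalarTower k[X] (RatFunc k) N]

theorem poly_ne {A B : F[X]} {v : F} {n : ℕ} (P : Pl F k N A B v n) (hG : Good A B n) (j : Fin n) (Q : k[X])
    (hQ : Q ≠ 0) : Q.eval₂ (cN k N) (P.y j : N) ≠ 0 := by
  haveI := faithN (k := k) (N := N)
  intro h1
  have h3 : ∃ c : k, (P.y j : N) = cN k N c := by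
    have h4 : (Q.map (cN k N)).eval (P.y j : N) = 0 := by rw [eval_map]; exact h1
    have h5 : Q.map (cN k N) ≠ 0 := (Polynomial.map_ne_zero_iff (cN k N).injective).2 hQ
    have h6 : (P.y j : N) ∈ (Q.map (cN k N)).roots := (mem_roots h5).2 h4
    rw [(IsAlgClosed.splits Q).roots_map, Multiset.mem_map] at h6
    obtain ⟨c, -, hc⟩ := h6
    exact ⟨c, hc.symm⟩
  obtain ⟨c, hc⟩ := h3
  have hy := P.eqn j
  rw [hc, eval₂_at_apply, eval₂_at_apply] at hy
  have hGk : Good (A.map (algebraMap F k)) (B.map (algebraMap F k)) n := hG.map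
  have h7 : algebraMap k[X] N (C ((A.map (algebraMap F k)).eval c) -
      X * C ((B.map (algebraMap F k)).eval c)) = 0 := by
    rw [map_sub, map_mul, sub_eq_zero]
    exact hy
  have h8 := (FaithfulSMul.algebraMap_injective k[X] N) (h7.trans (map_zero _).symm)
  have h9 : (B.map (algebraMap F k)).eval c = 0 := by
    have := congrArg (fun p => p.coeff 1) h8
    simpa using this
  have h10 : (A.map (algebraMap F k)).eval c = 0 := by
    have := congrArg (fun p => p.coeff 0) h8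
    simpa using this
  obtain ⟨u, w, huw⟩ := hGk.cop
  have := congrArg (eval c) huw
  rw [eval_add, eval_mul, eval_mul, h9, h10, mul_zero, mul_zero, add_zero, eval_one] at this
  exact zero_ne_one this

variable {e d : ℕ} {v : F} {n : ℕ} (P : Pl F k N (iA F e d) (iB F e d) v n)
include P

theorem V_ne (hG : Good (iA F e d) (iB F e d) n) (hd : 0 < d) (j : Fin n) : 1 + (P.y j : N) ^ d ≠ 0 := by
  have h := P.poly_ne hG j (1 + X ^ d) (one_add_X_pow_monic d hd).1.ne_zero
  rw [eval₂_add, eval₂_one, eval₂_pow, eval₂_X] at h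
  exact h

theorem y1_ne (hG : Good (iA F e d) (iB F e d) n) (j : Fin n) : 1 + (P.y j : N) ≠ 0 := by
  have h := P.poly_ne hG j (1 + X) one_add_X_monic.1.ne_zero
  rw [eval₂_add, eval₂_one, eval₂_X] at h
  exact h

theorem basic (he : Odd e) (hd : Odd d) (hlt : d < e) (j : Fin n) :
    (1 + (P.y j : N) ^ d) ^ e * (1 + algebraMap k[X] N X) =
      algebraMap k[X] N X * (1 + (P.y j : N) ^ e) ^ d := by
  have h := P.eqn j
  rw [iA_map, iB_map] at h
  unfold iB iA at h
  rw [eval₂_sub, eval₂_mul, eval₂_pow, eval₂_pow, eval₂_pow, eval₂_add, eval₂_one, eval₂_X] at h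
  set y : N := (P.y j : N)
  set g := (gg k d).eval₂ (cN k N) y
  set g' := (gg k e).eval₂ (cN k N) y
  have h1 : (1 + y) * g = 1 + y ^ d := by
    have := congrArg (eval₂ (cN k N) y) (gg_mul (K := k) d hd)
    rw [eval₂_mul, eval₂_add, eval₂_add, eval₂_one, eval₂_X, eval₂_pow, eval₂_X] at this
    exact this
  have h2 : (1 + y) * g' = 1 + y ^ e := by
    have := congrArg (eval₂ (cN k N) y) (gg_mul (K := k) e he)
    rw [eval₂_mul, eval₂_add, eval₂_add, eval₂_one, eval₂_X, eval₂_pow, eval₂_X] at this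
    exact this
  have h3 : (1 + y ^ d) ^ e = (1 + y) ^ d * (g ^ e * (1 + y) ^ (e - d)) := by
    rw [← h1, mul_pow]
    have : (1 + y) ^ e = (1 + y) ^ d * (1 + y) ^ (e - d) := by
      rw [← pow_add]
      congr 1
      omega
    rw [this]
    ring
  have h4 : (1 + y ^ e) ^ d = (1 + y) ^ d * g' ^ d := by rw [← h2, mul_pow]
  rw [h3, h4]
  linear_combination (1 + y) ^ d * h

theorem pair (he : Odd e) (hd : Odd d) (hlt : d < e) (i j : Fin n) :
    (1 + (P.y i : N) ^ d) ^ e * (1 + (P.y j : N) ^ e) ^ d =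
      (1 + (P.y j : N) ^ d) ^ e * (1 + (P.y i : N) ^ e) ^ d := by
  haveI := faithN (k := k) (N := N)
  have h1 := P.basic he hd hlt i
  have h2 := P.basic he hd hlt j
  have hX : algebraMap k[X] N X ≠ 0 := by
    intro h
    exact X_ne_zero ((FaithfulSMul.algebraMap_injective k[X] N) (h.trans (map_zero _).symm))
  apply mul_left_cancel₀ hX
  linear_combination (-(1 + (P.y i : N) ^ d) ^ e) * h2 + ((1 + (P.y j : N) ^ d) ^ e) * h1

end

end Pl

end Pool.Agent.H470
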