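import Pool.Agent.H470.Qd1
import Pool.Agent.H470.Reduce

/-!
# Walsh transform of a power permutation and its first four power moments
-/

set_option autoImplicit false
set_option linter.all false

namespace Pool.Agent.H470

section
variable {L : Type} [Field L] [Fintype L] [DecidableEq L]

/-- if `x ↦ x ^ s + (1 - x) ^ s` is constant, then `s` is a power of the characteristic -/
theorem auto_of_const (s : ℕ) (hs0 : 0 < s) (hodd : Odd s) (h : ∀ x : L, x ^ s + (1 - x) ^ s = 1) :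
    ∃ k : ℕ, s ≡ ringChar L ^ k [MOD Fintype.card L - 1] := by
  classical
  have hadd : ∀ x y : L, (x + y) ^ s = x ^ s + y ^ s := by
    intro x y
    by_cases h0 : x + y = 0
    · have h1 : y = -x := by linear_combination h0
      rw [h0, h1, hodd.neg_pow, zero_pow hs0.ne']
      ring
    · have h1 := h (x / (x + y))
      have h2 : 1 - x / (x + y) = y / (x + y) := by
        field_simp
        ring
      rw [h2, div_pow, div_pow] at h1
      have h3 : (x + y) ^ s ≠ 0 := pow_ne_zero _ h0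
      field_simp at h1
      exact h1.symm
  haveI : Fact (ringChar L).Prime := ⟨CharP.char_is_prime L (ringChar L)⟩
  letI : Algebra (ZMod (ringChar L)) L := ZMod.algebra L (ringChar L)
  let φ : L →+* L :=
    { toFun := fun x => x ^ s
      map_one' := one_pow s
      map_mul' := fun x y => mul_pow x y s
      map_zero' := zero_pow hs0.ne'
      map_add' := hadd }
  let ψ : L →ₐ[ZMod (ringChar L)] L :=
    { φ with
      commutes' := fun r => by
        have : φ.comp (algebraMap (ZMod (ringChar L)) L) = algebraMap (ZMod (ringChar L)) L :=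
          Subsingleton.elim _ _
        exact congrArg (fun g : ZMod (ringChar L) →+* L => g r) this }
  obtain ⟨k, hk⟩ := (FiniteField.bijective_frobeniusAlgHom_pow (ZMod (ringChar L)) L).2 ψ
  refine ⟨k.1, ?_⟩
  obtain ⟨g, hg⟩ := exists_prim (L := L) (Fintype.card L - 1) dvd_rfl
  have h1 : g ^ s = g ^ (ringChar L) ^ k.1 := by
    have h2 : ψ g = g ^ s := rfl
    rw [← h2, ← hk]
    show ((FiniteField.frobeniusAlgHom (ZMod (ringChar L)) L) ^ k.1) g = _
    rw [AlgHom.coe_pow, FiniteField.coe_frobeniusAlgHom, pow_iterate, ZMod.card]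
  have hg0 : g ≠ 0 := by
    intro h0
    have h3 := hg.pow_eq_one
    have h4 : 1 < Fintype.card L := Fintype.one_lt_card
    rw [h0, zero_pow (by omega)] at h3
    exact zero_ne_one h3
  have key : ∀ m n : ℕ, m ≤ n → g ^ m = g ^ n → m ≡ n [MOD Fintype.card L - 1] := by
    intro m n hmn he
    rw [Nat.modEq_iff_dvd' hmn]
    apply hg.dvd_of_pow_eq_one
    have h5 : g ^ m * g ^ (n - m) = g ^ m * 1 := by
      rw [← pow_add, Nat.add_sub_cancel' hmn, mul_one, he]
    exact mul_left_cancel₀ (pow_ne_zero _ hg0) h5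
  rcases le_total s ((ringChar L) ^ k.1) with h5 | h5
  · exact key _ _ h5 h1
  · exact (key _ _ h5 h1.symm).symm

/-- the Fourier transform -/
noncomputable def FT (ψ : AddChar L ℂ) (A : L → ℂ) (a : L) : ℂ := ∑ x : L, A x * ψ (-(a * x))

theorem FT_sum (ψ : AddChar L ℂ) (hψ : ψ.IsPrimitive) (A : L → ℂ) :
    ∑ a : L, FT ψ A a = Fintype.card L * A 0 := by
  unfold FT
  rw [Finset.sum_comm, Finset.sum_eq_single (0 : L)]
  · rw [← Finset.mul_sum]
    simp only [mul_zero, neg_zero, AddChar.map_zero_eq_one, Finset.sum_const, Finset.card_univ,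
      nsmul_eq_mul, mul_one]
    ring
  · intro x _ hx
    rw [← Finset.mul_sum]
    have h1 := AddChar.sum_mulShift (-x) hψ
    rw [if_neg (neg_ne_zero.2 hx)] at h1
    have h2 : ∑ a : L, ψ (-(a * x)) = ∑ a : L, ψ (a * -x) :=
      Finset.sum_congr rfl (fun a _ => by rw [mul_neg])
    rw [h2, h1]
    simp
  · intro h0
    exact absurd (Finset.mem_univ _) h0

theorem FT_mul (ψ : AddChar L ℂ) (A B : L → ℂ) (a : L) :
    FT ψ A a * FT ψ B a = FT ψ (fun u => ∑ x : L, A x * B (u - x)) a := by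
  unfold FT
  rw [Finset.sum_mul_sum]
  have h1 : ∀ u : L, (∑ x : L, A x * B (u - x)) * ψ (-(a * u)) =
      ∑ x : L, A x * B (u - x) * ψ (-(a * u)) := fun u => Finset.sum_mul _ _ _
  simp only [h1]
  rw [Finset.sum_comm]
  conv_rhs => rw [Finset.sum_comm]
  rw [Finset.sum_comm]
  apply Finset.sum_congr rfl
  intro x _
  refine Fintype.sum_equiv (Equiv.addLeft x) _ _ ?_
  intro y
  show A x * ψ (-(a * x)) * (B y * ψ (-(a * y))) = A x * B (x + y - x) * ψ (-(a * (x + y)))
  rw [show x + y - x = y by ring, show -(a * (x + y)) = -(a * x) + -(a * y) by ring,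
    AddChar.map_add_eq_mul]
  ring

theorem FT_mul_sum (ψ : AddChar L ℂ) (hψ : ψ.IsPrimitive) (A B : L → ℂ) :
    ∑ a : L, FT ψ A a * FT ψ B a = Fintype.card L * ∑ u : L, A u * B (-u) := by
  simp only [FT_mul]
  rw [FT_sum ψ hψ]
  simp only [zero_sub]

/-- the Walsh transform of `x ↦ x ^ s` -/
noncomputable def WT (ψ : AddChar L ℂ) (s : ℕ) (a : L) : ℂ := ∑ x : L, ψ (x ^ s - a * x)

theorem WT_eq (ψ : AddChar L ℂ) (s : ℕ) (a : L) : WT ψ s a = FT ψ (fun x => ψ (x ^ s)) a := by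
  unfold WT FT
  apply Finset.sum_congr rfl
  intro x _
  rw [sub_eq_add_neg, AddChar.map_add_eq_mul]

/-- the derivative of `x ↦ x ^ s` -/
def Ds (s : ℕ) (x : L) : L := x ^ s + (1 - x) ^ s

theorem Ds_sym (s : ℕ) (x : L) : Ds s (1 - x) = Ds s x := by
  unfold Ds
  rw [show 1 - (1 - x) = x by ring, add_comm]

theorem conv_eq (ψ : AddChar L ℂ) (s : ℕ) (hs0 : 0 < s) (hodd : Odd s) (u : L) :
    ∑ x : L, ψ (x ^ s) * ψ ((u - x) ^ s) = ∑ x : L, ψ (u ^ s * Ds s x) := by
  by_cases hu : u = 0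
  · rw [hu]
    apply Finset.sum_congr rfl
    intro x _
    rw [← AddChar.map_add_eq_mul, zero_sub, hodd.neg_pow, zero_pow hs0.ne', zero_mul]
    congr 1
    ring
  · symm
    refine Fintype.sum_equiv (Equiv.mulLeft₀ u hu) _ _ ?_
    intro x
    show ψ (u ^ s * Ds s x) = ψ ((u * x) ^ s) * ψ ((u - u * x) ^ s)
    rw [← AddChar.map_add_eq_mul]
    congr 1
    unfold Ds
    rw [show u - u * x = u * (1 - x) by ring, mul_pow, mul_pow]
    ring

theorem char_sum_pow (ψ : AddChar L ℂ) (hψ : ψ.IsPrimitive) (s : ℕ)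
    (hbij : Function.Bijective fun x : L => x ^ s) (c : L) :
    ∑ u : L, ψ (u ^ s * c) = if c = 0 then (Fintype.card L : ℂ) else 0 := by
  have h1 := AddChar.sum_mulShift c hψ
  rw [← Function.Bijective.sum_comp hbij (fun x => ψ (x * c))] at h1
  exact h1.trans (by push_cast; rfl)

theorem pow_bij (s : ℕ) (hs0 : 0 < s) (hcop : Nat.Coprime s (Fintype.card L - 1)) :
    Function.Bijective fun x : L => x ^ s := by
  rw [← Finite.injective_iff_bijective]
  intro x y hxy
  simp only at hxy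
  by_cases hx : x = 0
  · rw [hx, zero_pow hs0.ne'] at hxy
    rw [hx]
    exact ((pow_eq_zero_iff hs0.ne').1 hxy.symm).symm
  · have hy : y ≠ 0 := by
      intro hy
      rw [hy, zero_pow hs0.ne'] at hxy
      exact hx ((pow_eq_zero_iff hs0.ne').1 hxy)
    have h1 : (x / y) ^ s = 1 := by
      rw [div_pow, hxy, div_self (pow_ne_zero _ hy)]
    have h2 : (x / y) ^ (Fintype.card L - 1) = 1 := FiniteField.pow_card_sub_one_eq_one _ (div_ne_zero hx hy)
    have h3 : (x / y) ^ (Nat.gcd s (Fintype.card L - 1)) = 1 := by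
      rw [pow_gcd_eq_one]
      exact ⟨h1, h2⟩
    rw [hcop, pow_one] at h3
    exact (div_eq_one_iff_eq hy).1 h3

section mom
variable (ψ : AddChar L ℂ) (hψ : ψ.IsPrimitive) (s : ℕ) (hs0 : 0 < s) (hodd : Odd s)
  (hbij : Function.Bijective fun x : L => x ^ s)
include hψ hs0 hodd

theorem WT_mom1 : ∑ a : L, WT ψ s a = Fintype.card L := by
  simp only [WT_eq]
  rw [FT_sum ψ hψ, zero_pow hs0.ne', AddChar.map_zero_eq_one, mul_one]

theorem WT_mom2 : ∑ a : L, (WT ψ s a) ^ 2 = (Fintype.card L : ℂ) ^ 2 := by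
  simp only [WT_eq, sq]
  rw [FT_mul_sum ψ hψ]
  have h1 : ∀ u : L, ψ (u ^ s) * ψ ((-u) ^ s) = 1 := by
    intro u
    rw [← AddChar.map_add_eq_mul, hodd.neg_pow, add_neg_cancel, AddChar.map_zero_eq_one]
  simp only [h1]
  rw [Finset.sum_const, Finset.card_univ, nsmul_eq_mul, mul_one]

include hbij

theorem WT_mom3 : ∑ a : L, (WT ψ s a) ^ 3 = (Fintype.card L : ℂ) ^ 2 * fc (Ds s) (1 : L) := by
  have h0 : ∀ a : L, (WT ψ s a) ^ 3 =
      FT ψ (fun u => ∑ x : L, ψ (u ^ s * Ds s x)) a * FT ψ (fun x => ψ (x ^ s)) a := by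
    intro a
    rw [pow_succ, sq, WT_eq, FT_mul]
    simp only [conv_eq ψ s hs0 hodd]
  rw [Finset.sum_congr rfl (fun a _ => h0 a), FT_mul_sum ψ hψ]
  have h1 : ∑ u : L, (∑ x : L, ψ (u ^ s * Ds s x)) * ψ ((-u) ^ s) =
      ∑ x : L, ∑ u : L, ψ (u ^ s * (Ds s x - 1)) := by
    rw [Finset.sum_comm]
    apply Finset.sum_congr rfl
    intro u _
    rw [Finset.sum_mul]
    apply Finset.sum_congr rfl
    intro x _
    rw [← AddChar.map_add_eq_mul, hodd.neg_pow]
    congr 1
    ring
  rw [h1]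
  simp only [char_sum_pow ψ hψ s hbij]
  rw [Finset.sum_ite, Finset.sum_const_zero, add_zero, Finset.sum_const, nsmul_eq_mul]
  have h2 : (Finset.univ.filter fun x : L => Ds s x - 1 = 0).card = fc (Ds s) (1 : L) := by
    unfold fc
    congr 1
    ext x
    rw [Finset.mem_filter, Finset.mem_filter, sub_eq_zero]
  rw [h2]
  ring

theorem WT_mom4 : ∑ a : L, (WT ψ s a) ^ 4 =
    (Fintype.card L : ℂ) ^ 2 * (∑ v : L, (fc (Ds s) v) ^ 2 : ℕ) := by
  have h0 : ∀ a : L, (WT ψ s a) ^ 4 =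
      FT ψ (fun u => ∑ x : L, ψ (u ^ s * Ds s x)) a * FT ψ (fun u => ∑ x : L, ψ (u ^ s * Ds s x)) a := by
    intro a
    rw [show (4 : ℕ) = 2 + 2 from rfl, pow_add, sq, WT_eq, FT_mul]
    simp only [conv_eq ψ s hs0 hodd]
  rw [Finset.sum_congr rfl (fun a _ => h0 a), FT_mul_sum ψ hψ]
  have h1 : ∑ u : L, (∑ x : L, ψ (u ^ s * Ds s x)) * (∑ x : L, ψ ((-u) ^ s * Ds s x)) =
      ∑ x : L, ∑ y : L, ∑ u : L, ψ (u ^ s * (Ds s x - Ds s y)) := by
    have h2 : ∀ u : L, (∑ x : L, ψ (u ^ s * Ds s x)) * (∑ x : L, ψ ((-u) ^ s * Ds s x)) =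
        ∑ x : L, ∑ y : L, ψ (u ^ s * (Ds s x - Ds s y)) := by
      intro u
      rw [Finset.sum_mul_sum]
      apply Finset.sum_congr rfl
      intro x _
      apply Finset.sum_congr rfl
      intro y _
      rw [← AddChar.map_add_eq_mul, hodd.neg_pow]
      congr 1
      ring
    rw [Finset.sum_congr rfl (fun u _ => h2 u), Finset.sum_comm]
    apply Finset.sum_congr rfl
    intro x _
    rw [Finset.sum_comm]
  rw [h1]
  simp only [char_sum_pow ψ hψ s hbij]
  rw [sum_sq_fc, count_prod (fun x y : L => Ds s x = Ds s y)]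
  push_cast
  rw [Finset.mul_sum, Finset.mul_sum]
  apply Finset.sum_congr rfl
  intro x _
  rw [Finset.sum_ite, Finset.sum_const_zero, add_zero, Finset.sum_const, nsmul_eq_mul]
  simp only [sub_eq_zero]
  ring

end mom

end
end Pool.Agent.H470
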