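import Pool.Agent.H470.Wal2

/-!
# Power permutations with at most three Walsh values: final form
-/

set_option autoImplicit false
set_option linter.all false

namespace Pool.Agent.H470

section
variable {L : Type} [Field L] [Fintype L] [DecidableEq L]

theorem int_of_rat (z : ℂ) (hz : IsIntegral ℤ z) (x y : ℤ) (hy : y ≠ 0) (h : z * y = x) :
    ∃ n : ℤ, z = n := by
  have hy' : (y : ℂ) ≠ 0 := by exact_mod_cast hy
  have h1 : z = algebraMap ℚ ℂ ((x : ℚ) / y) := by
    rw [eq_ratCast]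
    push_cast
    field_simp
    exact h
  rw [h1] at hz
  have h2 : IsIntegral ℤ ((x : ℚ) / y) := by
    exact (isIntegral_algebraMap_iff (algebraMap ℚ ℂ).injective).1 hz
  obtain ⟨n, hn⟩ := IsIntegrallyClosed.isIntegral_iff.1 h2
  refine ⟨n, ?_⟩
  rw [h1, ← hn]
  simp

/-- **three Walsh values `0, A, B` with `A + B` not an odd integer: not nice** -/
theorem three_gen (hchar : ringChar L ≠ 2) (s : ℕ) (hcop : Nat.Coprime s (Fintype.card L - 1))
    (hs : ¬ ∃ k : ℕ, s ≡ ringChar L ^ k [MOD Fintype.card L - 1])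
    (ψ : AddChar L ℂ) (hψ : ψ ≠ 1) (A B : ℂ) (hAB : ¬ ∃ m : ℤ, A + B = 2 * m + 1)
    (h3 : ∀ a : L, WT ψ s a = 0 ∨ WT ψ s a = A ∨ WT ψ s a = B) :
    4 ≤ (Finset.univ.image (fc (Ds (L := L) s))).card := by
  by_contra hcon
  have hnice : (Finset.univ.image (fc (Ds (L := L) s))).card ≤ 3 := by omega
  have hs0 := s_pos hchar s hcop
  have hodd := s_odd hchar s hcop
  have hbij := pow_bij (L := L) s hs0 hcop
  have hprim := AddChar.IsPrimitive.of_ne_one hψ
  have hbig := hbig_gen (L := L) s hs0 hodd hs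
  have h2 : (2 : L) ≠ 0 := by
    intro h0
    apply hchar
    have h1 : ((2 : ℕ) : L) = 0 := by exact_mod_cast h0
    exact (Nat.prime_dvd_prime_iff_eq (CharP.char_is_prime L (ringChar L)) Nat.prime_two).1
      ((ringChar.spec L 2).1 h1)
  have hq : Odd (Fintype.card L) := by
    obtain ⟨t, ht⟩ := card_sub_one_even (L := L) hchar
    have := card_gt_two (L := L) hchar
    exact ⟨t, by omega⟩
  by_cases hA : ∃ α : L, WT ψ s α = A
  swap
  · refine three_even h2 hq s hs0 hodd hbij hbig ψ hprim (-B) B 0 (by push_cast; ring) ?_ hnice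
    intro α
    rcases h3 α with h | h | h
    · exact Or.inl h
    · exact absurd ⟨α, h⟩ hA
    · exact Or.inr (Or.inr h)
  by_cases hB : ∃ α : L, WT ψ s α = B
  swap
  · refine three_even h2 hq s hs0 hodd hbij hbig ψ hprim A (-A) 0 (by push_cast; ring) ?_ hnice
    intro α
    rcases h3 α with h | h | h
    · exact Or.inl h
    · exact Or.inr (Or.inl h)
    · exact absurd ⟨α, h⟩ hB
  obtain ⟨α, hα⟩ := hA
  obtain ⟨β, hβ⟩ := hB
  have hint : IsIntegral ℤ (A + B) := by
    rw [← hα, ← hβ]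
    exact (WT_integral ψ s α).add (WT_integral ψ s β)
  have m1 := WT_mom1 ψ hprim s hs0 hodd
  have m2 := WT_mom2 ψ hprim s hs0 hodd
  have m3 := WT_mom3 ψ hprim s hs0 hodd hbij
  have m4 := WT_mom4 ψ hprim s hs0 hodd hbij
  have hW : ∀ α : L, (WT ψ s α) ^ 3 = (A + B) * (WT ψ s α) ^ 2 - A * B * WT ψ s α := by
    intro α
    rcases h3 α with h | h | h
    · rw [h]
      ring
    · rw [h]
      ring
    · rw [h]
      ring
  have e1 : ∑ α : L, (WT ψ s α) ^ 3 = (A + B) * ∑ α : L, (WT ψ s α) ^ 2 - A * B * ∑ α : L, WT ψ s α := by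
    rw [Finset.mul_sum, Finset.mul_sum, ← Finset.sum_sub_distrib]
    exact Finset.sum_congr rfl (fun α _ => hW α)
  have e2 : ∑ α : L, (WT ψ s α) ^ 4 = (A + B) * ∑ α : L, (WT ψ s α) ^ 3 - A * B * ∑ α : L, (WT ψ s α) ^ 2 := by
    rw [Finset.mul_sum, Finset.mul_sum, ← Finset.sum_sub_distrib]
    apply Finset.sum_congr rfl
    intro α _
    have h4 := hW α
    calc (WT ψ s α) ^ 4 = (WT ψ s α) ^ 3 * WT ψ s α := by ring
      _ = ((A + B) * (WT ψ s α) ^ 2 - A * B * WT ψ s α) * WT ψ s α := by rw [h4]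
      _ = (A + B) * (WT ψ s α) ^ 3 - A * B * (WT ψ s α) ^ 2 := by ring
  rw [m3, m2, m1] at e1
  rw [m4, m3, m2] at e2
  have hNq : fc (Ds s) (1 : L) ≠ Fintype.card L := by
    intro h
    have h1 : (Finset.univ.filter fun x : L => Ds s x = 1) = Finset.univ := by
      rw [← Finset.card_eq_iff_eq_univ]
      exact h
    apply hs
    apply auto_of_const s hs0 hodd
    intro x
    have h5 : x ∈ (Finset.univ.filter fun x : L => Ds s x = 1) := by
      rw [h1]
      exact Finset.mem_univ _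
    exact (Finset.mem_filter.1 h5).2
  obtain ⟨q, hqq⟩ : ∃ q, q = Fintype.card L := ⟨_, rfl⟩
  obtain ⟨N, hN⟩ : ∃ N, N = fc (Ds s) (1 : L) := ⟨_, rfl⟩
  obtain ⟨T, hTT⟩ : ∃ T, T = ∑ v : L, (fc (Ds s) v) ^ 2 := ⟨_, rfl⟩
  have hq0 : 0 < q := hqq ▸ Fintype.card_pos
  rw [← hqq, ← hN] at e1 hNq
  rw [← hqq, ← hN, ← hTT] at e2
  have hqc : (q : ℂ) ≠ 0 := by exact_mod_cast hq0.ne'
  have e3 : A * B = q * ((A + B) - N) := by
    apply mul_right_cancel₀ hqc
    linear_combination e1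
  have e4 : (T : ℂ) = (A + B) * N - q * ((A + B) - N) := by
    apply mul_left_cancel₀ (pow_ne_zero 2 hqc)
    rw [e2, e3]
    ring
  obtain ⟨n, hn⟩ := int_of_rat (A + B) hint ((T : ℤ) - q * N) ((N : ℤ) - q)
    (by intro h; apply hNq; omega) (by push_cast; linear_combination -e4)
  obtain ⟨m, hm | hm⟩ := n.even_or_odd'
  · exact three_even h2 hq s hs0 hodd hbij hbig ψ hprim A B m (by rw [hn, hm]; push_cast; ring) h3 hnice
  · exact hAB ⟨m, by rw [hn, hm]; push_cast; ring⟩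

end
end Pool.Agent.H470
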