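import Mathlib

/-!
# Alternating forms have even rank; Gauss sums of quadratic forms over prime fields
-/

set_option autoImplicit false
set_option linter.all false

namespace Pool.Agent.H470

open Module

/-- an alternating form has even rank -/
theorem alt_even {K V : Type*} [Field K] [AddCommGroup V] [Module K V] [FiniteDimensional K V]
    (h2 : (2 : K) ≠ 0) (A : V →ₗ[K] V →ₗ[K] K) (hA : ∀ v, A v v = 0) :
    ∃ r : ℕ, finrank K V = 2 * r + finrank K (LinearMap.ker A) := by
  have hsk : ∀ u v, A u v = -A v u := by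
    intro u v
    have h := hA (u + v)
    simp only [map_add, LinearMap.add_apply, hA] at h
    linear_combination h
  obtain ⟨U, hU⟩ := Submodule.exists_isCompl (LinearMap.ker A)
  have hdim : finrank K (LinearMap.ker A) + finrank K U = finrank K V := Submodule.finrank_add_eq_of_isCompl hU
  obtain ⟨d, hd⟩ : ∃ d, d = finrank K U := ⟨_, rfl⟩
  have b : Basis (Fin d) K U := by
    rw [hd]
    exact Module.finBasis K U
  obtain ⟨M, hM⟩ : ∃ M : Matrix (Fin d) (Fin d) K, M = Matrix.of fun i j => A (b i : V) (b j : V) := ⟨_, rfl⟩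
  have hT : M.transpose = -M := by
    ext i j
    rw [Matrix.transpose_apply, Matrix.neg_apply, hM, Matrix.of_apply, Matrix.of_apply]
    exact hsk _ _
  have hdet : M.det ≠ 0 := by
    intro h0
    obtain ⟨v, hv0, hv⟩ := Matrix.exists_vecMul_eq_zero_iff.2 h0
    apply hv0
    obtain ⟨u, hu⟩ : ∃ u : U, u = ∑ i, v i • b i := ⟨_, rfl⟩
    have h1 : ∀ j, A (u : V) (b j : V) = 0 := by
      intro j
      have h3 := congrFun hv j
      rw [Matrix.vecMul, dotProduct] at h3
      rw [hu]
      simp only [Submodule.coe_sum, Submodule.coe_smul, map_sum, map_smul, LinearMap.sum_apply,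
        LinearMap.smul_apply, smul_eq_mul]
      rw [hM] at h3
      exact h3
    have h3 : ∀ x : U, A (u : V) (x : V) = 0 := by
      intro x
      rw [← b.sum_repr x]
      simp only [Submodule.coe_sum, Submodule.coe_smul, map_sum, map_smul, smul_eq_mul]
      apply Finset.sum_eq_zero
      intro j _
      rw [h1 j, mul_zero]
    have h4 : A (u : V) = 0 := by
      ext x
      have hx : x ∈ LinearMap.ker A ⊔ U := by
        rw [hU.sup_eq_top]
        exact Submodule.mem_top
      obtain ⟨k, hk, y, hy, rfl⟩ := Submodule.mem_sup.1 hx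
      rw [map_add, h3 ⟨y, hy⟩, hsk, LinearMap.mem_ker.1 hk]
      simp
    have h5 : (u : V) = 0 := by
      have h6 := hU.disjoint
      rw [Submodule.disjoint_def] at h6
      exact h6 _ (LinearMap.mem_ker.2 h4) u.2
    have h6 : u = 0 := by exact_mod_cast h5
    rw [hu] at h6
    have h7 := Fintype.linearIndependent_iff.1 b.linearIndependent v h6
    funext i
    exact h7 i
  rcases Nat.even_or_odd d with he | ho
  · obtain ⟨r, hr⟩ := he
    exact ⟨r, by omega⟩
  · exfalso
    apply hdet
    have h1 : M.det = (-1) ^ d * M.det := by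
      conv_lhs => rw [← Matrix.det_transpose, hT, Matrix.det_neg, Fintype.card_fin]
    rw [ho.neg_one_pow] at h1
    have h3 : 2 * M.det = 0 := by linear_combination h1
    exact (mul_eq_zero.1 h3).resolve_left h2

section gauss
variable {p : ℕ} [hp : Fact p.Prime]

/-- quadratic Gauss sums change sign -/
theorem gauss_sign (hp2 : p ≠ 2) (ψ : AddChar (ZMod p) ℂ) (hψ : ψ.IsPrimitive) (ν : ZMod p)
    (hν : ¬ IsSquare ν) (c : ZMod p) (hc : c ≠ 0) :
    ∑ t : ZMod p, ψ (ν * (c * (t * t))) = - ∑ t : ZMod p, ψ (c * (t * t)) := by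
  classical
  have hchar : ringChar (ZMod p) ≠ 2 := by rwa [ZMod.ringChar_zmod_n]
  have h2 : (2 : ZMod p) ≠ 0 := Ring.two_ne_zero hchar
  have hν0 : ν ≠ 0 := fun h => hν (h ▸ IsSquare.zero)
  -- the number of square roots
  have hs : ∀ x : ZMod p, ((Finset.univ.filter fun t : ZMod p => t * t = x).card : ℤ) = quadraticChar (ZMod p) x + 1 := by
    intro x
    have h3 := quadraticChar_card_sqrts hchar x
    rw [← h3]
    congr 1
    rw [Set.toFinset_card]
    have : (Finset.univ.filter fun t : ZMod p => t * t = x) = (Finset.univ.filter fun t : ZMod p => t ^ 2 = x) := by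
      ext t
      rw [Finset.mem_filter, Finset.mem_filter, sq]
    rw [this, ← Fintype.card_subtype]
    rfl
  have hcount : ∀ x : ZMod p, (Finset.univ.filter fun t : ZMod p => t * t = x).card +
      (Finset.univ.filter fun t : ZMod p => ν * (t * t) = x).card = 2 := by
    intro x
    have h3 : (Finset.univ.filter fun t : ZMod p => ν * (t * t) = x) =
        (Finset.univ.filter fun t : ZMod p => t * t = x * ν⁻¹) := by
      ext t
      rw [Finset.mem_filter, Finset.mem_filter]
      refine and_congr_right (fun _ => ?_)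
      constructor
      · intro h
        rw [← h]
        field_simp
      · intro h
        rw [h]
        field_simp
    rw [h3]
    have h4 := hs x
    have h5 := hs (x * ν⁻¹)
    by_cases hx : x = 0
    · rw [hx, zero_mul] at h5 ⊢
      rw [quadraticChar_zero] at h5
      omega
    · have h6 : quadraticChar (ZMod p) (x * ν⁻¹) = - quadraticChar (ZMod p) x := by
        have hνi : ¬ IsSquare ν⁻¹ := by
          rintro ⟨r, hr⟩
          apply hν
          exact ⟨r⁻¹, by rw [← mul_inv, ← hr, inv_inv]⟩
        rw [map_mul, (quadraticChar_neg_one_iff_not_isSquare).2 hνi]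
        ring
      rw [h6] at h5
      omega
  have hfib : ∀ g : ZMod p → ZMod p, ∑ t : ZMod p, ψ (c * g t) =
      ∑ x : ZMod p, ((Finset.univ.filter fun t : ZMod p => g t = x).card : ℂ) * ψ (c * x) := by
    intro g
    rw [← Finset.sum_fiberwise Finset.univ g (fun t => ψ (c * g t))]
    apply Finset.sum_congr rfl
    intro x _
    rw [Finset.sum_congr rfl (fun t ht => by rw [(Finset.mem_filter.1 ht).2]), Finset.sum_const, nsmul_eq_mul]
  have h3 : ∑ t : ZMod p, ψ (ν * (c * (t * t))) = ∑ t : ZMod p, ψ (c * (ν * (t * t))) := by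
    apply Finset.sum_congr rfl
    intro t _
    congr 1
    ring
  rw [h3, eq_neg_iff_add_eq_zero, hfib (fun t => ν * (t * t)), hfib (fun t => t * t), ← Finset.sum_add_distrib]
  have h4 : ∀ x : ZMod p, ((Finset.univ.filter fun t : ZMod p => ν * (t * t) = x).card : ℂ) * ψ (c * x) +
      ((Finset.univ.filter fun t : ZMod p => t * t = x).card : ℂ) * ψ (c * x) = 2 * ψ (x * c) := by
    intro x
    have h5 : ((Finset.univ.filter fun t : ZMod p => t * t = x).card : ℂ) +
      ((Finset.univ.filter fun t : ZMod p => ν * (t * t) = x).card : ℂ) = 2 := by exact_mod_cast hcount x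
    rw [← add_mul, add_comm, mul_comm c x, ← h5]
  rw [Finset.sum_congr rfl (fun x _ => h4 x), ← Finset.mul_sum]
  have h6 := AddChar.sum_mulShift c hψ
  rw [if_neg hc] at h6
  rw [h6]
  simp

end gauss
end Pool.Agent.H470
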