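import Pool.Agent.H470.Wt1

/-!
# Exponential sums of quadratic forms over prime fields
-/

set_option autoImplicit false
set_option linter.all false

namespace Pool.Agent.H470

open Module

section
variable {p : ℕ} [hp : Fact p.Prime] {V : Type} [AddCommGroup V] [Module (ZMod p) V] [Fintype V] [DecidableEq V]

theorem addChar_sum {A ι : Type*} [AddCommMonoid A] (ψ : AddChar A ℂ) (s : Finset ι) (f : ι → A) :
    ψ (∑ i ∈ s, f i) = ∏ i ∈ s, ψ (f i) := by
  classical
  induction s using Finset.induction_on with
  | empty => rw [Finset.sum_empty, Finset.prod_empty, AddChar.map_zero_eq_one]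
  | insert a s ha ih => rw [Finset.sum_insert ha, Finset.prod_insert ha, AddChar.map_add_eq_mul, ih]

theorem quad_sign (hp2 : p ≠ 2) (b : V →ₗ[ZMod p] V →ₗ[ZMod p] ZMod p)
    (ψ : AddChar (ZMod p) ℂ) (hψ : ψ.IsPrimitive) (ν : ZMod p) (hν : ¬ IsSquare ν) :
    ∃ ρ z : ℕ, finrank (ZMod p) V = ρ + z ∧
      ∑ v : V, ψ (ν * b v v) = (-1) ^ ρ * ∑ v : V, ψ (b v v) ∧
      (Finset.univ.filter fun v : V => ∀ u : V, b u v + b v u = 0).card = p ^ z := by
  classical
  have hchar : ringChar (ZMod p) ≠ 2 := by rwa [ZMod.ringChar_zmod_n]
  have h2 : (2 : ZMod p) ≠ 0 := Ring.two_ne_zero hchar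
  haveI : Invertible (2 : ZMod p) := invertibleOfNonzero h2
  haveI : FiniteDimensional (ZMod p) V := Module.Finite.of_finite
  obtain ⟨w, ⟨e⟩⟩ := QuadraticForm.equivalent_weightedSumSquares (LinearMap.BilinMap.toQuadraticMap b)
  have hq : ∀ v : V, b v v = ∑ i, w i * (e v i * e v i) := by
    intro v
    have h := e.map_app v
    rw [QuadraticMap.weightedSumSquares_apply, LinearMap.BilinMap.toQuadraticMap_apply] at h
    rw [← h]
    rfl
  have hadd : ∀ u v : V, e (u + v) = e u + e v := fun u v => map_add e.toLinearEquiv u v
  have hsum : ∀ c : ZMod p, ∑ v : V, ψ (c * b v v) = ∏ i, ∑ t : ZMod p, ψ (c * (w i * (t * t))) := by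
    intro c
    rw [Finset.prod_univ_sum, Fintype.piFinset_univ]
    refine Fintype.sum_equiv e.toLinearEquiv.toEquiv _ _ ?_
    intro v
    show ψ (c * b v v) = ∏ i, ψ (c * (w i * (e v i * e v i)))
    rw [hq, Finset.mul_sum, addChar_sum]
  refine ⟨(Finset.univ.filter fun i => w i ≠ 0).card, (Finset.univ.filter fun i => w i = 0).card, ?_, ?_, ?_⟩
  · have h := Finset.card_filter_add_card_filter_not (s := (Finset.univ : Finset (Fin (finrank (ZMod p) V))))
      (fun i => w i = 0)
    rw [Finset.card_univ, Fintype.card_fin] at h
    exact h.symm.trans (add_comm _ _)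
  · have h1 := hsum ν
    have h3 := hsum 1
    simp only [one_mul] at h3
    rw [h1, h3]
    have h4 : ∀ i, ∑ t : ZMod p, ψ (ν * (w i * (t * t))) =
        (if w i ≠ 0 then (-1 : ℂ) else 1) * ∑ t : ZMod p, ψ (w i * (t * t)) := by
      intro i
      by_cases hw : w i = 0
      · rw [if_neg (not_not.2 hw), hw, one_mul]
        apply Finset.sum_congr rfl
        intro t _
        congr 1
        ring
      · rw [if_pos hw, gauss_sign hp2 ψ hψ ν hν (w i) hw]
        ring
    rw [Finset.prod_congr rfl (fun i _ => h4 i), Finset.prod_mul_distrib, Finset.prod_ite, Finset.prod_const,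
      Finset.prod_const_one, mul_one]
  · have hpol : ∀ u v : V, b u v + b v u = 2 * ∑ i, w i * (e u i * e v i) := by
      intro u v
      have h1 : b (u + v) (u + v) = b u u + b u v + (b v u + b v v) := by
        simp only [map_add, LinearMap.add_apply]
        ring
      have h3 := hq (u + v)
      rw [h1, hq u, hq v, hadd] at h3
      have h4 : b u v + b v u = ∑ i, w i * ((e u + e v) i * (e u + e v) i) - ∑ i, w i * (e u i * e u i) -
          ∑ i, w i * (e v i * e v i) := by linear_combination h3
      rw [h4, ← Finset.sum_sub_distrib, ← Finset.sum_sub_distrib, Finset.mul_sum]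
      apply Finset.sum_congr rfl
      intro i _
      rw [Pi.add_apply]
      ring
    have hrad : ∀ v : V, (∀ u : V, b u v + b v u = 0) ↔ ∀ i, w i ≠ 0 → e v i = 0 := by
      intro v
      constructor
      · intro h i hi
        have h1 := h (e.symm (Pi.single i 1))
        rw [hpol, QuadraticMap.IsometryEquiv.apply_symm_apply, Finset.sum_eq_single i] at h1
        · rw [Pi.single_eq_same, one_mul] at h1
          exact (mul_eq_zero.1 ((mul_eq_zero.1 h1).resolve_left h2)).resolve_left hi
        · intro j _ hj
          rw [Pi.single_eq_of_ne hj, zero_mul, mul_zero]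
        · intro h3
          exact absurd (Finset.mem_univ _) h3
      · intro h u
        rw [hpol, Finset.sum_eq_zero, mul_zero]
        intro i _
        by_cases hi : w i = 0
        · rw [hi, zero_mul]
        · rw [h i hi, mul_zero, mul_zero]
    have hcard : (Finset.univ.filter fun v : V => ∀ u : V, b u v + b v u = 0).card =
        (Fintype.piFinset fun i => if w i = 0 then (Finset.univ : Finset (ZMod p)) else {0}).card := by
      apply Finset.card_bij' (fun v _ => e v) (fun x _ => e.symm x)
      · intro v hv
        rw [Finset.mem_filter, hrad] at hv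
        rw [Fintype.mem_piFinset]
        intro i
        by_cases hi : w i = 0
        · rw [if_pos hi]
          exact Finset.mem_univ _
        · rw [if_neg hi, Finset.mem_singleton]
          exact hv.2 i hi
      · intro x hx
        rw [Fintype.mem_piFinset] at hx
        rw [Finset.mem_filter, hrad]
        refine ⟨Finset.mem_univ _, ?_⟩
        intro i hi
        have h := hx i
        rw [if_neg hi, Finset.mem_singleton] at h
        rw [QuadraticMap.IsometryEquiv.apply_symm_apply]
        exact h
      · intro v _
        exact QuadraticMap.IsometryEquiv.symm_apply_apply e v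
      · intro x _
        exact QuadraticMap.IsometryEquiv.apply_symm_apply e x
    rw [hcard, Fintype.card_piFinset]
    have h5 : ∀ i, (if w i = 0 then (Finset.univ : Finset (ZMod p)) else {0}).card = if w i = 0 then p else 1 := by
      intro i
      split_ifs
      · rw [Finset.card_univ, ZMod.card]
      · rw [Finset.card_singleton]
    rw [Finset.prod_congr rfl (fun i _ => h5 i), Finset.prod_ite, Finset.prod_const, Finset.prod_const_one, mul_one]

end
end Pool.Agent.H470
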