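import Pool.Agent.H470.Wt2
import Pool.Agent.H470.Qd2

/-!
# The quadratic form `Tr (y ^ (P + R) + y ^ (1 + P) + y ^ (1 + R))` has odd rank in odd degree
-/

set_option autoImplicit false
set_option linter.all false

namespace Pool.Agent.H470

open Module

section
variable {p : ℕ} [hp : Fact p.Prime] {L : Type} [Field L] [Fintype L] [DecidableEq L] [Algebra (ZMod p) L]

theorem padd (k : ℕ) (x y : L) : (x + y) ^ p ^ k = x ^ p ^ k + y ^ p ^ k := by
  haveI : CharP L p := charP_of_injective_algebraMap (algebraMap (ZMod p) L).injective p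
  exact add_pow_char_pow x y p k

theorem psmul (k : ℕ) (c : ZMod p) (x : L) : (c • x) ^ p ^ k = c • x ^ p ^ k := by
  rw [smul_pow, ZMod.pow_card_pow]

theorem card_L : Fintype.card L = p ^ finrank (ZMod p) L := by
  rw [Module.card_eq_pow_finrank (K := ZMod p) (V := L), ZMod.card]

theorem pow_full (m : ℕ) (x : L) : x ^ p ^ (finrank (ZMod p) L * m) = x := by
  rw [pow_mul, ← card_L, FiniteField.pow_card_pow]

theorem tr_p (x : L) : Algebra.trace (ZMod p) L (x ^ p) = Algebra.trace (ZMod p) L x := by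
  haveI : CharP L p := charP_of_injective_algebraMap (algebraMap (ZMod p) L).injective p
  apply (algebraMap (ZMod p) L).injective
  have h1 := FiniteField.algebraMap_trace_eq_sum_pow (ZMod p) L x
  have h2 := FiniteField.algebraMap_trace_eq_sum_pow (ZMod p) L (x ^ p)
  have h3 : (algebraMap (ZMod p) L (Algebra.trace (ZMod p) L x)) ^ p = algebraMap (ZMod p) L (Algebra.trace (ZMod p) L x) := by
    rw [← map_pow, ZMod.pow_card]
  rw [h2, ← h3, h1, sum_pow_char]
  apply Finset.sum_congr rfl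
  intro i _
  rw [← pow_mul, ← pow_mul, mul_comm]

theorem tr_pk (k : ℕ) (x : L) : Algebra.trace (ZMod p) L (x ^ p ^ k) = Algebra.trace (ZMod p) L x := by
  induction k with
  | zero => rw [pow_zero, pow_one]
  | succ k ih => rw [pow_succ, pow_mul, tr_p, ih]

theorem tr_nondeg (x : L) (h : ∀ y : L, Algebra.trace (ZMod p) L (x * y) = 0) : x = 0 := by
  have htr := (traceForm_nondegenerate (ZMod p) L).1 x
  simp_rw [Algebra.traceForm_apply] at htr
  exact htr h

/-- the bilinear form whose diagonal is `Tr (y ^ (P + R) + y ^ (1 + P) + y ^ (1 + R))` -/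
noncomputable def bf (p : ℕ) [Fact p.Prime] (L : Type) [Field L] [Fintype L] [Algebra (ZMod p) L] (i k : ℕ) :
    L →ₗ[ZMod p] L →ₗ[ZMod p] ZMod p :=
  LinearMap.mk₂ (ZMod p)
    (fun u w => Algebra.trace (ZMod p) L (u ^ p ^ i * w ^ p ^ k + u * w ^ p ^ i + u * w ^ p ^ k))
    (by
      classical
      intro u u' w
      rw [padd, ← map_add]
      congr 1
      ring)
    (by
      classical
      intro c u w
      rw [psmul, ← map_smul]
      congr 1
      simp only [smul_mul_assoc, smul_add])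
    (by
      classical
      intro u w w'
      rw [padd, padd, ← map_add]
      congr 1
      ring)
    (by
      classical
      intro c u w
      rw [psmul, psmul, ← map_smul]
      congr 1
      simp only [mul_smul_comm, smul_add])

theorem bf_apply (i k : ℕ) (u w : L) :
    bf p L i k u w = Algebra.trace (ZMod p) L (u ^ p ^ i * w ^ p ^ k + u * w ^ p ^ i + u * w ^ p ^ k) := rfl

/-- the adjoint operator -/
def Lam (p n i k : ℕ) (v : L) : L :=
  v ^ p ^ (k + (n - 1) * i) + v ^ p ^ (i + (n - 1) * k) + v ^ p ^ i + v ^ p ^ k + v ^ p ^ ((n - 1) * i) +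
    v ^ p ^ ((n - 1) * k)

theorem Lam_add (n i k : ℕ) (u v : L) : Lam p n i k (u + v) = Lam p n i k u + Lam p n i k v := by
  unfold Lam
  simp only [padd]
  ring

theorem Lam_smul (n i k : ℕ) (c : ZMod p) (v : L) : Lam p n i k (c • v) = c • Lam p n i k v := by
  unfold Lam
  simp only [psmul, smul_add]

theorem Lam_p (n i k : ℕ) (v : L) : Lam p n i k (v ^ p) = (Lam p n i k v) ^ p := by
  haveI : CharP L p := charP_of_injective_algebraMap (algebraMap (ZMod p) L).injective p
  unfold Lam
  have h : ∀ m : ℕ, (v ^ p) ^ p ^ m = (v ^ p ^ m) ^ p := by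
    intro m
    rw [← pow_mul, ← pow_mul, mul_comm]
  simp only [h, add_pow_char]

theorem Lam_fix (n i k : ℕ) (v : L) (hv : v ^ p = v) : Lam p n i k v = 6 * v := by
  have h : ∀ m : ℕ, v ^ p ^ m = v := by
    intro m
    induction m with
    | zero => rw [pow_zero, pow_one]
    | succ m ih => rw [pow_succ, pow_mul, ih, hv]
  unfold Lam
  simp only [h]
  ring

theorem polar_eq (i k : ℕ) (hn : 0 < finrank (ZMod p) L) (u v : L) :
    bf p L i k u v + bf p L i k v u = Algebra.trace (ZMod p) L (u * Lam p (finrank (ZMod p) L) i k v) := by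
  obtain ⟨n, hnn⟩ : ∃ n, n = finrank (ZMod p) L := ⟨_, rfl⟩
  have hfull : ∀ (m : ℕ) (x : L), x ^ p ^ (m + (n - 1) * m) = x := by
    intro m x
    have h1 : m + (n - 1) * m = finrank (ZMod p) L * m := by
      rw [← hnn]
      obtain ⟨n', hn'⟩ : ∃ n', n = n' + 1 := ⟨n - 1, by omega⟩
      rw [hn', Nat.add_sub_cancel]
      ring
    rw [h1, pow_full]
  rw [← hnn, bf_apply, bf_apply]
  unfold Lam
  have t1 : Algebra.trace (ZMod p) L (u ^ p ^ i * v ^ p ^ k) = Algebra.trace (ZMod p) L (u * v ^ p ^ (k + (n - 1) * i)) := by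
    rw [← tr_pk ((n - 1) * i) (u ^ p ^ i * v ^ p ^ k), mul_pow, ← pow_mul, ← pow_mul, ← pow_add, ← pow_add, hfull]
  have t2 : Algebra.trace (ZMod p) L (v ^ p ^ i * u ^ p ^ k) = Algebra.trace (ZMod p) L (u * v ^ p ^ (i + (n - 1) * k)) := by
    rw [← tr_pk ((n - 1) * k) (v ^ p ^ i * u ^ p ^ k), mul_pow, ← pow_mul, ← pow_mul, ← pow_add, ← pow_add, hfull,
      mul_comm]
  have t3 : Algebra.trace (ZMod p) L (v * u ^ p ^ i) = Algebra.trace (ZMod p) L (u * v ^ p ^ ((n - 1) * i)) := by
    rw [← tr_pk ((n - 1) * i) (v * u ^ p ^ i), mul_pow, ← pow_mul, ← pow_add, hfull, mul_comm]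
  have t4 : Algebra.trace (ZMod p) L (v * u ^ p ^ k) = Algebra.trace (ZMod p) L (u * v ^ p ^ ((n - 1) * k)) := by
    rw [← tr_pk ((n - 1) * k) (v * u ^ p ^ k), mul_pow, ← pow_mul, ← pow_add, hfull, mul_comm]
  simp only [mul_add, map_add]
  rw [t1, t2, t3, t4]
  ring

end
end Pool.Agent.H470
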