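import Pool.Agent.H470.Wt3

/-!
# Parity of the rank
-/

set_option autoImplicit false
set_option linter.all false

namespace Pool.Agent.H470

open Module

section
variable {p : ℕ} [hp : Fact p.Prime] {L : Type} [Field L] [Fintype L] [DecidableEq L] [Algebra (ZMod p) L]

theorem padd1 (x y : L) : (x + y) ^ p = x ^ p + y ^ p := by
  have := padd (p := p) 1 x y
  rwa [pow_one] at this

theorem psmul1 (c : ZMod p) (x : L) : (c • x) ^ p = c • x ^ p := by
  rw [smul_pow, ZMod.pow_card]

/-- the alternating form -/
noncomputable def af (p : ℕ) [Fact p.Prime] (L : Type) [Field L] [Fintype L] [Algebra (ZMod p) L] (n i k : ℕ) :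
    L →ₗ[ZMod p] L →ₗ[ZMod p] ZMod p :=
  LinearMap.mk₂ (ZMod p)
    (fun u w => Algebra.trace (ZMod p) L (Lam p n i k u * w ^ p - (Lam p n i k u) ^ p * w))
    (by
      classical
      intro u u' w
      rw [Lam_add, padd1, ← map_add]
      congr 1
      ring)
    (by
      classical
      intro c u w
      rw [Lam_smul, psmul1, ← map_smul]
      congr 1
      simp only [smul_mul_assoc, smul_sub])
    (by
      classical
      intro u w w'
      rw [padd1, ← map_add]
      congr 1
      ring)
    (by
      classical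
      intro c u w
      rw [psmul1, ← map_smul]
      congr 1
      simp only [mul_smul_comm, smul_sub])

theorem af_apply (n i k : ℕ) (u w : L) :
    af p L n i k u w = Algebra.trace (ZMod p) L (Lam p n i k u * w ^ p - (Lam p n i k u) ^ p * w) := rfl

theorem af_alt (i k : ℕ) (hn : 0 < finrank (ZMod p) L) (v : L) : af p L (finrank (ZMod p) L) i k v v = 0 := by
  rw [af_apply, ← Lam_p, map_sub]
  have h1 := polar_eq (p := p) i k hn (v ^ p) v
  have h2 := polar_eq (p := p) i k hn v (v ^ p)
  rw [mul_comm, ← h1, mul_comm (Lam p (finrank (ZMod p) L) i k (v ^ p)) v, ← h2]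
  ring

theorem af_ker (i k : ℕ) (hn : Odd (finrank (ZMod p) L)) (u : L) :
    af p L (finrank (ZMod p) L) i k u = 0 ↔
      (Lam p (finrank (ZMod p) L) i k u) ^ p = Lam p (finrank (ZMod p) L) i k u := by
  obtain ⟨x, hx⟩ : ∃ x, x = Lam p (finrank (ZMod p) L) i k u := ⟨_, rfl⟩
  have key : ∀ w : L, af p L (finrank (ZMod p) L) i k u w =
      Algebra.trace (ZMod p) L ((x - (x ^ p) ^ p) * w ^ p) := by
    intro w
    rw [af_apply, ← hx, map_sub, ← tr_p (x ^ p * w), mul_pow, sub_mul, map_sub]
  constructor
  · intro h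
    have h1 : x - (x ^ p) ^ p = 0 := by
      apply tr_nondeg (p := p)
      intro y
      obtain ⟨n', hn'⟩ : ∃ n', finrank (ZMod p) L = n' + 1 := by
        obtain ⟨t, ht⟩ := hn
        exact ⟨2 * t, ht⟩
      have h2 : (y ^ p ^ n') ^ p = y := by
        rw [← pow_mul, ← pow_succ, ← hn']
        have := pow_full (p := p) 1 y
        rwa [mul_one] at this
      have h3 := key (y ^ p ^ n')
      rw [h, h2] at h3
      exact h3.symm
    have h2 : (x ^ p) ^ p = x := (sub_eq_zero.1 h1).symm
    have h3 : ∀ t : ℕ, x ^ p ^ (2 * t) = x := by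
      intro t
      induction t with
      | zero => rw [mul_zero, pow_zero, pow_one]
      | succ t ih =>
        rw [show 2 * (t + 1) = 2 * t + 1 + 1 by ring, pow_succ, pow_succ, pow_mul, pow_mul, ih, h2]
    obtain ⟨t, ht⟩ := hn
    have h4 := pow_full (p := p) 1 x
    rw [mul_one, ht, pow_succ, pow_mul, h3] at h4
    rw [← hx]
    exact h4
  · intro h
    rw [← hx] at h
    ext w
    rw [key w, h, h, sub_self, zero_mul, map_zero]
    rfl

theorem card_pfix : (Finset.univ.filter fun x : L => x ^ p = x).card = p := by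
  apply card_fixQ p hp.out.one_lt
  rw [card_L (p := p)]
  exact Nat.sub_one_dvd_pow_sub_one _ _

theorem odd_rank (hp5 : 5 ≤ p) (i k : ℕ) (hn : Odd (finrank (ZMod p) L)) (ρ z : ℕ)
    (h1 : finrank (ZMod p) L = ρ + z)
    (hz : (Finset.univ.filter fun v : L => ∀ u : L, bf p L i k u v + bf p L i k v u = 0).card = p ^ z) :
    Odd ρ := by
  classical
  have hn0 : 0 < finrank (ZMod p) L := hn.pos
  haveI : FiniteDimensional (ZMod p) L := Module.Finite.of_finite
  haveI : CharP L p := charP_of_injective_algebraMap (algebraMap (ZMod p) L).injective p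
  have h2 : (2 : ZMod p) ≠ 0 := by
    intro h
    have h' : ((2 : ℕ) : ZMod p) = 0 := by exact_mod_cast h
    rw [ZMod.natCast_eq_zero_iff] at h'
    have := Nat.le_of_dvd (by norm_num) h'
    omega
  have h6 : (6 : L) ≠ 0 := by
    intro h
    have h' : ((6 : ℕ) : L) = 0 := by exact_mod_cast h
    rw [CharP.cast_eq_zero_iff L p] at h'
    have h3 : p ∣ 2 * 3 := h'
    rcases (Nat.Prime.dvd_mul hp.out).1 h3 with h4 | h4
    · have := Nat.le_of_dvd (by norm_num) h4
      omega
    · have := Nat.le_of_dvd (by norm_num) h4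
      omega
  obtain ⟨r, hr⟩ := alt_even h2 (af p L (finrank (ZMod p) L) i k) (af_alt i k hn0)
  obtain ⟨Λ, hΛ⟩ : ∃ Λ : L → L, Λ = Lam p (finrank (ZMod p) L) i k := ⟨_, rfl⟩
  -- the kernel of the polar form
  have hz' : (Finset.univ.filter fun v : L => Λ v = 0).card = p ^ z := by
    rw [← hz]
    congr 1
    ext v
    rw [Finset.mem_filter, Finset.mem_filter]
    refine and_congr_right (fun _ => ?_)
    constructor
    · intro h u
      rw [polar_eq i k hn0, ← hΛ, h, mul_zero, map_zero]
    · intro h
      apply tr_nondeg (p := p)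
      intro y
      rw [hΛ, mul_comm, ← polar_eq i k hn0]
      exact h y
  -- the kernel of the alternating form
  have hker : Fintype.card (LinearMap.ker (af p L (finrank (ZMod p) L) i k)) =
      (Finset.univ.filter fun v : L => (Λ v) ^ p = Λ v).card := by
    rw [Fintype.card_subtype]
    congr 1
    ext v
    rw [Finset.mem_filter, Finset.mem_filter]
    refine and_congr_right (fun _ => ?_)
    rw [LinearMap.mem_ker, af_ker i k hn, hΛ]
  have hcount : (Finset.univ.filter fun v : L => (Λ v) ^ p = Λ v).card = p * p ^ z := by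
    have hmaps : Set.MapsTo Λ ((Finset.univ.filter fun v : L => (Λ v) ^ p = Λ v : Finset L) : Set L)
        ((Finset.univ.filter fun x : L => x ^ p = x : Finset L) : Set L) := by
      intro v hv
      rw [Finset.mem_coe, Finset.mem_filter] at hv ⊢
      exact ⟨Finset.mem_univ _, hv.2⟩
    rw [Finset.card_eq_sum_card_fiberwise hmaps]
    have h3 : ∀ h ∈ (Finset.univ.filter fun x : L => x ^ p = x),
        ((Finset.univ.filter fun v : L => (Λ v) ^ p = Λ v).filter fun v => Λ v = h).card = p ^ z := by
      intro h hh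
      rw [Finset.mem_filter] at hh
      rw [← hz']
      have h6p : (h / 6) ^ p = h / 6 := by
        have h7 : (6 : L) ^ p = 6 := by
          have h8 : (6 : L) = ((6 : ℕ) : L) := by norm_num
          rw [h8, ← map_natCast (algebraMap (ZMod p) L), ← map_pow, ZMod.pow_card]
        rw [div_pow, hh.2, h7]
      have hΛh : Λ (h / 6) = h := by
        rw [hΛ, Lam_fix _ _ _ _ h6p]
        field_simp
      have hadd : ∀ x y : L, Λ (x + y) = Λ x + Λ y := by
        intro x y
        rw [hΛ, Lam_add]
      apply Finset.card_bij' (fun v _ => v - h / 6) (fun v _ => v + h / 6)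
      · intro v hv
        rw [Finset.mem_filter, Finset.mem_filter] at hv
        rw [Finset.mem_filter]
        refine ⟨Finset.mem_univ _, ?_⟩
        have h9 := hadd (v - h / 6) (h / 6)
        rw [sub_add_cancel, hv.2, hΛh] at h9
        linear_combination -h9
      · intro v hv
        rw [Finset.mem_filter] at hv
        have h9 : Λ (v + h / 6) = h := by rw [hadd, hv.2, hΛh, zero_add]
        rw [Finset.mem_filter, Finset.mem_filter, h9]
        exact ⟨⟨Finset.mem_univ _, hh.2⟩, rfl⟩
      · intro v _
        ring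
      · intro v _
        ring
    rw [Finset.sum_congr rfl h3, Finset.sum_const, card_pfix, smul_eq_mul]
  have hfin : p ^ finrank (ZMod p) (LinearMap.ker (af p L (finrank (ZMod p) L) i k)) = p ^ (z + 1) := by
    rw [pow_succ', ← hcount, ← hker, Module.card_eq_pow_finrank (K := ZMod p), ZMod.card]
  have h3 := Nat.pow_right_injective hp.out.two_le hfin
  refine ⟨r, ?_⟩
  omega

end
end Pool.Agent.H470
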