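import Pool.Agent.H470.Wt4
import Pool.Agent.H470.Wal3
import Pool.Agent.H470.Qd3

/-!
# Nice exponents of `p`-weight three in odd degree
-/

set_option autoImplicit false
set_option linter.all false

namespace Pool.Agent.H470

open Module

section
variable {L : Type} [Field L] [Fintype L] [DecidableEq L]

/-- the quadratic map -/
def Q3 (P R : ℕ) (y : L) : L := y ^ P * y ^ R + y * y ^ P + y * y ^ R

theorem Ds_Q3 (h2 : (2 : L) ≠ 0) (P R : ℕ) (hP : ∀ x y : L, (x + y) ^ P = x ^ P + y ^ P)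
    (hR : ∀ x y : L, (x + y) ^ R = x ^ R + y ^ R) (y : L) :
    Ds (1 + P + R) ((1 + y) / 2) = (1 + Q3 P R y) / 4 := by
  have h4 : (4 : L) ≠ 0 := by
    have : (4 : L) = 2 * 2 := by norm_num
    rw [this]
    exact mul_ne_zero h2 h2
  have e2P : (2 : L) ^ P = 2 := by
    rw [show (2 : L) = 1 + 1 by norm_num, hP, one_pow]
  have e2R : (2 : L) ^ R = 2 := by
    rw [show (2 : L) = 1 + 1 by norm_num, hR, one_pow]
  have hsP : ∀ x y : L, (x - y) ^ P = x ^ P - y ^ P := add_sub_pow P hP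
  have hsR : ∀ x y : L, (x - y) ^ R = x ^ R - y ^ R := add_sub_pow R hR
  unfold Ds Q3
  have e1 : 1 - (1 + y) / 2 = (1 - y) / 2 := by
    field_simp
    ring
  rw [e1, pow_add, pow_add, pow_one, pow_add, pow_add, pow_one, div_pow, div_pow, div_pow, div_pow,
    hP, hR, hsP, hsR, one_pow, one_pow, e2P, e2R]
  field_simp
  ring

theorem fc_Q3 (h2 : (2 : L) ≠ 0) (P R : ℕ) (hP : ∀ x y : L, (x + y) ^ P = x ^ P + y ^ P)
    (hR : ∀ x y : L, (x + y) ^ R = x ^ R + y ^ R) (c : L) :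
    fc (Ds (1 + P + R)) ((1 + c) / 4) = fc (Q3 P R) c := by
  have h4 : (4 : L) ≠ 0 := by
    have : (4 : L) = 2 * 2 := by norm_num
    rw [this]
    exact mul_ne_zero h2 h2
  unfold fc
  refine Finset.card_bij' (fun x _ => 2 * x - 1) (fun y _ => (1 + y) / 2) ?_ ?_ ?_ ?_
  · intro x hx
    rw [Finset.mem_filter] at hx ⊢
    refine ⟨Finset.mem_univ _, ?_⟩
    have h := Ds_Q3 h2 P R hP hR (2 * x - 1)
    have e1 : (1 + (2 * x - 1)) / 2 = x := by
      field_simp
      ring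
    rw [e1, hx.2] at h
    field_simp at h
    linear_combination -h
  · intro y hy
    rw [Finset.mem_filter] at hy ⊢
    refine ⟨Finset.mem_univ _, ?_⟩
    rw [Ds_Q3 h2 P R hP hR, hy.2]
  · intro x _
    field_simp
    ring
  · intro y _
    field_simp
    ring

end

section
variable {p : ℕ} [hp : Fact p.Prime] {L : Type} [Field L] [Fintype L] [DecidableEq L] [Algebra (ZMod p) L]

/-- **the multiplicity divides twice the special multiplicity** -/
theorem wt3_dvd (hp5 : 5 ≤ p) (i k : ℕ) (hn : Odd (finrank (ZMod p) L)) (a : ℕ) (ha0 : 0 < a)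
    (ha : ∀ c : L, c ≠ 0 → fc (Q3 (p ^ i) (p ^ k)) c = 0 ∨ fc (Q3 (p ^ i) (p ^ k)) c = a) :
    a ∣ 2 * fc (Q3 (p ^ i) (p ^ k)) (0 : L) := by
  classical
  have hp2 : p ≠ 2 := by omega
  have hchar : ringChar (ZMod p) ≠ 2 := by rwa [ZMod.ringChar_zmod_n]
  obtain ⟨ν, hν⟩ := FiniteField.exists_nonsquare hchar
  have hψ := ZMod.isPrimitive_stdAddChar p
  obtain ⟨ψ, hψψ⟩ : ∃ ψ : AddChar (ZMod p) ℂ, ψ = ZMod.stdAddChar := ⟨_, rfl⟩
  rw [← hψψ] at hψ
  obtain ⟨ρ, z, h1, h3, h4⟩ := quad_sign hp2 (bf p L i k) ψ hψ ν hν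
  have hρ := odd_rank hp5 i k hn ρ z h1 h4
  rw [hρ.neg_one_pow] at h3
  obtain ⟨f, hf⟩ : ∃ f : L → L, f = Q3 (p ^ i) (p ^ k) := ⟨_, rfl⟩
  obtain ⟨h, hh⟩ : ∃ h : L → ℂ, h = fun c => ψ (ν * Algebra.trace (ZMod p) L c) + ψ (Algebra.trace (ZMod p) L c) :=
    ⟨_, rfl⟩
  rw [← hf] at ha ⊢
  have hsum : ∑ y : L, h (f y) = 0 := by
    have h5 : ∀ y : L, h (f y) = ψ (ν * bf p L i k y y) + ψ (bf p L i k y y) := by
      intro y
      rw [hh, hf, bf_apply]
      rfl
    rw [Finset.sum_congr rfl (fun y _ => h5 y), Finset.sum_add_distrib, h3]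
    ring
  have hfib : ∑ y : L, h (f y) = ∑ c : L, (fc f c : ℂ) * h c := by
    rw [← Finset.sum_fiberwise Finset.univ f (fun y => h (f y))]
    apply Finset.sum_congr rfl
    intro c _
    rw [Finset.sum_congr rfl (fun t ht => by rw [(Finset.mem_filter.1 ht).2]), Finset.sum_const, nsmul_eq_mul]
    rfl
  have h00 : h 0 = 2 := by
    rw [hh]
    simp only [map_zero, mul_zero, AddChar.map_zero_eq_one]
    norm_num
  obtain ⟨X, hX⟩ : ∃ X : ℂ, X = ∑ c ∈ Finset.univ.erase (0 : L), (if fc f c = a then h c else 0) := ⟨_, rfl⟩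
  have hmain : X * (a : ℤ) = ((-(2 * fc f (0 : L) : ℤ) : ℤ) : ℂ) := by
    have h5 := Finset.add_sum_erase Finset.univ (fun c : L => (fc f c : ℂ) * h c) (Finset.mem_univ 0)
    rw [← hfib, hsum] at h5
    have h6 : ∑ c ∈ Finset.univ.erase (0 : L), (fc f c : ℂ) * h c = X * a := by
      rw [hX, Finset.sum_mul]
      apply Finset.sum_congr rfl
      intro c hc
      rw [Finset.mem_erase] at hc
      by_cases hca : fc f c = a
      · rw [if_pos hca, hca, mul_comm]
      · rw [if_neg hca, (ha c hc.1).resolve_right hca]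
        simp
    rw [h6, h00] at h5
    push_cast
    linear_combination h5
  have hψint : ∀ t : ZMod p, IsIntegral ℤ (ψ t) := by
    intro t
    apply IsIntegral.of_pow hp.out.pos
    rw [← AddChar.map_nsmul_eq_pow, nsmul_eq_mul, CharP.cast_eq_zero, zero_mul, AddChar.map_zero_eq_one]
    exact isIntegral_one
  have hint : IsIntegral ℤ X := by
    rw [hX]
    apply IsIntegral.sum
    intro c _
    split_ifs
    · rw [hh]
      exact (hψint _).add (hψint _)
    · exact isIntegral_zero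
  obtain ⟨m, hm⟩ := int_of_rat X hint _ (a : ℤ) (by omega) hmain
  rw [hm] at hmain
  have h7 : m * (a : ℤ) = -(2 * fc f (0 : L) : ℤ) := by exact_mod_cast hmain
  have h8 : (a : ℤ) ∣ ((2 * fc f (0 : L) : ℕ) : ℤ) := by
    refine ⟨-m, ?_⟩
    push_cast
    linear_combination h7
  exact_mod_cast h8

end
end Pool.Agent.H470
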