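import Pool.Agent.H470.Wt5

/-!
# The twisted quadratic form `Tr (l * (y ^ (P + R) + y ^ (1 + P) + y ^ (1 + R)))`
-/

set_option autoImplicit false
set_option linter.all false

namespace Pool.Agent.H470

open Module

section
variable {p : ℕ} [hp : Fact p.Prime] {L : Type} [Field L] [Fintype L] [DecidableEq L] [Algebra (ZMod p) L]

/-- the twisted bilinear form -/
noncomputable def bg (p : ℕ) [Fact p.Prime] (L : Type) [Field L] [Fintype L] [Algebra (ZMod p) L] (l : L) (i k : ℕ) :
    L →ₗ[ZMod p] L →ₗ[ZMod p] ZMod p :=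
  LinearMap.mk₂ (ZMod p)
    (fun u w => Algebra.trace (ZMod p) L (l * (u ^ p ^ i * w ^ p ^ k + u * w ^ p ^ i + u * w ^ p ^ k)))
    (by
      classical
      intro u u' w
      rw [padd, ← map_add]
      congr 1
      ring)
    (by
      classical
      intro c u w
      rw [psmul, ← map_smul]
      congr 1
      simp only [smul_mul_assoc]
      rw [← smul_add, ← smul_add, mul_smul_comm])
    (by
      classical
      intro u w w'
      rw [padd, padd, ← map_add]
      congr 1
      ring)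
    (by
      classical
      intro c u w
      rw [psmul, psmul, ← map_smul]
      congr 1
      simp only [mul_smul_comm]
      rw [← smul_add, ← smul_add, mul_smul_comm])

theorem bg_apply (l : L) (i k : ℕ) (u w : L) :
    bg p L l i k u w = Algebra.trace (ZMod p) L (l * (u ^ p ^ i * w ^ p ^ k + u * w ^ p ^ i + u * w ^ p ^ k)) := rfl

/-- the adjoint operator -/
def Lg (p n i k : ℕ) (l v : L) : L :=
  l ^ p ^ ((n - 1) * i) * v ^ p ^ (k + (n - 1) * i) + l ^ p ^ ((n - 1) * k) * v ^ p ^ (i + (n - 1) * k) +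
    l * v ^ p ^ i + l * v ^ p ^ k + l ^ p ^ ((n - 1) * i) * v ^ p ^ ((n - 1) * i) +
    l ^ p ^ ((n - 1) * k) * v ^ p ^ ((n - 1) * k)

theorem Lg_add (n i k : ℕ) (l u v : L) : Lg p n i k l (u + v) = Lg p n i k l u + Lg p n i k l v := by
  unfold Lg
  simp only [padd]
  ring

theorem Lg_smul (n i k : ℕ) (l : L) (c : ZMod p) (v : L) : Lg p n i k l (c • v) = c • Lg p n i k l v := by
  unfold Lg
  simp only [psmul, smul_add, mul_smul_comm]

theorem Lg_symm (n i k : ℕ) (l v : L) : Lg p n i k l v = Lg p n k i l v := by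
  unfold Lg
  ring

/-- the operator commutes with the powers of Frobenius that fix `l` -/
theorem Lg_p (n i k m : ℕ) (l v : L) (hl : l ^ p ^ m = l) :
    Lg p n i k l (v ^ p ^ m) = (Lg p n i k l v) ^ p ^ m := by
  unfold Lg
  have h : ∀ t : ℕ, (v ^ p ^ m) ^ p ^ t = (v ^ p ^ t) ^ p ^ m := by
    intro t
    rw [← pow_mul, ← pow_mul, mul_comm]
  have h' : ∀ t : ℕ, (l ^ p ^ t) ^ p ^ m = l ^ p ^ t := by
    intro t
    rw [← pow_mul, mul_comm, pow_mul, hl]
  simp only [padd, mul_pow, h, h', hl]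

theorem polar_g (i k : ℕ) (hn : 0 < finrank (ZMod p) L) (l u v : L) :
    bg p L l i k u v + bg p L l i k v u =
      Algebra.trace (ZMod p) L (u * Lg p (finrank (ZMod p) L) i k l v) := by
  obtain ⟨n, hnn⟩ : ∃ n, n = finrank (ZMod p) L := ⟨_, rfl⟩
  have hfull : ∀ (m : ℕ) (x : L), x ^ p ^ (m + (n - 1) * m) = x := by
    intro m x
    have h1 : m + (n - 1) * m = finrank (ZMod p) L * m := by
      rw [← hnn]
      obtain ⟨n', hn'⟩ : ∃ n', n = n' + 1 := ⟨n - 1, by omega⟩
      rw [hn', Nat.add_sub_cancel]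
      ring
    rw [h1, pow_full]
  rw [← hnn, bg_apply, bg_apply]
  unfold Lg
  have t1 : Algebra.trace (ZMod p) L (l * (u ^ p ^ i * v ^ p ^ k)) =
      Algebra.trace (ZMod p) L (u * (l ^ p ^ ((n - 1) * i) * v ^ p ^ (k + (n - 1) * i))) := by
    rw [← tr_pk ((n - 1) * i) (l * (u ^ p ^ i * v ^ p ^ k)), mul_pow, mul_pow, ← pow_mul u, ← pow_mul v,
      ← pow_add, ← pow_add, hfull]
    congr 1
    ring
  have t2 : Algebra.trace (ZMod p) L (l * (v ^ p ^ i * u ^ p ^ k)) =
      Algebra.trace (ZMod p) L (u * (l ^ p ^ ((n - 1) * k) * v ^ p ^ (i + (n - 1) * k))) := by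
    rw [← tr_pk ((n - 1) * k) (l * (v ^ p ^ i * u ^ p ^ k)), mul_pow, mul_pow, ← pow_mul v, ← pow_mul u,
      ← pow_add, ← pow_add, hfull]
    congr 1
    ring
  have t3 : Algebra.trace (ZMod p) L (l * (v * u ^ p ^ i)) =
      Algebra.trace (ZMod p) L (u * (l ^ p ^ ((n - 1) * i) * v ^ p ^ ((n - 1) * i))) := by
    rw [← tr_pk ((n - 1) * i) (l * (v * u ^ p ^ i)), mul_pow, mul_pow, ← pow_mul u, ← pow_add, hfull]
    congr 1
    ring
  have t4 : Algebra.trace (ZMod p) L (l * (v * u ^ p ^ k)) =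
      Algebra.trace (ZMod p) L (u * (l ^ p ^ ((n - 1) * k) * v ^ p ^ ((n - 1) * k))) := by
    rw [← tr_pk ((n - 1) * k) (l * (v * u ^ p ^ k)), mul_pow, mul_pow, ← pow_mul u, ← pow_add, hfull]
    congr 1
    ring
  have t5 : u * (l * v ^ p ^ i) = l * (u * v ^ p ^ i) := by ring
  have t6 : u * (l * v ^ p ^ k) = l * (u * v ^ p ^ k) := by ring
  simp only [mul_add, map_add]
  rw [t5, t6, t1, t2, t3, t4]
  ring

/-- the alternating form -/
noncomputable def ag (p : ℕ) [Fact p.Prime] (L : Type) [Field L] [Fintype L] [Algebra (ZMod p) L] (n i k : ℕ)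
    (l : L) : L →ₗ[ZMod p] L →ₗ[ZMod p] ZMod p :=
  LinearMap.mk₂ (ZMod p)
    (fun u w => Algebra.trace (ZMod p) L (Lg p n i k l u * w ^ p ^ 2 - (Lg p n i k l u) ^ p ^ 2 * w))
    (by
      classical
      intro u u' w
      rw [Lg_add, padd, ← map_add]
      congr 1
      ring)
    (by
      classical
      intro c u w
      rw [Lg_smul, psmul, ← map_smul]
      congr 1
      simp only [smul_mul_assoc, smul_sub])
    (by
      classical
      intro u w w'
      rw [padd, ← map_add]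
      congr 1
      ring)
    (by
      classical
      intro c u w
      rw [psmul, ← map_smul]
      congr 1
      simp only [mul_smul_comm, smul_sub])

theorem ag_apply (n i k : ℕ) (l u w : L) :
    ag p L n i k l u w =
      Algebra.trace (ZMod p) L (Lg p n i k l u * w ^ p ^ 2 - (Lg p n i k l u) ^ p ^ 2 * w) := rfl

theorem ag_alt (i k : ℕ) (hn : 0 < finrank (ZMod p) L) (l : L) (hl : l ^ p ^ 2 = l) (v : L) :
    ag p L (finrank (ZMod p) L) i k l v v = 0 := by
  rw [ag_apply, ← Lg_p _ _ _ _ _ _ hl, map_sub]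
  have h1 := polar_g (p := p) i k hn l (v ^ p ^ 2) v
  have h2 := polar_g (p := p) i k hn l v (v ^ p ^ 2)
  rw [mul_comm, ← h1, mul_comm (Lg p (finrank (ZMod p) L) i k l (v ^ p ^ 2)) v, ← h2]
  ring

theorem ag_ker (i k : ℕ) (hn : 2 ≤ finrank (ZMod p) L) (l u : L) :
    ag p L (finrank (ZMod p) L) i k l u = 0 ↔
      (Lg p (finrank (ZMod p) L) i k l u) ^ p ^ 4 = Lg p (finrank (ZMod p) L) i k l u := by
  obtain ⟨x, hx⟩ : ∃ x, x = Lg p (finrank (ZMod p) L) i k l u := ⟨_, rfl⟩
  have key : ∀ w : L, ag p L (finrank (ZMod p) L) i k l u w =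
      Algebra.trace (ZMod p) L ((x - x ^ p ^ 4) * w ^ p ^ 2) := by
    intro w
    rw [ag_apply, ← hx, map_sub, ← tr_pk 2 (x ^ p ^ 2 * w), mul_pow, sub_mul, map_sub, ← pow_mul x, ← pow_add]
  rw [← hx]
  constructor
  · intro h
    have h1 : x - x ^ p ^ 4 = 0 := by
      apply tr_nondeg (p := p)
      intro y
      obtain ⟨n', hn'⟩ : ∃ n', finrank (ZMod p) L = n' + 2 := ⟨finrank (ZMod p) L - 2, by omega⟩
      have h2 : (y ^ p ^ n') ^ p ^ 2 = y := by
        rw [← pow_mul, ← pow_add, ← hn']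
        have := pow_full (p := p) 1 y
        rwa [mul_one] at this
      have h3 := key (y ^ p ^ n')
      rw [h, h2] at h3
      exact h3.symm
    exact (sub_eq_zero.1 h1).symm
  · intro h
    ext w
    rw [key w, h, sub_self, zero_mul, map_zero]
    rfl

end
end Pool.Agent.H470
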