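import Pool.Agent.H470.Wt6

/-!
# The twisted adjoint operator on the field with `p ^ 4` elements
-/

set_option autoImplicit false
set_option linter.all false

namespace Pool.Agent.H470

open Module

section
variable {p : ℕ} [hp : Fact p.Prime] {L : Type} [Field L] [Fintype L] [DecidableEq L] [Algebra (ZMod p) L]

theorem red (d : ℕ) (x : L) (hx : x ^ p ^ d = x) (m : ℕ) : x ^ p ^ m = x ^ p ^ (m % d) := by
  have h : ∀ t : ℕ, x ^ p ^ (d * t) = x := by
    intro t
    induction t with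
    | zero => rw [mul_zero, pow_zero, pow_one]
    | succ t ih => rw [mul_add, mul_one, pow_add, pow_mul, ih, hx]
  conv_lhs => rw [← Nat.div_add_mod m d, pow_add, pow_mul, h]

theorem Lg_two (n i k : ℕ) (hn : n % 2 = 0) (hn0 : 0 < n) (hik : i % 2 = 1 ∨ k % 2 = 1) (l : L)
    (hl : l ^ 2 + l + 1 = 0) (hlp : l ^ p = l ^ 2) :
    ∃ ζ : L, ζ ^ 2 + ζ + 1 = 0 ∧ ζ ^ p = ζ ^ 2 ∧ ∀ v : L, v ^ p ^ 2 = v → Lg p n i k l v = 2 * (ζ * v - v ^ p) := by
  have hl3 : l ^ 3 = 1 := by linear_combination (l - 1) * hl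
  have hlpp : l ^ p ^ 2 = l := by
    rw [sq, pow_mul, hlp, ← pow_mul, mul_comm, pow_mul, hlp, ← pow_mul]
    linear_combination l * hl3
  have hn1 : (n - 1) % 2 = 1 := by omega
  have e0 : ∀ x : L, x ^ p ^ 0 = x := fun x => by rw [pow_zero, pow_one]
  have e1 : ∀ x : L, x ^ p ^ 1 = x ^ p := fun x => by rw [pow_one]
  have main1 : ∀ i k : ℕ, i % 2 = 1 → k % 2 = 0 → ∀ v : L, v ^ p ^ 2 = v →
      Lg p n i k l v = 2 * (l * v - v ^ p) := by
    intro i k hi hk v hv
    have m1 : ((n - 1) * i) % 2 = 1 := by rw [Nat.mul_mod, hn1, hi]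
    have m2 : ((n - 1) * k) % 2 = 0 := by rw [Nat.mul_mod, hn1, hk]
    have m3 : (k + (n - 1) * i) % 2 = 1 := by rw [Nat.add_mod, m1, hk]
    have m4 : (i + (n - 1) * k) % 2 = 1 := by rw [Nat.add_mod, m2, hi]
    unfold Lg
    rw [red 2 l hlpp ((n - 1) * i), red 2 l hlpp ((n - 1) * k), red 2 v hv (k + (n - 1) * i),
      red 2 v hv (i + (n - 1) * k), red 2 v hv i, red 2 v hv k, red 2 v hv ((n - 1) * i),
      red 2 v hv ((n - 1) * k), m1, m2, m3, m4, hi, hk, e0, e0, e1, e1, hlp]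
    linear_combination (2 * v ^ p) * hl
  rcases Nat.mod_two_eq_zero_or_one i with hi | hi
  · rcases Nat.mod_two_eq_zero_or_one k with hk | hk
    · omega
    · refine ⟨l, hl, hlp, fun v hv => ?_⟩
      rw [Lg_symm]
      exact main1 k i hk hi v hv
  · rcases Nat.mod_two_eq_zero_or_one k with hk | hk
    · exact ⟨l, hl, hlp, main1 i k hi hk⟩
    · refine ⟨l ^ 2, ?_, ?_, ?_⟩
      · linear_combination (l ^ 2 - l + 1) * hl
      · rw [← pow_mul, mul_comm, pow_mul, hlp]
      · intro v hv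
        have m1 : ((n - 1) * i) % 2 = 1 := by rw [Nat.mul_mod, hn1, hi]
        have m2 : ((n - 1) * k) % 2 = 1 := by rw [Nat.mul_mod, hn1, hk]
        have m3 : (k + (n - 1) * i) % 2 = 0 := by rw [Nat.add_mod, m1, hk]
        have m4 : (i + (n - 1) * k) % 2 = 0 := by rw [Nat.add_mod, m2, hi]
        unfold Lg
        rw [red 2 l hlpp ((n - 1) * i), red 2 l hlpp ((n - 1) * k), red 2 v hv (k + (n - 1) * i),
          red 2 v hv (i + (n - 1) * k), red 2 v hv i, red 2 v hv k, red 2 v hv ((n - 1) * i),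
          red 2 v hv ((n - 1) * k), m1, m2, m3, m4, hi, hk, e0, e1, e1, hlp]
        linear_combination (2 * v ^ p) * hl

theorem Lg_four (h2 : (2 : L) ≠ 0) (n i k : ℕ) (hn : n % 4 = 0) (hn0 : 0 < n) (hik : i % 2 = 1 ∨ k % 2 = 1) (l : L)
    (hl : l ^ 2 + l + 1 = 0) (hlp : l ^ p = l ^ 2) (w : L) (hw : w ^ p ^ 2 = -w) (h0 : Lg p n i k l w = 0) :
    w = 0 := by
  have hl3 : l ^ 3 = 1 := by linear_combination (l - 1) * hl
  have hl0 : l ≠ 0 := by
    intro h
    rw [h] at hl3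
    norm_num at hl3
  have hlpp : l ^ p ^ 2 = l := by
    rw [sq, pow_mul, hlp, ← pow_mul, mul_comm, pow_mul, hlp, ← pow_mul]
    linear_combination l * hl3
  have hl4 : l ^ p ^ 4 = l := by
    rw [show (4 : ℕ) = 2 + 2 from rfl, pow_add, pow_mul, hlpp, hlpp]
  have hneg : ∀ x : L, (-x) ^ p = -x ^ p := by
    intro x
    have := psmul1 (p := p) (-1) x
    rwa [neg_smul, one_smul, neg_smul, one_smul] at this
  have hw3 : w ^ p ^ 3 = -w ^ p := by
    rw [show (3 : ℕ) = 2 + 1 from rfl, pow_succ, pow_mul, hw, hneg]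
  have hw4 : w ^ p ^ 4 = w := by
    rw [show (4 : ℕ) = 2 + 2 from rfl, pow_add, pow_mul, hw]
    rw [show p ^ 2 = p * p from sq p, pow_mul, hneg, hneg, ← pow_mul, ← sq, hw, neg_neg]
  have hn1 : (n - 1) % 4 = 3 := by omega
  have e0 : ∀ x : L, x ^ p ^ 0 = x := fun x => by rw [pow_zero, pow_one]
  have e1 : ∀ x : L, x ^ p ^ 1 = x ^ p := fun x => by rw [pow_one]
  have l3 : l ^ p ^ 3 = l ^ 2 := by
    rw [show (3 : ℕ) = 2 + 1 from rfl, pow_succ, pow_mul, hlpp, hlp]
  -- the two types of equations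
  have type1 : ∀ l' : L, l' ≠ 0 → -(2 * l' * w) = 0 → w = 0 := by
    intro l' hl' h
    rw [neg_eq_zero] at h
    exact (mul_eq_zero.1 h).resolve_left (mul_ne_zero h2 hl')
  have type2 : ∀ l' ε : L, (l' = l ∨ l' = l ^ 2) → (ε = 1 ∨ ε = -1) →
      l' * w + ε * (l - l ^ 2) * w ^ p = 0 → w = 0 := by
    intro l' ε hl' hε h
    have h2p : (l ^ 2) ^ p = l := by
      rw [← pow_mul, mul_comm, pow_mul, hlp]
      linear_combination l * hl3
    have hl'p : l' ^ p * l' = 1 := by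
      rcases hl' with h3 | h3
      · rw [h3, hlp]
        linear_combination hl3
      · rw [h3, h2p]
        linear_combination hl3
    have hεp : ε ^ p = ε := by
      rcases hε with h3 | h3
      · rw [h3, one_pow]
      · rw [h3, hneg, one_pow]
    have hε2 : ε * ε = 1 := by
      rcases hε with h3 | h3 <;> rw [h3] <;> ring
    have h3 := congrArg (fun x : L => x ^ p) h
    simp only [padd1, mul_pow] at h3
    rw [zero_pow hp.out.ne_zero, hεp, sub_eq_add_neg, padd1, hneg, hlp, h2p] at h3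
    have h4 : (w ^ p) ^ p = -w := by
      rw [← pow_mul, ← sq, hw]
    rw [h4] at h3
    have h5 : 4 * w = 0 := by
      linear_combination (l' ^ p) * h - (ε * (l - l ^ 2)) * h3 - w * hl'p + (w * ε ^ 2) * hl +
        (w * ε ^ 2 * (l - 2)) * hl3 - 3 * w * hε2
    have h6 : (4 : L) ≠ 0 := by
      have : (4 : L) = 2 * 2 := by norm_num
      rw [this]
      exact mul_ne_zero h2 h2
    exact (mul_eq_zero.1 h5).resolve_left h6
  have main : ∀ i k : ℕ, i % 2 = 1 → Lg p n i k l w = 0 → w = 0 := by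
    intro i k hi h0
    have hform : ∀ a b c d e f : ℕ, ((n - 1) * i) % 4 = a → ((n - 1) * k) % 4 = b →
        (k + (n - 1) * i) % 4 = c → (i + (n - 1) * k) % 4 = d → i % 4 = e → k % 4 = f →
        l ^ p ^ a * w ^ p ^ c + l ^ p ^ b * w ^ p ^ d + l * w ^ p ^ e + l * w ^ p ^ f + l ^ p ^ a * w ^ p ^ a +
          l ^ p ^ b * w ^ p ^ b = 0 := by
      intro a b c d e f ha hb hc hd he hf
      unfold Lg at h0
      rw [red 4 l hl4 ((n - 1) * i), red 4 l hl4 ((n - 1) * k), red 4 w hw4 (k + (n - 1) * i),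
        red 4 w hw4 (i + (n - 1) * k), red 4 w hw4 i, red 4 w hw4 k, red 4 w hw4 ((n - 1) * i),
        red 4 w hw4 ((n - 1) * k), ha, hb, hc, hd, he, hf] at h0
      exact h0
    have hi4 : i % 4 = 1 ∨ i % 4 = 3 := by omega
    have hk4 : k % 4 = 0 ∨ k % 4 = 1 ∨ k % 4 = 2 ∨ k % 4 = 3 := by omega
    rcases hi4 with hi4 | hi4
    · rcases hk4 with hk4 | hk4 | hk4 | hk4
      · have a1 : ((n - 1) * i) % 4 = 3 := by rw [Nat.mul_mod, hn1, hi4]
        have a2 : ((n - 1) * k) % 4 = 0 := by rw [Nat.mul_mod, hn1, hk4]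
        have a3 : (k + (n - 1) * i) % 4 = 3 := by rw [Nat.add_mod, a1, hk4]
        have a4 : (i + (n - 1) * k) % 4 = 1 := by rw [Nat.add_mod, a2, hi4]
        have h := hform 3 0 3 1 1 0 a1 a2 a3 a4 hi4 hk4
        simp only [e0, e1, l3, hlpp, hw, hw3, hlp] at h
        exact type2 l 1 (Or.inl rfl) (Or.inl rfl) (mul_left_cancel₀ h2 (by linear_combination h))
      · have a1 : ((n - 1) * i) % 4 = 3 := by rw [Nat.mul_mod, hn1, hi4]
        have a2 : ((n - 1) * k) % 4 = 3 := by rw [Nat.mul_mod, hn1, hk4]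
        have a3 : (k + (n - 1) * i) % 4 = 0 := by rw [Nat.add_mod, a1, hk4]
        have a4 : (i + (n - 1) * k) % 4 = 0 := by rw [Nat.add_mod, a2, hi4]
        have h := hform 3 3 0 0 1 1 a1 a2 a3 a4 hi4 hk4
        simp only [e0, e1, l3, hlpp, hw, hw3, hlp] at h
        exact type2 (l ^ 2) 1 (Or.inr rfl) (Or.inl rfl) (mul_left_cancel₀ h2 (by linear_combination h))
      · have a1 : ((n - 1) * i) % 4 = 3 := by rw [Nat.mul_mod, hn1, hi4]
        have a2 : ((n - 1) * k) % 4 = 2 := by rw [Nat.mul_mod, hn1, hk4]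
        have a3 : (k + (n - 1) * i) % 4 = 1 := by rw [Nat.add_mod, a1, hk4]
        have a4 : (i + (n - 1) * k) % 4 = 3 := by rw [Nat.add_mod, a2, hi4]
        have h := hform 3 2 1 3 1 2 a1 a2 a3 a4 hi4 hk4
        simp only [e0, e1, l3, hlpp, hw, hw3, hlp] at h
        exact type1 l hl0 (by linear_combination h)
      · have a1 : ((n - 1) * i) % 4 = 3 := by rw [Nat.mul_mod, hn1, hi4]
        have a2 : ((n - 1) * k) % 4 = 1 := by rw [Nat.mul_mod, hn1, hk4]
        have a3 : (k + (n - 1) * i) % 4 = 2 := by rw [Nat.add_mod, a1, hk4]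
        have a4 : (i + (n - 1) * k) % 4 = 2 := by rw [Nat.add_mod, a2, hi4]
        have h := hform 3 1 2 2 1 3 a1 a2 a3 a4 hi4 hk4
        simp only [e0, e1, l3, hlpp, hw, hw3, hlp] at h
        exact type1 (l ^ 2) (pow_ne_zero 2 hl0) (by linear_combination h)
    · rcases hk4 with hk4 | hk4 | hk4 | hk4
      · have a1 : ((n - 1) * i) % 4 = 1 := by rw [Nat.mul_mod, hn1, hi4]
        have a2 : ((n - 1) * k) % 4 = 0 := by rw [Nat.mul_mod, hn1, hk4]
        have a3 : (k + (n - 1) * i) % 4 = 1 := by rw [Nat.add_mod, a1, hk4]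
        have a4 : (i + (n - 1) * k) % 4 = 3 := by rw [Nat.add_mod, a2, hi4]
        have h := hform 1 0 1 3 3 0 a1 a2 a3 a4 hi4 hk4
        simp only [e0, e1, l3, hlpp, hw, hw3, hlp] at h
        exact type2 l (-1) (Or.inl rfl) (Or.inr rfl) (mul_left_cancel₀ h2 (by linear_combination h))
      · have a1 : ((n - 1) * i) % 4 = 1 := by rw [Nat.mul_mod, hn1, hi4]
        have a2 : ((n - 1) * k) % 4 = 3 := by rw [Nat.mul_mod, hn1, hk4]
        have a3 : (k + (n - 1) * i) % 4 = 2 := by rw [Nat.add_mod, a1, hk4]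
        have a4 : (i + (n - 1) * k) % 4 = 2 := by rw [Nat.add_mod, a2, hi4]
        have h := hform 1 3 2 2 3 1 a1 a2 a3 a4 hi4 hk4
        simp only [e0, e1, l3, hlpp, hw, hw3, hlp] at h
        exact type1 (l ^ 2) (pow_ne_zero 2 hl0) (by linear_combination h)
      · have a1 : ((n - 1) * i) % 4 = 1 := by rw [Nat.mul_mod, hn1, hi4]
        have a2 : ((n - 1) * k) % 4 = 2 := by rw [Nat.mul_mod, hn1, hk4]
        have a3 : (k + (n - 1) * i) % 4 = 3 := by rw [Nat.add_mod, a1, hk4]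
        have a4 : (i + (n - 1) * k) % 4 = 1 := by rw [Nat.add_mod, a2, hi4]
        have h := hform 1 2 3 1 3 2 a1 a2 a3 a4 hi4 hk4
        simp only [e0, e1, l3, hlpp, hw, hw3, hlp] at h
        exact type1 l hl0 (by linear_combination h)
      · have a1 : ((n - 1) * i) % 4 = 1 := by rw [Nat.mul_mod, hn1, hi4]
        have a2 : ((n - 1) * k) % 4 = 1 := by rw [Nat.mul_mod, hn1, hk4]
        have a3 : (k + (n - 1) * i) % 4 = 0 := by rw [Nat.add_mod, a1, hk4]
        have a4 : (i + (n - 1) * k) % 4 = 0 := by rw [Nat.add_mod, a2, hi4]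
        have h := hform 1 1 0 0 3 3 a1 a2 a3 a4 hi4 hk4
        simp only [e0, e1, l3, hlpp, hw, hw3, hlp] at h
        exact type2 (l ^ 2) (-1) (Or.inr rfl) (Or.inr rfl) (mul_left_cancel₀ h2 (by linear_combination h))
  rcases hik with hi | hk
  · exact main i k hi h0
  · rw [Lg_symm] at h0
    exact main k i hk h0

end
end Pool.Agent.H470
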