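import Pool.Agent.H470.Wt7

/-!
# Parity of the rank of the twisted form in even degree
-/

set_option autoImplicit false
set_option linter.all false

namespace Pool.Agent.H470

open Module

section
variable {p : ℕ} [hp : Fact p.Prime] {L : Type} [Field L] [Fintype L] [DecidableEq L] [Algebra (ZMod p) L]

theorem padd_sum (m : ℕ) {ι : Type*} (s : Finset ι) (f : ι → L) :
    (∑ j ∈ s, f j) ^ p ^ m = ∑ j ∈ s, (f j) ^ p ^ m := by
  classical
  induction s using Finset.induction_on with
  | empty => rw [Finset.sum_empty, Finset.sum_empty, zero_pow (pow_ne_zero _ hp.out.ne_zero)]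
  | insert a s ha ih => rw [Finset.sum_insert ha, Finset.sum_insert ha, padd, ih]

theorem Lg_zero (n i k : ℕ) (l : L) : Lg p n i k l 0 = 0 := by
  have h := Lg_add (p := p) n i k l 0 0
  rw [add_zero] at h
  linear_combination -h

theorem Lg_sum (n i k : ℕ) (l : L) {ι : Type*} (s : Finset ι) (f : ι → L) :
    Lg p n i k l (∑ j ∈ s, f j) = ∑ j ∈ s, Lg p n i k l (f j) := by
  classical
  induction s using Finset.induction_on with
  | empty => rw [Finset.sum_empty, Finset.sum_empty, Lg_zero]
  | insert a s ha ih => rw [Finset.sum_insert ha, Finset.sum_insert ha, Lg_add, ih]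

theorem Lg_neg (n i k : ℕ) (l v : L) : Lg p n i k l (-v) = -Lg p n i k l v := by
  have h := Lg_add (p := p) n i k l v (-v)
  rw [add_neg_cancel, Lg_zero] at h
  linear_combination -h

/-- the mean over the powers of `Frob ^ 4` -/
def mean (p n : ℕ) (u : L) : L := ∑ t ∈ Finset.range n, u ^ p ^ (4 * t)

theorem mean_fix (n : ℕ) (hn : n = finrank (ZMod p) L) (u : L) : (mean p n u) ^ p ^ 4 = mean p n u := by
  unfold mean
  rw [padd_sum]
  have h1 : ∀ t, (u ^ p ^ (4 * t)) ^ p ^ 4 = u ^ p ^ (4 * (t + 1)) := by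
    intro t
    rw [← pow_mul, ← pow_add, mul_add, mul_one]
  simp only [h1]
  have h2 := Finset.sum_range_succ (fun t => u ^ p ^ (4 * t)) n
  have h3 := Finset.sum_range_succ' (fun t => u ^ p ^ (4 * t)) n
  have h4 : u ^ p ^ (4 * n) = u := by
    rw [hn, mul_comm]
    exact pow_full (p := p) 4 u
  simp only [mul_zero, pow_zero, pow_one, h4] at h2 h3
  rw [h2] at h3
  linear_combination -h3

theorem mean_Lg (n N i k : ℕ) (l : L) (hl : l ^ p ^ 4 = l) (u : L) :
    Lg p n i k l (mean p N u) = mean p N (Lg p n i k l u) := by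
  unfold mean
  rw [Lg_sum]
  apply Finset.sum_congr rfl
  intro t _
  apply Lg_p
  rw [red 4 l hl, Nat.mul_mod_right, pow_zero, pow_one]

theorem mean_of_fix (n : ℕ) (h : L) (hh : h ^ p ^ 4 = h) : mean p n h = n * h := by
  unfold mean
  have h1 : ∀ t ∈ Finset.range n, h ^ p ^ (4 * t) = h := by
    intro t _
    rw [red 4 h hh, Nat.mul_mod_right, pow_zero, pow_one]
  rw [Finset.sum_congr rfl h1, Finset.sum_const, Finset.card_range, nsmul_eq_mul]

theorem card_E (hn : 0 < finrank (ZMod p) L) :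
    (Finset.univ.filter fun x : L => x ^ p ^ 4 = x).card = p ^ Nat.gcd 4 (finrank (ZMod p) L) := by
  obtain ⟨n, hnn⟩ : ∃ n, n = finrank (ZMod p) L := ⟨_, rfl⟩
  rw [← hnn] at hn ⊢
  have hg : 0 < Nat.gcd 4 n := Nat.gcd_pos_of_pos_left _ (by norm_num)
  have hp1 := hp.out.one_lt
  have hgcd : Nat.gcd (p ^ 4 - 1) (Fintype.card L - 1) = p ^ Nat.gcd 4 n - 1 := by
    rw [card_L (p := p), ← hnn, Nat.pow_sub_one_gcd_pow_sub_one]
  have h1 : (Finset.univ.filter fun x : L => x ^ p ^ 4 = x) =
      (Finset.univ.filter fun x : L => x ^ p ^ Nat.gcd 4 n = x) := by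
    ext x
    rw [Finset.mem_filter, Finset.mem_filter]
    refine and_congr_right (fun _ => ?_)
    have key : ∀ Q : ℕ, 0 < Q → x ≠ 0 → (x ^ Q = x ↔ x ^ (Q - 1) = 1) := by
      intro Q hQ hx
      obtain ⟨Q', rfl⟩ : ∃ Q', Q = Q' + 1 := ⟨Q - 1, by omega⟩
      rw [Nat.add_sub_cancel, pow_succ]
      constructor
      · intro h
        apply mul_right_cancel₀ hx
        rw [h, one_mul]
      · intro h
        rw [h, one_mul]
    by_cases hx : x = 0
    · rw [hx, zero_pow (pow_ne_zero _ (by omega)), zero_pow (pow_ne_zero _ (by omega))]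
    · rw [key _ (pow_pos (by omega) _) hx, key _ (pow_pos (by omega) _) hx, ← hgcd, pow_gcd_eq_one]
      constructor
      · intro h
        exact ⟨h, FiniteField.pow_card_sub_one_eq_one _ hx⟩
      · intro h
        exact h.1
  rw [h1]
  apply card_fixQ
  · exact Nat.one_lt_pow hg.ne' hp1
  · rw [← hgcd]
    exact Nat.gcd_dvd_right _ _

theorem odd_rank_g (hp5 : 5 ≤ p) (i k : ℕ) (hn : finrank (ZMod p) L % 2 = 0) (hn0 : 0 < finrank (ZMod p) L)
    (hpn : ¬ p ∣ finrank (ZMod p) L) (hik : i % 2 = 1 ∨ k % 2 = 1) (l : L) (hl : l ^ 2 + l + 1 = 0)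
    (hlp : l ^ p = l ^ 2) (ρ z : ℕ) (h1 : finrank (ZMod p) L = ρ + z)
    (hz : (Finset.univ.filter fun v : L => ∀ u : L, bg p L l i k u v + bg p L l i k v u = 0).card = p ^ z) :
    Odd ρ := by
  classical
  haveI : FiniteDimensional (ZMod p) L := Module.Finite.of_finite
  haveI : CharP L p := charP_of_injective_algebraMap (algebraMap (ZMod p) L).injective p
  have h2 : (2 : ZMod p) ≠ 0 := by
    intro h
    have h' : ((2 : ℕ) : ZMod p) = 0 := by exact_mod_cast h
    rw [ZMod.natCast_eq_zero_iff] at h'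
    have := Nat.le_of_dvd (by norm_num) h'
    omega
  have h2L : (2 : L) ≠ 0 := by
    intro h
    have h' : ((2 : ℕ) : L) = 0 := by exact_mod_cast h
    rw [CharP.cast_eq_zero_iff L p] at h'
    have := Nat.le_of_dvd (by norm_num) h'
    omega
  have hl3 : l ^ 3 = 1 := by linear_combination (l - 1) * hl
  have hl0 : l ≠ 0 := by
    intro h
    rw [h] at hl3
    norm_num at hl3
  have hlpp : l ^ p ^ 2 = l := by
    rw [sq, pow_mul, hlp, ← pow_mul, mul_comm, pow_mul, hlp, ← pow_mul]
    linear_combination l * hl3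
  have hl4 : l ^ p ^ 4 = l := by
    rw [show (4 : ℕ) = 2 + 2 from rfl, pow_add, pow_mul, hlpp, hlpp]
  obtain ⟨n, hnn⟩ : ∃ n, n = finrank (ZMod p) L := ⟨_, rfl⟩
  obtain ⟨r, hr⟩ := alt_even h2 (ag p L (finrank (ZMod p) L) i k l) (ag_alt i k hn0 l hlpp)
  have hkeru := fun u : L => ag_ker (p := p) i k (by omega) l u
  obtain ⟨Λ, hΛ⟩ : ∃ Λ : L → L, Λ = Lg p (finrank (ZMod p) L) i k l := ⟨_, rfl⟩
  have hΛadd : ∀ x y : L, Λ (x + y) = Λ x + Λ y := fun x y => by rw [hΛ, Lg_add]
  have hΛneg : ∀ x : L, Λ (-x) = -Λ x := fun x => by rw [hΛ, Lg_neg]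
  -- the kernel of the polar form
  have hz' : (Finset.univ.filter fun v : L => Λ v = 0).card = p ^ z := by
    rw [← hz]
    congr 1
    ext v
    rw [Finset.mem_filter, Finset.mem_filter]
    refine and_congr_right (fun _ => ?_)
    constructor
    · intro h u
      rw [polar_g i k hn0, ← hΛ, h, mul_zero, map_zero]
    · intro h
      apply tr_nondeg (p := p)
      intro y
      rw [hΛ, mul_comm, ← polar_g i k hn0]
      exact h y
  have hker : Fintype.card (LinearMap.ker (ag p L (finrank (ZMod p) L) i k l)) =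
      (Finset.univ.filter fun v : L => (Λ v) ^ p ^ 4 = Λ v).card := by
    rw [Fintype.card_subtype]
    congr 1
    ext v
    rw [Finset.mem_filter, Finset.mem_filter]
    refine and_congr_right (fun _ => ?_)
    rw [LinearMap.mem_ker, hkeru, hΛ]
  -- fibres of the operator
  have hfibre : ∀ v0 : L, (Finset.univ.filter fun v : L => Λ v = Λ v0).card = p ^ z := by
    intro v0
    rw [← hz']
    refine Finset.card_bij' (fun v _ => v - v0) (fun v _ => v + v0) ?_ ?_ ?_ ?_
    · intro v hv
      rw [Finset.mem_filter] at hv ⊢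
      refine ⟨Finset.mem_univ _, ?_⟩
      rw [sub_eq_add_neg, hΛadd, hΛneg, hv.2, add_neg_cancel]
    · intro v hv
      rw [Finset.mem_filter] at hv ⊢
      exact ⟨Finset.mem_univ _, by rw [hΛadd, hv.2, zero_add]⟩
    · intro v _
      ring
    · intro v _
      ring
  obtain ⟨E, hE⟩ : ∃ E, E = Finset.univ.filter fun x : L => x ^ p ^ 4 = x := ⟨_, rfl⟩
  have hmE : ∀ x : L, x ∈ E ↔ x ^ p ^ 4 = x := by
    intro x
    rw [hE, Finset.mem_filter]
    exact and_iff_right (Finset.mem_univ _)
  have hΛE : ∀ v ∈ E, (Λ v) ^ p ^ 4 = Λ v := by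
    intro v hv
    rw [hmE] at hv
    rw [hΛ, ← Lg_p _ _ _ _ _ _ hl4, hv]
  -- the image
  have himg : ∀ u : L, (Λ u) ^ p ^ 4 = Λ u → Λ u ∈ E.image Λ := by
    intro u hu
    have hnp : ((n : ℕ) : ZMod p) ≠ 0 := by
      rw [Ne, ZMod.natCast_eq_zero_iff, hnn]
      exact hpn
    rw [Finset.mem_image]
    refine ⟨((n : ZMod p)⁻¹) • mean p n u, ?_, ?_⟩
    · rw [hmE, psmul, mean_fix n hnn]
    · rw [hΛ, Lg_smul, mean_Lg _ _ _ _ _ hl4, ← hΛ, mean_of_fix n _ hu]
      rw [Algebra.smul_def, map_inv₀, map_natCast]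
      have hnL : ((n : ℕ) : L) ≠ 0 := by
        rw [Ne, CharP.cast_eq_zero_iff L p, hnn]
        exact hpn
      field_simp
  have hcount1 : (Finset.univ.filter fun v : L => (Λ v) ^ p ^ 4 = Λ v).card = (E.image Λ).card * p ^ z := by
    have hmaps : Set.MapsTo Λ ((Finset.univ.filter fun v : L => (Λ v) ^ p ^ 4 = Λ v : Finset L) : Set L)
        ((E.image Λ : Finset L) : Set L) := by
      intro v hv
      rw [Finset.mem_coe, Finset.mem_filter] at hv
      exact himg v hv.2
    rw [Finset.card_eq_sum_card_fiberwise hmaps]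
    have h3 : ∀ h ∈ E.image Λ,
        ((Finset.univ.filter fun v : L => (Λ v) ^ p ^ 4 = Λ v).filter fun v => Λ v = h).card = p ^ z := by
      intro h hh
      rw [Finset.mem_image] at hh
      obtain ⟨v0, hv0, rfl⟩ := hh
      rw [← hfibre v0]
      congr 1
      ext v
      rw [Finset.mem_filter, Finset.mem_filter, Finset.mem_filter]
      constructor
      · rintro ⟨-, h⟩
        exact ⟨Finset.mem_univ _, h⟩
      · rintro ⟨-, h⟩
        refine ⟨⟨Finset.mem_univ _, ?_⟩, h⟩
        rw [h]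
        exact hΛE v0 hv0
    rw [Finset.sum_congr rfl h3, Finset.sum_const, smul_eq_mul]
  -- the kernel on `E`
  obtain ⟨ζ, hζ, hζp, hζv⟩ := Lg_two (p := p) n i k (by rw [hnn]; exact hn) (by rw [hnn]; exact hn0) hik l hl hlp
  have hζ3 : ζ ^ 3 = 1 := by linear_combination (ζ - 1) * hζ
  have hζ0 : ζ ≠ 0 := by
    intro h
    rw [h] at hζ3
    norm_num at hζ3
  rw [hnn, ← hΛ] at hζv
  have hkerE : ∀ v : L, (v ∈ E ∧ Λ v = 0) ↔ v ^ p = ζ * v := by
    intro v
    constructor
    · rintro ⟨hv, h0⟩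
      rw [hmE] at hv
      have hvv : v ^ p ^ 2 = v := by
        have hn4 : n % 4 = 0 ∨ n % 4 = 2 := by omega
        rcases hn4 with hn4 | hn4
        · have hw2 : (v + -(v ^ p ^ 2)) ^ p ^ 2 = -(v + -(v ^ p ^ 2)) := by
            have hneg : (-(v ^ p ^ 2)) ^ p ^ 2 = -v := by
              have h5 := psmul (p := p) 2 (-1) (v ^ p ^ 2)
              rw [neg_smul, one_smul, neg_smul, one_smul, ← pow_mul, ← pow_add, hv] at h5
              exact h5
            rw [padd, hneg]
            ring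
          have h5 : Λ (v + -(v ^ p ^ 2)) = 0 := by
            rw [hΛadd, hΛneg, h0]
            have : Λ (v ^ p ^ 2) = 0 := by
              rw [hΛ, Lg_p _ _ _ _ _ _ hlpp, ← hΛ, h0, zero_pow (pow_ne_zero _ hp.out.ne_zero)]
            rw [this]
            ring
          have h6 := Lg_four h2L n i k hn4 (by omega) hik l hl hlp _ hw2 (by rw [hnn, ← hΛ]; exact h5)
          linear_combination -h6
        · have h5 := pow_full (p := p) 1 v
          rw [mul_one, ← hnn, red 4 v hv, hn4] at h5
          exact h5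
      have h5 := hζv v hvv
      rw [h0] at h5
      have h6 := (mul_eq_zero.1 h5.symm).resolve_left h2L
      exact (sub_eq_zero.1 h6).symm
    · intro hv
      have hvv : v ^ p ^ 2 = v := by
        rw [sq, pow_mul, hv, mul_pow, hv, hζp]
        linear_combination v * hζ3
      refine ⟨(hmE v).2 ?_, ?_⟩
      · rw [show (4 : ℕ) = 2 + 2 from rfl, pow_add, pow_mul, hvv, hvv]
      · rw [hζv v hvv, hv]
        ring
  have hkercard : (Finset.univ.filter fun v : L => v ^ p = ζ * v).card = p := by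
    have h5 : (Finset.univ.filter fun v : L => v ^ p = ζ * v).card =
        (Finset.univ.filter fun x : L => x ^ p = x).card := by
      refine Finset.card_bij' (fun v _ => v / ζ) (fun v _ => ζ * v) ?_ ?_ ?_ ?_
      · intro v hv
        rw [Finset.mem_filter] at hv ⊢
        refine ⟨Finset.mem_univ _, ?_⟩
        rw [div_pow, hv.2, hζp]
        field_simp
      · intro v hv
        rw [Finset.mem_filter] at hv ⊢
        refine ⟨Finset.mem_univ _, ?_⟩
        rw [mul_pow, hv.2, hζp]
        ring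
      · intro v _
        field_simp
      · intro v _
        field_simp
    rw [h5, card_pfix]
  have hcount2 : E.card = (E.image Λ).card * p := by
    have hmaps : Set.MapsTo Λ (E : Set L) ((E.image Λ : Finset L) : Set L) := by
      intro v hv
      exact Finset.mem_image_of_mem _ hv
    rw [Finset.card_eq_sum_card_fiberwise hmaps]
    have h3 : ∀ h ∈ E.image Λ, (E.filter fun v => Λ v = h).card = p := by
      intro h hh
      rw [Finset.mem_image] at hh
      obtain ⟨v0, hv0, rfl⟩ := hh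
      conv_rhs => rw [← hkercard]
      have hneg4 : ∀ x : L, (-x) ^ p ^ 4 = -x ^ p ^ 4 := by
        intro x
        have h5 := psmul (p := p) 4 (-1) x
        rwa [neg_smul, one_smul, neg_smul, one_smul] at h5
      refine Finset.card_bij' (fun v _ => v + -v0) (fun v _ => v + v0) ?_ ?_ ?_ ?_
      · intro v hv
        rw [Finset.mem_filter] at hv ⊢
        refine ⟨Finset.mem_univ _, (hkerE _).1 ⟨?_, ?_⟩⟩
        · rw [hmE, padd, hneg4, (hmE v).1 hv.1, (hmE v0).1 hv0]
        · rw [hΛadd, hΛneg, hv.2, add_neg_cancel]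
      · intro v hv
        rw [Finset.mem_filter] at hv
        have h5 := (hkerE v).2 hv.2
        rw [Finset.mem_filter]
        refine ⟨?_, ?_⟩
        · rw [hmE, padd, (hmE v).1 h5.1, (hmE v0).1 hv0]
        · rw [hΛadd, h5.2, zero_add]
      · intro v _
        ring
      · intro v _
        ring
    rw [Finset.sum_congr rfl h3, Finset.sum_const, smul_eq_mul]
  have hEc := card_E (p := p) (L := L) hn0
  rw [← hE, hcount2] at hEc
  have hfin : p ^ (finrank (ZMod p) (LinearMap.ker (ag p L (finrank (ZMod p) L) i k l)) + 1) =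
      p ^ (z + Nat.gcd 4 (finrank (ZMod p) L)) := by
    rw [pow_succ, pow_add, ← hEc]
    have h5 : p ^ finrank (ZMod p) (LinearMap.ker (ag p L (finrank (ZMod p) L) i k l)) =
        (E.image Λ).card * p ^ z := by
      rw [← hcount1, ← hker, Module.card_eq_pow_finrank (K := ZMod p), ZMod.card]
    rw [h5]
    ring
  have h3 := Nat.pow_right_injective hp.out.two_le hfin
  have hg : Nat.gcd 4 (finrank (ZMod p) L) % 2 = 0 := by
    have h5 : 2 ∣ Nat.gcd 4 (finrank (ZMod p) L) :=
      Nat.dvd_gcd (by norm_num) (Nat.dvd_of_mod_eq_zero hn)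
    omega
  have hg0 : 0 < Nat.gcd 4 (finrank (ZMod p) L) := Nat.gcd_pos_of_pos_left _ (by norm_num)
  rw [← Nat.not_even_iff_odd, Nat.even_iff]
  omega

end
end Pool.Agent.H470
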