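import Pool.Agent.H470.Wt8

/-!
# Nice exponents of `p`-weight three
-/

set_option autoImplicit false
set_option linter.all false

namespace Pool.Agent.H470

open Module

section
variable {p : ℕ} [hp : Fact p.Prime] {L : Type} [Field L] [Fintype L] [DecidableEq L] [Algebra (ZMod p) L]

/-- a sign change of an exponential sum forces `a ∣ 2 b` -/
theorem dvd_of_sign (f : L → L) (φ : L → ZMod p) (hφ : φ 0 = 0) (ν : ZMod p) (ψ : AddChar (ZMod p) ℂ)
    (hsum : ∑ y : L, ψ (ν * φ (f y)) = -∑ y : L, ψ (φ (f y))) (a : ℕ) (ha0 : 0 < a)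
    (ha : ∀ c : L, c ≠ 0 → fc f c = 0 ∨ fc f c = a) : a ∣ 2 * fc f (0 : L) := by
  classical
  obtain ⟨h, hh⟩ : ∃ h : L → ℂ, h = fun c => ψ (ν * φ c) + ψ (φ c) := ⟨_, rfl⟩
  have hsum' : ∑ y : L, h (f y) = 0 := by
    have h5 : ∀ y : L, h (f y) = ψ (ν * φ (f y)) + ψ (φ (f y)) := by
      intro y
      rw [hh]
    rw [Finset.sum_congr rfl (fun y _ => h5 y), Finset.sum_add_distrib, hsum]
    ring
  have hfib : ∑ y : L, h (f y) = ∑ c : L, (fc f c : ℂ) * h c := by
    rw [← Finset.sum_fiberwise Finset.univ f (fun y => h (f y))]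
    apply Finset.sum_congr rfl
    intro c _
    rw [Finset.sum_congr rfl (fun t ht => by rw [(Finset.mem_filter.1 ht).2]), Finset.sum_const, nsmul_eq_mul]
    rfl
  have h00 : h 0 = 2 := by
    rw [hh]
    simp only [hφ, mul_zero, AddChar.map_zero_eq_one]
    norm_num
  obtain ⟨X, hX⟩ : ∃ X : ℂ, X = ∑ c ∈ Finset.univ.erase (0 : L), (if fc f c = a then h c else 0) := ⟨_, rfl⟩
  have hmain : X * (a : ℤ) = ((-(2 * fc f (0 : L) : ℤ) : ℤ) : ℂ) := by
    have h5 := Finset.add_sum_erase Finset.univ (fun c : L => (fc f c : ℂ) * h c) (Finset.mem_univ 0)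
    rw [← hfib, hsum'] at h5
    have h6 : ∑ c ∈ Finset.univ.erase (0 : L), (fc f c : ℂ) * h c = X * a := by
      rw [hX, Finset.sum_mul]
      apply Finset.sum_congr rfl
      intro c hc
      rw [Finset.mem_erase] at hc
      by_cases hca : fc f c = a
      · rw [if_pos hca, hca, mul_comm]
      · rw [if_neg hca, (ha c hc.1).resolve_right hca]
        simp
    rw [h6, h00] at h5
    push_cast
    linear_combination h5
  have hψint : ∀ t : ZMod p, IsIntegral ℤ (ψ t) := by
    intro t
    apply IsIntegral.of_pow hp.out.pos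
    rw [← AddChar.map_nsmul_eq_pow, nsmul_eq_mul, CharP.cast_eq_zero, zero_mul, AddChar.map_zero_eq_one]
    exact isIntegral_one
  have hint : IsIntegral ℤ X := by
    rw [hX]
    apply IsIntegral.sum
    intro c _
    split_ifs
    · rw [hh]
      exact (hψint _).add (hψint _)
    · exact isIntegral_zero
  obtain ⟨m, hm⟩ := int_of_rat X hint _ (a : ℤ) (by omega) hmain
  rw [hm] at hmain
  have h7 : m * (a : ℤ) = -(2 * fc f (0 : L) : ℤ) := by exact_mod_cast hmain
  have h8 : (a : ℤ) ∣ ((2 * fc f (0 : L) : ℕ) : ℤ) := by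
    refine ⟨-m, ?_⟩
    push_cast
    linear_combination h7
  exact_mod_cast h8

/-- even degree -/
theorem wt3_dvd_g (hp5 : 5 ≤ p) (i k : ℕ) (hn : finrank (ZMod p) L % 2 = 0) (hn0 : 0 < finrank (ZMod p) L)
    (hpn : ¬ p ∣ finrank (ZMod p) L) (hik : i % 2 = 1 ∨ k % 2 = 1) (l : L) (hl : l ^ 2 + l + 1 = 0)
    (hlp : l ^ p = l ^ 2) (a : ℕ) (ha0 : 0 < a)
    (ha : ∀ c : L, c ≠ 0 → fc (Q3 (p ^ i) (p ^ k)) c = 0 ∨ fc (Q3 (p ^ i) (p ^ k)) c = a) :
    a ∣ 2 * fc (Q3 (p ^ i) (p ^ k)) (0 : L) := by
  classical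
  have hp2 : p ≠ 2 := by omega
  have hchar : ringChar (ZMod p) ≠ 2 := by rwa [ZMod.ringChar_zmod_n]
  obtain ⟨ν, hν⟩ := FiniteField.exists_nonsquare hchar
  have hψ := ZMod.isPrimitive_stdAddChar p
  obtain ⟨ψ, hψψ⟩ : ∃ ψ : AddChar (ZMod p) ℂ, ψ = ZMod.stdAddChar := ⟨_, rfl⟩
  rw [← hψψ] at hψ
  obtain ⟨ρ, z, h1, h3, h4⟩ := quad_sign hp2 (bg p L l i k) ψ hψ ν hν
  have hρ := odd_rank_g hp5 i k hn hn0 hpn hik l hl hlp ρ z h1 h4
  rw [hρ.neg_one_pow] at h3
  refine dvd_of_sign (Q3 (p ^ i) (p ^ k)) (fun c => Algebra.trace (ZMod p) L (l * c))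
    (by simp only [mul_zero, map_zero]) ν ψ ?_ a ha0 ha
  have h5 : ∀ y : L, Algebra.trace (ZMod p) L (l * Q3 (p ^ i) (p ^ k) y) = bg p L l i k y y := by
    intro y
    rw [bg_apply]
    rfl
  simp only [h5]
  rw [h3]
  ring

end

section
variable {L : Type} [Field L] [Fintype L] [DecidableEq L]

theorem Q3_zero_iff (P R : ℕ) (hP : 0 < P) (hR : 0 < R)
    (hM : ∀ z : L, z + z ^ P + z ^ R = 0 → z = 0) : fc (Q3 P R) (0 : L) = 1 := by
  unfold fc
  rw [Finset.card_eq_one]
  refine ⟨0, ?_⟩
  ext y
  rw [Finset.mem_filter, Finset.mem_singleton]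
  constructor
  · rintro ⟨-, h⟩
    by_contra hy
    have h1 := hM y⁻¹ (by
      unfold Q3 at h
      rw [inv_pow, inv_pow]
      have e1 : y ^ P ≠ 0 := pow_ne_zero _ hy
      have e2 : y ^ R ≠ 0 := pow_ne_zero _ hy
      field_simp
      linear_combination h)
    exact (inv_ne_zero hy) h1
  · intro h
    refine ⟨Finset.mem_univ _, ?_⟩
    unfold Q3
    rw [h, zero_pow hP.ne', zero_pow hR.ne']
    ring

/-- **nice exponents of weight three** -/
theorem wt3_final (hp5 : 5 ≤ ringChar L) (n : ℕ) (hcard : Fintype.card L = ringChar L ^ n)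
    (hn : Odd n ∨ ¬ ringChar L ∣ n) (s : ℕ) (hcop : Nat.Coprime s (Fintype.card L - 1)) (i k j : ℕ)
    (hs : s ≡ (1 + ringChar L ^ i + ringChar L ^ k) * ringChar L ^ j [MOD Fintype.card L - 1])
    (hM : ∀ z : L, z + z ^ ringChar L ^ i + z ^ ringChar L ^ k = 0 → z = 0)
    (hnice : (Finset.univ.image (fc (Ds (L := L) s))).card ≤ 3) : ∃ v : L, fc (Ds s) v = 2 := by
  classical
  have hchar : ringChar L ≠ 2 := by omega
  have h2 := two_ne (L := L) hchar
  have hs0 := s_pos hchar s hcop
  have hPi := frob_add (L := L) i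
  have hPk := frob_add (L := L) k
  obtain ⟨e, he⟩ : ∃ e, e = 1 + ringChar L ^ i + ringChar L ^ k := ⟨_, rfl⟩
  have he0 : 0 < e := by omega
  have key : ∀ v : L, fc (Ds s) (v ^ (ringChar L) ^ j) = fc (Ds e) v := by
    intro v
    have h3 := twist (L := L) s e j hs0 he0 (by rw [he]; exact hs) v
    rw [pairs_eq] at h3
    exact h3
  have himg : Finset.univ.image (fc (Ds (L := L) s)) = Finset.univ.image (fc (Ds (L := L) e)) := by
    ext m
    rw [Finset.mem_image, Finset.mem_image]
    constructor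
    · rintro ⟨w, -, hw⟩
      obtain ⟨v, hv⟩ := (frob_bij (L := L) j).2 w
      simp only at hv
      rw [← hv, key v] at hw
      exact ⟨v, Finset.mem_univ _, hw⟩
    · rintro ⟨v, -, hv⟩
      exact ⟨v ^ (ringChar L) ^ j, Finset.mem_univ _, (key v).trans hv⟩
  rw [himg] at hnice
  haveI hpf : Fact (ringChar L).Prime := ⟨CharP.char_is_prime L (ringChar L)⟩
  letI : Algebra (ZMod (ringChar L)) L := ZMod.algebra L (ringChar L)
  have hppos : 0 < ringChar L := by omega
  have h4 : (4 : L) ≠ 0 := by
    have : (4 : L) = 2 * 2 := by norm_num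
    rw [this]
    exact mul_ne_zero h2 h2
  have hfcQ := fun c : L => fc_Q3 h2 (ringChar L ^ i) (ringChar L ^ k) hPi hPk c
  rw [← he] at hfcQ
  have hb := Q3_zero_iff (L := L) (ringChar L ^ i) (ringChar L ^ k) (pow_pos hppos _) (pow_pos hppos _) hM
  have hhalf : Ds e (2⁻¹ : L) = (1 + 0) / 4 := by
    have h5 := Ds_Q3 h2 (ringChar L ^ i) (ringChar L ^ k) hPi hPk 0
    have h6 : Q3 (ringChar L ^ i) (ringChar L ^ k) (0 : L) = 0 := by
      unfold Q3
      rw [zero_pow (pow_pos hppos _).ne']
      ring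
    rw [h6, ← he] at h5
    rw [← h5]
    congr 1
    ring
  have hbig : fc (Ds e) (Ds e (2⁻¹ : L)) < Fintype.card L := by
    rw [hhalf, hfcQ, hb]
    exact Fintype.one_lt_card
  obtain ⟨a, ha0, hae, hav, v1, hv1⟩ := nice_fc h2 (Ds e) (Ds_sym e) hnice hbig
  have ha : ∀ c : L, c ≠ 0 → fc (Q3 (ringChar L ^ i) (ringChar L ^ k)) c = 0 ∨
      fc (Q3 (ringChar L ^ i) (ringChar L ^ k)) c = a := by
    intro c hc
    rw [← hfcQ]
    apply hav
    rw [hhalf]
    intro h
    apply hc
    field_simp at h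
    linear_combination h
  have hcard' : ringChar L ^ finrank (ZMod (ringChar L)) L = ringChar L ^ n := by
    rw [← hcard, ← card_L (p := ringChar L)]
  have hnn : finrank (ZMod (ringChar L)) L = n := Nat.pow_right_injective hpf.out.two_le hcard'
  rcases Nat.even_or_odd n with hev | hodd
  · -- even degree: not nice
    exfalso
    have hpn : ¬ ringChar L ∣ n := hn.resolve_left (by rwa [Nat.not_odd_iff_even])
    have hn0 : 0 < n := by
      rcases Nat.eq_zero_or_pos n with h | h
      · exact absurd (h ▸ dvd_zero _) hpn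
      · exact h
    have hp3 : ringChar L % 3 ≠ 0 := by
      intro h
      have h5 := (Nat.prime_dvd_prime_iff_eq Nat.prime_three hpf.out).1 (Nat.dvd_of_mod_eq_zero h)
      omega
    have h3q : 3 ∣ Fintype.card L - 1 := by
      obtain ⟨t, ht⟩ := hev
      have h5 : ringChar L ^ 2 % 3 = 1 := by
        rw [Nat.pow_mod]
        have : ringChar L % 3 = 1 ∨ ringChar L % 3 = 2 := by omega
        rcases this with h | h <;> rw [h]
      have h6 : Fintype.card L % 3 = 1 := by
        rw [hcard, ht, ← two_mul, pow_mul, Nat.pow_mod, h5, one_pow]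
        norm_num
      omega
    have h3s : s % 3 ≠ 0 := by
      intro h
      have h5 := Nat.dvd_gcd (Nat.dvd_of_mod_eq_zero h) h3q
      rw [hcop] at h5
      omega
    have h3m : s ≡ (1 + ringChar L ^ i + ringChar L ^ k) * ringChar L ^ j [MOD 3] := hs.of_dvd h3q
    have h3e : e % 3 ≠ 0 := by
      intro h
      apply h3s
      rw [← he] at h3m
      unfold Nat.ModEq at h3m
      rw [h3m, Nat.mul_mod, h, zero_mul]
      norm_num
    have hp2 : ringChar L % 3 = 2 := by
      have h5 : ringChar L % 3 = 1 ∨ ringChar L % 3 = 2 := by omega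
      rcases h5 with h | h
      · exfalso
        apply h3e
        have h6 : ∀ t : ℕ, ringChar L ^ t % 3 = 1 := by
          intro t
          rw [Nat.pow_mod, h, one_pow]
          norm_num
        have h7 := h6 i
        have h8 := h6 k
        omega
      · exact h
    have hpow : ∀ t : ℕ, t % 2 = 0 → ringChar L ^ t % 3 = 1 := by
      intro t ht
      obtain ⟨c, hc⟩ := Nat.dvd_of_mod_eq_zero ht
      rw [hc, pow_mul, Nat.pow_mod, Nat.pow_mod (ringChar L) 2 3, hp2]
      norm_num
    have hik : i % 2 = 1 ∨ k % 2 = 1 := by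
      by_contra hcon
      push Not at hcon
      apply h3e
      have h7 := hpow i (by omega)
      have h8 := hpow k (by omega)
      omega
    obtain ⟨l, hl⟩ := exists_prim (L := L) 3 h3q
    have hl3 : l ^ 3 = 1 := hl.pow_eq_one
    have hl1 : l ≠ 1 := hl.ne_one (by norm_num)
    have hl0 : l ≠ 0 := by
      intro h
      rw [h] at hl3
      norm_num at hl3
    have hlq : l ^ 2 + l + 1 = 0 := by
      have h5 : (l - 1) * (l ^ 2 + l + 1) = 0 := by linear_combination hl3
      exact (mul_eq_zero.1 h5).resolve_left (sub_ne_zero.2 hl1)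
    have hlmod : ∀ t : ℕ, l ^ t = l ^ (t % 3) := by
      intro t
      conv_lhs => rw [← Nat.div_add_mod t 3, pow_add, pow_mul, hl3, one_pow, one_mul]
    have hlp : l ^ ringChar L = l ^ 2 := by rw [hlmod, hp2]
    have hdvd := wt3_dvd_g (p := ringChar L) hp5 i k (by rw [hnn]; exact Nat.even_iff.1 hev) (by rw [hnn]; exact hn0)
      (by rw [hnn]; exact hpn) hik l hlq hlp a ha0 ha
    rw [hb] at hdvd
    have ha2 := Nat.le_of_dvd (by norm_num) hdvd
    -- four solutions above `1`
    have heodd : Odd e := by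
      have hpo : Odd (ringChar L) := hpf.out.odd_of_ne_two hchar
      rw [he]
      exact (odd_one.add_odd hpo.pow).add_odd hpo.pow
    have hle : (l ^ e) ^ 2 + l ^ e + 1 = 0 := by
      rw [hlmod e]
      have h5 : e % 3 = 1 ∨ e % 3 = 2 := by omega
      rcases h5 with h | h
      · rw [h, pow_one]
        exact hlq
      · rw [h]
        linear_combination (l ^ 2 - l + 1) * hlq
    have hsol : ∀ m : L, m ^ 2 + m + 1 = 0 → (m ^ e) ^ 2 + m ^ e + 1 = 0 → Ds e (-m) = 1 := by
      intro m hm hme
      unfold Ds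
      have h5 : 1 - -m = -(m ^ 2) := by linear_combination hm
      rw [h5, heodd.neg_pow, heodd.neg_pow, ← pow_mul, mul_comm 2 e, pow_mul]
      linear_combination -hme
    have hs1 : Ds e (-l) = 1 := hsol l hlq hle
    have hs2 : Ds e (-(l ^ 2)) = 1 := by
      apply hsol
      · linear_combination (l ^ 2 - l + 1) * hlq
      · have h5 : (l ^ 2) ^ e = (l ^ e) ^ 2 := by rw [← pow_mul, mul_comm, pow_mul]
        rw [h5]
        linear_combination ((l ^ e) ^ 2 - l ^ e + 1) * hle
    have hs3 : Ds e (0 : L) = 1 := Ds_zero e he0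
    have hs4 : Ds e (1 : L) = 1 := by
      have h5 := Ds_sym (L := L) e 0
      rw [sub_zero] at h5
      rw [h5, hs3]
    have hfour : 4 ≤ fc (Ds e) (1 : L) := by
      unfold fc
      have hsub : ({0, 1, -l, -(l ^ 2)} : Finset L) ⊆ Finset.univ.filter fun x : L => Ds e x = 1 := by
        intro x hx
        rw [Finset.mem_filter]
        refine ⟨Finset.mem_univ _, ?_⟩
        rw [Finset.mem_insert, Finset.mem_insert, Finset.mem_insert, Finset.mem_singleton] at hx
        rcases hx with h | h | h | h <;> rw [h] <;> assumption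
      have hc : ({0, 1, -l, -(l ^ 2)} : Finset L).card = 4 := by
        have n1 : (0 : L) ≠ 1 := zero_ne_one
        have n2 : (0 : L) ≠ -l := fun h => hl0 (by linear_combination h)
        have n3 : (0 : L) ≠ -(l ^ 2) := fun h => (pow_ne_zero 2 hl0) (by linear_combination h)
        have n4 : (1 : L) ≠ -l := by
          intro h
          have h5 : l = -1 := by linear_combination h
          rw [h5] at hlq
          apply one_ne_zero (α := L)
          linear_combination hlq
        have n5 : (1 : L) ≠ -(l ^ 2) := by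
          intro h
          apply hl0
          linear_combination hlq - h
        have n6 : -l ≠ -(l ^ 2) := by
          intro h
          apply hl1
          have h5 : l * (l - 1) = 0 := by linear_combination h
          exact sub_eq_zero.1 ((mul_eq_zero.1 h5).resolve_left hl0)
        rw [Finset.card_insert_of_notMem, Finset.card_insert_of_notMem, Finset.card_insert_of_notMem,
          Finset.card_singleton]
        · rw [Finset.mem_singleton]
          exact n6
        · rw [Finset.mem_insert, Finset.mem_singleton]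
          rintro (h | h)
          · exact n4 h
          · exact n5 h
        · rw [Finset.mem_insert, Finset.mem_insert, Finset.mem_singleton]
          rintro (h | h | h)
          · exact n1 h
          · exact n2 h
          · exact n3 h
      rw [← hc]
      exact Finset.card_le_card hsub
    have hne : (1 : L) ≠ Ds e 2⁻¹ := by
      rw [hhalf]
      intro h
      field_simp at h
      have h3 : ((3 : ℕ) : L) = 0 := by
        push_cast
        linear_combination h
      have h5 := (ringChar.spec L 3).1 h3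
      have := Nat.le_of_dvd (by norm_num) h5
      omega
    rcases hav 1 hne with h | h <;> omega
  · -- odd degree
    have hdvd := wt3_dvd (p := ringChar L) hp5 i k (by rw [hnn]; exact hodd) a ha0 ha
    rw [hb] at hdvd
    have ha2 := Nat.le_of_dvd (by norm_num) hdvd
    have ha3 : a = 2 := by
      obtain ⟨t, ht⟩ := hae
      omega
    exact ⟨v1 ^ (ringChar L) ^ j, by rw [key, hv1, ha3]⟩

end
end Pool.Agent.H470
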